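import Pool.Agent.Mg.F5f4cddb.Gd49dc4

set_option linter.all false

section

set_option autoImplicit false
open Set MeasureTheory Metric Filter Topology
open scoped ENNReal Real Matrix

namespace Pool.Agent.MP_5f4cdd_gt.LJ

variable {N : ℕ} {J : Type}

noncomputable def li2 (w : ℂ) : ℂ := ∑' m : ℕ, w ^ (m + 1) / ((m + 1 : ℕ) : ℂ) ^ 2

/-- angle of the right corner; the left corner is at `± π` -/
noncomputable def bet (l : ℝ) : ℝ := π - 2 * π * l

/-- share of the upper (`true`) and of the lower (`false`) arc -/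
def wgt (l : ℝ) (e : Bool) : ℝ := if e then l else 1 - l

/-- angle of the boundary point over `p` on the arc `e` -/
noncomputable def ang (l : ℝ) (e : Bool) (p : ℝ) : ℝ := bet l + sg e * (π * wgt l e * (1 - p))

noncomputable def psiL (l : ℝ) (w : ℂ) : ℂ :=
  ((1 / (π ^ 2 * l * (1 - l)) : ℝ) : ℂ) * (li2 (w * Complex.exp (-(bet l : ℂ) * Complex.I)) - li2 (-w))

noncomputable def fL (l : ℝ) (e : Bool) (p : ℝ) : ℝ :=
  sg e * (psiL l (Complex.exp (ang l e p * Complex.I))).im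

/-- a lens whose two arcs carry the multiples `l` and `1 - l` of the uniform law on `[-1,1]` -/
structure Lens (ψ : ℂ → ℂ) (l : ℝ) (F : Bool → ℝ → ℝ) : Prop where
  adm : Adm ψ
  cont : ∀ e, Continuous (F e)
  conc : ∀ e, ConcaveOn ℝ (Icc (-1) 1) (F e)
  pos : ∀ e, 0 < F e 0
  gap : ∀ p : ℝ, |p| < 1 → 0 < F true p + F false p
  arc : ∀ e, ∀ p ∈ Icc (-1 : ℝ) 1, ψ (Complex.exp (ang l e p * Complex.I)) =
    (p : ℂ) + ((sg e * F e p : ℝ) : ℂ) * Complex.I
  inside : ∀ w ∈ closedBall (0 : ℂ) 1, |(ψ w).re| ≤ 1 ∧ ∀ e, sg e * (ψ w).im ≤ F e (ψ w).re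

noncomputable def vtx2 (n : J → Fin N → ℝ) (F : J → Bool → ℝ → ℝ) (s : Fin N → J)
    (e : Fin N → Bool) (x : Fin N → ℝ) : Fin N → ℝ :=
  solr n s fun i => sg (e i) * F (s i) (e i) (n (s i) ⬝ᵥ x)

def good2 (n : J → Fin N → ℝ) (F : J → Bool → ℝ → ℝ) (s : Fin N → J) (e : Fin N → Bool) :
    Set (Fin N → ℝ) :=
  {x | (∀ i, |n (s i) ⬝ᵥ x| < 1) ∧ (∀ j, |n j ⬝ᵥ x| ≤ 1) ∧
    ∀ j b, sg b * (n j ⬝ᵥ vtx2 n F s e x) ≤ F j b (n j ⬝ᵥ x)}

def NoTie2 (n : J → Fin N → ℝ) (F : J → Bool → ℝ → ℝ) (x : Fin N → ℝ) : Prop :=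
  ∀ (s : Fin N → J) (e : Fin N → Bool) (j : J) (b : Bool), dt n s ≠ 0 → j ∉ range s →
    |n j ⬝ᵥ x| ≤ 1 → sg b * (n j ⬝ᵥ vtx2 n F s e x) ≠ F j b (n j ⬝ᵥ x)

/-- the support function -/
noncomputable def hs (K : Set (Fin N → ℝ)) (y : Fin N → ℝ) : ℝ :=
  sSup ((fun x : Fin N → ℝ => ∑ i, x i * y i) '' K)

structure Li2Stmt : Prop where
  hasDerivAt : ∀ w ∈ ball (0 : ℂ) 1,
    HasDerivAt li2 (∑' m : ℕ, w ^ m / ((m + 1 : ℕ) : ℂ)) w
  mul_deriv : ∀ w ∈ ball (0 : ℂ) 1, w * deriv li2 w = -Complex.log (1 - w)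
  cont : ContinuousOn li2 (closedBall 0 1)
  re : ∀ x ∈ Icc (0 : ℝ) 1,
    (li2 (Complex.exp ((2 * π * x : ℝ) * Complex.I))).re = π ^ 2 * (x ^ 2 - x + 1 / 6)

def AdmLStmt : Prop := ∀ l ∈ Ioo (0 : ℝ) 1, Adm (psiL l)

def ReLStmt : Prop := ∀ l ∈ Ioo (0 : ℝ) 1, ∀ e : Bool, ∀ p ∈ Icc (-1 : ℝ) 1,
  (psiL l (Complex.exp (ang l e p * Complex.I))).re = p

def ConcLStmt : Prop := ∀ l ∈ Ioo (0 : ℝ) 1, ∀ e : Bool, ConcaveOn ℝ (Icc (-1) 1) (fL l e)

def LensStmt : Prop := ∀ l ∈ Ioo (0 : ℝ) 1, Lens (psiL l) l (fL l)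

def H1Stmt : Prop :=
  ∀ (N : ℕ) (J : Type) (ψ : J → ℂ → ℂ) (l : J → ℝ) (F : J → Bool → ℝ → ℝ),
    (∀ j, l j ∈ Ioo (0 : ℝ) 1) → (∀ j, Lens (ψ j) (l j) (F j)) →
    ∀ (n : J → Fin N → ℝ) (s : Fin N → J), dt n s ≠ 0 →
    volume (feas ψ n s) ≤ ∑ e : Fin N → Bool,
      ENNReal.ofReal (π ^ N * (∏ i, wgt (l (s i)) (e i)) * |dt n s|) * volume (good2 n F s e)

def H2Stmt : Prop :=
  ∀ (N : ℕ) (J : Type) [Fintype J] [DecidableEq J] (F : J → Bool → ℝ → ℝ),
    (∀ j b, Continuous (F j b)) → (∀ j b, ConcaveOn ℝ (Icc (-1) 1) (F j b)) →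
    (∀ j b, 0 < F j b 0) → ∀ (n : J → Fin N → ℝ) (ρ : J → ℝ), (∀ j, 0 < ρ j ∧ ρ j < 1) →
    ∃ r : J → ℝ, (∀ j, r j ∈ Icc (ρ j) 1) ∧ ∀ᵐ x : Fin N → ℝ, NoTie2 (fun j => r j • n j) F x

def H3Stmt : Prop :=
  ∀ (N : ℕ) (J : Type) [DecidableEq J] (m : J → Fin N → ℝ) (b : J → ℝ)
    (T : Finset (Fin N → J)) (ξ : (Fin N → J) → Fin N → ℝ),
    (∀ τ ∈ T, dt m τ ≠ 0) → (∀ τ ∈ T, ∀ i, m (τ i) ⬝ᵥ ξ τ = b (τ i)) →
    (∀ τ ∈ T, ∀ j, m j ⬝ᵥ ξ τ ≤ b j) → (∀ τ ∈ T, ∀ j, j ∉ range τ → m j ⬝ᵥ ξ τ ≠ b j) →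
    ∀ u : (Fin N → ℝ) → ℝ, (∀ τ ∈ T, ∀ c : Fin N → ℝ, (∀ i, 0 < c i) →
      u (∑ i, c i • m (τ i)) ≤ ∑ i, c i) →
    ∑ τ ∈ T, ENNReal.ofReal |dt m τ| ≤
      N.factorial * ∫⁻ y : Fin N → ℝ, ENNReal.ofReal (Real.exp (-u y))

def H4Stmt : Prop :=
  ∀ (N : ℕ) (K : Set (Fin N → ℝ)), IsCompact K → (0 : Fin N → ℝ) ∈ interior K →
    ∀ U : Set (Fin N → ℝ), IsOpen U →
    {x : Fin N → ℝ | ∀ y, (hs K y + hs K (-y)) * ∑ i, x i * y i ≤ hs K y * hs K (-y)} ⊆ U →
    ∃ (J : Type) (_ : Fintype J) (_ : DecidableEq J) (n : J → Fin N → ℝ) (l ρ : J → ℝ)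
      (s0 : Fin N → J), (∀ j, l j ∈ Ioo (0 : ℝ) 1) ∧ (∀ j, 0 < ρ j ∧ ρ j < 1) ∧ dt n s0 ≠ 0 ∧
      (∀ j b, ∀ y ∈ K, ((sg b * wgt (l j) b) • n j) ⬝ᵥ y ≤ 1) ∧
      ∀ r : J → ℝ, (∀ j, r j ∈ Icc (ρ j) 1) → {x | ∀ j, |(r j • n j) ⬝ᵥ x| ≤ 1} ⊆ U

def H5Stmt : Prop :=
  ∀ (N : ℕ) (J : Type) [Fintype J] [DecidableEq J] (n : J → Fin N → ℝ) (l : J → ℝ)
    (s0 : Fin N → J), (∀ j, l j ∈ Ioo (0 : ℝ) 1) → dt n s0 ≠ 0 →
    (∀ᵐ x : Fin N → ℝ, NoTie2 n (fun j => fL (l j)) x) → ∀ u : (Fin N → ℝ) → ℝ,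
    (∀ (s : Fin N → J) (e : Fin N → Bool) (c : Fin N → ℝ), (∀ i, 0 < c i) →
      u (∑ i, c i • ((sg (e i) * wgt (l (s i)) (e i)) • n (s i))) ≤ ∑ i, c i) →
    (2 : ℝ≥0∞) ^ N ≤ volume {x : Fin N → ℝ | ∀ j, |n j ⬝ᵥ x| ≤ 1} *
      ∫⁻ y : Fin N → ℝ, ENNReal.ofReal (Real.exp (-u y))

def ChordStmt : Prop :=
  ∀ (N : ℕ) (K : Set (Fin N → ℝ)), IsCompact K → (0 : Fin N → ℝ) ∈ interior K →
    (2 : ℝ≥0∞) ^ N ≤
      volume {x : Fin N → ℝ | ∀ y, (hs K y + hs K (-y)) * ∑ i, x i * y i ≤ hs K y * hs K (-y)} *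
        ∫⁻ y : Fin N → ℝ, ENNReal.ofReal (Real.exp (-hs K y))

/-- for `-K ⊆ a K` -/
def AsymStmt : Prop :=
  ∀ (N : ℕ) (K : Set (Fin N → ℝ)), Convex ℝ K → IsCompact K → (interior K).Nonempty →
    ∀ a : ℝ, 1 ≤ a → (∀ x ∈ K, -(a⁻¹ • x) ∈ K) →
    ENNReal.ofReal ((2 + 2 / a) ^ N) ≤
      volume K * ∫⁻ y : Fin N → ℝ, ENNReal.ofReal (Real.exp (-hs K y))

/-- difference body form, any position -/
def DiffStmt : Prop :=
  ∀ (N : ℕ) (K : Set (Fin N → ℝ)), Convex ℝ K → IsCompact K → (interior K).Nonempty →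
    (8 : ℝ≥0∞) ^ N ≤ volume {z : Fin N → ℝ | ∃ x ∈ K, ∃ y ∈ K, z = x - y} *
      ∫⁻ y : Fin N → ℝ, ENNReal.ofReal (Real.exp (-hs K y))

end Pool.Agent.MP_5f4cdd_gt.LJ

end

section

set_option autoImplicit false
open Set MeasureTheory Metric Filter Topology
open scoped ENNReal Real Matrix

namespace Pool.Agent.MP_5f4cdd_gt.LJ

/-- difference quotients of a function whose derivative has positive real part -/
theorem quot_PsiAdm {F F' : ℂ → ℂ} (h : ∀ z ∈ ball (0 : ℂ) 1, HasDerivAt F (F' z) z)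
    (hp : ∀ z ∈ ball (0 : ℂ) 1, 0 < (F' z).re) {a b : ℂ} (ha : a ∈ ball (0 : ℂ) 1)
    (hb : b ∈ ball (0 : ℂ) 1) (hab : a ≠ b) : (F a / (b - a)).re < (F b / (b - a)).re := by
  have hd : b - a ≠ 0 := sub_ne_zero.2 hab.symm
  have hm : ∀ t ∈ Icc (0 : ℝ) 1, a + t * (b - a) ∈ ball (0 : ℂ) 1 := fun t ht =>
    (convex_ball (0 : ℂ) 1).add_smul_sub_mem ha hb ht
  have hg : ∀ t ∈ Icc (0 : ℝ) 1, HasDerivAt (fun t : ℝ => (F (a + t * (b - a)) / (b - a)).re)
      (F' (a + t * (b - a))).re t := by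
    intro t ht
    have h1 : HasDerivAt (fun z : ℂ => a + z * (b - a)) (b - a) t := by
      simpa using ((hasDerivAt_id (t : ℂ)).mul_const (b - a)).const_add a
    have h2 := ((h _ (hm t ht)).comp (t : ℂ) h1).div_const (b - a)
    rw [mul_div_cancel_right₀ _ hd] at h2
    exact h2.real_of_complex
  have := strictMonoOn_of_deriv_pos (convex_Icc (0 : ℝ) 1)
    (fun t ht => (hg t ht).continuousAt.continuousWithinAt)
    (fun t ht => by
      rw [(hg t (interior_subset ht)).deriv]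
      exact hp _ (hm t (interior_subset ht)))
    (left_mem_Icc.2 zero_le_one) (right_mem_Icc.2 zero_le_one) zero_lt_one
  simpa using this

theorem re_PsiAdm {z : ℂ} (hz : z ∈ ball (0 : ℂ) 1) : 0 < (1 + z).re ∧ 0 < (1 - z).re := by
  have h := abs_lt.1 ((Complex.abs_re_le_norm z).trans_lt (mem_ball_zero_iff.1 hz))
  rw [Complex.add_re, Complex.sub_re, Complex.one_re]
  constructor <;> linarith [h.1, h.2]

theorem inv_PsiAdm {z : ℂ} (hz : 0 < z.re) : 0 < (z⁻¹).re := by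
  rw [Complex.inv_re]
  exact div_pos hz (Complex.normSq_pos.2 fun h => by simp [h] at hz)

theorem log_PsiAdm {w : ℂ} (hw : w ∈ ball (0 : ℂ) 1) (h0 : w ≠ 0) :
    0 < ((Complex.log (1 + w) - Complex.log (1 - w)) / w).re := by
  have := quot_PsiAdm (F := fun z => Complex.log (1 + z) - Complex.log (1 - z))
    (F' := fun z => (1 + z)⁻¹ + (1 - z)⁻¹) (fun z hz => by
      have h1 := ((hasDerivAt_id z).const_add 1).clog (Or.inl (re_PsiAdm hz).1)
      have h2 := ((hasDerivAt_id z).const_sub 1).clog (Or.inl (re_PsiAdm hz).2)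
      refine (h1.sub h2).congr_deriv ?_
      simp only [id, neg_div, one_div, sub_neg_eq_add])
    (fun z hz => by
      rw [Complex.add_re]
      exact add_pos (inv_PsiAdm (re_PsiAdm hz).1) (inv_PsiAdm (re_PsiAdm hz).2))
    (mem_ball_self zero_lt_one) hw h0.symm
  simpa using this

theorem pos_PsiAdm (h : Psi1Stmt) {w : ℂ} (hw : w ∈ ball (0 : ℂ) 1) : 0 < (deriv psi0 w).re := by
  by_cases h0 : w = 0
  · subst h0
    rw [(h.hasDerivAt 0 hw).deriv, tsum_eq_single 0 fun m hm => by simp [hm],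
      Complex.re_ofReal_mul]
    simp only [mul_zero, pow_zero, zero_add, Nat.cast_one, div_one, Complex.one_re, mul_one]
    positivity
  · rw [eq_div_of_mul_eq h0 ((mul_comm _ _).trans (h.mul_deriv w hw)), mul_div_assoc,
      Complex.re_ofReal_mul]
    exact mul_pos (by positivity) (log_PsiAdm hw h0)

theorem adm_stmt (h : Psi1Stmt) : AdmStmt := by
  refine ⟨fun w hw => (h.hasDerivAt w hw).differentiableAt.differentiableWithinAt, h.cont,
    fun a ha b hb e => ?_, by simp [psi0], fun w hw e => ?_⟩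
  · by_contra hab
    have := quot_PsiAdm (fun z hz => (h.hasDerivAt z hz).differentiableAt.hasDerivAt)
      (fun z hz => pos_PsiAdm h hz) ha hb hab
    rw [e] at this
    exact lt_irrefl _ this
  · have := pos_PsiAdm h hw
    rw [e, Complex.zero_re] at this
    exact lt_irrefl _ this

end Pool.Agent.MP_5f4cdd_gt.LJ

end

section

set_option autoImplicit false
open Set MeasureTheory Metric Filter Topology
open scoped ENNReal Real Matrix

namespace Pool.Agent.MP_5f4cdd_gt.LJ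

theorem der_AdmL (h : Li2Stmt) {a w : ℂ} (ha : ‖a‖ = 1) (hw : w ∈ ball (0 : ℂ) 1) :
    w * a ∈ ball (0 : ℂ) 1 ∧ -w ∈ ball (0 : ℂ) 1 ∧ HasDerivAt (fun w => li2 (w * a) - li2 (-w))
      (deriv li2 (w * a) * a + deriv li2 (-w)) w := by
  have h1 : w * a ∈ ball (0 : ℂ) 1 := by
    rwa [mem_ball_zero_iff, norm_mul, ha, mul_one, ← mem_ball_zero_iff]
  have h2 : -w ∈ ball (0 : ℂ) 1 := by rwa [mem_ball_zero_iff, norm_neg, ← mem_ball_zero_iff]
  have h3 := (h.hasDerivAt _ h1).differentiableAt.hasDerivAt.comp w (hasDerivAt_mul_const a)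
  have h4 := (h.hasDerivAt _ h2).differentiableAt.hasDerivAt.comp w (hasDerivAt_neg' w)
  exact ⟨h1, h2, (h3.sub h4).congr_deriv (by ring)⟩

theorem pos_AdmL (h : Li2Stmt) {a w : ℂ} (ha : ‖a‖ = 1) (ha' : a + 1 ≠ 0)
    (hw : w ∈ ball (0 : ℂ) 1) : 0 < ((deriv li2 (w * a) * a + deriv li2 (-w)) / (a + 1)).re := by
  obtain ⟨h1, h2, -⟩ := der_AdmL h ha hw
  by_cases h0 : w = 0
  · subst h0
    rw [zero_mul, neg_zero, (h.hasDerivAt 0 hw).deriv, tsum_eq_single 0 fun m hm => by simp [hm]]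
    simp [ha']
  have e : w * a - -w = w * (a + 1) := by ring
  have h3 := quot_PsiAdm (F := fun z => -Complex.log (1 - z)) (F' := fun z => (1 - z)⁻¹)
    (fun z hz => (((hasDerivAt_id z).const_sub 1).clog (Or.inl (re_PsiAdm hz).2)).neg.congr_deriv
      (by simp only [id, neg_div, one_div, neg_neg]))
    (fun z hz => inv_PsiAdm (re_PsiAdm hz).2) h2 h1 fun e' => mul_ne_zero h0 ha' (by
      rw [← e, ← e', sub_self])
  rw [← sub_pos, ← Complex.sub_re, ← sub_div, ← h.mul_deriv _ h1, ← h.mul_deriv _ h2, e] at h3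
  rw [← mul_div_mul_left _ _ h0]
  exact h3.trans_eq (by ring_nf)

theorem adm_AdmL (h : Li2Stmt) {a C : ℂ} (ha : ‖a‖ = 1) (ha' : a + 1 ≠ 0) (hC : C ≠ 0) :
    Adm fun w => C * (li2 (w * a) - li2 (-w)) := by
  refine ⟨fun w hw => ((der_AdmL h ha hw).2.2.const_mul C).differentiableAt.differentiableWithinAt,
    ?_, fun x hx y hy e => ?_, by simp, fun w hw e => ?_⟩
  · refine continuousOn_const.mul ((h.cont.comp (by fun_prop) fun w hw => ?_).sub
      (h.cont.comp (by fun_prop) fun w hw => ?_))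
    · rwa [mem_closedBall_zero_iff, norm_mul, ha, mul_one, ← mem_closedBall_zero_iff]
    · rwa [mem_closedBall_zero_iff, norm_neg, ← mem_closedBall_zero_iff]
  · by_contra hxy
    have := quot_PsiAdm (fun z hz => (der_AdmL h ha hz).2.2.div_const (a + 1))
      (fun z hz => pos_AdmL h ha ha' hz) hx hy hxy
    rw [mul_left_cancel₀ hC e] at this
    exact lt_irrefl _ this
  · have := pos_AdmL h ha ha' hw
    rw [((der_AdmL h ha hw).2.2.const_mul C).deriv] at e
    rw [(mul_eq_zero.1 e).resolve_left hC, zero_div, Complex.zero_re] at this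
    exact lt_irrefl _ this

theorem admL_stmt (h : Li2Stmt) : AdmLStmt := by
  intro l hl
  have h1 := hl.1
  have h2 := sub_pos.2 hl.2
  have h3 := Real.pi_pos
  refine adm_AdmL h ?_ (fun e => ?_) (Complex.ofReal_ne_zero.2 (by positivity))
  · rw [← Complex.ofReal_neg, Complex.norm_exp_ofReal_mul_I]
  · have := congrArg Complex.re e
    rw [← Complex.ofReal_neg, Complex.add_re, Complex.exp_ofReal_mul_I_re, Real.cos_neg, bet,
      Real.cos_pi_sub, Complex.one_re, Complex.zero_re, neg_add_eq_zero,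
      Real.cos_eq_one_iff_of_lt_of_lt (by nlinarith) (by nlinarith)] at this
    exact absurd this (by positivity)

end Pool.Agent.MP_5f4cdd_gt.LJ

end

section

set_option autoImplicit false
open Set MeasureTheory Metric Filter Topology
open scoped ENNReal Real Matrix

namespace Pool.Agent.MP_5f4cdd_gt.LJ

theorem core_ReL (h : Li2Stmt) {l p x1 x2 : ℝ} (hl : l ∈ Ioo (0 : ℝ) 1) {w : ℂ}
    (h1 : x1 ∈ Icc (0 : ℝ) 1) (h2 : x2 ∈ Icc (0 : ℝ) 1)
    (e1 : w * Complex.exp (-(bet l : ℂ) * Complex.I) =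
      Complex.exp ((2 * π * x1 : ℝ) * Complex.I))
    (e2 : -w = Complex.exp ((2 * π * x2 : ℝ) * Complex.I))
    (e3 : (x1 - x2) * (x1 + x2 - 1) = l * (1 - l) * p) : (psiL l w).re = p := by
  have hl0 : l ≠ 0 := hl.1.ne'
  have hl1 : 1 - l ≠ 0 := (sub_pos.2 hl.2).ne'
  have hpi : π ≠ 0 := Real.pi_ne_zero
  rw [psiL, Complex.re_ofReal_mul, Complex.sub_re, e1, e2, h.re x1 h1, h.re x2 h2]
  have : π ^ 2 * (x1 ^ 2 - x1 + 1 / 6) - π ^ 2 * (x2 ^ 2 - x2 + 1 / 6) =
      π ^ 2 * l * (1 - l) * p := by linear_combination π ^ 2 * e3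
  rw [this]
  field_simp

theorem neg_exp_ReL (a b : ℝ) (hab : b = a + π) :
    -Complex.exp (a * Complex.I) = Complex.exp (b * Complex.I) := by
  rw [hab]
  push_cast
  rw [add_mul, Complex.exp_add, Complex.exp_pi_mul_I]
  ring

theorem reL_stmt (h : Li2Stmt) : ReLStmt := by
  intro l hl e p hp
  obtain ⟨l0, l1⟩ := hl
  obtain ⟨p0, p1⟩ := hp
  cases e with
  | true =>
    refine core_ReL h ⟨l0, l1⟩ (x1 := l * (1 - p) / 2) (x2 := 1 - l * (1 + p) / 2)
      ⟨by nlinarith, by nlinarith⟩ ⟨by nlinarith, by nlinarith⟩ ?_ ?_ (by ring)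
    · rw [← Complex.exp_add]
      congr 1
      simp only [ang, sg, wgt, if_true]
      push_cast
      ring
    · refine neg_exp_ReL _ _ ?_
      simp only [ang, bet, sg, wgt, if_true]
      ring
  | false =>
    refine core_ReL h ⟨l0, l1⟩ (x1 := 1 - (1 - l) * (1 - p) / 2) (x2 := (1 - l) * (1 + p) / 2)
      ⟨by nlinarith, by nlinarith⟩ ⟨by nlinarith, by nlinarith⟩ ?_ ?_ (by ring)
    · rw [← Complex.exp_add, ← Complex.exp_periodic]
      congr 1
      simp only [ang, sg, wgt, Bool.false_eq_true, if_false]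
      push_cast
      ring
    · refine neg_exp_ReL _ _ ?_
      simp only [ang, bet, sg, wgt, Bool.false_eq_true, if_false]
      ring

end Pool.Agent.MP_5f4cdd_gt.LJ

end

section

set_option autoImplicit false
open Set MeasureTheory Metric Filter Topology
open scoped ENNReal Real Matrix

namespace Pool.Agent.MP_5f4cdd_gt.LJ

/-- the imaginary part of the dilogarithm on the unit circle -/
noncomputable def cl_ConcL (θ : ℝ) : ℝ := (li2 (Complex.exp (θ * Complex.I))).im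

theorem norm_ConcL (s θ : ℝ) : ‖(s : ℂ) * Complex.exp (θ * Complex.I)‖ = |s| := by
  rw [norm_mul, Complex.norm_exp_ofReal_mul_I, mul_one, Complex.norm_real, Real.norm_eq_abs]

theorem cont_ConcL (h : Li2Stmt) : Continuous cl_ConcL :=
  Complex.continuous_im.comp (h.cont.comp_continuous (by fun_prop) fun θ => by
    rw [mem_closedBall_zero_iff, Complex.norm_exp_ofReal_mul_I])

theorem inner_ConcL (h : Li2Stmt) {r : ℝ} (hr : |r| < 1) (θ : ℝ) :
    HasDerivAt (fun θ : ℝ => (li2 (r * Complex.exp (θ * Complex.I))).im)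
      (-Real.log ‖1 - (r : ℂ) * Complex.exp (θ * Complex.I)‖) θ := by
  have hw : (r : ℂ) * Complex.exp (θ * Complex.I) ∈ ball (0 : ℂ) 1 := by
    rwa [mem_ball_zero_iff, norm_ConcL]
  have h1 := (((hasDerivAt_id (θ : ℂ)).mul_const Complex.I).cexp).const_mul (r : ℂ)
  have h2 := ((h.hasDerivAt _ hw).differentiableAt.hasDerivAt.comp (θ : ℂ) h1).comp_ofReal
  have h3 := Complex.imCLM.hasFDerivAt.comp_hasDerivAt θ h2
  refine h3.congr_deriv ?_
  have h4 := congrArg Complex.re (h.mul_deriv _ hw)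
  rw [Complex.neg_re, Complex.log_re] at h4
  rw [← h4, Complex.imCLM_apply, id, one_mul, ← mul_assoc, ← mul_assoc, Complex.mul_I_im,
    mul_assoc, mul_comm]

theorem lim_ConcL (h : Li2Stmt) (θ : ℝ) :
    Tendsto (fun r : ℝ => (li2 (r * Complex.exp (θ * Complex.I))).im) (𝓝[<] 1)
      (𝓝 (cl_ConcL θ)) := by
  have hc : ContinuousWithinAt li2 (closedBall 0 1) (Complex.exp (θ * Complex.I)) :=
    h.cont _ (by rw [mem_closedBall_zero_iff, Complex.norm_exp_ofReal_mul_I])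
  refine (Complex.continuous_im.tendsto _).comp (hc.tendsto.comp
    (f := fun r : ℝ => (r : ℂ) * Complex.exp (θ * Complex.I)) ?_)
  refine tendsto_nhdsWithin_iff.2 ⟨tendsto_nhdsWithin_of_tendsto_nhds ?_, ?_⟩
  · exact (Complex.continuous_ofReal.mul continuous_const).tendsto' 1 _ (by simp)
  · filter_upwards [Ioo_mem_nhdsLT (zero_lt_one' ℝ)] with r hr
    rw [mem_closedBall_zero_iff, norm_ConcL, abs_of_pos hr.1]
    exact hr.2.le

theorem sin_ConcL (θ : ℝ) :
    ‖1 - ((1 : ℝ) : ℂ) * Complex.exp (θ * Complex.I)‖ = |2 * Real.sin (θ / 2)| := by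
  rw [Complex.ofReal_one, one_mul, norm_sub_rev, mul_comm, Complex.norm_exp_I_mul_ofReal_sub_one,
    Real.norm_eq_abs]

theorem deriv_ConcL (h : Li2Stmt) {θ : ℝ} (hθ : Real.sin (θ / 2) ≠ 0) :
    HasDerivAt cl_ConcL (-Real.log (2 * Real.sin (θ / 2))) θ := by
  have hG : ContinuousAt
      (fun q : ℝ × ℝ => -Real.log ‖1 - (q.1 : ℂ) * Complex.exp (q.2 * Complex.I)‖) (1, θ) := by
    refine (ContinuousAt.log (by fun_prop) ?_).neg
    rw [sin_ConcL]
    exact abs_ne_zero.2 (mul_ne_zero two_ne_zero hθ)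
  have key := hasDerivAt_of_tendstoUniformlyOnFilter (l := 𝓝[<] (1 : ℝ)) (x := θ)
    (f := fun r θ : ℝ => (li2 (r * Complex.exp (θ * Complex.I))).im) (g := cl_ConcL)
    (f' := fun r θ : ℝ => -Real.log ‖1 - (r : ℂ) * Complex.exp (θ * Complex.I)‖)
    (g' := fun θ : ℝ => -Real.log ‖1 - ((1 : ℝ) : ℂ) * Complex.exp (θ * Complex.I)‖)
    (by
      rw [tendstoUniformlyOnFilter_iff_tendsto]
      refine (Tendsto.prodMk_nhds ?_ ?_).mono_right (nhds_le_uniformity
        (-Real.log ‖1 - ((1 : ℝ) : ℂ) * Complex.exp (θ * Complex.I)‖))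
      · exact hG.tendsto.comp (f := fun q : ℝ × ℝ => ((1 : ℝ), q.2))
          (tendsto_const_nhds.prodMk_nhds tendsto_snd)
      · exact hG.tendsto.comp (f := fun q : ℝ × ℝ => (q.1, q.2))
          ((tendsto_fst.mono_right nhdsWithin_le_nhds).prodMk_nhds tendsto_snd))
    (by
      filter_upwards [tendsto_fst.eventually (Ioo_mem_nhdsLT (zero_lt_one' ℝ))] with q hq
      exact inner_ConcL h (by rw [abs_of_pos hq.1]; exact hq.2) _)
    (Eventually.of_forall (lim_ConcL h))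
  rwa [sin_ConcL, Real.log_abs] at key

theorem form_ConcL (l : ℝ) (e : Bool) (p : ℝ) :
    fL l e p = sg e * (1 / (π ^ 2 * l * (1 - l)) *
      (cl_ConcL (sg e * (π * wgt l e * (1 - p))) -
        cl_ConcL (2 * π * (1 - l) + sg e * (π * wgt l e * (1 - p))))) := by
  have e1 : Complex.exp (ang l e p * Complex.I) * Complex.exp (-(bet l : ℂ) * Complex.I) =
      Complex.exp ((sg e * (π * wgt l e * (1 - p)) : ℝ) * Complex.I) := by
    rw [← Complex.exp_add, ang]
    congr 1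
    push_cast
    ring
  have e2 : -Complex.exp (ang l e p * Complex.I) =
      Complex.exp ((2 * π * (1 - l) + sg e * (π * wgt l e * (1 - p)) : ℝ) * Complex.I) := by
    rw [← Complex.exp_add_pi_mul_I, ang, bet]
    congr 1
    push_cast
    ring
  rw [fL, psiL, e1, e2, Complex.im_ofReal_mul, Complex.sub_im, cl_ConcL, cl_ConcL]

theorem anti_ConcL {a p q : ℝ} (ha : 0 < a) (ha' : a < π / 2) (hp : p ∈ Ioo (-1 : ℝ) 1)
    (hq : q ∈ Ioo (-1 : ℝ) 1) (hpq : p ≤ q) :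
    Real.log (2 * Real.sin (a * (1 - q))) - Real.log (2 * Real.sin (a * (1 + q))) ≤
      Real.log (2 * Real.sin (a * (1 - p))) - Real.log (2 * Real.sin (a * (1 + p))) := by
  have s : ∀ t : ℝ, 0 < t → t < 2 → 0 < 2 * Real.sin (a * t) := fun t t0 t2 =>
    mul_pos two_pos (Real.sin_pos_of_pos_of_lt_pi (mul_pos ha t0) (by nlinarith))
  have s1 := s (1 - q) (by linarith [hq.2]) (by linarith [hq.1])
  have s2 := s (1 + q) (by linarith [hq.1]) (by linarith [hq.2])
  have s3 := s (1 - p) (by linarith [hp.2]) (by linarith [hp.1])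
  have s4 := s (1 + p) (by linarith [hp.1]) (by linarith [hp.2])
  rw [sub_le_sub_iff, ← Real.log_mul s1.ne' s4.ne', ← Real.log_mul s3.ne' s2.ne']
  refine Real.log_le_log (mul_pos s1 s4) ?_
  have b1 : 0 ≤ Real.sin (2 * a) := Real.sin_nonneg_of_nonneg_of_le_pi (by linarith) (by linarith)
  have b2 : 0 ≤ Real.sin (a * q - a * p) := Real.sin_nonneg_of_nonneg_of_le_pi (by nlinarith)
    (by nlinarith [hp.1, hq.2])
  have b3 := mul_nonneg b1 b2
  rw [Real.sin_two_mul, Real.sin_sub] at b3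
  simp only [mul_sub, mul_add, mul_one, Real.sin_sub, Real.sin_add]
  nlinarith

theorem concL_stmt (h : Li2Stmt) : ConcLStmt := by
  intro l hl e
  have w0 : 0 < wgt l e ∧ wgt l e < 1 := by
    cases e <;> simp only [wgt] <;> constructor <;> simp [hl.1, hl.2]
  have hπ := Real.pi_pos
  have ha : 0 < π * wgt l e / 2 := by have := w0.1; positivity
  have ha' : π * wgt l e / 2 < π / 2 := by nlinarith [w0.2]
  have hC : 0 ≤ 1 / (π ^ 2 * l * (1 - l)) * (π * wgt l e) := by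
    have := hl.1
    have := sub_pos.2 hl.2
    have := w0.1
    positivity
  have hd : ∀ p ∈ Ioo (-1 : ℝ) 1, HasDerivAt (fL l e)
      (1 / (π ^ 2 * l * (1 - l)) * (π * wgt l e) *
        (Real.log (2 * Real.sin (π * wgt l e / 2 * (1 - p))) -
          Real.log (2 * Real.sin (π * wgt l e / 2 * (1 + p))))) p := by
    intro p hp
    have s : ∀ t : ℝ, 0 < t → t < 2 → Real.sin (π * wgt l e / 2 * t) ≠ 0 := fun t t0 t2 =>
      (Real.sin_pos_of_pos_of_lt_pi (mul_pos ha t0) (by nlinarith)).ne'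
    have s1 := s (1 - p) (by linarith [hp.2]) (by linarith [hp.1])
    have s2 := s (1 + p) (by linarith [hp.1]) (by linarith [hp.2])
    have e1 : Real.sin (sg e * (π * wgt l e * (1 - p)) / 2) =
        sg e * Real.sin (π * wgt l e / 2 * (1 - p)) := by
      cases e
      · rw [show sg false = -1 from rfl, neg_one_mul, neg_one_mul, ← Real.sin_neg]
        congr 1
        ring
      · rw [show sg true = 1 from rfl, one_mul, one_mul]
        congr 1
        ring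
    have e2 : Real.sin ((2 * π * (1 - l) + sg e * (π * wgt l e * (1 - p))) / 2) =
        Real.sin (π * wgt l e / 2 * (1 + p)) := by
      cases e
      · rw [show sg false = -1 from rfl, show wgt l false = 1 - l from rfl]
        congr 1
        ring
      · rw [show sg true = 1 from rfl, show wgt l true = l from rfl, ← Real.sin_pi_sub]
        congr 1
        ring
    have g0 : sg e ≠ 0 := fun z => by simpa [z] using sg_mul_self e
    have g1 : Real.log (2 * (sg e * Real.sin (π * wgt l e / 2 * (1 - p)))) =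
        Real.log (2 * Real.sin (π * wgt l e / 2 * (1 - p))) := by
      rw [← Real.log_abs, abs_mul, abs_mul, sg_abs, one_mul, ← abs_mul, Real.log_abs]
    have d0 : HasDerivAt (fun p : ℝ => sg e * (π * wgt l e * (1 - p)))
        (sg e * (π * wgt l e * -1)) p :=
      (((hasDerivAt_id p).const_sub 1).const_mul _).const_mul _
    have d1 := (deriv_ConcL h (by rw [e1]; exact mul_ne_zero g0 s1)).comp p d0
    have d2 := (deriv_ConcL h (by rw [e2]; exact s2)).comp p (d0.const_add (2 * π * (1 - l)))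
    rw [e1, g1] at d1
    rw [e2] at d2
    have d3 := ((d1.sub d2).const_mul (1 / (π ^ 2 * l * (1 - l)))).const_mul (sg e)
    refine (d3.congr_deriv ?_).congr_of_eventuallyEq (Eventually.of_forall (form_ConcL l e))
    linear_combination (1 / (π ^ 2 * l * (1 - l)) * (π * wgt l e) *
        (Real.log (2 * Real.sin (π * wgt l e / 2 * (1 - p))) -
          Real.log (2 * Real.sin (π * wgt l e / 2 * (1 + p))))) * sg_mul_self e
  have hc : Continuous (fL l e) := by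
    rw [show fL l e = _ from funext (form_ConcL l e)]
    have := cont_ConcL h
    fun_prop
  refine AntitoneOn.concaveOn_of_deriv (convex_Icc _ _) hc.continuousOn ?_ ?_ <;>
    rw [interior_Icc]
  · exact fun p hp => (hd p hp).differentiableAt.differentiableWithinAt
  · intro p hp q hq hpq
    rw [(hd p hp).deriv, (hd q hq).deriv]
    exact mul_le_mul_of_nonneg_left (anti_ConcL ha ha' hp hq hpq) hC

end Pool.Agent.MP_5f4cdd_gt.LJ

end

section

set_option autoImplicit false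
open Set MeasureTheory Metric Filter Topology
open scoped ENNReal Real Matrix

namespace Pool.Agent.MP_5f4cdd_gt.LJ

theorem mem_Lens (θ : ℝ) : Complex.exp (θ * Complex.I) ∈ closedBall (0 : ℂ) 1 := by
  rw [mem_closedBall_zero_iff, Complex.norm_exp_ofReal_mul_I]

theorem cont_Lens {l : ℝ} (hA : Adm (psiL l)) (e : Bool) : Continuous (fL l e) := by
  unfold fL
  refine continuous_const.mul
    (Complex.continuous_im.comp (hA.cont.comp_continuous ?_ fun p => mem_Lens _))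
  unfold ang
  fun_prop

theorem arc_Lens (hR : ReLStmt) {l : ℝ} (hl : l ∈ Ioo (0 : ℝ) 1) (e : Bool) (p : ℝ)
    (hp : p ∈ Icc (-1 : ℝ) 1) : psiL l (Complex.exp (ang l e p * Complex.I)) =
      (p : ℂ) + ((sg e * fL l e p : ℝ) : ℂ) * Complex.I := by
  have h1 : sg e * fL l e p = (psiL l (Complex.exp (ang l e p * Complex.I))).im := by
    unfold fL
    rw [← mul_assoc, sg_mul_self, one_mul]
  rw [h1]
  conv_rhs => rw [← hR l hl e p hp]
  rw [hR l hl e p hp]
  conv_lhs => rw [← Complex.re_add_im (psiL l (Complex.exp (ang l e p * Complex.I))),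
    hR l hl e p hp]

theorem end1_Lens (l : ℝ) : fL l true 1 + fL l false 1 = 0 := by
  have h : ang l false 1 = ang l true 1 := by simp [ang]
  unfold fL
  rw [h]
  simp [sg]

theorem end2_Lens (l : ℝ) : fL l true (-1) + fL l false (-1) = 0 := by
  have h1 : ang l true (-1) = π := by
    simp only [ang, bet, sg, wgt, if_true]
    ring
  have h2 : ang l false (-1) = -π := by
    simp only [ang, bet, sg, wgt, Bool.false_eq_true, if_false]
    ring
  have h3 : Complex.exp (((-π : ℝ) : ℂ) * Complex.I) = Complex.exp ((π : ℂ) * Complex.I) := by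
    rw [Complex.ofReal_neg, neg_mul, Complex.exp_neg, Complex.exp_pi_mul_I]
    norm_num
  unfold fL
  rw [h1, h2, h3]
  simp [sg]

theorem gap0_Lens {g : ℝ → ℝ} (hg : ConcaveOn ℝ (Icc (-1) 1) g) (e1 : g 1 = 0) (e2 : g (-1) = 0)
    (p : ℝ) (hp : p ∈ Icc (-1 : ℝ) 1) : 0 ≤ g p := by
  have h := hg.2 (left_mem_Icc.2 (by norm_num)) (right_mem_Icc.2 (by norm_num))
    (by linarith [hp.2] : 0 ≤ (1 - p) / 2) (by linarith [hp.1] : 0 ≤ (1 + p) / 2) (by ring)
  have e : ((1 - p) / 2) • (-1 : ℝ) + ((1 + p) / 2) • (1 : ℝ) = p := by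
    simp only [smul_eq_mul]
    ring
  rw [e, e1, e2] at h
  simpa using h

theorem gap_Lens {g : ℝ → ℝ} (hg : ConcaveOn ℝ (Icc (-1) 1) g) (e1 : g 1 = 0) (e2 : g (-1) = 0)
    (e0 : 0 < g 0) (p : ℝ) (hp : |p| < 1) : 0 < g p := by
  have hp' := abs_lt.1 hp
  have h0 : (0 : ℝ) ∈ Icc (-1 : ℝ) 1 := ⟨by norm_num, by norm_num⟩
  rcases le_total 0 p with h | h
  · have h1 := hg.2 h0 (right_mem_Icc.2 (by norm_num)) (by linarith : 0 ≤ 1 - p) h (by ring)
    simp only [smul_eq_mul, mul_zero, mul_one, zero_add, e1, add_zero] at h1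
    exact lt_of_lt_of_le (mul_pos (by linarith) e0) h1
  · have h1 := hg.2 h0 (left_mem_Icc.2 (by norm_num)) (by linarith : 0 ≤ 1 + p)
      (by linarith : 0 ≤ -p) (by ring)
    simp only [smul_eq_mul, mul_zero, mul_neg, mul_one, neg_neg, zero_add, e2, add_zero] at h1
    exact lt_of_lt_of_le (mul_pos (by linarith) e0) h1

theorem ang_Lens {l : ℝ} (hl : l ∈ Ioo (0 : ℝ) 1) {θ : ℝ} (h1 : -π ≤ θ) (h2 : θ ≤ π) :
    ∃ e : Bool, ∃ p ∈ Icc (-1 : ℝ) 1, θ = ang l e p := by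
  have hπ := Real.pi_pos
  rcases le_total (bet l) θ with h | h
  · have hd : 0 < π * l := mul_pos hπ hl.1
    refine ⟨true, 1 - (θ - bet l) / (π * l), ⟨?_, ?_⟩, ?_⟩
    · have : (θ - bet l) / (π * l) ≤ 2 := by
        rw [div_le_iff₀ hd, bet]
        linarith
      linarith
    · have : 0 ≤ (θ - bet l) / (π * l) := div_nonneg (by linarith) hd.le
      linarith
    · simp only [ang, sg, wgt, if_true]
      have := hl.1.ne'
      field_simp
      ring
  · have hd : 0 < π * (1 - l) := mul_pos hπ (by linarith [hl.2])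
    refine ⟨false, 1 - (bet l - θ) / (π * (1 - l)), ⟨?_, ?_⟩, ?_⟩
    · have : (bet l - θ) / (π * (1 - l)) ≤ 2 := by
        rw [div_le_iff₀ hd, bet]
        linarith
      linarith
    · have : 0 ≤ (bet l - θ) / (π * (1 - l)) := div_nonneg (by linarith) hd.le
      linarith
    · simp only [ang, sg, wgt, Bool.false_eq_true, if_false]
      have : 1 - l ≠ 0 := by linarith [hl.2]
      field_simp
      ring

theorem inside_Lens (hA : AdmLStmt) (hR : ReLStmt) (hC : ConcLStmt) (hM : MaxPStmt) {l : ℝ}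
    (hl : l ∈ Ioo (0 : ℝ) 1) : ∀ w ∈ closedBall (0 : ℂ) 1,
      |(psiL l w).re| ≤ 1 ∧ ∀ e, sg e * (psiL l w).im ≤ fL l e (psiL l w).re := by
  have hg0 := gap0_Lens ((hC l hl true).add (hC l hl false)) (end1_Lens l) (end2_Lens l)
  refine hM (psiL l) {ζ : ℂ | |ζ.re| ≤ 1 ∧ ∀ e, sg e * ζ.im ≤ fL l e ζ.re} (hA l hl).hol
    (hA l hl).cont ?_ ?_ ?_
  · rintro x ⟨hx1, hx2⟩ y ⟨hy1, hy2⟩ a b ha hb hab
    have er : (a • x + b • y).re = a • x.re + b • y.re := by simp
    have ei : (a • x + b • y).im = a * x.im + b * y.im := by simp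
    have hx := abs_le.1 hx1
    have hy := abs_le.1 hy1
    refine ⟨?_, fun e => ?_⟩
    · rw [er]
      exact abs_le.2 (convex_Icc (-1 : ℝ) 1 hx hy ha hb hab)
    · have h := (hC l hl e).2 hx hy ha hb hab
      rw [er, ei]
      simp only [smul_eq_mul] at h ⊢
      have a1 := mul_le_mul_of_nonneg_left (hx2 e) ha
      have b1 := mul_le_mul_of_nonneg_left (hy2 e) hb
      linarith
  · have : {ζ : ℂ | |ζ.re| ≤ 1 ∧ ∀ e, sg e * ζ.im ≤ fL l e ζ.re} =
        {ζ : ℂ | |ζ.re| ≤ 1} ∩ ⋂ e, {ζ : ℂ | sg e * ζ.im ≤ fL l e ζ.re} := by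
      ext ζ
      simp
    rw [this]
    exact (isClosed_le Complex.continuous_re.abs continuous_const).inter
      (isClosed_iInter fun e => isClosed_le (continuous_const.mul Complex.continuous_im)
        ((cont_Lens (hA l hl) e).comp Complex.continuous_re))
  · intro w hw
    have hw1 : ‖w‖ = 1 := mem_sphere_zero_iff_norm.1 hw
    have e : w = Complex.exp (Complex.arg w * Complex.I) := by
      have := Complex.norm_mul_exp_arg_mul_I w
      rw [hw1] at this
      simpa using this.symm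
    obtain ⟨b, p, hp, hb⟩ := ang_Lens hl (Complex.neg_pi_lt_arg w).le (Complex.arg_le_pi w)
    rw [e, hb, arc_Lens hR hl b p hp]
    have h0 : 0 ≤ fL l true p + fL l false p := hg0 p hp
    have hre : ((p : ℂ) + ((sg b * fL l b p : ℝ) : ℂ) * Complex.I).re = p := by simp
    have him : ((p : ℂ) + ((sg b * fL l b p : ℝ) : ℂ) * Complex.I).im = sg b * fL l b p := by
      simp
    refine ⟨?_, fun c => ?_⟩
    · rw [hre]
      exact abs_le.2 hp
    · rw [hre, him]
      cases b <;> cases c <;> simp only [sg, Bool.false_eq_true, if_true, if_false] <;> linarith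

theorem lens_stmt (hI : InvStmt) (hA : AdmLStmt) (hR : ReLStmt) (hC : ConcLStmt)
    (hM : MaxPStmt) : LensStmt := by
  intro l hl
  have hin := inside_Lens hA hR hC hM hl
  have hpos : ∀ e, 0 < fL l e 0 := by
    intro e
    have h0 : (0 : ℂ) ∈ psiL l '' ball 0 1 := ⟨0, mem_ball_self one_pos, (hA l hl).zero⟩
    obtain ⟨ε, hε, hb⟩ := Metric.isOpen_iff.1 (hI.isOpen _ (hA l hl)) 0 h0
    have hm : ((sg e * (ε / 2) : ℝ) : ℂ) * Complex.I ∈ ball (0 : ℂ) ε := by
      rw [mem_ball_zero_iff, norm_mul, Complex.norm_I, mul_one, Complex.norm_real, Real.norm_eq_abs,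
        abs_mul, sg_abs, one_mul, abs_of_pos (half_pos hε)]
      exact half_lt_self hε
    obtain ⟨w, hw, hw'⟩ := hb hm
    have h1 := (hin w (ball_subset_closedBall hw)).2 e
    have hre : (psiL l w).re = 0 := by
      rw [hw', Complex.mul_I_re, Complex.ofReal_im, neg_zero]
    have him : (psiL l w).im = sg e * (ε / 2) := by
      rw [hw', Complex.mul_I_im, Complex.ofReal_re]
    rw [hre, him, ← mul_assoc, sg_mul_self, one_mul] at h1
    exact lt_of_lt_of_le (half_pos hε) h1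
  exact ⟨hA l hl, cont_Lens (hA l hl), hC l hl, hpos,
    gap_Lens ((hC l hl true).add (hC l hl false)) (end1_Lens l) (end2_Lens l)
      (add_pos (hpos true) (hpos false)),
    arc_Lens hR hl, hin⟩

end Pool.Agent.MP_5f4cdd_gt.LJ

end

section

set_option autoImplicit false
open Set MeasureTheory Metric Filter Topology
open scoped ENNReal Real Matrix

namespace Pool.Agent.MP_5f4cdd_gt.LJ

theorem ang_H1 {l : ℝ} (hl : l ∈ Ioo (0 : ℝ) 1) {θ : ℝ} (h1 : θ ∈ Ioc (-π) π)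
    (h0 : θ ≠ bet l) (hπ : θ ≠ π) : ∃ (e : Bool) (p : ℝ), |p| < 1 ∧ θ = ang l e p := by
  have hp := Real.pi_pos
  have key : ∀ t c : ℝ, 0 < t → t < 2 * c → |1 - t / c| < 1 := fun t c a b => by
    have hc : 0 < c := by linarith
    have h2 : 0 < t / c := by positivity
    have h3 : t / c < 2 := by rwa [div_lt_iff₀ hc]
    exact abs_lt.2 ⟨by linarith, by linarith⟩
  have hl0 := hl.1.ne'
  have hl1 : 1 - l ≠ 0 := (sub_pos.2 hl.2).ne'
  rcases h0.lt_or_gt with h | h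
  · refine ⟨false, 1 - (bet l - θ) / (π * (1 - l)), key _ _ (by linarith) ?_, ?_⟩
    · have := h1.1
      rw [bet]
      linarith
    · simp only [ang, sg, wgt, Bool.false_eq_true, if_false]
      field_simp
      ring
  · refine ⟨true, 1 - (θ - bet l) / (π * l), key _ _ (by linarith) ?_, ?_⟩
    · have := lt_of_le_of_ne h1.2 hπ
      rw [bet]
      linarith
    · simp only [ang, sg, wgt, if_true]
      field_simp
      ring

theorem vol_H1 {N : ℕ} {J : Type} {l : J → ℝ} (hl : ∀ j, l j ∈ Ioo (0 : ℝ) 1)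
    (n : J → Fin N → ℝ) (s : Fin N → J) (e : Fin N → Bool) (S : Set (Fin N → ℝ)) :
    volume ((fun x i => ang (l (s i)) (e i) (n (s i) ⬝ᵥ x)) '' S) =
      ENNReal.ofReal (π ^ N * (∏ i, wgt (l (s i)) (e i)) * |dt n s|) * volume S := by
  have e1 : (fun (x : Fin N → ℝ) i => ang (l (s i)) (e i) (n (s i) ⬝ᵥ x)) =
      (fun y => (fun i => bet (l (s i)) + sg (e i) * (π * wgt (l (s i)) (e i))) + y) ∘
        Matrix.toLin' (Matrix.diagonal (fun i => -(sg (e i) * (π * wgt (l (s i)) (e i)))) *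
          mat n s) := by
    funext x i
    rw [Function.comp_apply, Pi.add_apply, Matrix.toLin'_apply, ← Matrix.mulVec_mulVec,
      Matrix.mulVec_diagonal, mat_mulVec, ang]
    ring
  rw [e1, image_comp, image_add_left, measure_preimage_add, Measure.addHaar_image_linearMap,
    LinearMap.det_toLin', Matrix.det_mul, Matrix.det_diagonal, abs_mul, Finset.abs_prod]
  have e2 : ∀ i, |-(sg (e i) * (π * wgt (l (s i)) (e i)))| = π * wgt (l (s i)) (e i) := fun i => by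
    have h : 0 < wgt (l (s i)) (e i) := by
      unfold wgt
      split_ifs
      · exact (hl _).1
      · exact sub_pos.2 (hl _).2
    rw [abs_neg, abs_mul, sg_abs, one_mul, abs_of_pos (mul_pos Real.pi_pos h)]
  simp only [e2, Finset.prod_mul_distrib, Finset.prod_const, Finset.card_univ, Fintype.card_fin, dt]

theorem h1_stmt : H1Stmt := by
  intro N J ψ l F hl hL n s hs
  have hae : ∀ᵐ θ : Fin N → ℝ, ∀ i, θ i ≠ bet (l (s i)) ∧ θ i ≠ π := ae_all_iff.2 fun i =>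
    (Measure.ae_eval_ne (fun _ : Fin N => (volume : Measure ℝ)) i _).and
      (Measure.ae_eval_ne (fun _ : Fin N => (volume : Measure ℝ)) i π)
  have hsub : feas ψ n s ≤ᵐ[volume] (⋃ e : Fin N → Bool,
      (fun x i => ang (l (s i)) (e i) (n (s i) ⬝ᵥ x)) '' good2 n F s e : Set (Fin N → ℝ)) := by
    filter_upwards [hae] with θ hθ h
    obtain ⟨hb, hf⟩ : θ ∈ feas ψ n s := h
    choose e p h1 h4 using fun i => ang_H1 (hl (s i)) (hb i (mem_univ i)) (hθ i).1 (hθ i).2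
    have h0 : ∀ i, ψ (s i) (Complex.exp (θ i * Complex.I)) =
        (p i : ℂ) + ((sg (e i) * F (s i) (e i) (p i) : ℝ) : ℂ) * Complex.I := fun i => by
      rw [h4 i]
      exact (hL (s i)).arc _ _ (abs_le.1 (h1 i).le)
    have h2 : ∀ i, (ψ (s i) (Complex.exp (θ i * Complex.I))).re = p i := fun i => by
      rw [h0, Complex.add_re, Complex.ofReal_re, Complex.re_ofReal_mul, Complex.I_re, mul_zero,
        add_zero]
    have h3 : ∀ i, (ψ (s i) (Complex.exp (θ i * Complex.I))).im =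
        sg (e i) * F (s i) (e i) (p i) := fun i => by
      rw [h0, Complex.add_im, Complex.ofReal_im, Complex.im_ofReal_mul, Complex.I_im, mul_one,
        zero_add]
    have hj : ∀ j, |n j ⬝ᵥ solr n s p| ≤ 1 ∧ ∀ b,
        sg b * (n j ⬝ᵥ vtx2 n F s e (solr n s p)) ≤ F j b (n j ⬝ᵥ solr n s p) := fun j => by
      obtain ⟨w, hw, ew⟩ := hf j
      have h5 := (hL j).inside w hw
      rw [ew, dotc_re, dotc_im, solc_re, solc_im] at h5
      simpa only [h2, h3, vtx2, dot_solr hs] using h5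
    refine mem_iUnion.2 ⟨e, solr n s p, ⟨fun i => ?_, fun j => (hj j).1, fun j => (hj j).2⟩, ?_⟩
    · rw [dot_solr hs]
      exact h1 i
    · funext i
      beta_reduce
      rw [dot_solr hs]
      exact (h4 i).symm
  refine (measure_mono_ae hsub).trans ((measure_iUnion_fintype_le _ _).trans (le_of_eq ?_))
  exact Finset.sum_congr rfl fun e _ => vol_H1 hl n s e _

end Pool.Agent.MP_5f4cdd_gt.LJ

end

section

set_option autoImplicit false
open Set MeasureTheory Metric Filter Topology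
open scoped ENNReal Real Matrix

namespace Pool.Agent.MP_5f4cdd_gt.LJ

theorem le_hs_H4 {N : ℕ} {K : Set (Fin N → ℝ)} (hK : IsCompact K) (y : Fin N → ℝ)
    {x : Fin N → ℝ} (hx : x ∈ K) : y ⬝ᵥ x ≤ hs K y := by
  have h : ∑ i, x i * y i ≤ hs K y :=
    le_csSup (hK.image (f := fun x : Fin N → ℝ => ∑ i, x i * y i) (by fun_prop)).bddAbove
      ⟨x, hx, rfl⟩
  rwa [dotProduct_comm]

theorem hs_pos_H4 {N : ℕ} {K : Set (Fin N → ℝ)} (hK : IsCompact K)
    (h0 : (0 : Fin N → ℝ) ∈ interior K) {y : Fin N → ℝ} (hy : y ≠ 0) : 0 < hs K y := by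
  obtain ⟨ε, hε, hb⟩ := Metric.mem_nhds_iff.1 (mem_interior_iff_mem_nhds.1 h0)
  have hn : 0 < ‖y‖ := norm_pos_iff.2 hy
  have hc : 0 < ε / 2 / ‖y‖ := by positivity
  have hm : (ε / 2 / ‖y‖) • y ∈ K := by
    apply hb
    rw [mem_ball_zero_iff, norm_smul, Real.norm_eq_abs, abs_of_pos hc, div_mul_cancel₀ _ hn.ne']
    linarith
  have h1 := le_hs_H4 hK y hm
  rw [dotProduct_smul, smul_eq_mul] at h1
  have h2 : 0 < y ⬝ᵥ y :=
    lt_of_le_of_ne (Finset.sum_nonneg fun i _ => mul_self_nonneg (y i))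
      fun h => hy (dotProduct_self_eq_zero.1 h.symm)
  exact (mul_pos hc h2).trans_le h1

theorem hs_le_H4 {N : ℕ} {K : Set (Fin N → ℝ)} (hn : K.Nonempty) {R : ℝ}
    (hKR : K ⊆ closedBall 0 R) (a : Fin N) : hs K (Pi.single a 1) ≤ R := by
  refine csSup_le (hn.image _) ?_
  rintro _ ⟨x, hx, rfl⟩
  have h4 := (norm_le_pi_norm x a).trans (mem_closedBall_zero_iff.1 (hKR hx))
  have e : ∑ i, x i * (Pi.single a (1 : ℝ) : Fin N → ℝ) i = x a := by
    simp [Pi.single_apply]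
  show ∑ i, x i * (Pi.single a (1 : ℝ) : Fin N → ℝ) i ≤ R
  rw [e]
  exact (le_abs_self _).trans h4

/-- the factor of the normal vector -/
noncomputable def cc_H4 {N : ℕ} (K : Set (Fin N → ℝ)) (y : Fin N → ℝ) : ℝ :=
  (hs K y + hs K (-y)) / (hs K y * hs K (-y))

/-- the share of the upper arc -/
noncomputable def ll_H4 {N : ℕ} (K : Set (Fin N → ℝ)) (y : Fin N → ℝ) : ℝ :=
  hs K (-y) / (hs K y + hs K (-y))

theorem key_H4 {N : ℕ} {K : Set (Fin N → ℝ)} (hK : IsCompact K)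
    (h0 : (0 : Fin N → ℝ) ∈ interior K) {y : Fin N → ℝ} (hy : y ≠ 0) :
    ll_H4 K y ∈ Ioo (0 : ℝ) 1 ∧
      ∀ b, ∀ z ∈ K, ((sg b * wgt (ll_H4 K y) b) • (cc_H4 K y • y)) ⬝ᵥ z ≤ 1 := by
  have hp := hs_pos_H4 hK h0 hy
  have hq := hs_pos_H4 hK h0 (neg_ne_zero.2 hy)
  refine ⟨⟨by unfold ll_H4; positivity, ?_⟩, fun b z hz => ?_⟩
  · unfold ll_H4
    rw [div_lt_one (by positivity)]
    linarith
  · have h1 := le_hs_H4 hK y hz
    have h2 := le_hs_H4 hK (-y) hz
    rw [neg_dotProduct] at h2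
    rw [smul_dotProduct, smul_dotProduct, smul_eq_mul, smul_eq_mul]
    unfold ll_H4 cc_H4
    generalize hs K y = p at *
    generalize hs K (-y) = q at *
    generalize y ⬝ᵥ z = w at *
    cases b
    · have e : sg false * wgt (q / (p + q)) false * ((p + q) / (p * q) * w) = -w / q := by
        simp only [sg, wgt, Bool.false_eq_true, if_false]
        field_simp
        ring
      rw [e, div_le_one hq]
      exact h2
    · have e : sg true * wgt (q / (p + q)) true * ((p + q) / (p * q) * w) = w / p := by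
        simp only [sg, wgt, if_true]
        field_simp
      rw [e, div_le_one hp]
      exact h1

theorem sep_H4 {N : ℕ} {K : Set (Fin N → ℝ)} (hK : IsCompact K)
    (h0 : (0 : Fin N → ℝ) ∈ interior K) {x : Fin N → ℝ}
    (hx : ¬ ∀ y, (hs K y + hs K (-y)) * ∑ i, x i * y i ≤ hs K y * hs K (-y)) :
    ∃ (y : Fin N → ℝ) (ρ : ℝ), y ≠ 0 ∧ (0 < ρ ∧ ρ < 1) ∧ 1 < ρ * ((cc_H4 K y • y) ⬝ᵥ x) := by
  obtain ⟨y, hy⟩ := not_forall.1 hx
  have hy0 : y ≠ 0 := by
    rintro rfl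
    apply hy
    simp only [Pi.zero_apply, mul_zero, Finset.sum_const_zero, neg_zero]
    exact mul_self_nonneg _
  have hp := hs_pos_H4 hK h0 hy0
  have hq := hs_pos_H4 hK h0 (neg_ne_zero.2 hy0)
  have h3 : 1 < (cc_H4 K y • y) ⬝ᵥ x := by
    rw [smul_dotProduct, smul_eq_mul, cc_H4, div_mul_eq_mul_div, one_lt_div (mul_pos hp hq),
      dotProduct_comm]
    exact not_le.1 hy
  generalize hc : (cc_H4 K y • y) ⬝ᵥ x = c at h3
  have h4 : 0 < c := by linarith
  refine ⟨y, (1 + c⁻¹) / 2, hy0, ⟨by positivity, by linarith [inv_lt_one_of_one_lt₀ h3]⟩, ?_⟩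
  rw [hc]
  have : c⁻¹ * c = 1 := inv_mul_cancel₀ h4.ne'
  nlinarith

theorem h4_stmt : H4Stmt := by
  classical
  intro N K hK h0 U hU hKU
  have hn : K.Nonempty := ⟨0, interior_subset h0⟩
  obtain ⟨R, hR, hKR⟩ := hK.isBounded.subset_closedBall_lt 0 0
  have hQ : IsCompact (closedBall (0 : Fin N → ℝ) (2 * R) \ U) :=
    (isCompact_closedBall _ _).diff hU
  choose! v ρ h1 h2 h3 using fun x (hx : x ∉ U) => sep_H4 hK h0 (x := x) fun h => hx (hKU h)
  obtain ⟨t, ht, hcov⟩ := hQ.elim_nhds_subcover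
    (fun x => {y | 1 < ρ x * ((cc_H4 K (v x) • v x) ⬝ᵥ y)})
    fun x hx => (isOpen_lt continuous_const (by fun_prop)).mem_nhds (h3 x hx.2)
  have hne : ∀ a : Fin N, (Pi.single a 1 : Fin N → ℝ) ≠ 0 := fun a h => by
    simpa using congrFun h a
  have hcc : ∀ a : Fin N, R⁻¹ ≤ cc_H4 K (Pi.single a 1) := by
    intro a
    have hp := hs_pos_H4 hK h0 (hne a)
    have hq := hs_pos_H4 hK h0 (neg_ne_zero.2 (hne a))
    have hle := hs_le_H4 hn hKR a
    rw [cc_H4, inv_eq_one_div, div_le_div_iff₀ hR (mul_pos hp hq)]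
    nlinarith [mul_le_mul_of_nonneg_right hle hq.le, mul_pos hp hR]
  have hc0 : ∀ a : Fin N, 0 < cc_H4 K (Pi.single a 1) := fun a => (inv_pos.2 hR).trans_le (hcc a)
  let y : Fin N ⊕ t → Fin N → ℝ := Sum.elim (fun a => Pi.single a 1) fun x => v x.1
  have hy : ∀ j, y j ≠ 0 := by
    rintro (a | x)
    · exact hne a
    · exact h1 _ (ht _ x.2).2
  refine ⟨Fin N ⊕ t, inferInstance, inferInstance, fun j => cc_H4 K (y j) • y j,
    fun j => ll_H4 K (y j), Sum.elim (fun _ => 1 / 2) fun x => ρ x.1,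
    Sum.inl, fun j => (key_H4 hK h0 (hy j)).1, ?_, ?_, fun j => (key_H4 hK h0 (hy j)).2,
    fun r hr x hx => ?_⟩
  · rintro (a | x)
    · norm_num
    · exact h2 _ (ht _ x.2).2
  · have : mat (fun j => cc_H4 K (y j) • y j) (Sum.inl : Fin N → _) =
        Matrix.diagonal fun a => cc_H4 K (Pi.single a 1) := by
      ext i a
      simp [mat, y, Matrix.diagonal_apply, Pi.single_apply, eq_comm]
    rw [dt, this, Matrix.det_diagonal]
    exact (Finset.prod_pos fun a _ => hc0 a).ne'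
  · by_contra hxU
    have h4 : x ∈ closedBall (0 : Fin N → ℝ) (2 * R) := by
      rw [mem_closedBall_zero_iff, pi_norm_le_iff_of_nonneg (by positivity)]
      intro a
      have h5 : |(r (Sum.inl a) • (cc_H4 K (Pi.single a 1) • (Pi.single a 1 : Fin N → ℝ))) ⬝ᵥ x|
          ≤ 1 := hx (Sum.inl a)
      have h6 : 1 / 2 ≤ r (Sum.inl a) := (hr (Sum.inl a)).1
      rw [smul_dotProduct, smul_dotProduct, single_dotProduct, smul_eq_mul, smul_eq_mul, one_mul,
        abs_mul, abs_mul, abs_of_pos (hc0 a), abs_of_pos (by linarith)] at h5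
      rw [Real.norm_eq_abs]
      have h7 : R⁻¹ * |x a| ≤ cc_H4 K (Pi.single a 1) * |x a| :=
        mul_le_mul_of_nonneg_right (hcc a) (abs_nonneg _)
      have h8 : 1 / 2 * (R⁻¹ * |x a|) ≤ 1 :=
        (mul_le_mul h6 h7 (by positivity) (by linarith)).trans h5
      have h9 : R⁻¹ * |x a| ≤ 2 := by linarith
      rwa [inv_mul_le_iff₀ hR, mul_comm] at h9
    obtain ⟨z, hz, h5⟩ := mem_iUnion₂.1 (hcov ⟨h4, hxU⟩)
    have h6 : |(r (Sum.inr ⟨z, hz⟩) • (cc_H4 K (v z) • v z)) ⬝ᵥ x| ≤ 1 := hx (Sum.inr ⟨z, hz⟩)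
    have h7 : ρ z ≤ r (Sum.inr ⟨z, hz⟩) := (hr (Sum.inr ⟨z, hz⟩)).1
    have h8 : 1 < ρ z * ((cc_H4 K (v z) • v z) ⬝ᵥ x) := h5
    have h9 := (h2 _ (ht z hz).2).1
    rw [smul_dotProduct, smul_eq_mul] at h6
    generalize (cc_H4 K (v z) • v z) ⬝ᵥ x = w at h6 h8
    have h10 : 0 < w := by
      by_contra h
      nlinarith [not_lt.1 h]
    nlinarith [le_abs_self (r (Sum.inr ⟨z, hz⟩) * w)]

end Pool.Agent.MP_5f4cdd_gt.LJ

end

section

set_option autoImplicit false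
open Set MeasureTheory Metric Filter Topology
open scoped ENNReal Real Matrix

namespace Pool.Agent.MP_5f4cdd_gt.LJ

theorem hs_le_Chord {N : ℕ} {K : Set (Fin N → ℝ)} (hK : K.Nonempty) (m : Fin N → Fin N → ℝ)
    (hm : ∀ i, ∀ y ∈ K, m i ⬝ᵥ y ≤ 1) (c : Fin N → ℝ) (hc : ∀ i, 0 < c i) :
    hs K (∑ i, c i • m i) ≤ ∑ i, c i := by
  refine csSup_le (hK.image _) ?_
  rintro _ ⟨x, hx, rfl⟩
  have h1 : ∑ a, x a * (∑ i, c i • m i) a = ∑ i, c i * (m i ⬝ᵥ x) := by
    simp only [Finset.sum_apply, Pi.smul_apply, smul_eq_mul, Finset.mul_sum, dotProduct]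
    rw [Finset.sum_comm]
    exact Finset.sum_congr rfl fun i _ => Finset.sum_congr rfl fun a _ => by ring
  dsimp only
  rw [h1]
  exact Finset.sum_le_sum fun i _ => mul_le_of_le_one_right (hc i).le (hm i x hx)

theorem le_hs_Chord {N : ℕ} {K : Set (Fin N → ℝ)} (hK : IsCompact K) {x : Fin N → ℝ}
    (hx : x ∈ K) (y : Fin N → ℝ) : ∑ i, x i * y i ≤ hs K y :=
  le_csSup (hK.image (by fun_prop)).bddAbove ⟨x, hx, rfl⟩

theorem pos_Chord {N : ℕ} {K : Set (Fin N → ℝ)} (hK : IsCompact K)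
    (h0 : (0 : Fin N → ℝ) ∈ interior K) :
    volume {x : Fin N → ℝ | ∀ y, (hs K y + hs K (-y)) * ∑ i, x i * y i ≤ hs K y * hs K (-y)} ≠
      0 := by
  obtain ⟨ρ, hρ, hb⟩ := Metric.mem_nhds_iff.1 (mem_interior_iff_mem_nhds.1 h0)
  refine (lt_of_lt_of_le (measure_ball_pos volume (0 : Fin N → ℝ) (half_pos hρ))
    (measure_mono fun x hx => ?_)).ne'
  intro y
  rw [mem_ball_zero_iff] at hx
  have h1 : ∀ c : ℝ, |c| ≤ 2 → c • x ∈ K := fun c hc => hb (by
    rw [mem_ball_zero_iff, norm_smul, Real.norm_eq_abs]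
    nlinarith [norm_nonneg x])
  have h2 : ∀ (c : ℝ) (z : Fin N → ℝ), ∑ i, (c • x) i * z i = c * ∑ i, x i * z i := fun c z => by
    simp only [Pi.smul_apply, smul_eq_mul, Finset.mul_sum, mul_assoc]
  have h3 : ∑ i, x i * (-y) i = -∑ i, x i * y i := by
    simp only [Pi.neg_apply, mul_neg, Finset.sum_neg_distrib]
  have a1 := le_hs_Chord hK (h1 2 (by norm_num)) y
  have a2 := le_hs_Chord hK (h1 (-2) (by norm_num)) (-y)
  have a3 := le_hs_Chord hK (h1 0 (by norm_num)) y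
  have a4 := le_hs_Chord hK (h1 0 (by norm_num)) (-y)
  rw [h2] at a1 a2 a3 a4
  rw [h3] at a2
  rw [zero_mul] at a3 a4
  nlinarith [mul_le_mul_of_nonneg_left a1 a4, mul_le_mul_of_nonneg_left a2 a3]

theorem outer_Chord {N : ℕ} {L : Set (Fin N → ℝ)} {I A : ℝ≥0∞} (hA : A ≠ 0)
    (hpos : volume L ≠ 0) (key : ∀ U : Set (Fin N → ℝ), IsOpen U → L ⊆ U → A ≤ volume U * I) :
    A ≤ volume L * I := by
  by_cases hT : I = ⊤
  · rw [hT, ENNReal.mul_top hpos]
    exact le_top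
  · rw [L.measure_eq_iInf_isOpen volume]
    have : Nonempty (Set (Fin N → ℝ)) := ⟨univ⟩
    rw [ENNReal.iInf_mul fun h => absurd h hT]
    refine le_iInf fun U => ?_
    by_cases c : L ⊆ U ∧ IsOpen U
    · rw [iInf_pos c.1, iInf_pos c.2]
      exact key U c.2 c.1
    · have h0 : I ≠ 0 := fun h => by
        have := key univ isOpen_univ (subset_univ _)
        rw [h, mul_zero] at this
        exact hA (le_zero_iff.1 this)
      have : (⨅ (_ : L ⊆ U), ⨅ (_ : IsOpen U), volume U) = ⊤ := by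
        rw [iInf_eq_top]
        intro a
        rw [iInf_eq_top]
        intro b
        exact absurd ⟨a, b⟩ c
      rw [this, ENNReal.top_mul h0]
      exact le_top

theorem chord_stmt (hG : LensStmt) (h2 : H2Stmt) (h4 : H4Stmt) (h5 : H5Stmt) : ChordStmt := by
  intro N K hK h0
  have hne : K.Nonempty := ⟨0, interior_subset h0⟩
  refine outer_Chord (by simp) (pos_Chord hK h0) fun U hU hKU => ?_
  obtain ⟨J, _, _, n, l, ρ, s0, hl, hρ, hd, hn, hsub⟩ := h4 N K hK h0 U hU hKU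
  obtain ⟨r, hr, ht⟩ := h2 N J (fun j => fL (l j)) (fun j => (hG _ (hl j)).cont)
    (fun j => (hG _ (hl j)).conc) (fun j => (hG _ (hl j)).pos) n ρ hρ
  have hr0 : ∀ j, 0 < r j := fun j => (hρ j).1.trans_le (hr j).1
  have hd' : dt (fun j => r j • n j) s0 ≠ 0 := by
    rw [dt_smul_Sym]
    exact mul_ne_zero (Finset.prod_ne_zero_iff.2 fun i _ => (hr0 _).ne') hd
  have hn' : ∀ j b, ∀ y ∈ K, ((sg b * wgt (l j) b) • r j • n j) ⬝ᵥ y ≤ 1 := fun j b y hy => by
    rw [smul_comm, smul_dotProduct, smul_eq_mul]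
    exact (mul_le_of_le_one_right (hr0 j).le (hn j b y hy)).trans (hr j).2
  refine (h5 N J (fun j => r j • n j) l s0 hl hd' ht (hs K)
    (fun s e c hc => hs_le_Chord hne _ (fun i => hn' (s i) (e i)) c hc)).trans ?_
  exact mul_le_mul_left (measure_mono (hsub r hr)) _

end Pool.Agent.MP_5f4cdd_gt.LJ

end
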