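import Pool.Agent.Mg.F5f4cddb.Gd49dc4

set_option linter.all false

section

set_option autoImplicit false
open Set MeasureTheory Metric Filter Topology
open scoped ENNReal Real Matrix

namespace Pool.Agent.MP_5f4cdd_gt.LJ

variable {N : ℕ} {J : Type} [Fintype J]

/-- the rank one operator in the coordinate `i` -/
noncomputable def opP_Alg (α : J → ℝ) (i : Fin N) (F : (Fin N → J) → ℝ) (s : Fin N → J) : ℝ :=
  α (s i) * ∑ j, α j * F (Function.update s i j)

theorem symm_Alg (α : J → ℝ) (i : Fin N) (F G : (Fin N → J) → ℝ) :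
    ∑ s, F s * opP_Alg α i G s = ∑ s, G s * opP_Alg α i F s := by
  have hinv : Function.Involutive
      fun p : (Fin N → J) × J => ((Function.update p.1 i p.2, p.1 i) : (Fin N → J) × J) :=
    fun p => by simp
  simp only [opP_Alg, Finset.mul_sum]
  rw [← Fintype.sum_prod_type', ← Fintype.sum_prod_type']
  refine Fintype.sum_equiv hinv.toPerm _ _ fun p => ?_
  simp only [Function.Involutive.coe_toPerm, Function.update_self, Function.update_idem,
    Function.update_eq_self]
  ring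

theorem idem_Alg (α : J → ℝ) (i : Fin N) (F : (Fin N → J) → ℝ) (s : Fin N → J) :
    opP_Alg α i (opP_Alg α i F) s = (∑ j, α j ^ 2) * opP_Alg α i F s := by
  simp only [opP_Alg, Function.update_self, Function.update_idem]
  rw [Finset.sum_mul, Finset.mul_sum]
  exact Finset.sum_congr rfl fun j _ => by ring

theorem orth_Alg (α : J → ℝ) {i l : Fin N} (hil : i ≠ l) {F : (Fin N → J) → ℝ}
    (hF : ∀ s, F (s ∘ Equiv.swap i l) = -F s) (s : Fin N → J) :
    opP_Alg α i (opP_Alg α l F) s = 0 := by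
  have h1 : ∀ j k, F (Function.update (Function.update s i j) l k) =
      -F (Function.update (Function.update s i k) l j) := fun j k => by
    rw [← hF]
    congr 1
    funext m
    by_cases h1 : m = i
    · subst h1
      simp [hil]
    · by_cases h2 : m = l
      · subst h2
        simp [hil]
      · simp [Equiv.swap_apply_of_ne_of_ne h1 h2, h1, h2]
  have h2 : ∑ j, ∑ k, α j * α k * F (Function.update (Function.update s i j) l k) = 0 := by
    have h3 : ∑ j, ∑ k, α j * α k * F (Function.update (Function.update s i j) l k) =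
        -∑ j, ∑ k, α j * α k * F (Function.update (Function.update s i j) l k) := by
      conv_rhs => rw [Finset.sum_comm]
      simp only [← Finset.sum_neg_distrib]
      refine Finset.sum_congr rfl fun j _ => Finset.sum_congr rfl fun k _ => ?_
      rw [h1 j k]
      ring
    linarith
  have h4 : opP_Alg α i (opP_Alg α l F) s = α (s i) * α (s l) *
      ∑ j, ∑ k, α j * α k * F (Function.update (Function.update s i j) l k) := by
    simp only [opP_Alg, Function.update_of_ne hil.symm, Finset.mul_sum]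
    refine Finset.sum_congr rfl fun j _ => Finset.sum_congr rfl fun k _ => ?_
    ring
  rw [h4, h2, mul_zero]

theorem core_Alg (α : J → ℝ) {F : (Fin N → J) → ℝ}
    (hF : ∀ i l, i ≠ l → ∀ s, F (s ∘ Equiv.swap i l) = -F s) :
    ∑ s, F s * ∑ i, opP_Alg α i F s ≤ (∑ j, α j ^ 2) * ∑ s, F s ^ 2 := by
  have h1 : ∑ s, (∑ i, opP_Alg α i F s) ^ 2 =
      (∑ j, α j ^ 2) * ∑ s, F s * ∑ i, opP_Alg α i F s := by
    simp only [sq (∑ i, opP_Alg α i F _), Finset.mul_sum]
    rw [Finset.sum_comm]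
    conv_rhs => rw [Finset.sum_comm]
    refine Finset.sum_congr rfl fun i _ => ?_
    simp only [Finset.sum_mul _ (fun l => opP_Alg α l F _)]
    rw [Finset.sum_comm, Finset.sum_eq_single i]
    · rw [symm_Alg]
      exact Finset.sum_congr rfl fun s _ => by rw [idem_Alg]; ring
    · intro l _ hl
      rw [symm_Alg]
      exact Finset.sum_eq_zero fun s _ => by
        rw [orth_Alg α hl.symm (hF i l hl.symm), mul_zero]
    · exact fun h => absurd (Finset.mem_univ i) h
  have h2 := Finset.sum_mul_sq_le_sq_mul_sq Finset.univ F fun s => ∑ i, opP_Alg α i F s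
  rw [h1] at h2
  have h3 : 0 ≤ (∑ j, α j ^ 2) * ∑ s, F s ^ 2 := by positivity
  by_contra hn
  have h4 := not_le.1 hn
  nlinarith

omit [Fintype J] in
theorem dt_swap_Alg (n : J → Fin N → ℝ) {i l : Fin N} (hil : i ≠ l) (s : Fin N → J) :
    dt n (s ∘ Equiv.swap i l) = -dt n s := by
  have := Matrix.det_permute (Equiv.swap i l) (mat n s)
  rw [Equiv.Perm.sign_swap hil] at this
  exact this.trans (by simp [dt])

theorem link_Alg (n : J → Fin N → ℝ) (r α : J → ℝ) (s : Fin N → J) (i : Fin N) :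
    (∏ l ∈ Finset.univ.erase i, r (s l) ^ 2) * dt n s *
        (r (s i) * α (s i) * ∑ j, r j * α j * dt n (Function.update s i j)) =
      (∏ l, r (s l)) * dt n s * opP_Alg α i (fun s => (∏ l, r (s l)) * dt n s) s := by
  have h1 : ∀ j, ∏ l, r (Function.update s i j l) = r j * ∏ l ∈ Finset.univ.erase i, r (s l) :=
    fun j => by
      rw [← Finset.mul_prod_erase _ _ (Finset.mem_univ i), Function.update_self]
      congr 1
      exact Finset.prod_congr rfl fun l hl => by
        rw [Function.update_of_ne (Finset.ne_of_mem_erase hl)]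
  simp only [opP_Alg, h1, Finset.prod_pow, Finset.mul_sum]
  rw [← Finset.mul_prod_erase _ (fun l => r (s l)) (Finset.mem_univ i)]
  exact Finset.sum_congr rfl fun j _ => by ring

theorem alg_stmt : AlgStmt := by
  intro N J _ _ n a w β γ ha hw h
  obtain ⟨r, hr⟩ : ∃ r : J → ℝ, ∀ j, a j = r j ^ 2 :=
    ⟨fun j => √(a j), fun j => (Real.sq_sqrt (ha j)).symm⟩
  have hz : ∀ j, r j = 0 → β j = 0 ∧ γ j = 0 := fun j hj => by
    have := h j
    rw [hr, hj] at this
    constructor <;> nlinarith [sq_nonneg (β j), sq_nonneg (γ j)]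
  obtain ⟨α, α', h1, h2, h3⟩ : ∃ α α' : J → ℝ, (∀ j, β j = r j * α j) ∧ (∀ j, γ j = r j * α' j) ∧
      ∀ j, α j ^ 2 + α' j ^ 2 ≤ w j := by
    refine ⟨fun j => β j / r j, fun j => γ j / r j, fun j => ?_, fun j => ?_, fun j => ?_⟩
    · by_cases hj : r j = 0
      · rw [(hz j hj).1, hj, zero_mul]
      · field_simp
    · by_cases hj : r j = 0
      · rw [(hz j hj).2, hj, zero_mul]
      · field_simp
    · by_cases hj : r j = 0
      · simpa [hj] using hw j
      · rw [div_pow, div_pow, ← add_div, div_le_iff₀ (by positivity), ← hr, mul_comm]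
        exact h j
  have hF : ∀ i l : Fin N, i ≠ l → ∀ s : Fin N → J,
      (fun s : Fin N → J => (∏ l, r (s l)) * dt n s) (s ∘ Equiv.swap i l) =
        -(fun s : Fin N → J => (∏ l, r (s l)) * dt n s) s := fun i l hil s => by
    simp only [dt_swap_Alg n hil, Function.comp_apply]
    rw [Equiv.prod_comp (Equiv.swap i l) fun m => r (s m), mul_neg]
  have h4 := add_le_add (core_Alg α (F := fun s => (∏ l, r (s l)) * dt n s) hF)
    (core_Alg α' (F := fun s => (∏ l, r (s l)) * dt n s) hF)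
  rw [← add_mul, ← Finset.sum_add_distrib, ← Finset.sum_add_distrib] at h4
  have h5 : 0 ≤ ∑ s : Fin N → J, ((∏ l, r (s l)) * dt n s) ^ 2 := by positivity
  refine le_trans (le_of_eq ?_) (h4.trans ((mul_le_mul_of_nonneg_right
    (Finset.sum_le_sum fun j _ => h3 j) h5).trans (le_of_eq ?_)))
  · refine Finset.sum_congr rfl fun s _ => ?_
    simp only [Finset.mul_sum _ (fun i => opP_Alg _ i _ s), ← Finset.sum_add_distrib]
    refine Finset.sum_congr rfl fun i _ => ?_
    simp only [hr, h1, h2, mul_add, link_Alg]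
  · simp only [hr, mul_pow, Finset.prod_pow]

end Pool.Agent.MP_5f4cdd_gt.LJ

end

section

set_option autoImplicit false
set_option linter.unusedSectionVars false
open Set MeasureTheory Metric Filter Topology
open scoped ENNReal Real Matrix

namespace Pool.Agent.MP_5f4cdd_gt.LJ

variable {N : ℕ} {J : Type}

theorem integrable_Ibp1 {O C : Set (Fin N → ℂ)} (hO : IsOpen O) (hC : IsCompact C) (hCO : C ⊆ O)
    {Y : (Fin N → ℂ) → ℝ} (hY : ContinuousOn Y O) (h0 : ∀ z ∈ O, z ∉ C → Y z = 0) :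
    IntegrableOn Y O :=
  ((hY.mono hCO).integrableOn_compact hC).of_forall_sdiff_eq_zero hO.measurableSet
    fun z hz => h0 z hz.1 hz.2

theorem core_Ibp1 {O C : Set (Fin N → ℂ)} (hO : IsOpen O) (hC : IsCompact C) (hCO : C ⊆ O)
    {Y Y' : (Fin N → ℂ) → ℝ} (hY : ContinuousOn Y O) (hY' : ContinuousOn Y' O) (v : Fin N → ℂ)
    (hd : ∀ z ∈ O, HasLineDerivAt ℝ Y (Y' z) z v) (h0 : ∀ z ∈ O, z ∉ C → Y z = 0)
    (h0' : ∀ z ∈ O, z ∉ C → Y' z = 0) : ∫ z in O, Y' z = 0 := by
  have i1 := (integrable_indicator_iff hO.measurableSet).2 (integrable_Ibp1 hO hC hCO hY h0)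
  have i2 := (integrable_indicator_iff hO.measurableSet).2 (integrable_Ibp1 hO hC hCO hY' h0')
  have key := integral_bilinear_hasLineDerivAt_right_eq_neg_left_of_integrable
    (μ := (volume : Measure (Fin N → ℂ))) (f := fun _ => (1 : ℝ)) (f' := fun _ => (0 : ℝ))
    (g := O.indicator Y) (g' := O.indicator Y') (v := v) (B := ContinuousLinearMap.mul ℝ ℝ)
    (by simp) (by simpa using i2) (by simpa using i1)
    (fun x _ => hasDerivAt_const _ _) (fun x _ => ?_)
  · rw [← integral_indicator hO.measurableSet]; simpa using key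
  have hp : Tendsto (fun t : ℝ => x + t • v) (𝓝 0) (𝓝 x) := by
    have : Continuous fun t : ℝ => x + t • v := by fun_prop
    simpa using this.tendsto 0
  by_cases hx : x ∈ O
  · rw [indicator_of_mem hx]
    refine HasDerivAt.congr_of_eventuallyEq (hd x hx) ?_
    filter_upwards [hp.eventually (hO.mem_nhds hx)] with t ht
    exact indicator_of_mem ht _
  · rw [indicator_of_notMem hx]
    refine HasDerivAt.congr_of_eventuallyEq (hasDerivAt_const (0 : ℝ) (0 : ℝ)) ?_
    have hxC : x ∈ Cᶜ := fun h => hx (hCO h)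
    filter_upwards [hp.eventually (hC.isClosed.isOpen_compl.mem_nhds hxC)] with t ht
    by_cases h1 : x + t • v ∈ O
    · rw [indicator_of_mem h1]; exact h0 _ h1 ht
    · exact indicator_of_notMem h1 _

theorem dir_Ibp1 [DecidableEq J] (n : J → Fin N → ℝ) (s : Fin N → J) (i : Fin N) :
    ∃ ν : Fin N → ℝ, ∀ j, n j ⬝ᵥ ν = dt n (Function.update s i j) := by
  refine ⟨fun a => (mat n s).adjugate a i, fun j => ?_⟩
  have h1 : mat n (Function.update s i j) = (mat n s).updateRow i (n j) := by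
    ext l a
    by_cases h : l = i
    · subst h; simp [mat]
    · simp [mat, Matrix.updateRow_ne h, Function.update_of_ne h]
  rw [dt, h1, ← Matrix.cramer_transpose_apply, Matrix.cramer_eq_adjugate_mulVec,
    ← Matrix.adjugate_transpose]
  simp [Matrix.mulVec, dotProduct, mul_comm]

theorem path_Ibp1 {f : ℂ → ℂ} {f' ζ : ℂ} (hf : HasDerivAt f f' ζ) (c : ℂ) :
    HasDerivAt (fun t : ℝ => f (ζ + t * c)) (f' * c) 0 := by
  have h1 : HasDerivAt (fun w : ℂ => ζ + w * c) c ((0 : ℝ) : ℂ) := by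
    simpa using ((hasDerivAt_id ((0 : ℝ) : ℂ)).mul_const c).const_add ζ
  have h2 : HasDerivAt f f' (ζ + ((0 : ℝ) : ℂ) * c) := by simpa using hf
  exact (HasDerivAt.comp ((0 : ℝ) : ℂ) h2 h1).comp_ofReal

theorem re_Ibp1 {p : ℝ → ℂ} {p' : ℂ} {x : ℝ} (hp : HasDerivAt p p' x) :
    HasDerivAt (fun t => (p t).re) p'.re x :=
  Complex.reCLM.hasFDerivAt.comp_hasDerivAt x hp

theorem conj_Ibp1 {p : ℝ → ℂ} {p' : ℂ} {x : ℝ} (hp : HasDerivAt p p' x) :
    HasDerivAt (fun t => (starRingEnd ℂ) (p t)) ((starRingEnd ℂ) p') x :=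
  Complex.conjCLE.toContinuousLinearMap.hasFDerivAt.comp_hasDerivAt x hp

/-- second order term -/
noncomputable def cf_Ibp1 (h : J → ℂ → ℂ) (n : J → Fin N → ℝ) (η : ℂ) (j : J) (z : Fin N → ℂ) : ℝ :=
  ((starRingEnd ℂ) (h j (dotc (n j) z)) * deriv (deriv (h j)) (dotc (n j) z) * η ^ 2).re

section
variable [Fintype J] [DecidableEq J] {n : J → Fin N → ℝ} {D : J → Set ℂ} {h : J → ℂ → ℂ}

theorem cont0_Ibp1 {f : J → ℂ → ℂ} (hh : ∀ j, DifferentiableOn ℂ (f j) (D j)) (j : J) :
    ContinuousOn (fun z => f j (dotc (n j) z)) (Om D n) :=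
  (hh j).continuousOn.comp (continuous_dotc _).continuousOn fun _ hz => hz j

theorem one_Ibp1 (hD : ∀ j, IsOpen (D j)) (hh : ∀ j, DifferentiableOn ℂ (h j) (D j))
    {C : Set (Fin N → ℂ)} {c : ℝ} {g g' : ℝ → ℝ} (hC : IsCompact C) (hCO : C ⊆ Om D n)
    (hWC : ∀ z ∈ Om D n, Wf h n z ≤ c → z ∈ C) (hg : ∀ t, HasDerivAt g (g' t) t)
    (hg' : Continuous g') (h0 : ∀ t, c ≤ t → g t = 0) (s : Fin N → J) (i : Fin N) (η : ℂ) :
    let Y' : (Fin N → ℂ) → ℝ := fun z =>
      g' (Wf h n z) * (2 * ∑ j, bf h n η j z * dt n (Function.update s i j)) *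
        ((∏ l ∈ Finset.univ.erase i, af h n (s l) z) * dt n s * bf h n η (s i) z) +
      g (Wf h n z) * ((∏ l ∈ Finset.univ.erase i, af h n (s l) z) * dt n s *
        ((Complex.normSq η * af h n (s i) z + cf_Ibp1 h n η (s i) z) * dt n s))
    IntegrableOn Y' (Om D n) ∧ ∫ z in Om D n, Y' z = 0 := by
  intro Y'
  have hh1 : ∀ j, DifferentiableOn ℂ (deriv (h j)) (D j) := fun j => (hh j).deriv (hD j)
  have hh2 : ∀ j, DifferentiableOn ℂ (deriv (deriv (h j))) (D j) := fun j => (hh1 j).deriv (hD j)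
  have c0 := fun j => cont0_Ibp1 (n := n) hh j
  have c1 := fun j => cont0_Ibp1 (n := n) (f := fun j => deriv (h j)) hh1 j
  have c2 := fun j => cont0_Ibp1 (n := n) (f := fun j => deriv (deriv (h j))) hh2 j
  have cW : ContinuousOn (Wf h n) (Om D n) :=
    continuousOn_finsetSum _ fun j _ => Complex.continuous_normSq.comp_continuousOn (c0 j)
  have ca : ∀ j, ContinuousOn (af h n j) (Om D n) := fun j =>
    Complex.continuous_normSq.comp_continuousOn (c1 j)
  have cb : ∀ j, ContinuousOn (bf h n η j) (Om D n) := fun j =>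
    Complex.continuous_re.comp_continuousOn
      (((Complex.continuous_conj.comp_continuousOn (c0 j)).mul (c1 j)).mul continuousOn_const)
  have cc : ∀ j, ContinuousOn (cf_Ibp1 h n η j) (Om D n) := fun j =>
    Complex.continuous_re.comp_continuousOn
      (((Complex.continuous_conj.comp_continuousOn (c0 j)).mul (c2 j)).mul continuousOn_const)
  have cP : ContinuousOn (fun z => ∏ l ∈ Finset.univ.erase i, af h n (s l) z) (Om D n) :=
    continuousOn_finsetProd _ fun l _ => ca _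
  have cg : Continuous g := continuous_iff_continuousAt.2 fun t => (hg t).continuousAt
  have cY' : ContinuousOn Y' (Om D n) :=
    (((hg'.comp_continuousOn cW).mul (continuousOn_const.mul
      (continuousOn_finsetSum _ fun j _ => (cb j).mul continuousOn_const))).mul
      ((cP.mul continuousOn_const).mul (cb _))).add
    ((cg.comp_continuousOn cW).mul ((cP.mul continuousOn_const).mul
      (((continuousOn_const.mul (ca _)).add (cc _)).mul continuousOn_const)))
  have hz : ∀ z ∈ Om D n, z ∉ C → g (Wf h n z) = 0 ∧ g' (Wf h n z) = 0 := fun z hz hzC => by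
    have hlt : c < Wf h n z := lt_of_not_ge fun hle => hzC (hWC z hz hle)
    refine ⟨h0 _ hlt.le, (hg _).unique ?_⟩
    refine HasDerivAt.congr_of_eventuallyEq (hasDerivAt_const _ (0 : ℝ)) ?_
    filter_upwards [lt_mem_nhds hlt] with t ht using h0 t ht.le
  have hz' : ∀ z ∈ Om D n, z ∉ C → Y' z = 0 := fun z h1 h2 => by
    simp only [Y', (hz z h1 h2).1, (hz z h1 h2).2, zero_mul, add_zero]
  have hO := isOpen_Om hD n
  refine ⟨integrable_Ibp1 hO hC hCO cY' hz', ?_⟩
  obtain ⟨ν, hν⟩ := dir_Ibp1 n s i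
  refine core_Ibp1 hO hC hCO (Y := fun z => g (Wf h n z) *
    ((∏ l ∈ Finset.univ.erase i, af h n (s l) z) * dt n s * bf h n η (s i) z))
    ((cg.comp_continuousOn cW).mul ((cP.mul continuousOn_const).mul (cb _))) cY'
    (η • fun a => (ν a : ℂ)) (fun z hzO => ?_)
    (fun z h1 h2 => by simp only [(hz z h1 h2).1, zero_mul]) hz'
  have hlin : ∀ (j : J) (t : ℝ), dotc (n j) (z + t • (η • fun a => (ν a : ℂ))) =
      dotc (n j) z + t * (η * (dt n (Function.update s i j) : ℝ)) := fun j t => by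
    rw [dotc_add, ← hν j, ← dotc_ofReal, ← dotc_smul, ← dotc_smul]
    congr 2
  have d0 : ∀ j, HasDerivAt (h j) (deriv (h j) (dotc (n j) z)) (dotc (n j) z) := fun j =>
    ((hh j).differentiableAt ((hD j).mem_nhds (hzO j))).hasDerivAt
  have d1 : ∀ j, HasDerivAt (deriv (h j)) (deriv (deriv (h j)) (dotc (n j) z)) (dotc (n j) z) :=
    fun j => ((hh1 j).differentiableAt ((hD j).mem_nhds (hzO j))).hasDerivAt
  have dW : HasDerivAt (fun t : ℝ => Wf h n (z + t • (η • fun a => (ν a : ℂ))))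
      (2 * ∑ j, bf h n η j z * dt n (Function.update s i j)) 0 := by
    rw [Finset.mul_sum]
    simp only [Wf, hlin]
    refine HasDerivAt.fun_sum fun j _ => ?_
    have p0 := path_Ibp1 (d0 j) (η * (dt n (Function.update s i j) : ℝ))
    have := re_Ibp1 ((conj_Ibp1 p0).mul p0)
    refine HasDerivAt.congr_deriv (this.congr_of_eventuallyEq (Eventually.of_forall fun t => ?_)) ?_
    · simp [Complex.normSq_apply]
    · simp [bf]; ring
  have dP : ∀ t : ℝ, ∏ l ∈ Finset.univ.erase i, af h n (s l) (z + t • (η • fun a => (ν a : ℂ))) =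
      ∏ l ∈ Finset.univ.erase i, af h n (s l) z := fun t => by
    refine Finset.prod_congr rfl fun l hl => ?_
    have hli : l ≠ i := (Finset.mem_erase.1 hl).1
    have : dt n (Function.update s i (s l)) = 0 :=
      Matrix.det_zero_of_row_eq hli (by funext a; simp [mat, Function.update_of_ne hli])
    simp [af, hlin, this]
  have dB : HasDerivAt (fun t : ℝ => bf h n η (s i) (z + t • (η • fun a => (ν a : ℂ))))
      ((Complex.normSq η * af h n (s i) z + cf_Ibp1 h n η (s i) z) * dt n s) 0 := by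
    simp only [bf, hlin, Function.update_eq_self]
    have p0 := path_Ibp1 (d0 (s i)) (η * (dt n s : ℝ))
    have p1 := path_Ibp1 (d1 (s i)) (η * (dt n s : ℝ))
    have := re_Ibp1 (((conj_Ibp1 p0).mul p1).mul_const η)
    refine HasDerivAt.congr_deriv this ?_
    simp [af, cf_Ibp1, Complex.normSq_apply, pow_two]; ring
  have dg : HasDerivAt g (g' (Wf h n z)) (Wf h n (z + (0 : ℝ) • (η • fun a => (ν a : ℂ)))) := by
    simpa using hg _
  have fin := (HasDerivAt.comp (0 : ℝ) dg dW).mul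
    (dB.const_mul ((∏ l ∈ Finset.univ.erase i, af h n (s l) z) * dt n s))
  unfold HasLineDerivAt
  simp only [dP]
  refine HasDerivAt.congr_deriv fin ?_
  simp [Y']

end

theorem ibp1_stmt : Ibp1Stmt := by
  intro N J _ _ n D h C c g g' hD hh hC hCO hWC hg hg' h0 s i
  obtain ⟨i1, e1⟩ := one_Ibp1 hD hh hC hCO hWC hg hg' h0 s i 1
  obtain ⟨i2, e2⟩ := one_Ibp1 hD hh hC hCO hWC hg hg' h0 s i Complex.I
  have e := integral_add i1 i2
  rw [e1, e2, add_zero] at e
  rw [← mul_eq_zero_iff_left (two_ne_zero (α := ℝ)), ← integral_const_mul, ← e]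
  refine integral_congr_ae (Eventually.of_forall fun z => ?_)
  have hc : cf_Ibp1 h n Complex.I (s i) z = -cf_Ibp1 h n 1 (s i) z := by simp [cf_Ibp1]
  simp only [hc, ← Finset.mul_prod_erase Finset.univ (fun l => af h n (s l) z) (Finset.mem_univ i),
    Complex.normSq_one, Complex.normSq_I]
  ring

end Pool.Agent.MP_5f4cdd_gt.LJ

end

section

set_option autoImplicit false
open Set MeasureTheory Metric Filter Topology
open scoped ENNReal Real Matrix

namespace Pool.Agent.MP_5f4cdd_gt.LJ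

theorem dphi_cont_Mono : Continuous (deriv phi) := phi_contDiff.continuous_deriv le_rfl

theorem dphi_Mono (t : ℝ) : HasDerivAt phi (deriv phi t) t :=
  (phi_contDiff.differentiable one_ne_zero t).hasDerivAt

theorem dphi_zero_Mono {t : ℝ} (h : 1 / 2 < t) : deriv phi t = 0 := by
  have e : phi =ᶠ[𝓝 t] fun _ => 0 :=
    (lt_mem_nhds h).mono fun _ hs => phi_zero hs.le
  rw [e.deriv_eq, deriv_const]

theorem half_Mono {L w : ℝ} (hL : 0 ≤ L) (hw : 1 / 2 ≤ w) : w ≤ Real.exp L * w :=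
  le_mul_of_one_le_left (by linarith) (Real.one_le_exp hL)

theorem pt_Mono (N w H L : ℝ) :
    HasDerivAt (fun L => Real.exp (N * L) * phi (Real.exp L * w) * H)
      (Real.exp (N * L) * ((N * phi (Real.exp L * w) +
        w * (Real.exp L * deriv phi (Real.exp L * w))) * H)) L := by
  have h1 : HasDerivAt (fun L => Real.exp (N * L)) (Real.exp (N * L) * (N * 1)) L :=
    ((hasDerivAt_id' L).const_mul N).exp
  have h2 : HasDerivAt (fun L => phi (Real.exp L * w))
      (deriv phi (Real.exp L * w) * (Real.exp L * w)) L :=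
    (dphi_Mono _).comp L ((Real.hasDerivAt_exp L).mul_const w)
  refine ((h1.fun_mul h2).mul_const H).congr_deriv ?_
  ring

theorem der_Mono {m : ℕ} {C : Set (Fin m → ℂ)} (hC : IsCompact C) {W H : (Fin m → ℂ) → ℝ}
    (hW : ContinuousOn W C) (hH : ContinuousOn H C) (N L : ℝ) :
    HasDerivAt (fun L => ∫ z in C, Real.exp (N * L) * phi (Real.exp L * W z) * H z)
      (∫ z in C, Real.exp (N * L) * ((N * phi (Real.exp L * W z) +
        W z * (Real.exp L * deriv phi (Real.exp L * W z))) * H z)) L := by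
  have c1 := phi_continuous
  have c2 := dphi_cont_Mono
  have hF : ∀ L, IntegrableOn (fun z => Real.exp (N * L) * phi (Real.exp L * W z) * H z) C :=
    fun L => ContinuousOn.integrableOn_compact hC (by fun_prop)
  have hW' : ContinuousOn (fun p : ℝ × (Fin m → ℂ) => W p.2) (closedBall L 1 ×ˢ C) :=
    hW.comp continuousOn_snd fun p hp => hp.2
  have hH' : ContinuousOn (fun p : ℝ × (Fin m → ℂ) => H p.2) (closedBall L 1 ×ˢ C) :=
    hH.comp continuousOn_snd fun p hp => hp.2
  obtain ⟨B, hB⟩ := ((isCompact_closedBall L 1).prod hC).exists_bound_of_continuousOn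
    (f := fun p : ℝ × (Fin m → ℂ) => Real.exp (N * p.1) * ((N * phi (Real.exp p.1 * W p.2) +
        W p.2 * (Real.exp p.1 * deriv phi (Real.exp p.1 * W p.2))) * H p.2)) (by fun_prop)
  refine (hasDerivAt_integral_of_dominated_loc_of_deriv_le (closedBall_mem_nhds L one_pos)
    (F' := fun L z => Real.exp (N * L) * ((N * phi (Real.exp L * W z) +
        W z * (Real.exp L * deriv phi (Real.exp L * W z))) * H z)) (bound := fun _ => B)
    (.of_forall fun L => (hF L).aestronglyMeasurable) (hF L)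
    (ContinuousOn.aestronglyMeasurable (by fun_prop) hC.measurableSet) ?_
    (continuousOn_const.integrableOn_compact hC)
    (.of_forall fun z x _ => pt_Mono N (W z) (H z) x)).2
  exact (ae_restrict_mem hC.measurableSet).mono fun z hz x hx => hB (x, z) ⟨hx, hz⟩

theorem mono_stmt (h : IbpStmt) : MonoStmt := by
  intro N J _ _ n D f C hD hf hC hsub hlev L hL
  have hO := (isOpen_Om hD n).measurableSet
  have c1 := phi_continuous
  have cf : ∀ j, ContinuousOn (fun z => f j (dotc (n j) z)) C := fun j =>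
    (hf j).continuousOn.comp (continuous_dotc _).continuousOn fun z hz => hsub hz j
  have cd : ∀ j, ContinuousOn (fun z => deriv (f j) (dotc (n j) z)) C := fun j =>
    ((hf j).deriv (hD j)).continuousOn.comp (continuous_dotc _).continuousOn fun z hz => hsub hz j
  have cW : ContinuousOn (Wf f n) C :=
    continuousOn_finsetSum _ fun j _ => Complex.continuous_normSq.comp_continuousOn (cf j)
  have cT : ∀ s : Fin N → J, ContinuousOn (fun z => (∏ i, af f n (s i) z) * dt n s ^ 2) C :=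
    fun s => (continuousOn_finsetProd _ fun i _ =>
      Complex.continuous_normSq.comp_continuousOn (cd (s i))).mul continuousOn_const
  have cH : ContinuousOn (Hf f n) C := continuousOn_finsetSum _ fun s _ => cT s
  have out : ∀ L, 0 ≤ L → ∀ z ∈ Om D n \ C, 1 / 2 < Real.exp L * Wf f n z := fun L hL z hz => by
    have h1 : 1 / 2 < Wf f n z := lt_of_not_ge fun h1 => hz.2 (hlev z hz.1 h1)
    exact h1.trans_le (half_Mono hL h1.le)
  have e : ∀ L, 0 ≤ L → ∑ s : Fin N → J, termA D f n L s = ENNReal.ofReal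
      (∫ z in C, Real.exp (N * L) * phi (Real.exp L * Wf f n z) * Hf f n z) := fun L hL => by
    have nn : ∀ (s : Fin N → J) z, 0 ≤ Real.exp (N * L) * phi (Real.exp L * Wf f n z) *
        ((∏ i, af f n (s i) z) * dt n s ^ 2) := fun s z =>
      mul_nonneg (mul_nonneg (Real.exp_pos _).le (phi_nonneg _)) (mul_nonneg
        (Finset.prod_nonneg fun i _ => Complex.normSq_nonneg _) (sq_nonneg _))
    have i1 : ∀ s : Fin N → J, IntegrableOn (fun z => Real.exp (N * L) *
        phi (Real.exp L * Wf f n z) * ((∏ i, af f n (s i) z) * dt n s ^ 2)) C := fun s =>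
      ContinuousOn.integrableOn_compact hC (ContinuousOn.mul (by fun_prop) (cT s))
    have z1 : ∀ s : Fin N → J, ∀ z ∈ Om D n \ C, Real.exp (N * L) *
        phi (Real.exp L * Wf f n z) * ((∏ i, af f n (s i) z) * dt n s ^ 2) = 0 := fun s z hz => by
      rw [phi_zero (out L hL z hz).le, mul_zero, zero_mul]
    simp only [Hf, Finset.mul_sum]
    rw [integral_finsetSum _ fun s _ => i1 s,
      ENNReal.ofReal_sum_of_nonneg fun s _ => integral_nonneg (nn s)]
    refine Finset.sum_congr rfl fun s _ => ?_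
    rw [← setIntegral_eq_of_subset_of_forall_sdiff_eq_zero hO hsub (z1 s),
      ofReal_integral_eq_lintegral_ofReal ((i1 s).of_forall_sdiff_eq_zero hO (z1 s))
        (.of_forall (nn s)), termA]
  rw [e L hL, e 0 le_rfl]
  have hd := der_Mono hC cW cH N
  refine ENNReal.ofReal_le_ofReal (antitoneOn_of_deriv_nonpos (convex_Ici 0)
    (fun x _ => (hd x).continuousAt.continuousWithinAt)
    (fun x _ => (hd x).differentiableAt.differentiableWithinAt) (fun x hx => ?_)
    self_mem_Ici hL hL)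
  have hx0 : 0 ≤ x := interior_subset hx
  rw [(hd x).deriv, integral_const_mul]
  refine mul_nonpos_of_nonneg_of_nonpos (Real.exp_pos _).le ?_
  rw [← setIntegral_eq_of_subset_of_forall_sdiff_eq_zero hO hsub fun z hz => by
    rw [phi_zero (out x hx0 z hz).le, dphi_zero_Mono (out x hx0 z hz)]
    ring]
  have c2 := dphi_cont_Mono
  exact h N J n D f C (1 / 2) (fun t => phi (Real.exp x * t))
    (fun t => Real.exp x * deriv phi (Real.exp x * t)) hD hf hC hsub hlev
    (fun t => ((dphi_Mono _).comp t ((hasDerivAt_id' t).const_mul _)).congr_deriv (by ring))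
    (by fun_prop)
    (fun t => mul_nonpos_of_nonneg_of_nonpos (Real.exp_pos _).le phi_anti.deriv_nonpos)
    fun t ht => phi_zero (ht.trans (half_Mono hx0 ht))

end Pool.Agent.MP_5f4cdd_gt.LJ

end

section

set_option autoImplicit false
open Set MeasureTheory Metric Filter Topology
open scoped ENNReal Real Matrix

namespace Pool.Agent.MP_5f4cdd_gt.LJ

variable {N : ℕ} {J : Type}

/-- the real linear map `x + i y ↦ c (x / (2 k) + i y)` -/
noncomputable def lin_CV (k : ℕ) (c : ℂ) : ℂ →L[ℝ] ℂ :=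
  Complex.reCLM.smulRight (c / (2 * k)) + Complex.imCLM.smulRight (c * Complex.I)

theorem det_lin_CV (k : ℕ) (c : ℂ) : (lin_CV k c).det = Complex.normSq c / (2 * k) := by
  have h : c / (2 * (k : ℂ)) = ((2 * (k : ℝ))⁻¹ : ℝ) * c := by
    push_cast; ring
  rw [ContinuousLinearMap.det, ← LinearMap.det_toMatrix Complex.basisOneI, Matrix.det_fin_two]
  simp only [LinearMap.toMatrix_apply, lin_CV, h, Complex.coe_basisOneI_repr,
    Complex.coe_basisOneI, Complex.normSq_apply]
  simp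
  ring

theorem normSq_pt_CV (k : ℕ) (L t θ : ℝ) :
    Complex.normSq (pt k L t θ) = Real.exp (2 * ((t - L) / (2 * k))) := by
  rw [Complex.normSq_eq_norm_sq, pt, Complex.norm_exp, ← Real.exp_nat_mul]
  congr 1
  simp only [Complex.add_re, Complex.ofReal_re, Complex.mul_re, Complex.I_re, Complex.ofReal_im,
    Complex.I_im]
  push_cast; ring

theorem pt_mem_CV {k : ℕ} (hk : 2 ≤ k) {L t : ℝ} (h : t < L) (θ : ℝ) :
    pt k L t θ ∈ ball (0 : ℂ) 1 := by
  have hk' : (0 : ℝ) < 2 * k := by positivity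
  rw [mem_ball_zero_iff, ← sq_lt_one_iff₀ (norm_nonneg _), ← Complex.normSq_eq_norm_sq,
    normSq_pt_CV, Real.exp_lt_one_iff]
  have := div_neg_of_neg_of_pos (sub_neg.2 h) hk'
  linarith

theorem hasFDerivAt_CV {ψ : ℂ → ℂ} (hψ : Adm ψ) {k : ℕ} (hk : 2 ≤ k) {L : ℝ} {τ : ℂ}
    (h : τ.re < L) : HasFDerivAt (fun σ : ℂ => ψ (pt k L σ.re σ.im))
      (lin_CV k (deriv ψ (pt k L τ.re τ.im) * pt k L τ.re τ.im)) τ := by
  have hu := pt_mem_CV hk h τ.im
  have h1 : HasFDerivAt (fun σ : ℂ => lin_CV k 1 σ - (L : ℂ) / (2 * k)) (lin_CV k 1) τ :=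
    (lin_CV k 1).hasFDerivAt.sub_const _
  have e : ∀ σ : ℂ, pt k L σ.re σ.im = Complex.exp (lin_CV k 1 σ - (L : ℂ) / (2 * k)) := by
    intro σ
    simp only [pt, lin_CV]
    congr 1
    simp
    ring
  have h2 : HasDerivAt ψ (deriv ψ (pt k L τ.re τ.im)) (pt k L τ.re τ.im) :=
    (hψ.hol.differentiableAt (isOpen_ball.mem_nhds hu)).hasDerivAt
  have h3 : HasDerivAt (fun w => ψ (Complex.exp w))
      (deriv ψ (pt k L τ.re τ.im) * pt k L τ.re τ.im) (lin_CV k 1 τ - (L : ℂ) / (2 * k)) := by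
    rw [e] at h2 ⊢
    exact h2.comp _ (Complex.hasDerivAt_exp _)
  have h4 := (h3.hasFDerivAt.restrictScalars ℝ).comp τ h1
  refine (h4.congr_of_eventuallyEq (Eventually.of_forall fun σ => congrArg ψ (e σ))).congr_fderiv ?_
  generalize deriv ψ (pt k L τ.re τ.im) * pt k L τ.re τ.im = c
  ext σ
  simp [lin_CV]
  ring

/-- the solution map as a real linear map -/
noncomputable def sol_CV (n : J → Fin N → ℝ) (s : Fin N → J) :
    (Fin N → ℂ) →L[ℝ] (Fin N → ℂ) :=
  LinearMap.toContinuousLinearMap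
    ((Matrix.toLin' ((mat n s)⁻¹.map (algebraMap ℝ ℂ))).restrictScalars ℝ)

theorem sol_apply_CV (n : J → Fin N → ℝ) (s : Fin N → J) (ζ : Fin N → ℂ) :
    sol_CV n s ζ = solc n s ζ := by
  funext a
  simp [sol_CV, solc, dotc, Matrix.mulVec, dotProduct]

theorem det_sol_CV (n : J → Fin N → ℝ) (s : Fin N → J) :
    (sol_CV n s).det = (dt n s ^ 2)⁻¹ := by
  rw [sol_CV, LinearMap.det_toContinuousLinearMap, LinearMap.det_restrictScalars,
    LinearMap.det_toLin', ← RingHom.mapMatrix_apply, ← RingHom.map_det, Matrix.det_nonsing_inv,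
    Algebra.norm_complex_apply, Ring.inverse_eq_inv', dt]
  simp [sq]

theorem deriv_hk_CV (hI : InvStmt) {ψ : J → ℂ → ℂ} (hψ : ∀ j, Adm (ψ j)) (k : J → ℕ) (j : J)
    {u : ℂ} (hu : u ∈ ball (0 : ℂ) 1) :
    deriv (hk ψ k j) (ψ j u) = k j * u ^ (k j - 1) * (deriv (ψ j) u)⁻¹ := by
  have h := ((hI.deriv _ (hψ j) u hu).fun_pow (k j)).deriv
  rw [hI.inv_apply _ (hψ j) u hu] at h
  exact h

theorem factor_CV {k : ℕ} (hk : 2 ≤ k) (L t θ : ℝ) {d : ℂ} (hd : d ≠ 0) :
    Complex.normSq (d * pt k L t θ) / (2 * k) *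
      (Real.exp L * Complex.normSq (k * pt k L t θ ^ (k - 1) * d⁻¹)) = k / 2 * Real.exp t := by
  have hk' : (k : ℝ) ≠ 0 := by positivity
  have hd' : Complex.normSq d ≠ 0 := by simpa using hd
  have h1 : Complex.normSq (pt k L t θ) * Complex.normSq (pt k L t θ) ^ (k - 1) * Real.exp L =
      Real.exp t := by
    rw [← pow_succ', Nat.sub_add_cancel (by omega), normSq_pt_CV, ← Real.exp_nat_mul,
      ← Real.exp_add]
    congr 1
    field_simp
    ring
  simp only [map_mul, map_pow, map_inv₀, Complex.normSq_natCast]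
  rw [← h1]
  field_simp

theorem pt_log_CV {k : ℕ} (hk : 2 ≤ k) (L : ℝ) {u : ℂ} (hu : u ≠ 0) :
    pt k L (L + 2 * k * Real.log ‖u‖) u.arg = u := by
  have hk' : (k : ℝ) ≠ 0 := by positivity
  have : (L + 2 * k * Real.log ‖u‖ - L) / (2 * k) = Real.log ‖u‖ := by
    field_simp
    ring
  rw [pt, this]
  exact Complex.exp_log hu

theorem pt_inj_CV {k : ℕ} (hk : 2 ≤ k) (L : ℝ) {σ τ : ℂ} (hσ : σ.im ∈ Ioc (-π) π)
    (hτ : τ.im ∈ Ioc (-π) π) (h : pt k L σ.re σ.im = pt k L τ.re τ.im) : σ = τ := by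
  have hk' : (2 * k : ℝ) ≠ 0 := by positivity
  have e : ∀ x y : ℝ, ((x : ℂ) + y * Complex.I).im = y := fun x y => by simp
  have e' : ∀ x y : ℝ, ((x : ℂ) + y * Complex.I).re = x := fun x y => by simp
  have h1 := Complex.exp_inj_of_neg_pi_lt_of_le_pi (by rw [e]; exact hσ.1) (by rw [e]; exact hσ.2)
    (by rw [e]; exact hτ.1) (by rw [e]; exact hτ.2) h
  have h2 := congrArg Complex.re h1
  have h3 := congrArg Complex.im h1
  rw [e', e', div_left_inj' hk', sub_left_inj] at h2
  rw [e, e] at h3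
  exact Complex.ext h2 h3

/-- real and imaginary parts -/
noncomputable def eqv_CV (N : ℕ) : (Fin N → ℂ) ≃ᵐ (Fin N → ℝ) × (Fin N → ℝ) :=
  (MeasurableEquiv.piCongrRight fun _ => Complex.measurableEquivRealProd).trans
    (MeasurableEquiv.arrowProdEquivProdArrow ℝ ℝ (Fin N))

theorem eqv_apply_CV (τ : Fin N → ℂ) : eqv_CV N τ = (fun i => (τ i).re, fun i => (τ i).im) := rfl

theorem eqv_mp_CV (N : ℕ) : MeasurePreserving (eqv_CV N) volume volume :=
  (volume_measurePreserving_arrowProdEquivProdArrow ℝ ℝ (Fin N)).comp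
    (volume_preserving_pi fun _ => Complex.volume_preserving_equiv_real_prod)

theorem cv_stmt (hI : InvStmt) : CvStmt := by
  intro N J _ ψ hψ n k hK L s hs
  have hOm : MeasurableSet (Om (dom ψ) n) :=
    (isOpen_Om (fun j => hI.isOpen _ (hψ j)) n).measurableSet
  set B : Set ((Fin N → ℝ) × (Fin N → ℝ)) := (univ.pi fun _ : Fin N => Iio L) ×ˢ box N with hB
  have hBm : MeasurableSet B :=
    (MeasurableSet.univ_pi fun _ => measurableSet_Iio).prod
      (MeasurableSet.univ_pi fun _ => measurableSet_Ioc)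
  have hS : MeasurableSet (eqv_CV N ⁻¹' B) := (eqv_CV N).measurable hBm
  have hmem : ∀ τ : Fin N → ℂ, τ ∈ eqv_CV N ⁻¹' B ↔
      ∀ i, (τ i).re < L ∧ (τ i).im ∈ Ioc (-π) π := fun τ => by
    simp only [hB, box, mem_preimage, eqv_apply_CV, mem_prod, Set.mem_pi, mem_univ, forall_true_left,
      mem_Iio, forall_and]
  have hT : ∀ τ : Fin N → ℂ, par ψ n k L s (eqv_CV N τ) =
      solc n s fun i => ψ (s i) (pt (k (s i)) L (τ i).re (τ i).im) := fun τ => rfl
  have hder : ∀ τ ∈ eqv_CV N ⁻¹' B, HasFDerivWithinAt (fun τ => par ψ n k L s (eqv_CV N τ))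
      ((sol_CV n s).comp (ContinuousLinearMap.pi fun i => (lin_CV (k (s i))
        (deriv (ψ (s i)) (pt (k (s i)) L (τ i).re (τ i).im) *
          pt (k (s i)) L (τ i).re (τ i).im)).comp (ContinuousLinearMap.proj i)))
      (eqv_CV N ⁻¹' B) τ := by
    intro τ hτ
    simp only [hT, ← sol_apply_CV]
    refine ((sol_CV n s).hasFDerivAt.comp τ (hasFDerivAt_pi.2 fun i => ?_)).hasFDerivWithinAt
    have := (hasFDerivAt_CV (hψ (s i)) (hK (s i)) ((hmem τ).1 hτ i).1).comp τ
      (hasFDerivAt_apply (𝕜 := ℝ) i τ)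
    exact this
  have hinj : InjOn (fun τ => par ψ n k L s (eqv_CV N τ)) (eqv_CV N ⁻¹' B) := by
    intro σ hσ τ hτ h
    funext i
    have h1 := congrArg (dotc (n (s i))) h
    simp only [hT, dotc_solc hs] at h1
    have h2 := (hmem σ).1 hσ i
    have h3 := (hmem τ).1 hτ i
    exact pt_inj_CV (hK _) L h2.2 h3.2
      ((hψ _).inj (pt_mem_CV (hK _) h2.1 _) (pt_mem_CV (hK _) h3.1 _) h1)
  rw [term, termA, ← lintegral_indicator hOm, ← setLIntegral_eq_of_support_subset
    (s := (fun τ => par ψ n k L s (eqv_CV N τ)) '' (eqv_CV N ⁻¹' B)),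
    lintegral_image_eq_lintegral_abs_det_fderiv_mul volume hS hder hinj,
    ← (eqv_mp_CV N).setLIntegral_comp_preimage_emb (eqv_CV N).measurableEmbedding]
  · refine setLIntegral_congr_fun hS fun τ hτ => ?_
    have hτ' := (hmem τ).1 hτ
    by_cases hz : par ψ n k L s (eqv_CV N τ) ∈ Om (dom ψ) n
    · have hd : ((sol_CV n s).comp (ContinuousLinearMap.pi fun i => (lin_CV (k (s i))
        (deriv (ψ (s i)) (pt (k (s i)) L (τ i).re (τ i).im) *
          pt (k (s i)) L (τ i).re (τ i).im)).comp (ContinuousLinearMap.proj i))).det =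
          (dt n s ^ 2)⁻¹ * ∏ i, Complex.normSq (deriv (ψ (s i)) (pt (k (s i)) L (τ i).re (τ i).im) *
          pt (k (s i)) L (τ i).re (τ i).im) / (2 * k (s i)) := by
        refine (LinearMap.det_comp (sol_CV n s).toLinearMap _).trans ?_
        exact congrArg₂ (· * ·) (det_sol_CV n s) ((ContinuousLinearMap.det_pi _).trans
          (Finset.prod_congr rfl fun i _ => det_lin_CV _ _))
      have haf : ∀ i, af (hk ψ k) n (s i) (par ψ n k L s (eqv_CV N τ)) = Complex.normSq
          (k (s i) * pt (k (s i)) L (τ i).re (τ i).im ^ (k (s i) - 1) *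
            (deriv (ψ (s i)) (pt (k (s i)) L (τ i).re (τ i).im))⁻¹) := fun i => by
        rw [af, hT, dotc_solc hs, deriv_hk_CV hI hψ k _ (pt_mem_CV (hK _) (hτ' i).1 _)]
      simp only [indicator_of_mem hz, hd, haf]
      rw [← ENNReal.ofReal_mul (abs_nonneg _), ← ENNReal.ofReal_mul (by positivity),
        abs_of_nonneg (mul_nonneg (by positivity) (Finset.prod_nonneg fun i _ =>
          div_nonneg (Complex.normSq_nonneg _) (by positivity)))]
      congr 1
      have hp := Finset.prod_congr (s₁ := Finset.univ) rfl fun i _ => factor_CV (hK (s i)) L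
        (τ i).re (τ i).im ((hψ (s i)).der _ (pt_mem_CV (hK (s i)) (hτ' i).1 (τ i).im))
      rw [Finset.prod_mul_distrib, Finset.prod_mul_distrib, Finset.prod_const, Finset.card_univ,
        Fintype.card_fin, ← Real.exp_nat_mul] at hp
      simp only [eqv_apply_CV]
      rw [← hp]
      field_simp
    · simp only [indicator_of_notMem hz, mul_zero]
  · intro z hz
    have hzO : z ∈ Om (dom ψ) n := by
      by_contra h
      exact hz (indicator_of_notMem h _)
    rw [Function.mem_support, indicator_of_mem hzO] at hz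
    choose u hu hu' using fun i => hzO (s i)
    have hu0 : ∀ i, u i ≠ 0 := fun i h0 => hz (by
      have : af (hk ψ k) n (s i) z = 0 := by
        rw [af, ← hu', deriv_hk_CV hI hψ k _ (hu i), h0,
          zero_pow (by have := hK (s i); omega)]
        simp
      rw [Finset.prod_eq_zero (Finset.mem_univ i) this]
      simp)
    refine ⟨fun i => ⟨L + 2 * k (s i) * Real.log ‖u i‖, (u i).arg⟩, (hmem _).2 fun i =>
      ⟨?_, Complex.neg_pi_lt_arg _, Complex.arg_le_pi _⟩, ?_⟩
    · have h1 : Real.log ‖u i‖ < 0 :=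
        Real.log_neg (norm_pos_iff.2 (hu0 i)) (mem_ball_zero_iff.1 (hu i))
      have h2 : (0 : ℝ) < 2 * k (s i) := by have := hK (s i); positivity
      have := mul_neg_of_pos_of_neg h2 h1
      change L + _ < L
      linarith
    · simp only [hT, pt_log_CV (hK _) L (hu0 _), hu', solc_dotc hs]

end Pool.Agent.MP_5f4cdd_gt.LJ

end

section

set_option autoImplicit false
open Set MeasureTheory Metric Filter Topology
open scoped ENNReal Real Matrix

namespace Pool.Agent.MP_5f4cdd_gt.LJ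

open Asymptotics

variable {N : ℕ} {J : Type}

theorem isBigO_comp_Lower {f : ℂ → ℂ} (hf : DifferentiableAt ℂ f 0) (h0 : f 0 = 0) {u : ℕ → ℂ}
    {E : ℕ → ℝ} (hE : Tendsto E atTop (𝓝 0)) (hu : u =O[atTop] E) :
    (fun L => f (u L)) =O[atTop] E := by
  have h := hf.isBigO_sub.comp_tendsto (hu.trans_tendsto hE)
  simp only [h0, sub_zero] at h
  exact h.trans hu

theorem isBigO_dotc_Lower (v : Fin N → ℝ) {z : ℕ → Fin N → ℂ} {E : ℕ → ℝ}
    (h : ∀ a, (fun L => z L a) =O[atTop] E) : (fun L => dotc v (z L)) =O[atTop] E :=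
  IsBigO.fun_sum fun a _ => (h a).const_mul_left _

theorem norm_pt_Lower (k : ℕ) (L t θ : ℝ) : ‖pt k L t θ‖ = Real.exp ((t - L) / (2 * k)) := by
  rw [pt, Complex.norm_exp]
  simp only [Complex.add_re, Complex.ofReal_re, Complex.mul_re, Complex.I_re, mul_zero,
    Complex.ofReal_im, Complex.I_im, mul_one, sub_self, add_zero]

theorem tendsto_exp_Lower {c : ℝ} (hc : 0 < c) :
    Tendsto (fun L : ℕ => Real.exp (-(L * c))) atTop (𝓝 0) :=
  Real.tendsto_exp_neg_atTop_nhds_zero.comp (tendsto_natCast_atTop_atTop.atTop_mul_const hc)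

theorem isBigO_pt_Lower (K : ℕ) (t θ : ℝ) :
    (fun L : ℕ => pt K L t θ) =O[atTop] fun L : ℕ => Real.exp (-(L * (1 / (2 * K)))) :=
  IsBigO.of_bound (Real.exp (t / (2 * K))) (.of_forall fun L => le_of_eq (by
    rw [norm_pt_Lower, Real.norm_eq_abs, Real.abs_exp, ← Real.exp_add]
    congr 1
    ring))

theorem isBigO_par_Lower {ψ : J → ℂ → ℂ} (hψ : ∀ j, Adm (ψ j)) (n : J → Fin N → ℝ) {k : J → ℕ}
    {K : ℕ} (hK : 2 ≤ K) {s : Fin N → J} (hs : ∀ i, k (s i) = K)
    (p : (Fin N → ℝ) × (Fin N → ℝ)) (a : Fin N) :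
    (fun L : ℕ => par ψ n k L s p a) =O[atTop] fun L : ℕ => Real.exp (-(L * (1 / (2 * K)))) := by
  have hK' : (0 : ℝ) < 1 / (2 * K) := by
    have : (0 : ℝ) < K := by exact_mod_cast (by omega : 0 < K)
    positivity
  refine isBigO_dotc_Lower _ fun i => isBigO_comp_Lower
    ((hψ (s i)).hol.differentiableAt (ball_mem_nhds 0 one_pos)) (hψ (s i)).zero
    (tendsto_exp_Lower hK') ?_
  rw [hs i]
  exact isBigO_pt_Lower K _ _

theorem tendsto_out_Lower (hI : InvStmt) {ψ : ℂ → ℂ} (hψ : Adm ψ) {K m : ℕ} (hK : 2 ≤ K)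
    (hm : K < m) {u : ℕ → ℂ} (hu : u =O[atTop] fun L : ℕ => Real.exp (-(L * (1 / (2 * K))))) :
    Tendsto (fun L : ℕ => Real.exp L * Complex.normSq (inv ψ (u L) ^ m)) atTop (𝓝 0) := by
  have hK0 : (0 : ℝ) < K := by exact_mod_cast (by omega : 0 < K)
  have hK' : (0 : ℝ) < 1 / (2 * K) := by positivity
  have h0 : (0 : ℂ) ∈ ball (0 : ℂ) 1 := mem_ball_self one_pos
  have h1 := (hI.deriv ψ hψ 0 h0).differentiableAt
  have h2 := hI.inv_apply ψ hψ 0 h0
  rw [hψ.zero] at h1 h2
  have h3 := (((isBigO_comp_Lower h1 h2 (tendsto_exp_Lower hK') hu).pow m).norm_left.pow 2)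
  have h4 := (isBigO_refl (fun L : ℕ => Real.exp L) atTop).mul h3
  have h5 : (0 : ℝ) < m / K - 1 := by
    rw [sub_pos, one_lt_div hK0]
    exact_mod_cast hm
  simp only [Complex.normSq_eq_norm_sq]
  refine h4.trans_tendsto ((tendsto_exp_Lower h5).congr fun L => ?_)
  rw [← Real.exp_nat_mul, ← Real.exp_nat_mul, ← Real.exp_add]
  congr 1
  push_cast
  field_simp
  ring

theorem tendsto_W_Lower (hI : InvStmt) [Fintype J] {ψ : J → ℂ → ℂ} (hψ : ∀ j, Adm (ψ j))
    (n : J → Fin N → ℝ) {k : J → ℕ} {K : ℕ} (hK : 2 ≤ K) {s : Fin N → J} (hd : dt n s ≠ 0)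
    (hs : ∀ i, k (s i) = K) (hj : ∀ j, j ∉ range s → K < k j)
    (p : (Fin N → ℝ) × (Fin N → ℝ)) :
    Tendsto (fun L : ℕ => Real.exp L * Wf (hk ψ k) n (par ψ n k L s p)) atTop
      (𝓝 (∑ i, Real.exp (p.1 i))) := by
  classical
  rw [← Finset.sum_fiberwise Finset.univ s]
  simp only [Wf, Finset.mul_sum]
  refine tendsto_finsetSum _ fun j _ => ?_
  by_cases h : j ∈ range s
  · obtain ⟨i, rfl⟩ := h
    have h1 : Finset.univ.filter (fun l => s l = s i) = {i} := by
      ext l
      simp [(injective_of_dt hd).eq_iff]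
    rw [h1, Finset.sum_singleton]
    refine tendsto_const_nhds.congr' ?_
    filter_upwards [tendsto_natCast_atTop_atTop.eventually_gt_atTop (p.1 i)] with L hL
    rw [par, dotc_solc hd, hI.exp_mul J ψ hψ k (s i) (by rw [hs i]; omega) L _ _ hL]
  · have h1 : Finset.univ.filter (fun l => s l = j) = ∅ :=
      Finset.filter_false_of_mem fun l _ hl => h ⟨l, hl⟩
    rw [h1, Finset.sum_empty]
    exact tendsto_out_Lower hI (hψ j) hK (hj j h)
      (isBigO_dotc_Lower (n j) (isBigO_par_Lower hψ n hK hs p))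

theorem eventually_Om_Lower (hI : InvStmt) [Fintype J] {ψ : J → ℂ → ℂ} (hψ : ∀ j, Adm (ψ j))
    (n : J → Fin N → ℝ) {k : J → ℕ} {K : ℕ} (hK : 2 ≤ K) {s : Fin N → J}
    (hs : ∀ i, k (s i) = K) (p : (Fin N → ℝ) × (Fin N → ℝ)) :
    ∀ᶠ L : ℕ in atTop, par ψ n k L s p ∈ Om (dom ψ) n := by
  have hK' : (0 : ℝ) < 1 / (2 * K) := by
    have : (0 : ℝ) < K := by exact_mod_cast (by omega : 0 < K)
    positivity
  have h1 : Tendsto (fun L : ℕ => par ψ n k L s p) atTop (𝓝 0) := tendsto_pi_nhds.2 fun a =>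
    (isBigO_par_Lower hψ n hK hs p a).trans_tendsto (tendsto_exp_Lower hK')
  refine h1.eventually ((isOpen_Om (fun j => hI.isOpen _ (hψ j)) n).mem_nhds fun j => ?_)
  rw [dotc_zero]
  exact ⟨0, mem_ball_self one_pos, (hψ j).zero⟩

theorem continuousOn_par_Lower {ψ : J → ℂ → ℂ} (hψ : ∀ j, Adm (ψ j)) (n : J → Fin N → ℝ)
    {k : J → ℕ} (L : ℝ) {s : Fin N → J} :
    ContinuousOn (par ψ n k L s) ((univ.pi fun _ : Fin N => Iio L) ×ˢ univ) := by
  refine (continuous_solc n s).comp_continuousOn (continuousOn_pi.2 fun i => ?_)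
  have h1 : Continuous fun p : (Fin N → ℝ) × (Fin N → ℝ) => pt (k (s i)) L (p.1 i) (p.2 i) := by
    unfold pt
    fun_prop
  refine (hψ (s i)).cont.comp h1.continuousOn fun p hp => ?_
  rw [mem_closedBall_zero_iff, norm_pt_Lower, Real.exp_le_one_iff]
  exact div_nonpos_of_nonpos_of_nonneg (sub_nonpos.2 (le_of_lt (hp.1 i (mem_univ i))))
    (by positivity)

theorem lower_stmt (hI : InvStmt) (hV : CvStmt) (hC : CnStmt) : LowerStmt := by
  intro N J _ ψ hψ n k K hK s hd hs hj
  classical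
  have hk2 : ∀ j, 2 ≤ k j := fun j => by
    by_cases h : j ∈ range s
    · obtain ⟨i, rfl⟩ := h
      rw [hs i]
      exact hK
    · exact hK.trans (hj j h).le
  set A : ℝ → Set ((Fin N → ℝ) × (Fin N → ℝ)) :=
    fun L => (univ.pi fun _ : Fin N => Iio L) ×ˢ univ with hA
  have hAm : ∀ L, MeasurableSet (A L) := fun L =>
    (MeasurableSet.univ_pi fun _ => measurableSet_Iio).prod MeasurableSet.univ
  set G : ℝ → (Fin N → ℝ) × (Fin N → ℝ) → ℝ≥0∞ := fun L p =>
    ENNReal.ofReal (∏ i, (k (s i) / 2 * Real.exp (p.1 i))) * (Om (dom ψ) n).indicator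
      (fun z => ENNReal.ofReal (phi (Real.exp L * Wf (hk ψ k) n z))) (par ψ n k L s p) with hG
  have h1 : ∀ L : ℝ, term ψ n k L s = ∫⁻ p in univ ×ˢ box N, (A L).indicator (G L) p := by
    intro L
    rw [hV N J ψ hψ n k hk2 L s hd, lintegral_indicator (hAm L),
      Measure.restrict_restrict (hAm L), hA, prod_inter_prod, inter_univ, univ_inter]
  have h2 : ∀ L : ℝ, AEMeasurable ((A L).indicator (G L)) (volume.restrict (univ ×ˢ box N)) := by
    intro L
    rw [aemeasurable_indicator_iff (hAm L)]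
    refine AEMeasurable.mul (Measurable.aemeasurable (by fun_prop)) ?_
    have h3 : AEMeasurable (par ψ n k L s)
        ((volume.restrict (univ ×ˢ box N)).restrict (A L)) :=
      (continuousOn_par_Lower hψ n L).aemeasurable (hAm L)
    refine Measurable.comp_aemeasurable (g := (Om (dom ψ) n).indicator
      fun z => ENNReal.ofReal (phi (Real.exp L * Wf (hk ψ k) n z))) ?_ h3
    rw [← piecewise_eq_indicator]
    refine ContinuousOn.measurable_piecewise ?_ continuousOn_const
      (isOpen_Om (fun j => hI.isOpen _ (hψ j)) n).measurableSet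
    exact ENNReal.continuous_ofReal.comp_continuousOn (phi_continuous.comp_continuousOn
      (continuousOn_const.mul (hI.contW N J ψ hψ n k)))
  have h3 : ∀ p, Tendsto (fun L : ℕ => (A L).indicator (G L) p) atTop
      (𝓝 (ENNReal.ofReal ((K / 2 : ℝ) ^ N) * (wt p.1 * 1))) := by
    intro p
    have h4 := ENNReal.tendsto_ofReal (((phi_continuous.tendsto _).comp
      (tendsto_W_Lower hI hψ n hK hd hs hj p)).const_mul (∏ i, (k (s i) / 2 * Real.exp (p.1 i))))
    have h5 : ENNReal.ofReal ((K / 2 : ℝ) ^ N) * (wt p.1 * 1) = ENNReal.ofReal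
        ((∏ i, (k (s i) / 2 * Real.exp (p.1 i))) * phi (∑ i, Real.exp (p.1 i))) := by
      rw [mul_one, wt, ← ENNReal.ofReal_mul (by positivity)]
      simp only [hs, Finset.prod_mul_distrib, Finset.prod_const, Finset.card_univ,
        Fintype.card_fin]
      congr 1
      ring
    rw [h5]
    refine h4.congr' ?_
    filter_upwards [eventually_Om_Lower hI hψ n hK hs p, eventually_all.2 fun i =>
      tendsto_natCast_atTop_atTop.eventually_gt_atTop (p.1 i)] with L hL hL'
    have h6 : p ∈ A L := ⟨fun i _ => hL' i, mem_univ _⟩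
    rw [indicator_of_mem h6, hG]
    simp only [indicator_of_mem hL]
    rw [ENNReal.ofReal_mul (by positivity)]
    rfl
  simp only [h1]
  refine le_trans (le_of_eq ?_) (lintegral_liminf_le' fun L : ℕ => h2 L)
  simp only [fun p => (h3 p).liminf_eq]
  rw [lintegral_const_mul' _ _ ENNReal.ofReal_ne_top, Measure.volume_eq_prod,
    ← Measure.prod_restrict, Measure.restrict_univ,
    lintegral_prod_mul (hC.meas N).aemeasurable aemeasurable_const, lintegral_one,
    Measure.restrict_apply_univ, hC.box, ENNReal.ofReal_mul (by positivity), cN]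
  ring

end Pool.Agent.MP_5f4cdd_gt.LJ

end

section

set_option autoImplicit false
open Set MeasureTheory Metric Filter Topology
open scoped ENNReal Real Matrix

namespace Pool.Agent.MP_5f4cdd_gt.LJ

variable {N : ℕ} {J : Type}

theorem pt_mem_Upper {k : ℕ} {t : ℝ} (ht : t < 0) (θ : ℝ) :
    pt k 0 t θ ∈ closedBall (0 : ℂ) 1 := by
  rw [mem_closedBall_zero_iff, pt, Complex.norm_exp, Real.exp_le_one_iff]
  simp only [Complex.add_re, Complex.ofReal_re, Complex.mul_re, Complex.I_re, mul_zero,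
    Complex.ofReal_im, Complex.I_im, sub_self, add_zero, sub_zero, mul_one]
  exact div_nonpos_of_nonpos_of_nonneg ht.le (by positivity)

theorem prod_int_Upper (hC : CnStmt) (B : Set (Fin N → ℝ)) :
    ∫⁻ p in (univ : Set (Fin N → ℝ)) ×ˢ B, wt p.1 = cN N * volume B := by
  rw [Measure.volume_eq_prod, ← Measure.prod_restrict, Measure.restrict_univ]
  have := lintegral_prod_mul (μ := (volume : Measure (Fin N → ℝ)))
    (ν := (volume : Measure (Fin N → ℝ)).restrict B) (f := wt) (g := fun _ => 1)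
    (hC.meas N).aemeasurable aemeasurable_const
  simpa [cN] using this

theorem par_contOn_Upper {ψ : J → ℂ → ℂ} (hψ : ∀ j, Adm (ψ j)) (n : J → Fin N → ℝ) (k : J → ℕ)
    (s : Fin N → J) :
    ContinuousOn (par ψ n k 0 s) ((univ.pi fun _ : Fin N => Iio (0 : ℝ)) ×ˢ univ) := by
  refine (continuous_solc n s).comp_continuousOn (continuousOn_pi.2 fun i => ?_)
  refine (hψ (s i)).cont.comp (f := fun p : (Fin N → ℝ) × (Fin N → ℝ) =>
    pt (k (s i)) 0 (p.1 i) (p.2 i)) (Continuous.continuousOn ?_)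
    fun p hp => pt_mem_Upper (hp.1 i (mem_univ i)) _
  unfold pt
  fun_prop

theorem sum_le_Wf_Upper [Fintype J] (hI : InvStmt) {ψ : J → ℂ → ℂ} (hψ : ∀ j, Adm (ψ j))
    {n : J → Fin N → ℝ} {k : J → ℕ} (hk1 : ∀ j, 1 ≤ k j) {s : Fin N → J} (hs : dt n s ≠ 0)
    {p : (Fin N → ℝ) × (Fin N → ℝ)} (hp : ∀ i, p.1 i < 0) :
    ∑ i, Real.exp (p.1 i) ≤ Real.exp 0 * Wf (hk ψ k) n (par ψ n k 0 s p) := by
  classical
  rw [Real.exp_zero, one_mul, Wf]
  have e : ∀ i, Real.exp (p.1 i) =
      Complex.normSq (hk ψ k (s i) (dotc (n (s i)) (par ψ n k 0 s p))) := by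
    intro i
    rw [par, dotc_solc hs, ← hI.exp_mul J ψ hψ k (s i) (hk1 _) 0 (p.1 i) (p.2 i) (hp i),
      Real.exp_zero, one_mul]
  rw [Finset.sum_congr rfl fun i _ => e i,
    ← Finset.sum_image (f := fun j => Complex.normSq (hk ψ k j (dotc (n j) (par ψ n k 0 s p))))
      (injective_of_dt hs).injOn]
  exact Finset.sum_le_sum_of_subset_of_nonneg (Finset.subset_univ _)
    fun j _ _ => Complex.normSq_nonneg _

theorem tendsto_par_Upper {ψ : J → ℂ → ℂ} (hψ : ∀ j, Adm (ψ j)) (n : J → Fin N → ℝ)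
    {k : ℕ → J → ℕ} (hk2 : ∀ K j, K + 2 ≤ k K j) (s : Fin N → J)
    {p : (Fin N → ℝ) × (Fin N → ℝ)} (hp : ∀ i, p.1 i < 0) :
    Tendsto (fun K => par ψ n (k K) 0 s p) atTop
      (𝓝 (solc n s fun i => ψ (s i) (Complex.exp (p.2 i * Complex.I)))) := by
  refine ((continuous_solc n s).tendsto _).comp (tendsto_pi_nhds.2 fun i => ?_)
  have h0 : Complex.exp (p.2 i * Complex.I) ∈ closedBall (0 : ℂ) 1 := by
    rw [mem_closedBall_zero_iff, Complex.norm_exp_ofReal_mul_I]
  refine ((hψ (s i)).cont _ h0).tendsto.comp (tendsto_nhdsWithin_iff.2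
    ⟨?_, Eventually.of_forall fun K => pt_mem_Upper (hp i) _⟩)
  have h1 : Tendsto (fun K => (2 * k K (s i) : ℝ)) atTop atTop := by
    refine Tendsto.const_mul_atTop two_pos (tendsto_natCast_atTop_atTop.comp ?_)
    exact tendsto_atTop_mono (fun K => (Nat.le_add_right K 2).trans (hk2 K _)) tendsto_id
  have h2 : Tendsto (fun K => (p.1 i - 0) / (2 * k K (s i) : ℝ)) atTop (𝓝 0) :=
    tendsto_const_nhds.div_atTop h1
  have h3 : Continuous fun r : ℝ => Complex.exp ((r : ℂ) + p.2 i * Complex.I) := by fun_prop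
  have h4 := (h3.tendsto 0).comp h2
  rw [Complex.ofReal_zero, zero_add] at h4
  exact h4

theorem upper_stmt (hI : InvStmt) (hV : CvStmt) (hC : CnStmt) : UpperStmt := by
  intro N J _ ψ hψ n k hk s hs
  let T : Set ((Fin N → ℝ) × (Fin N → ℝ)) := (univ.pi fun _ : Fin N => Iio (0 : ℝ)) ×ˢ univ
  let S : Set ((Fin N → ℝ) × (Fin N → ℝ)) := (univ.pi fun _ : Fin N => Iio (0 : ℝ)) ×ˢ box N
  have hT : IsOpen T := (isOpen_set_pi finite_univ fun _ _ => isOpen_Iio).prod isOpen_univ
  have hS : MeasurableSet S := (MeasurableSet.univ_pi fun _ => measurableSet_Iio).prod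
    (MeasurableSet.univ_pi fun _ => measurableSet_Ioc)
  have hO : IsOpen (Om (dom ψ) n) := isOpen_Om (fun j => hI.isOpen _ (hψ j)) n
  let G : ℕ → (Fin N → ℝ) × (Fin N → ℝ) → ℝ≥0∞ := fun K =>
    (T ∩ par ψ n (k K) 0 s ⁻¹' Om (dom ψ) n).indicator fun p => wt p.1
  have hG : ∀ K, Measurable (G K) := fun K =>
    ((hC.meas N).comp measurable_fst).indicator
      ((par_contOn_Upper hψ n (k K) s).isOpen_inter_preimage hT hO).measurableSet
  have h1 : ∀ K : ℕ, ENNReal.ofReal ((2 / (K + 3 : ℝ)) ^ N) * term ψ n (k K) 0 s ≤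
      ∫⁻ p in S, G K p := by
    intro K
    rw [hV N J ψ hψ n (k K) (fun j => (Nat.le_add_left 2 K).trans (hk K j).1) 0 s hs,
      ← lintegral_const_mul' _ _ ENNReal.ofReal_ne_top]
    refine setLIntegral_mono' hS fun p hp => ?_
    by_cases hm : par ψ n (k K) 0 s p ∈ Om (dom ψ) n
    · have hp1 : ∀ i, p.1 i < 0 := fun i => hp.1 i (mem_univ i)
      have hm' : p ∈ T ∩ par ψ n (k K) 0 s ⁻¹' Om (dom ψ) n := ⟨⟨hp.1, mem_univ _⟩, hm⟩
      have e : G K p = wt p.1 := indicator_of_mem hm' _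
      rw [e, indicator_of_mem hm, ← mul_assoc, ← ENNReal.ofReal_mul (by positivity),
        ← ENNReal.ofReal_mul (by positivity), wt]
      refine ENNReal.ofReal_le_ofReal ?_
      rw [mul_comm]
      refine mul_le_mul (phi_anti (sum_le_Wf_Upper hI hψ
        (fun j => (by have := (hk K j).1; omega)) hs hp1)) ?_ (by positivity) (phi_nonneg _)
      rw [← Fin.prod_const, ← Finset.prod_mul_distrib]
      refine Finset.prod_le_prod (fun i _ => by positivity) fun i _ => ?_
      have h3 : (k K (s i) : ℝ) ≤ K + 3 := by exact_mod_cast (hk K (s i)).2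
      rw [← mul_assoc]
      refine mul_le_of_le_one_left (Real.exp_pos _).le ?_
      rw [div_mul_div_comm, div_le_one (by positivity)]
      linarith
    · rw [indicator_of_notMem hm, mul_zero, mul_zero]
      exact zero_le
  have hfin : ∫⁻ p in S, wt p.1 ≠ ⊤ := by
    refine ne_top_of_le_ne_top ?_ (lintegral_mono_set (prod_mono (subset_univ _) subset_rfl))
    rw [prod_int_Upper hC, hC.box]
    exact ENNReal.mul_ne_top (hC.lt_top N).ne ENNReal.ofReal_ne_top
  refine (limsup_le_limsup (Eventually.of_forall h1)).trans ?_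
  refine (limsup_lintegral_le (μ := volume.restrict S) (fun p => wt p.1) hG
    (fun K => Eventually.of_forall fun p => indicator_le_self _ _ p) hfin).trans ?_
  rw [← prod_int_Upper hC]
  refine le_trans ?_ (lintegral_indicator_le _ _)
  refine le_trans (setLIntegral_mono' hS fun p hp => ?_) (setLIntegral_le_lintegral S _)
  by_cases hf : p.2 ∈ feas ψ n s
  · rw [indicator_of_mem (show p ∈ univ ×ˢ feas ψ n s from ⟨mem_univ _, hf⟩)]
    exact limsup_le_of_le (h := Eventually.of_forall fun K => indicator_le_self _ _ p)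
  · refine le_trans (limsup_le_of_le (h := ?_)) zero_le
    have hp1 : ∀ i, p.1 i < 0 := fun i => hp.1 i (mem_univ i)
    obtain ⟨j, hj⟩ := not_forall.1 fun h => hf ⟨hp.2, h⟩
    have hcl : IsClosed (ψ j '' closedBall 0 1) :=
      ((isCompact_closedBall 0 1).image_of_continuousOn (hψ j).cont).isClosed
    have ht := ((continuous_dotc (n j)).tendsto _).comp
      (tendsto_par_Upper hψ n (fun K j => (hk K j).1) s hp1)
    filter_upwards [ht.eventually (hcl.isOpen_compl.mem_nhds hj)] with K hK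
    refine (indicator_of_notMem (fun h => hK ?_) _).le
    exact image_mono ball_subset_closedBall (h.2 j)

end Pool.Agent.MP_5f4cdd_gt.LJ

end

section

set_option autoImplicit false
open Set MeasureTheory Metric Filter Topology
open scoped ENNReal Real Matrix

namespace Pool.Agent.MP_5f4cdd_gt.LJ

variable {N : ℕ} {J : Type}

/-- the open orthant -/
def ort_G3 (N : ℕ) : Set (Fin N → ℝ) := univ.pi fun _ => Ioi 0

/-- the parametrisation of the cone -/
noncomputable def lin_G3 (n : J → Fin N → ℝ) (τ : (Fin N → J) × (Fin N → Bool)) :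
    (Fin N → ℝ) →L[ℝ] Fin N → ℝ :=
  LinearMap.toContinuousLinearMap
    (Matrix.toLin' ((mat n τ.1)ᵀ * Matrix.diagonal fun i => sg (τ.2 i)))

theorem lin_apply_G3 (n : J → Fin N → ℝ) (τ : (Fin N → J) × (Fin N → Bool)) (c : Fin N → ℝ) :
    lin_G3 n τ c = ∑ i, (c i * sg (τ.2 i)) • n (τ.1 i) := by
  funext a
  simp only [lin_G3, LinearMap.coe_toContinuousLinearMap', Matrix.toLin'_apply, Matrix.mulVec,
    dotProduct, Matrix.mul_diagonal, Matrix.transpose_apply, mat, Matrix.of_apply,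
    Finset.sum_apply, Pi.smul_apply, smul_eq_mul]
  exact Finset.sum_congr rfl fun i _ => by ring

theorem lin_det_G3 (n : J → Fin N → ℝ) (τ : (Fin N → J) × (Fin N → Bool)) :
    |(lin_G3 n τ).det| = |dt n τ.1| := by
  rw [ContinuousLinearMap.det, lin_G3, LinearMap.coe_toContinuousLinearMap, LinearMap.det_toLin',
    Matrix.det_mul, Matrix.det_transpose, Matrix.det_diagonal, abs_mul, Finset.abs_prod]
  simp only [sg_abs, Finset.prod_const_one, mul_one, dt]

theorem lin_inj_G3 {n : J → Fin N → ℝ} {τ : (Fin N → J) × (Fin N → Bool)} (h : dt n τ.1 ≠ 0) :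
    Function.Injective (lin_G3 n τ) := by
  have h1 : (lin_G3 n τ).det ≠ 0 := by
    rw [← abs_ne_zero, lin_det_G3, abs_ne_zero]
    exact h
  exact (LinearMap.equivOfDetNeZero _ h1).injective

theorem ort_meas_G3 : MeasurableSet (ort_G3 N) :=
  MeasurableSet.univ_pi fun _ => measurableSet_Ioi

theorem ort_int_G3 : 1 ≤ ∫⁻ c in ort_G3 N, ENNReal.ofReal (Real.exp (-∑ i, c i)) := by
  have h1 : ∫ c in ort_G3 N, Real.exp (-∑ i, c i) = 1 := by
    simp only [← Finset.sum_neg_distrib, Real.exp_sum]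
    rw [ort_G3, volume_pi, Measure.restrict_pi_pi,
      integral_fintype_prod_eq_prod (fun (_ : Fin N) (x : ℝ) => Real.exp (-x))]
    simp only [integral_exp_neg_Ioi_zero, Finset.prod_const_one]
  have h2 := enorm_integral_le_lintegral_enorm (μ := volume.restrict (ort_G3 N))
    fun c : Fin N → ℝ => Real.exp (-∑ i, c i)
  rw [h1, enorm_one] at h2
  refine h2.trans_eq (lintegral_congr fun c => ?_)
  exact Real.enorm_eq_ofReal (Real.exp_pos _).le

theorem cone_G3 {n : J → Fin N → ℝ} {τ : (Fin N → J) × (Fin N → Bool)} (h : dt n τ.1 ≠ 0)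
    {u : (Fin N → ℝ) → ℝ} (hu : ∀ c : Fin N → ℝ, (∀ i, 0 < c i) →
      u (∑ i, (c i * sg (τ.2 i)) • n (τ.1 i)) ≤ ∑ i, c i) :
    ENNReal.ofReal |dt n τ.1| ≤ ∫⁻ y, (lin_G3 n τ '' ort_G3 N).indicator
      (fun y => ENNReal.ofReal (Real.exp (-u y))) y := by
  have hd : ∀ c ∈ ort_G3 N, HasFDerivWithinAt (lin_G3 n τ) (lin_G3 n τ) (ort_G3 N) c :=
    fun c _ => (lin_G3 n τ).hasFDerivWithinAt
  rw [lintegral_indicator (measurable_image_of_fderivWithin ort_meas_G3 hd (lin_inj_G3 h).injOn),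
    lintegral_image_eq_lintegral_abs_det_fderiv_mul volume ort_meas_G3 hd (lin_inj_G3 h).injOn,
    lin_det_G3, lintegral_const_mul' _ _ ENNReal.ofReal_ne_top]
  refine le_mul_of_one_le_right' (ort_int_G3.trans (setLIntegral_mono' ort_meas_G3 fun c hc => ?_))
  rw [lin_apply_G3]
  exact ENNReal.ofReal_le_ofReal
    (Real.exp_le_exp.2 (neg_le_neg (hu c fun i => hc i (mem_univ i))))

theorem sum_G3 {ι α : Type} [MeasurableSpace α] (μ : Measure α) (T : Finset ι)
    (f : ι → α → ℝ≥0∞) : ∑ τ ∈ T, ∫⁻ y, f τ y ∂μ ≤ ∫⁻ y, ∑ τ ∈ T, f τ y ∂μ := by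
  classical
  induction T using Finset.induction_on with
  | empty => simp
  | insert a T ha ih =>
    simp only [Finset.sum_insert ha]
    exact (add_le_add le_rfl ih).trans (le_lintegral_add _ _)

theorem dot_G3 (n : J → Fin N → ℝ) (τ : (Fin N → J) × (Fin N → Bool)) (c x : Fin N → ℝ) :
    lin_G3 n τ c ⬝ᵥ x = ∑ i, c i * (sg (τ.2 i) * (n (τ.1 i) ⬝ᵥ x)) := by
  rw [lin_apply_G3, sum_dotProduct]
  exact Finset.sum_congr rfl fun i _ => by rw [smul_dotProduct, smul_eq_mul, mul_assoc]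

theorem sg_le_G3 (e : Bool) (t : ℝ) : sg e * t ≤ |t| :=
  (le_abs_self _).trans_eq (by rw [abs_mul, sg_abs, one_mul])

theorem sg_eq_G3 {e e' : Bool} {t : ℝ} (ht : 0 < t) (h : sg e * (sg e' * t) = t) : e = e' := by
  cases e <;> cases e' <;> simp [sg] at h ⊢ <;> linarith

theorem perm_G3 {n : J → Fin N → ℝ} {b : J → ℝ} {τ σ : (Fin N → J) × (Fin N → Bool)}
    {x z : Fin N → ℝ} (hd : dt n τ.1 ≠ 0) (hb : ∀ i, 0 < b (τ.1 i))
    (hx : ∀ i, n (τ.1 i) ⬝ᵥ x = sg (τ.2 i) * b (τ.1 i))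
    (hz : ∀ i, n (σ.1 i) ⬝ᵥ z = sg (σ.2 i) * b (σ.1 i)) (hx' : ∀ j, |n j ⬝ᵥ x| ≤ b j)
    (hz' : ∀ j, |n j ⬝ᵥ z| ≤ b j) (hn : ∀ j, j ∉ range σ.1 → |n j ⬝ᵥ z| ≠ b j)
    {y : Fin N → ℝ} (h1 : y ∈ lin_G3 n τ '' ort_G3 N) (h2 : y ∈ lin_G3 n σ '' ort_G3 N) :
    ∃ e : Equiv.Perm (Fin N), (σ.1 ∘ e, σ.2 ∘ e) = τ := by
  obtain ⟨c, hc, e1⟩ := h1
  obtain ⟨d, hd', e2⟩ := h2
  have hc0 : ∀ i, 0 < c i := fun i => hc i (mem_univ i)
  have hd0 : ∀ i, 0 < d i := fun i => hd' i (mem_univ i)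
  have h3 : y ⬝ᵥ x ≤ y ⬝ᵥ z := by
    rw [← e2, dot_G3, dot_G3]
    refine Finset.sum_le_sum fun i _ => mul_le_mul_of_nonneg_left ?_ (hd0 i).le
    rw [hz, ← mul_assoc, sg_mul_self, one_mul]
    exact (sg_le_G3 _ _).trans (hx' _)
  have h4 : ∀ i ∈ Finset.univ, c i * (sg (τ.2 i) * (n (τ.1 i) ⬝ᵥ z)) ≤
      c i * (sg (τ.2 i) * (n (τ.1 i) ⬝ᵥ x)) := fun i _ => by
    refine mul_le_mul_of_nonneg_left ?_ (hc0 i).le
    rw [hx, ← mul_assoc, sg_mul_self, one_mul]
    exact (sg_le_G3 _ _).trans (hz' _)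
  rw [← e1, dot_G3, dot_G3] at h3
  have h5 : ∀ i, sg (τ.2 i) * (n (τ.1 i) ⬝ᵥ z) = b (τ.1 i) := fun i => by
    have h6 := (Finset.sum_eq_sum_iff_of_le h4).1 (le_antisymm (Finset.sum_le_sum h4) h3) i
      (Finset.mem_univ i)
    rw [mul_left_cancel₀ (hc0 i).ne' h6, hx, ← mul_assoc, sg_mul_self, one_mul]
  have h7 : ∀ i, ∃ l, σ.1 l = τ.1 i := fun i => by
    by_contra h8
    refine hn _ h8 ?_
    rw [← abs_of_pos (hb i), ← h5 i, abs_mul, sg_abs, one_mul]
  choose e he using h7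
  have hi : Function.Injective e := fun i l h => injective_of_dt hd (by rw [← he, ← he, h])
  refine ⟨Equiv.ofBijective e hi.bijective_of_finite, Prod.ext (funext he) (funext fun i => ?_)⟩
  have h9 := h5 i
  rw [← he i, hz, he i] at h9
  exact (sg_eq_G3 (hb i) h9).symm

theorem g3_stmt : G3Stmt := by
  intro N J _ n b T ξ hd hb h1 h2 h3 u hu
  classical
  refine (Finset.sum_le_sum fun τ hτ => cone_G3 (hd τ hτ) (hu τ hτ)).trans
    ((sum_G3 _ _ _).trans ?_)
  rw [← lintegral_const_mul' _ _ (ENNReal.natCast_ne_top _)]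
  refine lintegral_mono fun y => ?_
  have h4 : (T.filter fun τ => y ∈ lin_G3 n τ '' ort_G3 N).card ≤ N.factorial := by
    rcases (T.filter fun τ => y ∈ lin_G3 n τ '' ort_G3 N).eq_empty_or_nonempty with h | ⟨σ, hσ⟩
    · rw [h]
      exact Nat.zero_le _
    obtain ⟨hσ, hy⟩ := Finset.mem_filter.1 hσ
    have h5 : (T.filter fun τ => y ∈ lin_G3 n τ '' ort_G3 N) ⊆
        Finset.univ.image fun e : Equiv.Perm (Fin N) => (σ.1 ∘ e, σ.2 ∘ e) := by
      intro τ hτ
      obtain ⟨hτ, hy'⟩ := Finset.mem_filter.1 hτ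
      obtain ⟨e, he⟩ := perm_G3 (hd τ hτ) (hb τ hτ) (h1 τ hτ) (h1 σ hσ) (h2 τ hτ) (h2 σ hσ)
        (h3 σ hσ) hy' hy
      exact Finset.mem_image.2 ⟨e, Finset.mem_univ e, he⟩
    refine (Finset.card_le_card h5).trans (Finset.card_image_le.trans_eq ?_)
    rw [Finset.card_univ, Fintype.card_perm, Fintype.card_fin]
  simp only [indicator_apply]
  rw [← Finset.sum_filter, Finset.sum_const, nsmul_eq_mul]
  exact mul_le_mul_left (Nat.cast_le.2 h4) _

end Pool.Agent.MP_5f4cdd_gt.LJ

end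

section

set_option autoImplicit false
open Set MeasureTheory Metric Filter Topology
open scoped ENNReal Real Matrix

namespace Pool.Agent.MP_5f4cdd_gt.LJ

theorem pos_G5 {f : ℝ → ℝ} (hc : ConcaveOn ℝ (Icc (-1) 1) f) (h0 : 0 < f 0)
    (hn : ∀ p ∈ Icc (-1 : ℝ) 1, 0 ≤ f p) {p : ℝ} (hp : |p| < 1) : 0 < f p := by
  have hab := abs_lt.1 hp
  rcases le_total 0 p with h | h
  · have := hc.2 (show (0 : ℝ) ∈ Icc (-1 : ℝ) 1 by norm_num) (show (1 : ℝ) ∈ Icc (-1 : ℝ) 1 by norm_num)
      (show 0 ≤ 1 - p by linarith) h (by ring)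
    simp only [smul_eq_mul, mul_zero, mul_one, zero_add] at this
    have h1 := hn 1 ⟨by norm_num, by norm_num⟩
    have h2 : 0 < (1 - p) * f 0 := mul_pos (by linarith) h0
    have h3 : 0 ≤ p * f 1 := mul_nonneg h h1
    linarith
  · have := hc.2 (show (0 : ℝ) ∈ Icc (-1 : ℝ) 1 by norm_num) (show (-1 : ℝ) ∈ Icc (-1 : ℝ) 1 by norm_num)
      (show 0 ≤ 1 + p by linarith) (show 0 ≤ -p by linarith) (by ring)
    simp only [smul_eq_mul, mul_zero, mul_neg, mul_one, neg_neg, zero_add] at this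
    have h1 := hn (-1) ⟨by norm_num, by norm_num⟩
    have h2 : 0 < (1 + p) * f 0 := mul_pos (by linarith) h0
    have h3 : 0 ≤ -p * f (-1) := mul_nonneg (by linarith) h1
    linarith

theorem cont_dot_G5 {N : ℕ} (v : Fin N → ℝ) : Continuous fun x : Fin N → ℝ => v ⬝ᵥ x := by
  unfold dotProduct; fun_prop

theorem cont_vtx_G5 {N : ℕ} {J : Type} (n : J → Fin N → ℝ) {f : ℝ → ℝ} (hf : Continuous f)
    (s : Fin N → J) (e : Fin N → Bool) : Continuous (vtx n f s e) :=
  (continuous_solr n s).comp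
    (continuous_pi fun i => continuous_const.mul (hf.comp (cont_dot_G5 (n (s i)))))

theorem meas_K_G5 {N : ℕ} {J : Type} [Fintype J] (n : J → Fin N → ℝ) :
    MeasurableSet {x : Fin N → ℝ | ∀ j, |n j ⬝ᵥ x| ≤ 1} := by
  have : {x : Fin N → ℝ | ∀ j, |n j ⬝ᵥ x| ≤ 1} = ⋂ j, {x | |n j ⬝ᵥ x| ≤ 1} := by
    ext x; simp
  rw [this]
  exact MeasurableSet.iInter fun j =>
    (isClosed_le (cont_dot_G5 (n j)).abs continuous_const).measurableSet

theorem meas_good_G5 {N : ℕ} {J : Type} [Fintype J] (n : J → Fin N → ℝ) {f : ℝ → ℝ}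
    (hf : Continuous f) (s : Fin N → J) (e : Fin N → Bool) : MeasurableSet (good n f s e) := by
  have : good n f s e = (⋂ i, {x | |n (s i) ⬝ᵥ x| < 1}) ∩ ({x | ∀ j, |n j ⬝ᵥ x| ≤ 1} ∩
      ⋂ j, {x | |n j ⬝ᵥ vtx n f s e x| ≤ f (n j ⬝ᵥ x)}) := by
    ext x; simp [good]
  rw [this]
  refine (MeasurableSet.iInter fun i => ?_).inter ((meas_K_G5 n).inter
    (MeasurableSet.iInter fun j => ?_))
  · exact (isOpen_lt (cont_dot_G5 (n (s i))).abs continuous_const).measurableSet
  · exact (isClosed_le ((cont_dot_G5 (n j)).comp (cont_vtx_G5 n hf s e)).abs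
      (hf.comp (cont_dot_G5 (n j)))).measurableSet

theorem point_G5 (hG : GrossStmt) (h3 : G3Stmt) {N : ℕ} {J : Type} [Fintype J] [DecidableEq J]
    (n : J → Fin N → ℝ) (u : (Fin N → ℝ) → ℝ)
    (hu : ∀ (s : Fin N → J) (e : Fin N → Bool) (c : Fin N → ℝ), (∀ i, 0 < c i) →
      u (∑ i, (c i * sg (e i)) • n (s i)) ≤ ∑ i, c i) (x : Fin N → ℝ) (hx : NoTie n f0 x) :
    ∑ τ ∈ (Finset.univ.filter (fun s : Fin N → J => dt n s ≠ 0)) ×ˢ
        (Finset.univ : Finset (Fin N → Bool)),
      (good n f0 τ.1 τ.2).indicator (fun _ => ENNReal.ofReal |dt n τ.1|) x ≤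
    {x : Fin N → ℝ | ∀ j, |n j ⬝ᵥ x| ≤ 1}.indicator
      (fun _ => N.factorial * ∫⁻ y : Fin N → ℝ, ENNReal.ofReal (Real.exp (-u y))) x := by
  classical
  by_cases hK : x ∈ {x : Fin N → ℝ | ∀ j, |n j ⬝ᵥ x| ≤ 1}
  · rw [indicator_of_mem hK]
    simp only [indicator_apply]
    rw [← Finset.sum_filter]
    refine h3 N J n (fun j => f0 (n j ⬝ᵥ x)) _ (fun τ => vtx n f0 τ.1 τ.2 x) ?_ ?_ ?_ ?_ ?_ u ?_
    · intro τ hτ
      simp only [Finset.mem_filter, Finset.mem_product, Finset.mem_univ, true_and, and_true] at hτ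
      exact hτ.1
    · intro τ hτ i
      simp only [Finset.mem_filter, Finset.mem_product, Finset.mem_univ, true_and, and_true] at hτ
      exact pos_G5 hG.conc hG.pos hG.nonneg (hτ.2.1 i)
    · intro τ hτ i
      simp only [Finset.mem_filter, Finset.mem_product, Finset.mem_univ, true_and, and_true] at hτ
      exact dot_solr hτ.1 _ i
    · intro τ hτ j
      simp only [Finset.mem_filter, Finset.mem_product, Finset.mem_univ, true_and, and_true] at hτ
      exact hτ.2.2.2 j
    · intro τ hτ j hj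
      simp only [Finset.mem_filter, Finset.mem_product, Finset.mem_univ, true_and, and_true] at hτ
      exact hx τ.1 τ.2 j hτ.1 hj (hK j)
    · intro τ _ c hc
      exact hu τ.1 τ.2 c hc
  · rw [indicator_of_notMem hK]
    refine le_of_eq (Finset.sum_eq_zero fun τ _ => indicator_of_notMem (fun h => hK h.2.1) _)

theorem g5_stmt (hL : LJStmt) (hG : GrossStmt) (h1 : G1Stmt) (h3 : G3Stmt) : G5Stmt := by
  intro N J _ _ n s0 hs0 hT u hu
  set I := ∫⁻ y : Fin N → ℝ, ENNReal.ofReal (Real.exp (-u y)) with hI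
  set K := {x : Fin N → ℝ | ∀ j, |n j ⬝ᵥ x| ≤ 1} with hK
  set F := Finset.univ.filter (fun s : Fin N → J => dt n s ≠ 0) with hF
  have hA := hL N J (fun _ => psi0) (fun _ => hG.adm) n s0 hs0
  have hB : ∑ s ∈ F, volume (feas (fun _ : J => psi0) n s) ≤
      ENNReal.ofReal ((π / 2) ^ N) * ∑ τ ∈ F ×ˢ (Finset.univ : Finset (Fin N → Bool)),
        ENNReal.ofReal |dt n τ.1| * volume (good n f0 τ.1 τ.2) := by
    rw [Finset.sum_product, Finset.mul_sum]
    refine Finset.sum_le_sum fun s hs => ?_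
    refine (h1 N J psi0 f0 hG n s (Finset.mem_filter.1 hs).2).trans (le_of_eq ?_)
    rw [Finset.mul_sum]
    refine Finset.sum_congr rfl fun e _ => ?_
    rw [ENNReal.ofReal_mul (by positivity), mul_assoc]
  have hC : ∑ τ ∈ F ×ˢ (Finset.univ : Finset (Fin N → Bool)),
        ENNReal.ofReal |dt n τ.1| * volume (good n f0 τ.1 τ.2) ≤ N.factorial * I * volume K := by
    calc _ = ∑ τ ∈ F ×ˢ (Finset.univ : Finset (Fin N → Bool)), ∫⁻ x,
          (good n f0 τ.1 τ.2).indicator (fun _ => ENNReal.ofReal |dt n τ.1|) x := by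
          refine Finset.sum_congr rfl fun τ _ => ?_
          rw [lintegral_indicator_const (meas_good_G5 n hG.cont τ.1 τ.2)]
      _ = ∫⁻ x, ∑ τ ∈ F ×ˢ (Finset.univ : Finset (Fin N → Bool)),
          (good n f0 τ.1 τ.2).indicator (fun _ => ENNReal.ofReal |dt n τ.1|) x := by
          rw [lintegral_finsetSum]
          intro τ _
          exact measurable_const.indicator (meas_good_G5 n hG.cont τ.1 τ.2)
      _ ≤ ∫⁻ x, K.indicator (fun _ => N.factorial * I) x := by
          refine lintegral_mono_ae ?_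
          filter_upwards [hT] with x hx
          exact point_G5 hG h3 n u hu x hx
      _ = _ := lintegral_indicator_const (meas_K_G5 n) _
  have hD : ENNReal.ofReal (N.factorial * (2 * π) ^ N) =
      ENNReal.ofReal ((π / 2) ^ N) * (N.factorial * (4 : ℝ≥0∞) ^ N) := by
    have : (N.factorial * (2 * π) ^ N : ℝ) = (π / 2) ^ N * (N.factorial * 4 ^ N) := by
      have : (2 * π : ℝ) = π / 2 * 4 := by ring
      rw [this, mul_pow]; ring
    rw [this, ENNReal.ofReal_mul (by positivity), ENNReal.ofReal_mul (by positivity),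
      ENNReal.ofReal_natCast, ENNReal.ofReal_pow (p := 4) (by norm_num), ENNReal.ofReal_ofNat]
  have hE : ENNReal.ofReal ((π / 2) ^ N) * (N.factorial * (4 : ℝ≥0∞) ^ N) ≤
      ENNReal.ofReal ((π / 2) ^ N) * (N.factorial * (volume K * I)) := by
    rw [← hD]
    refine (hA.trans hB).trans ?_
    gcongr
    refine hC.trans (le_of_eq ?_)
    ring
  have h0 : ENNReal.ofReal ((π / 2) ^ N) ≠ 0 :=
    (ENNReal.ofReal_pos.2 (by positivity)).ne'
  have hF1 := (ENNReal.mul_le_mul_iff_right h0 ENNReal.ofReal_ne_top).1 hE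
  have hn0 : (N.factorial : ℝ≥0∞) ≠ 0 := by exact_mod_cast N.factorial_ne_zero
  exact (ENNReal.mul_le_mul_iff_right hn0 (ENNReal.natCast_ne_top _)).1 hF1

end Pool.Agent.MP_5f4cdd_gt.LJ

end
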