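import Pool.Agent.Mg.F5f4cddb.G521828
import Pool.Agent.Mg.F5f4cddb.G712264

set_option linter.all false

set_option autoImplicit false
open Set MeasureTheory Metric Filter Topology
open scoped ENNReal Real Matrix

namespace Pool.Agent.MP_5f4cdd_gt.LJ

theorem wgt_pos_H5B {l : ℝ} (hl : l ∈ Ioo (0 : ℝ) 1) (e : Bool) : 0 < wgt l e := by
  cases e
  · simp only [wgt]; simpa using hl.2
  · simpa [wgt] using hl.1

theorem meas_good_H5B {N : ℕ} {J : Type} [Fintype J] (n : J → Fin N → ℝ) {F : J → Bool → ℝ → ℝ}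
    (hf : ∀ j b, Continuous (F j b)) (s : Fin N → J) (e : Fin N → Bool) :
    MeasurableSet (good2 n F s e) := by
  have hv : Continuous (vtx2 n F s e) := (continuous_solr n s).comp
    (continuous_pi fun i => continuous_const.mul ((hf _ _).comp (cont_dot_G5 (n (s i)))))
  have : good2 n F s e = (⋂ i, {x | |n (s i) ⬝ᵥ x| < 1}) ∩ ({x | ∀ j, |n j ⬝ᵥ x| ≤ 1} ∩
      ⋂ j, ⋂ b, {x | sg b * (n j ⬝ᵥ vtx2 n F s e x) ≤ F j b (n j ⬝ᵥ x)}) := by
    ext x; simp [good2]
  rw [this]
  refine (MeasurableSet.iInter fun i => ?_).inter ((meas_K_G5 n).inter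
    (MeasurableSet.iInter fun j => MeasurableSet.iInter fun b => ?_))
  · exact (isOpen_lt (cont_dot_G5 (n (s i))).abs continuous_const).measurableSet
  · exact (isClosed_le (continuous_const.mul ((cont_dot_G5 (n j)).comp hv))
      ((hf _ _).comp (cont_dot_G5 (n j)))).measurableSet

theorem dt_H5B {N : ℕ} {J : Type} (n : J → Fin N → ℝ) {l : J → ℝ} (hl : ∀ j, l j ∈ Ioo (0 : ℝ) 1)
    (τ : Fin N → J × Bool) :
    |dt (fun q : J × Bool => (sg q.2 * wgt (l q.1) q.2) • n q.1) τ| =
      (∏ i, wgt (l (τ i).1) (τ i).2) * |dt n fun i => (τ i).1| := by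
  have : mat (fun q : J × Bool => (sg q.2 * wgt (l q.1) q.2) • n q.1) τ =
      Matrix.of fun i a => (sg (τ i).2 * wgt (l (τ i).1) (τ i).2) * mat n (fun i => (τ i).1) i a := by
    ext i a; simp [mat]
  rw [dt, this, Matrix.det_mul_column, abs_mul, Finset.abs_prod]
  congr 1
  refine Finset.prod_congr rfl fun i _ => ?_
  rw [abs_mul, sg_abs, one_mul, abs_of_pos (wgt_pos_H5B (hl _) _)]

theorem point_H5B (hG : LensStmt) (h3 : H3Stmt) {N : ℕ} {J : Type} [Fintype J] [DecidableEq J]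
    (n : J → Fin N → ℝ) {l : J → ℝ} (hl : ∀ j, l j ∈ Ioo (0 : ℝ) 1) (u : (Fin N → ℝ) → ℝ)
    (hu : ∀ (s : Fin N → J) (e : Fin N → Bool) (c : Fin N → ℝ), (∀ i, 0 < c i) →
      u (∑ i, c i • ((sg (e i) * wgt (l (s i)) (e i)) • n (s i))) ≤ ∑ i, c i) (x : Fin N → ℝ)
    (hx : NoTie2 n (fun j => fL (l j)) x) :
    ∑ τ ∈ Finset.univ.filter (fun τ : Fin N → J × Bool => dt n (fun i => (τ i).1) ≠ 0),
      (good2 n (fun j => fL (l j)) (fun i => (τ i).1) fun i => (τ i).2).indicator
        (fun _ => ENNReal.ofReal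
          ((∏ i, wgt (l (τ i).1) (τ i).2) * |dt n fun i => (τ i).1|)) x ≤
    {x : Fin N → ℝ | ∀ j, |n j ⬝ᵥ x| ≤ 1}.indicator
      (fun _ => N.factorial * ∫⁻ y : Fin N → ℝ, ENNReal.ofReal (Real.exp (-u y))) x := by
  classical
  by_cases hK : x ∈ {x : Fin N → ℝ | ∀ j, |n j ⬝ᵥ x| ≤ 1}
  · rw [indicator_of_mem hK]
    simp only [indicator_apply]
    rw [← Finset.sum_filter]
    simp only [← dt_H5B n hl]
    refine h3 N (J × Bool) (fun q => (sg q.2 * wgt (l q.1) q.2) • n q.1)
      (fun q => wgt (l q.1) q.2 * fL (l q.1) q.2 (n q.1 ⬝ᵥ x)) _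
      (fun τ => vtx2 n (fun j => fL (l j)) (fun i => (τ i).1) (fun i => (τ i).2) x)
      ?_ ?_ ?_ ?_ u ?_
    · intro τ hτ
      simp only [Finset.mem_filter, Finset.mem_univ, true_and] at hτ
      rw [← abs_pos, dt_H5B n hl]
      exact mul_pos (Finset.prod_pos fun i _ => wgt_pos_H5B (hl _) _) (abs_pos.2 hτ.1)
    · intro τ hτ i
      simp only [Finset.mem_filter, Finset.mem_univ, true_and] at hτ
      have := dot_solr hτ.1
        (fun i => sg (τ i).2 * fL (l (τ i).1) (τ i).2 (n (τ i).1 ⬝ᵥ x)) i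
      simp only [smul_dotProduct, smul_eq_mul, vtx2, this]
      linear_combination (wgt (l (τ i).1) (τ i).2 * fL (l (τ i).1) (τ i).2 (n (τ i).1 ⬝ᵥ x)) *
        sg_mul_self (τ i).2
    · intro τ hτ q
      simp only [Finset.mem_filter, Finset.mem_univ, true_and] at hτ
      have := mul_le_mul_of_nonneg_left (hτ.2.2.2 q.1 q.2) (wgt_pos_H5B (hl q.1) q.2).le
      simp only [smul_dotProduct, smul_eq_mul]
      linarith
    · intro τ hτ q hq heq
      simp only [Finset.mem_filter, Finset.mem_univ, true_and] at hτ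
      simp only [smul_dotProduct, smul_eq_mul] at heq
      have h1 : sg q.2 * (n q.1 ⬝ᵥ vtx2 n (fun j => fL (l j)) (fun i => (τ i).1)
          (fun i => (τ i).2) x) = fL (l q.1) q.2 (n q.1 ⬝ᵥ x) :=
        mul_left_cancel₀ (wgt_pos_H5B (hl q.1) q.2).ne' (by linarith)
      by_cases hj : q.1 ∈ range fun i => (τ i).1
      · obtain ⟨i, hi⟩ := hj
        have hi' : (τ i).1 = q.1 := hi
        have hne : (τ i).2 ≠ q.2 := fun h => hq ⟨i, Prod.ext hi' h⟩
        have h2 := dot_solr hτ.1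
          (fun i => sg (τ i).2 * fL (l (τ i).1) (τ i).2 (n (τ i).1 ⬝ᵥ x)) i
        have h4 : |n (τ i).1 ⬝ᵥ x| < 1 := hτ.2.1 i
        rw [hi'] at h4
        have h3 := (hG _ (hl q.1)).gap _ h4
        simp only [hi'] at h2
        simp only [vtx2] at h1
        rw [h2] at h1
        revert h1 hne
        cases (τ i).2 <;> cases q.2 <;> simp [sg] <;> intro h <;> linarith
      · exact hx _ _ q.1 q.2 hτ.1 hj (hK q.1) h1
    · intro τ _ c hc
      exact hu (fun i => (τ i).1) (fun i => (τ i).2) c hc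
  · rw [indicator_of_notMem hK]
    refine le_of_eq (Finset.sum_eq_zero fun τ _ => indicator_of_notMem (fun h => hK h.2.1) _)

theorem h5_stmtB (hL : LJStmt) (hG : LensStmt) (h1 : H1Stmt) (h3 : H3Stmt) : H5Stmt := by
  intro N J _ _ n l s0 hl hs0 hT u hu
  set I := ∫⁻ y : Fin N → ℝ, ENNReal.ofReal (Real.exp (-u y)) with hI
  set K := {x : Fin N → ℝ | ∀ j, |n j ⬝ᵥ x| ≤ 1} with hK
  set F := Finset.univ.filter (fun s : Fin N → J => dt n s ≠ 0) with hF
  set T := Finset.univ.filter (fun τ : Fin N → J × Bool => dt n (fun i => (τ i).1) ≠ 0) with hT'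
  have hc : ∀ j b, Continuous (fL (l j) b) := fun j b => (hG _ (hl j)).cont b
  have hA := hL N J (fun j => psiL (l j)) (fun j => (hG _ (hl j)).adm) n s0 hs0
  have hB : ∑ s ∈ F, volume (feas (fun j => psiL (l j)) n s) ≤
      ENNReal.ofReal (π ^ N) * ∑ τ ∈ T,
        ENNReal.ofReal ((∏ i, wgt (l (τ i).1) (τ i).2) * |dt n fun i => (τ i).1|) *
          volume (good2 n (fun j => fL (l j)) (fun i => (τ i).1) fun i => (τ i).2) := by
    have e1 : ∑ τ ∈ T,
        ENNReal.ofReal ((∏ i, wgt (l (τ i).1) (τ i).2) * |dt n fun i => (τ i).1|) *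
          volume (good2 n (fun j => fL (l j)) (fun i => (τ i).1) fun i => (τ i).2) =
        ∑ q ∈ F ×ˢ (Finset.univ : Finset (Fin N → Bool)),
          ENNReal.ofReal ((∏ i, wgt (l (q.1 i)) (q.2 i)) * |dt n q.1|) *
            volume (good2 n (fun j => fL (l j)) q.1 q.2) := by
      refine Finset.sum_bij' (fun τ _ => (fun i => (τ i).1, fun i => (τ i).2))
        (fun q _ => fun i => (q.1 i, q.2 i)) ?_ ?_ ?_ ?_ ?_
      · intro τ hτ; simpa [hF, hT'] using hτ
      · intro q hq; simpa [hF, hT'] using hq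
      · intro τ _; rfl
      · intro q _; rfl
      · intro τ _; rfl
    rw [e1, Finset.sum_product, Finset.mul_sum]
    refine Finset.sum_le_sum fun s hs => ?_
    refine (h1 N J (fun j => psiL (l j)) l (fun j => fL (l j)) hl (fun j => hG _ (hl j)) n s
      (Finset.mem_filter.1 hs).2).trans (le_of_eq ?_)
    rw [Finset.mul_sum]
    refine Finset.sum_congr rfl fun e _ => ?_
    rw [mul_assoc (π ^ N), ENNReal.ofReal_mul (by positivity), mul_assoc]
  have hC : ∑ τ ∈ T,
        ENNReal.ofReal ((∏ i, wgt (l (τ i).1) (τ i).2) * |dt n fun i => (τ i).1|) *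
          volume (good2 n (fun j => fL (l j)) (fun i => (τ i).1) fun i => (τ i).2) ≤
        N.factorial * I * volume K := by
    calc _ = ∑ τ ∈ T, ∫⁻ x,
          (good2 n (fun j => fL (l j)) (fun i => (τ i).1) fun i => (τ i).2).indicator
            (fun _ => ENNReal.ofReal
              ((∏ i, wgt (l (τ i).1) (τ i).2) * |dt n fun i => (τ i).1|)) x := by
          refine Finset.sum_congr rfl fun τ _ => ?_
          rw [lintegral_indicator_const (meas_good_H5B n hc _ _)]
      _ = ∫⁻ x, ∑ τ ∈ T,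
          (good2 n (fun j => fL (l j)) (fun i => (τ i).1) fun i => (τ i).2).indicator
            (fun _ => ENNReal.ofReal
              ((∏ i, wgt (l (τ i).1) (τ i).2) * |dt n fun i => (τ i).1|)) x := by
          rw [lintegral_finsetSum]
          intro τ _
          exact measurable_const.indicator (meas_good_H5B n hc _ _)
      _ ≤ ∫⁻ x, K.indicator (fun _ => N.factorial * I) x := by
          refine lintegral_mono_ae ?_
          filter_upwards [hT] with x hx
          exact point_H5B hG h3 n hl u hu x hx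
      _ = _ := lintegral_indicator_const (meas_K_G5 n) _
  have hD : ENNReal.ofReal (N.factorial * (2 * π) ^ N) =
      ENNReal.ofReal (π ^ N) * (N.factorial * (2 : ℝ≥0∞) ^ N) := by
    have : (N.factorial * (2 * π) ^ N : ℝ) = π ^ N * (N.factorial * 2 ^ N) := by
      rw [mul_pow]; ring
    rw [this, ENNReal.ofReal_mul (by positivity), ENNReal.ofReal_mul (by positivity),
      ENNReal.ofReal_natCast, ENNReal.ofReal_pow (p := 2) (by norm_num), ENNReal.ofReal_ofNat]
  have hE : ENNReal.ofReal (π ^ N) * (N.factorial * (2 : ℝ≥0∞) ^ N) ≤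
      ENNReal.ofReal (π ^ N) * (N.factorial * (volume K * I)) := by
    rw [← hD]
    refine (hA.trans hB).trans ?_
    gcongr
    refine hC.trans (le_of_eq ?_)
    ring
  have h0 : ENNReal.ofReal (π ^ N) ≠ 0 := (ENNReal.ofReal_pos.2 (by positivity)).ne'
  have hF1 := (ENNReal.mul_le_mul_iff_right h0 ENNReal.ofReal_ne_top).1 hE
  have hn0 : (N.factorial : ℝ≥0∞) ≠ 0 := by exact_mod_cast N.factorial_ne_zero
  exact (ENNReal.mul_le_mul_iff_right hn0 (ENNReal.natCast_ne_top _)).1 hF1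

end Pool.Agent.MP_5f4cdd_gt.LJ
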