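import Pool.Agent.Mg.F5f4cddb.Gd49dc4
import Pool.Agent.Mg.F5f4cddb.G521828
import Pool.Agent.Mg.F5f4cddb.G712264
import Pool.Agent.Mg.F5f4cddb.G72034f

set_option linter.all false

section

set_option autoImplicit false
open Set MeasureTheory Metric Filter Topology
open scoped ENNReal Real Matrix

namespace Pool.Agent.MP_5f4cdd_gt.LJ

theorem integrable_Ibp {N : ℕ} {O C : Set (Fin N → ℂ)} (hO : IsOpen O) (hC : IsCompact C)
    (hCO : C ⊆ O) {Y : (Fin N → ℂ) → ℝ} (hY : ContinuousOn Y O)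
    (h0 : ∀ z ∈ O, z ∉ C → Y z = 0) : IntegrableOn Y O :=
  ((hY.mono hCO).integrableOn_compact hC).of_forall_sdiff_eq_zero hO.measurableSet
    fun z hz => h0 z hz.1 hz.2

theorem cont0_Ibp {N : ℕ} {J : Type} {n : J → Fin N → ℝ} {D : J → Set ℂ} {f : J → ℂ → ℂ}
    (hh : ∀ j, DifferentiableOn ℂ (f j) (D j)) (j : J) :
    ContinuousOn (fun z => f j (dotc (n j) z)) (Om D n) :=
  (hh j).continuousOn.comp (continuous_dotc (n j)).continuousOn fun _ hz => hz j

theorem sq_Ibp (u v : ℂ) :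
    ((starRingEnd ℂ) u * v * 1).re ^ 2 + ((starRingEnd ℂ) u * v * Complex.I).re ^ 2 ≤
      Complex.normSq v * Complex.normSq u := by
  simp only [Complex.normSq_apply, Complex.mul_re, Complex.mul_im, Complex.conj_re,
    Complex.conj_im, Complex.one_re, Complex.one_im, Complex.I_re, Complex.I_im]
  exact le_of_eq (by ring)

theorem ibp_stmt (hA : AlgStmt) (h1 : Ibp1Stmt) : IbpStmt := by
  intro N J _ _ n D h C c g g' hD hh hC hCO hWC hg hg' hg0 h0
  have hO := isOpen_Om hD n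
  have hgc : Continuous g := continuous_iff_continuousAt.2 fun t => (hg t).continuousAt
  have h0' : ∀ t, c < t → g' t = 0 := fun t ht => by
    have e : g =ᶠ[𝓝 t] fun _ => 0 :=
      (Ioi_mem_nhds ht : Ioi c ∈ 𝓝 t) |> fun hm => Filter.eventually_of_mem hm fun u hu =>
        h0 u (le_of_lt hu)
    exact (hg t).unique ((hasDerivAt_const t (0 : ℝ)).congr_of_eventuallyEq e)
  have hd : ∀ j, DifferentiableOn ℂ (deriv (h j)) (D j) := fun j => (hh j).deriv (hD j)
  have c0 := fun j => cont0_Ibp (n := n) hh j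
  have c1 := fun j => cont0_Ibp (n := n) (f := fun j => deriv (h j)) hd j
  have cW : ContinuousOn (Wf h n) (Om D n) :=
    continuousOn_finsetSum _ fun j _ => Complex.continuous_normSq.comp_continuousOn (c0 j)
  have cA : ∀ j, ContinuousOn (af h n j) (Om D n) := fun j =>
    Complex.continuous_normSq.comp_continuousOn (c1 j)
  have cB : ∀ η j, ContinuousOn (bf h n η j) (Om D n) := fun η j =>
    Complex.continuous_re.comp_continuousOn
      (((Complex.continuous_conj.comp_continuousOn (c0 j)).mul (c1 j)).mul continuousOn_const)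
  have cH : ContinuousOn (Hf h n) (Om D n) :=
    continuousOn_finsetSum _ fun s _ =>
      (continuousOn_finsetProd _ fun i _ => cA (s i)).mul continuousOn_const
  have cg : ContinuousOn (fun z => g (Wf h n z)) (Om D n) := hgc.comp_continuousOn cW
  have cg' : ContinuousOn (fun z => g' (Wf h n z)) (Om D n) := hg'.comp_continuousOn cW
  have out : ∀ z ∈ Om D n, z ∉ C → g (Wf h n z) = 0 ∧ g' (Wf h n z) = 0 := fun z hz hzC => by
    have : c < Wf h n z := lt_of_not_ge fun hle => hzC (hWC z hz hle)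
    exact ⟨h0 _ this.le, h0' _ this⟩
  obtain ⟨Y, hY⟩ : ∃ Y : (Fin N → J) → Fin N → (Fin N → ℂ) → ℝ, ∀ s i z, Y s i z =
      g' (Wf h n z) * ((∏ l ∈ Finset.univ.erase i, af h n (s l) z) * dt n s *
        (bf h n 1 (s i) z * ∑ j, bf h n 1 j z * dt n (Function.update s i j) +
          bf h n Complex.I (s i) z * ∑ j, bf h n Complex.I j z * dt n (Function.update s i j))) +
      g (Wf h n z) * ((∏ l, af h n (s l) z) * dt n s ^ 2) := ⟨_, fun _ _ _ => rfl⟩
  have iY : ∀ s i, IntegrableOn (Y s i) (Om D n) := fun s i => by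
    refine integrable_Ibp hO hC hCO ?_ fun z hz hzC => ?_
    · rw [show Y s i = _ from funext (hY s i)]
      exact (cg'.mul (((continuousOn_finsetProd _ fun l _ => cA (s l)).mul
        continuousOn_const).mul (((cB _ _).mul (continuousOn_finsetSum _ fun j _ =>
          (cB _ j).mul continuousOn_const)).add ((cB _ _).mul (continuousOn_finsetSum _ fun j _ =>
          (cB _ j).mul continuousOn_const))))).add
        (cg.mul ((continuousOn_finsetProd _ fun l _ => cA (s l)).mul continuousOn_const))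
    · rw [hY, (out z hz hzC).1, (out z hz hzC).2, zero_mul, zero_mul, add_zero]
  have zY : ∀ s i, ∫ z in Om D n, Y s i z = 0 := fun s i => by
    rw [show Y s i = _ from funext (hY s i)]
    exact h1 N J n D h C c g g' hD hh hC hCO hWC hg hg' h0 s i
  have iS : IntegrableOn (fun z => ∑ s, ∑ i, Y s i z) (Om D n) :=
    integrable_finsetSum _ fun s _ => integrable_finsetSum _ fun i _ => iY s i
  have zS : ∫ z in Om D n, ∑ s, ∑ i, Y s i z = 0 := by
    rw [integral_finsetSum _ fun s _ => integrable_finsetSum _ fun i _ => iY s i]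
    refine Finset.sum_eq_zero fun s _ => ?_
    rw [integral_finsetSum _ fun i _ => iY s i]
    exact Finset.sum_eq_zero fun i _ => zY s i
  rw [← zS]
  refine setIntegral_mono_on (integrable_Ibp hO hC hCO
    ((((continuousOn_const.mul cg).add (cW.mul cg')).mul cH)) fun z hz hzC => ?_) iS
    hO.measurableSet fun z _ => ?_
  · rw [(out z hz hzC).1, (out z hz hzC).2, mul_zero, mul_zero, add_zero, zero_mul]
  · have k := hA N J n (fun j => af h n j z) (fun j => Complex.normSq (h j (dotc (n j) z)))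
      (fun j => bf h n 1 j z) (fun j => bf h n Complex.I j z)
      (fun j => Complex.normSq_nonneg _) (fun j => Complex.normSq_nonneg _) fun j => sq_Ibp _ _
    have k2 := mul_le_mul_of_nonpos_left k (hg0 (Wf h n z))
    simp only [hY, Finset.sum_add_distrib, ← Finset.mul_sum, Finset.sum_const, Finset.card_univ,
      Fintype.card_fin, nsmul_eq_mul]
    have e : (N * g (Wf h n z) + Wf h n z * g' (Wf h n z)) * Hf h n z =
        g' (Wf h n z) * (Wf h n z * Hf h n z) + N * (g (Wf h n z) * Hf h n z) := by ring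
    rw [e]
    refine add_le_add k2 (le_of_eq ?_)
    rw [Hf, Finset.mul_sum, Finset.mul_sum, Finset.mul_sum]
    exact Finset.sum_congr rfl fun s _ => by ring

end Pool.Agent.MP_5f4cdd_gt.LJ

end

section

set_option autoImplicit false
open Set MeasureTheory Metric Filter Topology
open scoped ENNReal Real Matrix

namespace Pool.Agent.MP_5f4cdd_gt.LJ

theorem cos_Psi2 {x : ℝ} (hx : x ∈ Icc (0 : ℝ) 1) :
    HasSum (fun n : ℕ => 1 / (n : ℝ) ^ 2 * Real.cos (2 * π * n * x))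
      (π ^ 2 * (x ^ 2 - x + 1 / 6)) := by
  have h := hasSum_one_div_nat_pow_mul_cos one_ne_zero hx
  have e : (Polynomial.map (algebraMap ℚ ℝ) (Polynomial.bernoulli (2 * 1))).eval x =
      x ^ 2 - x + 6⁻¹ := bernoulliFun_two x
  have e' : π ^ 2 * (x ^ 2 - x + 1 / 6) = (-1 : ℝ) ^ (1 + 1) * (2 * π) ^ (2 * 1) / 2 /
      (2 * 1 : ℕ).factorial * (x ^ 2 - x + 6⁻¹) := by
    simp only [mul_one, Nat.factorial]
    push_cast
    ring
  rw [e] at h
  rw [e']
  exact h

theorem odd_Psi2 {θ : ℝ} (hθ : θ ∈ Icc (0 : ℝ) π) :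
    HasSum (fun m : ℕ => Real.cos ((2 * m + 1 : ℕ) * θ) / ((2 * m + 1 : ℕ) : ℝ) ^ 2)
      (π ^ 2 / 8 * (1 - 2 * θ / π)) := by
  have hπ := Real.pi_pos
  have h1 := cos_Psi2 (x := θ / (2 * π))
    ⟨div_nonneg hθ.1 (by positivity), (div_le_one (by positivity)).2 (by linarith [hθ.2])⟩
  have h2 := (cos_Psi2 (x := θ / π) ⟨div_nonneg hθ.1 hπ.le, (div_le_one hπ).2 hθ.2⟩).mul_left
    (1 / 4)
  have e1 : (fun n : ℕ => 1 / (n : ℝ) ^ 2 * Real.cos (2 * π * n * (θ / (2 * π)))) =
      fun n : ℕ => Real.cos (n * θ) / (n : ℝ) ^ 2 := by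
    funext n
    rw [show 2 * π * n * (θ / (2 * π)) = n * θ by field_simp]
    ring
  have e2 : (fun n : ℕ => 1 / 4 * (1 / (n : ℝ) ^ 2 * Real.cos (2 * π * n * (θ / π)))) =
      fun n : ℕ => Real.cos ((2 * n : ℕ) * θ) / ((2 * n : ℕ) : ℝ) ^ 2 := by
    funext n
    rw [show 2 * π * n * (θ / π) = (2 * n : ℕ) * θ by push_cast; field_simp]
    push_cast
    ring
  rw [e1] at h1
  rw [e2] at h2
  have h3 := (h1.summable.comp_injective (i := fun m : ℕ => 2 * m + 1)
    fun a b hab => by simpa using hab).hasSum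
  have h4 := h1.unique
    (HasSum.even_add_odd (f := fun n : ℕ => Real.cos (n * θ) / (n : ℝ) ^ 2) h2 h3)
  have h5 : π ^ 2 / 8 * (1 - 2 * θ / π) = π ^ 2 * ((θ / (2 * π)) ^ 2 - θ / (2 * π) + 1 / 6) -
      1 / 4 * (π ^ 2 * ((θ / π) ^ 2 - θ / π + 1 / 6)) := by
    field_simp
    ring
  rw [h5, h4, add_sub_cancel_left]
  exact h3

theorem one_Psi2 : HasSum (fun m : ℕ => 1 / ((2 * m + 1 : ℕ) : ℝ) ^ 2) (π ^ 2 / 8) := by
  simpa only [mul_zero, Real.cos_zero, zero_div, sub_zero, mul_one] using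
    odd_Psi2 ⟨le_rfl, Real.pi_pos.le⟩

theorem term_Psi2 (θ : ℝ) (k : ℕ) : Complex.exp (θ * Complex.I) ^ k / (k : ℂ) ^ 2 =
    (Real.cos (k * θ) / (k : ℝ) ^ 2 : ℝ) + (Real.sin (k * θ) / (k : ℝ) ^ 2 : ℝ) * Complex.I := by
  rw [← Complex.exp_nat_mul, ← mul_assoc, Complex.exp_mul_I]
  push_cast
  ring

theorem sum_Psi2 (θ : ℝ) : Summable fun m : ℕ =>
    Complex.exp (θ * Complex.I) ^ (2 * m + 1) / ((2 * m + 1 : ℕ) : ℂ) ^ 2 := by
  refine Summable.of_norm (one_Psi2.summable.congr fun m => ?_)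
  rw [norm_div, norm_pow, norm_pow, Complex.norm_exp_ofReal_mul_I, one_pow, Complex.norm_natCast]

theorem psi2_stmt (h : Psi1Stmt) : Psi2Stmt := by
  have hπ := Real.pi_pos
  constructor
  · intro θ hθ
    have h1 := Complex.hasSum_re (sum_Psi2 θ).hasSum
    simp only [term_Psi2, Complex.add_re, Complex.ofReal_re, Complex.mul_re, Complex.I_re,
      Complex.ofReal_im, Complex.I_im, mul_zero, zero_mul, sub_zero, add_zero] at h1
    rw [psi0, Complex.re_ofReal_mul]
    simp only [term_Psi2]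
    rw [h1.unique (odd_Psi2 hθ)]
    field_simp
  · have h1 := Complex.hasSum_im (sum_Psi2 (π / 2)).hasSum
    have h2 := le_hasSum (h1.add one_Psi2) 0 fun m _ => by
      rw [term_Psi2, Complex.add_im, Complex.ofReal_im, zero_add, Complex.mul_I_im,
        Complex.ofReal_re, ← add_div]
      exact div_nonneg (by linarith [Real.neg_one_le_sin ((2 * m + 1 : ℕ) * (π / 2))])
        (sq_nonneg _)
    rw [term_Psi2, Complex.add_im, Complex.ofReal_im, zero_add, Complex.mul_I_im,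
      Complex.ofReal_re] at h2
    simp only [mul_zero, zero_add, Nat.cast_one, one_mul, Real.sin_pi_div_two, one_pow,
      div_one] at h2
    rw [psi0, Complex.im_ofReal_mul]
    refine mul_pos (by positivity) ?_
    nlinarith [Real.pi_lt_four]

end Pool.Agent.MP_5f4cdd_gt.LJ

end

section

set_option autoImplicit false
open Set MeasureTheory Metric Filter Topology
open scoped ENNReal Real Matrix

namespace Pool.Agent.MP_5f4cdd_gt.LJ

theorem mem_Gross (θ : ℝ) : Complex.exp (θ * Complex.I) ∈ closedBall (0 : ℂ) 1 := by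
  rw [mem_closedBall_zero_iff, Complex.norm_exp_ofReal_mul_I]

theorem cont_Gross (h1 : Psi1Stmt) : Continuous f0 := by
  unfold f0
  refine Complex.continuous_im.comp (h1.cont.comp_continuous ?_ fun p => mem_Gross _)
  fun_prop

theorem conc_Gross (h3 : Psi3Stmt) : ConcaveOn ℝ (Icc (-1) 1) f0 := by
  have hm : ∀ p ∈ Icc (-1 : ℝ) 1, π * (1 - p) / 2 ∈ Icc (0 : ℝ) π := by
    intro p hp
    constructor <;> nlinarith [Real.pi_pos, hp.1, hp.2]
  refine ⟨convex_Icc _ _, fun x hx y hy a b ha hb hab => ?_⟩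
  have h := h3.2 (hm x hx) (hm y hy) ha hb hab
  have e : a • (π * (1 - x) / 2) + b • (π * (1 - y) / 2) = π * (1 - (a • x + b • y)) / 2 := by
    simp only [smul_eq_mul]
    linear_combination (π / 2) * hab
  rw [e] at h
  exact h

theorem real_Gross (h1 : Psi1Stmt) {w : ℂ} (hw : (starRingEnd ℂ) w = w) : (psi0 w).im = 0 := by
  have h := h1.conj w
  rw [hw] at h
  exact Complex.conj_eq_iff_im.1 h.symm

theorem nonneg_Gross (h1 : Psi1Stmt) (h3 : Psi3Stmt) : ∀ p ∈ Icc (-1 : ℝ) 1, 0 ≤ f0 p := by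
  intro p hp
  have e1 : f0 1 = 0 := real_Gross h1 (by simp)
  have e2 : f0 (-1) = 0 := by
    refine real_Gross h1 ?_
    have : π * (1 - (-1)) / 2 = π := by ring
    rw [this, Complex.exp_pi_mul_I]
    simp
  have h := (conc_Gross h3).2 (left_mem_Icc.2 (by norm_num)) (right_mem_Icc.2 (by norm_num))
    (by linarith [hp.2] : 0 ≤ (1 - p) / 2) (by linarith [hp.1] : 0 ≤ (1 + p) / 2) (by ring)
  have e : ((1 - p) / 2) • (-1 : ℝ) + ((1 + p) / 2) • (1 : ℝ) = p := by
    simp only [smul_eq_mul]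
    ring
  rw [e, e1, e2] at h
  simpa using h

theorem up_Gross (h2 : Psi2Stmt) : ∀ θ ∈ Icc (0 : ℝ) π, psi0 (Complex.exp (θ * Complex.I)) =
    ((1 - 2 * θ / π : ℝ) : ℂ) + (f0 (1 - 2 * θ / π) : ℂ) * Complex.I := by
  intro θ hθ
  have e : π * (1 - (1 - 2 * θ / π)) / 2 = θ := by
    have := Real.pi_pos
    field_simp
    ring
  have e' : f0 (1 - 2 * θ / π) = (psi0 (Complex.exp (θ * Complex.I))).im := by
    unfold f0
    rw [e]
  rw [e', ← h2.re θ hθ, Complex.re_add_im]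

theorem down_Gross (h1 : Psi1Stmt) (h2 : Psi2Stmt) : ∀ θ ∈ Icc (0 : ℝ) π,
    psi0 (Complex.exp (-θ * Complex.I)) =
      ((1 - 2 * θ / π : ℝ) : ℂ) - (f0 (1 - 2 * θ / π) : ℂ) * Complex.I := by
  intro θ hθ
  have e : Complex.exp (-θ * Complex.I) = (starRingEnd ℂ) (Complex.exp (θ * Complex.I)) := by
    rw [← Complex.exp_conj, map_mul, Complex.conj_ofReal, Complex.conj_I, neg_mul, mul_neg]
  rw [e, h1.conj, up_Gross h2 θ hθ, map_add, map_mul, Complex.conj_ofReal, Complex.conj_ofReal,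
    Complex.conj_I, mul_neg, ← sub_eq_add_neg]

theorem gross_stmt (h1 : Psi1Stmt) (hA : AdmStmt) (h2 : Psi2Stmt) (h3 : Psi3Stmt)
    (hM : MaxPStmt) : GrossStmt := by
  have hc := cont_Gross h1
  have hv := conc_Gross h3
  have hn := nonneg_Gross h1 h3
  refine ⟨hA, hc, hv, ?_, hn, up_Gross h2, down_Gross h1 h2, ?_⟩
  · have e : π * (1 - 0) / 2 = π / 2 := by ring
    unfold f0
    rw [e]
    exact h2.pos
  · refine hM psi0 {ζ : ℂ | |ζ.re| ≤ 1 ∧ |ζ.im| ≤ f0 ζ.re} hA.hol hA.cont ?_ ?_ ?_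
    · rintro x ⟨hx1, hx2⟩ y ⟨hy1, hy2⟩ a b ha hb hab
      have h := hv.2 (abs_le.1 hx1) (abs_le.1 hy1) ha hb hab
      have er : (a • x + b • y).re = a • x.re + b • y.re := by simp
      have ei : (a • x + b • y).im = a * x.im + b * y.im := by simp
      have hx := abs_le.1 hx1
      have hy := abs_le.1 hy1
      have hx' := abs_le.1 hx2
      have hy' := abs_le.1 hy2
      refine ⟨?_, ?_⟩
      · rw [er]
        exact abs_le.2 (convex_Icc (-1 : ℝ) 1 hx hy ha hb hab)
      · rw [er, ei]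
        simp only [smul_eq_mul] at h ⊢
        have a1 := mul_le_mul_of_nonneg_left hx'.1 ha
        have a2 := mul_le_mul_of_nonneg_left hx'.2 ha
        have b1 := mul_le_mul_of_nonneg_left hy'.1 hb
        have b2 := mul_le_mul_of_nonneg_left hy'.2 hb
        exact abs_le.2 ⟨by linarith, by linarith⟩
    · exact (isClosed_le Complex.continuous_re.abs continuous_const).inter
        (isClosed_le Complex.continuous_im.abs (hc.comp Complex.continuous_re))
    · intro w hw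
      have hw1 : ‖w‖ = 1 := mem_sphere_zero_iff_norm.1 hw
      have e : w = Complex.exp (Complex.arg w * Complex.I) := by
        have := Complex.norm_mul_exp_arg_mul_I w
        rw [hw1] at this
        simpa using this.symm
      have hm : ∀ θ ∈ Icc (0 : ℝ) π, 1 - 2 * θ / π ∈ Icc (-1 : ℝ) 1 := by
        intro θ hθ
        have h0 : 0 ≤ 2 * θ / π := div_nonneg (by linarith [hθ.1]) Real.pi_pos.le
        have h2' : 2 * θ / π ≤ 2 := (div_le_iff₀ Real.pi_pos).2 (by linarith [hθ.2])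
        constructor <;> linarith
      have key : ∀ (p : ℝ) (ζ : ℂ), p ∈ Icc (-1 : ℝ) 1 → ζ.re = p → |ζ.im| = |f0 p| →
          ζ ∈ {ζ : ℂ | |ζ.re| ≤ 1 ∧ |ζ.im| ≤ f0 ζ.re} := by
        intro p ζ hp hr hi
        refine ⟨?_, ?_⟩
        · rw [hr]
          exact abs_le.2 hp
        · rw [hr, hi, abs_of_nonneg (hn p hp)]
      rcases le_total 0 (Complex.arg w) with h | h
      · have hθ : Complex.arg w ∈ Icc (0 : ℝ) π := ⟨h, Complex.arg_le_pi w⟩
        rw [e, up_Gross h2 _ hθ]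
        generalize 1 - 2 * Complex.arg w / π = p, hm _ hθ = hp
        exact key p _ hp (by simp) (by simp)
      · have hθ : -Complex.arg w ∈ Icc (0 : ℝ) π :=
          ⟨by linarith, by linarith [Complex.neg_pi_lt_arg w]⟩
        have hd := down_Gross h1 h2 _ hθ
        rw [Complex.ofReal_neg, neg_neg, ← e] at hd
        rw [hd]
        generalize 1 - 2 * -Complex.arg w / π = p, hm _ hθ = hp
        exact key p _ hp (by simp) (by simp)

end Pool.Agent.MP_5f4cdd_gt.LJ

end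

section

set_option autoImplicit false
open Set MeasureTheory Metric Filter Topology
open scoped ENNReal Real Matrix

namespace Pool.Agent.MP_5f4cdd_gt.LJ

variable {N : ℕ} {J : Type}

theorem lt_G2 {f : ℝ → ℝ} (hc : ConcaveOn ℝ (Icc (-1) 1) f) (h0 : 0 < f 0) {p v t u : ℝ}
    (ht : 0 < t) (h : t < u) (h1 : |u * p| ≤ 1) (h2 : |t * v| = f (t * p))
    (h3 : |u * v| = f (u * p)) : False := by
  have hu := ht.trans h
  have h4 : t / u < 1 := (div_lt_one hu).2 h
  have h5 := hc.2 (abs_le.1 h1) (show (0 : ℝ) ∈ Icc (-1 : ℝ) 1 by norm_num)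
    (div_pos ht hu).le (sub_pos.2 h4).le (add_sub_cancel _ _)
  simp only [smul_eq_mul, mul_zero, add_zero] at h5
  rw [← mul_assoc, div_mul_cancel₀ _ hu.ne', ← h2, ← h3, abs_mul, abs_mul, abs_of_pos ht,
    abs_of_pos hu, ← mul_assoc, div_mul_cancel₀ _ hu.ne'] at h5
  have := mul_pos (sub_pos.2 h4) h0
  linarith

theorem null_G2 [Fintype J] [DecidableEq J] {S : Set (J → ℝ)} (hS : MeasurableSet S) (j : J)
    (h : ∀ r, {t | Function.update r j t ∈ S}.Subsingleton) : volume S = 0 := by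
  have h1 : (fun r : J → ℝ => ∫⁻ t, S.indicator 1 (Function.update r j t)) = fun _ => 0 := by
    funext r
    refine lintegral_eq_zero_of_ae_eq_zero ?_
    filter_upwards [compl_mem_ae_iff.2 ((h r).measure_zero volume)] with t ht
    exact indicator_of_notMem (s := S) ht (1 : (J → ℝ) → ℝ≥0∞)
  rw [← lintegral_indicator_one hS, volume_pi, lintegral_eq_lmarginal_univ 0,
    lmarginal_erase' _ (measurable_one.indicator hS) (Finset.mem_univ j), h1]
  exact lintegral_zero

theorem meas_G2 [Fintype J] {f : ℝ → ℝ} (hf : Continuous f) (n : J → Fin N → ℝ) (s : Fin N → J)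
    (e : Fin N → Bool) (j : J) : Measurable fun q : (Fin N → ℝ) × (J → ℝ) =>
      (q.2 j • n j) ⬝ᵥ vtx (fun l => q.2 l • n l) f s e q.1 := by
  have h1 : Continuous fun q : (Fin N → ℝ) × (J → ℝ) => mat (fun l => q.2 l • n l) s :=
    continuous_matrix fun i a => by
      simp only [mat, Matrix.of_apply]
      fun_prop
  have h2 : Continuous fun q : (Fin N → ℝ) × (J → ℝ) => (q.2 j • n j) ⬝ᵥ
      ((mat (fun l => q.2 l • n l) s).adjugate *ᵥ
        fun i => sg (e i) * f ((q.2 (s i) • n (s i)) ⬝ᵥ q.1)) :=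
    Continuous.dotProduct (by fun_prop) (h1.matrix_adjugate.matrix_mulVec (by fun_prop))
  have h3 := h1.matrix_det.measurable.inv.mul h2.measurable
  simp only [vtx, solr, Matrix.inv_def, Ring.inverse_eq_inv', Matrix.smul_mulVec,
    dotProduct_smul, smul_eq_mul]
  exact h3

theorem upd_G2 [DecidableEq J] (f : ℝ → ℝ) (n : J → Fin N → ℝ) {s : Fin N → J} (e : Fin N → Bool)
    {j : J} (hj : j ∉ range s) (r : J → ℝ) (t : ℝ) (x : Fin N → ℝ) :
    vtx (fun l => Function.update r j t l • n l) f s e x = vtx (fun l => r l • n l) f s e x := by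
  have h : ∀ i, Function.update r j t (s i) = r (s i) := fun i =>
    Function.update_of_ne (fun h => hj ⟨i, h⟩) _ _
  simp only [vtx, solr, mat, h]

theorem ae_G2 [Fintype J] [DecidableEq J] {f : ℝ → ℝ} (hf : Continuous f)
    (hc : ConcaveOn ℝ (Icc (-1) 1) f) (h0 : 0 < f 0) (n : J → Fin N → ℝ) (s : Fin N → J)
    (e : Fin N → Bool) (j : J) : ∀ᵐ r : J → ℝ, ∀ᵐ x : Fin N → ℝ,
      ¬ (j ∉ range s ∧ 0 < r j ∧ |(r j • n j) ⬝ᵥ x| ≤ 1 ∧
        |(r j • n j) ⬝ᵥ vtx (fun l => r l • n l) f s e x| = f ((r j • n j) ⬝ᵥ x)) := by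
  have hm : MeasurableSet {q : (Fin N → ℝ) × (J → ℝ) | j ∉ range s ∧ 0 < q.2 j ∧
      |(q.2 j • n j) ⬝ᵥ q.1| ≤ 1 ∧
      |(q.2 j • n j) ⬝ᵥ vtx (fun l => q.2 l • n l) f s e q.1| = f ((q.2 j • n j) ⬝ᵥ q.1)} := by
    have h1 : Continuous fun q : (Fin N → ℝ) × (J → ℝ) => (q.2 j • n j) ⬝ᵥ q.1 := by fun_prop
    have h2 : Measurable fun q : (Fin N → ℝ) × (J → ℝ) => q.2 j := by fun_prop
    simp only [ofPred_and]
    exact (MeasurableSet.const _).inter ((measurableSet_lt measurable_const h2).inter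
      ((measurableSet_le h1.abs.measurable measurable_const).inter
        (measurableSet_eq_fun (meas_G2 hf n s e j).abs (hf.comp h1).measurable)))
  refine (Measure.ae_ae_comm hm.compl).1 (Eventually.of_forall fun x => compl_mem_ae_iff.2
    (null_G2 (measurable_prodMk_left hm) j fun r t ht u hu => ?_))
  obtain ⟨hj, a1, a2, a3⟩ := ht
  obtain ⟨-, b1, b2, b3⟩ := hu
  simp only [upd_G2 f n e hj, Function.update_self, smul_dotProduct, smul_eq_mul] at a1 a2 a3 b1 b2 b3
  rcases lt_trichotomy t u with h | h | h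
  · exact (lt_G2 hc h0 a1 h b2 a3 b3).elim
  · exact h
  · exact (lt_G2 hc h0 b1 h a2 b3 a3).elim

theorem g2_stmt : G2Stmt := by
  intro N J _ _ f hf hc h0 n ρ hρ
  have h1 : volume (Icc ρ fun _ => 1) ≠ 0 := by
    rw [Real.volume_Icc_pi]
    exact Finset.prod_ne_zero_iff.2 fun j _ => (ENNReal.ofReal_pos.2 (sub_pos.2 (hρ j).2)).ne'
  obtain ⟨r, hr, h2⟩ := Measure.exists_mem_of_measure_ne_zero_of_ae h1 (ae_restrict_of_ae
    (ae_all_iff.2 fun s => ae_all_iff.2 fun e => ae_all_iff.2 fun j => ae_G2 hf hc h0 n s e j))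
  refine ⟨r, fun j => ⟨hr.1 j, hr.2 j⟩, ?_⟩
  filter_upwards [ae_all_iff.2 fun s => ae_all_iff.2 fun e => ae_all_iff.2 fun j => h2 s e j]
    with x hx s e j _ hj a b
  exact hx s e j ⟨hj, (hρ j).1.trans_le (hr.1 j), a, b⟩

end Pool.Agent.MP_5f4cdd_gt.LJ

end

section

set_option autoImplicit false
open Set MeasureTheory Metric Filter Topology
open scoped ENNReal Real Matrix Pointwise

namespace Pool.Agent.MP_5f4cdd_gt.LJ

variable {N : ℕ}

theorem cont_hs_Diff {K : Set (Fin N → ℝ)} (hK : IsCompact K) : Continuous (hs K) :=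
  hK.continuous_sSup (f := fun y x : Fin N → ℝ => ∑ i, x i * y i) (by
    unfold Function.HasUncurry.uncurry Function.hasUncurryInduction Function.hasUncurryBase
    simp only [id]
    fun_prop)

theorem exists_hs_Diff {K : Set (Fin N → ℝ)} (hK : IsCompact K) (hne : K.Nonempty)
    (y : Fin N → ℝ) : ∃ x ∈ K, ∑ i, x i * y i = hs K y :=
  (hK.image (f := fun x : Fin N → ℝ => ∑ i, x i * y i) (by fun_prop)).sSup_mem (hne.image _)

theorem le_hs_Diff {K : Set (Fin N → ℝ)} (hK : IsCompact K) {x : Fin N → ℝ} (hx : x ∈ K)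
    (y : Fin N → ℝ) : ∑ i, x i * y i ≤ hs K y :=
  le_csSup (hK.image (f := fun x : Fin N → ℝ => ∑ i, x i * y i) (by fun_prop)).bddAbove
    ⟨x, hx, rfl⟩

theorem exp_mid_Diff {a b c : ℝ} (h : a + b ≤ 2 * c) :
    2 * Real.exp (-c) ≤ Real.exp (-a) + Real.exp (-b) := by
  have h1 : Real.exp (-c) ≤ Real.exp (-a / 2) * Real.exp (-b / 2) := by
    rw [← Real.exp_add]
    exact Real.exp_le_exp.2 (by linarith)
  have h2 : ∀ t : ℝ, Real.exp (-t) = Real.exp (-t / 2) ^ 2 := fun t => by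
    rw [sq, ← Real.exp_add, add_halves]
  rw [h2 a, h2 b]
  nlinarith [sq_nonneg (Real.exp (-a / 2) - Real.exp (-b / 2))]

theorem diff_stmt (h : SymStmt) : DiffStmt := by
  intro N K hc hK hi
  have hne : K.Nonempty := hi.mono interior_subset
  have hD : {z : Fin N → ℝ | ∃ x ∈ K, ∃ y ∈ K, z = x - y} = K - K := by
    ext z
    simp only [Set.mem_sub, Set.mem_ofPred_eq, eq_comm]
  rw [hD]
  have hLc : IsCompact ((1 / 2 : ℝ) • (K - K)) := by
    rw [sub_eq_add_neg]
    exact (hK.add hK.neg).smul _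
  have h1 := h N ((1 / 2 : ℝ) • (K - K)) ((hc.sub hc).smul _) hLc
    (by
      rw [interior_smul₀ (by norm_num)]
      exact ((hi.sub hne).mono (subset_interior_sub_left)).smul_set)
    (by
      rintro _ ⟨_, ⟨x, hx, y, hy, rfl⟩, rfl⟩
      exact ⟨_, ⟨y, hy, x, hx, rfl⟩, by simp only [← smul_neg, neg_sub]⟩)
  have hm : Measurable fun y : Fin N → ℝ => ENNReal.ofReal (Real.exp (-hs K y)) :=
    (Real.continuous_exp.comp (cont_hs_Diff hK).neg).measurable.ennreal_ofReal
  have h2 : 2 * ∫⁻ y : Fin N → ℝ, ENNReal.ofReal (Real.exp (-hs ((1 / 2 : ℝ) • (K - K)) y)) ≤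
      2 * ∫⁻ y : Fin N → ℝ, ENNReal.ofReal (Real.exp (-hs K y)) := by
    rw [← lintegral_const_mul' _ _ (by simp), two_mul]
    nth_rewrite 3 [← lintegral_neg_eq_self]
    rw [← lintegral_add_left hm]
    refine lintegral_mono fun y => ?_
    obtain ⟨a, ha, ha'⟩ := exists_hs_Diff hK hne y
    obtain ⟨b, hb, hb'⟩ := exists_hs_Diff hK hne (-y)
    have h3 := le_hs_Diff hLc (smul_mem_smul_set (a := (1 / 2 : ℝ)) (sub_mem_sub ha hb)) y
    have h4 : hs K y + hs K (-y) = 2 * ∑ i, ((1 / 2 : ℝ) • (a - b)) i * y i := by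
      rw [← ha', ← hb', ← Finset.sum_add_distrib, Finset.mul_sum]
      exact Finset.sum_congr rfl fun i _ => by
        simp only [Pi.neg_apply, Pi.smul_apply, Pi.sub_apply, smul_eq_mul]
        ring
    rw [← ENNReal.ofReal_add (Real.exp_pos _).le (Real.exp_pos _).le, ← ENNReal.ofReal_ofNat 2,
      ← ENNReal.ofReal_mul zero_le_two]
    exact ENNReal.ofReal_le_ofReal (exp_mid_Diff (by linarith))
  have h5 := (ENNReal.mul_le_mul_iff_right (by simp) (by simp)).1 h2
  have h6 : (2 : ℝ≥0∞) ^ N * volume ((1 / 2 : ℝ) • (K - K)) = volume (K - K) := by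
    rw [Measure.addHaar_smul, ← mul_assoc, Module.finrank_fin_fun, ← ENNReal.ofReal_ofNat 2,
      ← ENNReal.ofReal_pow zero_le_two, ← ENNReal.ofReal_mul (by positivity),
      abs_of_nonneg (by positivity), ← mul_pow]
    simp
  calc (8 : ℝ≥0∞) ^ N = 2 ^ N * 4 ^ N := by rw [← mul_pow]; norm_num
    _ ≤ 2 ^ N * (volume ((1 / 2 : ℝ) • (K - K)) *
        ∫⁻ y : Fin N → ℝ, ENNReal.ofReal (Real.exp (-hs K y))) :=
      mul_le_mul_right (h1.trans (mul_le_mul_right h5 _)) _
    _ = _ := by rw [← mul_assoc, h6]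

end Pool.Agent.MP_5f4cdd_gt.LJ

end

section

set_option autoImplicit false
open Set MeasureTheory Metric Filter Topology
open scoped ENNReal Real Matrix

namespace Pool.Agent.MP_5f4cdd_gt.LJ

theorem lelong_jensen : LJStmt :=
  lj_stmt (mono_stmt (ibp_stmt alg_stmt ibp1_stmt)) inv_stmt cn_stmt
    (lower_stmt inv_stmt (cv_stmt inv_stmt) cn_stmt) (upper_stmt inv_stmt (cv_stmt inv_stmt) cn_stmt)

theorem gross_psi0 : GrossStmt :=
  gross_stmt psi1_stmt (adm_stmt psi1_stmt) (psi2_stmt psi1_stmt) (psi3_stmt psi1_stmt) maxP_stmt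

theorem sym_mahler : SymStmt :=
  sym_stmt gross_psi0 g2_stmt g4_stmt (g5_stmt lelong_jensen gross_psi0 g1_stmt g3_stmt)

theorem diff_mahler : DiffStmt := diff_stmt sym_mahler

theorem mahler_p_ge (n : ℕ) (K : Set (Fin n → ℝ)) (hK : IsCompact K)
    (hi : (interior K).Nonempty) {p : ℝ} (hp : 0 < p) (y : Fin n → ℝ) :
    Real.exp (-(sSup ((fun x : Fin n → ℝ => ∑ i, x i * y i) '' K))) ≤
      ((∫ x in K, Real.exp (p * ∑ i, x i * y i)) / (volume K).toReal) ^ (-(1 / p)) := by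
  set h := sSup ((fun x : Fin n → ℝ => ∑ i, x i * y i) '' K) with hh
  have hV0 : 0 < volume K := Measure.measure_pos_of_nonempty_interior _ hi
  have hVt : volume K ≠ ⊤ := hK.measure_lt_top.ne
  have hV : 0 < (volume K).toReal := ENNReal.toReal_pos hV0.ne' hVt
  have hcont : Continuous fun x : Fin n → ℝ => Real.exp (p * ∑ i, x i * y i) := by fun_prop
  have hint := hcont.continuousOn.integrableOn_compact (μ := volume) hK
  have hpos : 0 < ∫ x in K, Real.exp (p * ∑ i, x i * y i) := by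
    rw [setIntegral_pos_iff_support_of_nonneg_ae
      (Eventually.of_forall fun x => (Real.exp_pos _).le) hint]
    have : (Function.support fun x : Fin n → ℝ => Real.exp (p * ∑ i, x i * y i)) = univ := by
      ext x; simp
    rwa [this, univ_inter]
  have hle : (∫ x in K, Real.exp (p * ∑ i, x i * y i)) / (volume K).toReal ≤ Real.exp (p * h) := by
    rw [div_le_iff₀ hV]
    have : ∫ x in K, Real.exp (p * ∑ i, x i * y i) ≤ ∫ _ in K, Real.exp (p * h) := by
      refine setIntegral_mono_on hint (integrableOn_const hVt) hK.measurableSet fun x hx => ?_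
      refine Real.exp_le_exp.2 (mul_le_mul_of_nonneg_left ?_ hp.le)
      exact le_csSup (hK.bddAbove_image (Continuous.continuousOn (by fun_prop)))
        (mem_image_of_mem _ hx)
    rwa [setIntegral_const, smul_eq_mul, mul_comm] at this
  have := Real.rpow_le_rpow_of_nonpos (div_pos hpos hV) hle
    (by rw [neg_nonpos]; positivity : -(1 / p) ≤ 0)
  rwa [← Real.exp_mul, show p * h * -(1 / p) = -h by field_simp] at this

end Pool.Agent.MP_5f4cdd_gt.LJ

end

section

set_option autoImplicit false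
open Set MeasureTheory Metric Filter Topology
open scoped ENNReal Real Matrix

namespace Pool.Agent.MP_5f4cdd_gt.LJ

theorem sum_Li2 : Summable fun m : ℕ => 1 / ((m + 1 : ℕ) : ℝ) ^ 2 :=
  (Real.summable_one_div_nat_pow.2 one_lt_two).comp_injective Nat.succ_injective

theorem bd_Li2 (m : ℕ) {w : ℂ} (hw : w ∈ closedBall (0 : ℂ) 1) :
    ‖w ^ (m + 1) / ((m + 1 : ℕ) : ℂ) ^ 2‖ ≤ 1 / ((m + 1 : ℕ) : ℝ) ^ 2 := by
  rw [norm_div, norm_pow, norm_pow, Complex.norm_natCast]
  exact div_le_div_of_nonneg_right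
    (pow_le_one₀ (norm_nonneg w) (mem_closedBall_zero_iff.1 hw)) (sq_nonneg _)

theorem der_Li2 (m : ℕ) (w : ℂ) :
    HasDerivAt (fun w : ℂ => w ^ (m + 1) / ((m + 1 : ℕ) : ℂ) ^ 2)
      (w ^ m / ((m + 1 : ℕ) : ℂ)) w := by
  have h : ((m + 1 : ℕ) : ℂ) ≠ 0 := Nat.cast_ne_zero.2 (Nat.succ_ne_zero _)
  refine ((hasDerivAt_pow (m + 1) w).div_const _).congr_deriv ?_
  rw [Nat.add_sub_cancel, sq, mul_div_mul_left _ _ h]

theorem has_Li2 {w : ℂ} (hw : w ∈ ball (0 : ℂ) 1) :
    HasDerivAt li2 (∑' m : ℕ, w ^ m / ((m + 1 : ℕ) : ℂ)) w := by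
  have hd : ∀ m : ℕ, DifferentiableOn ℂ
      (fun w : ℂ => w ^ (m + 1) / ((m + 1 : ℕ) : ℂ) ^ 2) (ball 0 1) := fun m z _ =>
    (der_Li2 m z).differentiableAt.differentiableWithinAt
  have hb := fun (m : ℕ) (z : ℂ) (hz : z ∈ ball (0 : ℂ) 1) => bd_Li2 m (ball_subset_closedBall hz)
  have h1 := (Complex.differentiableOn_tsum_of_summable_norm sum_Li2 hd isOpen_ball
    hb).differentiableAt (isOpen_ball.mem_nhds hw)
  have h2 := Complex.hasSum_deriv_of_summable_norm sum_Li2 hd isOpen_ball hb hw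
  simp only [fun m => (der_Li2 m w).deriv] at h2
  rw [h2.tsum_eq]
  exact h1.hasDerivAt

theorem log_Li2 {w : ℂ} (hw : ‖w‖ < 1) :
    HasSum (fun m : ℕ => w * (w ^ m / ((m + 1 : ℕ) : ℂ))) (-Complex.log (1 - w)) := by
  have h := (hasSum_nat_add_iff' 1).2 (Complex.hasSum_taylorSeries_neg_log hw)
  rw [Finset.sum_range_one, Nat.cast_zero, div_zero, sub_zero] at h
  refine h.congr_fun fun m => ?_
  ring

theorem re_Li2 {x : ℝ} (hx : x ∈ Icc (0 : ℝ) 1) :
    (li2 (Complex.exp ((2 * π * x : ℝ) * Complex.I))).re = π ^ 2 * (x ^ 2 - x + 1 / 6) := by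
  have hs : Summable fun m : ℕ =>
      Complex.exp ((2 * π * x : ℝ) * Complex.I) ^ (m + 1) / ((m + 1 : ℕ) : ℂ) ^ 2 :=
    Summable.of_norm_bounded sum_Li2 fun m => bd_Li2 m
      (mem_closedBall_zero_iff.2 (Complex.norm_exp_ofReal_mul_I _).le)
  have h1 := Complex.hasSum_re hs.hasSum
  have h2 := (hasSum_nat_add_iff' 1).2 (cos_Psi2 hx)
  rw [Finset.sum_range_one, Nat.cast_zero, zero_pow two_ne_zero, div_zero, zero_mul,
    sub_zero] at h2
  refine h1.unique (h2.congr_fun fun m => ?_)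
  rw [term_Psi2, Complex.add_re, Complex.ofReal_re, Complex.mul_I_re, Complex.ofReal_im, neg_zero,
    add_zero, show ((m + 1 : ℕ) : ℝ) * (2 * π * x) = 2 * π * (m + 1 : ℕ) * x by ring]
  ring

theorem li2_stmt : Li2Stmt where
  hasDerivAt := fun _ hw => has_Li2 hw
  mul_deriv := fun w hw => by
    rw [(has_Li2 hw).deriv, ← (log_Li2 (mem_ball_zero_iff.1 hw)).tsum_eq, tsum_mul_left]
  cont := continuousOn_tsum (fun _ => by fun_prop) sum_Li2 fun m _ hw => bd_Li2 m hw
  re := fun _ hx => re_Li2 hx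

end Pool.Agent.MP_5f4cdd_gt.LJ

end

section

set_option autoImplicit false
open Set MeasureTheory Metric Filter Topology
open scoped ENNReal Real Matrix

namespace Pool.Agent.MP_5f4cdd_gt.LJ

variable {N : ℕ} {J : Type}

theorem lt_H2 {f : ℝ → ℝ} (hc : ConcaveOn ℝ (Icc (-1) 1) f) (h0 : 0 < f 0) {p v σ t u : ℝ}
    (ht : 0 < t) (h : t < u) (h1 : |u * p| ≤ 1) (h2 : σ * (t * v) = f (t * p))
    (h3 : σ * (u * v) = f (u * p)) : False := by
  have hu := ht.trans h
  have h4 : t / u < 1 := (div_lt_one hu).2 h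
  have h5 := hc.2 (abs_le.1 h1) (show (0 : ℝ) ∈ Icc (-1 : ℝ) 1 by norm_num)
    (div_pos ht hu).le (sub_pos.2 h4).le (add_sub_cancel _ _)
  simp only [smul_eq_mul, mul_zero, add_zero] at h5
  rw [← mul_assoc, div_mul_cancel₀ _ hu.ne', ← h2, ← h3, mul_left_comm, ← mul_assoc (t / u),
    div_mul_cancel₀ _ hu.ne'] at h5
  have := mul_pos (sub_pos.2 h4) h0
  linarith

theorem meas_H2 [Fintype J] {F : J → Bool → ℝ → ℝ} (hf : ∀ j b, Continuous (F j b))
    (n : J → Fin N → ℝ) (s : Fin N → J) (e : Fin N → Bool) (j : J) :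
    Measurable fun q : (Fin N → ℝ) × (J → ℝ) =>
      (q.2 j • n j) ⬝ᵥ vtx2 (fun l => q.2 l • n l) F s e q.1 := by
  have h1 : Continuous fun q : (Fin N → ℝ) × (J → ℝ) => mat (fun l => q.2 l • n l) s :=
    continuous_matrix fun i a => by
      simp only [mat, Matrix.of_apply]
      fun_prop
  have h2 : Continuous fun q : (Fin N → ℝ) × (J → ℝ) => (q.2 j • n j) ⬝ᵥ
      ((mat (fun l => q.2 l • n l) s).adjugate *ᵥ
        fun i => sg (e i) * F (s i) (e i) ((q.2 (s i) • n (s i)) ⬝ᵥ q.1)) :=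
    Continuous.dotProduct (by fun_prop) (h1.matrix_adjugate.matrix_mulVec
      (continuous_pi fun i => continuous_const.mul ((hf _ _).comp (by fun_prop))))
  have h3 := h1.matrix_det.measurable.inv.mul h2.measurable
  simp only [vtx2, solr, Matrix.inv_def, Ring.inverse_eq_inv', Matrix.smul_mulVec,
    dotProduct_smul, smul_eq_mul]
  exact h3

theorem upd_H2 [DecidableEq J] (F : J → Bool → ℝ → ℝ) (n : J → Fin N → ℝ) {s : Fin N → J}
    (e : Fin N → Bool) {j : J} (hj : j ∉ range s) (r : J → ℝ) (t : ℝ) (x : Fin N → ℝ) :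
    vtx2 (fun l => Function.update r j t l • n l) F s e x =
      vtx2 (fun l => r l • n l) F s e x := by
  have h : ∀ i, Function.update r j t (s i) = r (s i) := fun i =>
    Function.update_of_ne (fun h => hj ⟨i, h⟩) _ _
  simp only [vtx2, solr, mat, h]

theorem ae_H2 [Fintype J] [DecidableEq J] {F : J → Bool → ℝ → ℝ}
    (hf : ∀ j b, Continuous (F j b)) (hc : ∀ j b, ConcaveOn ℝ (Icc (-1) 1) (F j b))
    (h0 : ∀ j b, 0 < F j b 0) (n : J → Fin N → ℝ) (s : Fin N → J)
    (e : Fin N → Bool) (j : J) (b : Bool) : ∀ᵐ r : J → ℝ, ∀ᵐ x : Fin N → ℝ,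
      ¬ (j ∉ range s ∧ 0 < r j ∧ |(r j • n j) ⬝ᵥ x| ≤ 1 ∧
        sg b * ((r j • n j) ⬝ᵥ vtx2 (fun l => r l • n l) F s e x) =
          F j b ((r j • n j) ⬝ᵥ x)) := by
  have hm : MeasurableSet {q : (Fin N → ℝ) × (J → ℝ) | j ∉ range s ∧ 0 < q.2 j ∧
      |(q.2 j • n j) ⬝ᵥ q.1| ≤ 1 ∧
      sg b * ((q.2 j • n j) ⬝ᵥ vtx2 (fun l => q.2 l • n l) F s e q.1) =
        F j b ((q.2 j • n j) ⬝ᵥ q.1)} := by
    have h1 : Continuous fun q : (Fin N → ℝ) × (J → ℝ) => (q.2 j • n j) ⬝ᵥ q.1 := by fun_prop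
    have h2 : Measurable fun q : (Fin N → ℝ) × (J → ℝ) => q.2 j := by fun_prop
    simp only [ofPred_and]
    exact (MeasurableSet.const _).inter ((measurableSet_lt measurable_const h2).inter
      ((measurableSet_le h1.abs.measurable measurable_const).inter
        (measurableSet_eq_fun ((meas_H2 hf n s e j).const_mul _) ((hf j b).comp h1).measurable)))
  refine (Measure.ae_ae_comm hm.compl).1 (Eventually.of_forall fun x => compl_mem_ae_iff.2
    (null_G2 (measurable_prodMk_left hm) j fun r t ht u hu => ?_))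
  obtain ⟨hj, a1, a2, a3⟩ := ht
  obtain ⟨-, b1, b2, b3⟩ := hu
  simp only [upd_H2 F n e hj, Function.update_self, smul_dotProduct, smul_eq_mul]
    at a1 a2 a3 b1 b2 b3
  rcases lt_trichotomy t u with h | h | h
  · exact (lt_H2 (hc j b) (h0 j b) a1 h b2 a3 b3).elim
  · exact h
  · exact (lt_H2 (hc j b) (h0 j b) b1 h a2 b3 a3).elim

theorem h2_stmt : H2Stmt := by
  intro N J _ _ F hf hc h0 n ρ hρ
  have h1 : volume (Icc ρ fun _ => 1) ≠ 0 := by
    rw [Real.volume_Icc_pi]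
    exact Finset.prod_ne_zero_iff.2 fun j _ => (ENNReal.ofReal_pos.2 (sub_pos.2 (hρ j).2)).ne'
  obtain ⟨r, hr, h2⟩ := Measure.exists_mem_of_measure_ne_zero_of_ae h1 (ae_restrict_of_ae
    (ae_all_iff.2 fun s => ae_all_iff.2 fun e => ae_all_iff.2 fun j => ae_all_iff.2 fun b =>
      ae_H2 hf hc h0 n s e j b))
  refine ⟨r, fun j => ⟨hr.1 j, hr.2 j⟩, ?_⟩
  filter_upwards [ae_all_iff.2 fun s => ae_all_iff.2 fun e => ae_all_iff.2 fun j =>
    ae_all_iff.2 fun b => h2 s e j b] with x hx s e j b _ hj a c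
  exact hx s e j b ⟨hj, (hρ j).1.trans_le (hr.1 j), a, c⟩

end Pool.Agent.MP_5f4cdd_gt.LJ

end

section

set_option autoImplicit false
open Set MeasureTheory Metric Filter Topology
open scoped ENNReal Real Matrix

namespace Pool.Agent.MP_5f4cdd_gt.LJ

variable {N : ℕ} {J : Type}

theorem dot_H3 (n : J → Fin N → ℝ) (τ : Fin N → J) (c x : Fin N → ℝ) :
    lin_G3 n (τ, fun _ => true) c ⬝ᵥ x = ∑ i, c i * (n (τ i) ⬝ᵥ x) := by
  simp [dot_G3, sg]

theorem perm_H3 {n : J → Fin N → ℝ} {b : J → ℝ} {τ σ : Fin N → J} {x z : Fin N → ℝ}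
    (hd : dt n τ ≠ 0) (hx : ∀ i, n (τ i) ⬝ᵥ x = b (τ i)) (hz : ∀ i, n (σ i) ⬝ᵥ z = b (σ i))
    (hx' : ∀ j, n j ⬝ᵥ x ≤ b j) (hz' : ∀ j, n j ⬝ᵥ z ≤ b j)
    (hn : ∀ j, j ∉ range σ → n j ⬝ᵥ z ≠ b j) {y : Fin N → ℝ}
    (h1 : y ∈ lin_G3 n (τ, fun _ => true) '' ort_G3 N)
    (h2 : y ∈ lin_G3 n (σ, fun _ => true) '' ort_G3 N) : ∃ e : Equiv.Perm (Fin N), σ ∘ e = τ := by
  obtain ⟨c, hc, e1⟩ := h1
  obtain ⟨d, hd', e2⟩ := h2
  have hc0 : ∀ i, 0 < c i := fun i => hc i (mem_univ i)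
  have hd0 : ∀ i, 0 < d i := fun i => hd' i (mem_univ i)
  have h3 : y ⬝ᵥ x ≤ y ⬝ᵥ z := by
    rw [← e2, dot_H3, dot_H3]
    exact Finset.sum_le_sum fun i _ =>
      mul_le_mul_of_nonneg_left ((hx' _).trans_eq (hz i).symm) (hd0 i).le
  have h4 : ∀ i ∈ Finset.univ, c i * (n (τ i) ⬝ᵥ z) ≤ c i * (n (τ i) ⬝ᵥ x) := fun i _ =>
    mul_le_mul_of_nonneg_left ((hz' _).trans_eq (hx i).symm) (hc0 i).le
  rw [← e1, dot_H3, dot_H3] at h3
  have h7 : ∀ i, ∃ l, σ l = τ i := fun i => by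
    by_contra h8
    exact hn _ h8 ((mul_left_cancel₀ (hc0 i).ne' ((Finset.sum_eq_sum_iff_of_le h4).1
      (le_antisymm (Finset.sum_le_sum h4) h3) i (Finset.mem_univ i))).trans (hx i))
  choose e he using h7
  have hi : Function.Injective e := fun i l h => injective_of_dt hd (by rw [← he, ← he, h])
  exact ⟨Equiv.ofBijective e hi.bijective_of_finite, funext he⟩

theorem h3_stmt : H3Stmt := by
  intro N J _ n b T ξ hd h1 h2 h3 u hu
  classical
  refine (Finset.sum_le_sum fun τ hτ => cone_G3 (τ := (τ, fun _ => true)) (u := u) (hd τ hτ)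
    fun c hc => by simpa [sg] using hu τ hτ c hc).trans ((sum_G3 _ _ _).trans ?_)
  rw [← lintegral_const_mul' _ _ (ENNReal.natCast_ne_top _)]
  refine lintegral_mono fun y => ?_
  have h4 : (T.filter fun τ => y ∈ lin_G3 n (τ, fun _ => true) '' ort_G3 N).card ≤
      N.factorial := by
    rcases (T.filter fun τ => y ∈ lin_G3 n (τ, fun _ => true) '' ort_G3 N).eq_empty_or_nonempty
      with h | ⟨σ, hσ⟩
    · rw [h]
      exact Nat.zero_le _
    obtain ⟨hσ, hy⟩ := Finset.mem_filter.1 hσ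
    have h5 : (T.filter fun τ => y ∈ lin_G3 n (τ, fun _ => true) '' ort_G3 N) ⊆
        Finset.univ.image fun e : Equiv.Perm (Fin N) => σ ∘ e := by
      intro τ hτ
      obtain ⟨hτ, hy'⟩ := Finset.mem_filter.1 hτ
      obtain ⟨e, he⟩ := perm_H3 (hd τ hτ) (h1 τ hτ) (h1 σ hσ) (h2 τ hτ) (h2 σ hσ) (h3 σ hσ) hy' hy
      exact Finset.mem_image.2 ⟨e, Finset.mem_univ e, he⟩
    refine (Finset.card_le_card h5).trans (Finset.card_image_le.trans_eq ?_)
    rw [Finset.card_univ, Fintype.card_perm, Fintype.card_fin]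
  simp only [indicator_apply]
  rw [← Finset.sum_filter, Finset.sum_const, nsmul_eq_mul]
  exact mul_le_mul_left (Nat.cast_le.2 h4) _

end Pool.Agent.MP_5f4cdd_gt.LJ

end

section

set_option autoImplicit false
open Set MeasureTheory Metric Filter Topology
open scoped ENNReal Real Matrix

namespace Pool.Agent.MP_5f4cdd_gt.LJ

theorem le_hs_Asym {N : ℕ} {K : Set (Fin N → ℝ)} (hK : IsCompact K) {x : Fin N → ℝ} (hx : x ∈ K)
    (y : Fin N → ℝ) : ∑ i, x i * y i ≤ hs K y :=
  le_csSup (hK.image (by fun_prop)).bddAbove (mem_image_of_mem _ hx)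

theorem hs_le_Asym {N : ℕ} {K : Set (Fin N → ℝ)} (hne : K.Nonempty) {y : Fin N → ℝ} {c : ℝ}
    (h : ∀ x ∈ K, ∑ i, x i * y i ≤ c) : hs K y ≤ c := by
  refine csSup_le (hne.image _) ?_
  rintro _ ⟨x, hx, rfl⟩
  exact h x hx

theorem zero_Asym {N : ℕ} {K : Set (Fin N → ℝ)} (hc : Convex ℝ K) (hi : (interior K).Nonempty)
    {a : ℝ} (ha : 1 ≤ a) (hs : ∀ x ∈ K, -(a⁻¹ • x) ∈ K) : (0 : Fin N → ℝ) ∈ interior K := by
  obtain ⟨x, hx⟩ := hi
  have h := hc.combo_interior_self_mem_interior hx (hs x (interior_subset hx))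
    (a := 1 / (1 + a)) (b := a / (1 + a)) (by positivity) (by positivity) (by field_simp)
  have e : (1 / (1 + a)) • x + (a / (1 + a)) • -(a⁻¹ • x) = 0 := by
    rw [smul_neg, smul_smul]
    have : a / (1 + a) * a⁻¹ = 1 / (1 + a) := by field_simp
    rw [this, add_neg_cancel]
  rwa [e] at h

theorem dot_le_Asym {N : ℕ} {K : Set (Fin N → ℝ)} (hK : IsCompact K)
    (h0 : (0 : Fin N → ℝ) ∈ interior K) {a : ℝ} (ha : 1 ≤ a) (hs' : ∀ x ∈ K, -(a⁻¹ • x) ∈ K)
    {x y : Fin N → ℝ} (h : (hs K y + hs K (-y)) * ∑ i, x i * y i ≤ hs K y * hs K (-y)) :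
    (1 + a) * ∑ i, x i * y i ≤ a * hs K y := by
  have h0' : (0 : Fin N → ℝ) ∈ K := interior_subset h0
  have ha0 : 0 < a := by linarith
  have p1 : 0 ≤ hs K y := by simpa using le_hs_Asym hK h0' y
  have p2 : 0 ≤ hs K (-y) := by simpa using le_hs_Asym hK h0' (-y)
  have p3 : hs K (-y) ≤ a * hs K y := by
    refine hs_le_Asym ⟨0, h0'⟩ fun z hz => ?_
    have h1 := mul_le_mul_of_nonneg_left (le_hs_Asym hK (hs' z hz) y) ha0.le
    refine le_trans (le_of_eq ?_) h1
    rw [Finset.mul_sum]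
    refine Finset.sum_congr rfl fun i _ => ?_
    simp only [Pi.neg_apply, Pi.smul_apply, smul_eq_mul]
    field_simp
  by_contra hcon
  rw [not_le] at hcon
  have hx : 0 < ∑ i, x i * y i := by
    have : 0 < (1 + a) * ∑ i, x i * y i := lt_of_le_of_lt (by positivity) hcon
    exact (mul_pos_iff_of_pos_left (by linarith)).1 this
  have p4 : 0 < hs K y := by
    have ht : Tendsto (fun t : ℝ => t • x) (𝓝[>] 0) (𝓝 0) := by
      have : Continuous fun t : ℝ => t • x := by fun_prop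
      simpa using (this.tendsto 0).mono_left nhdsWithin_le_nhds
    obtain ⟨t, ht1, ht2⟩ := ((ht.eventually (mem_interior_iff_mem_nhds.1 h0)).and
      self_mem_nhdsWithin).exists
    have h1 := le_hs_Asym hK ht1 y
    have e : ∑ i, (t • x) i * y i = t * ∑ i, x i * y i := by
      rw [Finset.mul_sum]
      exact Finset.sum_congr rfl fun i _ => by simp only [Pi.smul_apply, smul_eq_mul]; ring
    rw [e] at h1
    exact lt_of_lt_of_le (mul_pos ht2 hx) h1
  have q1 := mul_lt_mul_of_pos_left hcon (by linarith : 0 < hs K y + hs K (-y))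
  have q2 := mul_le_mul_of_nonneg_left h (by linarith : 0 ≤ 1 + a)
  have q3 := mul_le_mul_of_nonneg_left p3 p1
  nlinarith

theorem mem_Asym {N : ℕ} {K : Set (Fin N → ℝ)} (hc : Convex ℝ K) (hK : IsCompact K)
    (hne : K.Nonempty) {z : Fin N → ℝ} (h : ∀ y, ∑ i, z i * y i ≤ hs K y) : z ∈ K := by
  by_contra hz
  obtain ⟨f, u, h1, h2⟩ := geometric_hahn_banach_closed_point hc hK.isClosed hz
  have e : ∀ w : Fin N → ℝ, ∑ i, w i * f (Pi.single i 1) = f w := by
    intro w
    conv_rhs => rw [pi_eq_sum_univ' w, map_sum]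
    exact Finset.sum_congr rfl fun i _ => by rw [map_smul, smul_eq_mul]
  have h3 := h fun i => f (Pi.single i 1)
  have h4 : hs K (fun i => f (Pi.single i 1)) ≤ u :=
    hs_le_Asym hne fun x hx => by rw [e]; exact (h1 x hx).le
  rw [e] at h3
  linarith

open scoped Pointwise in
theorem asym_stmt (h : ChordStmt) : AsymStmt := by
  intro N K hc hK hi a ha hs'
  have ha0 : 0 < a := by linarith
  have h0 := zero_Asym hc hi ha hs'
  have hsub : {x : Fin N → ℝ | ∀ y, (hs K y + hs K (-y)) * ∑ i, x i * y i ≤ hs K y * hs K (-y)} ⊆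
      (a / (1 + a)) • K := by
    intro x hx
    refine ⟨((1 + a) / a) • x, mem_Asym hc hK ⟨0, interior_subset h0⟩ fun y => ?_, ?_⟩
    · have h1 := dot_le_Asym hK h0 ha hs' (hx y)
      have e : ∑ i, (((1 + a) / a) • x) i * y i = (1 + a) * (∑ i, x i * y i) / a := by
        rw [Finset.mul_sum, Finset.sum_div]
        exact Finset.sum_congr rfl fun i _ => by simp only [Pi.smul_apply, smul_eq_mul]; ring
      rw [e, div_le_iff₀ ha0]
      linarith
    · have : a / (1 + a) * ((1 + a) / a) = 1 := by field_simp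
      simp only [smul_smul, this, one_smul]
  have h1 := (h N K hK h0).trans (mul_le_mul_left (measure_mono hsub) _)
  rw [Measure.addHaar_smul, Module.finrank_fin_fun, abs_of_pos (by positivity)] at h1
  have h2 := mul_le_mul_right h1 (ENNReal.ofReal (((1 + a) / a) ^ N))
  have e1 : ENNReal.ofReal (((1 + a) / a) ^ N) * ENNReal.ofReal ((a / (1 + a)) ^ N) = 1 := by
    have : (1 + a) / a * (a / (1 + a)) = 1 := by field_simp
    rw [← ENNReal.ofReal_mul (by positivity), ← mul_pow, this, one_pow, ENNReal.ofReal_one]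
  have e2 : ENNReal.ofReal ((2 + 2 / a) ^ N) = ENNReal.ofReal (((1 + a) / a) ^ N) * 2 ^ N := by
    have : 2 + 2 / a = (1 + a) / a * 2 := by
      field_simp
      ring
    rw [this, mul_pow, ENNReal.ofReal_mul (by positivity), ENNReal.ofReal_pow zero_le_two,
      ENNReal.ofReal_ofNat]
  rw [← mul_assoc, ← mul_assoc, e1, one_mul] at h2
  rw [e2]
  exact h2

end Pool.Agent.MP_5f4cdd_gt.LJ

end

section

set_option autoImplicit false

namespace Pool.Agent.MP_5f4cdd_gt.LJ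

theorem lens_psiL : LensStmt :=
  lens_stmt inv_stmt (admL_stmt li2_stmt) (reL_stmt li2_stmt) (concL_stmt li2_stmt) maxP_stmt

theorem chord_mahler : ChordStmt :=
  chord_stmt lens_psiL h2_stmt h4_stmt (h5_stmtB lelong_jensen lens_psiL h1_stmt h3_stmt)

theorem asym_mahler : AsymStmt := asym_stmt chord_mahler

end Pool.Agent.MP_5f4cdd_gt.LJ

end
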