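import Pool.Agent.Mg.F5f4cddb.Ga13d99

set_option linter.all false

section

set_option autoImplicit false
open Finset MeasureTheory
open scoped Pointwise ENNReal

namespace Pool.Agent.MP_5f4cdd_gt.OK

section
variable {N : ℕ} (A B : Finset (Zn N)) (F : Type) [Field F]

/-- the map onto the Rees algebra -/
noncomputable def phi_Rees :
    MvPolynomial (A ⊕ B) F →ₐ[F] AddMonoidAlgebra (Lau F N) (ℕ × ℕ) :=
  MvPolynomial.aeval (Sum.elim
    (fun a : A => AddMonoidAlgebra.single (1, 0) (AddMonoidAlgebra.single (a : Zn N) 1))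
    (fun b : B => AddMonoidAlgebra.single (0, 1) (AddMonoidAlgebra.single (b : Zn N) 1)))

lemma key_Rees (p : AddMonoidAlgebra (Lau F N) (ℕ × ℕ))
    (hp : ∀ d : ℕ × ℕ, p.coeff d ∈ VV F (d.1 • A + d.2 • B)) (e d : ℕ × ℕ) (g : Lau F N) :
    ∃ h : Lau F N, (p * AddMonoidAlgebra.single e g).coeff d = h * g ∧
      (h = 0 ∨ (e.1 ≤ d.1 ∧ e.2 ≤ d.2 ∧ h ∈ VV F ((d.1 - e.1) • A + (d.2 - e.2) • B))) := by
  by_cases h : e.1 ≤ d.1 ∧ e.2 ≤ d.2
  · have hd : d = (d.1 - e.1, d.2 - e.2) + e := by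
      ext
      · simp [h.1]
      · simp [h.2]
    refine ⟨p.coeff (d.1 - e.1, d.2 - e.2), ?_, Or.inr ⟨h.1, h.2, hp (d.1 - e.1, d.2 - e.2)⟩⟩
    conv_lhs => rw [hd]
    exact AddMonoidAlgebra.coeff_mul_single_add _ _ _ _
  · refine ⟨0, ?_, Or.inl rfl⟩
    rw [zero_mul]
    refine AddMonoidAlgebra.coeff_mul_single_of_forall_add_ne _ _ fun u hu => h ?_
    subst hu
    simp

lemma step_Rees (hV : VStmt) (p : AddMonoidAlgebra (Lau F N) (ℕ × ℕ))
    (hp : ∀ d : ℕ × ℕ, p.coeff d ∈ VV F (d.1 • A + d.2 • B)) (e : ℕ × ℕ) (g : Lau F N)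
    (hg : g ∈ VV F (e.1 • A + e.2 • B)) (d : ℕ × ℕ) :
    (p * AddMonoidAlgebra.single e g).coeff d ∈ VV F (d.1 • A + d.2 • B) := by
  obtain ⟨h, h1, h2⟩ := key_Rees A B F p hp e d g
  rw [h1]
  rcases h2 with rfl | ⟨h2, h3, h4⟩
  · rw [zero_mul]
    exact Submodule.zero_mem _
  · have := hV.mul N F _ _ h h4 g hg
    rwa [add_add_add_comm, ← add_nsmul, ← add_nsmul, Nat.sub_add_cancel h2,
      Nat.sub_add_cancel h3] at this

lemma coeff_Rees (hV : VStmt) (t : MvPolynomial (A ⊕ B) F) :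
    ∀ d : ℕ × ℕ, (phi_Rees A B F t).coeff d ∈ VV F (d.1 • A + d.2 • B) := by
  induction t using MvPolynomial.induction_on with
  | C c =>
    intro d
    have h1 : phi_Rees A B F (MvPolynomial.C c) =
        AddMonoidAlgebra.single 0 (AddMonoidAlgebra.single 0 c) := by
      rw [phi_Rees, MvPolynomial.aeval_C]
      rfl
    rw [h1, AddMonoidAlgebra.coeff_single]
    by_cases hd : d = 0
    · subst hd
      rw [Finsupp.single_eq_same]
      exact hV.single N F _ _ (by simp) c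
    · rw [Finsupp.single_eq_of_ne hd]
      exact Submodule.zero_mem _
  | add p q hp hq =>
    intro d
    rw [map_add, AddMonoidAlgebra.coeff_add]
    exact Submodule.add_mem _ (hp d) (hq d)
  | mul_X p i hp =>
    rw [map_mul]
    rcases i with a | b
    · have h1 : phi_Rees A B F (MvPolynomial.X (Sum.inl a)) =
          AddMonoidAlgebra.single (1, 0) (AddMonoidAlgebra.single (a : Zn N) 1) := by
        rw [phi_Rees, MvPolynomial.aeval_X]
        rfl
      rw [h1]
      exact step_Rees A B F hV _ hp _ _ (hV.single N F _ _ (by simp) 1)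
    · have h1 : phi_Rees A B F (MvPolynomial.X (Sum.inr b)) =
          AddMonoidAlgebra.single (0, 1) (AddMonoidAlgebra.single (b : Zn N) 1) := by
        rw [phi_Rees, MvPolynomial.aeval_X]
        rfl
      rw [h1]
      exact step_Rees A B F hV _ hp _ _ (hV.single N F _ _ (by simp) 1)

lemma pow_Rees (S : Subalgebra F (AddMonoidAlgebra (Lau F N) (ℕ × ℕ))) (P : Finset (Zn N))
    (e : ℕ × ℕ) (hP : ∀ a ∈ P, AddMonoidAlgebra.single e (AddMonoidAlgebra.single a 1) ∈ S)
    (x : ℕ) : ∀ z ∈ x • P,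
      AddMonoidAlgebra.single (x • e) (AddMonoidAlgebra.single z 1) ∈ S := by
  induction x with
  | zero =>
    intro z hz
    rw [zero_nsmul, Finset.mem_zero] at hz
    subst hz
    rw [zero_nsmul]
    exact S.one_mem
  | succ x ih =>
    intro z hz
    rw [succ_nsmul, Finset.mem_add] at hz
    obtain ⟨u, hu, a, ha, rfl⟩ := hz
    have := S.mul_mem (ih u hu) (hP a ha)
    rwa [AddMonoidAlgebra.single_mul_single, AddMonoidAlgebra.single_mul_single, one_mul,
      ← succ_nsmul] at this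

lemma surj_Rees (x y : ℕ) (f : Lau F N) (hf : f ∈ VV F (x • A + y • B)) :
    AddMonoidAlgebra.single (x, y) f ∈ (phi_Rees A B F).range := by
  induction hf using Submodule.span_induction with
  | mem f hf =>
    obtain ⟨z, hz, rfl⟩ := hf
    obtain ⟨u, hu, v, hv, rfl⟩ := Finset.mem_add.1 (Finset.mem_coe.1 hz)
    have h1 := pow_Rees F (phi_Rees A B F).range A (1, 0) (fun a ha =>
      ⟨MvPolynomial.X (Sum.inl ⟨a, ha⟩), MvPolynomial.aeval_X _ _⟩) x u hu
    have h2 := pow_Rees F (phi_Rees A B F).range B (0, 1) (fun b hb =>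
      ⟨MvPolynomial.X (Sum.inr ⟨b, hb⟩), MvPolynomial.aeval_X _ _⟩) y v hv
    have := Subalgebra.mul_mem _ h1 h2
    rw [AddMonoidAlgebra.single_mul_single, AddMonoidAlgebra.single_mul_single, one_mul] at this
    simpa using this
  | zero =>
    rw [AddMonoidAlgebra.single_zero]
    exact Subalgebra.zero_mem _
  | add f g _ _ hf hg =>
    rw [AddMonoidAlgebra.single_add]
    exact Subalgebra.add_mem _ hf hg
  | smul c f _ hf =>
    rw [← AddMonoidAlgebra.smul_single]
    exact Subalgebra.smul_mem _ hf c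

end

theorem rees_stmt (hV : VStmt) : ReesStmt := by
  intro N A B F _ I
  classical
  let H : Set (MvPolynomial (A ⊕ B) F) := {t | ∃ (x y : ℕ) (g : Lau F N),
    (g ∈ I ∧ g ∈ VV F (x • A + y • B)) ∧ phi_Rees A B F t = AddMonoidAlgebra.single (x, y) g}
  have hfg : (Submodule.span (MvPolynomial (A ⊕ B) F) H).FG := IsNoetherian.noetherian _
  obtain ⟨s, hs, hsp⟩ := (Submodule.fg_span_iff_fg_span_finset_subset H).1 hfg
  have hs' : ∀ i : Fin s.card, ((s.equivFin.symm i : s) : MvPolynomial (A ⊕ B) F) ∈ H :=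
    fun i => hs (s.equivFin.symm i).2
  choose xs ys g hg hφ using hs'
  refine ⟨s.card, xs, ys, g, hg, fun x y f hf hI => ?_⟩
  obtain ⟨t, ht⟩ := surj_Rees A B F x y f hf
  have ht' : phi_Rees A B F t = AddMonoidAlgebra.single (x, y) f := ht
  have h1 : t ∈ Submodule.span (MvPolynomial (A ⊕ B) F) (s : Set (MvPolynomial (A ⊕ B) F)) :=
    hsp ▸ Submodule.subset_span ⟨x, y, f, ⟨hI, hf⟩, ht'⟩
  obtain ⟨c, -, hc⟩ := Submodule.mem_span_finset.1 h1
  choose h h2 h3 using fun i : Fin s.card =>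
    key_Rees A B F (phi_Rees A B F (c (s.equivFin.symm i))) (coeff_Rees A B F hV _)
      (xs i, ys i) (x, y) (g i)
  refine ⟨h, ?_, h3⟩
  have h4 : t = ∑ i : Fin s.card, c (s.equivFin.symm i) * (s.equivFin.symm i : s) := by
    rw [← hc, ← Finset.sum_coe_sort s, ← s.equivFin.symm.sum_comp]
    rfl
  have h5 : (phi_Rees A B F t).coeff (x, y) = f := by
    rw [ht', AddMonoidAlgebra.coeff_single, Finsupp.single_eq_same]
  rw [← h5, h4, map_sum, AddMonoidAlgebra.coeff_sum, Finsupp.finsetSum_apply]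
  refine Finset.sum_congr rfl fun i _ => ?_
  rw [map_mul, hφ, h2]

end Pool.Agent.MP_5f4cdd_gt.OK

end

section

set_option autoImplicit false
open Finset MeasureTheory
open scoped Pointwise ENNReal

namespace Pool.Agent.MP_5f4cdd_gt.OK

theorem pigeon_Div {N : ℕ} (A : Finset (Zn N)) (t : ℕ) : ∀ κ : Zn N → ℕ, ∑ a ∈ A, κ a < t →
    ∀ u ∈ t • A, ∃ a ∈ A, ∃ t1 : ℕ, t = κ a + t1 ∧ ∃ u1 ∈ t1 • A, u = κ a • a + u1 := by
  induction t with
  | zero => intro κ h; omega
  | succ t ih =>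
    intro κ h u hu
    have hu' := hu
    rw [succ_nsmul, Finset.mem_add] at hu'
    obtain ⟨u', hu1, b, hb, rfl⟩ := hu'
    rcases Nat.eq_zero_or_pos (κ b) with h0 | h0
    · exact ⟨b, hb, t + 1, by omega, u' + b, hu, by rw [h0, zero_nsmul, zero_add]⟩
    · obtain ⟨m, hm⟩ : ∃ m, κ b = m + 1 := ⟨κ b - 1, by omega⟩
      have h1 : ∑ a ∈ A, Function.update κ b m a < t := by
        rw [sum_update_of_mem hb, sdiff_singleton_eq_erase]
        rw [← add_sum_erase A κ hb] at h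
        omega
      obtain ⟨a, ha, t1, ht1, u1, hu2, rfl⟩ := ih _ h1 u' hu1
      by_cases hab : a = b
      · subst hab
        rw [Function.update_self] at ht1 ⊢
        exact ⟨a, ha, t1, by omega, u1, hu2, by rw [hm, succ_nsmul]; abel⟩
      · rw [Function.update_of_ne hab] at ht1 ⊢
        refine ⟨a, ha, t1 + 1, by omega, u1 + b, ?_, by abel⟩
        rw [succ_nsmul]
        exact add_mem_add hu2 hb

variable {N : ℕ} {A : Finset (Zn N)} {F R : Type} [Field F] [Field R] [Algebra F R]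

/-- the Laurent polynomials whose expansion lies in the ideal of the first `j` variables -/
def I_Div (v : Val A F R) (j : ℕ) : Ideal (Lau F N) where
  carrier := {f | Van j (v.Ψ f)}
  zero_mem' := fun γ _ => by simp
  add_mem' := fun {f g} hf hg γ hγ => by
    rw [map_add, map_add, hf γ hγ, hg γ hγ, add_zero]
  smul_mem' := fun c f hf γ hγ => by
    classical
    rw [smul_eq_mul, map_mul, MvPowerSeries.coeff_mul]
    refine sum_eq_zero fun p hp => ?_
    rw [hf p.2 fun l hl => ?_, mul_zero]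
    have h1 := DFunLike.congr_fun (mem_antidiagonal.1 hp) l
    rw [Finsupp.add_apply, hγ l hl] at h1
    omega

/-- the combinations of the first `j` coordinates with coefficients supported in `P` -/
def W_Div (v : Val A F R) (j : ℕ) (P : Finset (Zn N)) : Submodule F (Lau F N) where
  carrier := {f | ∃ g : Fin N → Lau F N, (∀ l, g l ∈ VV F P) ∧
    (∀ l : Fin N, j ≤ (l : ℕ) → g l = 0) ∧ f = ∑ l, v.s l * g l}
  zero_mem' := ⟨0, fun _ => zero_mem _, fun _ _ => rfl, by simp⟩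
  add_mem' := by
    rintro _ _ ⟨g, h1, h2, rfl⟩ ⟨g', h1', h2', rfl⟩
    refine ⟨g + g', fun l => add_mem (h1 l) (h1' l), fun l hl => ?_, ?_⟩
    · rw [Pi.add_apply, h2 l hl, h2' l hl, add_zero]
    · simp only [Pi.add_apply, mul_add, sum_add_distrib]
  smul_mem' := by
    rintro c _ ⟨g, h1, h2, rfl⟩
    refine ⟨c • g, fun l => Submodule.smul_mem _ c (h1 l), fun l hl => ?_, ?_⟩
    · rw [Pi.smul_apply, h2 l hl, smul_zero]
    · simp only [Pi.smul_apply, smul_sum, mul_smul_comm]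

theorem W_mul_Div (hV : VStmt) (v : Val A F R) (j : ℕ) {P Q : Finset (Zn N)} {h f : Lau F N}
    (hh : h ∈ VV F Q) (hf : f ∈ W_Div v j P) : h * f ∈ W_Div v j (Q + P) := by
  obtain ⟨g, h1, h2, rfl⟩ := hf
  refine ⟨fun l => h * g l, fun l => hV.mul N F Q P h hh _ (h1 l), fun l hl => ?_, ?_⟩
  · simp only [h2 l hl, mul_zero]
  · rw [mul_sum]
    exact sum_congr rfl fun l _ => mul_left_comm _ _ _

theorem one_Div (hV : VStmt) (hR : ReesStmt) (B : Finset (Zn N)) (v : Val A F R) (j : ℕ) :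
    ∃ x0 : ℕ, ∀ x y : ℕ, x0 ≤ x → ∀ f ∈ VV F ((x + 1) • A + y • B), Van j (v.Ψ f) →
      f ∈ W_Div v j (x • A + y • B) := by
  obtain ⟨r, xs, ys, g, hg, hgen⟩ := hR N A B F (I_Div v j)
  have hs : ∀ (i : Fin r) (a : Zn N), ∃ k : ℕ, a ∈ A →
      AddMonoidAlgebra.single ((k + 1) • a) 1 * g i ∈
        W_Div v j (k • A + (xs i • A + ys i • B)) := by
    intro i a
    by_cases ha : a ∈ A
    · obtain ⟨k, hk⟩ := v.sat j a ha _ (g i) (hg i).2 (hg i).1
      exact ⟨k, fun _ => hk⟩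
    · exact ⟨0, fun h => absurd h ha⟩
  choose k hk using hs
  refine ⟨∑ i, (xs i + ∑ a ∈ A, (k i a + 1)), fun x y hx f hf hvan => ?_⟩
  obtain ⟨h, rfl, hh⟩ := hgen (x + 1) y f hf hvan
  refine Submodule.sum_mem _ fun i _ => ?_
  rcases hh i with h0 | ⟨h1, h2, h3⟩
  · rw [h0, zero_mul]
    exact zero_mem _
  have h4 : xs i + ∑ a ∈ A, (k i a + 1) ≤ x :=
    (single_le_sum (f := fun i => xs i + ∑ a ∈ A, (k i a + 1)) (fun _ _ => Nat.zero_le _)
      (mem_univ i)).trans hx
  generalize h i = p at h3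
  induction h3 using Submodule.span_induction with
  | mem p hp =>
    obtain ⟨z, hz, rfl⟩ := hp
    obtain ⟨u, hu, w, hw, rfl⟩ := Finset.mem_add.1 (Finset.mem_coe.1 hz)
    obtain ⟨a, ha, t1, ht1, u1, hu1, rfl⟩ :=
      pigeon_Div A _ (fun a => k i a + 1) (by omega) u hu
    have h5 := W_mul_Div hV v j (hV.single N F _ _ (add_mem_add hu1 hw) 1) (hk i a ha)
    have e1 : t1 • A + (y - ys i) • B + (k i a • A + (xs i • A + ys i • B)) = x • A + y • B := by
      have e2 : x = t1 + (k i a + xs i) := by omega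
      have e3 : y = y - ys i + ys i := by omega
      conv_rhs => rw [e2, e3, add_nsmul, add_nsmul, add_nsmul]
      abel
    rw [e1, ← mul_assoc, AddMonoidAlgebra.single_mul_single, one_mul] at h5
    have e4 : (k i a + 1) • a + u1 + w = u1 + w + (k i a + 1) • a := by abel
    simp only [e4]
    exact h5
  | zero =>
    rw [zero_mul]
    exact zero_mem _
  | add p q _ _ hp hq =>
    rw [add_mul]
    exact add_mem hp hq
  | smul c p _ hp =>
    rw [smul_mul_assoc]
    exact Submodule.smul_mem _ c hp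

theorem div_stmt (hV : VStmt) (hR : ReesStmt) : DivStmt := by
  intro N A B F R _ _ _ v
  choose x0 hx0 using one_Div hV hR B v
  refine ⟨∑ j ∈ range (N + 1), x0 j, fun j x y hx f hf hvan => ?_⟩
  have h1 : x0 (min j N) ≤ x :=
    (single_le_sum (f := x0) (fun _ _ => Nat.zero_le _)
      (mem_range.2 (Nat.lt_succ_of_le (min_le_right _ _)))).trans hx
  obtain ⟨g, h2, h3, h4⟩ := hx0 (min j N) x y h1 f hf fun γ hγ =>
    hvan γ fun l hl => hγ l (lt_min hl l.2)
  exact ⟨g, h2, fun l hl => h3 l ((min_le_left _ _).trans hl), h4⟩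

end Pool.Agent.MP_5f4cdd_gt.OK

end

section

set_option autoImplicit false
open Finset MeasureTheory
open scoped Pointwise ENNReal

namespace Pool.Agent.MP_5f4cdd_gt.OK

variable {N : ℕ}

section

variable {F : Type} [Field F]

/-- bounded exponents after multiplication by a power of the monomial `a` -/
def W_Sat (A : Finset (Zn N)) (a : Zn N) (P : Finset (Zn N)) (w : Lau F N) : Prop :=
  ∃ k : ℕ, AddMonoidAlgebra.single (k • a) 1 * w ∈ VV F (k • A + P)

/-- combinations of the first `j` local coordinates -/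
def M_Sat (A : Finset (Zn N)) (a : Zn N) (s : Fin N → Lau F N) (j : ℕ) (P : Finset (Zn N))
    (w : Lau F N) : Prop :=
  ∃ g : Fin N → Lau F N, (∀ l, W_Sat A a P (g l)) ∧ (∀ l : Fin N, j ≤ (l : ℕ) → g l = 0) ∧
    AddMonoidAlgebra.single a 1 * w = ∑ l, s l * g l

variable {A P Q : Finset (Zn N)} {a : Zn N} {s : Fin N → Lau F N} {j : ℕ} {w w' : Lau F N}

theorem e_add_Sat (x y : Zn N) : (AddMonoidAlgebra.single (x + y) 1 : Lau F N) =
    AddMonoidAlgebra.single x 1 * AddMonoidAlgebra.single y 1 := by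
  rw [AddMonoidAlgebra.single_mul_single, one_mul]

theorem ev_Sat (hV : VStmt) (ha : a ∈ A) (h : W_Sat A a P w) :
    ∀ᶠ k : ℕ in Filter.atTop, AddMonoidAlgebra.single (k • a) 1 * w ∈ VV F (k • A + P) := by
  obtain ⟨k, hk⟩ := h
  refine Filter.eventually_atTop.2 ⟨k, fun m hm => ?_⟩
  induction m, hm using Nat.le_induction with
  | base => exact hk
  | succ m _ ih =>
    have := hV.mul N F A _ _ (hV.single N F A a ha 1) _ ih
    rwa [← mul_assoc, ← e_add_Sat, ← add_assoc, ← succ_nsmul', ← succ_nsmul'] at this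

theorem wof_Sat (h : w ∈ VV F P) : W_Sat A a P w :=
  ⟨0, by rwa [zero_nsmul, zero_nsmul, zero_add, ← AddMonoidAlgebra.one_def, one_mul]⟩

theorem wadd_Sat (hV : VStmt) (ha : a ∈ A) (h : W_Sat A a P w) (h' : W_Sat A a P w') :
    W_Sat A a P (w + w') := by
  obtain ⟨k, h1, h2⟩ := ((ev_Sat hV ha h).and (ev_Sat hV ha h')).exists
  exact ⟨k, by rw [mul_add]; exact add_mem h1 h2⟩

theorem wneg_Sat (h : W_Sat A a P w) : W_Sat A a P (-w) := by
  obtain ⟨k, h1⟩ := h
  exact ⟨k, by rw [mul_neg]; exact neg_mem h1⟩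

theorem wmul_Sat (hV : VStmt) (h : W_Sat A a P w) (h' : W_Sat A a Q w') :
    W_Sat A a (P + Q) (w * w') := by
  obtain ⟨k, h1⟩ := h
  obtain ⟨m, h2⟩ := h'
  refine ⟨k + m, ?_⟩
  have := hV.mul N F _ _ _ h1 _ h2
  rwa [mul_mul_mul_comm, ← e_add_Sat, add_add_add_comm, ← add_nsmul, ← add_nsmul] at this

theorem wc_Sat (hV : VStmt) (c : F) : W_Sat A a 0 (algebraMap F (Lau F N) c) :=
  wof_Sat (hV.single N F 0 0 Finset.zero_mem_zero c)

theorem mzero_Sat : M_Sat A a s j P 0 :=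
  ⟨0, fun _ => wof_Sat (zero_mem _), fun _ _ => rfl, by simp⟩

theorem madd_Sat (hV : VStmt) (ha : a ∈ A) (h : M_Sat A a s j P w) (h' : M_Sat A a s j P w') :
    M_Sat A a s j P (w + w') := by
  obtain ⟨g, g1, g2, g3⟩ := h
  obtain ⟨g', g1', g2', g3'⟩ := h'
  refine ⟨fun l => g l + g' l, fun l => wadd_Sat hV ha (g1 l) (g1' l), fun l hl => ?_, ?_⟩
  · simp only [g2 l hl, g2' l hl, add_zero]
  · simp only [mul_add, sum_add_distrib, g3, g3']

theorem mmul_Sat (hV : VStmt) (h : M_Sat A a s j P w) (h' : W_Sat A a Q w') :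
    M_Sat A a s j (P + Q) (w * w') := by
  obtain ⟨g, g1, g2, g3⟩ := h
  refine ⟨fun l => g l * w', fun l => wmul_Sat hV (g1 l) h', fun l hl => ?_, ?_⟩
  · simp only [g2 l hl, zero_mul]
  · simp only [← mul_assoc, g3, sum_mul]

theorem mfin_Sat (hV : VStmt) (ha : a ∈ A) (h : M_Sat A a s j P w) :
    ∃ (k : ℕ) (g : Fin N → Lau F N), (∀ l, g l ∈ VV F (k • A + P)) ∧
      (∀ l : Fin N, j ≤ (l : ℕ) → g l = 0) ∧
      AddMonoidAlgebra.single ((k + 1) • a) 1 * w = ∑ l, s l * g l := by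
  obtain ⟨g, g1, g2, g3⟩ := h
  obtain ⟨k, hk⟩ := (Filter.eventually_all.2 fun l => ev_Sat hV ha (g1 l)).exists
  refine ⟨k, _, hk, fun l hl => by rw [g2 l hl, mul_zero], ?_⟩
  rw [succ_nsmul, e_add_Sat, mul_assoc, g3, mul_sum]
  exact sum_congr rfl fun l _ => mul_left_comm _ _ _

end

theorem van_Sat {R : Type} [CommRing R] {j : ℕ} (φ : MvPowerSeries (Fin N) R)
    {ψ : MvPowerSeries (Fin N) R} (h : Van j ψ) : Van j (φ * ψ) := by
  classical
  intro γ hγ
  rw [MvPowerSeries.coeff_mul]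
  refine sum_eq_zero fun p hp => ?_
  rw [h p.2 fun l hl => ?_, mul_zero]
  have := hγ l hl
  rw [← mem_antidiagonal.1 hp, Finsupp.add_apply] at this
  omega

theorem span_Sat {j : ℕ} {p : Ez N} (h : Van j (toPS p)) :
    p ∈ Ideal.span (MvPolynomial.X '' {l : Fin N | (l : ℕ) < j}) := by
  rw [MvPolynomial.mem_ideal_span_X_image]
  intro m hm
  by_contra hn
  refine MvPolynomial.mem_support_iff.1 hm (IsFractionRing.injective (Dz N) (Rz N) ?_)
  have := h m fun l hl => by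
    by_contra h0
    exact hn ⟨l, hl, h0⟩
  rw [toPS, RingHom.comp_apply, MvPolynomial.coeToMvPowerSeries.ringHom_apply,
    MvPolynomial.coeff_coe, MvPolynomial.coeff_map] at this
  rw [this, map_zero]

theorem evch_Sat (c : Fin N ⊕ (Fin N × Zn N) → Lau (Fz N) N) (z : Zn N) :
    evE c (MvPolynomial.C (chD z)) = AddMonoidAlgebra.single z 1 := by
  rw [evE, MvPolynomial.eval₂Hom_C, chD, MvPolynomial.eval₂Hom_C,
    AddMonoidAlgebra.mapRingHom_single, map_one]

theorem evl_Sat (c : Fin N ⊕ (Fin N × Zn N) → Lau (Fz N) N) (l : Fin N) :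
    evE c (MvPolynomial.X l) = c (Sum.inl l) := by
  rw [evE, MvPolynomial.eval₂Hom_X']

theorem evr_Sat (c : Fin N ⊕ (Fin N × Zn N) → Lau (Fz N) N) (t : Fin N × Zn N) :
    evE c (MvPolynomial.C (MvPolynomial.X t)) = c (Sum.inr t) := by
  rw [evE, MvPolynomial.eval₂Hom_C, MvPolynomial.eval₂Hom_X']

theorem evX_Sat (c : Fin N ⊕ (Fin N × Zn N) → Lau (Fz N) N) (t : Fin N ⊕ (Fin N × Zn N)) :
    evE c (jC (MvPolynomial.X t)) = c t := by
  rw [jC, MvPolynomial.aeval_X]
  cases t with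
  | inl l => exact evl_Sat c l
  | inr t => exact evr_Sat c t

theorem evC_Sat (c : Fin N ⊕ (Fin N × Zn N) → Lau (Fz N) N) (q : ℚ) :
    evE c (jC (MvPolynomial.C q)) = cL (MvPolynomial.C q) :=
  RingHom.congr_fun (RingHom.ext_rat (((evE c).comp (jC (N := N)).toRingHom).comp MvPolynomial.C)
    (cL.comp MvPolynomial.C)) q

/-- the correction of the variables -/
noncomputable def d_Sat (A : Finset (Zn N)) (a : Zn N) (j : ℕ) :
    Fin N ⊕ (Fin N × Zn N) → Lau (Fz N) N :=
  Sum.elim (fun _ => 0) fun t =>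
    if t.2 = a ∧ (t.1 : ℕ) < j then AddMonoidAlgebra.single (-a) 1 * sz A t.1 else 0

theorem cancel_Sat (a : Zn N) (w : Lau (Fz N) N) :
    AddMonoidAlgebra.single a 1 * (AddMonoidAlgebra.single (-a) 1 * w) = w := by
  rw [← mul_assoc, ← e_add_Sat, add_neg_cancel, ← AddMonoidAlgebra.one_def, one_mul]

theorem sat_stmt (hV : VStmt) (hI : IoStmt) : SatStmt := by
  intro N A Ψ h0 h1 hΨ j a ha P f hf hv
  have cw : ∀ δ : Cz N, W_Sat A a 0 (cL δ) := fun δ => wc_Sat hV _
  have sm : ∀ l, sz A l ∈ VV (Fz N) A := fun l => by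
    rw [hI.sz_eq]
    refine add_mem (sub_mem (hV.single N _ A 0 h0 _) (hV.single N _ A _ (h1 l) 1))
      (sum_mem fun b hb => ?_)
    have := hV.mul N _ A 0 _ (hV.single N (Fz N) A b hb 1) _
      (hV.single N (Fz N) 0 0 Finset.zero_mem_zero
        (algebraMap (Cz N) (Fz N) (MvPolynomial.X (Sum.inr (l, b)))))
    rwa [add_zero] at this
  have dd : ∀ t, W_Sat A a 0 (d_Sat A a j t) ∧ M_Sat A a (sz A) j 0 (d_Sat A a j t) := by
    rintro (l | ⟨l, b⟩)
    · exact ⟨wof_Sat (zero_mem _), mzero_Sat⟩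
    · simp only [d_Sat, Sum.elim_inr]
      split_ifs with h
      · refine ⟨⟨1, ?_⟩, Pi.single l 1, fun m => ?_, fun m hm => ?_, ?_⟩
        · rw [one_nsmul, one_nsmul, add_zero, cancel_Sat]
          exact sm l
        · rw [Pi.single_apply]
          split_ifs
          · exact map_one (algebraMap (Fz N) (Lau (Fz N) N)) ▸ wc_Sat hV 1
          · exact wof_Sat (zero_mem _)
        · exact Pi.single_eq_of_ne (fun e => by rw [e] at hm; omega) _
        · rw [cancel_Sat]
          simp [Pi.single_apply]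
      · exact ⟨wof_Sat (zero_mem _), mzero_Sat⟩
  set ev := evE fun t => cL (MvPolynomial.X t) - d_Sat A a j t with hev
  have key : ∀ δ : Cz N, W_Sat A a 0 (ev (jC δ)) ∧ M_Sat A a (sz A) j 0 (cL δ - ev (jC δ)) := by
    intro δ
    induction δ using MvPolynomial.induction_on with
    | C q =>
      rw [hev, evC_Sat, sub_self]
      exact ⟨cw _, mzero_Sat⟩
    | add p q hp hq =>
      rw [map_add, map_add, map_add, add_sub_add_comm]
      exact ⟨wadd_Sat hV ha hp.1 hq.1, madd_Sat hV ha hp.2 hq.2⟩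
    | mul_X p t hp =>
      rw [map_mul, map_mul, map_mul, show ev (jC (MvPolynomial.X t)) = _ from evX_Sat _ t]
      have a1 := wmul_Sat hV hp.1 (wadd_Sat hV ha (cw (MvPolynomial.X t)) (wneg_Sat (dd t).1))
      have a2 := madd_Sat hV ha (mmul_Sat hV hp.2 (cw (MvPolynomial.X t)))
        (mmul_Sat hV (dd t).2 hp.1)
      rw [add_zero] at a1 a2
      refine ⟨by rwa [sub_eq_add_neg], ?_⟩
      convert a2 using 1
      ring
  obtain ⟨δ, c, hδ, hc⟩ := hI.clear N f
  have v1 := van_Sat (Ψ (cL δ)) hv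
  rw [← map_mul, hc, hΨ] at v1
  have v2 : Ideal.span (MvPolynomial.X '' {l : Fin N | (l : ℕ) < j}) ≤
      RingHom.ker (ev.comp (unsh A).toRingHom) := by
    rw [Ideal.span_le]
    rintro _ ⟨l, hl, rfl⟩
    have e1 : unsh A (MvPolynomial.X l) = MvPolynomial.X l - MvPolynomial.C (uz A l) := by
      rw [unsh, MvPolynomial.aeval_X]
    have e2 : ∑ b ∈ A, AddMonoidAlgebra.single b 1 * d_Sat A a j (Sum.inr (l, b)) = sz A l := by
      rw [sum_eq_single_of_mem a ha fun b _ hb => by simp [d_Sat, hb]]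
      simp only [d_Sat, Sum.elim_inr]
      rw [if_pos ⟨trivial, hl⟩, cancel_Sat]
    change ev (unsh A (MvPolynomial.X l)) = 0
    rw [e1, uz]
    simp only [map_sub, map_sum, map_mul, hev, evch_Sat, evl_Sat, evr_Sat, mul_sub,
      sum_sub_distrib, e2]
    rw [hI.sz_eq]
    simp only [d_Sat, Sum.elim_inl]
    ring
  have v3 : ev (unsh A (sh A _)) = 0 := v2 (span_Sat v1)
  rw [hI.unsh_sh] at v3
  simp only [map_sum, map_mul, hI.jc, hI.ch] at hc
  simp only [map_sum, map_mul, show ∀ z, ev (MvPolynomial.C (chD z)) = _ from evch_Sat _] at v3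
  have m1 : M_Sat A a (sz A) j (0 + P) (cL δ * f) := by
    rw [hc, ← sub_zero (∑ z ∈ f.coeff.support, _), ← v3, ← sum_sub_distrib]
    refine sum_induction _ _ (fun _ _ => madd_Sat hV ha) mzero_Sat fun z hz => ?_
    rw [← sub_mul]
    exact mmul_Sat hV (key _).2 (wof_Sat (hV.single N _ P z ((hV.mem N _ P f).1 hf hz) 1))
  have m2 := mmul_Sat hV m1 (wc_Sat hV (algebraMap (Cz N) (Fz N) δ)⁻¹)
  have hδ' : algebraMap (Cz N) (Fz N) δ ≠ 0 :=
    fun e => hδ (IsFractionRing.injective (Cz N) (Fz N) (by rw [e, map_zero]))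
  rw [zero_add, add_zero, mul_right_comm, cL, RingHom.comp_apply, ← map_mul, mul_inv_cancel₀ hδ',
    map_one, one_mul] at m2
  exact mfin_Sat hV ha m2

end Pool.Agent.MP_5f4cdd_gt.OK

end

section

set_option autoImplicit false
open Finset MeasureTheory
open scoped Pointwise ENNReal

namespace Pool.Agent.MP_5f4cdd_gt.OK

theorem fact_le_Re (s : Finset ℕ) (hs : ∀ a ∈ s, 0 < a) : s.card.factorial ≤ ∏ a ∈ s, a := by
  induction s using Finset.induction_on_max with
  | empty => simp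
  | insert a s ha ih =>
    have h1 : a ∉ s := fun h => lt_irrefl a (ha a h)
    have h2 : s.card ≤ a - 1 := by
      have : s ⊆ Ioo 0 a := fun x hx => mem_Ioo.2 ⟨hs x (mem_insert_of_mem hx), ha x hx⟩
      simpa using card_le_card this
    have h3 := hs a (mem_insert_self a s)
    rw [card_insert_of_notMem h1, prod_insert h1, Nat.factorial_succ]
    exact Nat.mul_le_mul (by omega) (ih fun x hx => hs x (mem_insert_of_mem hx))

theorem prod_le_Re {N : ℕ} (f : Fin N → ℕ) (hf : Function.Injective f) (h0 : ∀ q, 0 < f q)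
    (hp : ∏ q, f q = N.factorial) (E : Finset (Fin N)) :
    ∑ q ∈ E, Real.log (f q) + Real.log (Eᶜ.card.factorial) ≤ Real.log N.factorial := by
  have h1 : Eᶜ.card.factorial ≤ ∏ q ∈ Eᶜ, f q := by
    have := fact_le_Re (Eᶜ.image f) (fun a ha => by
      obtain ⟨q, -, rfl⟩ := mem_image.1 ha
      exact h0 q)
    rwa [card_image_of_injective _ hf, prod_image fun x _ y _ h => hf h] at this
  have h2 : (∏ q ∈ E, f q) * Eᶜ.card.factorial ≤ N.factorial := by
    rw [← hp, ← prod_mul_prod_compl E]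
    exact Nat.mul_le_mul_left _ h1
  have h3 : (0 : ℝ) < ∏ q ∈ E, (f q : ℝ) := prod_pos fun q _ => by exact_mod_cast h0 q
  have h4 : (0 : ℝ) < Eᶜ.card.factorial := by exact_mod_cast Nat.factorial_pos _
  rw [← Real.log_prod fun q _ => by exact_mod_cast (h0 q).ne', ← Real.log_mul h3.ne' h4.ne']
  refine Real.log_le_log (mul_pos h3 h4) ?_
  exact_mod_cast h2

theorem choose_le_Re {N e : ℕ} (hN : 1 ≤ N) (he : e ≤ N) :
    Real.log N.factorial + e * Real.log (e / N) + (N - e : ℕ) * Real.log (1 - e / N) ≤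
      Real.log e.factorial + Real.log (N - e).factorial := by
  have hN0 : (0 : ℝ) < N := by exact_mod_cast hN
  have h0 : (0 : ℝ) ≤ e / N := by positivity
  have h1 : (0 : ℝ) ≤ 1 - e / N := by
    rw [sub_nonneg, div_le_one hN0]
    exact_mod_cast he
  have h2 : ((e : ℝ) / N) ^ e * (1 - e / N) ^ (N - e) * N.choose e ≤ 1 := by
    have h3 := add_pow ((e : ℝ) / N) (1 - e / N) N
    rw [add_sub_cancel, one_pow] at h3
    refine le_of_le_of_eq ?_ h3.symm
    exact single_le_sum (f := fun m => ((e : ℝ) / N) ^ m * (1 - e / N) ^ (N - m) * N.choose m)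
      (fun m _ => by positivity) (mem_range.2 (Nat.lt_succ_of_le he))
  have h4 : ((e : ℝ) / N) ^ e ≠ 0 := by
    rcases Nat.eq_zero_or_pos e with rfl | h
    · simp
    · have : (0 : ℝ) < e := by exact_mod_cast h
      positivity
  have h5 : (1 - (e : ℝ) / N) ^ (N - e) ≠ 0 := by
    rcases he.eq_or_lt with rfl | h
    · simp
    · refine pow_ne_zero _ (ne_of_gt ?_)
      rw [sub_pos, div_lt_one hN0]
      exact_mod_cast h
  have h6 : (N.choose e : ℝ) ≠ 0 := by exact_mod_cast (Nat.choose_pos he).ne'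
  have h7 := Real.log_nonpos (by positivity) h2
  rw [Real.log_mul (mul_ne_zero h4 h5) h6, Real.log_mul h4 h5, Real.log_pow, Real.log_pow] at h7
  have h8 : Real.log N.factorial =
      Real.log (N.choose e) + Real.log e.factorial + Real.log (N - e).factorial := by
    have a1 : (e.factorial : ℝ) ≠ 0 := by exact_mod_cast Nat.factorial_ne_zero _
    have a2 : ((N - e).factorial : ℝ) ≠ 0 := by exact_mod_cast Nat.factorial_ne_zero _
    rw [← Real.log_mul h6 a1, ← Real.log_mul (mul_ne_zero h6 a1) a2,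
      ← Nat.choose_mul_factorial_mul_factorial he]
    push_cast
    rfl
  linarith

theorem one_Re (hF : FactStmt) {N : ℕ} (hN : 1 ≤ N) (E : Finset (Fin N)) :
    (N : ℝ) - 1 - Real.log (N + 1) +
      (∑ q ∈ E, Real.log (1 - rq q) + ∑ q ∈ Eᶜ, Real.log (rq q)) ≤
    N * (-((E.card : ℝ) / N * Real.log (E.card / N)) -
      (1 - (E.card : ℝ) / N) * Real.log (1 - E.card / N)) := by
  have hN0 : (0 : ℝ) < N := by exact_mod_cast hN
  have he : E.card ≤ N := by simpa using card_le_univ E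
  have hc : Eᶜ.card = N - E.card := by simp [card_compl]
  have p1 : ∏ q : Fin N, ((q : ℕ) + 1) = N.factorial := by
    rw [Fin.prod_univ_eq_prod_range (fun q => q + 1) N, prod_range_add_one_eq_factorial]
  have p2 : ∏ q : Fin N, (N - (q : ℕ)) = N.factorial := by
    rw [← p1, ← Equiv.prod_comp Fin.revPerm]
    refine prod_congr rfl fun q _ => ?_
    have := q.2
    simp only [Fin.revPerm_apply, Fin.val_rev]
    omega
  have h1 := prod_le_Re (fun q : Fin N => (q : ℕ) + 1)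
    (fun x y h => Fin.ext (Nat.succ_injective h)) (fun q => Nat.succ_pos _) p1 Eᶜ
  have h2 := prod_le_Re (fun q : Fin N => N - (q : ℕ))
    (fun x y h => Fin.ext (by
      have h1 := x.2
      have h2 := y.2
      simp only at h
      omega)) (fun q => Nat.sub_pos_of_lt q.2) p2 E
  rw [compl_compl] at h1
  rw [hc] at h2
  have h3 := choose_le_Re hN he
  have h4 := (hF N).2
  have h5 : (N : ℝ) * Real.log N ≤ N * Real.log (N + 1) :=
    mul_le_mul_of_nonneg_left (Real.log_le_log hN0 (by linarith)) hN0.le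
  have e1 : ∑ q ∈ E, Real.log (1 - rq q) =
      ∑ q ∈ E, Real.log ((N - (q : ℕ) : ℕ) : ℝ) - E.card * Real.log (N + 1) := by
    rw [← nsmul_eq_mul, ← sum_const, ← sum_sub_distrib]
    refine sum_congr rfl fun q _ => ?_
    have a1 : ((N - (q : ℕ) : ℕ) : ℝ) ≠ 0 := by exact_mod_cast (Nat.sub_pos_of_lt q.2).ne'
    rw [← Real.log_div a1 (by positivity), Nat.cast_sub q.2.le, rq]
    congr 1
    field_simp
    ring
  have e2 : ∑ q ∈ Eᶜ, Real.log (rq q) =
      ∑ q ∈ Eᶜ, Real.log (((q : ℕ) + 1 : ℕ) : ℝ) - (N - E.card : ℕ) * Real.log (N + 1) := by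
    rw [← hc, ← nsmul_eq_mul, ← sum_const, ← sum_sub_distrib]
    refine sum_congr rfl fun q _ => ?_
    rw [← Real.log_div (by positivity) (by positivity), rq]
    push_cast
    rfl
  have e3 : (N : ℝ) * (-((E.card : ℝ) / N * Real.log (E.card / N)) -
      (1 - (E.card : ℝ) / N) * Real.log (1 - E.card / N)) =
      -(E.card * Real.log (E.card / N)) - (N - E.card) * Real.log (1 - E.card / N) := by
    field_simp
  rw [e1, e2, e3]
  rw [Nat.cast_sub he] at h3 ⊢
  linarith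

theorem re_stmt (hF : FactStmt) : ReStmt := by
  intro N hN l hl
  have hN0 : (0 : ℝ) < N := by exact_mod_cast hN
  have h1 : ∀ q : Fin N, (l q : ℝ) * Real.log (1 - rq q) + ((N - l q : ℕ) : ℝ) * Real.log (rq q) =
      ∑ j : Fin N, if (j : ℕ) < l q then Real.log (1 - rq q) else Real.log (rq q) := by
    intro q
    have a1 : (univ.filter fun j : Fin N => (j : ℕ) < l q).card = l q := by
      rw [Fin.card_filter_val_lt, min_eq_right (hl q)]
    have a2 := card_filter_add_card_filter_not (s := univ) fun j : Fin N => (j : ℕ) < l q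
    rw [a1, card_univ, Fintype.card_fin] at a2
    rw [sum_ite, sum_const, sum_const, a1, nsmul_eq_mul, nsmul_eq_mul,
      show (univ.filter fun j : Fin N => ¬ (j : ℕ) < l q).card = N - l q by omega]
  have h2 := sum_le_sum fun (j : Fin N) (_ : j ∈ univ) =>
    one_Re hF hN (univ.filter fun q => (j : ℕ) < l q)
  rw [sum_add_distrib, sum_const, card_univ, Fintype.card_fin, nsmul_eq_mul, ← mul_sum] at h2
  refine le_of_mul_le_mul_left (le_of_eq_of_le ?_ h2) hN0
  rw [mul_add, mul_div_cancel₀ _ hN0.ne', sum_congr rfl fun q _ => h1 q, sum_comm]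
  congr 1
  refine sum_congr rfl fun j _ => ?_
  rw [sum_ite, compl_filter]

end Pool.Agent.MP_5f4cdd_gt.OK

end

section

set_option autoImplicit false
open Finset MeasureTheory
open scoped Pointwise ENNReal
namespace Pool.Agent.MP_5f4cdd_gt.OK

/-- the half open unit box at a lattice point -/
def box_Cnt {N : ℕ} (z : Zn N) : Set (Rn N) :=
  Set.pi Set.univ fun i => Set.Ico (z i : ℝ) (z i + 1)

theorem mem_box_Cnt {N : ℕ} (z : Zn N) (x : Rn N) : x ∈ box_Cnt z ↔ fl x = z := by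
  unfold box_Cnt fl
  constructor
  · intro h
    funext i
    have := h i (Set.mem_univ i)
    exact Int.floor_eq_iff.2 ⟨this.1, this.2⟩
  · intro h i _
    have := Int.floor_eq_iff.1 (congrFun h i)
    exact ⟨this.1, this.2⟩

theorem vol_box_Cnt {N : ℕ} (z : Zn N) : volume (box_Cnt z) = 1 := by
  unfold box_Cnt
  rw [Real.volume_pi_Ico]
  simp

theorem meas_box_Cnt {N : ℕ} (z : Zn N) : MeasurableSet (box_Cnt z) :=
  MeasurableSet.univ_pi fun _ => measurableSet_Ico

theorem lo_Cnt (N : ℕ) (S : Finset (Zn N)) (X : Set (Rn N)) (h : ∀ x ∈ X, fl x ∈ S) :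
    volume X ≤ (S.card : ℝ≥0∞) := by
  have hsub : X ⊆ ⋃ z ∈ S, box_Cnt z := by
    intro x hx
    exact Set.mem_iUnion₂.2 ⟨fl x, h x hx, (mem_box_Cnt _ _).2 rfl⟩
  refine (measure_mono hsub).trans ((measure_biUnion_finset_le S box_Cnt).trans ?_)
  simp [vol_box_Cnt]

theorem hi_Cnt (N : ℕ) (S : Finset (Zn N)) (X : Set (Rn N)) (v : Rn N) (α : ℝ) (hα : 0 < α)
    (h : ∀ z ∈ S, ∀ t : Rn N, (∀ i, 0 ≤ t i ∧ t i ≤ 1) → ∃ p ∈ X, cst z + t = v + α • p) :
    (S.card : ℝ≥0∞) ≤ ENNReal.ofReal (α ^ N) * volume X := by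
  have hdis : (S : Set (Zn N)).PairwiseDisjoint box_Cnt := by
    intro a _ b _ hab
    refine Set.disjoint_left.2 fun x hxa hxb => hab ?_
    rw [← (mem_box_Cnt a x).1 hxa, ← (mem_box_Cnt b x).1 hxb]
  have hU : volume (⋃ z ∈ S, box_Cnt z) = (S.card : ℝ≥0∞) := by
    rw [measure_biUnion_finset hdis fun z _ => meas_box_Cnt z]
    simp [vol_box_Cnt]
  have hsub : (⋃ z ∈ S, box_Cnt z) ⊆ v +ᵥ α • X := by
    intro x hx
    obtain ⟨z, hz, hxz⟩ := Set.mem_iUnion₂.1 hx
    obtain ⟨p, hp, hpe⟩ := h z hz (x - cst z) (by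
      intro i
      have := hxz i (Set.mem_univ i)
      simp only [Pi.sub_apply, cst]
      constructor <;> linarith [this.1, this.2])
    refine ⟨α • p, ⟨p, hp, rfl⟩, ?_⟩
    simp only [vadd_eq_add]
    rw [← hpe]
    abel
  rw [← hU]
  refine (measure_mono hsub).trans ?_
  rw [measure_vadd, Measure.addHaar_smul, Module.finrank_fin_fun, abs_of_pos (pow_pos hα N)]

theorem fin_Cnt (N : ℕ) (c : ℤ) (T : Set (Zn N)) (h : ∀ z ∈ T, ∀ i, -c ≤ z i ∧ z i ≤ c) :
    T.Finite := by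
  refine (Fintype.piFinset fun _ : Fin N => Finset.Icc (-c) c).finite_toSet.subset ?_
  intro z hz
  simp only [Finset.mem_coe, Fintype.mem_piFinset, Finset.mem_Icc]
  exact h z hz

theorem bd_Cnt (N : ℕ) (X : Set (Rn N)) (hX : Bornology.IsBounded X) :
    ∃ c : ℤ, ∀ x ∈ X, ∀ i, -(c : ℝ) ≤ x i ∧ x i ≤ c := by
  obtain ⟨C, hC⟩ := hX.exists_norm_le
  refine ⟨⌈C⌉, fun x hx i => ?_⟩
  have h1 : |x i| ≤ C := (norm_le_pi_norm x i).trans (hC x hx)
  have h2 := Int.le_ceil C
  have h3 := abs_le.1 h1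
  constructor <;> linarith [h3.1, h3.2]

theorem lat_Cnt (N : ℕ) (X : Set (Rn N)) (hX : Bornology.IsBounded X) :
    ∃ A : Finset (Zn N), ∀ z, z ∈ A ↔ cst z ∈ X := by
  obtain ⟨c, hc⟩ := bd_Cnt N X hX
  have hf : {z : Zn N | cst z ∈ X}.Finite := by
    refine fin_Cnt N c _ fun z hz i => ?_
    have := hc _ hz i
    simp only [cst] at this
    exact ⟨by exact_mod_cast this.1, by exact_mod_cast this.2⟩
  exact ⟨hf.toFinset, fun z => by simp⟩

theorem flo_Cnt (N : ℕ) (X : Set (Rn N)) (hX : Bornology.IsBounded X) :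
    ∃ A : Finset (Zn N), ∀ z, z ∈ A ↔ ∃ x ∈ X, z = fl x := by
  obtain ⟨c, hc⟩ := bd_Cnt N X hX
  have hf : {z : Zn N | ∃ x ∈ X, z = fl x}.Finite := by
    refine fin_Cnt N c _ ?_
    rintro z ⟨x, hx, rfl⟩ i
    have := hc x hx i
    refine ⟨Int.le_floor.2 (by push_cast; exact this.1), ?_⟩
    have h2 : ((⌊x i⌋ : ℤ) : ℝ) ≤ c := (Int.floor_le (x i)).trans this.2
    exact_mod_cast h2
  exact ⟨hf.toFinset, fun z => by simp⟩

theorem cube_Cnt (N : ℕ) (A : Finset (Zn N)) (b : Zn N)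
    (hA : ∀ e : Zn N, (∀ i, e i = 0 ∨ e i = 1) → b + e ∈ A) (x : ℕ) :
    ∀ z : Zn N, (∀ i, (x : ℤ) * b i ≤ z i ∧ z i ≤ x * b i + x) → z ∈ x • A := by
  induction x with
  | zero =>
    intro z hz
    rw [zero_nsmul, Finset.mem_zero]
    funext i
    have := hz i
    simp only [Nat.cast_zero, zero_mul, add_zero] at this
    exact le_antisymm this.2 this.1
  | succ x ih =>
    intro z hz
    rw [succ_nsmul]
    let e : Zn N := fun i => if ((x : ℤ) + 1) * b i < z i then 1 else 0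
    have he : ∀ i, e i = 0 ∨ e i = 1 := by
      intro i
      by_cases h : ((x : ℤ) + 1) * b i < z i
      · exact Or.inr (if_pos h)
      · exact Or.inl (if_neg h)
    refine Finset.mem_add.2 ⟨z - (b + e), ih _ fun i => ?_, b + e, hA e he, sub_add_cancel _ _⟩
    have h0 := hz i
    push_cast at h0
    simp only [Pi.sub_apply, Pi.add_apply]
    by_cases h : ((x : ℤ) + 1) * b i < z i
    · have : e i = 1 := if_pos h
      rw [this]
      constructor <;> linarith [h0.1, h0.2]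
    · have : e i = 0 := if_neg h
      rw [this]
      have hx : (0 : ℤ) ≤ x := Int.natCast_nonneg x
      constructor <;> linarith [h0.1, h0.2, not_lt.1 h]

theorem near_Cnt (N : ℕ) (A : Finset (Zn N)) (p : Rn N)
    (hA : ∀ z : Zn N, ‖cst z - p‖ ≤ 1 → z ∈ A) (e : Zn N) (he : ∀ i, e i = 0 ∨ e i = 1) :
    fl p + e ∈ A := by
  refine hA _ ((pi_norm_le_iff_of_nonneg zero_le_one).2 fun i => ?_)
  simp only [Pi.sub_apply, cst, Pi.add_apply, fl, Real.norm_eq_abs]
  have h1 := Int.floor_le (p i)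
  have h2 := Int.lt_floor_add_one (p i)
  rcases he i with h | h <;> rw [h] <;> push_cast <;> refine abs_le.2 ⟨?_, ?_⟩ <;> linarith

theorem fill_Cnt (N : ℕ) (A B : Finset (Zn N)) (p q : Rn N) (x y : ℕ)
    (hA : ∀ z : Zn N, ‖cst z - p‖ ≤ 1 → z ∈ A) (hB : ∀ z : Zn N, ‖cst z - q‖ ≤ 1 → z ∈ B) :
    fl ((x : ℝ) • p + (y : ℝ) • q) ∈ x • A + y • B := by
  have hx : (0 : ℝ) ≤ x := Nat.cast_nonneg x
  have hy : (0 : ℝ) ≤ y := Nat.cast_nonneg y
  refine Finset.mem_add.2 ⟨fl ((x : ℝ) • p), cube_Cnt N A (fl p) (near_Cnt N A p hA) x _ fun i => ?_,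
    fl ((x : ℝ) • p + (y : ℝ) • q) - fl ((x : ℝ) • p),
    cube_Cnt N B (fl q) (near_Cnt N B q hB) y _ fun i => ?_, add_sub_cancel _ _⟩
  · simp only [fl, Pi.smul_apply, smul_eq_mul]
    have h1 := mul_le_mul_of_nonneg_left (Int.floor_le (p i)) hx
    have h2 := mul_le_mul_of_nonneg_left (Int.lt_floor_add_one (p i)).le hx
    have h3 := Int.floor_le ((x : ℝ) * p i)
    constructor
    · exact Int.le_floor.2 (by push_cast; exact h1)
    · have : ((⌊(x : ℝ) * p i⌋ : ℤ) : ℝ) ≤ ((x : ℤ) * ⌊p i⌋ + x : ℤ) := by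
        push_cast
        linarith
      exact_mod_cast this
  · simp only [fl, Pi.smul_apply, smul_eq_mul, Pi.sub_apply, Pi.add_apply]
    have h1 := mul_le_mul_of_nonneg_left (Int.floor_le (q i)) hy
    have h2 := mul_le_mul_of_nonneg_left (Int.lt_floor_add_one (q i)).le hy
    have h3 := Int.floor_le ((x : ℝ) * p i)
    have h4 := Int.lt_floor_add_one ((x : ℝ) * p i)
    have h5 := Int.floor_le ((x : ℝ) * p i + y * q i)
    constructor
    · rw [le_sub_iff_add_le]
      exact Int.le_floor.2 (by push_cast; linarith)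
    · have : ((⌊(x : ℝ) * p i + y * q i⌋ - ⌊(x : ℝ) * p i⌋ : ℤ) : ℝ) <
          ((y : ℤ) * ⌊q i⌋ + y + 1 : ℤ) := by
        push_cast
        linarith
      have h6 : ⌊(x : ℝ) * p i + y * q i⌋ - ⌊(x : ℝ) * p i⌋ < (y : ℤ) * ⌊q i⌋ + y + 1 := by
        exact_mod_cast this
      exact Int.lt_add_one_iff.1 h6

theorem conv_Cnt (N : ℕ) (A : Finset (Zn N)) (X : Set (Rn N)) (hX : Convex ℝ X)
    (hne : X.Nonempty) (hA : ∀ z ∈ A, cst z ∈ X) (x : ℕ) :
    ∀ z ∈ x • A, ∃ p ∈ X, cst z = (x : ℝ) • p := by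
  induction x with
  | zero =>
    intro z hz
    rw [zero_nsmul, Finset.mem_zero] at hz
    obtain ⟨p, hp⟩ := hne
    refine ⟨p, hp, ?_⟩
    funext i
    simp [hz, cst]
  | succ x ih =>
    intro z hz
    rw [succ_nsmul] at hz
    obtain ⟨z', hz', a, ha, rfl⟩ := Finset.mem_add.1 hz
    obtain ⟨p, hp, hpe⟩ := ih z' hz'
    have hx : (0 : ℝ) ≤ x := Nat.cast_nonneg x
    have hx1 : (0 : ℝ) < x + 1 := by linarith
    refine ⟨((x : ℝ) / (x + 1)) • p + (1 / ((x : ℝ) + 1)) • cst a,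
      hX hp (hA a ha) (by positivity) (by positivity) (by field_simp), ?_⟩
    funext i
    have := congrFun hpe i
    simp only [cst, Pi.smul_apply, smul_eq_mul, Pi.add_apply] at this ⊢
    push_cast
    rw [this]
    field_simp

theorem cnt_stmt : CntStmt where
  lo := lo_Cnt
  hi := hi_Cnt
  lat := lat_Cnt
  flo := flo_Cnt
  fill := fun N A B p q x y _ hA hB => fill_Cnt N A B p q x y hA hB
  conv := conv_Cnt

end Pool.Agent.MP_5f4cdd_gt.OK

end

section

set_option autoImplicit false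
open Finset MeasureTheory
open scoped Pointwise ENNReal
namespace Pool.Agent.MP_5f4cdd_gt.OK

theorem nsmul_ne_Core {N : ℕ} (A : Finset (Zn N)) (hA : A.Nonempty) (k : ℕ) :
    (k • A).Nonempty := by
  induction k with
  | zero => rw [zero_nsmul]; exact Finset.zero_nonempty
  | succ k ih => rw [succ_nsmul]; exact ih.add hA

theorem up_Core {N : ℕ} {A B : Finset (Zn N)} (Φ : Flag A B) (X : Finset (Zn N))
    (hX : X.Nonempty) :
    Real.log (Φ.G X).card ≤ Real.log (X + Φ.P0).card - Real.log Φ.d := by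
  have h1 : 0 < (Φ.G X).card := Finset.card_pos.mpr ⟨0, Φ.zero X hX⟩
  have h1' : (0 : ℝ) < (Φ.G X).card := by exact_mod_cast h1
  have hd : (0 : ℝ) < Φ.d := by exact_mod_cast Φ.d_pos
  have h2 : (Φ.d : ℝ) * (Φ.G X).card ≤ (X + Φ.P0).card := by exact_mod_cast Φ.hi X
  have h3 := Real.log_le_log (mul_pos hd h1') h2
  rw [Real.log_mul hd.ne' h1'.ne'] at h3
  linarith

theorem lo_Core {N : ℕ} {A B : Finset (Zn N)} (Φ : Flag A B) (X : Finset (Zn N))
    (hX : X.Nonempty) :
    Real.log X.card - Real.log Φ.d ≤ Real.log (Φ.G X).card := by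
  have h1 : 0 < (Φ.G X).card := Finset.card_pos.mpr ⟨0, Φ.zero X hX⟩
  have h1' : (0 : ℝ) < (Φ.G X).card := by exact_mod_cast h1
  have hd : (0 : ℝ) < Φ.d := by exact_mod_cast Φ.d_pos
  have h0 : (0 : ℝ) < X.card := by exact_mod_cast Finset.card_pos.mpr hX
  have h2 : (X.card : ℝ) ≤ (Φ.d : ℝ) * (Φ.G X).card := by exact_mod_cast Φ.lo X
  have h3 := Real.log_le_log h0 h2
  rw [Real.log_mul hd.ne' h1'.ne'] at h3
  linarith

theorem split_Core (c : ℝ) (hc : 0 < c) (l : ℕ) :
    (l : ℝ) * Real.log (c * l) = l * Real.log c + l * Real.log l := by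
  rcases Nat.eq_zero_or_pos l with h | h
  · subst h; simp
  · have : (0 : ℝ) < l := by exact_mod_cast h
    rw [Real.log_mul hc.ne' this.ne']; ring

theorem one_Core (hF : FactStmt) (N l i : ℕ) (hN : 1 ≤ N) (hli : l + i = N)
    (σ τ m d s : ℕ) (μ r : ℝ) (hσ : 0 < σ) (hτ : 0 < τ) (hm : 0 < m) (hd : 0 < d)
    (hμ : 0 < μ) (hr0 : 0 < r) (hr1 : r < 1)
    (h : μ * N.factorial * (m : ℝ) ^ i ≤
      Real.exp 2 * (N + 1) ^ 2 * ((1 - r) ^ l * r ^ i) * (d * s) * i.factorial) :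
    Real.log μ - 4 - 4 * Real.log (N + 1) - Real.log d +
      (i : ℝ) * Real.log (N ^ 2 * τ * m) + (l : ℝ) * Real.log (N ^ 2 * σ) ≤
    ((l : ℝ) * Real.log (N * σ * l) - Real.log l.factorial) +
      (Real.log s + (i : ℝ) * Real.log (N * τ * i)) +
      ((l : ℝ) * Real.log (1 - r) + (i : ℝ) * Real.log r) := by
  have hN' : (0 : ℝ) < N := by exact_mod_cast hN
  have hσ' : (0 : ℝ) < σ := by exact_mod_cast hσ
  have hτ' : (0 : ℝ) < τ := by exact_mod_cast hτ
  have hm' : (0 : ℝ) < m := by exact_mod_cast hm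
  have hd' : (0 : ℝ) < d := by exact_mod_cast hd
  have hNf : (0 : ℝ) < N.factorial := by exact_mod_cast N.factorial_pos
  have hif : (0 : ℝ) < i.factorial := by exact_mod_cast i.factorial_pos
  have h1r : 0 < 1 - r := by linarith
  have hL : 0 < μ * N.factorial * (m : ℝ) ^ i := by positivity
  have hs : (0 : ℝ) < s := by
    rcases Nat.eq_zero_or_pos s with h0 | h0
    · subst h0
      simp only [Nat.cast_zero, mul_zero, zero_mul] at h
      linarith
    · exact_mod_cast h0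
  have h2 := Real.log_le_log hL h
  rw [Real.log_mul (by positivity) (by positivity), Real.log_mul hμ.ne' hNf.ne', Real.log_pow,
    Real.log_mul (by positivity) hif.ne', Real.log_mul (by positivity) (by positivity),
    Real.log_mul (by positivity) (by positivity), Real.log_mul (by positivity) (by positivity),
    Real.log_exp, Real.log_pow, Real.log_mul (by positivity) (by positivity), Real.log_pow,
    Real.log_pow, Real.log_mul hd'.ne' hs.ne'] at h2
  have e1 := split_Core ((N : ℝ) * σ) (by positivity) l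
  have e2 := split_Core ((N : ℝ) * τ) (by positivity) i
  have e3 : Real.log ((N : ℝ) ^ 2 * τ * m) = Real.log N + Real.log (N * τ) + Real.log m := by
    rw [Real.log_mul (by positivity) hm'.ne', Real.log_mul (by positivity) hτ'.ne', Real.log_pow,
      Real.log_mul hN'.ne' hτ'.ne']
    push_cast; ring
  have e4 : Real.log ((N : ℝ) ^ 2 * σ) = Real.log N + Real.log (N * σ) := by
    rw [Real.log_mul (by positivity) hσ'.ne', Real.log_pow, Real.log_mul hN'.ne' hσ'.ne']
    push_cast; ring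
  have f1 := (hF l).2
  have f2 := (hF i).2
  have f3 := (hF N).1
  have hsum : (l : ℝ) + i = N := by exact_mod_cast hli
  have hl0 : (0 : ℝ) ≤ l := Nat.cast_nonneg l
  have hi0 : (0 : ℝ) ≤ i := Nat.cast_nonneg i
  have g1 : Real.log ((l : ℝ) + 1) ≤ Real.log (N + 1) :=
    Real.log_le_log (by positivity) (by linarith)
  have g2 : Real.log ((i : ℝ) + 1) ≤ Real.log (N + 1) :=
    Real.log_le_log (by positivity) (by linarith)
  have g3 : (N : ℝ) * Real.log N = l * Real.log N + i * Real.log N := by rw [← hsum]; ring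
  rw [e1, e2, e3, e4]
  push_cast at h2
  nlinarith

theorem core_stmt (hE : EntStmt) (hA : ASideStmt) (hB : BSideStmt) (hF : FactStmt)
    (hR : ReStmt) : CoreStmt := by
  intro N A B Φ hN h0A h0B Λ hΛ l hl σ τ m μ hσ hτ hm hμ hyp
  have hN' : (0 : ℝ) < N := by exact_mod_cast hN
  have a1 := hA N A B Φ hN h0A Λ hΛ l hl σ hσ
  have b1 := hB N A B Φ hN h0A h0B Λ hΛ l hl τ m hτ
  have r1 := hR N hN l hl
  have hAne : A.Nonempty := ⟨0, h0A⟩
  have hBne : B.Nonempty := ⟨0, h0B⟩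
  have u1 := up_Core Φ (Λ + (σ * ∑ q, l q + N * (N + 1)) • A)
    (hΛ.add (nsmul_ne_Core A hAne _))
  have u2 := up_Core Φ (Λ + (τ * ∑ q, (N - l q) + N) • (Φ.x0 • A + m • B) +
      (N * (τ * ∑ q, (N - l q) + N + 1)) • A)
    ((hΛ.add (nsmul_ne_Core _ ((nsmul_ne_Core A hAne _).add (nsmul_ne_Core B hBne _)) _)).add
      (nsmul_ne_Core A hAne _))
  have l1 := lo_Core Φ Λ hΛ
  have s1 := hE.sum N (Φ.G Λ) ⟨0, Φ.zero Λ hΛ⟩
  have key : ∀ q : Fin N, Real.log (μ q) - 4 - 4 * Real.log (N + 1) - Real.log Φ.d +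
      ((N - l q : ℕ) : ℝ) * Real.log (N ^ 2 * τ * m) + (l q : ℝ) * Real.log (N ^ 2 * σ) ≤
    ((l q : ℝ) * Real.log (N * σ * l q) - Real.log (l q).factorial) +
      (Real.log (slice Φ m (l q)).card +
        ((N - l q : ℕ) : ℝ) * Real.log (N * τ * (N - l q : ℕ))) +
      ((l q : ℝ) * Real.log (1 - rq q) + ((N - l q : ℕ) : ℝ) * Real.log (rq q)) := by
    intro q
    have hq : ((q : ℕ) : ℝ) < N := by exact_mod_cast q.2
    refine one_Core hF N (l q) (N - l q) hN (by have := hl q; omega) σ τ m Φ.d _ (μ q) (rq q)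
      hσ hτ hm Φ.d_pos (hμ q) ?_ ?_ (hyp q)
    · unfold rq; positivity
    · unfold rq
      rw [div_lt_one (by positivity)]
      linarith
  have ks := Finset.sum_le_sum fun q (_ : q ∈ (univ : Finset (Fin N))) => key q
  have kd := div_le_div_of_nonneg_right ks hN'.le
  have eL : (∑ q : Fin N, (Real.log (μ q) - 4 - 4 * Real.log (N + 1) - Real.log Φ.d +
      ((N - l q : ℕ) : ℝ) * Real.log (N ^ 2 * τ * m) + (l q : ℝ) * Real.log (N ^ 2 * σ))) / N =
      (∑ q, Real.log (μ q)) / N - 4 - 4 * Real.log (N + 1) - Real.log Φ.d +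
      ((∑ q, (N - l q) : ℕ) : ℝ) / N * Real.log (N ^ 2 * τ * m) +
      ((∑ q, l q : ℕ) : ℝ) / N * Real.log (N ^ 2 * σ) := by
    rw [Nat.cast_sum, Nat.cast_sum]
    simp only [Finset.sum_add_distrib, Finset.sum_sub_distrib, Finset.sum_const, Finset.card_univ,
      Fintype.card_fin, nsmul_eq_mul, ← Finset.sum_mul]
    field_simp
  rw [eL, Finset.sum_add_distrib, Finset.sum_add_distrib, add_div, add_div] at kd
  have eE : ∑ j : Fin N, (1 - rho l j) * (ent (Φ.G Λ) j - Real.log (1 - rho l j)) +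
      ∑ j : Fin N, rho l j * (ent (Φ.G Λ) j - Real.log (rho l j)) =
      ∑ j : Fin N, ent (Φ.G Λ) j +
      ∑ j : Fin N, (-(rho l j * Real.log (rho l j)) - (1 - rho l j) * Real.log (1 - rho l j)) := by
    rw [← Finset.sum_add_distrib, ← Finset.sum_add_distrib]
    exact Finset.sum_congr rfl fun j _ => by ring
  linarith

end Pool.Agent.MP_5f4cdd_gt.OK

end

section

set_option autoImplicit false
open Finset MeasureTheory
open scoped Pointwise ENNReal

namespace Pool.Agent.MP_5f4cdd_gt.OK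

lemma mem_near_TB0 {N : ℕ} {A : Finset (Zn N)} {K : Set (Rn N)} (hA : Near A K)
    (h0 : (0 : Rn N) ∈ K) {z : Zn N} (hz : ‖cst z‖ ≤ 1) : z ∈ A :=
  (hA z).2 (Metric.mem_cthickening_of_dist_le _ 0 _ _ h0 (by rwa [dist_zero_right]))

lemma zero_near_TB0 {N : ℕ} {A : Finset (Zn N)} {K : Set (Rn N)} (hA : Near A K)
    (h0 : (0 : Rn N) ∈ K) : (0 : Zn N) ∈ A := by
  refine mem_near_TB0 hA h0 ((pi_norm_le_iff_of_nonneg zero_le_one).2 fun i => ?_)
  simp [cst]

lemma unit_near_TB0 {N : ℕ} {A : Finset (Zn N)} {K : Set (Rn N)} (hA : Near A K)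
    (h0 : (0 : Rn N) ∈ K) (j : Fin N) : (Pi.single j 1 : Zn N) ∈ A := by
  refine mem_near_TB0 hA h0 ((pi_norm_le_iff_of_nonneg zero_le_one).2 fun i => ?_)
  by_cases h : i = j
  · subst h; simp [cst]
  · simp [cst, h]

lemma log_side_TB0 {N : ℕ} {S : Finset (Zn N)} (hS : S.Nonempty) {x V : ℝ} (hx : 0 < x)
    (h : (S.card : ℝ) ≤ x ^ N * V) :
    0 < V ∧ Real.log S.card ≤ N * Real.log x + Real.log V := by
  have h1 : (0 : ℝ) < S.card := by exact_mod_cast hS.card_pos
  have h2 : 0 < x ^ N := pow_pos hx N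
  have h3 : 0 < V := (pos_iff_pos_of_mul_pos (h1.trans_le h)).1 h2
  refine ⟨h3, (Real.log_le_log h1 h).trans_eq ?_⟩
  rw [Real.log_mul h2.ne' h3.ne', Real.log_pow]

theorem tb0_stmt (hAlg : AlgStmt) (hC : CntStmt) (hS : SelStmt) (hUA : UAStmt) (hUB : UBStmt)
    (hCore : CoreStmt) (hO : OptStmt) : TB0Stmt := by
  intro N K K' L h1 h2 μ v hN hK hK' hh1 hh2 hL1 hL2 hμ
  have hN0 : (0 : ℝ) < N := by exact_mod_cast hN
  rcases (measureReal_nonneg (μ := (volume : Measure (Rn N))) (s := L)).eq_or_lt with hV | hV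
  · rw [← hV, zero_mul, zero_mul]
    have := measureReal_nonneg (μ := (volume : Measure (Rn N))) (s := Metric.cthickening 1 K)
    have := measureReal_nonneg (μ := (volume : Measure (Rn N))) (s := Metric.cthickening 2 K')
    positivity
  have hLne : L.Nonempty := by
    rw [Set.nonempty_iff_ne_empty]
    rintro rfl
    simp at hV
  have hLb : Bornology.IsBounded L := by
    refine (hK.cpt.isBounded.smul₀ h1).subset fun x hx => ?_
    obtain ⟨p, hp, rfl⟩ := hL1 x hx
    exact Set.smul_mem_smul_set hp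
  obtain ⟨A, hA⟩ := hC.lat N _ (hK.cpt.isBounded.cthickening (δ := 1))
  obtain ⟨B, hB⟩ := hC.lat N _ (hK'.cpt.isBounded.cthickening (δ := 1))
  have hA' : Near A K := hA
  have hB' : Near B K' := hB
  have hA0 := zero_near_TB0 hA' hK.zero
  have hB0 := zero_near_TB0 hB' hK'.zero
  obtain ⟨Φ⟩ := hAlg N A B hA0 (unit_near_TB0 hA' hK.zero)
  obtain ⟨cA, hcA, hUA'⟩ := hUA N K L A Φ.P0 h1 hK hA' hh1 hL1
  obtain ⟨m0, cB, hcB, hUB'⟩ := hUB N K K' L A B Φ.P0 h2 v Φ.x0 hK hK' hA' hB' hh2 hL2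
  set m := max m0 (N ^ 2 * (N + 1) ^ 2) with hm
  have hm1 : 1 ≤ m := le_max_of_le_right (Nat.succ_le_of_lt (by positivity))
  have hr0 : ∀ q : Fin N, 0 < rq q := fun q => by unfold rq; positivity
  have hr1 : ∀ q : Fin N, 1 / ((N : ℝ) + 1) ≤ 1 - rq q := fun q => by
    have : ((q : ℕ) : ℝ) + 1 ≤ N := by exact_mod_cast q.2
    unfold rq
    rw [le_sub_iff_add_le, ← add_div, div_le_one (by positivity)]
    linarith
  choose l hl hl2 using fun q : Fin N =>
    hS N K K' A B Φ m (rq q) hN hK hK' hA' hB' (le_max_right _ _) (hr0 q) (hr1 q)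
  set I := ∑ q, (N - l q) with hI
  set J := ∑ q, l q with hJ
  have hIJ : I + J = N ^ 2 := by
    rw [hI, hJ, ← sum_add_distrib, sum_congr rfl fun q _ => Nat.sub_add_cancel (hl q)]
    simp [sq]
  obtain ⟨M, σ, τ, hM, hσ, hτ, hopt⟩ := hO N I J m h1 h2 (N * (N + 1) + cA) (N * m + cB) hN hIJ
    hm1 hh1 hh2 (by positivity) (by positivity)
  have hM0 : (0 : ℝ) < M := by exact_mod_cast hM
  obtain ⟨Λ, hΛ⟩ := hC.flo N ((M : ℝ) • L) (hLb.smul₀ _)
  have hΛ' : ∀ z ∈ Λ, ∃ x ∈ L, z = fl ((M : ℝ) • x) := fun z hz => by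
    obtain ⟨_, ⟨x, hx, rfl⟩, h⟩ := (hΛ z).1 hz
    exact ⟨x, hx, h⟩
  have hΛne : Λ.Nonempty := by
    obtain ⟨x, hx⟩ := hLne
    exact ⟨_, (hΛ _).2 ⟨_, Set.smul_mem_smul_set hx, rfl⟩⟩
  have hvol : (M : ℝ) ^ N * volume.real L ≤ Λ.card := by
    have h := hC.lo N Λ ((M : ℝ) • L) fun x hx => (hΛ _).2 ⟨x, hx, rfl⟩
    rw [Measure.addHaar_smul_of_nonneg _ hM0.le] at h
    have h' := ENNReal.toReal_mono (by simp) h
    rw [ENNReal.toReal_mul, ENNReal.toReal_ofReal (by positivity)] at h'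
    simpa [Measure.real] using h'
  have hlogΛ : N * Real.log M + Real.log (volume.real L) ≤ Real.log Λ.card := by
    rw [← Real.log_pow, ← Real.log_mul (by positivity) hV.ne']
    exact Real.log_le_log (by positivity) hvol
  have hP0 : Φ.P0.Nonempty := by
    have h := Φ.hi Λ
    have h' : 0 < (Φ.G Λ).card := card_pos.2 ⟨0, Φ.zero Λ hΛne⟩
    have h'' : 0 < (Λ + Φ.P0).card := (Nat.mul_pos Φ.d_pos h').trans_le h
    exact (card_pos.1 h'').of_add_right
  have hn : ∀ (t : ℕ) (X : Finset (Zn N)), (0 : Zn N) ∈ X → (t • X).Nonempty := fun t X hX =>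
    ⟨0, by simpa using Finset.nsmul_mem_nsmul (n := t) hX⟩
  have hAB : (0 : Zn N) ∈ Φ.x0 • A + m • B := by
    have := add_mem_add (Finset.nsmul_mem_nsmul (n := Φ.x0) hA0)
      (Finset.nsmul_mem_nsmul (n := m) hB0)
    simpa using this
  have hcore := hCore N A B Φ hN hA0 hB0 Λ hΛne l hl σ τ m μ hσ hτ hm1 (fun q => (hμ q).1)
    fun q => le_trans (mul_le_mul_of_nonneg_right (mul_le_mul_of_nonneg_right (hμ q).2
      (by positivity)) (by positivity)) (hl2 q)
  rw [← hI, ← hJ] at hcore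
  obtain ⟨hV1, ha⟩ := log_side_TB0 ((hΛne.add (hn _ _ hA0)).add hP0) (by positivity)
    (hUA' M (σ * J + N * (N + 1)) Λ hM hΛ')
  obtain ⟨hV2, hb⟩ := log_side_TB0 (((hΛne.add (hn _ _ hAB)).add (hn _ _ hA0)).add hP0)
    (by positivity) (hUB' m M (τ * I + N) Λ (le_max_left _ _) hM hΛ')
  have e1 : (M : ℝ) * h1 + ((σ * J + N * (N + 1) : ℕ) : ℝ) + cA =
      M * h1 + σ * J + (N * (N + 1) + cA) := by push_cast; ring
  have e2 : (M : ℝ) * h2 + ((τ * I + N : ℕ) : ℝ) * m + cB =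
      M * h2 + τ * I * m + (N * m + cB) := by push_cast; ring
  rw [e1] at ha
  rw [e2] at hb
  have hh : 0 < h1 + h2 := by positivity
  rw [← Real.log_le_log_iff (by positivity) (by positivity), Real.log_mul (by positivity)
    (by positivity), Real.log_mul (by positivity) (by positivity), Real.log_mul (by positivity)
    (by positivity), Real.log_mul (by positivity) (by positivity), Real.log_mul (by positivity)
    (by positivity), Real.log_mul hV1.ne' hV2.ne', Real.log_exp, Real.log_exp, Real.log_exp,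
    Real.log_pow, Real.log_pow]
  push_cast at hcore hopt ⊢
  linarith

end Pool.Agent.MP_5f4cdd_gt.OK

end
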