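import Pool.Agent.Mg.F5f4cddb.Ga13d99

set_option linter.all false

section

set_option autoImplicit false
open Finset MeasureTheory
open scoped Pointwise ENNReal
namespace Pool.Agent.MP_5f4cdd_gt.OK

section
variable {N : ℕ} {R : Type} [Field R]

theorem ord_Alg {φ : MvPowerSeries (Fin N) R} {γ : Fin N →₀ ℕ}
    (h1 : MvPowerSeries.coeff γ φ ≠ 0)
    (h2 : ∀ δ : Fin N →₀ ℕ, toLex δ < toLex γ → MvPowerSeries.coeff δ φ = 0) :
    MvPowerSeries.lexOrder φ = ((toLex γ : Lex (Fin N →₀ ℕ)) : WithTop _) :=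
  le_antisymm (MvPowerSeries.lexOrder_le_of_coeff_ne_zero h1)
    (MvPowerSeries.le_lexOrder_iff.2 fun δ hδ => h2 δ (WithTop.coe_lt_coe.1 hδ))

theorem lt_Alg {γ δ : Fin N →₀ ℕ} {j : Fin N} (h1 : ∀ l, l < j → γ l = 0) (h2 : γ j ≠ 0)
    (h3 : ∀ l : Fin N, (l : ℕ) < j + 1 → δ l = 0) : toLex δ < toLex γ := by
  refine Finsupp.Lex.lt_iff.2 ⟨j, fun l hl => ?_, ?_⟩
  · change δ l = γ l
    rw [h1 l hl, h3 l (Nat.lt_succ_of_lt hl)]
  · change δ j < γ j
    rw [h3 j (Nat.lt_succ_self _)]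
    exact Nat.pos_of_ne_zero h2

theorem low_Alg {γ δ : Fin N →₀ ℕ} {j : Fin N} (h1 : ∀ l, l < j → γ l = 0)
    (h : toLex δ < toLex γ) : ∀ l, l < j → δ l = 0 := by
  obtain ⟨i, hi1, hi2⟩ := Finsupp.Lex.lt_iff.1 h
  have hi2' : δ i < γ i := hi2
  have hji : j ≤ i := by
    by_contra hc
    rw [h1 i (not_le.1 hc)] at hi2'
    exact Nat.not_lt_zero _ hi2'
  intro l hl
  have : δ l = γ l := hi1 l (lt_of_lt_of_le hl hji)
  rw [this, h1 l hl]

theorem coeff_Alg (ψ : Fin N → MvPowerSeries (Fin N) R) (j : Fin N)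
    (hψ : ∀ l : Fin N, (j : ℕ) + 1 ≤ l → ψ l = 0) (δ : Fin N →₀ ℕ) (hδ : ∀ l, l < j → δ l = 0) :
    MvPowerSeries.coeff (Finsupp.single j 1 + δ) (∑ l, MvPowerSeries.X l * ψ l) =
      MvPowerSeries.coeff δ (ψ j) := by
  rw [map_sum, Finset.sum_eq_single j]
  · rw [MvPowerSeries.X_def, MvPowerSeries.coeff_add_monomial_mul, one_mul]
  · intro l _ hl
    rcases lt_or_gt_of_ne hl with h | h
    · rw [MvPowerSeries.X_def, MvPowerSeries.coeff_monomial_mul, if_neg]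
      intro hle
      have := hle l
      rw [Finsupp.add_apply, hδ l h, Finsupp.single_eq_same, Finsupp.single_eq_of_ne hl] at this
      exact absurd this (by norm_num)
    · rw [hψ l h, mul_zero, map_zero]
  · intro h
    exact absurd (Finset.mem_univ j) h

theorem div_Alg (ψ : Fin N → MvPowerSeries (Fin N) R) (j : Fin N)
    (hψ : ∀ l : Fin N, (j : ℕ) + 1 ≤ l → ψ l = 0) (γ : Fin N →₀ ℕ) (hγ : ∀ l, l < j → γ l = 0)
    (h : MvPowerSeries.lexOrder (∑ l, MvPowerSeries.X l * ψ l) =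
      ((toLex (Finsupp.single j 1 + γ) : Lex (Fin N →₀ ℕ)) : WithTop _)) :
    MvPowerSeries.lexOrder (ψ j) = ((toLex γ : Lex (Fin N →₀ ℕ)) : WithTop _) := by
  refine ord_Alg ?_ fun δ hδ => ?_
  · rw [← coeff_Alg ψ j hψ γ hγ]
    exact MvPowerSeries.coeff_ne_zero_of_lexOrder h.symm
  · rw [← coeff_Alg ψ j hψ δ (low_Alg hγ hδ)]
    refine MvPowerSeries.coeff_eq_zero_of_lt_lexOrder ?_
    rw [h, WithTop.coe_lt_coe, toLex_add, toLex_add]
    exact add_lt_add_right hδ _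

theorem X_Alg (j : Fin N) : MvPowerSeries.lexOrder (MvPowerSeries.X j : MvPowerSeries (Fin N) R) =
    ((toLex (Finsupp.single j 1) : Lex (Fin N →₀ ℕ)) : WithTop _) := by
  refine ord_Alg ?_ fun δ hδ => ?_
  · rw [MvPowerSeries.coeff_index_single_self_X]
    exact one_ne_zero
  · rw [MvPowerSeries.coeff_X, if_neg]
    rintro rfl
    exact lt_irrefl _ hδ

theorem unit_Alg {φ : MvPowerSeries (Fin N) R} (h : IsUnit φ) :
    MvPowerSeries.lexOrder φ = ((toLex (0 : Fin N →₀ ℕ) : Lex (Fin N →₀ ℕ)) : WithTop _) := by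
  refine ord_Alg ?_ fun δ hδ => ?_
  · rw [MvPowerSeries.coeff_zero_eq_constantCoeff_apply]
    exact (h.map MvPowerSeries.constantCoeff).ne_zero
  · obtain ⟨i, -, hi⟩ := Finsupp.Lex.lt_iff.1 hδ
    exact absurd hi (Nat.not_lt_zero _)

end

/-- the orders of the elements of `VV F P` -/
def Gam_Alg {N : ℕ} {A : Finset (Zn N)} {F R : Type} [Field F] [Field R] [Algebra F R]
    (v : Val A F R) (P : Finset (Zn N)) : Set (Fin N →₀ ℕ) :=
  {γ | ∃ f ∈ VV F P, MvPowerSeries.lexOrder (v.Ψ f) = ((toLex γ : Lex (Fin N →₀ ℕ)) : WithTop _)}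

theorem card_Alg (hV : VStmt) (hI : IndStmt) {N : ℕ} {A : Finset (Zn N)} {F R : Type} [Field F]
    [Field R] [Algebra F R] (v : Val A F R) {d : ℕ} (h : Fin d → Lau F N) (P0 : Finset (Zn N))
    (hP0 : ∀ k, h k ∈ VV F P0)
    (hli : LinearIndependent F (fun k => MvPowerSeries.constantCoeff (v.Ψ (h k))))
    (P : Finset (Zn N)) (T : Finset (Fin N →₀ ℕ)) (hT : ∀ γ ∈ T, γ ∈ Gam_Alg v P) :
    d * T.card ≤ (P + P0).card := by
  choose f hf hf' using fun γ : T => hT γ.1 γ.2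
  have h1 := hI N A F R v T (Fin d) Subtype.val f h Subtype.val_injective hf' hli
  have := hV.fin N F (P + P0)
  have h2 : LinearIndependent F fun p : T × Fin d =>
      (⟨f p.1 * h p.2, hV.mul N F P P0 _ (hf p.1) _ (hP0 p.2)⟩ : VV F (P + P0)) :=
    LinearIndependent.of_comp (VV F (P + P0)).subtype h1
  have h3 := h2.fintype_card_le_finrank
  rw [hV.rank, Fintype.card_prod, Fintype.card_coe, Fintype.card_fin, mul_comm] at h3
  exact h3

theorem alg_stmt (hV : VStmt) (hG : GenStmt) (hI : IndStmt) (hF : FinStmt) (hL : LeafStmt)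
    (hD : DivStmt) : AlgStmt := by
  intro N A B h0 h1
  obtain ⟨F, R, _, _, _, ⟨v⟩⟩ := hG N A h0 h1
  obtain ⟨d, h, hd, hli, hsp⟩ := hF N A F R v h0
  obtain ⟨x0, hx0⟩ := hD N A B F R v
  obtain ⟨P0, hP0⟩ : ∃ P0 : Finset (Zn N), ∀ k, h k ∈ VV F P0 :=
    ⟨Finset.univ.biUnion fun k => (h k).coeff.support, fun k =>
      (hV.mem N F _ _).2 (Finset.subset_biUnion_of_mem (fun k => (h k).coeff.support)
        (Finset.mem_univ k))⟩
  have hc := card_Alg hV hI v h P0 hP0 hli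
  have hfin : ∀ P, (Gam_Alg v P).Finite := fun P => by
    by_contra hinf
    obtain ⟨T, hT, hT'⟩ := Set.Infinite.exists_subset_card_eq hinf ((P + P0).card + 1)
    have := hc P T fun γ hγ => hT hγ
    rw [hT'] at this
    have h2 := Nat.le_mul_of_pos_left ((P + P0).card + 1) hd
    omega
  obtain ⟨e, he⟩ : ∃ e : (Fin N →₀ ℕ) ↪ Zn N, ∀ γ l, e γ l = (γ l : ℤ) :=
    ⟨⟨fun γ l => (γ l : ℤ), fun γ δ hγ => Finsupp.ext fun l =>
      Nat.cast_injective (R := ℤ) (congrFun hγ l)⟩, fun _ _ => rfl⟩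
  have hmem : ∀ P g, g ∈ (hfin P).toFinset.map e ↔ ∃ γ ∈ Gam_Alg v P, e γ = g := fun P g => by
    simp only [Finset.mem_map, Set.Finite.mem_toFinset]
  refine ⟨⟨d, x0, P0, fun P => (hfin P).toFinset.map e, hd, ?_, ?_, ?_, ?_, ?_, ?_, ?_, ?_⟩⟩
  · intro P Q hPQ g hg
    obtain ⟨γ, ⟨f, hf, hf'⟩, rfl⟩ := (hmem P g).1 hg
    exact (hmem Q _).2 ⟨γ, ⟨f, hV.mono N F P Q hPQ hf, hf'⟩, rfl⟩
  · intro P Q g hg
    obtain ⟨a, ha, b, hb, rfl⟩ := Finset.mem_add.1 hg
    obtain ⟨γ, ⟨f, hf, hf'⟩, rfl⟩ := (hmem P a).1 ha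
    obtain ⟨δ, ⟨k, hk, hk'⟩, rfl⟩ := (hmem Q b).1 hb
    refine (hmem _ _).2 ⟨γ + δ, ⟨f * k, hV.mul N F P Q f hf k hk, ?_⟩, ?_⟩
    · rw [map_mul, MvPowerSeries.lexOrder_mul, hf', hk', toLex_add, WithTop.coe_add]
    · funext l
      rw [Pi.add_apply, he, he, he, Finsupp.add_apply, Nat.cast_add]
  · intro P
    rw [Finset.card_map, ← hV.rank N F P]
    refine hL N A F R v d _ hsp _ _ (hV.fin N F P) fun f hf hf0 => ?_
    obtain ⟨γ, hγ⟩ := MvPowerSeries.exists_finsupp_eq_lexOrder_of_ne_zero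
      ((map_ne_zero_iff v.Ψ v.inj).2 hf0)
    exact ⟨γ, (Set.Finite.mem_toFinset _).2 ⟨f, hf, hγ⟩, hγ⟩
  · intro P
    rw [Finset.card_map]
    exact hc P _ fun γ hγ => (Set.Finite.mem_toFinset _).1 hγ
  · rintro P ⟨z, hz⟩
    refine (hmem _ _).2 ⟨0, ⟨AddMonoidAlgebra.single z 1, hV.single N F P z hz 1,
      unit_Alg (IsUnit.map v.Ψ ?_)⟩, ?_⟩
    · refine IsUnit.of_mul_eq_one (AddMonoidAlgebra.single (-z) 1) ?_
      rw [AddMonoidAlgebra.single_mul_single, add_neg_cancel, mul_one, AddMonoidAlgebra.one_def]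
    · funext l
      rw [he]
      rfl
  · intro j
    refine (hmem _ _).2 ⟨Finsupp.single j 1, ⟨v.s j, v.s_mem j, ?_⟩, ?_⟩
    · rw [v.psi_s, X_Alg]
    · funext l
      rw [he]
      by_cases hl : l = j
      · subst hl
        simp
      · rw [Finsupp.single_eq_of_ne hl, Pi.single_eq_of_ne hl]
        rfl
  · intro P g hg l
    obtain ⟨γ, -, rfl⟩ := (hmem P g).1 hg
    rw [he]
    exact Int.natCast_nonneg _
  · intro x y hx j g hg hg1 hg2
    obtain ⟨γ, ⟨f, hf, hf'⟩, rfl⟩ := (hmem _ g).1 hg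
    have hγ1 : ∀ l, l < j → γ l = 0 := fun l hl => by
      have := hg1 l hl
      rw [he] at this
      exact_mod_cast this
    have hγ2 : γ j ≠ 0 := fun h' => hg2 (by rw [he, h']; rfl)
    have hvan : Van (j + 1) (v.Ψ f) := fun δ hδ => by
      refine MvPowerSeries.coeff_eq_zero_of_lt_lexOrder ?_
      rw [hf', WithTop.coe_lt_coe]
      exact lt_Alg hγ1 hγ2 hδ
    obtain ⟨g, hg3, hg4, hg5⟩ := hx0 (j + 1) x y hx f hf hvan
    have hle : Finsupp.single j 1 ≤ γ := Finsupp.single_le_iff.2 (Nat.pos_of_ne_zero hγ2)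
    obtain ⟨γ', rfl⟩ := exists_add_of_le hle
    have hΨ : v.Ψ f = ∑ l, MvPowerSeries.X l * v.Ψ (g l) := by
      rw [hg5, map_sum]
      exact Finset.sum_congr rfl fun l _ => by rw [map_mul, v.psi_s]
    rw [hΨ] at hf'
    have hγ' : ∀ l, l < j → γ' l = 0 := fun l hl => by
      have := hγ1 l hl
      rw [Finsupp.add_apply] at this
      omega
    have hord := div_Alg (fun l => v.Ψ (g l)) j (fun l hl => by rw [hg4 l hl, map_zero]) γ' hγ' hf'
    refine (hmem _ _).2 ⟨γ', ⟨g j, hg3 j, hord⟩, ?_⟩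
    funext l
    rw [Pi.sub_apply, he, he, Finsupp.add_apply]
    by_cases hl : l = j
    · subst hl
      simp
    · rw [Finsupp.single_eq_of_ne hl, Pi.single_eq_of_ne hl]
      simp

end Pool.Agent.MP_5f4cdd_gt.OK

end

section

set_option autoImplicit false
open Finset MeasureTheory
open scoped Pointwise ENNReal
namespace Pool.Agent.MP_5f4cdd_gt.OK

lemma up_Fact (n : ℕ) :
    Real.log (n + 1).factorial ≤ ((n : ℝ) + 2) * Real.log (n + 1) - n := by
  induction n with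
  | zero => simp
  | succ n ih =>
    have h1 : (0 : ℝ) < (n : ℝ) + 1 := by positivity
    have h2 : (0 : ℝ) < (n : ℝ) + 2 := by positivity
    have h3 : Real.log ((n + 1 + 1).factorial : ℕ) =
        Real.log ((n : ℝ) + 2) + Real.log (n + 1).factorial := by
      rw [Nat.factorial_succ (n + 1), Nat.cast_mul,
        Real.log_mul (by positivity) (by positivity)]
      congr 2
      push_cast
      ring
    have h4 : Real.log (((n : ℝ) + 1) / (n + 2)) ≤ ((n : ℝ) + 1) / (n + 2) - 1 :=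
      Real.log_le_sub_one_of_pos (by positivity)
    rw [Real.log_div h1.ne' h2.ne'] at h4
    have h5 := mul_le_mul_of_nonneg_left h4 h2.le
    have h6 : ((n : ℝ) + 2) * (((n : ℝ) + 1) / (n + 2) - 1) = -1 := by
      field_simp
      ring
    have h7 : ((n + 1 : ℕ) : ℝ) + 1 = (n : ℝ) + 2 := by
      push_cast
      ring
    rw [h3, h7]
    push_cast
    nlinarith

theorem fact_stmt : FactStmt := by
  intro n
  rcases n with _ | n
  · simp
  have h1 : (0 : ℝ) < ((n + 1 : ℕ) : ℝ) := by positivity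
  have hf : (0 : ℝ) < ((n + 1).factorial : ℝ) := by positivity
  constructor
  · have h2 := Real.log_le_log (by positivity) (Real.pow_div_factorial_le_exp _ h1.le (n + 1))
    rw [Real.log_exp, Real.log_div (by positivity) hf.ne', Real.log_pow] at h2
    linarith
  · have h2 := up_Fact n
    have h3 : Real.log ((n : ℝ) + 1) ≤ Real.log ((n : ℝ) + 1 + 1) :=
      Real.log_le_log (by positivity) (by linarith)
    push_cast
    linarith

lemma side_Fact {n P e d X : ℝ} (hn : 0 < n) (hP : 0 < P) (he : 0 < e) (hd : 0 ≤ d) (hX : 0 < X)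
    (h : X ≤ P * e + P * d + P * e / n) : Real.log X ≤ 1 / n + Real.log P + (e + d - 1) := by
  have h1 : X ≤ (1 + 1 / n) * P * (e + d) := by
    have h2 : 0 ≤ P * d / n := by positivity
    have h3 : (1 + 1 / n) * P * (e + d) = P * e + P * d + P * e / n + P * d / n := by ring
    linarith
  have h2 := Real.log_le_log hX h1
  rw [Real.log_mul (by positivity) (by positivity), Real.log_mul (by positivity) hP.ne'] at h2
  have h3 := Real.log_le_sub_one_of_pos (x := 1 + 1 / n) (by positivity)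
  have h4 := Real.log_le_sub_one_of_pos (x := e + d) (by positivity)
  linarith

lemma core_Fact {n u w h1 h2 M s t X1 X2 : ℝ} (hn : 0 < n) (hu0 : 0 ≤ u) (hu1 : u ≤ 1)
    (hw0 : 0 < w) (hw1 : w < 1) (hwu : n * u ≤ (n + 2) * w) (hwu' : n * (1 - u) ≤ (n + 2) * (1 - w))
    (p1 : 0 < h1) (p2 : 0 < h2) (hM : 0 < M) (hs : M * h1 / w ≤ s) (ht : M * h2 / (1 - w) ≤ t)
    (hX1 : 0 < X1) (hX2 : 0 < X2) (hx1 : X1 ≤ M * h1 + M * h1 / w * (1 - u) + M * h1 / n)
    (hx2 : X2 ≤ M * h2 + M * h2 / (1 - w) * u + M * h2 / n) :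
    n * Real.log X1 + n * Real.log X2 ≤ n * Real.log (h1 + h2) + 4 + n * Real.log M +
      n * u * Real.log t + n * (1 - u) * Real.log s := by
  have hw2 : 0 < 1 - w := by linarith
  have hu2 : 0 ≤ 1 - u := by linarith
  obtain ⟨P, hP⟩ : ∃ P, P = M * h1 / w := ⟨_, rfl⟩
  obtain ⟨Q, hQ⟩ : ∃ Q, Q = M * h2 / (1 - w) := ⟨_, rfl⟩
  have hP0 : 0 < P := by rw [hP]; positivity
  have hQ0 : 0 < Q := by rw [hQ]; positivity
  have eP : M * h1 = P * w := by rw [hP]; field_simp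
  have eQ : M * h2 = Q * (1 - w) := by rw [hQ]; field_simp
  rw [← hP] at hs hx1
  rw [← hQ] at ht hx2
  rw [eP] at hx1
  rw [eQ] at hx2
  have a1 := side_Fact hn hP0 hw0 hu2 hX1 hx1
  have a2 := side_Fact hn hQ0 hw2 hu0 hX2 hx2
  have a3 := Real.log_le_log hP0 hs
  have a4 := Real.log_le_log hQ0 ht
  obtain ⟨S, hS⟩ : ∃ S, S = (1 + 2 / n) * M * (h1 + h2) := ⟨_, rfl⟩
  have hS0 : 0 < S := by rw [hS]; positivity
  have a5 : Real.log S ≤ 2 / n + Real.log M + Real.log (h1 + h2) := by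
    rw [hS, Real.log_mul (by positivity) (by positivity), Real.log_mul (by positivity) hM.ne']
    have h3 := Real.log_le_sub_one_of_pos (x := 1 + 2 / n) (by positivity)
    linarith
  have a6 : u * P + (1 - u) * Q ≤ S := by
    have e : S = ((n + 2) * w * P + (n + 2) * (1 - w) * Q) / n := by
      rw [hS, mul_assoc, mul_add M, eP, eQ]
      field_simp
    rw [e, le_div_iff₀ hn]
    have b1 := mul_le_mul_of_nonneg_right hwu hP0.le
    have b2 := mul_le_mul_of_nonneg_right hwu' hQ0.le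
    linarith
  have a7 := Real.log_le_sub_one_of_pos (x := P / S) (by positivity)
  have a8 := Real.log_le_sub_one_of_pos (x := Q / S) (by positivity)
  rw [Real.log_div hP0.ne' hS0.ne'] at a7
  rw [Real.log_div hQ0.ne' hS0.ne'] at a8
  have a9 : u * Real.log P + (1 - u) * Real.log Q ≤ Real.log S := by
    have b1 := mul_le_mul_of_nonneg_left a7 hu0
    have b2 := mul_le_mul_of_nonneg_left a8 hu2
    have b3 : u * (P / S) + (1 - u) * (Q / S) ≤ 1 := by
      have e : u * (P / S) + (1 - u) * (Q / S) = (u * P + (1 - u) * Q) / S := by ring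
      rw [e, div_le_one hS0]
      exact a6
    linarith
  have b1 := mul_le_mul_of_nonneg_left a3 hu2
  have b2 := mul_le_mul_of_nonneg_left a4 hu0
  have b3 : Real.log X1 + Real.log X2 ≤ Real.log (h1 + h2) + 4 / n + Real.log M +
      u * Real.log t + (1 - u) * Real.log s := by
    have e : 4 / n = 1 / n + 1 / n + 2 / n := by ring
    linarith
  have b4 := mul_le_mul_of_nonneg_left b3 hn.le
  have e : n * (4 / n) = 4 := by field_simp
  linarith

theorem opt_stmt : OptStmt := by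
  intro N I J m h1 h2 c1 c2 hN hIJ hm p1 p2 q1 q2
  have hn : (0 : ℝ) < N := by exact_mod_cast hN
  have hm0 : (0 : ℝ) < m := by exact_mod_cast hm
  have hIJ' : (I : ℝ) + J = (N : ℝ) ^ 2 := by exact_mod_cast hIJ
  have hI : (0 : ℝ) ≤ I := by positivity
  have hJ : (0 : ℝ) ≤ J := by positivity
  have hn2 : (0 : ℝ) < (N : ℝ) ^ 2 := by positivity
  obtain ⟨u, hu⟩ : ∃ u : ℝ, u = I / (N : ℝ) ^ 2 := ⟨_, rfl⟩
  have eI : (I : ℝ) = (N : ℝ) ^ 2 * u := by rw [hu]; field_simp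
  have eJ : (J : ℝ) = (N : ℝ) ^ 2 * (1 - u) := by linarith
  have hu0 : 0 ≤ u := by rw [hu]; positivity
  have hu1 : u ≤ 1 := by
    rw [hu, div_le_one hn2]
    linarith
  obtain ⟨w, hw⟩ : ∃ w : ℝ, w = (N * u + 1) / (N + 2) := ⟨_, rfl⟩
  have ew : ((N : ℝ) + 2) * w = N * u + 1 := by rw [hw]; field_simp
  have hw0 : 0 < w := by rw [hw]; positivity
  have hw1 : w < 1 := by
    rw [hw, div_lt_one (by positivity)]
    nlinarith
  have hw2 : 0 < 1 - w := by linarith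
  obtain ⟨M, hM⟩ := exists_nat_gt
    (N * ((N : ℝ) ^ 2 + c1) / h1 + N * ((N : ℝ) ^ 2 * m + c2) / h2)
  have k1 : 0 < N * ((N : ℝ) ^ 2 + c1) / h1 := by positivity
  have k2 : 0 < N * ((N : ℝ) ^ 2 * m + c2) / h2 := by positivity
  have hM0 : (0 : ℝ) < M := by linarith
  have m1 : (N : ℝ) ^ 2 + c1 ≤ M * h1 / N := by
    have : N * ((N : ℝ) ^ 2 + c1) / h1 ≤ M := by linarith
    rw [div_le_iff₀ p1] at this
    rw [le_div_iff₀ hn]
    linarith
  have m2 : (N : ℝ) ^ 2 * m + c2 ≤ M * h2 / N := by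
    have : N * ((N : ℝ) ^ 2 * m + c2) / h2 ≤ M := by linarith
    rw [div_le_iff₀ p2] at this
    rw [le_div_iff₀ hn]
    linarith
  have x1 : 0 < M * h1 / w / (N : ℝ) ^ 2 := by positivity
  have x2 : 0 < M * h2 / (1 - w) / ((N : ℝ) ^ 2 * m) := by positivity
  refine ⟨M, ⌈M * h1 / w / (N : ℝ) ^ 2⌉₊, ⌈M * h2 / (1 - w) / ((N : ℝ) ^ 2 * m)⌉₊,
    by exact_mod_cast hM0, Nat.ceil_pos.2 x1, Nat.ceil_pos.2 x2, ?_⟩
  have s1 := Nat.le_ceil (M * h1 / w / (N : ℝ) ^ 2)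
  have s2 := (Nat.ceil_lt_add_one x1.le).le
  have t1 := Nat.le_ceil (M * h2 / (1 - w) / ((N : ℝ) ^ 2 * m))
  have t2 := (Nat.ceil_lt_add_one x2.le).le
  generalize (⌈M * h1 / w / (N : ℝ) ^ 2⌉₊ : ℕ) = σ at s1 s2 ⊢
  generalize (⌈M * h2 / (1 - w) / ((N : ℝ) ^ 2 * m)⌉₊ : ℕ) = τ at t1 t2 ⊢
  have hσ : (0 : ℝ) ≤ σ := by positivity
  have hτ : (0 : ℝ) ≤ τ := by positivity
  rw [div_le_iff₀ hn2] at s1
  rw [div_le_iff₀ (by positivity)] at t1
  rw [← sub_le_iff_le_add, le_div_iff₀ hn2] at s2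
  rw [← sub_le_iff_le_add, le_div_iff₀ (by positivity)] at t2
  have e1 : (I : ℝ) / N = N * u := by rw [eI]; field_simp
  have e2 : (J : ℝ) / N = N * (1 - u) := by rw [eJ]; field_simp
  rw [e1, e2]
  refine core_Fact hn hu0 hu1 hw0 hw1 (by linarith) (by linarith) p1 p2 hM0 (by linarith)
    (by linarith) (by positivity) (by positivity) ?_ ?_
  · have b1 := mul_le_mul_of_nonneg_right s2 (sub_nonneg.2 hu1)
    have b2 := mul_nonneg hn2.le hu0
    rw [eJ]
    linarith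
  · have b1 := mul_le_mul_of_nonneg_right t2 hu0
    have b2 := mul_nonneg (mul_nonneg hn2.le hm0.le) (sub_nonneg.2 hu1)
    rw [eI]
    linarith

end Pool.Agent.MP_5f4cdd_gt.OK

end

section

set_option autoImplicit false
open Finset MeasureTheory
open scoped Pointwise ENNReal

namespace Pool.Agent.MP_5f4cdd_gt.OK

theorem bdd_Sel {N : ℕ} {K K' : Set (Rn N)} (hK : IsCompact K) (hK' : IsCompact K') (x y : ℝ) :
    volume {z : Rn N | ∃ p ∈ K, ∃ q ∈ K', z = x • p + y • q} ≠ ∞ := by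
  have hc : IsCompact ((fun w : Rn N × Rn N => x • w.1 + y • w.2) '' (K ×ˢ K')) :=
    (hK.prod hK').image (by fun_prop)
  have he : {z : Rn N | ∃ p ∈ K, ∃ q ∈ K', z = x • p + y • q} =
      (fun w : Rn N × Rn N => x • w.1 + y • w.2) '' (K ×ˢ K') := by
    ext z
    constructor
    · rintro ⟨p, hp, q, hq, rfl⟩
      exact ⟨(p, q), ⟨hp, hq⟩, rfl⟩
    · rintro ⟨⟨p, q⟩, ⟨hp, hq⟩, rfl⟩
      exact ⟨p, hp, q, hq, rfl⟩
  rw [he]
  exact hc.measure_lt_top.ne

theorem cover_Sel {N : ℕ} (hN : 1 ≤ N) {K K' : Set (Rn N)} (hK : Body0 K) (hK' : Body0 K')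
    (r : ℝ) : hull K K' r ⊆ ⋃ κ ∈ range N, {z : Rn N | ∃ p ∈ K, ∃ q ∈ K',
      z = (((N : ℝ) - κ) / N * (1 - r)) • p + (((κ : ℝ) + 1) / N * r) • q} := by
  rintro z ⟨t, ht0, ht1, p, hp, q, hq, rfl⟩
  have hNp : (0 : ℝ) < N := by exact_mod_cast hN
  obtain ⟨κ, hκN, h1, h2⟩ : ∃ κ : ℕ, κ < N ∧ (κ : ℝ) ≤ t * N ∧ t * N ≤ κ + 1 := by
    by_cases h : ⌊t * N⌋₊ < N
    · exact ⟨⌊t * N⌋₊, h, Nat.floor_le (by positivity), (Nat.lt_floor_add_one _).le⟩
    · have h3 : (N : ℝ) ≤ t * N := by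
        have h4 : (N : ℝ) ≤ (⌊t * N⌋₊ : ℝ) := by exact_mod_cast not_lt.mp h
        exact h4.trans (Nat.floor_le (by positivity))
      have h5 : ((N - 1 : ℕ) : ℝ) = N - 1 := by
        rw [Nat.cast_sub hN]; simp
      refine ⟨N - 1, by omega, ?_, ?_⟩
      · rw [h5]; linarith
      · rw [h5]; nlinarith
  have hκ : (κ : ℝ) < N := by exact_mod_cast hκN
  have ha : (0 : ℝ) < (N : ℝ) - κ := by linarith
  have hb : (0 : ℝ) < (κ : ℝ) + 1 := by positivity
  simp only [Set.mem_iUnion, mem_range]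
  refine ⟨κ, hκN, ((1 - t) * N / (N - κ)) • p, ?_, (t * N / (κ + 1)) • q, ?_, ?_⟩
  · refine hK.conv.smul_mem_of_zero_mem hK.zero hp ⟨?_, ?_⟩
    · exact div_nonneg (mul_nonneg (by linarith) hNp.le) ha.le
    · rw [div_le_one ha]; nlinarith
  · refine hK'.conv.smul_mem_of_zero_mem hK'.zero hq ⟨?_, ?_⟩
    · positivity
    · rw [div_le_one hb]; exact h2
  · rw [smul_smul, smul_smul]
    congr 2
    · field_simp
    · field_simp

theorem bin_Sel {N l : ℕ} (hN : 1 ≤ N) (hl : l ≤ N) {a b : ℝ} (ha : 0 ≤ a) (hb : 0 ≤ b)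
    (hab : a + b = 1 + 1 / N) :
    a ^ l * b ^ (N - l) * N.factorial ≤ Real.exp 1 * (l.factorial * (N - l).factorial) := by
  have hNp : (0 : ℝ) < N := by exact_mod_cast hN
  have h1 : a ^ l * b ^ (N - l) * (N.choose l) ≤ (a + b) ^ N := by
    rw [add_pow]
    refine single_le_sum (f := fun m => a ^ m * b ^ (N - m) * (N.choose m : ℝ)) ?_
      (mem_range.mpr (by omega))
    intro i _
    positivity
  have h2 : (a + b) ^ N ≤ Real.exp 1 := by
    rw [hab]
    have h3 : 1 + 1 / (N : ℝ) ≤ Real.exp (1 / N) := by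
      have := Real.add_one_le_exp (1 / (N : ℝ))
      linarith
    calc (1 + 1 / (N : ℝ)) ^ N ≤ (Real.exp (1 / N)) ^ N :=
          pow_le_pow_left₀ (by positivity) h3 N
      _ = Real.exp 1 := by
          rw [← Real.exp_nat_mul]
          congr 1
          field_simp
  have h4 : (N.factorial : ℝ) = N.choose l * (l.factorial * (N - l).factorial) := by
    rw [← mul_assoc]
    exact_mod_cast (Nat.choose_mul_factorial_mul_factorial hl).symm
  rw [h4, ← mul_assoc]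
  exact mul_le_mul_of_nonneg_right (h1.trans h2) (by positivity)

theorem sel_stmt (h1 : Sel1Stmt) : SelStmt := by
  intro N K K' A B Φ m r hN hK hK' hA hB hm hr hr1
  have hNp : (0 : ℝ) < N := by exact_mod_cast hN
  have hN1 : (1 : ℝ) ≤ N := by exact_mod_cast hN
  have hm1 : 1 ≤ m := le_trans (Nat.succ_le_of_lt (by positivity)) hm
  have hmp : (0 : ℝ) < m := by exact_mod_cast hm1
  have hmR : (N : ℝ) ^ 2 * (N + 1) ^ 2 ≤ m := by exact_mod_cast hm
  have hs : 0 < 1 - r := lt_of_lt_of_le (by positivity) hr1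
  set c : ℕ → ℝ := fun l => (1 - r) ^ l * r ^ (N - l) * (Φ.d * (slice Φ m l).card) *
    (N - l).factorial / (N.factorial * (m : ℝ) ^ (N - l)) with hc
  have hc0 : ∀ l, 0 ≤ c l := fun l => by simp only [hc]; positivity
  have key : ∀ κ ∈ range N, volume.real {z : Rn N | ∃ p ∈ K, ∃ q ∈ K',
      z = (((N : ℝ) - κ) / N * (1 - r)) • p + (((κ : ℝ) + 1) / N * r) • q} ≤
      Real.exp 2 * ∑ l ∈ range (N + 1), c l := by
    intro κ hκ
    have hκN : κ + 1 ≤ N := mem_range.mp hκ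
    have hκR : (κ : ℝ) + 1 ≤ N := by exact_mod_cast hκN
    have hκ0 : (0 : ℝ) ≤ κ := by positivity
    have ha : (0 : ℝ) < ((N : ℝ) - κ) / N := div_pos (by linarith) hNp
    have hb : (0 : ℝ) < ((κ : ℝ) + 1) / N := by positivity
    have hy : ((κ : ℝ) + 1) / N * r ≤ 1 := by
      have : ((κ : ℝ) + 1) / N ≤ 1 := (div_le_one hNp).mpr hκR
      nlinarith
    have hx : 1 / ((N : ℝ) * (N + 1)) ≤ ((N : ℝ) - κ) / N * (1 - r) := by
      have h2 : 1 / (N : ℝ) ≤ ((N : ℝ) - κ) / N := by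
        apply div_le_div_of_nonneg_right _ hNp.le
        linarith
      calc 1 / ((N : ℝ) * (N + 1)) = 1 / (N : ℝ) * (1 / ((N : ℝ) + 1)) := by field_simp
        _ ≤ _ := mul_le_mul h2 hr1 (by positivity) ha.le
    have hcond : (N : ℝ) * (N + 1) * (((κ : ℝ) + 1) / N * r) ≤
        ((N : ℝ) - κ) / N * (1 - r) * m := by
      calc (N : ℝ) * (N + 1) * (((κ : ℝ) + 1) / N * r) ≤ N * (N + 1) * 1 :=
            mul_le_mul_of_nonneg_left hy (by positivity)
        _ = 1 / ((N : ℝ) * (N + 1)) * (N ^ 2 * (N + 1) ^ 2) := by field_simp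
        _ ≤ _ := mul_le_mul hx hmR (by positivity) (by positivity)
    refine (h1 N K K' A B Φ m _ _ hN hK hK' hA hB hm1 (mul_pos ha hs) (mul_pos hb hr)
      hcond).trans ?_
    have h2 : Real.exp 2 = Real.exp 1 * Real.exp 1 := by
      rw [← Real.exp_add]; norm_num
    rw [h2, mul_assoc]
    refine mul_le_mul_of_nonneg_left ?_ (Real.exp_pos 1).le
    rw [mul_sum]
    refine sum_le_sum fun l hl => ?_
    have hlN : l ≤ N := Nat.lt_succ_iff.mp (mem_range.mp hl)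
    have hbin := bin_Sel hN hlN ha.le hb.le (by field_simp; ring)
    have hf1 : (0 : ℝ) < l.factorial := by exact_mod_cast l.factorial_pos
    have hf2 : (0 : ℝ) < N.factorial := by exact_mod_cast N.factorial_pos
    have h3 : (((N : ℝ) - κ) / N) ^ l * (((κ : ℝ) + 1) / N) ^ (N - l) ≤
        Real.exp 1 * (l.factorial * (N - l).factorial) / N.factorial :=
      (le_div_iff₀ hf2).mpr hbin
    calc (((N : ℝ) - κ) / N * (1 - r)) ^ l * (((κ : ℝ) + 1) / N * r) ^ (N - l) *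
          (Φ.d * (slice Φ m l).card / (l.factorial * (m : ℝ) ^ (N - l)))
        = ((((N : ℝ) - κ) / N) ^ l * (((κ : ℝ) + 1) / N) ^ (N - l)) *
          ((1 - r) ^ l * r ^ (N - l) *
            (Φ.d * (slice Φ m l).card / (l.factorial * (m : ℝ) ^ (N - l)))) := by
          rw [mul_pow, mul_pow]; ring
      _ ≤ (Real.exp 1 * (l.factorial * (N - l).factorial) / N.factorial) *
          ((1 - r) ^ l * r ^ (N - l) *
            (Φ.d * (slice Φ m l).card / (l.factorial * (m : ℝ) ^ (N - l)))) :=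
          mul_le_mul_of_nonneg_right h3 (by positivity)
      _ = Real.exp 1 * c l := by
          simp only [hc]
          field_simp
  obtain ⟨l, hl, hmax⟩ := exists_max_image (range (N + 1)) c ⟨0, mem_range.mpr (by omega)⟩
  have hlN : l ≤ N := Nat.lt_succ_iff.mp (mem_range.mp hl)
  refine ⟨l, hlN, ?_⟩
  have hsum : ∑ l ∈ range (N + 1), c l ≤ (N + 1) * c l := by
    have := sum_le_card_nsmul (range (N + 1)) c (c l) hmax
    simpa using this
  have hvol : volume.real (hull K K' r) ≤ N * (Real.exp 2 * ((N + 1) * c l)) := by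
    have hfin : volume (⋃ κ ∈ range N, {z : Rn N | ∃ p ∈ K, ∃ q ∈ K',
      z = (((N : ℝ) - κ) / N * (1 - r)) • p + (((κ : ℝ) + 1) / N * r) • q}) ≠ ∞ := by
      refine ne_top_of_le_ne_top ?_ (measure_biUnion_finset_le _ _)
      exact ENNReal.sum_ne_top.mpr fun κ _ => bdd_Sel hK.cpt hK'.cpt _ _
    refine (measureReal_mono (cover_Sel hN hK hK' r) hfin).trans ?_
    refine (measureReal_biUnion_finset_le _ _).trans ?_
    have := sum_le_card_nsmul (range N) _ (Real.exp 2 * ((N + 1) * c l)) fun κ hκ =>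
      (key κ hκ).trans (mul_le_mul_of_nonneg_left hsum (Real.exp_pos 2).le)
    simpa using this
  have hf2 : (0 : ℝ) < N.factorial := by exact_mod_cast N.factorial_pos
  have hvol2 : volume.real (hull K K' r) ≤ Real.exp 2 * (N + 1) ^ 2 * c l := by
    refine hvol.trans ?_
    have := mul_nonneg (Real.exp_pos 2).le (mul_nonneg (by positivity : (0 : ℝ) ≤ N + 1) (hc0 l))
    nlinarith
  calc volume.real (hull K K' r) * N.factorial * (m : ℝ) ^ (N - l)
      ≤ Real.exp 2 * (N + 1) ^ 2 * c l * N.factorial * (m : ℝ) ^ (N - l) := by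
        gcongr
    _ = _ := by
        simp only [hc]
        field_simp

end Pool.Agent.MP_5f4cdd_gt.OK

end

section

set_option autoImplicit false
open Finset MeasureTheory
open scoped Pointwise ENNReal

namespace Pool.Agent.MP_5f4cdd_gt.OK

theorem comb_UA {N : ℕ} {X : Set (Rn N)} (hX : Convex ℝ X) {p q : Rn N} (hp : p ∈ X) (hq : q ∈ X)
    {a b : ℝ} (ha : 0 ≤ a) (hb : 0 ≤ b) : ∃ r ∈ X, a • p + b • q = (a + b) • r := by
  rcases (add_nonneg ha hb).eq_or_lt with h | h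
  · have ha0 : a = 0 := by linarith
    have hb0 : b = 0 := by linarith
    exact ⟨p, hp, by simp [ha0, hb0]⟩
  · refine ⟨(a / (a + b)) • p + (b / (a + b)) • q,
      hX hp hq (div_nonneg ha h.le) (div_nonneg hb h.le) (by field_simp), ?_⟩
    rw [smul_add, smul_smul, smul_smul, mul_div_cancel₀ _ h.ne', mul_div_cancel₀ _ h.ne']

theorem cst_add_UA {N : ℕ} (z w : Zn N) : cst (z + w) = cst z + cst w := by
  funext i
  simp [cst]

theorem shift_UA {N : ℕ} (x t : Rn N) (ht : ∀ i, 0 ≤ t i ∧ t i ≤ 1) :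
    ‖cst (fl x) + t - x‖ ≤ 1 := by
  rw [pi_norm_le_iff_of_nonneg zero_le_one]
  intro i
  have h1 := Int.floor_le (x i)
  have h2 := Int.lt_floor_add_one (x i)
  have h3 := ht i
  simp only [cst, fl, Pi.sub_apply, Pi.add_apply, Real.norm_eq_abs, abs_le]
  constructor <;> linarith [h3.1, h3.2]

theorem bound_UA {N : ℕ} (P : Finset (Zn N)) : ∃ c : ℝ, 0 ≤ c ∧ ∀ z ∈ P, ‖cst z‖ ≤ c :=
  ⟨∑ z ∈ P, ‖cst z‖, sum_nonneg fun _ _ => norm_nonneg _,
    fun _ hz => single_le_sum (f := fun z : Zn N => ‖cst z‖) (fun _ _ => norm_nonneg _) hz⟩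

theorem real_UA {N : ℕ} (S : Finset (Zn N)) (X : Set (Rn N)) (α : ℝ) (hα : 0 < α)
    (hX : IsCompact X) (h : (S.card : ℝ≥0∞) ≤ ENNReal.ofReal (α ^ N) * volume X) :
    (S.card : ℝ) ≤ α ^ N * volume.real X := by
  have h1 := ENNReal.toReal_mono
    (ENNReal.mul_ne_top ENNReal.ofReal_ne_top hX.measure_lt_top.ne) h
  rwa [ENNReal.toReal_mul, ENNReal.toReal_ofReal (pow_pos hα N).le, ENNReal.toReal_natCast] at h1

theorem unit_UA {N : ℕ} (w : Rn N) (c : ℝ) (hc : 0 < c) (hw : ‖w‖ ≤ c) : ‖c⁻¹ • w‖ ≤ 1 := by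
  rw [norm_smul, norm_inv, Real.norm_eq_abs, abs_of_pos hc, inv_mul_le_iff₀ hc, mul_one]
  exact hw

theorem ua_stmt (hC : CntStmt) : UAStmt := by
  intro N K L A P0 h1 hK hA hh1 hL
  obtain ⟨c0, hc0, hP0⟩ := bound_UA P0
  have hcv : Convex ℝ (Metric.cthickening 1 K) := hK.conv.cthickening 1
  have hsub : K ⊆ Metric.cthickening 1 K := Metric.self_subset_cthickening K
  refine ⟨c0 + 1, by linarith, fun M t Λ hM hΛ => ?_⟩
  have hM' : (0 : ℝ) < M := Nat.cast_pos.mpr hM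
  have hMh : 0 < (M : ℝ) * h1 := mul_pos hM' hh1
  have ht0 : (0 : ℝ) ≤ t := Nat.cast_nonneg t
  have hc : 0 < c0 + 1 := by linarith
  have hα : 0 < (M : ℝ) * h1 + t + (c0 + 1) := by linarith
  refine real_UA _ _ _ hα (hK.cpt.cthickening) (hC.hi N _ _ 0 _ hα fun z hz s hs => ?_)
  obtain ⟨y, hy, p0, hp0, rfl⟩ := mem_add.mp hz
  obtain ⟨l, hl, a, ha, rfl⟩ := mem_add.mp hy
  obtain ⟨x, hx, rfl⟩ := hΛ l hl
  obtain ⟨p, hp, rfl⟩ := hL x hx
  obtain ⟨p1, hp1, e1⟩ := hC.conv N A _ hcv ⟨0, hsub hK.zero⟩ (fun z hz => (hA z).mp hz) t a ha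
  set w : Rn N := (cst (fl ((M : ℝ) • h1 • p)) + s - (M : ℝ) • h1 • p) + cst p0 with hw
  have hwn : ‖w‖ ≤ c0 + 1 := by
    have := norm_add_le (cst (fl ((M : ℝ) • h1 • p)) + s - (M : ℝ) • h1 • p) (cst p0)
    linarith [shift_UA ((M : ℝ) • h1 • p) s hs, hP0 p0 hp0]
  have hu : (c0 + 1)⁻¹ • w ∈ Metric.cthickening 1 K :=
    Metric.mem_cthickening_of_dist_le _ 0 1 K hK.zero
      (by rw [dist_zero_right]; exact unit_UA w _ hc hwn)
  obtain ⟨r1, hr1, f1⟩ := comb_UA hcv (hsub hp) hp1 hMh.le ht0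
  obtain ⟨r2, hr2, f2⟩ := comb_UA hcv hr1 hu (add_nonneg hMh.le ht0) hc.le
  refine ⟨r2, hr2, ?_⟩
  rw [zero_add, ← f2, ← f1, smul_smul (c0 + 1), mul_inv_cancel₀ hc.ne', one_smul, hw,
    cst_add_UA, cst_add_UA, e1, smul_smul]
  abel

theorem ub_stmt (hC : CntStmt) : UBStmt := by
  intro N K K' L A B P0 h2 v x0 hK hK' hA hB hh2 hL
  obtain ⟨c0, hc0, hP0⟩ := bound_UA P0
  have hcv : Convex ℝ (Metric.cthickening 1 K) := hK.conv.cthickening 1
  have hsub : K ⊆ Metric.cthickening 1 K := Metric.self_subset_cthickening K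
  have hcv' : Convex ℝ (Metric.cthickening 1 K') := hK'.conv.cthickening 1
  have hsub' : K' ⊆ Metric.cthickening 1 K' := Metric.self_subset_cthickening K'
  have hcp : IsCompact (Metric.cthickening 1 K) := hK.cpt.cthickening
  obtain ⟨ρ, hρ0, hρ⟩ := hcp.isBounded.exists_pos_norm_le
  obtain ⟨m0, hm0⟩ := exists_nat_ge (((x0 : ℝ) + N) * ρ)
  have hN0 : (0 : ℝ) ≤ N := Nat.cast_nonneg N
  have hNρ : 0 ≤ (N : ℝ) * ρ := mul_nonneg hN0 hρ0.le
  refine ⟨m0, N * ρ + c0 + 1, by linarith, fun m M n Λ hm hM hΛ => ?_⟩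
  have hM' : (0 : ℝ) < M := Nat.cast_pos.mpr hM
  have hMh : 0 < (M : ℝ) * h2 := mul_pos hM' hh2
  have hn0 : (0 : ℝ) ≤ n := Nat.cast_nonneg n
  have hnm : (0 : ℝ) ≤ (n : ℝ) * m := mul_nonneg hn0 (Nat.cast_nonneg m)
  have hc : 0 < (N : ℝ) * ρ + c0 + 1 := by linarith
  have hα : 0 < (M : ℝ) * h2 + n * m + (N * ρ + c0 + 1) := by linarith
  refine real_UA _ _ _ hα (hK'.cpt.cthickening)
    (hC.hi N _ _ ((M : ℝ) • v) _ hα fun z hz s hs => ?_)
  rw [nsmul_add, ← mul_nsmul', ← mul_nsmul'] at hz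
  obtain ⟨y, hy, p0, hp0, rfl⟩ := mem_add.mp hz
  obtain ⟨y', hy', a2, ha2, rfl⟩ := mem_add.mp hy
  obtain ⟨l, hl, ab, hab, rfl⟩ := mem_add.mp hy'
  obtain ⟨a1, ha1, b1, hb1, rfl⟩ := mem_add.mp hab
  obtain ⟨x, hx, rfl⟩ := hΛ l hl
  obtain ⟨q0, hq0, rfl⟩ := hL x hx
  obtain ⟨p1, hp1, e1⟩ :=
    hC.conv N A _ hcv ⟨0, hsub hK.zero⟩ (fun z hz => (hA z).mp hz) _ a1 ha1
  obtain ⟨p2, hp2, e2⟩ :=
    hC.conv N A _ hcv ⟨0, hsub hK.zero⟩ (fun z hz => (hA z).mp hz) _ a2 ha2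
  obtain ⟨q1, hq1, e3⟩ :=
    hC.conv N B _ hcv' ⟨0, hsub' hK'.zero⟩ (fun z hz => (hB z).mp hz) _ b1 hb1
  set w : Rn N := (cst (fl ((M : ℝ) • (v + h2 • q0))) + s - (M : ℝ) • (v + h2 • q0)) + cst p0 +
    cst a1 + cst a2 with hw
  have hn1 : ‖cst a1‖ ≤ n * x0 * ρ := by
    rw [e1, norm_smul, Real.norm_natCast]
    push_cast
    exact mul_le_mul_of_nonneg_left (hρ p1 hp1) (by positivity)
  have hn2 : ‖cst a2‖ ≤ N * (n + 1) * ρ := by
    rw [e2, norm_smul, Real.norm_natCast]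
    push_cast
    exact mul_le_mul_of_nonneg_left (hρ p2 hp2) (by positivity)
  have hmm : (n : ℝ) * ((x0 + N) * ρ) ≤ n * m :=
    mul_le_mul_of_nonneg_left (hm0.trans (Nat.cast_le.mpr hm)) hn0
  have hwn : ‖w‖ ≤ (M : ℝ) * h2 + n * m + (N * ρ + c0 + 1) := by
    have h3 := norm_add_le
      (cst (fl ((M : ℝ) • (v + h2 • q0))) + s - (M : ℝ) • (v + h2 • q0)) (cst p0)
    have h4 := norm_add_le
      (cst (fl ((M : ℝ) • (v + h2 • q0))) + s - (M : ℝ) • (v + h2 • q0) + cst p0) (cst a1)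
    have h5 := norm_add_le
      (cst (fl ((M : ℝ) • (v + h2 • q0))) + s - (M : ℝ) • (v + h2 • q0) + cst p0 + cst a1) (cst a2)
    have h6 := shift_UA ((M : ℝ) • (v + h2 • q0)) s hs
    have h7 := hP0 p0 hp0
    nlinarith
  obtain ⟨r1, hr1, f1⟩ := comb_UA hcv' (hsub' hq0) hq1 hMh.le hnm
  obtain ⟨r2, hr2, f2⟩ := comb_UA hcv' hr1 (hsub' hK'.zero) (add_nonneg hMh.le hnm) hc.le
  refine ⟨r2 + ((M : ℝ) * h2 + n * m + (N * ρ + c0 + 1))⁻¹ • w, ?_, ?_⟩
  · have h8 := Metric.cthickening_cthickening_subset (zero_le_one) (zero_le_one) K'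
    rw [one_add_one_eq_two] at h8
    refine h8 (Metric.mem_cthickening_of_dist_le _ r2 1 _ hr2 ?_)
    rw [dist_eq_norm, add_sub_cancel_left]
    exact unit_UA w _ hα hwn
  · rw [smul_add ((M : ℝ) * h2 + n * m + (N * ρ + c0 + 1)), ← f2, ← f1, smul_smul,
      mul_inv_cancel₀ hα.ne', one_smul, hw, cst_add_UA, cst_add_UA, cst_add_UA, cst_add_UA, e3,
      smul_zero, smul_add (M : ℝ) v, smul_smul]
    push_cast
    abel

end Pool.Agent.MP_5f4cdd_gt.OK

end
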