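import Pool.Agent.Mg.F5f4cddb.Ga13d99
import Pool.Agent.Mg.F5f4cddb.G3ea7b7
import Pool.Agent.Mg.F5f4cddb.G75c904

set_option linter.all false

section

set_option autoImplicit false
open Finset MeasureTheory
open scoped Pointwise ENNReal

namespace Pool.Agent.MP_5f4cdd_gt.OK

noncomputable def box_Fin (N c : ℕ) : Finset (Zn N) :=
  Fintype.piFinset fun _ => Finset.Icc (-(c : ℤ)) c

theorem mem_box_Fin {N c : ℕ} {z : Zn N} : z ∈ box_Fin N c ↔ ∀ i, |z i| ≤ c := by
  simp [box_Fin, abs_le]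

theorem card_box_Fin (N c : ℕ) : (box_Fin N c).card = (2 * c + 1) ^ N := by
  have h : (Finset.Icc (-(c : ℤ)) c).card = 2 * c + 1 := by
    rw [Int.card_Icc]
    omega
  rw [box_Fin, Fintype.card_piFinset_const, h]

theorem exists_box_Fin {N : ℕ} (P : Finset (Zn N)) : ∃ c : ℕ, P ⊆ box_Fin N c := by
  refine ⟨∑ z ∈ P, ∑ i, (z i).natAbs, fun z hz => mem_box_Fin.2 fun i => ?_⟩
  rw [← Int.natCast_natAbs]
  have h1 : (z i).natAbs ≤ ∑ i, (z i).natAbs :=
    Finset.single_le_sum (f := fun i => (z i).natAbs) (fun _ _ => Nat.zero_le _) (mem_univ i)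
  have h2 : ∑ i, (z i).natAbs ≤ ∑ z ∈ P, ∑ i, (z i).natAbs :=
    Finset.single_le_sum (f := fun z : Zn N => ∑ i, (z i).natAbs) (fun _ _ => Nat.zero_le _) hz
  exact_mod_cast h1.trans h2

theorem add_box_Fin {N a b : ℕ} {P Q : Finset (Zn N)} (hP : P ⊆ box_Fin N a)
    (hQ : Q ⊆ box_Fin N b) : P + Q ⊆ box_Fin N (a + b) := by
  intro z hz
  obtain ⟨p, hp, q, hq, rfl⟩ := Finset.mem_add.1 hz
  refine mem_box_Fin.2 fun i => ?_
  have h1 := mem_box_Fin.1 (hP hp) i
  have h2 := mem_box_Fin.1 (hQ hq) i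
  have h3 := abs_add_le (p i) (q i)
  rw [Pi.add_apply]
  push_cast
  linarith

theorem nsmul_box_Fin {N D : ℕ} {A : Finset (Zn N)} (hA : A ⊆ box_Fin N D) (x : ℕ) :
    x • A ⊆ box_Fin N (x * D) := by
  induction x with
  | zero =>
    intro z hz
    rw [zero_nsmul, Finset.mem_zero] at hz
    subst hz
    exact mem_box_Fin.2 fun i => by simp
  | succ x ih =>
    rw [succ_nsmul, Nat.succ_mul]
    exact add_box_Fin ih hA

theorem lexOrder_monomial_Fin {N : ℕ} {R : Type} [Field R] (γ : Fin N →₀ ℕ) :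
    MvPowerSeries.lexOrder (MvPowerSeries.monomial γ (1 : R)) =
      ((toLex γ : Lex (Fin N →₀ ℕ)) : WithTop _) := by
  refine le_antisymm (MvPowerSeries.lexOrder_le_of_coeff_ne_zero ?_) ?_
  · rw [MvPowerSeries.coeff_monomial_same]
    exact one_ne_zero
  · rw [MvPowerSeries.le_lexOrder_iff]
    intro d hd
    refine MvPowerSeries.coeff_monomial_ne ?_ _
    rintro rfl
    exact lt_irrefl _ hd

theorem bound_Fin (hV : VStmt) (hI : IndStmt) {N D : ℕ} {A : Finset (Zn N)} {F R : Type}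
    [Field F] [Field R] [Algebra F R] (v : Val A F R) (h0 : (0 : Zn N) ∈ A)
    (hA : A ⊆ box_Fin N D) (e : ℕ) (h : Fin e → Lau F N)
    (hh : LinearIndependent F (fun k => MvPowerSeries.constantCoeff (v.Ψ (h k)))) :
    e ≤ (2 * N * D + 2) ^ N := by
  classical
  set P : Finset (Zn N) := Finset.univ.biUnion fun k => (h k).coeff.support with hP
  obtain ⟨c, hc⟩ := exists_box_Fin P
  have hm : ∀ k, h k ∈ VV F P := fun k =>
    (hV.mem N F P (h k)).2 (Finset.subset_biUnion_of_mem (fun k => (h k).coeff.support) (mem_univ k))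
  let γ : (Fin N → Fin (c + 1)) → Fin N →₀ ℕ := fun g =>
    Finsupp.equivFunOnFinite.symm fun l => (g l : ℕ)
  let f : (Fin N → Fin (c + 1)) → Lau F N := fun g => ∏ l, v.s l ^ (g l : ℕ)
  have hγ : Function.Injective γ := by
    intro g g' hg
    funext l
    exact Fin.ext (congrFun (Finsupp.equivFunOnFinite.symm.injective hg) l)
  have hf : ∀ g, v.Ψ (f g) = MvPowerSeries.monomial (γ g) 1 := by
    intro g
    have e1 : γ g = ∑ l, Finsupp.single l (g l : ℕ) := by
      ext l
      simp [γ, Finsupp.finsetSum_apply, Finsupp.single_apply]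
    simp only [f, map_prod, map_pow, v.psi_s, MvPowerSeries.X_pow_eq]
    rw [MvPowerSeries.prod_monomial, e1, Finset.prod_const_one]
  have hli := hI N A F R v _ _ γ f h hγ (fun g => by rw [hf, lexOrder_monomial_Fin]) hh
  have hmem : ∀ p : (Fin N → Fin (c + 1)) × Fin e, f p.1 * h p.2 ∈ VV F ((N * c) • A + P) := by
    intro p
    refine hV.mul N F _ _ _ (hV.prod N F A h0 v.s v.s_mem _ _ ?_) _ (hm p.2)
    calc ∑ l, (p.1 l : ℕ) ≤ ∑ _l : Fin N, c := Finset.sum_le_sum fun l _ => Fin.is_le _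
      _ = N * c := by simp
  have := hV.fin N F ((N * c) • A + P)
  have hli' : LinearIndependent F fun p : (Fin N → Fin (c + 1)) × Fin e =>
      (⟨f p.1 * h p.2, hmem p⟩ : VV F ((N * c) • A + P)) :=
    LinearIndependent.of_comp (VV F ((N * c) • A + P)).subtype hli
  have h1 := hli'.fintype_card_le_finrank
  rw [hV.rank, Fintype.card_prod, Fintype.card_fun, Fintype.card_fin, Fintype.card_fin,
    Fintype.card_fin] at h1
  have h2 := Finset.card_le_card (add_box_Fin (nsmul_box_Fin hA (N * c)) hc)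
  rw [card_box_Fin] at h2
  have h3 : (2 * (N * c * D + c) + 1) ^ N ≤ ((c + 1) * (2 * N * D + 2)) ^ N :=
    Nat.pow_le_pow_left (by nlinarith [Nat.zero_le (N * D)]) N
  rw [mul_pow] at h3
  exact Nat.le_of_mul_le_mul_left ((h1.trans h2).trans h3) (by positivity)

theorem fin_stmt (hV : VStmt) (hI : IndStmt) : FinStmt := by
  intro N A F R _ _ _ v h0
  obtain ⟨D, hA⟩ := exists_box_Fin A
  obtain ⟨b, hb, hsp, hli⟩ := exists_linearIndependent F
    (Set.range fun g : Lau F N => MvPowerSeries.constantCoeff (v.Ψ g))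
  choose pre hpre using fun x : b => hb x.2
  have hfin : b.Finite := by
    by_contra hinf
    have hinf' : b.Infinite := hinf
    have hinj : Function.Injective fun k : Fin ((2 * N * D + 2) ^ N + 1) =>
        hinf'.natEmbedding b k := (hinf'.natEmbedding b).injective.comp Fin.val_injective
    have h1 := bound_Fin hV hI v h0 hA _
      (fun k : Fin ((2 * N * D + 2) ^ N + 1) => pre (hinf'.natEmbedding b k))
      (by simp only [hpre]; exact hli.comp _ hinj)
    omega
  obtain ⟨d, ⟨e⟩⟩ := @Finite.exists_equiv_fin b hfin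
  have hr : (Set.range fun k => MvPowerSeries.constantCoeff (v.Ψ (pre (e.symm k)))) = b := by
    simp only [hpre]
    ext x
    constructor
    · rintro ⟨k, rfl⟩
      exact (e.symm k).2
    · intro hx
      exact ⟨e ⟨x, hx⟩, by simp⟩
  have hall : ∀ g : Lau F N, MvPowerSeries.constantCoeff (v.Ψ g) ∈ Submodule.span F b := by
    intro g
    rw [hsp]
    exact Submodule.subset_span ⟨g, rfl⟩
  refine ⟨d, fun k => pre (e.symm k), ?_, ?_, fun g => by rw [hr]; exact hall g⟩
  · rcases Nat.eq_zero_or_pos d with rfl | hd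
    · have h1 := hall 1
      rw [← hr, Set.range_eq_empty, Submodule.span_empty, map_one, map_one,
        Submodule.mem_bot] at h1
      exact absurd h1 one_ne_zero
    · exact hd
  · simp only [hpre]
    exact hli.comp _ e.symm.injective

end Pool.Agent.MP_5f4cdd_gt.OK

end

section

set_option autoImplicit false
open Finset MeasureTheory
open scoped Pointwise ENNReal

namespace Pool.Agent.MP_5f4cdd_gt.OK

theorem io_X_Io (N : ℕ) (l : Fin N) :
    io (MvPolynomial.X l : Ez N) = cL (MvPolynomial.X (Sum.inl l)) := by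
  unfold io evE
  rw [MvPolynomial.eval₂Hom_X']

theorem io_CX_Io (N : ℕ) (t : Fin N × Zn N) :
    io (MvPolynomial.C (MvPolynomial.X t) : Ez N) = cL (MvPolynomial.X (Sum.inr t)) := by
  unfold io evE
  rw [MvPolynomial.eval₂Hom_C, MvPolynomial.eval₂Hom_X']

theorem ch_Io (N : ℕ) (z : Zn N) :
    io (MvPolynomial.C (chD z) : Ez N) = AddMonoidAlgebra.single z 1 := by
  unfold io evE chD
  rw [MvPolynomial.eval₂Hom_C, MvPolynomial.eval₂Hom_C, AddMonoidAlgebra.mapRingHom_single,
    map_one]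

theorem jc_Io (N : ℕ) (δ : Cz N) : io (jC δ) = cL δ := by
  have h : (io (N := N)).comp (jC (N := N)).toRingHom = cL := by
    apply MvPolynomial.ringHom_ext'
    · exact RingHom.ext_rat _ _
    · intro t
      cases t with
      | inl l =>
        show io (jC (MvPolynomial.X (Sum.inl l))) = _
        unfold jC
        rw [MvPolynomial.aeval_X, Sum.elim_inl, io_X_Io]
      | inr t =>
        show io (jC (MvPolynomial.X (Sum.inr t))) = _
        unfold jC
        rw [MvPolynomial.aeval_X, Sum.elim_inr, io_CX_Io]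
  exact RingHom.congr_fun h δ

theorem sz_eq_Io (N : ℕ) (A : Finset (Zn N)) (l : Fin N) : sz A l =
    cL (MvPolynomial.X (Sum.inl l)) - AddMonoidAlgebra.single (Pi.single l 1) 1 +
      ∑ a ∈ A, AddMonoidAlgebra.single a 1 * cL (MvPolynomial.X (Sum.inr (l, a))) := by
  unfold sz uz
  rw [map_sub, map_sub, map_sub, map_sum, map_sum, io_X_Io, ch_Io]
  have h : ∀ a ∈ A, io (MvPolynomial.C (chD a * MvPolynomial.X (l, a)) : Ez N) =
      AddMonoidAlgebra.single a 1 * cL (MvPolynomial.X (Sum.inr (l, a))) := by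
    intro a _
    rw [map_mul, map_mul, ch_Io, io_CX_Io]
  rw [Finset.sum_congr rfl h]
  ring

theorem cL_eq_Io (N : ℕ) (δ : Cz N) :
    cL δ = (AddMonoidAlgebra.single 0 (algebraMap (Cz N) (Fz N) δ) : Lau (Fz N) N) := rfl

theorem clear_Io (N : ℕ) (f : Lau (Fz N) N) : ∃ (δ : Cz N) (c : Zn N → Cz N), δ ≠ 0 ∧
    cL δ * f = io (∑ z ∈ f.coeff.support, jC (c z) * MvPolynomial.C (chD z)) := by
  classical
  obtain ⟨b, hb⟩ := IsLocalization.exist_integer_multiples (nonZeroDivisors (Cz N))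
    f.coeff.support (fun z => f.coeff z)
  have hb' : ∀ z, ∃ c : Cz N, z ∈ f.coeff.support →
      algebraMap (Cz N) (Fz N) c = (b : Cz N) • f.coeff z := by
    intro z
    by_cases hz : z ∈ f.coeff.support
    · obtain ⟨c, hc⟩ := hb z hz
      exact ⟨c, fun _ => hc⟩
    · exact ⟨0, fun h => absurd h hz⟩
  choose c hc using hb'
  refine ⟨b, c, nonZeroDivisors.ne_zero b.2, ?_⟩
  rw [map_sum]
  have h1 : f = ∑ z ∈ f.coeff.support, AddMonoidAlgebra.single z (f.coeff z) :=
    (AddMonoidAlgebra.sum_coeff_single f).symm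
  calc cL (b : Cz N) * f
      = cL (b : Cz N) * ∑ z ∈ f.coeff.support, AddMonoidAlgebra.single z (f.coeff z) := by
        rw [← h1]
    _ = _ := by
        rw [Finset.mul_sum]
        refine Finset.sum_congr rfl fun z hz => ?_
        rw [map_mul, jc_Io, ch_Io, cL_eq_Io, cL_eq_Io, AddMonoidAlgebra.single_mul_single,
          AddMonoidAlgebra.single_mul_single, hc z hz, Algebra.smul_def, mul_one]

theorem unsh_sh_Io (N : ℕ) (A : Finset (Zn N)) (p : Ez N) : unsh A (sh A p) = p := by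
  have h : (unsh A).comp (sh A) = AlgHom.id (Dz N) (Ez N) := by
    apply MvPolynomial.algHom_ext
    intro l
    show unsh A (sh A (MvPolynomial.X l)) = MvPolynomial.X l
    unfold sh
    rw [MvPolynomial.aeval_X, map_add]
    unfold unsh
    rw [MvPolynomial.aeval_X, MvPolynomial.aeval_C, MvPolynomial.algebraMap_eq]
    ring
  exact AlgHom.congr_fun h p

theorem toPS_inj_Io (N : ℕ) : Function.Injective (toPS (N := N)) := by
  have h1 : Function.Injective
      (MvPolynomial.map (σ := Fin N) (algebraMap (Dz N) (Rz N))) :=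
    MvPolynomial.map_injective _ (IsFractionRing.injective (Dz N) (Rz N))
  have h2 : Function.Injective
      (MvPolynomial.coeToMvPowerSeries.ringHom (σ := Fin N) (R := Rz N)) :=
    MvPolynomial.coe_injective (Fin N) (Rz N)
  exact h2.comp h1

theorem toPS_X_Io (N : ℕ) (l : Fin N) :
    toPS (MvPolynomial.X l : Ez N) = MvPowerSeries.X l := by
  unfold toPS
  rw [RingHom.comp_apply, MvPolynomial.map_X, MvPolynomial.coeToMvPowerSeries.ringHom_apply,
    MvPolynomial.coe_X]

theorem toPS_C_Io (N : ℕ) (u : Dz N) :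
    toPS (MvPolynomial.C u : Ez N) = MvPowerSeries.C (algebraMap (Dz N) (Rz N) u) := by
  unfold toPS
  rw [RingHom.comp_apply, MvPolynomial.map_C, MvPolynomial.coeToMvPowerSeries.ringHom_apply,
    MvPolynomial.coe_C]

theorem const_Io (N : ℕ) (A : Finset (Zn N)) (δ : Cz N) :
    MvPowerSeries.constantCoeff (toPS (sh A (jC δ))) = algebraMap (Dz N) (Rz N) (phi A δ) := by
  have h : (MvPowerSeries.constantCoeff (σ := Fin N) (R := Rz N)).comp
      ((toPS (N := N)).comp ((sh A).toRingHom.comp (jC (N := N)).toRingHom)) =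
      (algebraMap (Dz N) (Rz N)).comp (phi A).toRingHom := by
    apply MvPolynomial.ringHom_ext'
    · exact RingHom.ext_rat _ _
    · intro t
      cases t with
      | inl l =>
        show MvPowerSeries.constantCoeff (toPS (sh A (jC (MvPolynomial.X (Sum.inl l))))) =
          algebraMap (Dz N) (Rz N) (phi A (MvPolynomial.X (Sum.inl l)))
        unfold jC phi
        rw [MvPolynomial.aeval_X, MvPolynomial.aeval_X, Sum.elim_inl, Sum.elim_inl]
        unfold sh
        rw [MvPolynomial.aeval_X, map_add, map_add, toPS_X_Io, toPS_C_Io,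
          MvPowerSeries.constantCoeff_X, MvPowerSeries.constantCoeff_C, zero_add]
      | inr t =>
        show MvPowerSeries.constantCoeff (toPS (sh A (jC (MvPolynomial.X (Sum.inr t))))) =
          algebraMap (Dz N) (Rz N) (phi A (MvPolynomial.X (Sum.inr t)))
        unfold jC phi
        rw [MvPolynomial.aeval_X, MvPolynomial.aeval_X, Sum.elim_inr, Sum.elim_inr]
        unfold sh
        rw [MvPolynomial.aeval_C, MvPolynomial.algebraMap_eq, toPS_C_Io,
          MvPowerSeries.constantCoeff_C]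
  exact RingHom.congr_fun h δ

theorem io_stmt : IoStmt where
  jc := jc_Io
  ch := ch_Io
  sz_eq := sz_eq_Io
  clear := clear_Io
  unsh_sh := unsh_sh_Io
  toPS_inj := toPS_inj_Io
  const := const_Io

end Pool.Agent.MP_5f4cdd_gt.OK

end

section

set_option autoImplicit false
open Finset MeasureTheory
open scoped Pointwise ENNReal

namespace Pool.Agent.MP_5f4cdd_gt.OK

/-- the monomials as power series -/
noncomputable def chi_Psi (N : ℕ) : Multiplicative (Zn N) →* MvPowerSeries (Fin N) (Rz N) where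
  toFun z := toPS (MvPolynomial.C (chD (Multiplicative.toAdd z)))
  map_one' := by
    have : (chD (Multiplicative.toAdd (1 : Multiplicative (Zn N))) : Dz N) = 1 := by
      unfold chD
      rw [toAdd_one, ← AddMonoidAlgebra.one_def, map_one]
    rw [this, map_one, map_one]
  map_mul' a b := by
    have : (chD (Multiplicative.toAdd (a * b)) : Dz N) =
        chD (Multiplicative.toAdd a) * chD (Multiplicative.toAdd b) := by
      unfold chD
      rw [← map_mul, AddMonoidAlgebra.single_mul_single, toAdd_mul, one_mul]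
    rw [this, map_mul, map_mul]

theorem sh_C_Psi {N : ℕ} (A : Finset (Zn N)) (r : Dz N) :
    sh A (MvPolynomial.C r) = MvPolynomial.C r := by
  unfold sh
  rw [MvPolynomial.aeval_C, MvPolynomial.algebraMap_eq]

theorem psi_stmt (hP : PhiStmt) (hI : IoStmt) : PsiStmt := by
  intro N A
  let g : Cz N →+* MvPowerSeries (Fin N) (Rz N) :=
    toPS.comp ((sh A : Ez N →+* Ez N).comp (jC : Cz N →ₐ[ℚ] Ez N))
  have hg : ∀ δ, g δ = toPS (sh A (jC δ)) := fun δ => rfl
  have hu : ∀ y : nonZeroDivisors (Cz N), IsUnit (g y) := by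
    intro y
    rw [MvPowerSeries.isUnit_iff_constantCoeff, hg, hI.const, isUnit_iff_ne_zero]
    intro h
    have h1 : phi A (y : Cz N) = 0 :=
      IsFractionRing.injective (Dz N) (Rz N) (h.trans (map_zero _).symm)
    have h2 : (y : Cz N) = 0 := hP N A (h1.trans (map_zero _).symm)
    exact nonZeroDivisors.coe_ne_zero y h2
  let ΨF : Fz N →+* MvPowerSeries (Fin N) (Rz N) := IsLocalization.lift hu
  have hF : ∀ δ, ΨF (algebraMap (Cz N) (Fz N) δ) = g δ := fun δ => IsLocalization.lift_eq hu δ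
  let Ψ : Lau (Fz N) N →+* MvPowerSeries (Fin N) (Rz N) :=
    AddMonoidAlgebra.liftNCRingHom ΨF (chi_Psi N) fun _ _ => Commute.all _ _
  have hs : ∀ (z : Zn N) (b : Fz N), Ψ (AddMonoidAlgebra.single z b) =
      ΨF b * chi_Psi N (Multiplicative.ofAdd z) := fun z b =>
    AddMonoidAlgebra.liftNCRingHom_single _ _ _ z b
  have hc : ∀ δ, Ψ (cL δ) = toPS (sh A (jC δ)) := by
    intro δ
    have : (cL δ : Lau (Fz N) N) = AddMonoidAlgebra.single 0 (algebraMap (Cz N) (Fz N) δ) := rfl
    rw [this, hs, hF, ofAdd_zero, map_one, mul_one, hg]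
  have hj : ∀ δ, Ψ (io (jC δ)) = toPS (sh A (jC δ)) := fun δ => by rw [hI.jc, hc]
  have hch : ∀ z, Ψ (io (MvPolynomial.C (chD z))) = toPS (sh A (MvPolynomial.C (chD z))) := by
    intro z
    rw [hI.ch, hs, map_one, one_mul, sh_C_Psi]
    rfl
  have key : Ψ.comp io = toPS.comp (sh A : Ez N →+* Ez N) := by
    refine MvPolynomial.ringHom_ext ?_ ?_
    · have k2 : (Ψ.comp io).comp (MvPolynomial.C : Dz N →+* Ez N) =
          (toPS.comp (sh A : Ez N →+* Ez N)).comp (MvPolynomial.C : Dz N →+* Ez N) := by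
        refine MvPolynomial.ringHom_ext ?_ ?_
        · have k3 : ((Ψ.comp io).comp (MvPolynomial.C : Dz N →+* Ez N)).comp
                (MvPolynomial.C : Lau ℚ N →+* Dz N) =
              ((toPS.comp (sh A : Ez N →+* Ez N)).comp (MvPolynomial.C : Dz N →+* Ez N)).comp
                (MvPolynomial.C : Lau ℚ N →+* Dz N) := by
            refine AddMonoidAlgebra.ringHom_ext' (RingHom.ext_rat _ _) ?_
            refine MonoidHom.ext fun z => ?_
            exact hch (Multiplicative.toAdd z)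
          exact fun r => RingHom.congr_fun k3 r
        · intro t
          have e : (jC (MvPolynomial.X (Sum.inr t)) : Ez N) = MvPolynomial.C (MvPolynomial.X t) := by
            unfold jC
            rw [MvPolynomial.aeval_X, Sum.elim_inr]
          have := hj (MvPolynomial.X (Sum.inr t))
          rw [e] at this
          exact this
      exact fun r => RingHom.congr_fun k2 r
    · intro l
      have e : (jC (MvPolynomial.X (Sum.inl l)) : Ez N) = MvPolynomial.X l := by
        unfold jC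
        rw [MvPolynomial.aeval_X, Sum.elim_inl]
      have := hj (MvPolynomial.X (Sum.inl l))
      rw [e] at this
      exact this
  exact ⟨Ψ, fun p => RingHom.congr_fun key p⟩

end Pool.Agent.MP_5f4cdd_gt.OK

end

section

set_option autoImplicit false
open Finset MeasureTheory
open scoped Pointwise ENNReal

namespace Pool.Agent.MP_5f4cdd_gt.OK

variable {N : ℕ}

lemma coeff_mul_lex_Gen {R : Type} [CommRing R] (φ ψ : MvPowerSeries (Fin N) R)
    (γ : Fin N →₀ ℕ)
    (h : ((toLex γ : Lex (Fin N →₀ ℕ)) : WithTop (Lex (Fin N →₀ ℕ))) ≤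
      MvPowerSeries.lexOrder ψ) :
    MvPowerSeries.coeff γ (φ * ψ) =
      MvPowerSeries.constantCoeff φ * MvPowerSeries.coeff γ ψ := by
  classical
  rw [MvPowerSeries.coeff_mul, Finset.sum_eq_single (0, γ)]
  · simp
  · rintro ⟨a, b⟩ hab hne
    have hab' : a + b = γ := by simpa using hab
    have hle : b ≤ γ := by rw [← hab']; exact le_add_self
    have hne' : b ≠ γ := by
      intro hb
      apply hne
      subst hb
      have ha : a = 0 := by simpa using hab'
      rw [ha]
    have hb : toLex b < toLex γ := Finsupp.toLex_monotone.strictMono_of_injective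
      toLex.injective (lt_of_le_of_ne hle hne')
    have h0 : MvPowerSeries.coeff b ψ = 0 :=
      MvPowerSeries.coeff_eq_zero_of_lt_lexOrder
        (lt_of_lt_of_le (WithTop.coe_lt_coe.2 hb) h)
    simp [h0]
  · intro h0
    exact absurd (by simp) h0

lemma cL_eq_Gen (δ : Cz N) :
    cL δ = AddMonoidAlgebra.single (0 : Zn N) (algebraMap (Cz N) (Fz N) δ) := by
  simp [cL, AddMonoidAlgebra.coe_algebraMap]

lemma alg_ne_Gen {δ : Cz N} (hδ : δ ≠ 0) : algebraMap (Cz N) (Fz N) δ ≠ 0 := by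
  intro h
  exact hδ (IsFractionRing.injective (Cz N) (Fz N) (by rw [h, map_zero]))

lemma inv_mul_cL_Gen {δ : Cz N} (hδ : δ ≠ 0) :
    algebraMap (Fz N) (Lau (Fz N) N) (algebraMap (Cz N) (Fz N) δ)⁻¹ * cL δ = 1 := by
  have : cL δ = algebraMap (Fz N) (Lau (Fz N) N) (algebraMap (Cz N) (Fz N) δ) := rfl
  rw [this, ← map_mul, inv_mul_cancel₀ (alg_ne_Gen hδ), map_one]

lemma sh_C_Gen (A : Finset (Zn N)) (d : Dz N) :
    sh A (MvPolynomial.C d) = MvPolynomial.C d := by
  simp [sh]

lemma toPS_C_Gen (d : Dz N) :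
    toPS (MvPolynomial.C d : Ez N) = MvPowerSeries.C (algebraMap (Dz N) (Rz N) d) := by
  simp [toPS]

lemma toPS_X_Gen (l : Fin N) :
    toPS (MvPolynomial.X l : Ez N) = MvPowerSeries.X l := by
  simp [toPS]

lemma coeff_toPS_Gen (p : Ez N) (γ : Fin N →₀ ℕ) :
    MvPowerSeries.coeff γ (toPS p) = algebraMap (Dz N) (Rz N) (MvPolynomial.coeff γ p) := by
  simp [toPS, MvPolynomial.coeff_map]

lemma sz_mem_Gen (hV : VStmt) (hI : IoStmt) (A : Finset (Zn N)) (h0 : (0 : Zn N) ∈ A)
    (h1 : ∀ j, (Pi.single j 1 : Zn N) ∈ A) (j : Fin N) : sz A j ∈ VV (Fz N) A := by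
  rw [hI.sz_eq]
  refine Submodule.add_mem _ (Submodule.sub_mem _ ?_ ?_) (Submodule.sum_mem _ fun a ha => ?_)
  · rw [cL_eq_Gen]
    exact hV.single _ _ _ _ h0 _
  · exact hV.single _ _ _ _ (h1 j) _
  · rw [cL_eq_Gen, AddMonoidAlgebra.single_mul_single, add_zero]
    exact hV.single _ _ _ _ ha _

theorem gen_stmt (hV : VStmt) (hP : PhiStmt) (hI : IoStmt) (hPsi : PsiStmt) (hS : SatStmt) :
    GenStmt := by
  intro N A h0 h1
  obtain ⟨Ψ, hΨ⟩ := hPsi N A
  let alg : Algebra (Fz N) (Rz N) :=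
    ((MvPowerSeries.constantCoeff.comp Ψ).comp (algebraMap (Fz N) (Lau (Fz N) N))).toAlgebra
  refine ⟨Fz N, Rz N, inferInstance, inferInstance, alg, ⟨?_⟩⟩
  refine
    { Ψ := Ψ
      s := sz A
      inj := ?_
      alg := fun c => rfl
      psi_s := ?_
      s_mem := sz_mem_Gen hV hI A h0 h1
      lead := ?_
      sat := hS N A Ψ h0 h1 hΨ }
  · rw [injective_iff_map_eq_zero]
    intro f hf
    obtain ⟨δ, c, hδ, hc⟩ := hI.clear N f
    set f0 : Ez N := ∑ z ∈ f.coeff.support, jC (c z) * MvPolynomial.C (chD z) with hf0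
    have h2 : toPS (sh A f0) = 0 := by
      rw [← hΨ, ← hc, map_mul, hf, mul_zero]
    have h3 : sh A f0 = 0 := hI.toPS_inj N (by rw [h2, map_zero])
    have h4 : f0 = 0 := by rw [← hI.unsh_sh N A f0, h3, map_zero]
    have h5 : cL δ * f = 0 := by rw [hc, h4, map_zero]
    calc f = (algebraMap (Fz N) (Lau (Fz N) N) (algebraMap (Cz N) (Fz N) δ)⁻¹ * cL δ) * f := by
          rw [inv_mul_cL_Gen hδ, one_mul]
      _ = 0 := by rw [mul_assoc, h5, mul_zero]
  · intro j
    have h2 : sh A (MvPolynomial.X j - MvPolynomial.C (uz A j)) = MvPolynomial.X j := by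
      rw [map_sub, sh_C_Gen, sh, MvPolynomial.aeval_X]
      exact add_sub_cancel_right (MvPolynomial.X j : Ez N) (MvPolynomial.C (uz A j))
    rw [sz, hΨ, h2, toPS_X_Gen]
  · intro f γ hγ
    obtain ⟨δ, c, hδ, hc⟩ := hI.clear N f
    set f0 : Ez N := ∑ z ∈ f.coeff.support, jC (c z) * MvPolynomial.C (chD z) with hf0
    refine ⟨algebraMap (Fz N) (Lau (Fz N) N) (algebraMap (Cz N) (Fz N) δ)⁻¹ *
      io (MvPolynomial.C (MvPolynomial.coeff γ (sh A f0))), ?_⟩
    have h2 : MvPowerSeries.constantCoeff (Ψ (io (MvPolynomial.C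
        (MvPolynomial.coeff γ (sh A f0))))) =
        MvPowerSeries.constantCoeff (Ψ (cL δ)) * MvPowerSeries.coeff γ (Ψ f) := by
      rw [← coeff_mul_lex_Gen _ _ _ hγ, ← map_mul, hc, hΨ, hΨ, sh_C_Gen, toPS_C_Gen,
        coeff_toPS_Gen, MvPowerSeries.constantCoeff_C]
    rw [map_mul, map_mul, h2, ← mul_assoc, ← map_mul, ← map_mul, inv_mul_cL_Gen hδ, map_one,
      map_one, one_mul]

end Pool.Agent.MP_5f4cdd_gt.OK

end

section

set_option autoImplicit false

namespace Pool.Agent.MP_5f4cdd_gt.OK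

theorem gen_all : GenStmt :=
  gen_stmt v_stmt phi_stmt io_stmt (psi_stmt phi_stmt io_stmt) (sat_stmt v_stmt io_stmt)

theorem alg_all : AlgStmt :=
  alg_stmt v_stmt gen_all ind_stmt (fin_stmt v_stmt ind_stmt) leaf_stmt
    (div_stmt v_stmt (rees_stmt v_stmt))

end Pool.Agent.MP_5f4cdd_gt.OK

end

section

set_option autoImplicit false
open Finset MeasureTheory
open scoped Pointwise ENNReal
namespace Pool.Agent.MP_5f4cdd_gt.OK

/-- number of indices with the same value -/
def mult_Int {D : ℕ} (y : Fin D → ℤ) (u : Fin D) : ℕ :=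
  (univ.filter fun u' => y u' = y u).card

/-- number of earlier indices with the same value -/
def rk_Int {D : ℕ} (y : Fin D → ℤ) (u : Fin D) : ℕ :=
  (univ.filter fun u' => u' < u ∧ y u' = y u).card

theorem rk_lt_Int {D : ℕ} (y : Fin D → ℤ) (u : Fin D) : rk_Int y u < mult_Int y u := by
  unfold rk_Int mult_Int
  apply card_lt_card
  refine ⟨fun v hv => ?_, fun h => ?_⟩
  · simp only [mem_filter, mem_univ, true_and] at hv ⊢
    exact hv.2
  · have := h (mem_filter.2 ⟨mem_univ u, rfl⟩)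
    simp at this

theorem rk_mono_Int {D : ℕ} (y : Fin D → ℤ) {u v : Fin D} (huv : u < v) (h : y u = y v) :
    rk_Int y u < rk_Int y v := by
  unfold rk_Int
  apply card_lt_card
  refine ⟨fun w hw => ?_, fun h' => ?_⟩
  · simp only [mem_filter, mem_univ, true_and] at hw ⊢
    exact ⟨hw.1.trans huv, hw.2.trans h⟩
  · have := h' (mem_filter.2 ⟨mem_univ u, huv, h⟩)
    simp at this

/-- left end point of the interval of one coordinate -/
noncomputable def T_Int {D : ℕ} (y : Fin D → ℤ) (u : Fin D) : ℝ :=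
  (y u : ℝ) + (rk_Int y u : ℝ) * ((mult_Int y u : ℝ))⁻¹

theorem mult_pos_Int {D : ℕ} (y : Fin D → ℤ) (u : Fin D) : (0 : ℝ) < mult_Int y u := by
  have := rk_lt_Int y u
  exact_mod_cast (Nat.zero_le _).trans_lt this

theorem T_ge_Int {D : ℕ} (y : Fin D → ℤ) (u : Fin D) : (y u : ℝ) ≤ T_Int y u := by
  unfold T_Int
  have := mult_pos_Int y u
  have : 0 ≤ (rk_Int y u : ℝ) * ((mult_Int y u : ℝ))⁻¹ := by positivity
  linarith

theorem T_le_Int {D : ℕ} (y : Fin D → ℤ) (u : Fin D) :
    T_Int y u + ((mult_Int y u : ℝ))⁻¹ ≤ (y u : ℝ) + 1 := by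
  unfold T_Int
  have hm := mult_pos_Int y u
  have h1 : (rk_Int y u : ℝ) + 1 ≤ mult_Int y u := by exact_mod_cast rk_lt_Int y u
  have h2 : ((rk_Int y u : ℝ) + 1) * ((mult_Int y u : ℝ))⁻¹ ≤ 1 := by
    rw [← div_eq_mul_inv, div_le_one hm]; exact h1
  nlinarith

theorem T_step_Int {D : ℕ} (y : Fin D → ℤ) (hy : Monotone y) {u v : Fin D} (huv : u < v) :
    T_Int y u + ((mult_Int y u : ℝ))⁻¹ ≤ T_Int y v := by
  rcases (hy huv.le).eq_or_lt with h | h
  · have hm : mult_Int y u = mult_Int y v := by unfold mult_Int; rw [h]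
    have h1 : (rk_Int y u : ℝ) + 1 ≤ rk_Int y v := by exact_mod_cast rk_mono_Int y huv h
    have hp : 0 < ((mult_Int y v : ℝ))⁻¹ := inv_pos.2 (mult_pos_Int y v)
    unfold T_Int
    rw [hm, h]
    nlinarith
  · have h1 : (y u : ℝ) + 1 ≤ y v := by exact_mod_cast h
    linarith [T_le_Int y u, T_ge_Int y v]

theorem int_stmt : IntStmt := by
  intro ι _ D x E g S hx hg hE hS
  set a : Fin D → ℝ := fun u => ∑ k, T_Int (x k) u with ha
  set len : Fin D → ℝ := fun u => ∑ k, ((mult_Int (x k) u : ℝ))⁻¹ with hlen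
  have hlen0 : ∀ u, 0 ≤ len u := fun u =>
    sum_nonneg fun k _ => (inv_pos.2 (mult_pos_Int (x k) u)).le
  have hstep : ∀ u v, u < v → a u + len u ≤ a v := by
    intro u v huv
    simp only [ha, hlen, ← sum_add_distrib]
    exact sum_le_sum fun k _ => T_step_Int (x k) (hx k) huv
  have hfl : ∀ u t, t ∈ Set.Ico (a u) (a u + len u) → ⌊t⌋ ∈ S ∧ E u ≤ g ⌊t⌋ := by
    intro u t ht
    have h1 : ((∑ k, x k u : ℤ) : ℝ) ≤ t := by
      refine le_trans ?_ ht.1
      push_cast
      exact sum_le_sum fun k _ => T_ge_Int (x k) u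
    have h2 : t ≤ ((∑ k, x k u + (Fintype.card ι : ℤ) : ℤ) : ℝ) := by
      refine le_trans ht.2.le ?_
      simp only [ha, hlen, ← sum_add_distrib]
      refine (sum_le_sum fun k _ => T_le_Int (x k) u).trans (le_of_eq ?_)
      rw [sum_add_distrib]
      push_cast
      simp
    have h3 : ∑ k, x k u ≤ ⌊t⌋ := Int.le_floor.2 h1
    have h4 : ⌊t⌋ ≤ ∑ k, x k u + (Fintype.card ι : ℤ) := by
      have := Int.floor_le_floor h2
      rwa [Int.floor_intCast] at this
    have := hS u (⌊t⌋ - ∑ k, x k u) (by omega) (by omega)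
    rwa [add_sub_cancel] at this
  have hpt : ∀ t : ℝ, ∑ u, (Set.Ico (a u) (a u + len u)).indicator (fun _ => E u) t ≤
      ∑ z ∈ S, (Set.Ico (z : ℝ) (z + 1)).indicator (fun _ => g z) t := by
    intro t
    have hR : ∀ z ∈ S, 0 ≤ (Set.Ico (z : ℝ) (z + 1)).indicator (fun _ => g z) t :=
      fun z _ => Set.indicator_nonneg (fun _ _ => hg z) t
    by_cases hex : ∃ u, t ∈ Set.Ico (a u) (a u + len u)
    · obtain ⟨u, hu⟩ := hex
      rw [sum_eq_single u]
      · rw [Set.indicator_of_mem hu]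
        obtain ⟨h1, h2⟩ := hfl u t hu
        refine le_trans ?_ (single_le_sum hR h1)
        rw [Set.indicator_of_mem (show t ∈ Set.Ico ((⌊t⌋ : ℤ) : ℝ) (⌊t⌋ + 1) from
          ⟨Int.floor_le t, Int.lt_floor_add_one t⟩)]
        exact h2
      · intro v _ hvu
        apply Set.indicator_of_notMem
        intro hv
        rcases lt_or_gt_of_ne hvu with h | h
        · have := hstep v u h
          linarith [hv.2, hu.1]
        · have := hstep u v h
          linarith [hv.1, hu.2]
      · intro h; exact absurd (mem_univ u) h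
    · push Not at hex
      rw [sum_eq_zero fun u _ => Set.indicator_of_notMem (hex u) _]
      exact sum_nonneg hR
  have hint : ∀ (p q c : ℝ), Integrable ((Set.Ico p q).indicator (fun _ : ℝ => c)) volume := by
    intro p q c
    rw [integrable_indicator_iff measurableSet_Ico]
    exact integrableOn_const (by simp [Real.volume_Ico])
  have hval : ∀ (p l c : ℝ), 0 ≤ l →
      ∫ t, (Set.Ico p (p + l)).indicator (fun _ : ℝ => c) t = c * l := by
    intro p l c hl
    rw [integral_indicator_const c measurableSet_Ico]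
    simp [Measure.real, Real.volume_Ico, ENNReal.toReal_ofReal hl, mul_comm]
  have hI := integral_mono (integrable_finset_sum univ fun u _ => hint (a u) (a u + len u) (E u))
    (integrable_finset_sum S fun (z : ℤ) _ => hint (z : ℝ) (z + 1) (g z)) hpt
  rw [integral_finset_sum _ fun u _ => hint (a u) (a u + len u) (E u),
    integral_finset_sum S fun (z : ℤ) _ => hint (z : ℝ) (z + 1) (g z)] at hI
  simp only [hval _ _ _ (hlen0 _), hval _ _ _ zero_le_one, mul_one] at hI
  exact hI

end Pool.Agent.MP_5f4cdd_gt.OK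

end

section

set_option autoImplicit false
open Finset MeasureTheory
open scoped Pointwise ENNReal

namespace Pool.Agent.MP_5f4cdd_gt.OK

theorem exists_One {α : Type} (Ω : Finset α) (p : α → ℤ) {D m : ℕ} (h : Ω.card * m = D) :
    ∃ y : Fin D → α, (∀ u, y u ∈ Ω) ∧ Monotone (fun u => p (y u)) ∧
      ∀ F : α → ℝ, ∑ u, F (y u) = m * ∑ ω ∈ Ω, F ω := by
  let e : Ω × Fin m ≃ Fin D := Fintype.equivFinOfCardEq (by simpa using h)
  let σ := Tuple.sort fun u => p (e.symm u).1
  refine ⟨fun u => (e.symm (σ u)).1, fun u => (e.symm (σ u)).1.2,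
    Tuple.monotone_sort fun u => p (e.symm u).1, fun F => ?_⟩
  refine (Equiv.sum_comp (σ.trans e.symm) fun z : Ω × Fin m => F z.1).trans ?_
  rw [Fintype.sum_prod_type, ← sum_coe_sort Ω, mul_sum]
  simp

theorem gibbs_One {κ : Type} [Fintype κ] (θ a : κ → ℝ) (hθ : ∀ k, 0 ≤ θ k) (h1 : ∑ k, θ k = 1)
    (ha : ∀ k, 0 < a k) :
    0 < ∑ k, a k ∧ ∑ k, θ k * (Real.log (a k) - Real.log (θ k)) ≤ Real.log (∑ k, a k) := by
  have hs : 0 < ∑ k, a k := sum_pos (fun k _ => ha k) (nonempty_of_sum_ne_zero (h1 ▸ one_ne_zero))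
  refine ⟨hs, ?_⟩
  have h : ∀ k, θ k * (Real.log (a k) - Real.log (θ k)) ≤
      θ k * Real.log (∑ k, a k) + a k / (∑ k, a k) - θ k := fun k => by
    rcases (hθ k).eq_or_lt with e | e
    · simpa [← e] using div_nonneg (ha k).le hs.le
    have h2 := mul_le_mul_of_nonneg_left
      (Real.log_le_sub_one_of_pos (div_pos (div_pos (ha k) hs) e)) e.le
    rw [Real.log_div (div_pos (ha k) hs).ne' e.ne', Real.log_div (ha k).ne' hs.ne', mul_sub _ _ 1,
      mul_div_cancel₀ _ e.ne'] at h2
    linarith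
  refine (sum_le_sum fun k _ => h k).trans_eq ?_
  rw [sum_sub_distrib, sum_add_distrib, ← sum_mul, ← sum_div, h1, div_self hs.ne']
  ring

theorem one_stmt (hI : IntStmt) : OneStmt := by
  intro ι α _ Ω p ψ θ c g S hΩ hθ h1 hg h
  classical
  obtain ⟨D, hD⟩ : ∃ D, D = ∏ k, (Ω k).card := ⟨_, rfl⟩
  have D0 : 0 < D := hD ▸ prod_pos fun k _ => (hΩ k).card_pos
  choose m hm using fun k => show (Ω k).card ∣ D from hD ▸ dvd_prod_of_mem _ (mem_univ k)
  have m0 : ∀ k, (0 : ℝ) < m k := fun k => Nat.cast_pos.2 (Nat.pos_of_mul_pos_left (hm k ▸ D0))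
  have c0 : ∀ k, (0 : ℝ) < (Ω k).card := fun k => Nat.cast_pos.2 (hΩ k).card_pos
  have D1 : (0 : ℝ) < D := Nat.cast_pos.2 D0
  have hm' : ∀ k, (D : ℝ) = (Ω k).card * m k := fun k => by exact_mod_cast hm k
  choose y y1 y2 y3 using fun k => exists_One (Ω k) p (hm k).symm
  let f : ι → α → ℝ := fun k ω => ((Ω k).filter fun ω' => p ω' = p ω).card
  have f0 : ∀ k u, 0 < f k (y k u) := fun k u =>
    Nat.cast_pos.2 (card_pos.2 ⟨y k u, mem_filter.2 ⟨y1 k u, rfl⟩⟩)
  have e1 : ∀ k u, ((univ.filter fun u' => p (y k u') = p (y k u)).card : ℝ) =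
      m k * f k (y k u) := fun k u => by
    simpa only [sum_boole] using y3 k fun ω => if p ω = p (y k u) then 1 else 0
  have k1 := hI ι D (fun k u => p (y k u)) (fun u => Real.exp (c + ∑ k, ψ k (p (y k u)))) g S y2 hg
    (fun u => (Real.exp_pos _).le) fun u => h (fun k => y k u) fun k => y1 k u
  simp only [e1] at k1
  have k2 := fun u => gibbs_One θ (fun k => (m k * f k (y k u))⁻¹) hθ h1
    fun k => inv_pos.2 (mul_pos (m0 k) (f0 k u))
  obtain ⟨k3, k4⟩ := gibbs_One (fun _ : Fin D => (D : ℝ)⁻¹)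
    (fun u => Real.exp (c + ∑ k, ψ k (p (y k u))) * ∑ k, (m k * f k (y k u))⁻¹)
    (fun _ => (inv_pos.2 D1).le) (by simp [D1.ne']) fun u => mul_pos (Real.exp_pos _) (k2 u).1
  refine le_trans ?_ (k4.trans (Real.log_le_log k3 k1))
  have k5 : ∀ u, c + ∑ k, (ψ k (p (y k u)) + θ k * (Real.log (Ω k).card - Real.log (f k (y k u))) -
      θ k * Real.log (θ k)) ≤ Real.log (Real.exp (c + ∑ k, ψ k (p (y k u))) *
        ∑ k, (m k * f k (y k u))⁻¹) - Real.log (D : ℝ)⁻¹ := fun u => by
    have e2 : ∑ k, (ψ k (p (y k u)) + θ k * (Real.log (Ω k).card - Real.log (f k (y k u))) -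
        θ k * Real.log (θ k)) = ∑ k, ψ k (p (y k u)) + (∑ k, θ k) * Real.log D +
        ∑ k, θ k * (Real.log (m k * f k (y k u))⁻¹ - Real.log (θ k)) := by
      rw [sum_mul, ← sum_add_distrib, ← sum_add_distrib]
      refine sum_congr rfl fun k _ => ?_
      rw [Real.log_inv, Real.log_mul (m0 k).ne' (f0 k u).ne', hm' k,
        Real.log_mul (c0 k).ne' (m0 k).ne']
      ring
    rw [e2, h1, Real.log_mul (Real.exp_ne_zero _) (k2 u).1.ne', Real.log_exp, Real.log_inv]
    linarith [(k2 u).2]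
  refine le_trans (le_of_eq ?_)
    (sum_le_sum fun u _ => mul_le_mul_of_nonneg_left (k5 u) (inv_pos.2 D1).le)
  rw [← mul_sum, sum_add_distrib, sum_comm, mul_add, mul_sum, mul_sum]
  congr 1
  · simp [D1.ne']
  refine sum_congr rfl fun k _ => ?_
  rw [sum_sub_distrib, y3 k fun ω => ψ k (p ω) + θ k * (Real.log (Ω k).card - Real.log (f k ω)),
    sum_const, card_fin, nsmul_eq_mul, hm' k]
  have := c0 k
  have := m0 k
  field_simp
  rfl

end Pool.Agent.MP_5f4cdd_gt.OK

end

section

set_option autoImplicit false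
open Finset MeasureTheory
open scoped Pointwise ENNReal

namespace Pool.Agent.MP_5f4cdd_gt.OK

variable {N : ℕ}

/-- the slice with given first coordinate -/
def sl_DI (G : Finset (Zn (N + 1))) (z : ℤ) : Finset (Zn N) :=
  (G.filter fun g => g 0 = z).image fun g => Fin.tail g

lemma inj_DI {g g' : Zn (N + 1)} (h0 : g 0 = g' 0) (h : Fin.tail g = Fin.tail g') : g = g' := by
  funext l
  refine Fin.cases h0 (fun l => congrFun h l) l

lemma mem_sl_DI {G : Finset (Zn (N + 1))} {z : ℤ} {t : Zn N} :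
    t ∈ sl_DI G z ↔ (Fin.cons z t : Zn (N + 1)) ∈ G := by
  rw [sl_DI, mem_image]
  constructor
  · rintro ⟨g, hg, rfl⟩
    obtain ⟨h1, rfl⟩ := mem_filter.1 hg
    rwa [Fin.cons_self_tail]
  · exact fun h => ⟨_, mem_filter.2 ⟨h, rfl⟩, rfl⟩

lemma tail_mem_DI {G : Finset (Zn (N + 1))} {g : Zn (N + 1)} (hg : g ∈ G) :
    Fin.tail g ∈ sl_DI G (g 0) :=
  mem_sl_DI.2 (by rwa [Fin.cons_self_tail])

lemma sum_sl_DI (G : Finset (Zn (N + 1))) (z : ℤ) (F : Zn N → ℝ) :
    ∑ t ∈ sl_DI G z, F t = ∑ g ∈ G with g 0 = z, F (Fin.tail g) :=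
  sum_image fun _ h _ h' e => inj_DI ((mem_filter.1 h).2.trans (mem_filter.1 h').2.symm) e

lemma card_sl_DI (G : Finset (Zn (N + 1))) (z : ℤ) :
    (sl_DI G z).card = (G.filter fun g => g 0 = z).card :=
  card_image_of_injOn fun _ h _ h' e =>
    inj_DI ((mem_filter.1 h).2.trans (mem_filter.1 h').2.symm) e

lemma fib_succ_DI (G : Finset (Zn (N + 1))) (j : ℕ) (g : Zn (N + 1)) :
    fib G (j + 1) g = fib (sl_DI G (g 0)) j (Fin.tail g) := by
  rw [fib, fib, sl_DI, filter_image, card_image_of_injOn fun _ h _ h' e => inj_DI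
    ((mem_filter.1 (mem_filter.1 h).1).2.trans (mem_filter.1 (mem_filter.1 h').1).2.symm) e,
    filter_filter]
  refine congrArg card (filter_congr fun g' _ => ?_)
  rw [Fin.forall_fin_succ]
  simp only [Fin.val_zero, Fin.val_succ, Nat.add_lt_add_iff_right, Nat.zero_lt_succ, true_imp_iff,
    Fin.tail]

lemma fib_zero_DI (G : Finset (Zn N)) (g : Zn N) : fib G 0 g = G.card := by
  simp [fib]

lemma ent_zero_DI (G : Finset (Zn (N + 1))) : ent G 0 = (∑ g ∈ G, (Real.log G.card -
    Real.log (G.filter fun g' => g' 0 = g 0).card)) / G.card := by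
  simp only [ent, fib_succ_DI, fib_zero_DI, card_sl_DI]

lemma ent_succ_DI (G : Finset (Zn (N + 1))) (j : ℕ) :
    ent G (j + 1) = (∑ g ∈ G, ent (sl_DI G (g 0)) j) / G.card := by
  have hm : ∀ g ∈ G, g 0 ∈ G.image fun g => g 0 := fun g hg => mem_image_of_mem _ hg
  rw [ent, ← sum_fiberwise_of_maps_to hm, ← sum_fiberwise_of_maps_to hm
    (fun g => ent (sl_DI G (g 0)) j)]
  refine congrArg (· / _) (sum_congr rfl fun z hz => ?_)
  have h0 : ((sl_DI G z).card : ℝ) ≠ 0 := by
    obtain ⟨g, hg, rfl⟩ := mem_image.1 hz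
    exact Nat.cast_ne_zero.2 (card_pos.2 ⟨_, tail_mem_DI hg⟩).ne'
  have e : ∑ g ∈ G with g 0 = z, ent (sl_DI G (g 0)) j = ∑ t ∈ sl_DI G z,
      (Real.log (fib (sl_DI G z) j t) - Real.log (fib (sl_DI G z) (j + 1) t)) := by
    rw [sum_congr rfl (g := fun _ => ent (sl_DI G z) j) fun g hg => by rw [(mem_filter.1 hg).2],
      sum_const, ← card_sl_DI, nsmul_eq_mul, ent, mul_div_cancel₀ _ h0]
  rw [e, sum_sl_DI]
  refine sum_congr rfl fun g hg => ?_
  rw [fib_succ_DI, fib_succ_DI, (mem_filter.1 hg).2]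

theorem di_stmt (hO : OneStmt) : DIStmt := by
  intro N
  induction N with
  | zero =>
    intro ι _ G θ S _ _ _ _
    rw [univ_eq_empty, sum_empty]
    exact Real.log_natCast_nonneg _
  | succ N ih =>
    intro ι _ G θ S hG h0 h1 hS
    have key := hO ι (Zn (N + 1)) G (fun ω => ω 0)
      (fun k z => ∑ j : Fin N, θ j.succ k * ent (sl_DI (G k) z) j) (θ 0)
      (-∑ j : Fin N, ∑ k, θ j.succ k * Real.log (θ j.succ k)) (fun z => (sl_DI S z).card)
      (S.image fun g => g 0) hG (h0 0) (h1 0) (fun z => Nat.cast_nonneg _) fun ω hω q q0 q1 => by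
        have hS' : ∀ g : ι → Zn N, (∀ k, g k ∈ sl_DI (G k) (ω k 0)) → ∀ q' : Zn N,
            (∀ l, 0 ≤ q' l ∧ q' l ≤ Fintype.card ι) →
            ∑ k, g k + q' ∈ sl_DI S (∑ k, ω k 0 + q) := fun g hg q' hq' => by
          have := hS (fun k => Fin.cons (ω k 0) (g k)) (fun k => mem_sl_DI.1 (hg k))
            (Fin.cons q q') (Fin.cases ⟨q0, q1⟩ hq')
          rw [mem_sl_DI]
          refine (congrArg (· ∈ S) (funext fun l => ?_)).mp this
          refine Fin.cases ?_ (fun l => ?_) l <;> simp [Finset.sum_apply]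
        have ht : ∀ k, Fin.tail (ω k) ∈ sl_DI (G k) (ω k 0) := fun k => tail_mem_DI (hω k)
        have hn := hS' _ ht 0 fun l => ⟨le_rfl, Int.natCast_nonneg _⟩
        refine ⟨mem_image.2 ⟨_, mem_sl_DI.1 hn, rfl⟩, ?_⟩
        rw [← Real.le_log_iff_exp_le (by exact_mod_cast card_pos.2 ⟨_, hn⟩)]
        refine le_trans (le_of_eq ?_) (ih ι (fun k => sl_DI (G k) (ω k 0)) (fun j => θ j.succ) _
          (fun k => ⟨_, ht k⟩) (fun j => h0 _) (fun j => h1 _) hS')
        simp only [mul_sub, sum_sub_distrib]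
        rw [sum_comm (s := univ) (t := univ) (f := fun k (j : Fin N) =>
          θ j.succ k * ent (sl_DI (G k) (ω k 0)) j)]
        ring
    have e1 : ∑ z ∈ S.image fun g => g 0, ((sl_DI S z).card : ℝ) = S.card := by
      rw [card_eq_sum_card_image (fun g => g 0) S]
      simp only [card_sl_DI, Nat.cast_sum]
    rw [e1] at key
    refine le_trans (le_of_eq ?_) key
    have e2 : ∀ k, (∑ ω ∈ G k, (∑ j : Fin N, θ j.succ k * ent (sl_DI (G k) (ω 0)) j +
        θ 0 k * (Real.log (G k).card -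
          Real.log ((G k).filter fun ω' => ω' 0 = ω 0).card))) / (G k).card =
        ∑ j : Fin N, θ j.succ k * ent (G k) (j + 1) + θ 0 k * ent (G k) 0 := fun k => by
      rw [sum_add_distrib, add_div, ← mul_sum, mul_div_assoc, ← ent_zero_DI, sum_comm, sum_div]
      refine congrArg (· + _) (sum_congr rfl fun j _ => ?_)
      rw [← mul_sum, mul_div_assoc, ent_succ_DI]
    simp only [e2]
    rw [Fin.sum_univ_succ]
    simp only [mul_sub, sum_sub_distrib, sum_add_distrib, Fin.val_zero, Fin.val_succ]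
    rw [sum_comm (s := univ) (t := univ) (f := fun k (j : Fin N) =>
      θ j.succ k * ent (G k) (j + 1))]
    ring

end Pool.Agent.MP_5f4cdd_gt.OK

end

section

set_option autoImplicit false
open Finset MeasureTheory
open scoped Pointwise ENNReal

namespace Pool.Agent.MP_5f4cdd_gt.OK

lemma pas_Up {N : ℕ} {n : ℕ → ℕ → ℕ} {c : ℕ → ℕ} (h0 : ∀ j, n j 0 ≤ c j)
    (hs : ∀ j < N, ∀ x, n j (x + 1) ≤ n (j + 1) (x + 1) + n j x) (hN : ∀ x, n N x ≤ c N) (i : ℕ) :
    ∀ j, j + i = N → ∀ x, n j x ≤ ∑ l ∈ range (i + 1), (x + l).choose l * c (j + l) := by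
  induction i with
  | zero =>
    rintro j rfl x
    simpa using hN x
  | succ i ih =>
    intro j hj x
    induction x with
    | zero =>
      rw [sum_range_succ']
      simpa using (h0 j).trans (Nat.le_add_left _ _)
    | succ x hx =>
      have h1 := ih (j + 1) (by omega) (x + 1)
      have h2 := hs j (by omega) x
      rw [sum_range_succ'] at hx ⊢
      have e : ∑ l ∈ range (i + 1), (x + 1 + (l + 1)).choose (l + 1) * c (j + (l + 1)) =
          ∑ l ∈ range (i + 1), (x + 1 + l).choose l * c (j + 1 + l) +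
            ∑ l ∈ range (i + 1), (x + (l + 1)).choose (l + 1) * c (j + (l + 1)) := by
        rw [← sum_add_distrib]
        refine sum_congr rfl fun l _ => ?_
        rw [show x + 1 + (l + 1) = (x + 1 + l) + 1 by ring, Nat.choose_succ_succ',
          show x + (l + 1) = x + 1 + l by ring, show j + 1 + l = j + (l + 1) by ring, add_mul]
      simp only [Nat.choose_zero_right, one_mul] at hx ⊢
      omega

theorem up_stmt : UpStmt := fun N A B Φ x y => by
  refine (Φ.lo _).trans (Nat.mul_le_mul_left _ ?_)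
  have key := pas_Up (N := N) (c := fun l => (slice Φ y l).card)
    (n := fun j x => ((Φ.G ((Φ.x0 + x) • A + y • B)).filter
      fun g => ∀ l : Fin N, (l : ℕ) < j → g l = 0).card) (fun j => le_rfl) ?_ ?_ N 0 (by simp) x
  · simpa using key
  · intro j hj x
    set U := (Φ.G ((Φ.x0 + (x + 1)) • A + y • B)).filter
      fun g => ∀ l : Fin N, (l : ℕ) < j → g l = 0 with hU
    rw [← card_filter_add_card_filter_not (s := U) fun g => g ⟨j, hj⟩ = 0]
    refine Nat.add_le_add (card_le_card fun g hg => ?_)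
      (card_le_card_of_injOn (fun g => g - Pi.single ⟨j, hj⟩ 1) (fun g hg => ?_)
        fun g _ g' _ e => sub_left_injective e)
    · simp only [hU, mem_filter] at hg ⊢
      refine ⟨hg.1.1, fun l hl => ?_⟩
      rcases Nat.lt_succ_iff_lt_or_eq.1 hl with e | e
      · exact hg.1.2 l e
      · rw [show l = ⟨j, hj⟩ from Fin.ext e]
        exact hg.2
    · simp only [hU, coe_filter, mem_filter, Set.mem_ofPred_eq] at hg ⊢
      refine ⟨Φ.div _ y (Nat.le_add_right _ x) ⟨j, hj⟩ g hg.1.1 (fun l hl => hg.1.2 l hl) hg.2,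
        fun l hl => ?_⟩
      rw [Pi.sub_apply, hg.1.2 l hl, Pi.single_eq_of_ne (fun e => by simp [e] at hl), sub_zero]
  · intro x
    refine card_le_card fun g hg => ?_
    obtain ⟨g1, g2⟩ := mem_filter.1 hg
    obtain rfl : g = 0 := funext fun l => g2 l l.2
    refine mem_filter.2 ⟨Φ.zero _ ?_, g2⟩
    have ne : ((Φ.x0 + x) • A + y • B).Nonempty := by
      rw [nonempty_iff_ne_empty]
      intro e
      have h := Φ.hi ∅
      rw [e] at g1
      have := Nat.mul_pos Φ.d_pos (card_pos.2 ⟨_, g1⟩)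
      simp only [empty_add, card_empty] at h
      omega
    rw [add_nsmul] at ne
    exact ne.of_add_left.of_add_left.add ne.of_add_right

end Pool.Agent.MP_5f4cdd_gt.OK

end

section

set_option autoImplicit false
open Finset MeasureTheory
open scoped Pointwise ENNReal

namespace Pool.Agent.MP_5f4cdd_gt.OK

theorem zero_mem_nsmul_BSide {N : ℕ} (A : Finset (Zn N)) (h : (0 : Zn N) ∈ A) (x : ℕ) :
    (0 : Zn N) ∈ x • A := by
  induction x with
  | zero => simp
  | succ x ih =>
    rw [succ_nsmul]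
    exact Finset.mem_add.2 ⟨0, ih, 0, h, add_zero _⟩

theorem rho_compl_BSide {N : ℕ} (hN : 1 ≤ N) (l : Fin N → ℕ) (j : ℕ) :
    rho l j + ∑ q : Fin N, (if l q ≤ j then (1 : ℝ) / N else 0) = 1 := by
  have hN' : (N : ℝ) ≠ 0 := by positivity
  have h1 : rho l j = ∑ q : Fin N, (if j < l q then (1 : ℝ) / N else 0) := by
    rw [rho, Finset.card_filter, Nat.cast_sum, Finset.sum_div]
    refine Finset.sum_congr rfl fun q _ => ?_
    split_ifs <;> simp
  rw [h1, ← Finset.sum_add_distrib]
  have h2 : ∀ q : Fin N, (if j < l q then (1 : ℝ) / N else 0) +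
      (if l q ≤ j then (1 : ℝ) / N else 0) = 1 / N := by
    intro q
    by_cases h : j < l q
    · simp [h, not_le.2 h]
    · simp [h, not_lt.1 h]
  simp only [h2, Finset.sum_const, Finset.card_univ, Fintype.card_fin, nsmul_eq_mul]
  field_simp

theorem card_ge_BSide {N : ℕ} (a : ℕ) (ha : a ≤ N) :
    (∑ j : Fin N, (if a ≤ (j : ℕ) then (1 : ℝ) else 0)) = ((N - a : ℕ) : ℝ) := by
  rw [Fin.sum_univ_eq_sum_range (fun j => if a ≤ j then (1 : ℝ) else 0) N]
  rw [Finset.sum_ite, Finset.sum_const_zero, add_zero, Finset.sum_const, nsmul_eq_mul, mul_one]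
  have : (Finset.range N).filter (fun j => a ≤ j) = Finset.Ico a N := by
    ext j
    simp only [Finset.mem_filter, Finset.mem_range, Finset.mem_Ico]
    tauto
  rw [this, Nat.card_Ico]

/-- the contribution of one copy -/
theorem copy_BSide (hE : EntStmt) {N : ℕ} (T : Finset (Zn N)) (hT : T.Nonempty) (a : ℕ)
    (ha : a ≤ N) (hz : ∀ g ∈ T, ∀ j : Fin N, (j : ℕ) < a → g j = 0) (w : ℝ) :
    ∑ j : Fin N, (if a ≤ (j : ℕ) then w else 0) *
      (ent T j - Real.log (if a ≤ (j : ℕ) then w else 0)) =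
      w * (Real.log T.card - ((N - a : ℕ) : ℝ) * Real.log w) := by
  rw [← hE.sum N T hT, ← card_ge_BSide a ha, Finset.sum_mul, ← Finset.sum_sub_distrib,
    Finset.mul_sum]
  refine Finset.sum_congr rfl fun j _ => ?_
  by_cases h : a ≤ (j : ℕ)
  · simp [h]
  · have h0 : ent T j = 0 := hE.zero N T j fun g hg => hz g hg j (not_le.1 h)
    simp [h, h0]

theorem bside_stmt (hE : EntStmt) (hD : DIStmt) (hS : SimStmt) : BSideStmt := by
  intro N A B Φ hN hA hB Λ hΛ l hl τ m hτ
  have hNr : (0 : ℝ) < N := by positivity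
  set k : Fin N → ℕ := fun q => τ * (N - l q) + 1 with hk
  have hkpos : ∀ q, (0 : ℝ) < k q := fun q => by
    have : 0 < k q := Nat.succ_pos _
    positivity
  set n : ℕ := τ * ∑ q, (N - l q) + N with hn
  have hsumk : ∑ q, k q = n := by
    simp only [hk, hn, Finset.sum_add_distrib, Finset.mul_sum, Finset.sum_const,
      Finset.card_univ, Fintype.card_fin, smul_eq_mul, mul_one]
  have hcardκ : Fintype.card (Σ q : Fin N, Fin (k q)) = n := by
    rw [Fintype.card_sigma, ← hsumk]
    simp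
  have hcard : Fintype.card (Option (Σ q : Fin N, Fin (k q))) = n + 1 := by
    rw [Fintype.card_option, hcardκ]
  set P : Finset (Zn N) := Φ.x0 • A + m • B with hP
  have h0P : (0 : Zn N) ∈ P :=
    Finset.mem_add.2 ⟨0, zero_mem_nsmul_BSide A hA _, 0, zero_mem_nsmul_BSide B hB _, add_zero _⟩
  have h0s : ∀ a : ℕ, (0 : Zn N) ∈ slice Φ m a := fun a =>
    Finset.mem_filter.2 ⟨Φ.zero P ⟨0, h0P⟩, fun _ _ => rfl⟩
  let G : Option (Σ q : Fin N, Fin (k q)) → Finset (Zn N) := fun o =>
    match o with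
    | none => Φ.G Λ
    | some c => slice Φ m (l c.1)
  let θ : Fin N → Option (Σ q : Fin N, Fin (k q)) → ℝ := fun j o =>
    match o with
    | none => rho l j
    | some c => if l c.1 ≤ (j : ℕ) then 1 / (N * k c.1) else 0
  have key := hD N (Option (Σ q : Fin N, Fin (k q))) G θ
    (Φ.G (Λ + n • P + (N * (n + 1)) • A)) ?_ ?_ ?_ ?_
  · refine le_trans ?_ key
    simp only [Fintype.sum_option, Finset.sum_add_distrib]
    refine add_le_add le_rfl ?_
    rw [Finset.sum_comm, Fintype.sum_sigma, ← Finset.sum_add_distrib, Finset.sum_div]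
    refine Finset.sum_le_sum fun q _ => ?_
    have hc := copy_BSide hE (slice Φ m (l q)) ⟨0, h0s _⟩ (l q) (hl q)
      (fun g hg j hj => (Finset.mem_filter.1 hg).2 j hj) (1 / (N * k q))
    have hc2 : ∀ i : Fin (k q), ∑ j : Fin N, θ j (some ⟨q, i⟩) *
        (ent (G (some ⟨q, i⟩)) j - Real.log (θ j (some ⟨q, i⟩))) =
        1 / (N * k q) * (Real.log (slice Φ m (l q)).card -
          ((N - l q : ℕ) : ℝ) * Real.log (1 / (N * k q))) := fun i => hc
    simp only [hc2, Finset.sum_const, Finset.card_univ, Fintype.card_fin, nsmul_eq_mul]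
    have hlog : ((N - l q : ℕ) : ℝ) * Real.log (N * τ * (N - l q : ℕ)) ≤
        -(((N - l q : ℕ) : ℝ) * Real.log (1 / (N * k q))) := by
      rw [one_div, Real.log_inv, mul_neg, neg_neg]
      rcases Nat.eq_zero_or_pos (N - l q) with h | h
      · simp [h]
      · refine mul_le_mul_of_nonneg_left (Real.log_le_log (by positivity) ?_) (by positivity)
        have : ((k q : ℕ) : ℝ) = τ * ((N - l q : ℕ) : ℝ) + 1 := by simp [hk]
        rw [this]
        nlinarith
    have hkq := hkpos q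
    have e : (k q : ℝ) * (1 / (N * k q) * (Real.log (slice Φ m (l q)).card -
          ((N - l q : ℕ) : ℝ) * Real.log (1 / (N * k q)))) =
        (Real.log (slice Φ m (l q)).card -
          ((N - l q : ℕ) : ℝ) * Real.log (1 / (N * k q))) / N := by
      field_simp
    rw [e]
    exact div_le_div_of_nonneg_right (by linarith) hNr.le
  · rintro (_ | c)
    · exact ⟨0, Φ.zero Λ hΛ⟩
    · exact ⟨0, h0s _⟩
  · rintro j (_ | c)
    · show 0 ≤ rho l j
      rw [rho]
      positivity
    · show 0 ≤ (if l c.1 ≤ (j : ℕ) then 1 / ((N : ℝ) * k c.1) else 0)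
      split_ifs
      · positivity
      · exact le_rfl
  · intro j
    rw [Fintype.sum_option, Fintype.sum_sigma, ← rho_compl_BSide hN l j]
    refine congrArg₂ (· + ·) rfl (Finset.sum_congr rfl fun q _ => ?_)
    show ∑ _i : Fin (k q), (if l q ≤ (j : ℕ) then 1 / ((N : ℝ) * k q) else 0) = _
    rw [Finset.sum_const, Finset.card_univ, Fintype.card_fin, nsmul_eq_mul]
    have hkq := hkpos q
    split_ifs
    · field_simp
    · simp
  · intro g hg q hq
    rw [Fintype.sum_option]
    have h1 : g none ∈ Φ.G Λ := hg none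
    have h2 : ∑ c : (Σ q : Fin N, Fin (k q)), g (some c) ∈ Φ.G (n • P) := by
      have := hS.sum N A B Φ (Σ q : Fin N, Fin (k q)) univ (fun _ => P) (fun c => g (some c))
        fun c _ => (Finset.mem_filter.1 (hg (some c))).1
      rwa [Finset.sum_const, Finset.card_univ, hcardκ] at this
    have h3 : q ∈ Φ.G ((N * (n + 1)) • A) := by
      refine hS.mem N A B Φ hA _ q (fun j => (hq j).1) ?_
      calc ∑ j, q j ≤ ∑ _j : Fin N, ((n + 1 : ℕ) : ℤ) :=
            Finset.sum_le_sum fun j _ => by simpa [hcard] using (hq j).2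
        _ = ((N * (n + 1) : ℕ) : ℤ) := by simp
    exact Φ.add _ _ (Finset.add_mem_add (Φ.add _ _ (Finset.add_mem_add h1 h2)) h3)

end Pool.Agent.MP_5f4cdd_gt.OK

end

section

set_option autoImplicit false

namespace Pool.Agent.MP_5f4cdd_gt.OK

theorem di_all : DIStmt := di_stmt (one_stmt int_stmt)

theorem core_all : CoreStmt :=
  core_stmt ent_stmt (aside_stmt ent_stmt di_all sim_stmt) (bside_stmt ent_stmt di_all sim_stmt)
    fact_stmt (re_stmt fact_stmt)

theorem tb_all : TBStmt :=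
  tb_stmt (tb0_stmt alg_all cnt_stmt (sel_stmt (sel1_stmt up_stmt cnt_stmt)) (ua_stmt cnt_stmt)
    (ub_stmt cnt_stmt) core_all opt_stmt)

end Pool.Agent.MP_5f4cdd_gt.OK

end
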