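import Pool.Agent.Mg.F5f4cddb.Gd23ec5
import Pool.Agent.Mg.F5f4cddb.G3bbc0e
import Pool.Agent.Mg.F5f4cddb.G25bbd1
import Pool.Agent.Mg.F5f4cdd.Gfa7dd3

set_option linter.all false

section

set_option autoImplicit false
open Set MeasureTheory Matrix
open scoped Pointwise ENNReal

namespace Pool.Agent.MP_5f4cdd_gt.OK

variable {n : ℕ}

theorem isClosed_EPol (L : Set (Rn n)) : IsClosed (pol L) := by
  have : pol L = ⋂ z ∈ L, {w | z ⬝ᵥ w ≤ 1} := by ext w; simp [pol]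
  rw [this]
  exact isClosed_biInter fun z _ => isClosed_le (by fun_prop) continuous_const

theorem isBounded_EPol {L : Set (Rn n)} (h0 : (0 : Rn n) ∈ interior L) :
    Bornology.IsBounded (pol L) := by
  obtain ⟨ε, hε, hb⟩ := Metric.mem_nhds_iff.1 (mem_interior_iff_mem_nhds.1 h0)
  refine (Metric.isBounded_closedBall (x := (0 : Rn n)) (r := 2 / ε)).subset fun w hw => ?_
  rw [mem_closedBall_zero_iff, pi_norm_le_iff_of_nonneg (by positivity)]
  intro i
  have key : ∀ c : ℝ, |c| = ε / 2 → c * w i ≤ 1 := by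
    intro c hc
    have := hw (Pi.single i c) (hb (by
      rw [mem_ball_zero_iff, Pi.norm_single, Real.norm_eq_abs, hc]; linarith))
    simpa using this
  have h1 := key (ε / 2) (abs_of_pos (by positivity))
  have h2 := key (-(ε / 2)) (by rw [abs_neg, abs_of_pos (by positivity)])
  rw [Real.norm_eq_abs, abs_le, le_div_iff₀ hε, neg_le, le_div_iff₀ hε]
  constructor <;> linarith

theorem dot_le_EPol (z w : Rn n) : z ⬝ᵥ w ≤ n * (‖z‖ * ‖w‖) := by
  have h : ∀ i, z i * w i ≤ ‖z‖ * ‖w‖ := fun i => by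
    refine (le_abs_self _).trans ?_
    rw [abs_mul]
    exact mul_le_mul (norm_le_pi_norm z i) (norm_le_pi_norm w i) (abs_nonneg _) (norm_nonneg _)
  calc z ⬝ᵥ w ≤ ∑ _i : Fin n, ‖z‖ * ‖w‖ := Finset.sum_le_sum fun i _ => h i
    _ = _ := by simp

theorem zero_EPol {L : Set (Rn n)} (hL : IsCompact L) : (0 : Rn n) ∈ interior (pol L) := by
  obtain ⟨R, hR, hb⟩ := hL.isBounded.exists_pos_norm_le
  have hp : (0 : ℝ) < (n + 1) * R := by positivity
  refine mem_interior_iff_mem_nhds.2 (Metric.mem_nhds_iff.2 ⟨1 / ((n + 1) * R), by positivity, ?_⟩)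
  intro w hw z hz
  rw [mem_ball_zero_iff, lt_div_iff₀ hp] at hw
  have h1 := dot_le_EPol z w
  have h2 : ‖z‖ * ‖w‖ ≤ R * ‖w‖ := mul_le_mul_of_nonneg_right (hb z hz) (norm_nonneg _)
  have h3 : (n : ℝ) * (‖z‖ * ‖w‖) ≤ (n + 1) * (R * ‖w‖) :=
    mul_le_mul (by linarith) h2 (by positivity) (by positivity)
  nlinarith

theorem convex_EPol (L : Set (Rn n)) : Convex ℝ (pol L) := fun x hx y hy a b ha hb hab z hz => by
  rw [dotProduct_add, dotProduct_smul, dotProduct_smul, smul_eq_mul, smul_eq_mul]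
  nlinarith [hx z hz, hy z hz]

theorem dot_eq_EPol (f : Rn n →L[ℝ] ℝ) : ∃ v : Rn n, ∀ z, f z = z ⬝ᵥ v := by
  refine ⟨fun i => f (Pi.single i 1), fun z => ?_⟩
  conv_lhs => rw [← Finset.univ_sum_single z]
  rw [map_sum, dotProduct]
  refine Finset.sum_congr rfl fun i _ => ?_
  rw [← smul_eq_mul, ← map_smul, ← Pi.single_smul', smul_eq_mul, mul_one]

theorem bipolar_EPol {L : Set (Rn n)} (hL : Convex ℝ L) (cL : IsClosed L) (h0 : (0 : Rn n) ∈ L) :
    pol (pol L) = L := by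
  refine Subset.antisymm (fun x hx => ?_) fun x hx w hw => by rw [dotProduct_comm]; exact hw x hx
  by_contra hn
  obtain ⟨f, u, h1, h2⟩ := geometric_hahn_banach_closed_point hL cL hn
  obtain ⟨v, hv⟩ := dot_eq_EPol f
  have hu : 0 < u := by simpa using h1 0 h0
  have := hx (u⁻¹ • v) fun z hz => by
    rw [dotProduct_smul, smul_eq_mul, ← hv, inv_mul_le_iff₀ hu, mul_one]; exact (h1 z hz).le
  rw [smul_dotProduct, dotProduct_comm, smul_eq_mul, ← hv, inv_mul_le_iff₀ hu, mul_one] at this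
  exact this.not_gt h2

theorem comb_EPol {K : Set (Rn n)} (hK : Convex ℝ K) {p q : Rn n} (hp : p ∈ K) (hq : q ∈ K)
    {α β : ℝ} (hα : 0 ≤ α) (hβ : 0 ≤ β) : ∃ x ∈ K, α • p + β • q = (α + β) • x := by
  have h : α • p + β • q ∈ (α + β) • K := by
    rw [hK.add_smul hα hβ]
    exact add_mem_add (smul_mem_smul_set hp) (smul_mem_smul_set hq)
  obtain ⟨x, hx, e⟩ := h
  exact ⟨x, hx, e.symm⟩

theorem hullConv_EPol {K K' : Set (Rn n)} (hK : Convex ℝ K) (hK' : Convex ℝ K') {r : ℝ}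
    (h0 : 0 ≤ r) (h1 : r ≤ 1) : Convex ℝ (hull K K' r) := by
  rintro _ ⟨s, s0, s1, p, hp, q, hq, rfl⟩ _ ⟨t, t0, t1, p', hp', q', hq', rfl⟩ a b ha hb hab
  have r1 : 0 ≤ 1 - r := by linarith
  have s2 : 0 ≤ 1 - s := by linarith
  have t2 : 0 ≤ 1 - t := by linarith
  obtain ⟨x, hx, ex⟩ := comb_EPol hK hp hp' (α := a * ((1 - s) * (1 - r)))
    (β := b * ((1 - t) * (1 - r))) (by positivity) (by positivity)
  obtain ⟨y, hy, ey⟩ := comb_EPol hK' hq hq' (α := a * (s * r)) (β := b * (t * r))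
    (by positivity) (by positivity)
  refine ⟨a * s + b * t, by positivity, by nlinarith, x, hx, y, hy, ?_⟩
  have e1 : (1 - (a * s + b * t)) * (1 - r) =
      a * ((1 - s) * (1 - r)) + b * ((1 - t) * (1 - r)) := by
    have : b = 1 - a := by linarith
    subst this
    ring
  have e2 : (a * s + b * t) * r = a * (s * r) + b * (t * r) := by ring
  rw [e1, e2, ← ex, ← ey]
  simp only [smul_add, mul_smul]
  abel

theorem hullCpt_EPol {K K' : Set (Rn n)} (hK : IsCompact K) (hK' : IsCompact K') (r : ℝ) :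
    IsCompact (hull K K' r) := by
  have e : hull K K' r = (fun x : ℝ × Rn n × Rn n =>
      ((1 - x.1) * (1 - r)) • x.2.1 + (x.1 * r) • x.2.2) '' (Icc 0 1 ×ˢ K ×ˢ K') := by
    ext z
    constructor
    · rintro ⟨t, t0, t1, p, hp, q, hq, rfl⟩
      exact ⟨(t, p, q), ⟨⟨t0, t1⟩, hp, hq⟩, rfl⟩
    · rintro ⟨⟨t, p, q⟩, ⟨⟨t0, t1⟩, hp, hq⟩, rfl⟩
      exact ⟨t, t0, t1, p, hp, q, hq, rfl⟩
  rw [e]
  exact (isCompact_Icc.prod (hK.prod hK')).image (by fun_prop)

theorem pol_stmt : PolStmt := by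
  refine ⟨fun N K hK => ⟨convex_EPol K, Metric.isCompact_of_isClosed_isBounded (isClosed_EPol _)
      (isBounded_EPol hK.zero), zero_EPol hK.cpt⟩,
    fun N K hK => bipolar_EPol hK.conv hK.cpt.isClosed (interior_subset hK.zero),
    fun N K r hK h0 h1 => ⟨hullConv_EPol hK.conv hK.conv.neg h0.le h1.le,
      hullCpt_EPol hK.cpt hK.cpt.neg r, ?_⟩⟩
  have r1 : (1 - r) ≠ 0 := by linarith [sub_pos.2 h1]
  have hs : (1 - r) • K ⊆ hull K (-K) r := by
    rintro _ ⟨p, hp, rfl⟩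
    exact ⟨0, le_rfl, zero_le_one, p, hp, 0, by simpa using interior_subset hK.zero, by simp⟩
  refine interior_mono hs ?_
  rw [interior_smul₀ r1]
  exact ⟨0, hK.zero, by simp⟩

end Pool.Agent.MP_5f4cdd_gt.OK

end

section

set_option autoImplicit false
open Set MeasureTheory Matrix
open scoped Pointwise ENNReal

namespace Pool.Agent.MP_5f4cdd_gt.OK

lemma continuous_mk3_ESplit {n : ℕ} :
    Continuous fun p : ℝ × Rn n × Rn n => mk3 p.1 p.2.1 p.2.2 := by
  refine continuous_pi fun i => ?_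
  refine Fin.cases ?_ (fun j => ?_) i
  · exact continuous_fst
  · change Continuous fun p : ℝ × Rn n × Rn n => Fin.append p.2.1 p.2.2 j
    refine Fin.addCases (fun k => ?_) (fun k => ?_) j
    · simp only [Fin.append_left]
      fun_prop
    · simp only [Fin.append_right]
      fun_prop

lemma mp_append_ESplit (n : ℕ) :
    MeasurePreserving (fun p : Rn n × Rn n => (Fin.append p.1 p.2 : Rn (n + n))) := by
  have h1 := (volume_measurePreserving_sumPiEquivProdPi (fun _ : Fin n ⊕ Fin n => ℝ)).symm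
  have h2 := volume_measurePreserving_piCongrLeft (fun _ : Fin (n + n) => ℝ) finSumFinEquiv
  have h3 : (fun p : Rn n × Rn n => (Fin.append p.1 p.2 : Rn (n + n))) =
      MeasurableEquiv.piCongrLeft (fun _ : Fin (n + n) => ℝ) finSumFinEquiv ∘
        (MeasurableEquiv.sumPiEquivProdPi (fun _ : Fin n ⊕ Fin n => ℝ)).symm := by
    funext p j
    obtain ⟨s, rfl⟩ := finSumFinEquiv.surjective j
    rw [Function.comp_apply, MeasurableEquiv.piCongrLeft_apply_apply]
    rcases s with k | k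
    · rw [finSumFinEquiv_apply_left, Fin.append_left]
      rfl
    · rw [finSumFinEquiv_apply_right, Fin.append_right]
      rfl
  rw [h3]
  exact h2.comp h1

lemma mp_cons_ESplit (m : ℕ) :
    MeasurePreserving (fun p : ℝ × Rn m => (Fin.cons p.1 p.2 : Rn (m + 1))) := by
  have h1 := (volume_preserving_piFinSuccAbove (fun _ : Fin (m + 1) => ℝ) 0).symm
  have h3 : (fun p : ℝ × Rn m => (Fin.cons p.1 p.2 : Rn (m + 1))) =
      (MeasurableEquiv.piFinSuccAbove (fun _ : Fin (m + 1) => ℝ) 0).symm := by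
    funext p
    exact (Fin.insertNth_zero' p.1 p.2).symm
  rw [h3]
  exact h1

lemma mp_mk3_ESplit (n : ℕ) :
    MeasurePreserving (fun p : ℝ × Rn n × Rn n => mk3 p.1 p.2.1 p.2.2) :=
  (mp_cons_ESplit (n + n)).comp ((MeasurePreserving.id volume).prod (mp_append_ESplit n))

theorem split_stmt : SplitStmt := by
  intro n f hf
  have hm : Measurable fun p : ℝ × Rn n × Rn n => f (mk3 p.1 p.2.1 p.2.2) :=
    hf.comp continuous_mk3_ESplit.measurable
  rw [← (mp_mk3_ESplit n).lintegral_comp hf, Measure.volume_eq_prod,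
    lintegral_prod _ hm.aemeasurable]
  refine lintegral_congr fun t => ?_
  rw [Measure.volume_eq_prod]
  exact lintegral_prod (fun q : Rn n × Rn n => f (mk3 t q.1 q.2))
    (hm.comp measurable_prodMk_left).aemeasurable

end Pool.Agent.MP_5f4cdd_gt.OK

end

section

set_option autoImplicit false

open Set MeasureTheory Matrix
open scoped Pointwise ENNReal

namespace Pool.Agent.MP_5f4cdd_gt.OK

theorem step_EBeta (a b : ℕ) :
    ((a : ℝ) + 1) * ∫ t in (-1 : ℝ)..1, (1 + t) ^ a * (1 - t) ^ (b + 1)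
      = ((b : ℝ) + 1) * ∫ t in (-1 : ℝ)..1, (1 + t) ^ (a + 1) * (1 - t) ^ b := by
  have hd : ∀ t ∈ uIcc (-1 : ℝ) 1, HasDerivAt (fun t : ℝ => (1 + t) ^ (a + 1) * (1 - t) ^ (b + 1))
      (((a : ℝ) + 1) * ((1 + t) ^ a * (1 - t) ^ (b + 1))
        - ((b : ℝ) + 1) * ((1 + t) ^ (a + 1) * (1 - t) ^ b)) t := by
    intro t _
    have h1 : HasDerivAt (fun t : ℝ => 1 + t) 1 t := (hasDerivAt_id t).const_add 1
    have h2 : HasDerivAt (fun t : ℝ => 1 - t) (-1) t := (hasDerivAt_id t).const_sub 1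
    have h3 := (h1.pow (a + 1)).mul (h2.pow (b + 1))
    refine h3.congr_deriv ?_
    simp only [Pi.pow_apply, Nat.add_sub_cancel]
    push_cast
    ring
  have c1 : Continuous fun t : ℝ => ((a : ℝ) + 1) * ((1 + t) ^ a * (1 - t) ^ (b + 1)) := by
    fun_prop
  have c2 : Continuous fun t : ℝ => ((b : ℝ) + 1) * ((1 + t) ^ (a + 1) * (1 - t) ^ b) := by
    fun_prop
  have h := intervalIntegral.integral_eq_sub_of_hasDerivAt hd
    ((c1.sub c2).intervalIntegrable _ _)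
  rw [intervalIntegral.integral_sub (c1.intervalIntegrable _ _) (c2.intervalIntegrable _ _),
    intervalIntegral.integral_const_mul, intervalIntegral.integral_const_mul] at h
  have e : (1 + (1 : ℝ)) ^ (a + 1) * (1 - (1 : ℝ)) ^ (b + 1)
      - (1 + (-1 : ℝ)) ^ (a + 1) * (1 - (-1 : ℝ)) ^ (b + 1) = 0 := by
    simp
  rw [e] at h
  linarith

theorem all_EBeta (b : ℕ) : ∀ a : ℕ,
    ((a + b + 1).factorial : ℝ) * ∫ t in (-1 : ℝ)..1, (1 + t) ^ a * (1 - t) ^ b
      = 2 ^ (a + b + 1) * (a.factorial : ℝ) * (b.factorial : ℝ) := by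
  induction b with
  | zero =>
    intro a
    have h : ∫ t in (-1 : ℝ)..1, (1 + t) ^ a * (1 - t) ^ 0 = 2 ^ (a + 1) / ((a : ℝ) + 1) := by
      simp only [pow_zero, mul_one]
      rw [intervalIntegral.integral_comp_add_left (fun x : ℝ => x ^ a), integral_pow]
      norm_num
    rw [h]
    simp only [add_zero, Nat.factorial_succ, Nat.factorial_zero]
    push_cast
    have : (a : ℝ) + 1 ≠ 0 := by positivity
    field_simp
  | succ b ih =>
    intro a
    have h1 := step_EBeta a b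
    have h2 := ih (a + 1)
    have e : a + 1 + b + 1 = a + (b + 1) + 1 := by ring
    rw [e] at h2
    have ha : (a : ℝ) + 1 ≠ 0 := by positivity
    apply mul_left_cancel₀ ha
    rw [Nat.factorial_succ a] at h2
    rw [Nat.factorial_succ b]
    push_cast at h2 ⊢
    calc ((a : ℝ) + 1) * (((a + (b + 1) + 1).factorial : ℝ)
          * ∫ t in (-1 : ℝ)..1, (1 + t) ^ a * (1 - t) ^ (b + 1))
        = ((a + (b + 1) + 1).factorial : ℝ) * (((a : ℝ) + 1)
          * ∫ t in (-1 : ℝ)..1, (1 + t) ^ a * (1 - t) ^ (b + 1)) := by ring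
      _ = ((b : ℝ) + 1) * (((a + (b + 1) + 1).factorial : ℝ)
          * ∫ t in (-1 : ℝ)..1, (1 + t) ^ (a + 1) * (1 - t) ^ b) := by rw [h1]; ring
      _ = _ := by rw [h2]; ring

theorem beta_stmt : BetaStmt := by
  intro n
  rw [all_EBeta n n]
  ring

end Pool.Agent.MP_5f4cdd_gt.OK

end

section

set_option autoImplicit false
open Set MeasureTheory Matrix
open scoped Pointwise ENNReal

namespace Pool.Agent.MP_5f4cdd_gt.OK

variable {n : ℕ}

theorem lin_EJnGeo (a b t s : ℝ) (x y u v : Rn n) :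
    a • mk3 t x y + b • mk3 s u v = mk3 (a * t + b * s) (a • x + b • u) (a • y + b • v) := by
  funext i
  refine Fin.cases ?_ (fun j => ?_) i
  · simp [mk3]
  · refine Fin.addCases (fun k => ?_) (fun k => ?_) j
    · simp only [mk3, Pi.add_apply, Pi.smul_apply, Fin.cons_succ, Fin.append_left]
    · simp only [mk3, Pi.add_apply, Pi.smul_apply, Fin.cons_succ, Fin.append_right]

theorem surj_EJnGeo (z : Rn (n + n + 1)) :
    ∃ t x y, z = mk3 t x y ∧ |t| ≤ ‖z‖ ∧ ‖x‖ ≤ ‖z‖ ∧ ‖y‖ ≤ ‖z‖ := by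
  refine ⟨z 0, fun i => z (Fin.castAdd n i).succ, fun i => z (Fin.natAdd n i).succ, ?_,
    norm_le_pi_norm z 0, (pi_norm_le_iff_of_nonneg (norm_nonneg _)).2 fun i => norm_le_pi_norm z _,
    (pi_norm_le_iff_of_nonneg (norm_nonneg _)).2 fun i => norm_le_pi_norm z _⟩
  funext i
  refine Fin.cases ?_ (fun j => ?_) i
  · simp [mk3]
  · refine Fin.addCases (fun k => ?_) (fun k => ?_) j
    · simp only [mk3, Fin.cons_succ, Fin.append_left]
    · simp only [mk3, Fin.cons_succ, Fin.append_right]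

theorem dot_EJnGeo (t s : ℝ) (x y u v : Rn n) :
    mk3 t x y ⬝ᵥ mk3 s u v = t * s + x ⬝ᵥ u + y ⬝ᵥ v := by
  simp only [dotProduct, mk3, Fin.sum_univ_succ, Fin.cons_zero, Fin.cons_succ, Fin.sum_univ_add,
    Fin.append_left, Fin.append_right, add_assoc]

theorem cont_EJnGeo : Continuous fun w : ℝ × Rn n × Rn n => mk3 w.1 w.2.1 w.2.2 := by
  refine continuous_pi fun i => ?_
  refine Fin.cases ?_ (fun j => ?_) i
  · simp only [mk3, Fin.cons_zero]
    fun_prop
  · refine Fin.addCases (fun k => ?_) (fun k => ?_) j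
    · simp only [mk3, Fin.cons_succ, Fin.append_left]
      fun_prop
    · simp only [mk3, Fin.cons_succ, Fin.append_right]
      fun_prop

theorem cpt_EJnGeo (K : Set (Rn n)) (c ε : ℝ) (hK : IsCompact K) : IsCompact (jn K c ε) := by
  have h : jn K c ε = (fun w : ℝ × Rn n × Rn n =>
      mk3 w.1 ((c * (1 + ε * w.1)) • w.2.1) ((c * (1 - ε * w.1)) • w.2.2)) ''
        (Icc (-1) 1 ×ˢ K ×ˢ K) := by
    ext z
    constructor
    · rintro ⟨t, ht, p, hp, q, hq, rfl⟩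
      exact ⟨(t, p, q), ⟨abs_le.1 ht, hp, hq⟩, rfl⟩
    · rintro ⟨⟨t, p, q⟩, ⟨ht, hp, hq⟩, rfl⟩
      exact ⟨t, abs_le.2 ht, p, hp, q, hq, rfl⟩
  rw [h]
  refine (isCompact_Icc.prod (hK.prod hK)).image ?_
  exact cont_EJnGeo.comp (f := fun w : ℝ × Rn n × Rn n =>
    (w.1, (c * (1 + ε * w.1)) • w.2.1, (c * (1 - ε * w.1)) • w.2.2)) (by fun_prop)

theorem comb_EJnGeo {K : Set (Rn n)} (hK : Convex ℝ K) {α β : ℝ} (hα : 0 ≤ α) (hβ : 0 ≤ β)
    {p q : Rn n} (hp : p ∈ K) (hq : q ∈ K) : ∃ r ∈ K, (α + β) • r = α • p + β • q := by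
  have h : α • p + β • q ∈ (α + β) • K := by
    rw [hK.add_smul hα hβ]
    exact add_mem_add (smul_mem_smul_set hp) (smul_mem_smul_set hq)
  exact h

theorem conv_EJnGeo {K : Set (Rn n)} (hK : Convex ℝ K) : Convex ℝ (jn K 1 1) := by
  rintro _ ⟨t, ht, p, hp, q, hq, rfl⟩ _ ⟨s, hs, u, hu, v, hv, rfl⟩ a b ha hb hab
  obtain ⟨t1, t2⟩ := abs_le.1 ht
  obtain ⟨s1, s2⟩ := abs_le.1 hs
  obtain ⟨x, hx, ex⟩ := comb_EJnGeo hK (α := a * (1 + t)) (β := b * (1 + s))
    (mul_nonneg ha (by linarith)) (mul_nonneg hb (by linarith)) hp hu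
  obtain ⟨y, hy, ey⟩ := comb_EJnGeo hK (α := a * (1 - t)) (β := b * (1 - s))
    (mul_nonneg ha (by linarith)) (mul_nonneg hb (by linarith)) hq hv
  refine ⟨a * t + b * s, abs_le.2 ⟨by nlinarith, by nlinarith⟩, x, hx, y, hy, ?_⟩
  rw [lin_EJnGeo]
  simp only [one_mul, smul_smul]
  rw [← ex, ← ey]
  congr 2
  · linarith
  · linarith

theorem scale_EJnGeo {K : Set (Rn n)} {ρ : ℝ} (hρ : Metric.ball (0 : Rn n) ρ ⊆ K) {x : Rn n}
    {c : ℝ} (hc : 1 / 2 ≤ c) (hx : ‖x‖ < ρ / 2) : ∃ p ∈ K, x = c • p := by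
  have h0 : 0 < c := by linarith
  refine ⟨c⁻¹ • x, hρ ?_, by rw [smul_inv_smul₀ h0.ne']⟩
  rw [mem_ball_zero_iff, norm_smul, norm_inv, Real.norm_of_nonneg h0.le, inv_mul_lt_iff₀ h0]
  nlinarith [norm_nonneg x]

theorem int_EJnGeo {K : Set (Rn n)} (hK : (0 : Rn n) ∈ interior K) :
    (0 : Rn (n + n + 1)) ∈ interior (jn K 1 1) := by
  obtain ⟨ρ, h0, hρ⟩ := Metric.mem_nhds_iff.1 (mem_interior_iff_mem_nhds.1 hK)
  refine mem_interior_iff_mem_nhds.2 (Metric.mem_nhds_iff.2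
    ⟨min (1 / 2) (ρ / 2), lt_min (by norm_num) (by linarith), fun z hz => ?_⟩)
  rw [mem_ball_zero_iff, lt_min_iff] at hz
  obtain ⟨t, x, y, e, ht, hx, hy⟩ := surj_EJnGeo z
  obtain ⟨t1, t2⟩ := abs_le.1 ht
  obtain ⟨p, hp, rfl⟩ := scale_EJnGeo hρ (c := 1 * (1 + 1 * t)) (by linarith) (hx.trans_lt hz.2)
  obtain ⟨q, hq, rfl⟩ := scale_EJnGeo hρ (c := 1 * (1 - 1 * t)) (by linarith) (hy.trans_lt hz.2)
  exact ⟨t, by linarith, p, hp, q, hq, e⟩

theorem dual_EJnGeo {K : Set (Rn n)} (hK : (0 : Rn n) ∈ interior K) {u : Rn n} {c : ℝ}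
    (h : ∀ p ∈ K, p ⬝ᵥ u ≤ c) : ∃ w ∈ pol K, u = c • w := by
  have hc : 0 ≤ c := by simpa using h 0 (interior_subset hK)
  rcases hc.eq_or_lt with rfl | hc
  · refine ⟨0, fun z _ => by simp, ?_⟩
    obtain ⟨ρ, h0, hρ⟩ := Metric.mem_nhds_iff.1 (mem_interior_iff_mem_nhds.1 hK)
    have h1 : 0 < ρ / (‖u‖ + 1) := by positivity
    have h2 := h ((ρ / (‖u‖ + 1)) • u) (hρ (by
      rw [mem_ball_zero_iff, norm_smul, Real.norm_of_nonneg h1.le, div_mul_eq_mul_div,
        div_lt_iff₀ (by positivity)]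
      nlinarith))
    rw [smul_dotProduct, smul_eq_mul] at h2
    have h3 : u ⬝ᵥ u ≤ 0 := by
      by_contra h4
      exact absurd h2 (not_le.2 (mul_pos h1 (not_le.1 h4)))
    rw [smul_zero]
    exact dotProduct_self_eq_zero.1 (le_antisymm h3
      (Finset.sum_nonneg fun i _ => mul_self_nonneg (u i)))
  · refine ⟨c⁻¹ • u, fun z hz => ?_, by rw [smul_inv_smul₀ hc.ne']⟩
    rw [dotProduct_smul, smul_eq_mul, inv_mul_le_iff₀ hc, mul_one]
    exact h z hz

theorem polar_EJnGeo {K : Set (Rn n)} (hK : (0 : Rn n) ∈ interior K) :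
    pol (jn K 1 1) ⊆ jn (pol K) (1 / 2) (-1) := by
  intro w hw
  obtain ⟨s, u, v, rfl, -⟩ := surj_EJnGeo w
  have h0 : (0 : Rn n) ∈ K := interior_subset hK
  have h1 : ∀ p ∈ K, p ⬝ᵥ u ≤ 1 / 2 * (1 + -1 * s) := fun p hp => by
    have := hw _ ⟨1, by norm_num, p, hp, 0, h0, rfl⟩
    rw [dot_EJnGeo, smul_zero, zero_dotProduct, smul_dotProduct, smul_eq_mul] at this
    linarith
  have h2 : ∀ q ∈ K, q ⬝ᵥ v ≤ 1 / 2 * (1 - -1 * s) := fun q hq => by
    have := hw _ ⟨-1, by norm_num, 0, h0, q, hq, rfl⟩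
    rw [dot_EJnGeo, smul_zero, zero_dotProduct, smul_dotProduct, smul_eq_mul] at this
    linarith
  have h3 := h1 0 h0
  have h4 := h2 0 h0
  rw [zero_dotProduct] at h3 h4
  obtain ⟨p, hp, e1⟩ := dual_EJnGeo hK h1
  obtain ⟨q, hq, e2⟩ := dual_EJnGeo hK h2
  exact ⟨s, abs_le.2 ⟨by linarith, by linarith⟩, p, hp, q, hq, by rw [← e1, ← e2]⟩

theorem jngeo_stmt : JnGeoStmt :=
  ⟨fun _ K c ε hK => cpt_EJnGeo K c ε hK,
    fun _ K hK => ⟨conv_EJnGeo hK.conv, cpt_EJnGeo K 1 1 hK.cpt, int_EJnGeo hK.zero⟩,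
    fun _ _ hK => polar_EJnGeo hK.zero⟩

end Pool.Agent.MP_5f4cdd_gt.OK

end

section

set_option autoImplicit false
open MeasureTheory

namespace Pool.Agent.MP_5f4cdd_gt.OK

theorem three_body : TBStmt := tb_all

theorem chord_hull : ChThStmt := chth_stmt LJ.chord_mahler pol_stmt lap_stmt

theorem rate_all : RateStmt := rate_stmt three_body chord_hull pol_stmt

theorem sharp_all : SharpStmt :=
  sharp_stmt rate_all (join_stmt pol_stmt jngeo_stmt (jnvol_stmt split_stmt beta_stmt jngeo_stmt))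

/-- the sharp lower bound for the Mahler volume of a convex body -/
theorem mahler_sharp (n : ℕ) (K : Set (Fin n → ℝ)) (hc : Convex ℝ K) (hK : IsCompact K)
    (hi : (interior K).Nonempty) :
    ENNReal.ofReal (((n : ℝ) + 1) ^ (n + 1) / n.factorial) ≤
      volume K * ∫⁻ y : Fin n → ℝ, ENNReal.ofReal
        (Real.exp (-(sSup ((fun x : Fin n → ℝ => ∑ i, x i * y i) '' K)))) :=
  final_stmt sharp_all pol_stmt lap_stmt n K hc hK hi

end Pool.Agent.MP_5f4cdd_gt.OK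

end

section

set_option autoImplicit false
open MeasureTheory ENNReal

namespace Pool.Agent.MP_5f4cdd_gt.Last

theorem simplex_eq (n : ℕ) :
    (⨅ x ∈ stdS n, mahlerInf ((fun z => z - x) '' stdS n)) =
      ENNReal.ofReal (((n : ℝ) + 1) ^ (n + 1) / n.factorial) := by
  rw [iInfInf_eq]
  refine le_antisymm ?_ (OK.mahler_sharp n _ (convex_cS 1) (isCompact_cS zero_le_one)
    ⟨0, zero_mem_interior_cS one_pos⟩)
  rw [← ENNReal.ofReal_toReal (mahlerInf_cS_lt_top (n := n)).ne]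
  refine ENNReal.ofReal_le_ofReal ?_
  have hf : (0 : ℝ) < n.factorial := Nat.cast_pos.2 n.factorial_pos
  rw [le_div_iff₀' hf]
  exact AB.mahlerInf_cS_le

end Pool.Agent.MP_5f4cdd_gt.Last

end
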