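import Mathlib
import Pool.Agent.MP_5f4cdd_gt.Defs

set_option linter.all false

section

set_option autoImplicit false
open MeasureTheory Matrix Set
open scoped ENNReal

namespace Pool.Agent.MP_5f4cdd_gt.EQ

variable {N : ℕ}

/-- a pair of mutually dual proper cones with interior points `a` of `W` and `b` of `V` -/
structure Pair (V W : Set (Fin N → ℝ)) (a b : Fin N → ℝ) : Prop where
  dualW : ∀ w, w ∈ W ↔ ∀ v ∈ V, 0 ≤ v ⬝ᵥ w
  dualV : ∀ v, v ∈ V ↔ ∀ w ∈ W, 0 ≤ v ⬝ᵥ w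
  posa : ∃ c : ℝ, 0 < c ∧ ∀ v ∈ V, c * ‖v‖ ≤ a ⬝ᵥ v
  posb : ∃ c : ℝ, 0 < c ∧ ∀ w ∈ W, c * ‖w‖ ≤ b ⬝ᵥ w
  dot : a ⬝ᵥ b = N

/-- Laplace transform of the cone -/
noncomputable def Phi (V : Set (Fin N → ℝ)) (a : Fin N → ℝ) : ℝ≥0∞ :=
  ∫⁻ x in V, ENNReal.ofReal (Real.exp (-(a ⬝ᵥ x)))

/-- volume of the order interval from `0` to `b` -/
noncomputable def Iv (V : Set (Fin N → ℝ)) (b : Fin N → ℝ) : ℝ≥0∞ :=
  volume {x | x ∈ V ∧ b - x ∈ V}

/-- the cheapest splitting `y = x - x'` with `x, x'` in `W`, at prices `p` and `q` -/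
noncomputable def gg (W : Set (Fin N → ℝ)) (p q y : Fin N → ℝ) : ℝ :=
  sInf {s | ∃ x ∈ W, ∃ x' ∈ W, x - x' = y ∧ s = p ⬝ᵥ x + q ⬝ᵥ x'}

/-- strong duality for the cheapest splitting -/
def HBStmt : Prop :=
  ∀ (N : ℕ) (V W : Set (Fin N → ℝ)) (a b : Fin N → ℝ), Pair V W a b → ∀ p ∈ V, ∀ q ∈ V,
    ∀ y : Fin N → ℝ, ∃ η : Fin N → ℝ, p - η ∈ V ∧ q + η ∈ V ∧ η ⬝ᵥ y = gg W p q y

/-- the chord inequality in cone form -/
def CChordStmt : Prop :=
  ∀ (N : ℕ) (V W : Set (Fin N → ℝ)) (a b : Fin N → ℝ), Pair V W a b → ∀ r : ℝ, 0 < r → r < 1 →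
    1 ≤ Iv V b * ∫⁻ y, ENNReal.ofReal (Real.exp (-gg W ((1 - r)⁻¹ • b) (r⁻¹ • b) y))

/-- the sharp inequality in cone form -/
def CMainStmt : Prop :=
  ∀ (N : ℕ) (V W : Set (Fin N → ℝ)) (a b : Fin N → ℝ), Pair V W a b → 1 ≤ Phi V a * Phi W b

/-- first consequence of equality -/
def CEqStmt : Prop :=
  ∀ (N : ℕ) (V W : Set (Fin N → ℝ)) (a b : Fin N → ℝ), Pair V W a b →
    Phi V a * Phi W b ≤ 1 → Iv V b * Phi W b ≤ 1

theorem Pair.symm {V W : Set (Fin N → ℝ)} {a b : Fin N → ℝ} (h : Pair V W a b) : Pair W V b a :=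
  ⟨fun v => by simpa only [dotProduct_comm] using h.dualV v,
    fun w => by simpa only [dotProduct_comm] using h.dualW w, h.posb, h.posa,
    by rw [dotProduct_comm]; exact h.dot⟩

end Pool.Agent.MP_5f4cdd_gt.EQ

end

section

set_option autoImplicit false
open MeasureTheory Matrix Set Filter Topology
open scoped ENNReal

namespace Pool.Agent.MP_5f4cdd_gt.EQ

/-- layer cake, upper bound -/
def LCStmt : Prop :=
  ∀ (N : ℕ) (S H : Set (Fin N → ℝ)) (u : (Fin N → ℝ) → ℝ), MeasurableSet S → MeasurableSet H →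
    (∀ y ∈ S, 0 ≤ u y) → (∀ y ∈ S, ∀ t : ℝ, u y < t → t⁻¹ • y ∈ H) →
    ∫⁻ y in S, ENNReal.ofReal (Real.exp (-u y)) ≤ N.factorial * volume H

/-- the product of a pair of cones with itself -/
def ProdStmt : Prop :=
  ∀ (N : ℕ) (V W : Set (Fin N → ℝ)) (a b : Fin N → ℝ), Pair V W a b →
    ∃ (V' W' : Set (Fin (N + N) → ℝ)) (a' b' : Fin (N + N) → ℝ), Pair V' W' a' b' ∧
      Phi V' a' = Phi V a ^ 2 ∧ Phi W' b' = Phi W b ^ 2 ∧
      Iv V' b' = Iv V b ^ 2 ∧ Iv W' a' = Iv W a ^ 2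

/-- the three body inequality and the chord inequality combined -/
def KeyStmt : Prop :=
  ∀ (N : ℕ) (V W : Set (Fin N → ℝ)) (a b : Fin N → ℝ), 1 ≤ N → Pair V W a b →
    ∀ δ Y : ℝ, 0 < δ → δ < 1 → 1 ≤ Y →
    (Y = 1 ∨ Y ≤ (1 - δ) ^ N * (Phi W b).toReal * (Iv V b).toReal) →
    Real.log (Iv W a).toReal + (δ - 1 / N) * Real.log Y ≤
      11 + 7 * Real.log (N + 1) + 2 * Real.log (Phi W b).toReal + Real.log (Iv V b).toReal

/-- the points `0` and `-y` have a least common upper bound in the order of `W` -/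
def Lat {N : ℕ} (W : Set (Fin N → ℝ)) (y : Fin N → ℝ) : Prop :=
  ∃ z ∈ W, y + z ∈ W ∧ ∀ u ∈ W, y + u ∈ W → u - z ∈ W

/-- equality in the Rogers-Shephard inequality -/
def LatStmt : Prop :=
  ∀ (N : ℕ) (V W : Set (Fin N → ℝ)) (a b : Fin N → ℝ), Pair V W a b →
    Iv V b * Phi W b ≤ 1 → ∀ᵐ y : Fin N → ℝ, Lat W y

/-- the extreme rays of the dual of a lattice cone are independent -/
def IndStmt : Prop :=
  ∀ (N : ℕ) (V W : Set (Fin N → ℝ)) (a b : Fin N → ℝ), Pair V W a b →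
    (∀ᵐ y : Fin N → ℝ, Lat W y) → ∀ (ι : Type) [Fintype ι] (w : ι → Fin N → ℝ),
    (∀ i, w i ∈ V) → (∀ i, a ⬝ᵥ w i = 1) →
    (∀ i, ∀ η ∈ V, w i - η ∈ V → ∃ t : ℝ, η = t • w i) → Function.Injective w →
    LinearIndependent ℝ w

/-- a body with affinely independent extreme points is a simplex -/
def SimpStmt : Prop :=
  ∀ (n : ℕ) (K : Set (Fin n → ℝ)), Convex ℝ K → IsCompact K → (interior K).Nonempty →
    (∀ s : Finset (Fin n → ℝ), (s : Set (Fin n → ℝ)) ⊆ K.extremePoints ℝ →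
      AffineIndependent ℝ fun x : s => (x : Fin n → ℝ)) →
    ∃ f : (Fin n → ℝ) ≃ᵃ[ℝ] (Fin n → ℝ), K = f '' stdS n

/-- affine normalisation of a body -/
def NrmStmt : Prop :=
  ∀ (n : ℕ) (K : Set (Fin n → ℝ)), Convex ℝ K → IsCompact K → (interior K).Nonempty →
    ∃ f : (Fin n → ℝ) ≃ᵃ[ℝ] (Fin n → ℝ), stdS n ⊆ f '' K ∧ f '' K ⊆ Metric.closedBall 0 1

/-- compactness of the space of bodies modulo affine maps -/
def CptStmt : Prop :=
  ∀ (n : ℕ) (K : ℕ → Set (Fin n → ℝ)),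
    (∀ i, Convex ℝ (K i) ∧ IsCompact (K i) ∧ (interior (K i)).Nonempty) →
    ∃ (f : ℕ → (Fin n → ℝ) ≃ᵃ[ℝ] (Fin n → ℝ)) (L : Set (Fin n → ℝ)) (φ : ℕ → ℕ),
      (Convex ℝ L ∧ IsCompact L ∧ (interior L).Nonempty) ∧ StrictMono φ ∧
      Tendsto (fun i => Metric.hausdorffDist L (f (φ i) '' K (φ i))) atTop (𝓝 0)

/-- affine functions that are nonnegative on `K` -/
def cW {n : ℕ} (K : Set (Fin n → ℝ)) : Set (Fin (n + 1) → ℝ) :=
  {ζ | ∀ x ∈ K, 0 ≤ ζ 0 + ∑ i, x i * ζ i.succ}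

/-- the cone over `K` -/
def cV {n : ℕ} (K : Set (Fin n → ℝ)) : Set (Fin (n + 1) → ℝ) :=
  {v | 0 ≤ v 0 ∧ ∃ k ∈ K, ∀ i : Fin n, v i.succ = v 0 * k i}

/-- the pair of cones of a body -/
def BodyStmt : Prop :=
  ∀ (n : ℕ) (K : Set (Fin n → ℝ)), Convex ℝ K → IsCompact K → 0 ∈ interior K →
    Pair (cV K) (cW K) (Pi.single 0 1) (Pi.single 0 (n + 1 : ℝ))

/-- the Laplace transform of the cone over `K` -/
def VolStmt : Prop :=
  ∀ (n : ℕ) (K : Set (Fin n → ℝ)), IsCompact K →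
    Phi (cV K) (Pi.single 0 1) ≤ n.factorial * volume K

end Pool.Agent.MP_5f4cdd_gt.EQ

end

section

set_option autoImplicit false
open MeasureTheory Matrix Set Filter Topology
open scoped ENNReal

namespace Pool.Agent.MP_5f4cdd_gt.EQ

theorem gamma_LC (n : ℕ) : ∫⁻ t in Ioi (0 : ℝ), ENNReal.ofReal (Real.exp (-t) * t ^ n)
    = ENNReal.ofReal n.factorial := by
  have hs : (0 : ℝ) < n + 1 := by positivity
  have h1 := Real.GammaIntegral_convergent hs
  have h2 := Real.Gamma_eq_integral hs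
  rw [Real.Gamma_nat_eq_factorial] at h2
  simp only [add_sub_cancel_right, Real.rpow_natCast] at h1 h2
  rw [h2, ofReal_integral_eq_lintegral_ofReal h1]
  filter_upwards [ae_restrict_mem measurableSet_Ioi] with t ht
  exact mul_nonneg (Real.exp_pos _).le (pow_nonneg (le_of_lt ht) n)

theorem exp_LC (c : ℝ) : ENNReal.ofReal (Real.exp (-c)) =
    ∫⁻ t in Ioi c, ENNReal.ofReal (Real.exp (-t)) := by
  rw [← integral_exp_neg_Ioi c, ofReal_integral_eq_lintegral_ofReal (integrableOn_exp_neg_Ioi c)]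
  exact Eventually.of_forall fun t => (Real.exp_pos _).le

theorem lc_stmt : LCStmt := by
  intro N S H u hS hH h0 hu
  set D : Set ((Fin N → ℝ) × ℝ) := {p | 0 < p.2 ∧ p.2⁻¹ • p.1 ∈ H} with hD
  have hDm : MeasurableSet D :=
    (measurableSet_lt measurable_const measurable_snd).inter
      ((measurable_snd.inv.smul measurable_fst) hH)
  set g : (Fin N → ℝ) × ℝ → ℝ≥0∞ :=
    D.indicator fun p => ENNReal.ofReal (Real.exp (-p.2)) with hg
  have hgm : Measurable g := Measurable.indicator (by fun_prop) hDm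
  have h1 : ∫⁻ y in S, ENNReal.ofReal (Real.exp (-u y)) ≤ ∫⁻ y in S, ∫⁻ t, g (y, t) := by
    refine setLIntegral_mono' hS fun y hy => ?_
    rw [exp_LC, ← lintegral_indicator measurableSet_Ioi]
    refine lintegral_mono fun t => ?_
    by_cases ht : t ∈ Ioi (u y)
    · rw [indicator_of_mem ht, hg,
        indicator_of_mem (show (y, t) ∈ D from ⟨lt_of_le_of_lt (h0 y hy) ht, hu y hy t ht⟩)]
    · rw [indicator_of_notMem ht]
      exact bot_le
  refine h1.trans ((setLIntegral_le_lintegral _ _).trans (le_of_eq ?_))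
  rw [lintegral_lintegral_swap (f := fun y t => g (y, t)) hgm.aemeasurable,
    ← ENNReal.ofReal_natCast, ← gamma_LC, ← lintegral_mul_const _ (by fun_prop),
    ← lintegral_indicator measurableSet_Ioi]
  refine lintegral_congr fun t => ?_
  by_cases ht : 0 < t
  · rw [indicator_of_mem (show t ∈ Ioi (0 : ℝ) from ht)]
    have e1 : (fun x : Fin N → ℝ => g (x, t)) =
        ((t⁻¹ • ·) ⁻¹' H).indicator fun _ => ENNReal.ofReal (Real.exp (-t)) := by
      funext x
      rw [hg]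
      by_cases hx : t⁻¹ • x ∈ H
      · rw [indicator_of_mem (show (x, t) ∈ D from ⟨ht, hx⟩),
          indicator_of_mem (show x ∈ (t⁻¹ • ·) ⁻¹' H from hx)]
      · rw [indicator_of_notMem (show (x, t) ∉ D from fun h => hx h.2),
          indicator_of_notMem (show x ∉ (t⁻¹ • ·) ⁻¹' H from hx)]
    rw [e1, lintegral_indicator_const ((measurable_const_smul _) hH),
      Measure.addHaar_preimage_smul _ (inv_ne_zero ht.ne'), ← mul_assoc,
      ← ENNReal.ofReal_mul (Real.exp_pos _).le]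
    simp [abs_of_pos (pow_pos ht N)]
  · rw [indicator_of_notMem (show t ∉ Ioi (0 : ℝ) from ht)]
    have e1 : (fun x : Fin N → ℝ => g (x, t)) = fun _ => 0 := by
      funext x
      rw [hg, indicator_of_notMem (show (x, t) ∉ D from fun h => ht h.1)]
    rw [e1, lintegral_zero]

end Pool.Agent.MP_5f4cdd_gt.EQ

end

section

set_option autoImplicit false
open MeasureTheory Matrix Set Filter Topology
open scoped ENNReal

namespace Pool.Agent.MP_5f4cdd_gt.EQ

variable {N : ℕ} {V W : Set (Fin N → ℝ)} {a b : Fin N → ℝ}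

theorem continuous_dot (p : Fin N → ℝ) : Continuous fun x : Fin N → ℝ => p ⬝ᵥ x := by
  unfold dotProduct
  fun_prop

theorem abs_dot_le (p x : Fin N → ℝ) : |p ⬝ᵥ x| ≤ N * ‖p‖ * ‖x‖ := by
  unfold dotProduct
  refine (Finset.abs_sum_le_sum_abs _ _).trans ?_
  have h : ∀ i ∈ (Finset.univ : Finset (Fin N)), |p i * x i| ≤ ‖p‖ * ‖x‖ := fun i _ => by
    rw [abs_mul]
    exact mul_le_mul (norm_le_pi_norm p i) (norm_le_pi_norm x i) (abs_nonneg _) (norm_nonneg _)
  refine (Finset.sum_le_sum h).trans (le_of_eq ?_)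
  simp [mul_assoc]

namespace Pair

theorem dot_nonneg (h : Pair V W a b) {v w : Fin N → ℝ} (hv : v ∈ V) (hw : w ∈ W) :
    0 ≤ v ⬝ᵥ w := (h.dualW w).1 hw v hv

theorem isClosed (h : Pair V W a b) : IsClosed W := by
  have e : W = ⋂ v ∈ V, {w | 0 ≤ v ⬝ᵥ w} := by
    ext w
    simpa using h.dualW w
  rw [e]
  exact isClosed_biInter fun v _ => isClosed_le continuous_const (continuous_dot v)

theorem measurableSet (h : Pair V W a b) : MeasurableSet W := h.isClosed.measurableSet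

theorem zero_mem (h : Pair V W a b) : (0 : Fin N → ℝ) ∈ W := (h.dualW 0).2 fun v _ => by simp

theorem add_mem (h : Pair V W a b) {x y : Fin N → ℝ} (hx : x ∈ W) (hy : y ∈ W) : x + y ∈ W :=
  (h.dualW _).2 fun v hv => by
    rw [dotProduct_add]
    exact add_nonneg (h.dot_nonneg hv hx) (h.dot_nonneg hv hy)

theorem smul_mem (h : Pair V W a b) {x : Fin N → ℝ} (hx : x ∈ W) {t : ℝ} (ht : 0 ≤ t) :
    t • x ∈ W :=
  (h.dualW _).2 fun v hv => by
    rw [dotProduct_smul]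
    exact mul_nonneg ht (h.dot_nonneg hv hx)

theorem convex (h : Pair V W a b) : Convex ℝ W := fun _ hx _ hy _ _ hs ht _ =>
  h.add_mem (h.smul_mem hx hs) (h.smul_mem hy ht)

/-- a ball around `a` lies in `W` -/
theorem ball (h : Pair V W a b) : ∃ ρ : ℝ, 0 < ρ ∧ ∀ u : Fin N → ℝ, ‖u‖ ≤ ρ → a + u ∈ W := by
  obtain ⟨c, hc, ha⟩ := h.posa
  refine ⟨c / (N + 1), by positivity, fun u hu => (h.dualW _).2 fun v hv => ?_⟩
  have h1 := ha v hv
  have h2 := (abs_le.1 (abs_dot_le u v)).1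
  have h3 : (N : ℝ) * ‖u‖ ≤ c := by
    rw [le_div_iff₀ (by positivity)] at hu
    nlinarith [norm_nonneg u]
  have h4 := mul_le_mul_of_nonneg_right h3 (norm_nonneg v)
  rw [dotProduct_comm, add_dotProduct]
  linarith

theorem mem (h : Pair V W a b) : a ∈ W := by
  obtain ⟨ρ, hρ, hb⟩ := h.ball
  simpa using hb 0 (by simpa using hρ.le)

theorem mem_interior (h : Pair V W a b) : a ∈ interior W := by
  obtain ⟨ρ, hρ, hb⟩ := h.ball
  refine mem_interior_iff_mem_nhds.2 (mem_of_superset (Metric.closedBall_mem_nhds a hρ) ?_)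
  intro x hx
  simpa using hb (x - a) (by simpa [dist_eq_norm] using hx)

theorem nonneg (h : Pair V W a b) {w : Fin N → ℝ} (hw : w ∈ W) : 0 ≤ b ⬝ᵥ w :=
  h.dot_nonneg h.symm.mem hw

theorem eq_zero (h : Pair V W a b) {w : Fin N → ℝ} (hw : w ∈ W) (h0 : b ⬝ᵥ w ≤ 0) : w = 0 := by
  obtain ⟨c, hc, hb⟩ := h.posb
  have h1 := (hb w hw).trans h0
  have h2 : ‖w‖ ≤ 0 := by
    by_contra h3
    exact absurd (mul_pos hc (not_le.1 h3)) (not_lt.2 h1)
  exact norm_le_zero_iff.1 h2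

theorem isCompact_le (h : Pair V W a b) (s : ℝ) : IsCompact {x | x ∈ W ∧ b ⬝ᵥ x ≤ s} := by
  obtain ⟨c, hc, hb⟩ := h.posb
  refine Metric.isCompact_of_isClosed_isBounded
    (h.isClosed.inter (isClosed_le (continuous_dot b) continuous_const))
    ((Metric.isBounded_closedBall (x := (0 : Fin N → ℝ)) (r := s / c)).subset fun x hx => ?_)
  rw [mem_closedBall_zero_iff, le_div_iff₀ hc]
  linarith [hb x hx.1, hx.2]

/-- adding a large multiple of `a` moves any point into `W` -/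
theorem exists_add (h : Pair V W a b) (y : Fin N → ℝ) : ∃ t : ℝ, 0 < t ∧ y + t • a ∈ W := by
  obtain ⟨ρ, hρ, hb⟩ := h.ball
  have ht : 0 < ‖y‖ / ρ + 1 := by positivity
  refine ⟨_, ht, ?_⟩
  have h1 := h.smul_mem (hb ((‖y‖ / ρ + 1)⁻¹ • y) (by
    rw [norm_smul, Real.norm_eq_abs, abs_of_pos (inv_pos.2 ht), inv_mul_le_iff₀ ht, add_mul,
      div_mul_cancel₀ _ hρ.ne']
    linarith)) ht.le
  rwa [smul_add, smul_smul, mul_inv_cancel₀ ht.ne', one_smul, add_comm] at h1

theorem gg_nonempty (h : Pair V W a b) (p q y : Fin N → ℝ) :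
    {s | ∃ x ∈ W, ∃ x' ∈ W, x - x' = y ∧ s = p ⬝ᵥ x + q ⬝ᵥ x'}.Nonempty := by
  obtain ⟨t, ht, hy⟩ := h.exists_add y
  exact ⟨_, _, hy, _, h.smul_mem h.mem ht.le, by simp, rfl⟩

theorem gg_bdd (h : Pair V W a b) {p q : Fin N → ℝ} (hp : p ∈ V) (hq : q ∈ V) (y : Fin N → ℝ) :
    BddBelow {s | ∃ x ∈ W, ∃ x' ∈ W, x - x' = y ∧ s = p ⬝ᵥ x + q ⬝ᵥ x'} :=
  ⟨0, by
    rintro _ ⟨x, hx, x', hx', -, rfl⟩
    exact add_nonneg (h.dot_nonneg hp hx) (h.dot_nonneg hq hx')⟩

theorem gg_le (h : Pair V W a b) {p q : Fin N → ℝ} (hp : p ∈ V) (hq : q ∈ V) {x x' : Fin N → ℝ}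
    (hx : x ∈ W) (hx' : x' ∈ W) : gg W p q (x - x') ≤ p ⬝ᵥ x + q ⬝ᵥ x' :=
  csInf_le (h.gg_bdd hp hq _) ⟨x, hx, x', hx', rfl, rfl⟩

theorem le_gg (h : Pair V W a b) {p q y : Fin N → ℝ} {s : ℝ}
    (hs : ∀ x ∈ W, ∀ x' ∈ W, x - x' = y → s ≤ p ⬝ᵥ x + q ⬝ᵥ x') : s ≤ gg W p q y :=
  le_csInf (h.gg_nonempty p q y) (by
    rintro _ ⟨x, hx, x', hx', e, rfl⟩
    exact hs x hx x' hx' e)

theorem gg_nonneg (h : Pair V W a b) {p q : Fin N → ℝ} (hp : p ∈ V) (hq : q ∈ V)
    (y : Fin N → ℝ) : 0 ≤ gg W p q y :=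
  h.le_gg fun _ hx _ hx' _ => add_nonneg (h.dot_nonneg hp hx) (h.dot_nonneg hq hx')

theorem exists_lt_gg (h : Pair V W a b) {p q y : Fin N → ℝ} {t : ℝ} (ht : gg W p q y < t) :
    ∃ x ∈ W, ∃ x' ∈ W, x - x' = y ∧ p ⬝ᵥ x + q ⬝ᵥ x' < t := by
  obtain ⟨_, ⟨x, hx, x', hx', e, rfl⟩, h1⟩ := exists_lt_of_csInf_lt (h.gg_nonempty p q y) ht
  exact ⟨x, hx, x', hx', e, h1⟩

/-- weak duality -/
theorem dot_le_gg (h : Pair V W a b) {p q η : Fin N → ℝ} (hp : p - η ∈ V) (hq : q + η ∈ V)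
    (y : Fin N → ℝ) : η ⬝ᵥ y ≤ gg W p q y :=
  h.le_gg fun x hx x' hx' e => by
    have h1 := h.dot_nonneg hp hx
    have h2 := h.dot_nonneg hq hx'
    rw [sub_dotProduct] at h1
    rw [add_dotProduct] at h2
    rw [← e, dotProduct_sub]
    linarith

/-- order intervals of `W` are compact -/
theorem isCompact_int (h : Pair V W a b) (p q : Fin N → ℝ) :
    IsCompact {x | p - x ∈ W ∧ q + x ∈ W} := by
  have h1 := (h.isCompact_le (b ⬝ᵥ (p + q))).image (f := fun x => x - q) (by fun_prop)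
  refine h1.of_isClosed_subset ((h.isClosed.preimage (by fun_prop)).inter
    (h.isClosed.preimage (by fun_prop))) fun x hx => ⟨q + x, ⟨hx.2, ?_⟩, by simp⟩
  have h2 := h.nonneg hx.1
  simp only [dotProduct_add, dotProduct_sub] at h2 ⊢
  linarith

theorem isCompact_Iv (h : Pair V W a b) : IsCompact {x | x ∈ W ∧ a - x ∈ W} := by
  have h1 := h.isCompact_int a 0
  simp only [zero_add] at h1
  simpa only [and_comm] using h1

theorem Iv_ne_top (h : Pair V W a b) : Iv W a ≠ ∞ := h.isCompact_Iv.measure_lt_top.ne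

theorem Iv_ne_zero (h : Pair V W a b) : Iv W a ≠ 0 := by
  obtain ⟨ρ, hρ, hb⟩ := h.ball
  have h1 : Metric.closedBall ((1 / 2 : ℝ) • a) (ρ / 2) ⊆ {x | x ∈ W ∧ a - x ∈ W} := by
    intro x hx
    rw [Metric.mem_closedBall, dist_eq_norm] at hx
    have h2 : ‖(2 : ℝ) • (x - (1 / 2 : ℝ) • a)‖ ≤ ρ := by
      rw [norm_smul, Real.norm_ofNat]
      linarith
    have h3 := h.smul_mem (hb _ h2) (t := 1 / 2) (by norm_num)
    have h4 := h.smul_mem (hb (-((2 : ℝ) • (x - (1 / 2 : ℝ) • a))) (by rwa [norm_neg]))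
      (t := 1 / 2) (by norm_num)
    have e1 : (1 / 2 : ℝ) • (a + (2 : ℝ) • (x - (1 / 2 : ℝ) • a)) = x := by module
    have e2 : (1 / 2 : ℝ) • (a + -((2 : ℝ) • (x - (1 / 2 : ℝ) • a))) = a - x := by module
    exact ⟨e1 ▸ h3, e2 ▸ h4⟩
  exact ((Metric.measure_closedBall_pos volume _ (by positivity)).trans_le (measure_mono h1)).ne'

/-- the exponential is bounded below on the part of the cone below height `s` -/
theorem le_Phi (h : Pair V W a b) (s : ℝ) :
    ENNReal.ofReal (Real.exp (-s)) * volume {x | x ∈ W ∧ b ⬝ᵥ x ≤ s} ≤ Phi W b := by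
  rw [← setLIntegral_const]
  refine le_trans (setLIntegral_mono' (h.isCompact_le s).measurableSet fun x hx =>
    ENNReal.ofReal_le_ofReal (Real.exp_le_exp.2 (neg_le_neg hx.2))) ?_
  exact lintegral_mono_set fun x hx => hx.1

theorem Phi_ne_zero (h : Pair V W a b) : Phi W b ≠ 0 := by
  refine (lt_of_lt_of_le (ENNReal.mul_pos (ENNReal.ofReal_pos.2 (Real.exp_pos _)).ne' ?_)
    (h.le_Phi N)).ne'
  refine fun h0 => h.Iv_ne_zero (measure_mono_null (fun x hx => ?_) h0)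
  refine ⟨hx.1, ?_⟩
  have h2 := h.nonneg hx.2
  rw [dotProduct_sub, dotProduct_comm b a, h.dot] at h2
  linarith

theorem Phi_le (hL : LCStmt) (h : Pair V W a b) :
    Phi W b ≤ N.factorial * volume {x | x ∈ W ∧ b ⬝ᵥ x ≤ 1} := by
  refine hL N W _ (fun x => b ⬝ᵥ x) h.measurableSet (h.isCompact_le 1).measurableSet
    (fun y hy => h.nonneg hy) fun y hy t ht => ?_
  have h0 : 0 < t := (h.nonneg hy).trans_lt ht
  refine ⟨h.smul_mem hy (inv_pos.2 h0).le, ?_⟩
  rw [dotProduct_smul, smul_eq_mul, inv_mul_le_iff₀ h0, mul_one]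
  exact ht.le

theorem Phi_ne_top (hL : LCStmt) (h : Pair V W a b) : Phi W b ≠ ∞ :=
  ((h.Phi_le hL).trans_lt (ENNReal.mul_lt_top (ENNReal.natCast_lt_top _)
    (h.isCompact_le 1).measure_lt_top)).ne

end Pair

end Pool.Agent.MP_5f4cdd_gt.EQ

end

section

set_option autoImplicit false
open MeasureTheory Matrix Set Filter Topology
open scoped ENNReal

namespace Pool.Agent.MP_5f4cdd_gt.EQ

variable {N : ℕ} {V W : Set (Fin N → ℝ)} {a b : Fin N → ℝ}

/-- the exponential weight cut to the cone -/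
noncomputable def ex_Lat (W : Set (Fin N → ℝ)) (p : Fin N → ℝ) : (Fin N → ℝ) → ℝ≥0∞ :=
  W.indicator fun x => ENNReal.ofReal (Real.exp (-(p ⬝ᵥ x)))

theorem ex_meas_Lat (h : Pair V W a b) (p : Fin N → ℝ) : Measurable (ex_Lat W p) := by
  refine Measurable.indicator ?_ h.measurableSet
  exact ENNReal.measurable_ofReal.comp
    (Real.continuous_exp.comp (continuous_dot p).neg).measurable

theorem ex_int_Lat (h : Pair V W a b) (p : Fin N → ℝ) : ∫⁻ x, ex_Lat W p x = Phi W p := by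
  unfold ex_Lat Phi
  rw [lintegral_indicator h.measurableSet]

theorem ex_mem_Lat {p x : Fin N → ℝ} (hx : x ∈ W) :
    ex_Lat W p x = ENNReal.ofReal (Real.exp (-(p ⬝ᵥ x))) := indicator_of_mem hx _

theorem ex_not_Lat {p x : Fin N → ℝ} (hx : x ∉ W) : ex_Lat W p x = 0 :=
  indicator_of_notMem hx _

theorem scale_Lat (h : Pair V W a b) (c : Fin N → ℝ) :
    Phi W ((2 : ℝ) • c) = ENNReal.ofReal |((2 : ℝ) ^ N)⁻¹| * Phi W c := by
  have e : ∀ x, ex_Lat W ((2 : ℝ) • c) x = ex_Lat W c ((2 : ℝ) • x) := fun x => by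
    by_cases hx : x ∈ W
    · rw [ex_mem_Lat hx, ex_mem_Lat (h.smul_mem hx (by norm_num)), smul_dotProduct,
        dotProduct_smul]
    · have hx' : (2 : ℝ) • x ∉ W := fun h2 => hx (by
        have h3 := h.smul_mem h2 (t := 1 / 2) (by norm_num)
        rwa [smul_smul, show (1 / 2 : ℝ) * 2 = 1 by norm_num, one_smul] at h3)
      rw [ex_not_Lat hx, ex_not_Lat hx']
  rw [← ex_int_Lat h, ← ex_int_Lat h]
  simp only [e]
  rw [← lintegral_map (ex_meas_Lat h c) (measurable_const_smul (2 : ℝ)),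
    Measure.map_addHaar_smul volume (by norm_num : (2 : ℝ) ≠ 0), lintegral_smul_measure]
  simp

theorem attain_Lat (h : Pair V W a b) (y : Fin N → ℝ) :
    ∃ z ∈ W, y + z ∈ W ∧ gg W ((2 : ℝ) • b) ((2 : ℝ) • b) y =
      ((2 : ℝ) • b) ⬝ᵥ (y + z) + ((2 : ℝ) • b) ⬝ᵥ z := by
  obtain ⟨t, ht, hy⟩ := h.exists_add y
  have hc : IsCompact ({x | x ∈ W ∧ b ⬝ᵥ x ≤ b ⬝ᵥ (t • a)} ∩ {x | y + x ∈ W}) :=
    (h.isCompact_le _).inter_right (h.isClosed.preimage (by fun_prop))
  have h0 : t • a ∈ ({x | x ∈ W ∧ b ⬝ᵥ x ≤ b ⬝ᵥ (t • a)} ∩ {x | y + x ∈ W}) :=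
    ⟨⟨h.smul_mem h.mem ht.le, le_rfl⟩, hy⟩
  obtain ⟨z, hz, hmin⟩ := hc.exists_isMinOn ⟨_, h0⟩ (continuous_dot b).continuousOn
  have hp : (2 : ℝ) • b ∈ V := h.symm.smul_mem h.symm.mem (by norm_num)
  refine ⟨z, hz.1.1, hz.2, le_antisymm ?_ (h.le_gg fun x hx x' hx' e => ?_)⟩
  · have h1 := h.gg_le hp hp hz.2 hz.1.1
    rwa [add_sub_cancel_right] at h1
  · have e' : x = y + x' := by rw [← e]; simp
    have h1 : b ⬝ᵥ z ≤ b ⬝ᵥ x' := by
      by_cases h2 : b ⬝ᵥ x' ≤ b ⬝ᵥ (t • a)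
      · exact hmin ⟨⟨hx', h2⟩, by simpa only [mem_ofPred_eq, ← e'] using hx⟩
      · exact hz.1.2.trans (not_le.1 h2).le
    rw [e']
    simp only [smul_dotProduct, dotProduct_add, smul_eq_mul]
    linarith

theorem piece_Lat (h : Pair V W a b) {p y z : Fin N → ℝ} (hz : z ∈ W) (hy : y + z ∈ W) :
    ∫⁻ v in {v | v - z ∈ W}, ex_Lat W p v * ex_Lat W p (y + v) =
      ENNReal.ofReal (Real.exp (-(p ⬝ᵥ (y + z) + p ⬝ᵥ z))) * Phi W ((2 : ℝ) • p) := by
  have hm : MeasurableSet {v | v - z ∈ W} := (h.isClosed.preimage (by fun_prop)).measurableSet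
  rw [← lintegral_indicator hm, ← lintegral_add_right_eq_self _ z, ← ex_int_Lat h,
    ← lintegral_const_mul' _ _ ENNReal.ofReal_ne_top]
  refine lintegral_congr fun w => ?_
  by_cases hw : w ∈ W
  · have h1 : w + z ∈ W := h.add_mem hw hz
    have h2 : y + (w + z) ∈ W := by
      have h3 := h.add_mem hw hy
      rwa [add_left_comm] at h3
    rw [indicator_of_mem (by simpa using hw), ex_mem_Lat h1, ex_mem_Lat h2, ex_mem_Lat hw,
      ← ENNReal.ofReal_mul (Real.exp_pos _).le, ← ENNReal.ofReal_mul (Real.exp_pos _).le,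
      ← Real.exp_add, ← Real.exp_add]
    congr 2
    simp only [smul_dotProduct, dotProduct_add, smul_eq_mul]
    ring
  · rw [indicator_of_notMem (by simpa using hw), ex_not_Lat hw, mul_zero]

theorem total_Lat (h : Pair V W a b) (p : Fin N → ℝ) :
    ∫⁻ y, ∫⁻ v, ex_Lat W p v * ex_Lat W p (y + v) = Phi W p * Phi W p := by
  have hm := ex_meas_Lat h p
  rw [lintegral_lintegral_swap
    ((hm.comp measurable_snd).mul (hm.comp (measurable_fst.add measurable_snd))).aemeasurable]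
  have e : ∀ v, ∫⁻ y, ex_Lat W p v * ex_Lat W p (y + v) = ex_Lat W p v * Phi W p := fun v => by
    have h1 : Measurable fun y => ex_Lat W p (y + v) := hm.comp (measurable_id.add_const v)
    rw [lintegral_const_mul _ h1, lintegral_add_right_eq_self (ex_Lat W p) v, ex_int_Lat h]
  simp only [e]
  rw [lintegral_mul_const _ hm, ex_int_Lat h]

theorem null_Lat (h : Pair V W a b) {p y z : Fin N → ℝ}
    (h0 : ∫⁻ v in {v | v - z ∈ W}ᶜ, ex_Lat W p v * ex_Lat W p (y + v) = 0)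
    {u : Fin N → ℝ} (hu : u ∈ W) (hyu : y + u ∈ W) : u - z ∈ W := by
  by_contra hn
  have hcl : IsClosed {v | v - z ∈ W} := h.isClosed.preimage (by fun_prop)
  have hm := ex_meas_Lat h p
  have hk : Measurable fun v => ex_Lat W p v * ex_Lat W p (y + v) :=
    hm.mul (hm.comp (measurable_const.add measurable_id))
  obtain ⟨ρ, hρ, hb⟩ := h.ball
  obtain ⟨ε, hε, hU⟩ := Metric.isOpen_iff.1 hcl.isOpen_compl u hn
  set e : ℝ := ε / (2 * (‖a‖ + ρ)) with he
  have hd : 0 < ‖a‖ + ρ := by positivity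
  have he0 : 0 < e := by positivity
  have hsub : Metric.closedBall (u + e • a) (e * ρ) ⊆
      {v | v - z ∈ W}ᶜ ∩ {v | ex_Lat W p v * ex_Lat W p (y + v) ≠ 0} := by
    intro v hv
    rw [Metric.mem_closedBall, dist_eq_norm] at hv
    have h1 : ‖e⁻¹ • (v - (u + e • a))‖ ≤ ρ := by
      rw [norm_smul, Real.norm_eq_abs, abs_of_pos (inv_pos.2 he0), inv_mul_le_iff₀ he0]
      exact hv
    have h2 := h.smul_mem (hb _ h1) he0.le
    rw [smul_add, smul_smul, mul_inv_cancel₀ he0.ne', one_smul] at h2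
    have e1 : e • a + (v - (u + e • a)) = v - u := by abel
    rw [e1] at h2
    have h3 : v ∈ W := by simpa using h.add_mem hu h2
    have h4 : y + v ∈ W := by
      have h5 := h.add_mem hyu h2
      rwa [show y + u + (v - u) = y + v by abel] at h5
    refine ⟨hU ?_, ?_⟩
    · rw [Metric.mem_ball, dist_eq_norm, ← e1]
      have h6 : ‖e • a‖ = e * ‖a‖ := by rw [norm_smul, Real.norm_eq_abs, abs_of_pos he0]
      have h7 : e * (‖a‖ + ρ) = ε / 2 := by rw [he]; field_simp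
      have h8 := norm_add_le (e • a) (v - (u + e • a))
      nlinarith
    · rw [mem_ofPred_eq, ex_mem_Lat h3, ex_mem_Lat h4]
      exact mul_ne_zero (ENNReal.ofReal_pos.2 (Real.exp_pos _)).ne'
        (ENNReal.ofReal_pos.2 (Real.exp_pos _)).ne'
  have h9 := (lintegral_eq_zero_iff hk).1 h0
  rw [Filter.EventuallyEq, ae_restrict_iff' hcl.measurableSet.compl, ae_iff] at h9
  refine (Metric.measure_closedBall_pos volume (u + e • a) (mul_pos he0 hρ)).ne'
    (measure_mono_null (fun v hv => ?_) h9)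
  obtain ⟨h1, h2⟩ := hsub hv
  exact fun h3 => h2 (h3 h1)

theorem lat_stmt (hL : LCStmt) (_hH : HBStmt) (hC : CChordStmt) : LatStmt := by
  intro N V W a b h hI
  set p : Fin N → ℝ := (2 : ℝ) • b with hp
  have hm := ex_meas_Lat h p
  have hb := h.Phi_ne_top hL
  have h1 : Phi W p ≠ ∞ := by
    rw [hp, scale_Lat h]
    exact ENNReal.mul_ne_top ENNReal.ofReal_ne_top hb
  have h2 : Phi W ((2 : ℝ) • p) ≠ ∞ := by
    rw [scale_Lat h]
    exact ENNReal.mul_ne_top ENNReal.ofReal_ne_top h1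
  have h3 : Phi W p * Phi W p = Phi W b * Phi W ((2 : ℝ) • p) := by
    rw [scale_Lat h p, hp, scale_Lat h b]
    ring
  have h4 : Phi W b ≤ ∫⁻ y, ENNReal.ofReal (Real.exp (-gg W p p y)) := by
    have h5 := hC N V W a b h (1 / 2) (by norm_num) (by norm_num)
    rw [show ((1 : ℝ) - 1 / 2)⁻¹ = 2 by norm_num, show ((1 : ℝ) / 2)⁻¹ = 2 by norm_num] at h5
    exact (ENNReal.mul_le_mul_iff_right h.symm.Iv_ne_zero h.symm.Iv_ne_top).1 (hI.trans h5)
  have hF : Measurable fun y => ∫⁻ v, ex_Lat W p v * ex_Lat W p (y + v) :=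
    Measurable.lintegral_prod_right' (f := fun q : (Fin N → ℝ) × (Fin N → ℝ) =>
      ex_Lat W p q.2 * ex_Lat W p (q.1 + q.2))
      ((hm.comp measurable_snd).mul (hm.comp (measurable_fst.add measurable_snd)))
  have hle : ∀ y, ENNReal.ofReal (Real.exp (-gg W p p y)) * Phi W ((2 : ℝ) • p) ≤
      ∫⁻ v, ex_Lat W p v * ex_Lat W p (y + v) := fun y => by
    obtain ⟨z, hz, hy, e⟩ := attain_Lat h y
    rw [e, ← piece_Lat h hz hy]
    exact setLIntegral_le_lintegral _ _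
  have hfin : ∫⁻ y, ENNReal.ofReal (Real.exp (-gg W p p y)) * Phi W ((2 : ℝ) • p) ≠ ∞ := by
    refine ((lintegral_mono hle).trans_lt ?_).ne
    rw [total_Lat h]
    exact ENNReal.mul_lt_top h1.lt_top h1.lt_top
  have hae := ae_eq_of_ae_le_of_lintegral_le (ae_of_all volume hle) hfin hF.aemeasurable (by
    rw [total_Lat h, lintegral_mul_const' _ _ h2, h3]
    exact mul_le_mul_left h4 _)
  filter_upwards [hae] with y hy0
  obtain ⟨z, hz, hy, e⟩ := attain_Lat h y
  refine ⟨z, hz, hy, fun u hu hyu => null_Lat h (p := p) ?_ hu hyu⟩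
  have hcl : MeasurableSet {v | v - z ∈ W} := (h.isClosed.preimage (by fun_prop)).measurableSet
  have h6 := lintegral_add_compl (μ := volume) (fun v => ex_Lat W p v * ex_Lat W p (y + v)) hcl
  rw [← hy0, piece_Lat h hz hy, ← e] at h6
  have h7 : ENNReal.ofReal (Real.exp (-gg W p p y)) * Phi W ((2 : ℝ) • p) ≠ ∞ :=
    ENNReal.mul_ne_top ENNReal.ofReal_ne_top h2
  exact (ENNReal.add_right_inj h7).1 (h6.trans (add_zero _).symm)

end Pool.Agent.MP_5f4cdd_gt.EQ

end

section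

set_option autoImplicit false
open MeasureTheory Matrix Set Filter Topology
open scoped ENNReal

namespace Pool.Agent.MP_5f4cdd_gt.EQ

theorem lat_Ind (hH : HBStmt) {N : ℕ} {V W : Set (Fin N → ℝ)} {a b : Fin N → ℝ}
    (h : Pair V W a b) {y z w : Fin N → ℝ} (hz : z ∈ W) (hyz : y + z ∈ W)
    (hmin : ∀ u ∈ W, y + u ∈ W → u - z ∈ W) (hw : w ∈ V) (ha : a ⬝ᵥ w = 1)
    (hext : ∀ η ∈ V, w - η ∈ V → ∃ t : ℝ, η = t • w) : w ⬝ᵥ (y + z) = max 0 (w ⬝ᵥ y) := by
  obtain ⟨η, h1, h2, h3⟩ := hH N V W a b h w hw 0 h.symm.zero_mem y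
  rw [zero_add] at h2
  obtain ⟨t, rfl⟩ := hext η h2 h1
  have h4 : w ⬝ᵥ (y + z) ≤ gg W w 0 y := h.le_gg fun x hx x' hx' e => by
    have e1 : y + x' = x := by rw [← e, sub_add_cancel]
    have h5 := h.dot_nonneg hw (hmin x' hx' (by rwa [e1]))
    rw [← e1, zero_dotProduct, add_zero, dotProduct_add, dotProduct_add]
    rw [dotProduct_sub] at h5
    linarith
  have h5 := h.dot_nonneg h2 h.mem
  have h6 := h.dot_nonneg h1 h.mem
  rw [smul_dotProduct, dotProduct_comm, ha, smul_eq_mul, mul_one] at h5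
  rw [sub_dotProduct, smul_dotProduct, dotProduct_comm, ha, smul_eq_mul, mul_one] at h6
  rw [smul_dotProduct, smul_eq_mul] at h3
  refine le_antisymm ?_ (max_le (h.dot_nonneg hw hyz) ?_)
  · rw [← h3] at h4
    refine h4.trans ?_
    rcases le_total 0 (w ⬝ᵥ y) with h7 | h7
    · rw [max_eq_right h7]
      nlinarith
    · rw [max_eq_left h7]
      exact mul_nonpos_of_nonneg_of_nonpos h5 h7
  · rw [dotProduct_add]
    linarith [h.dot_nonneg hw hz]

theorem generic_Ind {N : ℕ} {ι : Type} [Fintype ι] (d : ι → Fin N → ℝ) :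
    ∃ v : Fin N → ℝ, ∀ j, d j ≠ 0 → d j ⬝ᵥ v ≠ 0 := by
  have h : ∀ᵐ v : Fin N → ℝ, ∀ j, d j ≠ 0 → d j ⬝ᵥ v ≠ 0 := by
    refine ae_all_iff.2 fun j => ?_
    by_cases hj : d j = 0
    · exact Eventually.of_forall fun v h => absurd hj h
    · have h1 : LinearMap.ker (dotProductBilin ℝ ℝ (d j)) ≠ ⊤ := by
        intro h2
        have h3 : d j ∈ LinearMap.ker (dotProductBilin ℝ ℝ (d j)) := by
          rw [h2]
          trivial
        exact hj (dotProduct_self_eq_zero.1 h3)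
      have h2 := measure_eq_zero_iff_ae_notMem.1 (Measure.addHaar_submodule volume _ h1)
      exact h2.mono fun v hv _ => hv
  exact h.exists

theorem second_Ind (m t : ℝ) (ht : 0 < t) (h : t ≤ |m|) :
    max 0 (m + t) + max 0 (m + -t) - 2 * max 0 (m + 0) = 0 := by
  rcases le_total 0 m with h1 | h1
  · rw [abs_of_nonneg h1] at h
    rw [max_eq_right (by linarith), max_eq_right (by linarith), max_eq_right (by linarith)]
    ring
  · rw [abs_of_nonpos h1] at h
    rw [max_eq_left (by linarith), max_eq_left (by linarith), max_eq_left (by linarith)]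
    ring

theorem coef_Ind {ι : Type} [Fintype ι] (c m : ι → ℝ) (i : ι) (hi : m i = 0)
    (hm : ∀ j, j ≠ i → m j ≠ 0) (h : ∀ s : ℝ, ∑ j, c j * max 0 (m j + s) = 0) : c i = 0 := by
  have h1 : ∀ᶠ t in 𝓝[>] (0 : ℝ), ∀ j, j ≠ i → t ≤ |m j| := by
    refine eventually_all.2 fun j => ?_
    by_cases hj : j = i
    · exact Eventually.of_forall fun t h => absurd hj h
    · have h2 : ∀ᶠ t in 𝓝 (0 : ℝ), t ≤ |m j| := Iic_mem_nhds (abs_pos.2 (hm j hj))
      exact (h2.filter_mono nhdsWithin_le_nhds).mono fun t ht _ => ht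
  obtain ⟨t, ht, ht0⟩ := (h1.and self_mem_nhdsWithin).exists
  have ht1 : 0 < t := ht0
  have h2 : ∑ j, c j * (max 0 (m j + t) + max 0 (m j + -t) - 2 * max 0 (m j + 0)) = 0 := by
    have e : ∀ j, c j * (max 0 (m j + t) + max 0 (m j + -t) - 2 * max 0 (m j + 0)) =
        c j * max 0 (m j + t) + c j * max 0 (m j + -t) - 2 * (c j * max 0 (m j + 0)) :=
      fun j => by ring
    simp only [e]
    rw [Finset.sum_sub_distrib, Finset.sum_add_distrib, ← Finset.mul_sum, h, h, h]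
    ring
  rw [Finset.sum_eq_single i (fun j _ hj => by rw [second_Ind _ _ ht1 (ht j hj), mul_zero])
    (fun h3 => absurd (Finset.mem_univ i) h3), hi, max_eq_right (by linarith),
    max_eq_left (by linarith), max_eq_left (by linarith)] at h2
  have h3 : c i * t = 0 := by linarith
  exact (mul_eq_zero.1 h3).resolve_right ht1.ne'

theorem ind_stmt (hH : HBStmt) : IndStmt := by
  intro N V W a b h hlat ι _ w hw ha hext hinj
  refine Fintype.linearIndependent_iff.2 fun c hc i => ?_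
  have h1 : ∀ᵐ y : Fin N → ℝ, ∑ j, c j * max 0 (w j ⬝ᵥ y) = 0 := hlat.mono fun y hy => by
    obtain ⟨z, hz, hyz, hmin⟩ := hy
    have h2 : (∑ j, c j • w j) ⬝ᵥ (y + z) = 0 := by rw [hc, zero_dotProduct]
    rw [sum_dotProduct] at h2
    refine Eq.trans (Finset.sum_congr rfl fun j _ => ?_) h2
    rw [smul_dotProduct, smul_eq_mul, lat_Ind hH h hz hyz hmin (hw j) (ha j) (hext j)]
  have h2 : Continuous fun y : Fin N → ℝ => ∑ j, c j * max 0 (w j ⬝ᵥ y) :=
    continuous_finsetSum _ fun j _ =>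
      continuous_const.mul (continuous_const.max (continuous_dot (w j)))
  have h3 := (Continuous.ae_eq_iff_eq volume h2 (continuous_const (y := (0 : ℝ)))).1 h1
  obtain ⟨v, hv⟩ := generic_Ind fun j => w j - w i
  refine coef_Ind c (fun j => (w j - w i) ⬝ᵥ v) i (by simp)
    (fun j hj => hv j (sub_ne_zero.2 fun e => hj (hinj e))) fun s => ?_
  refine Eq.trans (Finset.sum_congr rfl fun j _ => ?_) (congrFun h3 (v + (s - w i ⬝ᵥ v) • a))
  have e : (w j - w i) ⬝ᵥ v + s = w j ⬝ᵥ (v + (s - w i ⬝ᵥ v) • a) := by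
    rw [dotProduct_add, dotProduct_smul, dotProduct_comm (w j) a, ha j, sub_dotProduct,
      smul_eq_mul]
    ring
  rw [e]

end Pool.Agent.MP_5f4cdd_gt.EQ

end

section

set_option autoImplicit false
open MeasureTheory Matrix Set Filter Topology
open scoped ENNReal

namespace Pool.Agent.MP_5f4cdd_gt.EQ

theorem convex_Simp (n : ℕ) : Convex ℝ (stdS n) := by
  intro x hx y hy s t hs ht hst
  refine ⟨fun i => ?_, ?_⟩
  · have h1 := hx.1 i
    have h2 := hy.1 i
    simp only [Pi.add_apply, Pi.smul_apply, smul_eq_mul]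
    positivity
  · have h1 := mul_le_mul_of_nonneg_left hx.2 hs
    have h2 := mul_le_mul_of_nonneg_left hy.2 ht
    simp only [Pi.add_apply, Pi.smul_apply, smul_eq_mul, Finset.sum_add_distrib,
      ← Finset.mul_sum]
    linarith

theorem hull_Simp (n : ℕ) : stdS n = convexHull ℝ (range
    (Fin.cons 0 (fun k => Pi.single k 1) : Fin (n + 1) → Fin n → ℝ)) := by
  refine Subset.antisymm (fun z hz => ?_) (convexHull_min ?_ (convex_Simp n))
  · have h := (convex_convexHull ℝ (range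
      (Fin.cons 0 (fun k => Pi.single k 1) : Fin (n + 1) → Fin n → ℝ))).sum_mem (t := Finset.univ)
      (w := (Fin.cons (1 - ∑ k, z k) z : Fin (n + 1) → ℝ))
      (z := (Fin.cons 0 (fun k => Pi.single k 1) : Fin (n + 1) → Fin n → ℝ))
      (fun i _ => by
        refine Fin.cases ?_ (fun k => ?_) i
        · simpa using hz.2
        · simpa using hz.1 k)
      (by simp [Fin.sum_univ_succ]) (fun i _ => subset_convexHull ℝ _ (mem_range_self i))
    convert h using 1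
    ext j
    simp [Fin.sum_univ_succ, Finset.sum_apply, Pi.single_apply]
  · rintro _ ⟨i, rfl⟩
    refine Fin.cases ?_ (fun k => ?_) i
    · simp [stdS]
    · refine ⟨fun j => ?_, by simp⟩
      simp only [Fin.cons_succ, Pi.single_apply]
      split_ifs <;> simp

theorem affine_Simp {n : ℕ} {V : Set (Fin n → ℝ)} (hV : V.Finite)
    (hi : AffineIndependent ℝ ((↑) : V → Fin n → ℝ)) (hv : affineSpan ℝ V = ⊤) :
    ∃ e : (Fin n → ℝ) ≃ᵃ[ℝ] (Fin n → ℝ), convexHull ℝ V = e '' stdS n := by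
  have := hV.fintype
  have h1 : affineSpan ℝ (range ((↑) : V → Fin n → ℝ)) = ⊤ := by
    rw [Subtype.range_coe]
    exact hv
  have h2 := hi.affineSpan_eq_top_iff_card_eq_finrank_add_one.1 h1
  simp only [Module.finrank_fintype_fun_eq_card, Fintype.card_fin] at h2
  let σ : Fin (n + 1) ≃ V := (Fintype.equivFinOfCardEq h2).symm
  set p : Fin (n + 1) → Fin n → ℝ := ((↑) : V → Fin n → ℝ) ∘ σ with hp
  have hpi : AffineIndependent ℝ p := (affineIndependent_equiv σ).2 hi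
  have hpr : range p = V := by rw [hp, σ.surjective.range_comp, Subtype.range_coe]
  have hl : LinearIndependent ℝ fun k : Fin n => p k.succ - p 0 := by
    have := (affineIndependent_iff_linearIndependent_vsub ℝ p 0).1 hpi
    exact this.comp (fun k : Fin n => (⟨k.succ, Fin.succ_ne_zero k⟩ : {x : Fin (n + 1) // x ≠ 0}))
      (fun a b h => Fin.succ_injective _ (congrArg Subtype.val h))
  let B := basisOfLinearIndependentOfCardEqFinrank' _ hl (by simp)
  let e : (Fin n → ℝ) ≃ᵃ[ℝ] (Fin n → ℝ) :=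
    B.equivFun.symm.toAffineEquiv.trans (AffineEquiv.constVAdd ℝ _ (p 0))
  have he : ∀ z, e z = p 0 + B.equivFun.symm z := fun z => rfl
  refine ⟨e, ?_⟩
  have h3 := e.toAffineMap.image_convexHull (range
    (Fin.cons 0 (fun k => Pi.single k 1) : Fin (n + 1) → Fin n → ℝ))
  rw [AffineEquiv.coe_toAffineMap] at h3
  rw [hull_Simp, h3, ← range_comp, ← hpr]
  congr 2
  ext1 i
  refine Fin.cases ?_ (fun k => ?_) i
  · simp [he]
  · simp [he, B, Pi.single_apply]

theorem simp_stmt : SimpStmt := by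
  intro n K hcv hc hint hind
  have hfin : (K.extremePoints ℝ).Finite := by
    by_contra hinf
    obtain ⟨s, hs, hcard⟩ := Set.Infinite.exists_subset_card_eq hinf (n + 2)
    have h1 := (hind s hs).card_le_finrank_succ
    have h2 := Submodule.finrank_le
      (vectorSpan ℝ (range fun x : s => (x : Fin n → ℝ)))
    simp only [Module.finrank_fintype_fun_eq_card, Fintype.card_fin, Fintype.card_coe] at h1 h2
    omega
  have hK : convexHull ℝ (K.extremePoints ℝ) = K := by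
    have h := closure_convexHull_extremePoints hc hcv
    rwa [(hfin.isCompact_convexHull ℝ).isClosed.closure_eq] at h
  have hi : AffineIndependent ℝ ((↑) : K.extremePoints ℝ → Fin n → ℝ) := by
    have h := hind hfin.toFinset (by rw [hfin.coe_toFinset])
    have h' : AffineIndependent ℝ
      (Subtype.val : ↥((hfin.toFinset : Finset (Fin n → ℝ)) : Set (Fin n → ℝ)) → Fin n → ℝ) := h
    rwa [hfin.coe_toFinset] at h'
  have hsp : affineSpan ℝ (K.extremePoints ℝ) = ⊤ := by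
    rw [← affineSpan_convexHull, hK]
    exact hcv.interior_nonempty_iff_affineSpan_eq_top.1 hint
  obtain ⟨e, he⟩ := affine_Simp hfin hi hsp
  exact ⟨e, hK.symm.trans he⟩

end Pool.Agent.MP_5f4cdd_gt.EQ

end

section

set_option autoImplicit false
open MeasureTheory Matrix Set Filter Topology
open scoped ENNReal

namespace Pool.Agent.MP_5f4cdd_gt.EQ

open TopologicalSpace in
lemma mem_Cpt {n : ℕ} {K : ℕ → NonemptyCompacts (Fin n → ℝ)} {L : NonemptyCompacts (Fin n → ℝ)}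
    (h : Tendsto K atTop (𝓝 L)) {y : ℕ → Fin n → ℝ} {x : Fin n → ℝ}
    (hy : ∀ i, y i ∈ (K i : Set (Fin n → ℝ)))
    (hx : Tendsto y atTop (𝓝 x)) : x ∈ (L : Set (Fin n → ℝ)) := by
  have h1 := (Metric.uniformContinuous_infDist_Hausdorff_dist.continuous.tendsto (x, L)).comp
    (hx.prodMk_nhds h)
  have h2 : ((fun p : (Fin n → ℝ) × NonemptyCompacts (Fin n → ℝ) => Metric.infDist p.1 p.2) ∘
      fun i => (y i, K i)) = fun _ => 0 := funext fun i => Metric.infDist_zero_of_mem (hy i)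
  rw [h2] at h1
  exact (L.isCompact.isClosed.mem_iff_infDist_zero L.nonempty).2
    (tendsto_nhds_unique h1 tendsto_const_nhds)

open TopologicalSpace in
lemma seq_Cpt {n : ℕ} {K : ℕ → NonemptyCompacts (Fin n → ℝ)} {L : NonemptyCompacts (Fin n → ℝ)}
    (h : Tendsto K atTop (𝓝 L)) {x : Fin n → ℝ} (hx : x ∈ (L : Set (Fin n → ℝ))) :
    ∃ y : ℕ → Fin n → ℝ, (∀ i, y i ∈ (K i : Set (Fin n → ℝ))) ∧ Tendsto y atTop (𝓝 x) := by
  choose y hy hd using fun i => (K i).isCompact.exists_infDist_eq_dist (K i).nonempty x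
  refine ⟨y, hy, ?_⟩
  have h1 := ((Metric.lipschitz_infDist_set x).continuous.tendsto L).comp h
  rw [Metric.infDist_zero_of_mem hx] at h1
  rw [tendsto_iff_dist_tendsto_zero]
  refine h1.congr fun i => ?_
  rw [dist_comm, ← hd i]
  rfl

lemma int_Cpt (n : ℕ) : (interior (stdS n)).Nonempty := by
  have h1 : IsOpen (⋂ i, {z : Fin n → ℝ | 0 < z i}) :=
    isOpen_iInter_of_finite fun i => isOpen_lt continuous_const (continuous_apply i)
  have h2 : IsOpen {z : Fin n → ℝ | ∑ i, z i < 1} :=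
    isOpen_lt (continuous_finsetSum _ fun i _ => continuous_apply i) continuous_const
  have h3 : (⋂ i, {z : Fin n → ℝ | 0 < z i}) ∩ {z : Fin n → ℝ | ∑ i, z i < 1} ⊆ stdS n :=
    fun z hz => ⟨fun i => le_of_lt (mem_iInter.1 hz.1 i), le_of_lt hz.2⟩
  refine ⟨fun _ => 1 / ((n : ℝ) + 1), interior_maximal h3 (h1.inter h2)
    ⟨mem_iInter.2 fun _ => ?_, ?_⟩⟩
  · show (0 : ℝ) < 1 / ((n : ℝ) + 1)
    positivity
  · show ∑ _i : Fin n, 1 / ((n : ℝ) + 1) < 1
    rw [Finset.sum_const, Finset.card_univ, Fintype.card_fin, nsmul_eq_mul, mul_one_div,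
      div_lt_one (by positivity)]
    linarith

theorem cpt_stmt (h : NrmStmt) : CptStmt := by
  intro n K hK
  choose f hf using fun i => h n (K i) (hK i).1 (hK i).2.1 (hK i).2.2
  have hne : (stdS n).Nonempty := (int_Cpt n).mono interior_subset
  let K' : ℕ → TopologicalSpace.NonemptyCompacts (Fin n → ℝ) := fun i =>
    ⟨⟨f i '' K i, (hK i).2.1.image (f i).toAffineMap.continuous_of_finiteDimensional⟩,
      hne.mono (hf i).1⟩
  have hb : IsCompact (Metric.closedBall (0 : Fin n → ℝ) 1) := isCompact_closedBall 0 1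
  obtain ⟨L, -, φ, hφ, ht⟩ :=
    (TopologicalSpace.NonemptyCompacts.isCompact_subsets_of_isCompact hb).tendsto_subseq
      (x := K') fun i => (hf i).2
  have hconv : Convex ℝ (L : Set (Fin n → ℝ)) := by
    intro x hx y hy a b ha hb hab
    obtain ⟨u, hu, hux⟩ := seq_Cpt ht hx
    obtain ⟨v, hv, hvy⟩ := seq_Cpt ht hy
    exact mem_Cpt ht
      (fun i => ((hK (φ i)).1.affine_image (f (φ i)).toAffineMap) (hu i) (hv i) ha hb hab)
      ((hux.const_smul a).add (hvy.const_smul b))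
  have hS : stdS n ⊆ (L : Set (Fin n → ℝ)) := fun x hx =>
    mem_Cpt ht (fun i => (hf (φ i)).1 hx) tendsto_const_nhds
  refine ⟨f, L, φ, ⟨hconv, L.isCompact, (int_Cpt n).mono (interior_mono hS)⟩, hφ, ?_⟩
  refine (tendsto_iff_dist_tendsto_zero.1 ht).congr fun i => ?_
  rw [dist_comm]
  rfl

end Pool.Agent.MP_5f4cdd_gt.EQ

end

section

set_option autoImplicit false
open MeasureTheory Matrix Set Filter Topology
open scoped ENNReal

namespace Pool.Agent.MP_5f4cdd_gt.EQ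

theorem gamma_Vol (n : ℕ) : ∫⁻ t in Ioi (0 : ℝ), ENNReal.ofReal (Real.exp (-t) * t ^ n)
    = ENNReal.ofReal n.factorial := by
  have hs : (0 : ℝ) < n + 1 := by positivity
  have h1 := Real.GammaIntegral_convergent hs
  have h2 := Real.Gamma_eq_integral hs
  rw [Real.Gamma_nat_eq_factorial] at h2
  simp only [add_sub_cancel_right, Real.rpow_natCast] at h1 h2
  rw [h2, ofReal_integral_eq_lintegral_ofReal h1]
  filter_upwards [ae_restrict_mem measurableSet_Ioi] with t ht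
  exact mul_nonneg (Real.exp_pos _).le (pow_nonneg (le_of_lt ht) n)

theorem vol_stmt : VolStmt := by
  intro n K hK
  have hKm : MeasurableSet K := hK.isClosed.measurableSet
  set D : Set (ℝ × (Fin n → ℝ)) := {p | 0 < p.1 ∧ p.1⁻¹ • p.2 ∈ K} with hD
  have hDm : MeasurableSet D :=
    (measurableSet_lt measurable_const measurable_fst).inter
      ((measurable_fst.inv.smul measurable_snd) hKm)
  set g : ℝ × (Fin n → ℝ) → ENNReal :=
    D.indicator fun p => ENNReal.ofReal (Real.exp (-p.1)) with hg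
  have hgm : Measurable g :=
    Measurable.indicator (by fun_prop) hDm
  have hmp := volume_preserving_piFinSuccAbove (fun _ : Fin (n + 1) => ℝ) 0
  set e := MeasurableEquiv.piFinSuccAbove (fun _ : Fin (n + 1) => ℝ) 0 with he
  have he1 : ∀ y : Fin (n + 1) → ℝ, e y = (y 0, fun i : Fin n => y i.succ) := fun y => by
    simp only [he, MeasurableEquiv.piFinSuccAbove_apply, Fin.insertNthEquiv_symm_apply]
    rfl
  have step1 : Phi (cV K) (Pi.single 0 1) ≤ ∫⁻ y : Fin (n + 1) → ℝ, g (e y) := by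
    have hnull : volume {y : Fin (n + 1) → ℝ | y 0 = 0} = 0 := by
      rw [volume_pi]
      exact Measure.pi_hyperplane (fun _ : Fin (n + 1) => (volume : Measure ℝ)) 0 0
    have hsub : cV K ≤ᵐ[volume] e ⁻¹' D := by
      have hae : ∀ᵐ y : Fin (n + 1) → ℝ, y 0 ≠ 0 := by
        rw [ae_iff]
        simpa using hnull
      filter_upwards [hae] with y hy0 hy
      obtain ⟨h0, k, hk, hyk⟩ := hy
      have hpos : 0 < y 0 := lt_of_le_of_ne h0 (Ne.symm hy0)
      show e y ∈ D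
      rw [he1]
      refine ⟨hpos, ?_⟩
      have : (y 0)⁻¹ • (fun i : Fin n => y i.succ) = k := by
        funext i
        simp only [Pi.smul_apply, smul_eq_mul, hyk i]
        field_simp
      show (y 0)⁻¹ • (fun i : Fin n => y i.succ) ∈ K
      rw [this]
      exact hk
    refine (lintegral_mono_set' hsub).trans (le_of_eq ?_)
    rw [← lintegral_indicator (e.measurable hDm)]
    refine lintegral_congr fun y => ?_
    rw [hg]
    by_cases hy : e y ∈ D
    · rw [indicator_of_mem hy, indicator_of_mem (show y ∈ e ⁻¹' D from hy), he1,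
        single_one_dotProduct]
    · rw [indicator_of_notMem hy, indicator_of_notMem (show y ∉ e ⁻¹' D from hy)]
  refine step1.trans (le_of_eq ?_)
  rw [hmp.lintegral_comp hgm, Measure.volume_eq_prod, lintegral_prod _ hgm.aemeasurable,
    ← ENNReal.ofReal_natCast, ← gamma_Vol, ← lintegral_mul_const _ (by fun_prop),
    ← lintegral_indicator measurableSet_Ioi]
  refine lintegral_congr fun t => ?_
  by_cases ht : 0 < t
  · rw [indicator_of_mem (show t ∈ Ioi (0 : ℝ) from ht)]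
    have e1 : (fun x : Fin n → ℝ => g (t, x)) =
        ((t⁻¹ • ·) ⁻¹' K).indicator fun _ => ENNReal.ofReal (Real.exp (-t)) := by
      funext x
      rw [hg]
      by_cases hx : t⁻¹ • x ∈ K
      · rw [indicator_of_mem (show (t, x) ∈ D from ⟨ht, hx⟩),
          indicator_of_mem (show x ∈ (t⁻¹ • ·) ⁻¹' K from hx)]
      · rw [indicator_of_notMem (show (t, x) ∉ D from fun h => hx h.2),
          indicator_of_notMem (show x ∉ (t⁻¹ • ·) ⁻¹' K from hx)]
    rw [e1, lintegral_indicator_const ((measurable_const_smul _) hKm),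
      Measure.addHaar_preimage_smul _ (inv_ne_zero ht.ne'), ← mul_assoc,
      ← ENNReal.ofReal_mul (Real.exp_pos _).le]
    simp [abs_of_pos (pow_pos ht n)]
  · rw [indicator_of_notMem (show t ∉ Ioi (0 : ℝ) from ht)]
    have e1 : (fun x : Fin n → ℝ => g (t, x)) = fun _ => 0 := by
      funext x
      rw [hg, indicator_of_notMem (show (t, x) ∉ D from fun h => ht h.1)]
    rw [e1, lintegral_zero]

end Pool.Agent.MP_5f4cdd_gt.EQ

end

section

set_option autoImplicit false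
open MeasureTheory Matrix Set Filter Topology
open scoped ENNReal

namespace Pool.Agent.MP_5f4cdd_gt.EQ

variable {N : ℕ}

/-- first half of a vector -/
def fstP (x : Fin (N + N) → ℝ) : Fin N → ℝ := fun i => x (Fin.castAdd N i)

/-- second half of a vector -/
def sndP (x : Fin (N + N) → ℝ) : Fin N → ℝ := fun i => x (Fin.natAdd N i)

/-- the square of a set -/
def sqP (V : Set (Fin N → ℝ)) : Set (Fin (N + N) → ℝ) := {x | fstP x ∈ V ∧ sndP x ∈ V}

theorem dot_P2 (x y : Fin (N + N) → ℝ) : x ⬝ᵥ y = fstP x ⬝ᵥ fstP y + sndP x ⬝ᵥ sndP y := by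
  simp [dotProduct, Fin.sum_univ_add, fstP, sndP]

theorem fst_app_P2 (a b : Fin N → ℝ) : fstP (Fin.append a b) = a := by
  funext i; simp [fstP]

theorem snd_app_P2 (a b : Fin N → ℝ) : sndP (Fin.append a b) = b := by
  funext i; exact Fin.append_right a b i

theorem norm_P2 (x : Fin (N + N) → ℝ) : ‖x‖ ≤ ‖fstP x‖ + ‖sndP x‖ := by
  refine (pi_norm_le_iff_of_nonneg (by positivity)).2 fun i => ?_
  refine Fin.addCases (fun j => ?_) (fun j => ?_) i
  · have := norm_le_pi_norm (fstP x) j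
    have h2 := norm_nonneg (sndP x)
    exact le_trans this (by linarith)
  · have := norm_le_pi_norm (sndP x) j
    have h2 := norm_nonneg (fstP x)
    exact le_trans this (by linarith)

theorem mp_P2 : MeasurePreserving (fun x : Fin (N + N) → ℝ => (fstP x, sndP x)) volume volume := by
  have h1 := (volume_measurePreserving_piCongrLeft (fun _ : Fin (N + N) => ℝ)
    (finSumFinEquiv (m := N) (n := N))).symm
  have h2 := volume_measurePreserving_sumPiEquivProdPi (fun _ : Fin N ⊕ Fin N => ℝ)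
  have h3 := h2.comp h1
  convert h3 using 1
  funext x
  ext i <;> simp [fstP, sndP, MeasurableEquiv.sumPiEquivProdPi, MeasurableEquiv.piCongrLeft,
    Equiv.sumPiEquivProdPi]

theorem dual_P2 {V W : Set (Fin N → ℝ)} (h0 : (0 : Fin N → ℝ) ∈ V)
    (h : ∀ w, w ∈ W ↔ ∀ v ∈ V, 0 ≤ v ⬝ᵥ w) (w : Fin (N + N) → ℝ) :
    w ∈ sqP W ↔ ∀ v ∈ sqP V, 0 ≤ v ⬝ᵥ w := by
  constructor
  · rintro ⟨h1, h2⟩ v ⟨hv1, hv2⟩
    rw [dot_P2]
    exact add_nonneg ((h _).1 h1 _ hv1) ((h _).1 h2 _ hv2)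
  · intro hw
    refine ⟨(h _).2 fun v hv => ?_, (h _).2 fun v hv => ?_⟩
    · have := hw (Fin.append v 0) ⟨by rwa [fst_app_P2], by rwa [snd_app_P2]⟩
      rwa [dot_P2, fst_app_P2, snd_app_P2, zero_dotProduct, add_zero] at this
    · have := hw (Fin.append 0 v) ⟨by rwa [fst_app_P2], by rwa [snd_app_P2]⟩
      rwa [dot_P2, fst_app_P2, snd_app_P2, zero_dotProduct, zero_add] at this

theorem pos_P2 {V : Set (Fin N → ℝ)} {a : Fin N → ℝ}
    (h : ∃ c : ℝ, 0 < c ∧ ∀ v ∈ V, c * ‖v‖ ≤ a ⬝ᵥ v) :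
    ∃ c : ℝ, 0 < c ∧ ∀ v ∈ sqP V, c * ‖v‖ ≤ Fin.append a a ⬝ᵥ v := by
  obtain ⟨c, hc, h⟩ := h
  refine ⟨c, hc, fun v ⟨h1, h2⟩ => ?_⟩
  rw [dot_P2, fst_app_P2, snd_app_P2]
  have := mul_le_mul_of_nonneg_left (norm_P2 v) hc.le
  have := h _ h1
  have := h _ h2
  linarith

theorem phi_P2 {V : Set (Fin N → ℝ)} (hV : MeasurableSet V) (a : Fin N → ℝ) :
    Phi (sqP V) (Fin.append a a) = Phi V a ^ 2 := by
  have hm : Measurable fun x : Fin N → ℝ => ENNReal.ofReal (Real.exp (-(a ⬝ᵥ x))) := by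
    have : Continuous fun x : Fin N → ℝ => Real.exp (-(a ⬝ᵥ x)) := by
      unfold dotProduct; fun_prop
    exact this.measurable.ennreal_ofReal
  have hm2 : Measurable fun z : (Fin N → ℝ) × (Fin N → ℝ) =>
      ENNReal.ofReal (Real.exp (-(a ⬝ᵥ z.1))) * ENNReal.ofReal (Real.exp (-(a ⬝ᵥ z.2))) :=
    (hm.comp measurable_fst).mul (hm.comp measurable_snd)
  have h1 := (mp_P2 (N := N)).setLIntegral_comp_preimage (hV.prod hV) hm2
  have h2 : (fun x : Fin (N + N) → ℝ => (fstP x, sndP x)) ⁻¹' (V ×ˢ V) = sqP V := rfl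
  rw [h2] at h1
  unfold Phi
  rw [sq, ← lintegral_prod_mul hm.aemeasurable hm.aemeasurable, Measure.prod_restrict]
  refine Eq.trans ?_ h1
  refine lintegral_congr fun x => ?_
  rw [dot_P2, fst_app_P2, snd_app_P2, neg_add, Real.exp_add,
    ENNReal.ofReal_mul (Real.exp_pos _).le]

theorem iv_P2 {V : Set (Fin N → ℝ)} (hV : MeasurableSet V) (b : Fin N → ℝ) :
    Iv (sqP V) (Fin.append b b) = Iv V b ^ 2 := by
  have hm : MeasurableSet {x | x ∈ V ∧ b - x ∈ V} :=
    hV.inter ((measurable_const.sub measurable_id) hV)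
  have h1 := (mp_P2 (N := N)).measure_preimage (hm.prod hm).nullMeasurableSet
  unfold Iv
  rw [sq, ← Measure.prod_prod]
  refine Eq.trans ?_ h1
  congr 1
  ext x
  have e1 : fstP (Fin.append b b - x) = b - fstP x := by funext i; simp [fstP]
  have e2 : sndP (Fin.append b b - x) = b - sndP x := by
    funext i; simp only [sndP, Pi.sub_apply, Fin.append_right]
  simp only [sqP, mem_ofPred_eq, e1, e2, mem_preimage, mem_prod]
  tauto

theorem closed_P2 {V W : Set (Fin N → ℝ)} (h : ∀ w, w ∈ W ↔ ∀ v ∈ V, 0 ≤ v ⬝ᵥ w) :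
    MeasurableSet W := by
  have : W = ⋂ v ∈ V, {w | 0 ≤ v ⬝ᵥ w} := by
    ext w; simp [h w]
  rw [this]
  refine (isClosed_biInter fun v _ => isClosed_le continuous_const ?_).measurableSet
  unfold dotProduct; fun_prop

theorem prod_stmt2 : ProdStmt := by
  intro N V W a b h
  have hV0 : (0 : Fin N → ℝ) ∈ V := (h.dualV _).2 fun w _ => by simp
  have hW0 : (0 : Fin N → ℝ) ∈ W := (h.dualW _).2 fun w _ => by simp
  have hW := closed_P2 h.dualW
  have hV := closed_P2 h.symm.dualW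
  refine ⟨sqP V, sqP W, Fin.append a a, Fin.append b b,
    ⟨dual_P2 hV0 h.dualW, fun v => ?_, pos_P2 h.posa, pos_P2 h.posb, ?_⟩,
    phi_P2 hV a, phi_P2 hW b, iv_P2 hV b, iv_P2 hW a⟩
  · simpa only [dotProduct_comm] using dual_P2 hW0 h.symm.dualW v
  · rw [dot_P2, fst_app_P2, snd_app_P2, fst_app_P2, snd_app_P2, h.dot]; push_cast; ring

end Pool.Agent.MP_5f4cdd_gt.EQ

end

section

set_option autoImplicit false
open MeasureTheory Matrix Set Filter Topology
open scoped ENNReal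

namespace Pool.Agent.MP_5f4cdd_gt.EQ

variable {N : ℕ} {V W : Set (Fin N → ℝ)} {a b : Fin N → ℝ}

theorem iter_Tensor (hP : ProdStmt) (h : Pair V W a b) (k : ℕ) :
    ∃ (M : ℕ) (V' W' : Set (Fin M → ℝ)) (a' b' : Fin M → ℝ), M = 2 ^ k * N ∧ Pair V' W' a' b' ∧
      Phi V' a' = Phi V a ^ 2 ^ k ∧ Phi W' b' = Phi W b ^ 2 ^ k ∧
      Iv V' b' = Iv V b ^ 2 ^ k ∧ Iv W' a' = Iv W a ^ 2 ^ k := by
  induction k with
  | zero => exact ⟨N, V, W, a, b, by simp, h, by simp, by simp, by simp, by simp⟩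
  | succ k ih =>
    obtain ⟨M, V', W', a', b', hM, h', h1, h2, h3, h4⟩ := ih
    obtain ⟨V'', W'', a'', b'', h'', g1, g2, g3, g4⟩ := hP M V' W' a' b' h'
    refine ⟨M + M, V'', W'', a'', b'', by rw [hM]; ring, h'', ?_, ?_, ?_, ?_⟩
    · rw [g1, h1, ← pow_mul, pow_succ]
    · rw [g2, h2, ← pow_mul, pow_succ]
    · rw [g3, h3, ← pow_mul, pow_succ]
    · rw [g4, h4, ← pow_mul, pow_succ]

theorem lim_Tensor {x C D : ℝ} (h : ∀ k : ℕ, 2 ^ k * x ≤ C + D * k) : x ≤ 0 := by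
  have h1 := tendsto_pow_const_div_const_pow_of_one_lt 0 (r := 2) one_lt_two
  have h2 := tendsto_pow_const_div_const_pow_of_one_lt 1 (r := 2) one_lt_two
  have h3 := (h1.const_mul C).add (h2.const_mul D)
  simp only [mul_zero, add_zero] at h3
  refine ge_of_tendsto' h3 fun k => ?_
  have h4 : (0 : ℝ) < 2 ^ k := by positivity
  have e : C * ((k : ℝ) ^ 0 / 2 ^ k) + D * ((k : ℝ) ^ 1 / 2 ^ k) = (C + D * k) / 2 ^ k := by
    field_simp
  rw [e, le_div_iff₀ h4]
  linarith [h k]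

/-- the exact inequality behind the sharp bound and its equality case -/
theorem exact_Tensor (hP : ProdStmt) (hK : KeyStmt) (hN : 1 ≤ N) (h : Pair V W a b) {δ Y : ℝ}
    (h0 : 0 < δ) (h1 : δ < 1) (hY1 : 1 ≤ Y)
    (hY : Y = 1 ∨ Y ≤ (1 - δ) ^ N * (Phi W b).toReal * (Iv V b).toReal) :
    δ * Real.log Y ≤ 2 * (Real.log (Phi V a).toReal + Real.log (Phi W b).toReal) := by
  have hN1 : (1 : ℝ) ≤ N := by exact_mod_cast hN
  have hlY : 0 ≤ Real.log Y := Real.log_nonneg hY1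
  rw [← sub_nonpos]
  refine lim_Tensor (C := Real.log Y + 22 + 14 * Real.log (N + 1)) (D := 14 * Real.log 2)
    fun k => ?_
  obtain ⟨M, V', W', a', b', hM, h', g1, g2, g3, g4⟩ := iter_Tensor hP h k
  have hk : 1 ≤ 2 ^ k := Nat.one_le_two_pow
  have hM1 : 1 ≤ M := by rw [hM]; exact Nat.mul_pos hk hN
  have hMr : (M : ℝ) = 2 ^ k * N := by rw [hM]; push_cast; ring
  have hkr : (1 : ℝ) ≤ 2 ^ k := by exact_mod_cast hk
  have k1 := hK M V' W' a' b' hM1 h' δ (Y ^ 2 ^ k) h0 h1 (one_le_pow₀ hY1) (by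
    rcases hY with hY | hY
    · left
      rw [hY, one_pow]
    · right
      rw [g2, g3, ENNReal.toReal_pow, ENNReal.toReal_pow, hM, mul_comm (2 ^ k) N, pow_mul,
        ← mul_pow, ← mul_pow]
      exact pow_le_pow_left₀ (by linarith) hY _)
  have k2 := hK M W' V' b' a' hM1 h'.symm δ 1 h0 h1 le_rfl (Or.inl rfl)
  rw [g2, g3, g4] at k1
  rw [g1, g3, g4] at k2
  simp only [ENNReal.toReal_pow, Real.log_pow, Real.log_one, mul_zero, add_zero] at k1 k2
  push_cast at k1 k2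
  have e1 : Real.log (M + 1) ≤ k * Real.log 2 + Real.log (N + 1) := by
    rw [← Real.log_pow, ← Real.log_mul (by positivity) (by positivity)]
    refine Real.log_le_log (by positivity) ?_
    rw [hMr]
    linarith
  have e2 : (1 / M : ℝ) * (2 ^ k * Real.log Y) ≤ Real.log Y := by
    have e3 : (1 / M : ℝ) * 2 ^ k ≤ 1 := by
      rw [hMr, div_mul_eq_mul_div, one_mul, div_le_one (by positivity)]
      nlinarith
    nlinarith
  nlinarith

theorem zero_Tensor {V W : Set (Fin 0 → ℝ)} {a b : Fin 0 → ℝ} (h : Pair V W a b) :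
    Phi W b = 1 ∧ Iv W a = 1 := by
  have hW : W = univ := eq_univ_of_forall fun x => Subsingleton.elim 0 x ▸ h.zero_mem
  have hv : volume (univ : Set (Fin 0 → ℝ)) = 1 := by
    rw [volume_pi, Measure.pi_univ]
    simp
  constructor
  · simp [Phi, hW, hv]
  · simp [Iv, hW, hv]

theorem cmain_stmt (hL : LCStmt) (hP : ProdStmt) (hK : KeyStmt) : CMainStmt := by
  intro N V W a b h
  rcases Nat.eq_zero_or_pos N with rfl | hN
  · rw [(zero_Tensor h).1, (zero_Tensor h.symm).1, one_mul]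
  have h1 := exact_Tensor hP hK hN h (δ := 1 / 2) (Y := 1) (by norm_num) (by norm_num) le_rfl
    (Or.inl rfl)
  have p1 : 0 < (Phi V a).toReal := ENNReal.toReal_pos h.symm.Phi_ne_zero (h.symm.Phi_ne_top hL)
  have p2 : 0 < (Phi W b).toReal := ENNReal.toReal_pos h.Phi_ne_zero (h.Phi_ne_top hL)
  rw [Real.log_one, mul_zero, ← Real.log_mul p1.ne' p2.ne'] at h1
  have h2 := (Real.log_nonneg_iff (mul_pos p1 p2)).1 (by linarith)
  rw [← ENNReal.toReal_mul, ← ENNReal.toReal_one] at h2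
  exact (ENNReal.toReal_le_toReal ENNReal.one_ne_top
    (ENNReal.mul_ne_top (h.symm.Phi_ne_top hL) (h.Phi_ne_top hL))).1 h2

theorem ceq_stmt (hL : LCStmt) (hP : ProdStmt) (hK : KeyStmt) : CEqStmt := by
  intro N V W a b h hle
  rcases Nat.eq_zero_or_pos N with rfl | hN
  · rw [(zero_Tensor h).1, (zero_Tensor h.symm).2, one_mul]
  have p1 : 0 < (Phi V a).toReal := ENNReal.toReal_pos h.symm.Phi_ne_zero (h.symm.Phi_ne_top hL)
  have p2 : 0 < (Phi W b).toReal := ENNReal.toReal_pos h.Phi_ne_zero (h.Phi_ne_top hL)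
  have h1 : Real.log (Phi V a).toReal + Real.log (Phi W b).toReal ≤ 0 := by
    rw [← Real.log_mul p1.ne' p2.ne', ← ENNReal.toReal_mul]
    exact Real.log_nonpos ENNReal.toReal_nonneg
      (by simpa using ENNReal.toReal_mono ENNReal.one_ne_top hle)
  rw [← ENNReal.toReal_le_toReal (ENNReal.mul_ne_top h.symm.Iv_ne_top (h.Phi_ne_top hL))
    ENNReal.one_ne_top, ENNReal.toReal_mul, ENNReal.toReal_one]
  by_contra hc
  have h2 : Tendsto (fun δ : ℝ => (1 - δ) ^ N * (Phi W b).toReal * (Iv V b).toReal) (𝓝[>] 0)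
      (𝓝 ((1 - 0) ^ N * (Phi W b).toReal * (Iv V b).toReal)) :=
    (Continuous.tendsto (by fun_prop) 0).mono_left nhdsWithin_le_nhds
  have h3 : (1 : ℝ) < (1 - 0) ^ N * (Phi W b).toReal * (Iv V b).toReal := by
    rw [sub_zero, one_pow, one_mul, mul_comm]
    exact not_le.1 hc
  obtain ⟨δ, ⟨h4, h5⟩⟩ := ((h2.eventually_const_lt h3).and
    (Ioo_mem_nhdsGT (zero_lt_one (α := ℝ)))).exists
  have h6 := exact_Tensor hP hK hN h h5.1 h5.2 h4.le (Or.inr le_rfl)
  have h7 := mul_pos h5.1 (Real.log_pos h4)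
  linarith

end Pool.Agent.MP_5f4cdd_gt.EQ

end
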