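import Mathlib

set_option linter.all false

section

set_option autoImplicit false
open Finset MeasureTheory
open scoped Pointwise ENNReal

namespace Pool.Agent.MP_5f4cdd_gt.OK

abbrev Zn (N : ℕ) : Type := Fin N → ℤ
abbrev Rn (N : ℕ) : Type := Fin N → ℝ

variable {N : ℕ}

/-! ### Part 1: the combinatorial shadow of a generic flag valuation -/

/-- `x • A` is the `x`-fold sumset (`add_nsmul`, `succ_nsmul`, `zero_nsmul`). -/
structure Flag (A B : Finset (Zn N)) where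
  d : ℕ
  x0 : ℕ
  P0 : Finset (Zn N)
  G : Finset (Zn N) → Finset (Zn N)
  d_pos : 0 < d
  mono : ∀ P Q : Finset (Zn N), P ⊆ Q → G P ⊆ G Q
  add : ∀ P Q : Finset (Zn N), G P + G Q ⊆ G (P + Q)
  lo : ∀ P : Finset (Zn N), P.card ≤ d * (G P).card
  hi : ∀ P : Finset (Zn N), d * (G P).card ≤ (P + P0).card
  zero : ∀ P : Finset (Zn N), P.Nonempty → (0 : Zn N) ∈ G P
  unit : ∀ j : Fin N, (Pi.single j 1 : Zn N) ∈ G A
  nonneg : ∀ P : Finset (Zn N), ∀ g ∈ G P, ∀ l, 0 ≤ g l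
  div : ∀ x y : ℕ, x0 ≤ x → ∀ j : Fin N, ∀ g ∈ G ((x + 1) • A + y • B),
    (∀ l, l < j → g l = 0) → g j ≠ 0 → g - Pi.single j 1 ∈ G (x • A + y • B)

def AlgStmt : Prop :=
  ∀ (N : ℕ) (A B : Finset (Zn N)), (0 : Zn N) ∈ A → (∀ j, (Pi.single j 1 : Zn N) ∈ A) →
    Nonempty (Flag A B)

/-- Laurent polynomials -/
abbrev Lau (F : Type) [CommRing F] (N : ℕ) : Type := AddMonoidAlgebra F (Zn N)

/-- Laurent polynomials with exponents in `P` -/
noncomputable def VV (F : Type) [Field F] (P : Finset (Zn N)) : Submodule F (Lau F N) :=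
  Submodule.span F ((fun z : Zn N => (AddMonoidAlgebra.single z 1 : Lau F N)) '' (P : Set (Zn N)))

/-- no monomial of `φ` avoids the first `j` variables -/
def Van {R : Type} [CommRing R] (j : ℕ) (φ : MvPowerSeries (Fin N) R) : Prop :=
  ∀ γ : Fin N →₀ ℕ, (∀ l : Fin N, (l : ℕ) < j → γ l = 0) → MvPowerSeries.coeff γ φ = 0

/-- expansion of Laurent polynomials in local coordinates `s` -/
structure Val (A : Finset (Zn N)) (F R : Type) [Field F] [Field R] [Algebra F R] where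
  Ψ : Lau F N →+* MvPowerSeries (Fin N) R
  s : Fin N → Lau F N
  inj : Function.Injective Ψ
  alg : ∀ c : F, MvPowerSeries.constantCoeff (Ψ (algebraMap F (Lau F N) c)) = algebraMap F R c
  psi_s : ∀ j, Ψ (s j) = MvPowerSeries.X j
  s_mem : ∀ j, s j ∈ VV F A
  lead : ∀ (f : Lau F N) (γ : Fin N →₀ ℕ),
    ((toLex γ : Lex (Fin N →₀ ℕ)) : WithTop (Lex (Fin N →₀ ℕ))) ≤ MvPowerSeries.lexOrder (Ψ f) →
    ∃ g : Lau F N, MvPowerSeries.coeff γ (Ψ f) = MvPowerSeries.constantCoeff (Ψ g)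
  sat : ∀ (j : ℕ), ∀ a ∈ A, ∀ (P : Finset (Zn N)), ∀ f ∈ VV F P, Van j (Ψ f) →
    ∃ (k : ℕ) (g : Fin N → Lau F N), (∀ l, g l ∈ VV F (k • A + P)) ∧
      (∀ l : Fin N, j ≤ (l : ℕ) → g l = 0) ∧
      AddMonoidAlgebra.single ((k + 1) • a) 1 * f = ∑ l, s l * g l

def GenStmt : Prop :=
  ∀ (N : ℕ) (A : Finset (Zn N)), (0 : Zn N) ∈ A → (∀ j, (Pi.single j 1 : Zn N) ∈ A) →
    ∃ (F R : Type) (_ : Field F) (_ : Field R) (_ : Algebra F R), Nonempty (Val A F R)

/-- elementary facts on `VV` -/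
structure VStmt : Prop where
  fin : ∀ (N : ℕ) (F : Type) [Field F] (P : Finset (Zn N)), Module.Finite F (VV F P)
  rank : ∀ (N : ℕ) (F : Type) [Field F] (P : Finset (Zn N)), Module.finrank F (VV F P) = P.card
  mono : ∀ (N : ℕ) (F : Type) [Field F] (P Q : Finset (Zn N)), P ⊆ Q → VV F P ≤ VV F Q
  mul : ∀ (N : ℕ) (F : Type) [Field F] (P Q : Finset (Zn N)), ∀ f ∈ VV F P, ∀ g ∈ VV F Q,
    f * g ∈ VV F (P + Q)
  single : ∀ (N : ℕ) (F : Type) [Field F] (P : Finset (Zn N)), ∀ z ∈ P, ∀ c : F,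
    (AddMonoidAlgebra.single z c : Lau F N) ∈ VV F P
  mem : ∀ (N : ℕ) (F : Type) [Field F] (P : Finset (Zn N)) (f : Lau F N),
    f ∈ VV F P ↔ f.coeff.support ⊆ P
  prod : ∀ (N : ℕ) (F : Type) [Field F] (A : Finset (Zn N)), (0 : Zn N) ∈ A →
    ∀ s : Fin N → Lau F N, (∀ j, s j ∈ VV F A) → ∀ (γ : Fin N → ℕ) (t : ℕ), ∑ l, γ l ≤ t →
    ∏ l, s l ^ γ l ∈ VV F (t • A)

/-- products of elements of distinct order with elements of independent constant term -/
def IndStmt : Prop :=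
  ∀ (N : ℕ) (A : Finset (Zn N)) (F R : Type) [Field F] [Field R] [Algebra F R] (v : Val A F R)
    (ι κ : Type) [Fintype ι] [Fintype κ] (γ : ι → Fin N →₀ ℕ) (f : ι → Lau F N) (h : κ → Lau F N),
    Function.Injective γ →
    (∀ i, MvPowerSeries.lexOrder (v.Ψ (f i)) = ((toLex (γ i) : Lex (Fin N →₀ ℕ)) : WithTop _)) →
    LinearIndependent F (fun k => MvPowerSeries.constantCoeff (v.Ψ (h k))) →
    LinearIndependent F (fun p : ι × κ => f p.1 * h p.2)

/-- the constant terms form a space of finite dimension -/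
def FinStmt : Prop :=
  ∀ (N : ℕ) (A : Finset (Zn N)) (F R : Type) [Field F] [Field R] [Algebra F R] (v : Val A F R),
    (0 : Zn N) ∈ A → ∃ (d : ℕ) (h : Fin d → Lau F N), 0 < d ∧
      LinearIndependent F (fun k => MvPowerSeries.constantCoeff (v.Ψ (h k))) ∧
      ∀ g : Lau F N, MvPowerSeries.constantCoeff (v.Ψ g) ∈
        Submodule.span F (Set.range fun k => MvPowerSeries.constantCoeff (v.Ψ (h k)))

/-- every leaf has dimension at most `d` -/
def LeafStmt : Prop :=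
  ∀ (N : ℕ) (A : Finset (Zn N)) (F R : Type) [Field F] [Field R] [Algebra F R] (v : Val A F R)
    (d : ℕ) (w : Fin d → R),
    (∀ g : Lau F N, MvPowerSeries.constantCoeff (v.Ψ g) ∈ Submodule.span F (Set.range w)) →
    ∀ (T : Finset (Fin N →₀ ℕ)) (U : Submodule F (Lau F N)), Module.Finite F U →
      (∀ f ∈ U, f ≠ 0 → ∃ γ ∈ T,
        MvPowerSeries.lexOrder (v.Ψ f) = ((toLex γ : Lex (Fin N →₀ ℕ)) : WithTop _)) →
      Module.finrank F U ≤ d * T.card

/-- division with control of the exponents, uniform in the degree -/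
def DivStmt : Prop :=
  ∀ (N : ℕ) (A B : Finset (Zn N)) (F R : Type) [Field F] [Field R] [Algebra F R] (v : Val A F R),
    ∃ x0 : ℕ, ∀ (j x y : ℕ), x0 ≤ x → ∀ f ∈ VV F ((x + 1) • A + y • B), Van j (v.Ψ f) →
      ∃ g : Fin N → Lau F N, (∀ l, g l ∈ VV F (x • A + y • B)) ∧
        (∀ l : Fin N, j ≤ (l : ℕ) → g l = 0) ∧ f = ∑ l, v.s l * g l

/-- a bigraded family of subspaces stable under the Rees algebra is finitely generated -/
def ReesStmt : Prop :=
  ∀ (N : ℕ) (A B : Finset (Zn N)) (F : Type) [Field F] (I : Ideal (Lau F N)),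
    ∃ (r : ℕ) (xs ys : Fin r → ℕ) (g : Fin r → Lau F N),
      (∀ i, g i ∈ I ∧ g i ∈ VV F (xs i • A + ys i • B)) ∧
      ∀ (x y : ℕ), ∀ f ∈ VV F (x • A + y • B), f ∈ I →
        ∃ h : Fin r → Lau F N, f = ∑ i, h i * g i ∧ ∀ i, h i = 0 ∨
          (xs i ≤ x ∧ ys i ≤ y ∧ h i ∈ VV F ((x - xs i) • A + (y - ys i) • B))

/-! ### the generic flag -/

abbrev Cz (N : ℕ) : Type := MvPolynomial (Fin N ⊕ (Fin N × Zn N)) ℚ
abbrev Fz (N : ℕ) : Type := FractionRing (Cz N)
abbrev Dz (N : ℕ) : Type := MvPolynomial (Fin N × Zn N) (Lau ℚ N)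
abbrev Rz (N : ℕ) : Type := FractionRing (Dz N)
abbrev Ez (N : ℕ) : Type := MvPolynomial (Fin N) (Dz N)

noncomputable def chD (z : Zn N) : Dz N := MvPolynomial.C (AddMonoidAlgebra.single z 1)

noncomputable def uz (A : Finset (Zn N)) (l : Fin N) : Dz N :=
  chD (Pi.single l 1) - ∑ a ∈ A, chD a * MvPolynomial.X (l, a)

noncomputable def phi (A : Finset (Zn N)) : Cz N →ₐ[ℚ] Dz N :=
  MvPolynomial.aeval (Sum.elim (uz A) MvPolynomial.X)

def PhiStmt : Prop := ∀ (N : ℕ) (A : Finset (Zn N)), Function.Injective (phi A)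

noncomputable def jC : Cz N →ₐ[ℚ] Ez N :=
  MvPolynomial.aeval (Sum.elim MvPolynomial.X fun t => MvPolynomial.C (MvPolynomial.X t))

noncomputable def sh (A : Finset (Zn N)) : Ez N →ₐ[Dz N] Ez N :=
  MvPolynomial.aeval fun l => MvPolynomial.X l + MvPolynomial.C (uz A l)

noncomputable def unsh (A : Finset (Zn N)) : Ez N →ₐ[Dz N] Ez N :=
  MvPolynomial.aeval fun l => MvPolynomial.X l - MvPolynomial.C (uz A l)

noncomputable def toPS : Ez N →+* MvPowerSeries (Fin N) (Rz N) :=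
  (MvPolynomial.coeToMvPowerSeries.ringHom).comp (MvPolynomial.map (algebraMap (Dz N) (Rz N)))

/-- the constants inside the Laurent ring over the field of fractions -/
noncomputable def cL : Cz N →+* Lau (Fz N) N :=
  (algebraMap (Fz N) (Lau (Fz N) N)).comp (algebraMap (Cz N) (Fz N))

/-- evaluation of `Ez`: monomials go to monomials, the variables go to `c` -/
noncomputable def evE (c : Fin N ⊕ (Fin N × Zn N) → Lau (Fz N) N) : Ez N →+* Lau (Fz N) N :=
  MvPolynomial.eval₂Hom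
    (MvPolynomial.eval₂Hom (AddMonoidAlgebra.mapRingHom (Zn N) (algebraMap ℚ (Fz N)))
      fun t => c (Sum.inr t))
    fun l => c (Sum.inl l)

noncomputable def io : Ez N →+* Lau (Fz N) N := evE fun t => cL (MvPolynomial.X t)

noncomputable def sz (A : Finset (Zn N)) (l : Fin N) : Lau (Fz N) N :=
  io (MvPolynomial.X l - MvPolynomial.C (uz A l))

/-- clearing denominators and the shape of `io` -/
structure IoStmt : Prop where
  jc : ∀ (N : ℕ) (δ : Cz N), io (jC δ) = cL δ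
  ch : ∀ (N : ℕ) (z : Zn N), io (MvPolynomial.C (chD z)) = AddMonoidAlgebra.single z 1
  sz_eq : ∀ (N : ℕ) (A : Finset (Zn N)) (l : Fin N), sz A l =
    cL (MvPolynomial.X (Sum.inl l)) - AddMonoidAlgebra.single (Pi.single l 1) 1 +
      ∑ a ∈ A, AddMonoidAlgebra.single a 1 * cL (MvPolynomial.X (Sum.inr (l, a)))
  clear : ∀ (N : ℕ) (f : Lau (Fz N) N), ∃ (δ : Cz N) (c : Zn N → Cz N), δ ≠ 0 ∧
    cL δ * f = io (∑ z ∈ f.coeff.support, jC (c z) * MvPolynomial.C (chD z))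
  unsh_sh : ∀ (N : ℕ) (A : Finset (Zn N)) (p : Ez N), unsh A (sh A p) = p
  toPS_inj : ∀ N : ℕ, Function.Injective (toPS (N := N))
  const : ∀ (N : ℕ) (A : Finset (Zn N)) (δ : Cz N),
    MvPowerSeries.constantCoeff (toPS (sh A (jC δ))) = algebraMap (Dz N) (Rz N) (phi A δ)

/-- the expansion map -/
def PsiStmt : Prop :=
  ∀ (N : ℕ) (A : Finset (Zn N)), ∃ Ψ : Lau (Fz N) N →+* MvPowerSeries (Fin N) (Rz N),
    ∀ p : Ez N, Ψ (io p) = toPS (sh A p)

/-- saturation -/
def SatStmt : Prop :=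
  ∀ (N : ℕ) (A : Finset (Zn N)) (Ψ : Lau (Fz N) N →+* MvPowerSeries (Fin N) (Rz N)),
    (0 : Zn N) ∈ A → (∀ j, (Pi.single j 1 : Zn N) ∈ A) →
    (∀ p : Ez N, Ψ (io p) = toPS (sh A p)) →
    ∀ (j : ℕ), ∀ a ∈ A, ∀ (P : Finset (Zn N)), ∀ f ∈ VV (Fz N) P, Van j (Ψ f) →
      ∃ (k : ℕ) (g : Fin N → Lau (Fz N) N), (∀ l, g l ∈ VV (Fz N) (k • A + P)) ∧
        (∀ l : Fin N, j ≤ (l : ℕ) → g l = 0) ∧
        AddMonoidAlgebra.single ((k + 1) • a) 1 * f = ∑ l, sz A l * g l

end Pool.Agent.MP_5f4cdd_gt.OK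

end

section

set_option autoImplicit false
open Finset MeasureTheory
open scoped Pointwise ENNReal

namespace Pool.Agent.MP_5f4cdd_gt.OK

variable {N : ℕ}

/-! ### Part 2: the discrete Knothe inequality -/

/-- number of points of `G` that agree with `g` in the first `j` coordinates -/
def fib (G : Finset (Zn N)) (j : ℕ) (g : Zn N) : ℕ :=
  (G.filter fun g' => ∀ l : Fin N, (l : ℕ) < j → g' l = g l).card

/-- conditional entropy of coordinate `j` given the earlier ones, uniform law on `G` -/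
noncomputable def ent (G : Finset (Zn N)) (j : ℕ) : ℝ :=
  (∑ g ∈ G, (Real.log (fib G j g) - Real.log (fib G (j + 1) g))) / G.card

structure EntStmt : Prop where
  sum : ∀ (N : ℕ) (G : Finset (Zn N)), G.Nonempty → ∑ j : Fin N, ent G j = Real.log G.card
  zero : ∀ (N : ℕ) (G : Finset (Zn N)) (j : Fin N), (∀ g ∈ G, g j = 0) → ent G j = 0

/-- disjoint intervals -/
def IntStmt : Prop :=
  ∀ (ι : Type) [Fintype ι] (D : ℕ) (x : ι → Fin D → ℤ) (E : Fin D → ℝ) (g : ℤ → ℝ) (S : Finset ℤ),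
    (∀ k, Monotone (x k)) → (∀ z, 0 ≤ g z) → (∀ u, 0 ≤ E u) →
    (∀ u, ∀ q : ℤ, 0 ≤ q → q ≤ Fintype.card ι →
      ∑ k, x k u + q ∈ S ∧ E u ≤ g (∑ k, x k u + q)) →
    ∑ u, E u * ∑ k, (((univ.filter fun u' => x k u' = x k u).card : ℝ))⁻¹ ≤ ∑ z ∈ S, g z

/-- the one dimensional step -/
def OneStmt : Prop :=
  ∀ (ι α : Type) [Fintype ι] (Ω : ι → Finset α) (p : α → ℤ) (ψ : ι → ℤ → ℝ) (θ : ι → ℝ)
    (c : ℝ) (g : ℤ → ℝ) (S : Finset ℤ),
    (∀ k, (Ω k).Nonempty) → (∀ k, 0 ≤ θ k) → ∑ k, θ k = 1 → (∀ z, 0 ≤ g z) →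
    (∀ ω : ι → α, (∀ k, ω k ∈ Ω k) → ∀ q : ℤ, 0 ≤ q → q ≤ Fintype.card ι →
      ∑ k, p (ω k) + q ∈ S ∧ Real.exp (c + ∑ k, ψ k (p (ω k))) ≤ g (∑ k, p (ω k) + q)) →
    c + ∑ k, ((∑ ω ∈ Ω k, (ψ k (p ω) + θ k * (Real.log (Ω k).card -
        Real.log ((Ω k).filter fun ω' => p ω' = p ω).card))) / (Ω k).card -
      θ k * Real.log (θ k)) ≤ Real.log (∑ z ∈ S, g z)

def DIStmt : Prop :=
  ∀ (N : ℕ) (ι : Type) [Fintype ι] (G : ι → Finset (Zn N)) (θ : Fin N → ι → ℝ)
    (S : Finset (Zn N)),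
    (∀ k, (G k).Nonempty) → (∀ j k, 0 ≤ θ j k) → (∀ j, ∑ k, θ j k = 1) →
    (∀ g : ι → Zn N, (∀ k, g k ∈ G k) → ∀ q : Zn N,
      (∀ l, 0 ≤ q l ∧ q l ≤ Fintype.card ι) → ∑ k, g k + q ∈ S) →
    ∑ j : Fin N, ∑ k, θ j k * (ent (G k) j - Real.log (θ j k)) ≤ Real.log S.card

/-! ### Part 3: consequences of a flag -/

/-- the slice of the image of `x0 A + y B` where the first `l` coordinates vanish -/
def slice {A B : Finset (Zn N)} (Φ : Flag A B) (y l : ℕ) : Finset (Zn N) :=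
  (Φ.G (Φ.x0 • A + y • B)).filter fun g => ∀ j : Fin N, (j : ℕ) < l → g j = 0

def UpStmt : Prop :=
  ∀ (N : ℕ) (A B : Finset (Zn N)) (Φ : Flag A B) (x y : ℕ),
    ((Φ.x0 + x) • A + y • B).card ≤
      Φ.d * ∑ l ∈ range (N + 1), (x + l).choose l * (slice Φ y l).card

structure SimStmt : Prop where
  mem : ∀ (N : ℕ) (A B : Finset (Zn N)) (Φ : Flag A B), (0 : Zn N) ∈ A →
    ∀ (t : ℕ) (q : Zn N), (∀ l, 0 ≤ q l) → ∑ l, q l ≤ t → q ∈ Φ.G (t • A)
  sum : ∀ (N : ℕ) (A B : Finset (Zn N)) (Φ : Flag A B) (ι : Type) (s : Finset ι)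
    (P : ι → Finset (Zn N)) (g : ι → Zn N), (∀ k ∈ s, g k ∈ Φ.G (P k)) →
    ∑ k ∈ s, g k ∈ Φ.G (∑ k ∈ s, P k)
  card : ∀ (N l a : ℕ), l ≤ N → ∃ T : Finset (Zn N), T.Nonempty ∧
    (∀ q ∈ T, (∀ j, 0 ≤ q j) ∧ (∀ j : Fin N, l ≤ (j : ℕ) → q j = 0) ∧ ∑ j, q j ≤ a) ∧
    a ^ l ≤ l.factorial * T.card

/-- share of the indices `q` with `j < l q` -/
noncomputable def rho (l : Fin N → ℕ) (j : ℕ) : ℝ :=
  ((univ.filter fun q => j < l q).card : ℝ) / N

def ASideStmt : Prop :=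
  ∀ (N : ℕ) (A B : Finset (Zn N)) (Φ : Flag A B), 1 ≤ N → (0 : Zn N) ∈ A →
    ∀ (Λ : Finset (Zn N)), Λ.Nonempty → ∀ (l : Fin N → ℕ), (∀ q, l q ≤ N) → ∀ σ : ℕ, 0 < σ →
    ∑ j : Fin N, (1 - rho l j) * (ent (Φ.G Λ) j - Real.log (1 - rho l j)) +
      (∑ q, ((l q : ℝ) * Real.log (N * σ * l q) - Real.log (l q).factorial)) / N ≤
    Real.log (Φ.G (Λ + (σ * ∑ q, l q + N * (N + 1)) • A)).card

def BSideStmt : Prop :=
  ∀ (N : ℕ) (A B : Finset (Zn N)) (Φ : Flag A B), 1 ≤ N → (0 : Zn N) ∈ A → (0 : Zn N) ∈ B →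
    ∀ (Λ : Finset (Zn N)), Λ.Nonempty → ∀ (l : Fin N → ℕ), (∀ q, l q ≤ N) → ∀ τ m : ℕ, 0 < τ →
    ∑ j : Fin N, rho l j * (ent (Φ.G Λ) j - Real.log (rho l j)) +
      (∑ q, (Real.log (slice Φ m (l q)).card +
        ((N - l q : ℕ) : ℝ) * Real.log (N * τ * (N - l q : ℕ)))) / N ≤
    Real.log (Φ.G (Λ + (τ * ∑ q, (N - l q) + N) • (Φ.x0 • A + m • B) +
      (N * (τ * ∑ q, (N - l q) + N + 1)) • A)).card

/-! ### Part 4: numbers -/

def FactStmt : Prop :=
  ∀ n : ℕ, (n : ℝ) * Real.log n - n ≤ Real.log n.factorial ∧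
    Real.log n.factorial ≤ n * Real.log n - n + 1 + Real.log (n + 1)

/-- the grid of weights -/
noncomputable def rq (q : Fin N) : ℝ := ((q : ℕ) + 1 : ℝ) / (N + 1)

def ReStmt : Prop :=
  ∀ (N : ℕ), 1 ≤ N → ∀ l : Fin N → ℕ, (∀ q, l q ≤ N) →
    (N : ℝ) - 1 - Real.log (N + 1) +
      (∑ q, ((l q : ℝ) * Real.log (1 - rq q) + ((N - l q : ℕ) : ℝ) * Real.log (rq q))) / N ≤
    ∑ j : Fin N, (-(rho l j * Real.log (rho l j)) - (1 - rho l j) * Real.log (1 - rho l j))

def OptStmt : Prop :=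
  ∀ (N I J m : ℕ) (h1 h2 c1 c2 : ℝ), 1 ≤ N → I + J = N ^ 2 → 1 ≤ m → 0 < h1 → 0 < h2 →
    0 ≤ c1 → 0 ≤ c2 → ∃ M σ τ : ℕ, 0 < M ∧ 0 < σ ∧ 0 < τ ∧
      N * Real.log (M * h1 + σ * J + c1) + N * Real.log (M * h2 + τ * I * m + c2) ≤
        N * Real.log (h1 + h2) + 4 + N * Real.log M +
          (I : ℝ) / N * Real.log (N ^ 2 * τ * m) + (J : ℝ) / N * Real.log (N ^ 2 * σ)

/-! ### Part 5: lattice points and volumes -/

noncomputable def fl (x : Rn N) : Zn N := fun i => ⌊x i⌋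
def cst (z : Zn N) : Rn N := fun i => (z i : ℝ)

structure CntStmt : Prop where
  lo : ∀ (N : ℕ) (S : Finset (Zn N)) (X : Set (Rn N)), (∀ x ∈ X, fl x ∈ S) →
    volume X ≤ (S.card : ℝ≥0∞)
  hi : ∀ (N : ℕ) (S : Finset (Zn N)) (X : Set (Rn N)) (v : Rn N) (α : ℝ), 0 < α →
    (∀ z ∈ S, ∀ t : Rn N, (∀ i, 0 ≤ t i ∧ t i ≤ 1) → ∃ p ∈ X, cst z + t = v + α • p) →
    (S.card : ℝ≥0∞) ≤ ENNReal.ofReal (α ^ N) * volume X
  lat : ∀ (N : ℕ) (X : Set (Rn N)), Bornology.IsBounded X →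
    ∃ A : Finset (Zn N), ∀ z, z ∈ A ↔ cst z ∈ X
  flo : ∀ (N : ℕ) (X : Set (Rn N)), Bornology.IsBounded X →
    ∃ A : Finset (Zn N), ∀ z, z ∈ A ↔ ∃ x ∈ X, z = fl x
  fill : ∀ (N : ℕ) (A B : Finset (Zn N)) (p q : Rn N) (x y : ℕ), 1 ≤ y →
    (∀ z : Zn N, ‖cst z - p‖ ≤ 1 → z ∈ A) → (∀ z : Zn N, ‖cst z - q‖ ≤ 1 → z ∈ B) →
    fl ((x : ℝ) • p + (y : ℝ) • q) ∈ x • A + y • B
  conv : ∀ (N : ℕ) (A : Finset (Zn N)) (X : Set (Rn N)), Convex ℝ X → X.Nonempty →
    (∀ z ∈ A, cst z ∈ X) → ∀ (x : ℕ), ∀ z ∈ x • A, ∃ p ∈ X, cst z = (x : ℝ) • p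

/-- the convex hull of `(1 - r) K` and `r K'` -/
def hull (K K' : Set (Rn N)) (r : ℝ) : Set (Rn N) :=
  {z | ∃ t : ℝ, 0 ≤ t ∧ t ≤ 1 ∧ ∃ p ∈ K, ∃ q ∈ K', z = ((1 - t) * (1 - r)) • p + (t * r) • q}

/-- `A` consists of the lattice points at distance at most one from `K` -/
def Near (A : Finset (Zn N)) (K : Set (Rn N)) : Prop :=
  ∀ z, z ∈ A ↔ cst z ∈ Metric.cthickening 1 K

structure Body0 (K : Set (Rn N)) : Prop where
  conv : Convex ℝ K
  cpt : IsCompact K
  zero : (0 : Rn N) ∈ K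

def Sel1Stmt : Prop :=
  ∀ (N : ℕ) (K K' : Set (Rn N)) (A B : Finset (Zn N)) (Φ : Flag A B) (m : ℕ) (x y : ℝ),
    1 ≤ N → Body0 K → Body0 K' → Near A K → Near B K' → 1 ≤ m → 0 < x → 0 < y →
    N * (N + 1) * y ≤ x * m →
    volume.real {z | ∃ p ∈ K, ∃ q ∈ K', z = x • p + y • q} ≤
      Real.exp 1 * ∑ l ∈ range (N + 1), x ^ l * y ^ (N - l) *
        (Φ.d * (slice Φ m l).card / (l.factorial * (m : ℝ) ^ (N - l)))

def SelStmt : Prop :=
  ∀ (N : ℕ) (K K' : Set (Rn N)) (A B : Finset (Zn N)) (Φ : Flag A B) (m : ℕ) (r : ℝ),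
    1 ≤ N → Body0 K → Body0 K' → Near A K → Near B K' → N ^ 2 * (N + 1) ^ 2 ≤ m →
    0 < r → 1 / ((N : ℝ) + 1) ≤ 1 - r → ∃ l, l ≤ N ∧
    volume.real (hull K K' r) * N.factorial * (m : ℝ) ^ (N - l) ≤
      Real.exp 2 * (N + 1) ^ 2 * ((1 - r) ^ l * r ^ (N - l)) *
        (Φ.d * (slice Φ m l).card) * (N - l).factorial

/-- the sum set on the side of `K` -/
def UAStmt : Prop :=
  ∀ (N : ℕ) (K L : Set (Rn N)) (A P0 : Finset (Zn N)) (h1 : ℝ), Body0 K → Near A K → 0 < h1 →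
    (∀ x ∈ L, ∃ p ∈ K, x = h1 • p) → ∃ c : ℝ, 0 ≤ c ∧ ∀ (M t : ℕ) (Λ : Finset (Zn N)), 0 < M →
      (∀ z ∈ Λ, ∃ x ∈ L, z = fl ((M : ℝ) • x)) →
      ((Λ + t • A + P0).card : ℝ) ≤ (M * h1 + t + c) ^ N * volume.real (Metric.cthickening 1 K)

/-- the sum set on the side of `K'` -/
def UBStmt : Prop :=
  ∀ (N : ℕ) (K K' L : Set (Rn N)) (A B P0 : Finset (Zn N)) (h2 : ℝ) (v : Rn N) (x0 : ℕ),
    Body0 K → Body0 K' → Near A K → Near B K' → 0 < h2 →
    (∀ x ∈ L, ∃ q ∈ K', x = v + h2 • q) → ∃ (m0 : ℕ) (c : ℝ), 0 ≤ c ∧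
      ∀ (m M n : ℕ) (Λ : Finset (Zn N)), m0 ≤ m → 0 < M →
      (∀ z ∈ Λ, ∃ x ∈ L, z = fl ((M : ℝ) • x)) →
      ((Λ + n • (x0 • A + m • B) + (N * (n + 1)) • A + P0).card : ℝ) ≤
        (M * h2 + n * m + c) ^ N * volume.real (Metric.cthickening 2 K')

/-- the discrete core: both sides added, entropies and factorials removed -/
def CoreStmt : Prop :=
  ∀ (N : ℕ) (A B : Finset (Zn N)) (Φ : Flag A B), 1 ≤ N → (0 : Zn N) ∈ A → (0 : Zn N) ∈ B →
    ∀ (Λ : Finset (Zn N)), Λ.Nonempty → ∀ (l : Fin N → ℕ), (∀ q, l q ≤ N) →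
    ∀ (σ τ m : ℕ) (μ : Fin N → ℝ), 0 < σ → 0 < τ → 0 < m → (∀ q, 0 < μ q) →
    (∀ q, μ q * N.factorial * (m : ℝ) ^ (N - l q) ≤
      Real.exp 2 * (N + 1) ^ 2 * ((1 - rq q) ^ l q * rq q ^ (N - l q)) *
        (Φ.d * (slice Φ m (l q)).card) * (N - l q).factorial) →
    Real.log Λ.card + (∑ q, Real.log (μ q)) / N + N - 5 - 5 * Real.log (N + 1) +
      ((∑ q, (N - l q) : ℕ) : ℝ) / N * Real.log (N ^ 2 * τ * m) +
      ((∑ q, l q : ℕ) : ℝ) / N * Real.log (N ^ 2 * σ) ≤
    Real.log (Λ + (σ * ∑ q, l q + N * (N + 1)) • A + Φ.P0).card +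
      Real.log (Λ + (τ * ∑ q, (N - l q) + N) • (Φ.x0 • A + m • B) +
        (N * (τ * ∑ q, (N - l q) + N + 1)) • A + Φ.P0).card

/-- the three body inequality with thickened bodies -/
def TB0Stmt : Prop :=
  ∀ (N : ℕ) (K K' L : Set (Rn N)) (h1 h2 : ℝ) (μ : Fin N → ℝ) (v : Rn N), 1 ≤ N →
    Body0 K → Body0 K' →
    0 < h1 → 0 < h2 → (∀ x ∈ L, ∃ p ∈ K, x = h1 • p) → (∀ x ∈ L, ∃ q ∈ K', x = v + h2 • q) →
    (∀ q, 0 < μ q ∧ μ q ≤ volume.real (hull K K' (rq q))) →
    volume.real L * Real.exp ((∑ q, Real.log (μ q)) / N) * Real.exp N ≤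
      Real.exp 9 * (N + 1) ^ 5 * (h1 + h2) ^ N *
      (volume.real (Metric.cthickening 1 K) * volume.real (Metric.cthickening 2 K'))

/-- the three body inequality -/
def TBStmt : Prop :=
  ∀ (N : ℕ) (K K' L : Set (Rn N)) (h1 h2 : ℝ) (μ : Fin N → ℝ) (v : Rn N), 1 ≤ N →
    Body0 K → Body0 K' →
    0 < h1 → 0 < h2 → (∀ x ∈ L, ∃ p ∈ K, x = h1 • p) → (∀ x ∈ L, ∃ q ∈ K', x = v + h2 • q) →
    (∀ q, 0 < μ q ∧ μ q ≤ volume.real (hull K K' (rq q))) →
    volume.real L * Real.exp ((∑ q, Real.log (μ q)) / N) * Real.exp N ≤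
      Real.exp 9 * (N + 1) ^ 5 * (h1 + h2) ^ N *
      (volume.real K * volume.real K')

end Pool.Agent.MP_5f4cdd_gt.OK

end

section

set_option autoImplicit false
open Finset MeasureTheory
open scoped Pointwise ENNReal

namespace Pool.Agent.MP_5f4cdd_gt.OK

theorem eq_supported_V (N : ℕ) (F : Type) [Field F] (P : Finset (Zn N)) :
    VV F P = AddMonoidAlgebra.supported F F (P : Set (Zn N)) :=
  (AddMonoidAlgebra.supported_eq_span_single F (P : Set (Zn N))).symm

theorem mem_V (N : ℕ) (F : Type) [Field F] (P : Finset (Zn N)) (f : Lau F N) :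
    f ∈ VV F P ↔ f.coeff.support ⊆ P := by
  rw [eq_supported_V, AddMonoidAlgebra.mem_supported, Finset.coe_subset]

theorem fin_V (N : ℕ) (F : Type) [Field F] (P : Finset (Zn N)) : Module.Finite F (VV F P) :=
  Module.Finite.span_of_finite F (P.finite_toSet.image _)

theorem rank_V (N : ℕ) (F : Type) [Field F] (P : Finset (Zn N)) :
    Module.finrank F (VV F P) = P.card := by
  rw [eq_supported_V,
    (AddMonoidAlgebra.supportedEquivFinsupp (R := F) (S := F) (P : Set (Zn N))).finrank_eq,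
    Module.finrank_finsupp_self]
  simp

theorem mono_V (N : ℕ) (F : Type) [Field F] (P Q : Finset (Zn N)) (h : P ⊆ Q) :
    VV F P ≤ VV F Q := fun f hf => (mem_V N F Q f).2 (((mem_V N F P f).1 hf).trans h)

theorem mul_V (N : ℕ) (F : Type) [Field F] (P Q : Finset (Zn N)) (f : Lau F N) (hf : f ∈ VV F P)
    (g : Lau F N) (hg : g ∈ VV F Q) : f * g ∈ VV F (P + Q) :=
  (mem_V N F _ _).2 ((AddMonoidAlgebra.support_coeff_mul_subset f g).trans
    (Finset.add_subset_add ((mem_V N F P f).1 hf) ((mem_V N F Q g).1 hg)))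

theorem single_V (N : ℕ) (F : Type) [Field F] (P : Finset (Zn N)) (z : Zn N) (hz : z ∈ P) (c : F) :
    (AddMonoidAlgebra.single z c : Lau F N) ∈ VV F P := by
  rw [mem_V, AddMonoidAlgebra.coeff_single]
  exact Finsupp.support_single_subset.trans (Finset.singleton_subset_iff.2 hz)

theorem one_V (N : ℕ) (F : Type) [Field F] (A : Finset (Zn N)) :
    (1 : Lau F N) ∈ VV F (0 • A) := by
  rw [zero_nsmul, AddMonoidAlgebra.one_def]
  exact single_V N F _ 0 Finset.zero_mem_zero 1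

theorem pow_V (N : ℕ) (F : Type) [Field F] (A : Finset (Zn N)) (s : Lau F N) (hs : s ∈ VV F A)
    (k : ℕ) : s ^ k ∈ VV F (k • A) := by
  induction k with
  | zero => rw [pow_zero]; exact one_V N F A
  | succ k ih => rw [pow_succ, succ_nsmul]; exact mul_V N F _ _ _ ih _ hs

theorem prod_V (N : ℕ) (F : Type) [Field F] (A : Finset (Zn N)) (s : Fin N → Lau F N)
    (hs : ∀ j, s j ∈ VV F A) (γ : Fin N → ℕ) (T : Finset (Fin N)) :
    ∏ l ∈ T, s l ^ γ l ∈ VV F ((∑ l ∈ T, γ l) • A) := by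
  induction T using Finset.induction_on with
  | empty => rw [Finset.prod_empty, Finset.sum_empty]; exact one_V N F A
  | insert a T ha ih =>
    rw [Finset.prod_insert ha, Finset.sum_insert ha, add_nsmul]
    exact mul_V N F _ _ _ (pow_V N F A _ (hs a) _) _ ih

theorem v_stmt : VStmt where
  fin := fin_V
  rank := rank_V
  mono := mono_V
  mul := mul_V
  single := single_V
  mem := mem_V
  prod := fun N F _ A h0 s hs γ _ ht =>
    mono_V N F _ _ (Finset.nsmul_subset_nsmul_right h0 ht) (prod_V N F A s hs γ Finset.univ)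

end Pool.Agent.MP_5f4cdd_gt.OK

end

section

set_option autoImplicit false
open Finset MeasureTheory
open scoped Pointwise ENNReal
namespace Pool.Agent.MP_5f4cdd_gt.OK

theorem zero_le_lexOrder_Ind {N : ℕ} {R : Type} [Field R] (ψ : MvPowerSeries (Fin N) R) :
    ((toLex (0 : Fin N →₀ ℕ) : Lex (Fin N →₀ ℕ)) : WithTop (Lex (Fin N →₀ ℕ))) ≤
      MvPowerSeries.lexOrder ψ := by
  rw [MvPowerSeries.le_lexOrder_iff]
  intro d hd
  exfalso
  rw [WithTop.coe_lt_coe] at hd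
  exact absurd hd (not_lt.mpr (Finsupp.toLex_monotone (zero_le (a := d))))

theorem lexOrder_eq_zero_Ind {N : ℕ} {R : Type} [Field R] (ψ : MvPowerSeries (Fin N) R)
    (h : MvPowerSeries.constantCoeff ψ ≠ 0) :
    MvPowerSeries.lexOrder ψ =
      ((toLex (0 : Fin N →₀ ℕ) : Lex (Fin N →₀ ℕ)) : WithTop (Lex (Fin N →₀ ℕ))) := by
  refine le_antisymm ?_ (zero_le_lexOrder_Ind ψ)
  apply MvPowerSeries.lexOrder_le_of_coeff_ne_zero
  rwa [MvPowerSeries.coeff_zero_eq_constantCoeff_apply]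

theorem const_smul_Ind {N : ℕ} {A : Finset (Zn N)} {F R : Type} [Field F] [Field R] [Algebra F R]
    (v : Val A F R) (c : F) (g : Lau F N) :
    MvPowerSeries.constantCoeff (v.Ψ (c • g)) = c • MvPowerSeries.constantCoeff (v.Ψ g) := by
  rw [Algebra.smul_def, map_mul, map_mul, v.alg, Algebra.smul_def]

theorem ind_stmt : IndStmt := by
  classical
  intro N A F R _ _ _ v ι κ _ _ γ f h hγ hf hh
  rw [Fintype.linearIndependent_iff] at hh ⊢
  intro c hc
  by_contra hne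
  push Not at hne
  obtain ⟨⟨i1, k1⟩, hik⟩ := hne
  set H : ι → Lau F N := fun i => ∑ k, c (i, k) • h k with hH
  have hsum : ∑ i, f i * H i = 0 := by
    rw [← hc, Fintype.sum_prod_type]
    refine Finset.sum_congr rfl fun i _ => ?_
    rw [hH, Finset.mul_sum]
    refine Finset.sum_congr rfl fun k _ => ?_
    rw [mul_smul_comm]
  have hconst : ∀ i, MvPowerSeries.constantCoeff (v.Ψ (H i)) =
      ∑ k, c (i, k) • MvPowerSeries.constantCoeff (v.Ψ (h k)) := by
    intro i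
    rw [hH, map_sum, map_sum]
    exact Finset.sum_congr rfl fun k _ => const_smul_Ind v _ _
  set S : Finset ι := Finset.univ.filter fun i => ∃ k, c (i, k) ≠ 0 with hS
  have hSne : S.Nonempty := ⟨i1, Finset.mem_filter.mpr ⟨Finset.mem_univ _, k1, hik⟩⟩
  obtain ⟨i0, hi0, hmin⟩ := Finset.exists_min_image S (fun i => toLex (γ i)) hSne
  obtain ⟨k0, hk0⟩ := (Finset.mem_filter.mp hi0).2
  have hc0 : MvPowerSeries.constantCoeff (v.Ψ (H i0)) ≠ 0 := by
    intro h0
    rw [hconst] at h0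
    exact hk0 (hh (fun k => c (i0, k)) h0 k0)
  have hmain : MvPowerSeries.coeff (γ i0) (v.Ψ (∑ i, f i * H i)) =
      MvPowerSeries.coeff (γ i0) (v.Ψ (f i0)) *
        MvPowerSeries.coeff 0 (v.Ψ (H i0)) := by
    rw [map_sum, map_sum, Finset.sum_eq_single i0]
    · rw [map_mul]
      have := MvPowerSeries.coeff_mul_of_add_lexOrder (hf i0) (lexOrder_eq_zero_Ind _ hc0)
      rwa [add_zero] at this
    · intro i _ hi
      by_cases hiS : i ∈ S
      · rw [map_mul]
        apply MvPowerSeries.coeff_eq_zero_of_lt_lexOrder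
        refine lt_of_lt_of_le ?_ (MvPowerSeries.le_lexOrder_mul _ _)
        rw [hf i]
        have h1 : toLex (γ i0) < toLex (γ i) := by
          refine lt_of_le_of_ne (hmin i hiS) ?_
          intro he
          exact hi (hγ (toLex.injective he)).symm
        refine lt_of_lt_of_le (WithTop.coe_lt_coe.mpr h1) ?_
        have h2 := add_le_add (le_refl
          ((toLex (γ i) : Lex (Fin N →₀ ℕ)) : WithTop (Lex (Fin N →₀ ℕ))))
          (zero_le_lexOrder_Ind (v.Ψ (H i)))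
        refine le_trans (le_of_eq ?_) h2
        rw [← WithTop.coe_add, ← toLex_add, add_zero]
      · have hz : H i = 0 := by
          rw [hH]
          refine Finset.sum_eq_zero fun k _ => ?_
          have : c (i, k) = 0 := by
            by_contra hk
            exact hiS (Finset.mem_filter.mpr ⟨Finset.mem_univ _, k, hk⟩)
          rw [this, zero_smul]
        rw [hz, mul_zero, map_zero, map_zero]
    · intro hn
      exact absurd (Finset.mem_univ _) hn
  rw [hsum, map_zero, map_zero, MvPowerSeries.coeff_zero_eq_constantCoeff_apply] at hmain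
  exact mul_ne_zero (MvPowerSeries.coeff_ne_zero_of_lexOrder (hf i0).symm) hc0 hmain.symm

end Pool.Agent.MP_5f4cdd_gt.OK

end

section

set_option autoImplicit false
open Finset MeasureTheory
open scoped Pointwise ENNReal
namespace Pool.Agent.MP_5f4cdd_gt.OK

theorem coeff_mul_Leaf {N : ℕ} {R : Type} [Field R] (φ ψ : MvPowerSeries (Fin N) R)
    (γ : Fin N →₀ ℕ)
    (h : ((toLex γ : Lex (Fin N →₀ ℕ)) : WithTop (Lex (Fin N →₀ ℕ))) ≤ MvPowerSeries.lexOrder ψ) :
    MvPowerSeries.coeff γ (φ * ψ) = MvPowerSeries.constantCoeff φ * MvPowerSeries.coeff γ ψ := by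
  classical
  rw [MvPowerSeries.coeff_mul, Finset.sum_eq_single (0, γ)]
  · simp
  · rintro ⟨a, b⟩ hab hne
    rw [Finset.HasAntidiagonal.mem_antidiagonal] at hab
    dsimp only at hab ⊢
    have hle : b ≤ γ := by
      rw [← hab]
      exact le_add_self
    have hb : b ≠ γ := by
      rintro rfl
      exact hne (by rw [show a = 0 from by simpa using hab])
    have hlt : toLex b < toLex γ :=
      lt_of_le_of_ne (Finsupp.toLex_monotone hle) fun e => hb (toLex.injective e)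
    rw [MvPowerSeries.coeff_eq_zero_of_lt_lexOrder (d := b)
      (lt_of_lt_of_le (WithTop.coe_lt_coe.2 hlt) h), mul_zero]
  · intro h'
    exact absurd (by simp) h'

theorem leaf_stmt : LeafStmt := by
  classical
  intro N A F R _ _ _ v d w hw T
  induction hT : T.card generalizing T with
  | zero =>
    intro U _ hU
    rw [Finset.card_eq_zero] at hT
    subst hT
    have : U = ⊥ := (Submodule.eq_bot_iff _).2 fun f hf => by
      by_contra h
      obtain ⟨γ, hγ, -⟩ := hU f hf h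
      simp at hγ
    rw [this]
    simp
  | succ n ih =>
    intro U hfin hU
    obtain ⟨γ, hγ, hmin⟩ := T.exists_min_image toLex (Finset.card_pos.1 (by omega))
    have hle : ∀ f ∈ U, ((toLex γ : Lex (Fin N →₀ ℕ)) : WithTop (Lex (Fin N →₀ ℕ))) ≤
        MvPowerSeries.lexOrder (v.Ψ f) := fun f hf => by
      by_cases h : f = 0
      · rw [h, map_zero, MvPowerSeries.lexOrder_zero]
        exact le_top
      · obtain ⟨δ, hδ, e⟩ := hU f hf h
        rw [e]
        exact WithTop.coe_le_coe.2 (hmin δ hδ)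
    let ℓ : U →ₗ[F] R :=
      { toFun := fun f => MvPowerSeries.coeff γ (v.Ψ f.1)
        map_add' := fun f g => by rw [Submodule.coe_add, map_add, map_add]
        map_smul' := fun c f => by
          rw [Submodule.coe_smul, Algebra.smul_def, map_mul, coeff_mul_Leaf _ _ _ (hle _ f.2),
            v.alg, RingHom.id_apply, Algebra.smul_def] }
    have h1 : Module.finrank F (LinearMap.range ℓ) ≤ d := by
      have hr : LinearMap.range ℓ ≤ Submodule.span F (Set.range w) := by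
        rintro _ ⟨f, rfl⟩
        obtain ⟨g, hg⟩ := v.lead f.1 γ (hle _ f.2)
        change MvPowerSeries.coeff γ (v.Ψ f.1) ∈ _
        rw [hg]
        exact hw g
      have : Module.Finite F (Submodule.span F (Set.range w)) :=
        Module.Finite.span_of_finite F (Set.finite_range w)
      refine (Submodule.finrank_mono hr).trans ?_
      exact (finrank_range_le_card w).trans (by simp)
    have h2 : Module.finrank F (LinearMap.ker ℓ) ≤ d * n := by
      rw [← Submodule.finrank_map_subtype_eq]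
      refine ih (T.erase γ) (by rw [Finset.card_erase_of_mem hγ, hT]; rfl) _ inferInstance ?_
      rintro _ ⟨f, hf, rfl⟩ h0
      obtain ⟨δ, hδ, e⟩ := hU f.1 f.2 h0
      refine ⟨δ, Finset.mem_erase.2 ⟨?_, hδ⟩, e⟩
      rintro rfl
      exact MvPowerSeries.coeff_ne_zero_of_lexOrder e.symm hf
    rw [← LinearMap.finrank_range_add_finrank_ker ℓ, Nat.mul_succ]
    omega

end Pool.Agent.MP_5f4cdd_gt.OK

end

section

set_option autoImplicit false
open Finset MeasureTheory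
open scoped Pointwise ENNReal

namespace Pool.Agent.MP_5f4cdd_gt.OK

variable {N : ℕ}

/-- exponents of the first block of variables -/
noncomputable def gam_Phi (m : Fin N ⊕ (Fin N × Zn N) →₀ ℕ) : Fin N →₀ ℕ :=
  Finsupp.comapDomain Sum.inl m Sum.inl_injective.injOn

/-- exponents of the second block of variables -/
noncomputable def rho_Phi (m : Fin N ⊕ (Fin N × Zn N) →₀ ℕ) : Fin N × Zn N →₀ ℕ :=
  Finsupp.comapDomain Sum.inr m Sum.inr_injective.injOn

lemma split_Phi (m : Fin N ⊕ (Fin N × Zn N) →₀ ℕ) : (gam_Phi m).sumElim (rho_Phi m) = m := by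
  ext (_ | _) <;> simp [gam_Phi, rho_Phi]

lemma const_uz_Phi (A : Finset (Zn N)) (l : Fin N) :
    MvPolynomial.constantCoeff (uz A l) = AddMonoidAlgebra.single (Pi.single l 1) 1 := by
  simp [uz, chD, map_sum]

lemma const_prod_Phi (A : Finset (Zn N)) (γ : Fin N →₀ ℕ) :
    MvPolynomial.constantCoeff (γ.prod fun l k => uz A l ^ k) =
      (AddMonoidAlgebra.single (fun l => (γ l : ℤ)) 1 : Lau ℚ N) := by
  rw [Finsupp.prod_fintype _ _ (by simp), map_prod]
  simp only [map_pow, const_uz_Phi, AddMonoidAlgebra.single_pow, one_pow]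
  rw [AddMonoidAlgebra.prod_single]
  simp only [Finset.prod_const_one]
  congr 1
  funext j
  simp [Finset.sum_apply, Pi.single_apply]

lemma phi_monomial_Phi (A : Finset (Zn N)) (m : Fin N ⊕ (Fin N × Zn N) →₀ ℕ) (q : ℚ) :
    phi A (MvPolynomial.monomial m q) =
      MvPolynomial.monomial (rho_Phi m) (algebraMap ℚ (Lau ℚ N) q) *
        (gam_Phi m).prod fun l k => uz A l ^ k := by
  rw [phi, MvPolynomial.aeval_monomial]
  conv_lhs => rw [← split_Phi m]
  rw [Finsupp.prod_sumElim, MvPolynomial.monomial_eq]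
  have h1 : (algebraMap ℚ (Dz N)) q = MvPolynomial.C (algebraMap ℚ (Lau ℚ N) q) := rfl
  rw [h1, mul_assoc, mul_comm (Finsupp.prod (rho_Phi m) _)]
  rfl

lemma coeff_phi_Phi (A : Finset (Zn N)) (m : Fin N ⊕ (Fin N × Zn N) →₀ ℕ) (q : ℚ)
    (μ : Fin N × Zn N →₀ ℕ) (h : Finsupp.degree μ ≤ Finsupp.degree (rho_Phi m)) :
    MvPolynomial.coeff μ (phi A (MvPolynomial.monomial m q)) =
      if rho_Phi m = μ then AddMonoidAlgebra.single (fun l => (gam_Phi m l : ℤ)) q else 0 := by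
  classical
  rw [phi_monomial_Phi, MvPolynomial.coeff_monomial_mul']
  by_cases h1 : rho_Phi m = μ
  · rw [if_pos h1, if_pos h1.le, h1, tsub_self, ← MvPolynomial.constantCoeff_eq, const_prod_Phi]
    have h2 : (algebraMap ℚ (Lau ℚ N)) q = AddMonoidAlgebra.single 0 q := rfl
    rw [h2, AddMonoidAlgebra.single_mul_single]
    simp
  · rw [if_neg h1, if_neg]
    intro h2
    apply h1
    obtain ⟨c, hc⟩ := exists_add_of_le h2
    rw [hc, map_add] at h
    have h3 : Finsupp.degree c = 0 := by omega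
    rw [Finsupp.degree_eq_zero_iff] at h3
    rw [hc, h3, add_zero]

theorem phi_stmt : PhiStmt := by
  classical
  intro N A
  rw [injective_iff_map_eq_zero]
  intro δ hδ
  by_contra hne
  have hs : δ.support.Nonempty := MvPolynomial.support_nonempty.mpr hne
  obtain ⟨m0, hm0, hmin⟩ := Finset.exists_min_image δ.support
    (fun m => Finsupp.degree (rho_Phi m)) hs
  have h1 : MvPolynomial.coeff (rho_Phi m0) (phi A δ) =
      ∑ m ∈ δ.support, if rho_Phi m = rho_Phi m0 then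
        AddMonoidAlgebra.single (fun l => (gam_Phi m l : ℤ)) (MvPolynomial.coeff m δ) else 0 := by
    conv_lhs => rw [δ.as_sum, map_sum, MvPolynomial.coeff_sum]
    exact Finset.sum_congr rfl fun m hm => coeff_phi_Phi A m _ _ (hmin m hm)
  rw [hδ, MvPolynomial.coeff_zero] at h1
  have h2 := congrArg (fun f : Lau ℚ N => f.coeff (fun l => (gam_Phi m0 l : ℤ))) h1
  simp only [AddMonoidAlgebra.coeff_sum, Finsupp.finsetSum_apply] at h2
  rw [Finset.sum_eq_single m0] at h2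
  · simp at h2
    exact (MvPolynomial.mem_support_iff.mp hm0) h2.symm
  · intro m _ hm
    by_cases h3 : rho_Phi m = rho_Phi m0
    · rw [if_pos h3, AddMonoidAlgebra.coeff_single, Finsupp.single_apply, if_neg]
      intro h4
      apply hm
      have h5 : gam_Phi m = gam_Phi m0 := by
        ext l
        exact_mod_cast congrFun h4 l
      rw [← split_Phi m, ← split_Phi m0, h3, h5]
    · rw [if_neg h3]
      simp
  · intro h
    exact absurd hm0 h

end Pool.Agent.MP_5f4cdd_gt.OK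

end

section

set_option autoImplicit false
open Finset MeasureTheory
open scoped Pointwise ENNReal
namespace Pool.Agent.MP_5f4cdd_gt.OK

theorem ent_stmt : EntStmt := by
  refine ⟨fun N G hG => ?_, fun N G j h => ?_⟩
  · have h0 : (G.card : ℝ) ≠ 0 := by exact_mod_cast hG.card_pos.ne'
    simp only [ent]
    rw [← sum_div, sum_comm, div_eq_iff h0, mul_comm, ← nsmul_eq_mul, ← sum_const]
    refine sum_congr rfl fun g hg => ?_
    rw [Fin.sum_univ_eq_sum_range
      (fun j => Real.log (fib G j g) - Real.log (fib G (j + 1) g)) N,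
      sum_range_sub' fun j => Real.log (fib G j g)]
    have e1 : fib G 0 g = G.card := by
      rw [fib, filter_true_of_mem fun _ _ l hl => absurd hl (Nat.not_lt_zero _)]
    have e2 : fib G N g = 1 := by
      refine card_eq_one.2 ⟨g, eq_singleton_iff_unique_mem.2
        ⟨mem_filter.2 ⟨hg, fun _ _ => rfl⟩, fun g' hg' => ?_⟩⟩
      exact funext fun l => (mem_filter.1 hg').2 l l.2
    rw [e1, e2, Nat.cast_one, Real.log_one, sub_zero]
  · rw [ent, sum_eq_zero fun g hg => ?_, zero_div]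
    have e : fib G j g = fib G (j + 1) g := by
      refine congrArg card (filter_congr fun g' hg' =>
        ⟨fun H l hl => ?_, fun H l hl => H l (Nat.lt_succ_of_lt hl)⟩)
      rcases Nat.lt_succ_iff_lt_or_eq.1 hl with h1 | h1
      · exact H l h1
      · rw [Fin.ext h1, h g hg, h g' hg']
    rw [e, sub_self]

theorem sim_stmt : SimStmt := by
  refine ⟨fun N A B Φ hA t => ?_, fun N A B Φ ι s P g h => ?_, fun N l a hl => ?_⟩
  · induction t with
    | zero =>
      intro q h0 h1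
      have e : q = 0 := funext fun j => le_antisymm
        ((single_le_sum (fun l _ => h0 l) (mem_univ j)).trans (by exact_mod_cast h1)) (h0 j)
      rw [e, zero_nsmul]
      exact Φ.zero _ zero_nonempty
    | succ t ih =>
      intro q h0 h1
      rw [succ_nsmul]
      by_cases hq : ∃ j, 0 < q j
      · obtain ⟨j, hj⟩ := hq
        rw [← sub_add_cancel q (Pi.single j 1)]
        refine Φ.add _ _ (add_mem_add (ih _ (fun l => ?_) ?_) (Φ.unit j))
        · rw [Pi.sub_apply, sub_nonneg]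
          by_cases hl : l = j
          · rw [hl, Pi.single_eq_same]
            exact hj
          · rw [Pi.single_eq_of_ne hl]
            exact h0 l
        · simp only [Pi.sub_apply, sum_sub_distrib, Fintype.sum_pi_single']
          push_cast at h1
          linarith
      · rw [← add_zero q]
        refine Φ.add _ _ (add_mem_add (ih _ h0 ?_) (Φ.zero _ ⟨0, hA⟩))
        exact (sum_nonpos fun l _ => not_lt.1 fun h => hq ⟨l, h⟩).trans (Int.natCast_nonneg t)
  · classical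
    induction s using Finset.induction_on with
    | empty =>
      rw [sum_empty, sum_empty]
      exact Φ.zero _ zero_nonempty
    | insert k s hk ih =>
      rw [sum_insert hk, sum_insert hk]
      exact Φ.add _ _ (add_mem_add (h k (mem_insert_self _ _))
        (ih fun k' hk' => h k' (mem_insert_of_mem hk')))
  · obtain ⟨S, hS⟩ : ∃ S, S = (Iic (⟨l, Nat.lt_succ_of_le hl⟩ : Fin (N + 1))).finsuppAntidiag a :=
      ⟨_, rfl⟩
    have h1 : ∀ f ∈ S, f 0 + ∑ j : Fin N, f j.succ = a ∧ ∀ j : Fin N, l ≤ (j : ℕ) → f j.succ = 0 := by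
      intro f hf
      rw [hS, mem_finsuppAntidiag'] at hf
      refine ⟨?_, fun j hj => ?_⟩
      · rw [← hf.1, Finsupp.sum_fintype _ _ fun _ => rfl, Fin.sum_univ_succ]
      · by_contra h
        have h2 := mem_Iic.1 (hf.2 (Finsupp.mem_support_iff.2 h))
        have h3 : (j : ℕ) + 1 ≤ l := h2
        omega
    have h2 : (S.image fun f (j : Fin N) => (f j.succ : ℤ)).card = (a + l).choose l := by
      rw [card_image_of_injOn fun f hf g hg e => ?_, hS, card_finsuppAntidiag_nat_eq_choose,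
        Fin.card_Iic, show l + 1 + a - 1 = a + l by omega, Nat.choose_symm_add]
      have e1 : ∀ j : Fin N, f j.succ = g j.succ := fun j => by exact_mod_cast congrFun e j
      have e2 := (h1 f hf).1.trans (h1 g hg).1.symm
      rw [sum_congr rfl fun j _ => e1 j] at e2
      exact Finsupp.ext fun i => Fin.cases (add_right_cancel e2) e1 i
    refine ⟨S.image fun f (j : Fin N) => (f j.succ : ℤ), card_pos.1 ?_, fun q hq => ?_, ?_⟩
    · rw [h2]
      exact Nat.choose_pos (Nat.le_add_left _ _)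
    · obtain ⟨f, hf, rfl⟩ := mem_image.1 hq
      refine ⟨fun j => Int.natCast_nonneg _, fun j hj => Nat.cast_eq_zero.2 ((h1 f hf).2 j hj), ?_⟩
      beta_reduce
      exact_mod_cast (Nat.le_add_left _ _).trans (h1 f hf).1.le
    · rw [h2, ← Nat.ascFactorial_eq_factorial_mul_choose]
      exact (Nat.pow_le_pow_left a.le_succ l).trans (Nat.pow_succ_le_ascFactorial _ l)

end Pool.Agent.MP_5f4cdd_gt.OK

end

section

set_option autoImplicit false
open Finset MeasureTheory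
open scoped Pointwise ENNReal

namespace Pool.Agent.MP_5f4cdd_gt.OK

theorem sum_ite_rho_ASide {N : ℕ} (l : Fin N → ℕ) (j : ℕ) :
    ∑ q : Fin N, (if j < l q then (1 : ℝ) / N else 0) = rho l j := by
  rw [← Finset.sum_filter, Finset.sum_const, nsmul_eq_mul, rho]
  ring

theorem rho_le_ASide {N : ℕ} (hN : 1 ≤ N) (l : Fin N → ℕ) (j : ℕ) : rho l j ≤ 1 := by
  have hNpos : (0 : ℝ) < N := by exact_mod_cast hN
  rw [rho, div_le_one hNpos]
  have h := Finset.card_filter_le (univ : Finset (Fin N)) (fun q => j < l q)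
  rw [Finset.card_univ, Fintype.card_fin] at h
  exact_mod_cast h

theorem value_ASide (hE : EntStmt) {N : ℕ} (hN : 1 ≤ N) (T : Finset (Zn N)) (hT : T.Nonempty)
    (l : ℕ) (hl : l ≤ N) (hz : ∀ q ∈ T, ∀ j : Fin N, l ≤ (j : ℕ) → q j = 0) :
    ∑ j : Fin N, (if (j : ℕ) < l then (1 : ℝ) / N else 0) *
      (ent T j - Real.log (if (j : ℕ) < l then (1 : ℝ) / N else 0)) =
      (Real.log T.card + l * Real.log N) / N := by
  have hNpos : (0 : ℝ) < N := by exact_mod_cast hN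
  have h1 : ∀ j : Fin N, (if (j : ℕ) < l then (1 : ℝ) / N else 0) *
      (ent T j - Real.log (if (j : ℕ) < l then (1 : ℝ) / N else 0)) =
      ent T j / N + (if (j : ℕ) < l then Real.log N / N else 0) := by
    intro j
    by_cases h : (j : ℕ) < l
    · simp only [if_pos h]
      rw [one_div, Real.log_inv]
      ring
    · simp only [if_neg h]
      rw [hE.zero N T j (fun g hg => hz g hg j (not_lt.mp h))]
      ring
  rw [Finset.sum_congr rfl fun j _ => h1 j, Finset.sum_add_distrib, ← Finset.sum_div,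
    hE.sum N T hT, ← Finset.sum_filter, Finset.sum_const, nsmul_eq_mul,
    Fin.card_filter_val_lt, min_eq_right hl]
  ring

theorem log_bound_ASide (N σ l c : ℕ) (hN : 1 ≤ N) (hσ : 0 < σ) (hc : 0 < c)
    (h : (σ * l) ^ l ≤ l.factorial * c) :
    (l : ℝ) * Real.log (N * σ * l) - Real.log l.factorial ≤ Real.log c + l * Real.log N := by
  have hNpos : (0 : ℝ) < N := by exact_mod_cast hN
  have hσpos : (0 : ℝ) < σ := by exact_mod_cast hσ
  have hcpos : (0 : ℝ) < c := by exact_mod_cast hc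
  have hfpos : (0 : ℝ) < l.factorial := by exact_mod_cast l.factorial_pos
  rcases Nat.eq_zero_or_pos l with rfl | hl
  · have : (0 : ℝ) ≤ Real.log c := Real.log_nonneg (by exact_mod_cast hc)
    simpa using this
  · have hlpos : (0 : ℝ) < l := by exact_mod_cast hl
    have h' : ((σ : ℝ) * l) ^ l ≤ (l.factorial : ℝ) * c := by exact_mod_cast h
    have h2 := Real.log_le_log (by positivity) h'
    rw [Real.log_pow, Real.log_mul hfpos.ne' hcpos.ne'] at h2
    rw [mul_assoc, Real.log_mul hNpos.ne' (by positivity)]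
    linarith

theorem aside_stmt (hE : EntStmt) (hD : DIStmt) (hS : SimStmt) : ASideStmt := by
  intro N A B Φ hN h0 Λ hΛ l hl σ hσ
  have hNpos : (0 : ℝ) < N := by exact_mod_cast hN
  choose T hTne hT hTc using fun q : Fin N => hS.card N (l q) (σ * l q) (hl q)
  have key := hD N (Option (Fin N)) (fun k => k.elim (Φ.G Λ) T)
    (fun j k => k.elim (1 - rho l j) fun q => if (j : ℕ) < l q then (1 : ℝ) / N else 0)
    (Φ.G (Λ + (σ * ∑ q, l q + N * (N + 1)) • A)) ?_ ?_ ?_ ?_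
  · refine le_trans ?_ key
    simp only [Fintype.sum_option, Option.elim_none, Option.elim_some]
    rw [Finset.sum_add_distrib]
    refine add_le_add le_rfl ?_
    rw [Finset.sum_comm, Finset.sum_div]
    refine Finset.sum_le_sum fun q _ => ?_
    rw [value_ASide hE hN (T q) (hTne q) (l q) (hl q) (fun z hz => (hT q z hz).2.1)]
    exact div_le_div_of_nonneg_right
      (log_bound_ASide N σ (l q) (T q).card hN hσ (hTne q).card_pos (hTc q)) hNpos.le
  · intro k
    cases k with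
    | none => exact ⟨0, Φ.zero Λ hΛ⟩
    | some q => exact hTne q
  · intro j k
    cases k with
    | none => exact sub_nonneg.mpr (rho_le_ASide hN l j)
    | some q =>
      simp only [Option.elim_some]
      split_ifs
      · positivity
      · exact le_rfl
  · intro j
    simp only [Fintype.sum_option, Option.elim_none, Option.elim_some]
    rw [sum_ite_rho_ASide]
    ring
  · intro g hg c hc
    rw [Fintype.sum_option, add_assoc]
    have hg0 : g none ∈ Φ.G Λ := hg none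
    have hgq : ∀ q, g (some q) ∈ T q := fun q => hg (some q)
    have hcard : (Fintype.card (Option (Fin N)) : ℤ) = N + 1 := by
      rw [Fintype.card_option, Fintype.card_fin]; push_cast; ring
    have hm : (∑ q, g (some q) + c) ∈ Φ.G ((σ * ∑ q, l q + N * (N + 1)) • A) := by
      refine hS.mem N A B Φ h0 _ _ ?_ ?_
      · intro i
        rw [Pi.add_apply, Finset.sum_apply]
        exact add_nonneg (Finset.sum_nonneg fun q _ => (hT q _ (hgq q)).1 i) (hc i).1
      · simp only [Pi.add_apply, Finset.sum_apply]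
        rw [Finset.sum_add_distrib, Finset.sum_comm]
        have h1 : ∑ q : Fin N, ∑ i : Fin N, g (some q) i ≤ ∑ q : Fin N, ((σ * l q : ℕ) : ℤ) :=
          Finset.sum_le_sum fun q _ => (hT q _ (hgq q)).2.2
        have h2 : ∑ i : Fin N, c i ≤ ∑ _i : Fin N, ((N : ℤ) + 1) :=
          Finset.sum_le_sum fun i _ => hcard ▸ (hc i).2
        rw [Finset.sum_const, Finset.card_univ, Fintype.card_fin, nsmul_eq_mul] at h2
        push_cast at h1 ⊢
        rw [← Finset.mul_sum] at h1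
        linarith
    exact Φ.add _ _ (Finset.add_mem_add hg0 hm)

end Pool.Agent.MP_5f4cdd_gt.OK

end

section

set_option autoImplicit false
open Finset MeasureTheory
open scoped Pointwise ENNReal

namespace Pool.Agent.MP_5f4cdd_gt.OK

theorem choose_Sel1 (N X l : ℕ) (w : ℝ) (hN : 1 ≤ N) (hl : l ≤ N) (hw : (N : ℝ) * (N + 1) ≤ w)
    (hX : (X : ℝ) ≤ w + 1) : ((X + l).choose l : ℝ) ≤ Real.exp 1 * w ^ l / l.factorial := by
  have hN0 : (0 : ℝ) < N := by exact_mod_cast hN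
  have hl' : (l : ℝ) ≤ N := by exact_mod_cast hl
  have hw0 : 0 ≤ w := le_trans (by positivity) hw
  have h1 : ((X + l : ℕ) : ℝ) ≤ w * Real.exp (1 / N) := by
    have h2 : (N : ℝ) + 1 ≤ w * (1 / N) := by
      rw [mul_one_div, le_div_iff₀ hN0]
      linarith
    have h3 : w * (1 / N + 1) ≤ w * Real.exp (1 / N) :=
      mul_le_mul_of_nonneg_left (Real.add_one_le_exp _) hw0
    push_cast
    linarith
  have h4 : ((X + l : ℕ) : ℝ) ^ l ≤ Real.exp 1 * w ^ l := by
    refine le_trans (pow_le_pow_left₀ (Nat.cast_nonneg _) h1 l) ?_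
    rw [mul_pow, mul_comm, ← Real.exp_nat_mul]
    refine mul_le_mul_of_nonneg_right (Real.exp_le_exp.2 ?_) (pow_nonneg hw0 _)
    rw [mul_one_div, div_le_one hN0]
    exact hl'
  refine le_trans (Nat.choose_le_pow_div l (X + l)) ?_
  exact div_le_div_of_nonneg_right h4 (Nat.cast_nonneg _)

theorem near_Sel1 {N : ℕ} {A : Finset (Zn N)} {K : Set (Rn N)} (h : Near A K) {p : Rn N}
    (hp : p ∈ K) (z : Zn N) (hz : ‖cst z - p‖ ≤ 1) : z ∈ A :=
  (h z).2 (Metric.mem_cthickening_of_dist_le _ p _ _ hp (by rwa [dist_eq_norm]))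

theorem sel1_stmt (hU : UpStmt) (hC : CntStmt) : Sel1Stmt := by
  intro N K K' A B Φ m x y hN hK hK' hA hB hm hx hy hxy
  set Z : Set (Rn N) := {z | ∃ p ∈ K, ∃ q ∈ K', z = x • p + y • q} with hZ
  have hm0 : (0 : ℝ) < m := by exact_mod_cast hm
  have hN0 : (0 : ℝ) < N := by exact_mod_cast hN
  set w : ℝ := x * m / y with hw
  have hw1 : (N : ℝ) * (N + 1) ≤ w := by
    rw [hw, le_div_iff₀ hy]
    exact hxy
  have hw0 : 0 < w := lt_of_lt_of_le (by positivity) hw1
  set X : ℕ := ⌈w⌉₊ with hX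
  have hX1 : w ≤ X := Nat.le_ceil w
  have hX2 : (X : ℝ) ≤ w + 1 := (Nat.ceil_lt_add_one hw0.le).le
  have hX0 : (0 : ℝ) < X := lt_of_lt_of_le hw0 hX1
  have h0A : (0 : Zn N) ∈ A := by
    refine near_Sel1 hA hK.zero 0 ?_
    have : cst (0 : Zn N) = 0 := by
      ext i
      simp [cst]
    simp [this]
  have hlo := hC.lo N ((Φ.x0 + X) • A + m • B) (((m : ℝ) / y) • Z) (by
    rintro u ⟨z, ⟨p, hp, q, hq, rfl⟩, rfl⟩
    have hp1 : (w / X) • p ∈ K :=
      hK.conv.smul_mem_of_zero_mem hK.zero hp ⟨by positivity, (div_le_one hX0).2 hX1⟩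
    have he : ((m : ℝ) / y) • (x • p + y • q) = (X : ℝ) • ((w / X) • p) + (m : ℝ) • q := by
      rw [smul_add, smul_smul, smul_smul, smul_smul]
      congr 2
      · rw [hw]
        field_simp
      · field_simp
    have hf := hC.fill N A B _ q X m hm (near_Sel1 hA hp1) (near_Sel1 hB hq)
    show fl (((m : ℝ) / y) • (x • p + y • q)) ∈ _
    rw [he]
    exact Finset.add_subset_add_right
      (Finset.nsmul_subset_nsmul_right h0A (Nat.le_add_left X Φ.x0)) hf)
  rw [Measure.addHaar_smul, Module.finrank_fin_fun] at hlo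
  have h1 : ((m : ℝ) / y) ^ N * volume.real Z ≤ (((Φ.x0 + X) • A + m • B).card : ℝ) := by
    have := ENNReal.toReal_mono (ENNReal.natCast_ne_top _) hlo
    rwa [ENNReal.toReal_mul, ENNReal.toReal_ofReal (abs_nonneg _), ENNReal.toReal_natCast,
      abs_of_pos (by positivity)] at this
  have h2 : (((Φ.x0 + X) • A + m • B).card : ℝ) ≤
      Φ.d * ∑ l ∈ range (N + 1), ((X + l).choose l : ℝ) * (slice Φ m l).card := by
    exact_mod_cast hU N A B Φ X m
  have hp : 0 < ((m : ℝ) / y) ^ N := by positivity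
  rw [← mul_le_mul_iff_right₀ hp]
  refine le_trans h1 (le_trans h2 ?_)
  rw [Finset.mul_sum, Finset.mul_sum, Finset.mul_sum]
  refine Finset.sum_le_sum fun l hl => ?_
  have hl' : l ≤ N := Nat.lt_succ_iff.1 (Finset.mem_range.1 hl)
  have h3 := choose_Sel1 N X l w hN hl' hw1 hX2
  refine le_trans (mul_le_mul_of_nonneg_left
    (mul_le_mul_of_nonneg_right h3 (Nat.cast_nonneg _)) (Nat.cast_nonneg _)) (le_of_eq ?_)
  obtain ⟨i, rfl⟩ := Nat.exists_eq_add_of_le hl'
  have hf : (0 : ℝ) < l.factorial := by exact_mod_cast l.factorial_pos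
  rw [Nat.add_sub_cancel_left, hw, div_pow, div_pow, mul_pow, pow_add, pow_add]
  field_simp

end Pool.Agent.MP_5f4cdd_gt.OK

end

section

set_option autoImplicit false
open Finset MeasureTheory
open scoped Pointwise ENNReal

namespace Pool.Agent.MP_5f4cdd_gt.OK

lemma vol_smul_TB {N : ℕ} (X : Set (Rn N)) {R : ℝ} (hR : 0 < R) :
    volume.real (R • X) = R ^ N * volume.real X := by
  rw [measureReal_def, measureReal_def, Measure.addHaar_smul, ENNReal.toReal_mul,
    ENNReal.toReal_ofReal (abs_nonneg _), abs_of_pos (pow_pos hR _)]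
  simp

lemma body_smul_TB {N : ℕ} {K : Set (Rn N)} (hK : Body0 K) (R : ℝ) : Body0 (R • K) :=
  ⟨hK.conv.smul R, hK.cpt.smul R, ⟨0, hK.zero, smul_zero R⟩⟩

lemma hull_smul_TB {N : ℕ} (K K' : Set (Rn N)) (r R : ℝ) :
    hull (R • K) (R • K') r = R • hull K K' r := by
  ext z
  constructor
  · rintro ⟨t, t0, t1, _, ⟨p, hp, rfl⟩, _, ⟨q, hq, rfl⟩, rfl⟩
    refine ⟨_, ⟨t, t0, t1, p, hp, q, hq, rfl⟩, ?_⟩
    simp only [smul_add, smul_comm R]
  · rintro ⟨_, ⟨t, t0, t1, p, hp, q, hq, rfl⟩, rfl⟩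
    refine ⟨t, t0, t1, _, ⟨p, hp, rfl⟩, _, ⟨q, hq, rfl⟩, ?_⟩
    simp only [smul_add, smul_comm R]

lemma thick_smul_TB {N : ℕ} {K : Set (Rn N)} (hK : IsCompact K) {R δ : ℝ} (hR : 0 < R)
    (hδ : 0 ≤ δ) : Metric.cthickening δ (R • K) ⊆ R • Metric.cthickening (δ * R⁻¹) K := by
  intro z hz
  rw [(hK.smul R).cthickening_eq_biUnion_closedBall hδ] at hz
  obtain ⟨_, ⟨p, hp, rfl⟩, hz⟩ := Set.mem_iUnion₂.1 hz
  refine ⟨R⁻¹ • z, ?_, smul_inv_smul₀ hR.ne' z⟩
  refine Metric.mem_cthickening_of_dist_le _ p _ _ hp ?_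
  have h1 : R⁻¹ • z - p = R⁻¹ • (z - R • p) := by
    rw [smul_sub, inv_smul_smul₀ hR.ne']
  rw [dist_eq_norm, h1, norm_smul, Real.norm_of_nonneg (inv_pos.2 hR).le, mul_comm]
  exact mul_le_mul_of_nonneg_right (mem_closedBall_iff_norm.1 hz) (inv_pos.2 hR).le

lemma vol_thick_TB {N : ℕ} {K : Set (Rn N)} (hK : IsCompact K) {R δ : ℝ} (hR : 0 < R)
    (hδ : 0 ≤ δ) : volume.real (Metric.cthickening δ (R • K)) ≤
      R ^ N * volume.real (Metric.cthickening (δ * R⁻¹) K) := by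
  rw [← vol_smul_TB _ hR]
  exact measureReal_mono (thick_smul_TB hK hR hδ)
    ((hK.cthickening.smul R).measure_lt_top.ne)

lemma lim_TB {N : ℕ} {K : Set (Rn N)} (hK : IsCompact K) (δ : ℝ) :
    Filter.Tendsto (fun R : ℝ => volume.real (Metric.cthickening (δ * R⁻¹) K)) Filter.atTop
      (nhds (volume.real K)) := by
  have h1 : Filter.Tendsto (fun R : ℝ => δ * R⁻¹) Filter.atTop (nhds 0) := by
    simpa using tendsto_inv_atTop_zero.const_mul δ
  exact (ENNReal.tendsto_toReal hK.measure_lt_top.ne).comp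
    ((tendsto_measure_cthickening_of_isCompact hK).comp h1)

theorem tb_stmt (h0 : TB0Stmt) : TBStmt := by
  intro N K K' L h1 h2 μ v hN hK hK' p1 p2 hL hL' hμ
  have hN' : (N : ℝ) ≠ 0 := by positivity
  have lim := ((lim_TB hK.cpt 1).mul (lim_TB hK'.cpt 2)).const_mul
    (Real.exp 9 * ((N : ℝ) + 1) ^ 5 * (h1 + h2) ^ N)
  refine ge_of_tendsto lim ?_
  filter_upwards [Filter.eventually_gt_atTop (0 : ℝ)] with R hR
  have hRN : 0 < R ^ N := pow_pos hR N
  have key := h0 N (R • K) (R • K') (R • L) h1 h2 (fun q => R ^ N * μ q) (R • v) hN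
    (body_smul_TB hK R) (body_smul_TB hK' R) p1 p2
    (by
      rintro _ ⟨x, hx, rfl⟩
      obtain ⟨p, hp, rfl⟩ := hL x hx
      exact ⟨R • p, ⟨p, hp, rfl⟩, smul_comm _ _ _⟩)
    (by
      rintro _ ⟨x, hx, rfl⟩
      obtain ⟨q, hq, rfl⟩ := hL' x hx
      exact ⟨R • q, ⟨q, hq, rfl⟩, by simp only [smul_add, smul_comm R]⟩)
    (fun q => ⟨mul_pos hRN (hμ q).1, by
      rw [hull_smul_TB, vol_smul_TB _ hR]
      exact mul_le_mul_of_nonneg_left (hμ q).2 hRN.le⟩)
  have he : Real.exp ((∑ q : Fin N, Real.log (R ^ N * μ q)) / N) =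
      R ^ N * Real.exp ((∑ q, Real.log (μ q)) / N) := by
    rw [Finset.sum_congr rfl fun q _ => Real.log_mul hRN.ne' (hμ q).1.ne', Finset.sum_add_distrib,
      Finset.sum_const, Finset.card_univ, Fintype.card_fin, nsmul_eq_mul, add_div,
      mul_div_cancel_left₀ _ hN', Real.exp_add, Real.exp_log hRN]
  rw [he, vol_smul_TB _ hR] at key
  have hC : 0 ≤ Real.exp 9 * ((N : ℝ) + 1) ^ 5 * (h1 + h2) ^ N := by positivity
  have h3 := mul_le_mul (vol_thick_TB hK.cpt hR zero_le_one) (vol_thick_TB hK'.cpt hR zero_le_two)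
    measureReal_nonneg (mul_nonneg hRN.le measureReal_nonneg)
  have h4 := key.trans (mul_le_mul_of_nonneg_left h3 hC)
  refine le_of_mul_le_mul_left ?_ (mul_pos hRN hRN)
  refine le_of_eq_of_le ?_ (h4.trans_eq ?_) <;> ring

end Pool.Agent.MP_5f4cdd_gt.OK

end
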