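import Pool.Agent.Mg.F5f4cddb.Ga13d99
import Pool.Agent.Mg.F5f4cddb.G521828

set_option linter.all false

section

set_option autoImplicit false
open Set MeasureTheory Matrix
open scoped Pointwise ENNReal

namespace Pool.Agent.MP_5f4cdd_gt.OK

variable {N n : ℕ}

/-! ### Part 6: from the three body inequality to the sharp bound -/

/-- the polar set -/
def pol (K : Set (Rn N)) : Set (Rn N) := {w | ∀ z ∈ K, z ⬝ᵥ w ≤ 1}

/-- a convex body with the origin in its interior -/
structure Body1 (K : Set (Rn N)) : Prop where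
  conv : Convex ℝ K
  cpt : IsCompact K
  zero : (0 : Rn N) ∈ interior K

/-- polarity and the hull keep the class -/
structure PolStmt : Prop where
  body : ∀ (N : ℕ) (K : Set (Rn N)), Body1 K → Body1 (pol K)
  bip : ∀ (N : ℕ) (K : Set (Rn N)), Body1 K → pol (pol K) = K
  hull : ∀ (N : ℕ) (K : Set (Rn N)) (r : ℝ), Body1 K → 0 < r → r < 1 → Body1 (hull K (-K) r)

/-- the Laplace integral of the support function -/
structure LapStmt : Prop where
  eq : ∀ (N : ℕ) (K : Set (Rn N)), IsCompact K → (0 : Rn N) ∈ K →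
    ∫⁻ y, ENNReal.ofReal (Real.exp (-LJ.hs K y)) = (N.factorial : ℝ≥0∞) * volume (pol K)
  top : ∀ (N : ℕ) (K : Set (Rn N)), Convex ℝ K → IsCompact K → (interior K).Nonempty →
    (0 : Rn N) ∉ interior K → ∫⁻ y, ENNReal.ofReal (Real.exp (-LJ.hs K y)) = ⊤

/-- the chord inequality for the polar of the hull -/
def ChThStmt : Prop :=
  ∀ (N : ℕ) (K : Set (Rn N)) (r : ℝ), Body1 K → 0 < r → r < 1 →
    (2 : ℝ) ^ N ≤ volume.real (pol K ∩ -pol K) * N.factorial * volume.real (hull K (-K) r)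

/-- the sharp exponential rate -/
def RateStmt : Prop :=
  ∀ (N : ℕ) (K : Set (Rn N)), 1 ≤ N → Body1 K →
    Real.exp N ≤ Real.exp 9 * (N + 1) ^ 5 *
      (N.factorial * (volume.real K * volume.real (pol K)))

/-- the point with coordinates `t`, `x`, `y` -/
def mk3 (t : ℝ) (x y : Rn n) : Rn (n + n + 1) := Fin.cons t (Fin.append x y)

/-- a join of two copies of `K` -/
def jn (K : Set (Rn n)) (c ε : ℝ) : Set (Rn (n + n + 1)) :=
  {z | ∃ t : ℝ, |t| ≤ 1 ∧ ∃ p ∈ K, ∃ q ∈ K,
    z = mk3 t ((c * (1 + ε * t)) • p) ((c * (1 - ε * t)) • q)}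

def SplitStmt : Prop :=
  ∀ (n : ℕ) (f : Rn (n + n + 1) → ℝ≥0∞), Measurable f →
    ∫⁻ z, f z = ∫⁻ t : ℝ, ∫⁻ x : Rn n, ∫⁻ y : Rn n, f (mk3 t x y)

def BetaStmt : Prop :=
  ∀ n : ℕ, ((n + n + 1).factorial : ℝ) * ∫ t in (-1 : ℝ)..1, (1 + t) ^ n * (1 - t) ^ n =
    2 ^ (n + n + 1) * (n.factorial : ℝ) ^ 2

structure JnGeoStmt : Prop where
  cpt : ∀ (n : ℕ) (K : Set (Rn n)) (c ε : ℝ), IsCompact K → IsCompact (jn K c ε)
  body : ∀ (n : ℕ) (K : Set (Rn n)), Body1 K → Body1 (jn K 1 1)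
  polar : ∀ (n : ℕ) (K : Set (Rn n)), Body1 K →
    pol (jn K 1 1) ⊆ jn (pol K) (1 / 2) (-1)

def JnVolStmt : Prop :=
  ∀ (n : ℕ) (K : Set (Rn n)) (c ε : ℝ), IsCompact K → 0 < c → (ε = 1 ∨ ε = -1) →
    ((n + n + 1).factorial : ℝ) * volume.real (jn K c ε) ≤
      2 ^ (n + n + 1) * (c ^ n * n.factorial * volume.real K) ^ 2

/-- the Mahler volume divided by that of the simplex -/
noncomputable def zed (K : Set (Rn N)) : ℝ :=
  (N.factorial : ℝ) ^ 2 * (volume.real K * volume.real (pol K)) / ((N : ℝ) + 1) ^ (N + 1)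

def JoinStmt : Prop :=
  ∀ (n : ℕ) (K : Set (Rn n)), Body1 K →
    ∃ J : Set (Rn (n + n + 1)), Body1 J ∧ zed J ≤ zed K ^ 2

def SharpStmt : Prop := ∀ (n : ℕ) (K : Set (Rn n)), Body1 K → 1 ≤ zed K

def FinalStmt : Prop :=
  ∀ (n : ℕ) (K : Set (Rn n)), Convex ℝ K → IsCompact K → (interior K).Nonempty →
    ENNReal.ofReal (((n : ℝ) + 1) ^ (n + 1) / n.factorial) ≤
      volume K * ∫⁻ y, ENNReal.ofReal (Real.exp (-LJ.hs K y))

end Pool.Agent.MP_5f4cdd_gt.OK

end

section

set_option autoImplicit false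
open Set MeasureTheory Matrix
open scoped Pointwise ENNReal

namespace Pool.Agent.MP_5f4cdd_gt.OK

open Filter Bornology
open scoped Topology

variable {n : ℕ}

theorem bddAbove_dot_ELap {L : Set (Rn n)} (hL : IsBounded L) (y : Rn n) :
    BddAbove ((fun x : Rn n => ∑ i, x i * y i) '' L) := by
  have hc : Continuous fun x : Rn n => ∑ i, x i * y i := by fun_prop
  exact ((hL.isCompact_closure.image hc).bddAbove).mono (image_mono subset_closure)

theorem dot_le_suppF_ELap {L : Set (Rn n)} (hL : IsBounded L) {x : Rn n} (hx : x ∈ L) (y : Rn n) :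
    x ⬝ᵥ y ≤ LJ.hs L y := le_csSup (bddAbove_dot_ELap hL y) ⟨x, hx, rfl⟩

theorem suppF_le_ELap {L : Set (Rn n)} (hL : L.Nonempty) {y : Rn n} {C : ℝ} (h : ∀ x ∈ L, x ⬝ᵥ y ≤ C) :
    LJ.hs L y ≤ C := by
  refine csSup_le (hL.image _) ?_
  rintro _ ⟨x, hx, rfl⟩
  exact h x hx

theorem convexOn_suppF_ELap {L : Set (Rn n)} (hL : IsBounded L) (hn : L.Nonempty) :
    ConvexOn ℝ univ (LJ.hs L) := by
  refine ⟨convex_univ, fun u _ v _ a b ha hb _ => suppF_le_ELap hn fun x hx => ?_⟩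
  simp only [dotProduct_add, dotProduct_smul, smul_eq_mul]
  exact add_le_add (mul_le_mul_of_nonneg_left (dot_le_suppF_ELap hL hx u) ha)
    (mul_le_mul_of_nonneg_left (dot_le_suppF_ELap hL hx v) hb)

theorem continuous_suppF_ELap {L : Set (Rn n)} (hL : IsBounded L) : Continuous (LJ.hs L) := by
  rcases L.eq_empty_or_nonempty with rfl | hn
  · have : LJ.hs (∅ : Set (Rn n)) = fun _ => 0 := by ext y; simp [LJ.hs]
    rw [this]; exact continuous_const
  · exact continuousOn_univ.1 ((convexOn_suppF_ELap hL hn).continuousOn isOpen_univ)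

theorem isClosed_polarS_ELap (L : Set (Rn n)) : IsClosed (pol L) := by
  have : pol L = ⋂ z ∈ L, {w | z ⬝ᵥ w ≤ 1} := by ext w; simp [pol]
  rw [this]
  exact isClosed_biInter fun z _ => isClosed_le (by fun_prop) continuous_const

theorem suppF_le_iff_ELap {L : Set (Rn n)} (hL : IsBounded L) (hn : L.Nonempty) {y : Rn n} {C : ℝ} :
    LJ.hs L y ≤ C ↔ ∀ x ∈ L, x ⬝ᵥ y ≤ C :=
  ⟨fun h _ hx => (dot_le_suppF_ELap hL hx y).trans h, suppF_le_ELap hn⟩

theorem level_eq_smul_ELap {L : Set (Rn n)} (hL : IsBounded L) (hn : L.Nonempty) {s : ℝ} (hs : 0 < s) :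
    {y | LJ.hs L y ≤ s} = s • pol L := by
  ext y
  rw [mem_smul_set_iff_inv_smul_mem₀ hs.ne']
  simp only [mem_ofPred_eq, suppF_le_iff_ELap hL hn, pol, dotProduct_smul, smul_eq_mul,
    inv_mul_le_iff₀ hs, mul_one]

theorem lintegral_gamma_ELap (n : ℕ) :
    ∫⁻ s in Ioi (0 : ℝ), ENNReal.ofReal (Real.exp (-s) * s ^ n) = (n.factorial : ℝ≥0∞) := by
  have h0 : (0 : ℝ) < n + 1 := by positivity
  have h1 := Real.GammaIntegral_convergent h0
  have h2 := Real.Gamma_eq_integral h0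
  rw [Real.Gamma_nat_eq_factorial] at h2
  simp only [add_sub_cancel_right, Real.rpow_natCast] at h1 h2
  rw [← ofReal_integral_eq_lintegral_ofReal h1, ← h2, ENNReal.ofReal_natCast]
  filter_upwards [ae_restrict_mem measurableSet_Ioi] with s hs
  exact mul_nonneg (Real.exp_pos _).le (pow_nonneg (le_of_lt hs) _)

theorem exp_neg_eq_ELap {h : ℝ} (hh : 0 ≤ h) : ENNReal.ofReal (Real.exp (-h)) =
    ∫⁻ s in Ioi (0 : ℝ), (Ici h).indicator (fun s => ENNReal.ofReal (Real.exp (-s))) s := by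
  rw [lintegral_indicator measurableSet_Ici, Measure.restrict_restrict measurableSet_Ici,
    ← integral_exp_neg_Ioi h, ofReal_integral_eq_lintegral_ofReal (integrableOn_exp_neg_Ioi h)
      (Eventually.of_forall fun s => (Real.exp_pos _).le)]
  refine setLIntegral_congr ?_
  have : ∀ᵐ s : ℝ, s ≠ h := by simp [ae_iff]
  filter_upwards [this] with s hs
  refine propext ⟨fun h1 => ⟨le_of_lt h1, lt_of_le_of_lt hh h1⟩, fun h1 => ?_⟩
  exact lt_of_le_of_ne h1.1 hs.symm

/-- layer cake formula for the polar volume -/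
theorem lintegral_expS_ELap {L : Set (Rn n)} (hL : IsBounded L) (h0 : (0 : Rn n) ∈ L) :
    ∫⁻ y, ENNReal.ofReal (Real.exp (-LJ.hs L y)) = (n.factorial : ℝ≥0∞) * volume (pol L) := by
  have hn : L.Nonempty := ⟨0, h0⟩
  have hpos : ∀ y, 0 ≤ LJ.hs L y := fun y => by simpa using dot_le_suppF_ELap hL h0 y
  have hm := (continuous_suppF_ELap hL).measurable
  simp only [exp_neg_eq_ELap (hpos _)]
  rw [lintegral_lintegral_swap]
  · rw [← lintegral_gamma_ELap, ← lintegral_mul_const _ (by fun_prop)]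
    refine setLIntegral_congr_fun measurableSet_Ioi fun s hs => ?_
    have hs' : 0 < s := hs
    have e : ∀ y, (Ici (LJ.hs L y)).indicator (fun s => ENNReal.ofReal (Real.exp (-s))) s =
        {y | LJ.hs L y ≤ s}.indicator (fun _ => ENNReal.ofReal (Real.exp (-s))) y := fun y => by
      simp only [indicator, mem_Ici, mem_ofPred_eq]
    simp only [e]
    rw [lintegral_indicator (measurableSet_le hm measurable_const), setLIntegral_const,
      level_eq_smul_ELap hL hn hs', Measure.addHaar_smul, ENNReal.ofReal_mul (Real.exp_pos _).le,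
      mul_assoc]
    simp [abs_of_pos hs']
  · have e : (Function.uncurry fun (y : Rn n) (s : ℝ) =>
        (Ici (LJ.hs L y)).indicator (fun s => ENNReal.ofReal (Real.exp (-s))) s) =
        {q : Rn n × ℝ | LJ.hs L q.1 ≤ q.2}.indicator
          (fun q => ENNReal.ofReal (Real.exp (-q.2))) := by
      ext q
      simp only [Function.uncurry, indicator, mem_Ici, mem_ofPred_eq]
    rw [e]
    exact (Measurable.indicator (by fun_prop)
      (measurableSet_le (hm.comp measurable_fst) measurable_snd)).aemeasurable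

theorem exists_ball_dot_le_ELap {L : Set (Rn n)} (hL : IsBounded L) :
    ∃ ε > 0, ∀ w ∈ Metric.ball (0 : Rn n) ε, ∀ z ∈ L, z ⬝ᵥ w ≤ 1 := by
  have hc := continuous_suppF_ELap hL
  rcases L.eq_empty_or_nonempty with rfl | hn
  · exact ⟨1, one_pos, by simp⟩
  have h0 : LJ.hs L 0 < 1 := lt_of_le_of_lt (suppF_le_ELap hn (C := 0) (by simp)) one_pos
  obtain ⟨ε, hε, hb⟩ := Metric.mem_nhds_iff.1 ((isOpen_lt hc continuous_const).mem_nhds h0)
  exact ⟨ε, hε, fun w hw z hz => (dot_le_suppF_ELap hL hz w).trans (le_of_lt (hb hw))⟩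

theorem volume_polarS_eq_top_ELap {L : Set (Rn n)} (hL : IsBounded L) {v : Rn n} (hv : v ≠ 0)
    (h : ∀ z ∈ L, z ⬝ᵥ v ≤ 0) : volume (pol L) = ∞ := by
  obtain ⟨ε, hε, hb⟩ := exists_ball_dot_le_ELap hL
  have hv' : 0 < ‖v‖ := norm_pos_iff.2 hv
  set r := 2 * ε / ‖v‖ with hr
  have hr0 : 0 < r := by positivity
  have hsub : (⋃ k : ℕ, Metric.ball ((k * r) • v) ε) ⊆ pol L := by
    refine iUnion_subset fun k w hw z hz => ?_
    have h1 := hb (w - (k * r) • v) (by rwa [mem_ball_zero_iff, ← dist_eq_norm]) z hz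
    have h2 := mul_nonpos_of_nonneg_of_nonpos (by positivity : (0 : ℝ) ≤ k * r) (h z hz)
    rw [dotProduct_sub, dotProduct_smul, smul_eq_mul] at h1
    linarith
  have hdis : Pairwise (Function.onFun Disjoint fun k : ℕ => Metric.ball ((k * r) • v) ε) := by
    intro k l hkl
    refine Metric.ball_disjoint_ball ?_
    rw [dist_eq_norm, ← sub_smul, norm_smul, ← sub_mul, Real.norm_eq_abs, abs_mul, abs_of_pos hr0,
      mul_assoc, hr, div_mul_cancel₀ _ hv'.ne']
    have : (1 : ℝ) ≤ |(k : ℝ) - l| := by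
      have h1 : (1 : ℤ) ≤ |(k : ℤ) - l| := Int.one_le_abs (sub_ne_zero.2 (by exact_mod_cast hkl))
      exact_mod_cast h1
    nlinarith
  refine top_le_iff.1 (le_trans (le_of_eq ?_) (measure_mono hsub))
  rw [measure_iUnion hdis fun _ => measurableSet_ball]
  simp only [Measure.addHaar_ball_center]
  exact (ENNReal.tsum_const_eq_top_of_ne_zero (Metric.measure_ball_pos volume _ hε).ne').symm

theorem volume_polarS_le_ELap {L : Set (Rn n)} (hn : L.Nonempty) :
    ENNReal.ofReal (Real.exp (-1)) * volume (pol L) ≤ ∫⁻ y, ENNReal.ofReal (Real.exp (-LJ.hs L y)) := by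
  rw [← setLIntegral_const]
  refine (setLIntegral_mono' (isClosed_polarS_ELap L).measurableSet fun y hy => ?_).trans
    (setLIntegral_le_lintegral _ _)
  exact ENNReal.ofReal_le_ofReal (Real.exp_le_exp.2 (neg_le_neg (suppF_le_ELap hn hy)))

theorem exists_dot_eq_ELap (f : Rn n →L[ℝ] ℝ) : ∃ v : Rn n, ∀ z, f z = z ⬝ᵥ v := by
  refine ⟨fun i => f (Pi.single i 1), fun z => ?_⟩
  conv_lhs => rw [← Finset.univ_sum_single z]
  rw [map_sum, dotProduct]
  refine Finset.sum_congr rfl fun i _ => ?_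
  rw [← smul_eq_mul, ← map_smul, ← Pi.single_smul', smul_eq_mul, mul_one]

theorem exists_sep_ELap {K : Set (Rn n)} (hK : Convex ℝ K) (hi : (interior K).Nonempty) {c : Rn n}
    (hc : c ∉ interior K) : ∃ v : Rn n, v ≠ 0 ∧ ∀ z ∈ K, (z - c) ⬝ᵥ v ≤ 0 := by
  obtain ⟨f, hf, h⟩ := geometric_hahn_banach_of_nonempty_interior_point hK hc hi
  obtain ⟨v, hv⟩ := exists_dot_eq_ELap f
  refine ⟨v, fun h0 => hf ?_, fun z hz => ?_⟩
  · ext z; simp [hv, h0]
  · rw [sub_dotProduct, ← hv, ← hv]; linarith [h z hz]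

theorem lap_stmt : LapStmt := by
  refine ⟨fun N K hc h0 => lintegral_expS_ELap hc.isBounded h0, fun N K hK hc hi h0 => ?_⟩
  obtain ⟨v, hv, h⟩ := exists_sep_ELap hK hi h0
  have h1 := volume_polarS_le_ELap (hi.mono interior_subset)
  rw [volume_polarS_eq_top_ELap hc.isBounded hv (fun z hz => by simpa using h z hz),
    ENNReal.mul_top (by simpa using Real.exp_pos _)] at h1
  exact top_le_iff.1 h1

end Pool.Agent.MP_5f4cdd_gt.OK

end

section

set_option autoImplicit false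
open Set MeasureTheory Matrix
open scoped Pointwise ENNReal

namespace Pool.Agent.MP_5f4cdd_gt.OK

theorem hs_le_EChTh {N : ℕ} {K : Set (Rn N)} (hne : K.Nonempty) {y : Rn N} {c : ℝ}
    (h : ∀ x ∈ K, ∑ i, x i * y i ≤ c) : LJ.hs K y ≤ c := by
  refine csSup_le (hne.image _) ?_
  rintro _ ⟨x, hx, rfl⟩
  exact h x hx

theorem le_hs_EChTh {N : ℕ} {K : Set (Rn N)} (hK : IsCompact K) {x : Rn N} (hx : x ∈ K)
    (y : Rn N) : ∑ i, x i * y i ≤ LJ.hs K y :=
  le_csSup (hK.image (by fun_prop)).bddAbove ⟨x, hx, rfl⟩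

theorem dot_le_EChTh {N : ℕ} {K : Set (Rn N)} (hK : IsCompact K) (h0 : (0 : Rn N) ∈ interior K)
    {s t : ℝ} (hs : 0 < s) (ht : 0 < t) (hst : s + t = 1) {x y : Rn N}
    (ha : s * LJ.hs K y ≤ 1) (hb : t * LJ.hs K (-y) ≤ 1)
    (hx : (LJ.hs K y + LJ.hs K (-y)) * ∑ i, x i * y i ≤ LJ.hs K y * LJ.hs K (-y)) :
    ∑ i, x i * y i ≤ 1 := by
  have h0' : (0 : Rn N) ∈ K := interior_subset h0
  have a0 : 0 ≤ LJ.hs K y := by simpa using le_hs_EChTh hK h0' y
  have b0 : 0 ≤ LJ.hs K (-y) := by simpa using le_hs_EChTh hK h0' (-y)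
  by_contra hcon
  rw [not_le] at hcon
  have p4 : 0 < LJ.hs K y := by
    have hc : Continuous fun u : ℝ => u • x := by fun_prop
    have h1 : ∀ᶠ u : ℝ in nhds 0, u • x ∈ K := by
      refine hc.continuousAt.eventually_mem ?_
      simpa using mem_interior_iff_mem_nhds.1 h0
    obtain ⟨u, hu, hu0⟩ := ((h1.filter_mono (nhdsWithin_le_nhds (s := Ioi 0))).and
      self_mem_nhdsWithin).exists
    have h2 := le_hs_EChTh hK hu y
    have e : ∑ i, (u • x) i * y i = u * ∑ i, x i * y i := by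
      rw [Finset.mul_sum]
      refine Finset.sum_congr rfl fun i _ => ?_
      simp only [Pi.smul_apply, smul_eq_mul]
      ring
    rw [e] at h2
    have hu1 : 0 < u := hu0
    exact lt_of_lt_of_le (mul_pos hu1 (by linarith)) h2
  set a := LJ.hs K y
  set b := LJ.hs K (-y)
  have h3 : a * b ≤ a + b := by
    have e : a * b = (s * a) * b + (t * b) * a := by linear_combination (-(a * b)) * hst
    have := mul_le_mul_of_nonneg_right ha b0
    have := mul_le_mul_of_nonneg_right hb a0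
    linarith
  have h4 : (a + b) * 1 < (a + b) * ∑ i, x i * y i := mul_lt_mul_of_pos_left hcon (by linarith)
  linarith

theorem chth_stmt (hc : LJ.ChordStmt) (hp : PolStmt) (hl : LapStmt) : ChThStmt := by
  intro N K r hK hr0 hr1
  set H := hull K (-K) r with hH
  have bH : Body1 H := hp.hull N K r hK hr0 hr1
  have b2 : Body1 (pol H) := hp.body N H bH
  have bP : Body1 (pol K) := hp.body N K hK
  have hK0 : (0 : Rn N) ∈ K := interior_subset hK.zero
  have h20 : (0 : Rn N) ∈ pol H := interior_subset b2.zero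
  have main := hc N (pol H) b2.cpt b2.zero
  rw [hl.eq N (pol H) b2.cpt h20, hp.bip N H bH] at main
  have m1 : ∀ y ∈ K, (1 - r) * LJ.hs (pol H) y ≤ 1 := by
    intro y hy
    have hm : (1 - r) • y ∈ H :=
      ⟨0, le_rfl, zero_le_one, y, hy, 0, by simpa using hK0, by simp⟩
    have : LJ.hs (pol H) y ≤ 1 / (1 - r) := by
      refine hs_le_EChTh ⟨0, h20⟩ fun w hw => ?_
      have h1 := hw _ hm
      rw [smul_dotProduct, smul_eq_mul, dotProduct_comm] at h1
      rw [le_div_iff₀ (by linarith), mul_comm]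
      exact h1
    rwa [le_div_iff₀ (by linarith), mul_comm] at this
  have m2 : ∀ y ∈ K, r * LJ.hs (pol H) (-y) ≤ 1 := by
    intro y hy
    have hm : r • (-y) ∈ H :=
      ⟨1, zero_le_one, le_rfl, 0, hK0, -y, by simpa using hy, by simp⟩
    have : LJ.hs (pol H) (-y) ≤ 1 / r := by
      refine hs_le_EChTh ⟨0, h20⟩ fun w hw => ?_
      have h1 := hw _ hm
      rw [smul_dotProduct, smul_eq_mul, dotProduct_comm] at h1
      rw [le_div_iff₀ hr0, mul_comm]
      exact h1
    rwa [le_div_iff₀ hr0, mul_comm] at this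
  have hsub : {x : Fin N → ℝ | ∀ y, (LJ.hs (pol H) y + LJ.hs (pol H) (-y)) * ∑ i, x i * y i ≤
      LJ.hs (pol H) y * LJ.hs (pol H) (-y)} ⊆ pol K ∩ -pol K := by
    intro x hx
    refine ⟨fun y hy => ?_, fun y hy => ?_⟩
    · rw [dotProduct_comm]
      exact dot_le_EChTh b2.cpt b2.zero (by linarith : 0 < 1 - r) hr0 (by ring) (m1 y hy)
        (m2 y hy) (hx y)
    · have h1 := dot_le_EChTh (x := x) (y := -y) b2.cpt b2.zero hr0 (by linarith : 0 < 1 - r)
        (by ring) (m2 y hy) (by rw [neg_neg]; exact m1 y hy) (hx (-y))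
      rw [dotProduct_neg, dotProduct_comm, ← dotProduct_neg]
      exact h1
  have f1 : volume (pol K ∩ -pol K) ≠ ⊤ :=
    ne_top_of_le_ne_top bP.cpt.measure_lt_top.ne (measure_mono inter_subset_left)
  have f2 : volume H ≠ ⊤ := bH.cpt.measure_lt_top.ne
  have h2 : (2 : ℝ≥0∞) ^ N ≤ volume (pol K ∩ -pol K) * ((N.factorial : ℝ≥0∞) * volume H) :=
    main.trans (mul_le_mul' (measure_mono hsub) le_rfl)
  have h3 := ENNReal.toReal_mono
    (ENNReal.mul_ne_top f1 (ENNReal.mul_ne_top (ENNReal.natCast_ne_top _) f2)) h2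
  simp only [ENNReal.toReal_mul, ENNReal.toReal_pow, ENNReal.toReal_ofNat,
    ENNReal.toReal_natCast] at h3
  simpa only [Measure.real, mul_assoc] using h3

end Pool.Agent.MP_5f4cdd_gt.OK

end

section

set_option autoImplicit false
open Set MeasureTheory Matrix
open scoped Pointwise ENNReal

namespace Pool.Agent.MP_5f4cdd_gt.OK

theorem pos_of_mul_pos_of_nonneg_ERate {a b : ℝ} (h : 0 < a * b) (hb : 0 ≤ b) : 0 < a :=
  (pos_iff_pos_of_mul_pos h).2 (hb.lt_of_ne fun e => by simp [← e] at h)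

theorem one_ERate (tb : TBStmt) (hc : ChThStmt) {N : ℕ} {P : Set (Rn N)} (hN : 1 ≤ N)
    (hP : Body1 P) : 0 < volume.real (pol P ∩ -pol P) ∧
      volume.real (P ∩ -P) * Real.exp N ≤ Real.exp 9 * (N + 1) ^ 5 *
        (volume.real (pol P ∩ -pol P) * N.factorial * (volume.real P * volume.real P)) := by
  have h2 : (0 : ℝ) < 2 ^ N := by positivity
  have h0 : 0 < volume.real (pol P ∩ -pol P) * N.factorial :=
    pos_of_mul_pos_of_nonneg_ERate (h2.trans_le (hc N P (1 / 2) hP (by norm_num) (by norm_num)))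
      measureReal_nonneg
  have hz := interior_subset hP.zero
  have h := tb N P (-P) (P ∩ -P) 1 1
    (fun _ => 2 ^ N / (volume.real (pol P ∩ -pol P) * N.factorial)) 0 hN ⟨hP.conv, hP.cpt, hz⟩
    ⟨hP.conv.neg, hP.cpt.neg, by simpa using hz⟩ one_pos one_pos
    (fun x hx => ⟨x, hx.1, (one_smul _ _).symm⟩) (fun x hx => ⟨x, hx.2, by simp⟩) fun q =>
      ⟨div_pos h2 h0, (div_le_iff₀' h0).2 (hc N P _ hP (by unfold rq; positivity) (by
        rw [rq, div_lt_one (by positivity)]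
        exact_mod_cast Nat.succ_lt_succ q.2))⟩
  have hN' : (N : ℝ) ≠ 0 := Nat.cast_ne_zero.2 (by omega)
  have hn : volume.real (-P) = volume.real P := by
    rw [measureReal_def, Measure.measure_neg, measureReal_def]
  rw [Finset.sum_const, Finset.card_univ, Fintype.card_fin, nsmul_eq_mul, mul_div_cancel_left₀ _ hN',
    Real.exp_log (div_pos h2 h0), one_add_one_eq_two, hn] at h
  have h3 := pos_of_mul_pos_of_nonneg_ERate h0 (Nat.cast_nonneg _)
  refine ⟨h3, ?_⟩
  refine le_of_mul_le_mul_left (le_trans (le_of_eq ?_) (h.trans_eq ?_)) (div_pos h2 h0)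
  · ring
  · field_simp

theorem rate_stmt (tb : TBStmt) (hc : ChThStmt) (hp : PolStmt) : RateStmt := by
  intro N K hN hK
  obtain ⟨a0, a1⟩ := one_ERate tb hc hN hK
  obtain ⟨b0, b1⟩ := one_ERate tb hc hN (hp.body N K hK)
  rw [hp.bip N K hK] at b0 b1
  have h := mul_le_mul a1 b1 (by positivity) (by positivity)
  refine (pow_le_pow_iff_left₀ (by positivity) (by positivity) two_ne_zero).1
    (le_of_mul_le_mul_left (le_trans (le_of_eq ?_) (h.trans_eq ?_)) (mul_pos a0 b0)) <;> ring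

end Pool.Agent.MP_5f4cdd_gt.OK

end

section

set_option autoImplicit false
open Set MeasureTheory Matrix
open scoped Pointwise ENNReal

namespace Pool.Agent.MP_5f4cdd_gt.OK

theorem mk3_inj_EJnVol {n : ℕ} {t t' : ℝ} {x y x' y' : Rn n} (h : mk3 t x y = mk3 t' x' y') :
    t = t' ∧ x = x' ∧ y = y' := by
  refine ⟨?_, ?_, ?_⟩
  · simpa [mk3] using congrFun h 0
  · funext i
    simpa [mk3] using congrFun h (Fin.castAdd n i).succ
  · funext i
    simpa only [mk3, Fin.cons_succ, Fin.append_right] using congrFun h (Fin.natAdd n i).succ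

theorem slice_EJnVol {n : ℕ} (K : Set (Rn n)) (c ε t : ℝ) :
    ∫⁻ x : Rn n, ∫⁻ y : Rn n, (jn K c ε).indicator (1 : Rn (n + n + 1) → ℝ≥0∞) (mk3 t x y) ≤
      (Icc (-1 : ℝ) 1).indicator (fun t => volume ((c * (1 + ε * t)) • K) *
        volume ((c * (1 - ε * t)) • K)) t := by
  by_cases ht : t ∈ Icc (-1 : ℝ) 1
  · rw [indicator_of_mem ht]
    calc ∫⁻ x : Rn n, ∫⁻ y : Rn n,
          (jn K c ε).indicator (1 : Rn (n + n + 1) → ℝ≥0∞) (mk3 t x y)
        ≤ ∫⁻ x : Rn n, ((c * (1 + ε * t)) • K).indicator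
            (fun _ => volume ((c * (1 - ε * t)) • K)) x := by
          refine lintegral_mono fun x => ?_
          by_cases hx : x ∈ (c * (1 + ε * t)) • K
          · rw [indicator_of_mem hx]
            refine le_trans (lintegral_mono fun y => ?_) (lintegral_indicator_one_le _)
            by_cases hz : mk3 t x y ∈ jn K c ε
            · obtain ⟨t', -, p, -, q, hq, h⟩ := id hz
              obtain ⟨rfl, -, rfl⟩ := mk3_inj_EJnVol h
              rw [indicator_of_mem hz, indicator_of_mem (smul_mem_smul_set hq)]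
              exact le_rfl
            · rw [indicator_of_notMem hz]
              exact zero_le
          · rw [indicator_of_notMem hx]
            have : ∀ y : Rn n,
                (jn K c ε).indicator (1 : Rn (n + n + 1) → ℝ≥0∞) (mk3 t x y) = 0 := by
              intro y
              refine indicator_of_notMem ?_ _
              rintro ⟨t', -, p, hp, q, -, h⟩
              obtain ⟨rfl, rfl, -⟩ := mk3_inj_EJnVol h
              exact hx (smul_mem_smul_set hp)
            simp [this]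
      _ ≤ volume ((c * (1 - ε * t)) • K) * volume ((c * (1 + ε * t)) • K) :=
          lintegral_indicator_const_le _ _
      _ = _ := mul_comm _ _
  · rw [indicator_of_notMem ht]
    have : ∀ x y : Rn n,
        (jn K c ε).indicator (1 : Rn (n + n + 1) → ℝ≥0∞) (mk3 t x y) = 0 := by
      intro x y
      refine indicator_of_notMem ?_ _
      rintro ⟨t', ht', p, -, q, -, h⟩
      obtain ⟨rfl, -, -⟩ := mk3_inj_EJnVol h
      exact ht (abs_le.1 ht')
    simp [this]

theorem smul_vol_EJnVol {n : ℕ} (K : Set (Rn n)) (hK : IsCompact K) (a : ℝ) (ha : 0 ≤ a) :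
    volume (a • K) = ENNReal.ofReal (a ^ n * volume.real K) := by
  rw [Measure.addHaar_smul, Module.finrank_fin_fun, abs_of_nonneg (pow_nonneg ha n),
    ENNReal.ofReal_mul (pow_nonneg ha n), ofReal_measureReal hK.measure_lt_top.ne]

theorem jnvol_stmt (hs : SplitStmt) (hb : BetaStmt) (hg : JnGeoStmt) : JnVolStmt := by
  intro n K c ε hK hc hε
  have hm : MeasurableSet (jn K c ε) := (hg.cpt n K c ε hK).measurableSet
  set V : ℝ := volume.real K with hV
  have hV0 : 0 ≤ V := measureReal_nonneg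
  set f : ℝ → ℝ := fun t => (c ^ n * V) ^ 2 * ((1 + t) ^ n * (1 - t) ^ n) with hf
  have hfc : Continuous f := by fun_prop
  have hf0 : ∀ t ∈ Icc (-1 : ℝ) 1, 0 ≤ f t := fun t ht => by
    have h1 : 0 ≤ 1 + t := by linarith [ht.1]
    have h2 : 0 ≤ 1 - t := by linarith [ht.2]
    positivity
  have h1 : volume (jn K c ε) ≤ ENNReal.ofReal (∫ t in Icc (-1 : ℝ) 1, f t) := by
    rw [← lintegral_indicator_one hm, hs n _ (measurable_one.indicator hm)]
    refine le_trans (lintegral_mono fun t => slice_EJnVol K c ε t) ?_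
    rw [lintegral_indicator measurableSet_Icc,
      ofReal_integral_eq_lintegral_ofReal hfc.integrableOn_Icc
        ((ae_restrict_iff' measurableSet_Icc).2 (Filter.Eventually.of_forall hf0))]
    refine setLIntegral_mono' measurableSet_Icc fun t ht => le_of_eq ?_
    have h1 : 0 ≤ 1 + t := by linarith [ht.1]
    have h2 : 0 ≤ 1 - t := by linarith [ht.2]
    have ha : 0 ≤ c * (1 + ε * t) := by
      rcases hε with rfl | rfl
      · exact mul_nonneg hc.le (by linarith)
      · exact mul_nonneg hc.le (by linarith)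
    have hb' : 0 ≤ c * (1 - ε * t) := by
      rcases hε with rfl | rfl
      · exact mul_nonneg hc.le (by linarith)
      · exact mul_nonneg hc.le (by linarith)
    rw [smul_vol_EJnVol K hK _ ha, smul_vol_EJnVol K hK _ hb',
      ← ENNReal.ofReal_mul (mul_nonneg (pow_nonneg ha n) hV0)]
    congr 1
    rcases hε with rfl | rfl
    · simp only [hf, one_mul, mul_pow]
      ring
    · simp only [hf, neg_mul, one_mul, sub_neg_eq_add, ← sub_eq_add_neg, mul_pow]
      ring
  have h0 : 0 ≤ ∫ t in Icc (-1 : ℝ) 1, f t := setIntegral_nonneg measurableSet_Icc hf0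
  have h2 : volume.real (jn K c ε) ≤ ∫ t in Icc (-1 : ℝ) 1, f t :=
    ENNReal.toReal_le_of_le_ofReal h0 h1
  have h3 : ∫ t in Icc (-1 : ℝ) 1, f t =
      (c ^ n * V) ^ 2 * ∫ t in (-1 : ℝ)..1, (1 + t) ^ n * (1 - t) ^ n := by
    rw [integral_Icc_eq_integral_Ioc, ← intervalIntegral.integral_of_le (by norm_num),
      intervalIntegral.integral_const_mul]
  calc ((n + n + 1).factorial : ℝ) * volume.real (jn K c ε)
      ≤ ((n + n + 1).factorial : ℝ) * ∫ t in Icc (-1 : ℝ) 1, f t :=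
        mul_le_mul_of_nonneg_left h2 (by positivity)
    _ = (c ^ n * V) ^ 2 * (((n + n + 1).factorial : ℝ) *
          ∫ t in (-1 : ℝ)..1, (1 + t) ^ n * (1 - t) ^ n) := by rw [h3]; ring
    _ = _ := by rw [hb n]; ring

end Pool.Agent.MP_5f4cdd_gt.OK

end

section

set_option autoImplicit false
open Set MeasureTheory Matrix Filter Topology
open scoped Pointwise ENNReal

namespace Pool.Agent.MP_5f4cdd_gt.OK

theorem zed_nonneg {N : ℕ} (K : Set (Rn N)) : 0 ≤ zed K := by
  unfold zed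
  have h1 : 0 ≤ volume.real K := measureReal_nonneg
  have h2 : 0 ≤ volume.real (pol K) := measureReal_nonneg
  positivity

theorem join_stmt (hp : PolStmt) (hg : JnGeoStmt) (hv : JnVolStmt) : JoinStmt := by
  intro n K hK
  refine ⟨jn K 1 1, hg.body n K hK, ?_⟩
  have hQ := hp.body n K hK
  have h1 := hv n K 1 1 hK.cpt one_pos (Or.inl rfl)
  have h2 := hv n (pol K) (1 / 2) (-1) hQ.cpt (by norm_num) (Or.inr rfl)
  have h3 : volume.real (pol (jn K 1 1)) ≤ volume.real (jn (pol K) (1 / 2) (-1)) :=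
    measureReal_mono (hg.polar n K hK) (hg.cpt n _ _ _ hQ.cpt).measure_lt_top.ne
  have hf : (0 : ℝ) ≤ (n + n + 1).factorial := Nat.cast_nonneg _
  have h4 := (mul_le_mul_of_nonneg_left h3 hf).trans h2
  have a0 : 0 ≤ volume.real (jn K 1 1) := measureReal_nonneg
  have a1 : 0 ≤ volume.real (pol (jn K 1 1)) := measureReal_nonneg
  have h5 := mul_le_mul h1 h4 (mul_nonneg hf a1) (by positivity)
  unfold zed
  have hn : (0 : ℝ) < (n : ℝ) + 1 := by positivity
  have e1 : (((n + n + 1 : ℕ) : ℝ) + 1) ^ (n + n + 1 + 1) =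
      2 ^ (n + n + 1 + 1) * (((n : ℝ) + 1) ^ (n + 1)) ^ 2 := by
    rw [← pow_mul, show (n + 1) * 2 = n + n + 1 + 1 by ring, ← mul_pow]
    congr 1
    push_cast
    ring
  rw [e1, div_pow, div_le_div_iff₀ (by positivity) (by positivity)]
  have e2 : (2 : ℝ) ^ (n + n + 1) * (1 ^ n * n.factorial * volume.real K) ^ 2 *
      (2 ^ (n + n + 1) * ((1 / 2) ^ n * n.factorial * volume.real (pol K)) ^ 2) =
      2 ^ (n + n + 1 + 1) * ((n.factorial : ℝ) ^ 2 * (volume.real K * volume.real (pol K))) ^ 2 := by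
    have : (2 : ℝ) ^ n * (1 / 2) ^ n = 1 := by rw [← mul_pow]; norm_num
    calc _ = 2 ^ (n + n + 1 + 1) * ((n.factorial : ℝ) ^ 2 *
          (volume.real K * volume.real (pol K))) ^ 2 * (2 ^ n * (1 / 2) ^ n) ^ 2 := by ring
      _ = _ := by rw [this]; ring
  rw [e2] at h5
  have h6 := mul_le_mul_of_nonneg_right h5 (by positivity : 0 ≤ (((n : ℝ) + 1) ^ (n + 1)) ^ 2)
  calc _ = ((n + n + 1).factorial : ℝ) * volume.real (jn K 1 1) *
        ((n + n + 1).factorial * volume.real (pol (jn K 1 1))) * (((n : ℝ) + 1) ^ (n + 1)) ^ 2 := by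
        ring
    _ ≤ _ := h6
    _ = _ := by ring

theorem zed_lower (hr : RateStmt) {N : ℕ} (K : Set (Rn N)) (hN : 1 ≤ N) (hK : Body1 K) :
    1 ≤ Real.exp 10 * ((N : ℝ) + 1) ^ 6 * zed K := by
  have h1 := hr N K hN hK
  have hn : (0 : ℝ) < (N : ℝ) + 1 := by positivity
  have hf : (0 : ℝ) < N.factorial := Nat.cast_pos.2 N.factorial_pos
  have h2 := Real.pow_div_factorial_le_exp ((N : ℝ) + 1) hn.le (N + 1)
  rw [Nat.factorial_succ, Nat.cast_mul, div_le_iff₀ (by positivity), Real.exp_add] at h2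
  push_cast at h2
  set v := volume.real K * volume.real (pol K) with hv
  have v0 : 0 ≤ v := mul_nonneg measureReal_nonneg measureReal_nonneg
  unfold zed
  rw [← hv, ← mul_div_assoc, le_div_iff₀ (by positivity), one_mul]
  have e : Real.exp 10 = Real.exp 9 * Real.exp 1 := by rw [← Real.exp_add]; norm_num
  calc _ ≤ Real.exp N * (Real.exp 1 * (((N : ℝ) + 1) * N.factorial)) := by
        rw [← mul_assoc]; exact h2
    _ ≤ Real.exp 9 * (N + 1) ^ 5 * (N.factorial * v) *
        (Real.exp 1 * (((N : ℝ) + 1) * N.factorial)) := by gcongr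
    _ = _ := by rw [e]; ring

theorem iter_EFin (hj : JoinStmt) (n : ℕ) (K : Set (Rn n)) (hK : Body1 K) (k : ℕ) :
    ∃ (N : ℕ) (J : Set (Rn N)), N + 1 = 2 ^ k * (n + 1) ∧ Body1 J ∧ zed J ≤ zed K ^ (2 ^ k) := by
  induction k with
  | zero => exact ⟨n, K, by simp, hK, by simp⟩
  | succ k ih =>
    obtain ⟨N, J, h1, h2, h3⟩ := ih
    obtain ⟨J', h4, h5⟩ := hj N J h2
    refine ⟨N + N + 1, J', by rw [pow_succ]; nlinarith, h4, h5.trans ?_⟩
    rw [pow_succ 2 k, pow_mul]
    exact pow_le_pow_left₀ (zed_nonneg J) h3 2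

theorem sharp_stmt (hr : RateStmt) (hj : JoinStmt) : SharpStmt := by
  intro n K hK
  by_contra hlt
  rw [not_le] at hlt
  have h0 := zed_nonneg K
  have ht : Tendsto (fun m : ℕ => Real.exp 10 * ((n : ℝ) + 1) ^ 6 * ((m : ℝ) ^ 6 * zed K ^ m))
      atTop (𝓝 (Real.exp 10 * ((n : ℝ) + 1) ^ 6 * 0)) :=
    (tendsto_pow_const_mul_const_pow_of_abs_lt_one 6 (by rwa [abs_of_nonneg h0])).const_mul _
  rw [mul_zero] at ht
  have h2 : Tendsto (fun k : ℕ => 2 ^ k) atTop atTop :=
    tendsto_pow_atTop_atTop_of_one_lt (by norm_num : (1 : ℕ) < 2)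
  obtain ⟨k, hk1, hk2⟩ := (((ht.comp h2).eventually (gt_mem_nhds one_pos)).and
    (eventually_ge_atTop 1)).exists
  obtain ⟨N, J, e, hJ, hz⟩ := iter_EFin hj n K hK k
  have hN : 1 ≤ N := by
    have : 2 ^ 1 ≤ 2 ^ k := Nat.pow_le_pow_right (by norm_num) hk2
    nlinarith
  have h3 := zed_lower hr J hN hJ
  have e' : (N : ℝ) + 1 = ((2 ^ k : ℕ) : ℝ) * ((n : ℝ) + 1) := by exact_mod_cast e
  rw [e'] at h3
  have h4 : Real.exp 10 * (((2 ^ k : ℕ) : ℝ) * ((n : ℝ) + 1)) ^ 6 * zed J ≤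
      Real.exp 10 * (((2 ^ k : ℕ) : ℝ) * ((n : ℝ) + 1)) ^ 6 * zed K ^ (2 ^ k) := by gcongr
  simp only [Function.comp] at hk1
  have e2 : Real.exp 10 * (((2 ^ k : ℕ) : ℝ) * ((n : ℝ) + 1)) ^ 6 * zed K ^ (2 ^ k) =
      Real.exp 10 * ((n : ℝ) + 1) ^ 6 * (((2 ^ k : ℕ) : ℝ) ^ 6 * zed K ^ (2 ^ k)) := by ring
  linarith

theorem final_stmt (hs : SharpStmt) (hp : PolStmt) (hl : LapStmt) : FinalStmt := by
  intro n K hc hK hi
  by_cases h0 : (0 : Rn n) ∈ interior K
  · have hB : Body1 K := ⟨hc, hK, h0⟩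
    have h1 := hs n K hB
    have hQ := (hp.body n K hB).cpt
    have hf : (0 : ℝ) < n.factorial := Nat.cast_pos.2 n.factorial_pos
    unfold zed at h1
    rw [le_div_iff₀ (by positivity), one_mul] at h1
    rw [hl.eq n K hK (interior_subset h0), ← ofReal_measureReal hK.measure_lt_top.ne,
      ← ofReal_measureReal hQ.measure_lt_top.ne, ← ENNReal.ofReal_natCast,
      ← ENNReal.ofReal_mul hf.le, ← ENNReal.ofReal_mul measureReal_nonneg]
    refine ENNReal.ofReal_le_ofReal ?_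
    rw [div_le_iff₀ hf]
    calc _ ≤ _ := h1
      _ = _ := by ring
  · rw [hl.top n K hc hK hi h0,
      ENNReal.mul_top (Measure.measure_pos_of_nonempty_interior _ hi).ne']
    exact le_top

end Pool.Agent.MP_5f4cdd_gt.OK

end
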