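import Mathlib

set_option linter.all false

section

set_option autoImplicit false
open Set MeasureTheory Metric Filter Topology
open scoped ENNReal Real Matrix

namespace Pool.Agent.MP_5f4cdd_gt.LJ

variable {N : ℕ} {J : Type}

/-- pairing of a real vector with a complex vector -/
noncomputable def dotc (v : Fin N → ℝ) (z : Fin N → ℂ) : ℂ := ∑ a, (v a : ℂ) * z a

/-- the matrix whose rows are the vectors of an `N`-tuple -/
def mat (n : J → Fin N → ℝ) (s : Fin N → J) : Matrix (Fin N) (Fin N) ℝ :=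
  Matrix.of fun i a => n (s i) a

/-- the determinant of an `N`-tuple of vectors -/
noncomputable def dt (n : J → Fin N → ℝ) (s : Fin N → J) : ℝ := (mat n s).det

/-- the complex solution of `n (s i) · z = ζ i` -/
noncomputable def solc (n : J → Fin N → ℝ) (s : Fin N → J) (ζ : Fin N → ℂ) : Fin N → ℂ :=
  fun a => dotc ((mat n s)⁻¹ a) ζ

/-- the real solution of `n (s i) · x = b i` -/
noncomputable def solr (n : J → Fin N → ℝ) (s : Fin N → J) (b : Fin N → ℝ) : Fin N → ℝ :=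
  (mat n s)⁻¹ *ᵥ b

/-- the analytic polyhedron -/
def Om (D : J → Set ℂ) (n : J → Fin N → ℝ) : Set (Fin N → ℂ) := {z | ∀ j, dotc (n j) z ∈ D j}

noncomputable def Wf [Fintype J] (h : J → ℂ → ℂ) (n : J → Fin N → ℝ) (z : Fin N → ℂ) : ℝ :=
  ∑ j, Complex.normSq (h j (dotc (n j) z))

noncomputable def af (h : J → ℂ → ℂ) (n : J → Fin N → ℝ) (j : J) (z : Fin N → ℂ) : ℝ :=
  Complex.normSq (deriv (h j) (dotc (n j) z))

noncomputable def Hf [Fintype J] (h : J → ℂ → ℂ) (n : J → Fin N → ℝ) (z : Fin N → ℂ) : ℝ :=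
  ∑ s : Fin N → J, (∏ i, af h n (s i) z) * dt n s ^ 2

/-- `Re (conj h · h' · η)` at `n j · z` -/
noncomputable def bf (h : J → ℂ → ℂ) (n : J → Fin N → ℝ) (η : ℂ) (j : J) (z : Fin N → ℂ) : ℝ :=
  ((starRingEnd ℂ) (h j (dotc (n j) z)) * deriv (h j) (dotc (n j) z) * η).re

/-- the cut-off -/
noncomputable def phi (t : ℝ) : ℝ := expNegInvGlue (1 / 2 - t)

noncomputable def termA [Fintype J] (D : J → Set ℂ) (h : J → ℂ → ℂ) (n : J → Fin N → ℝ) (L : ℝ)
    (s : Fin N → J) : ℝ≥0∞ :=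
  ∫⁻ z in Om D n, ENNReal.ofReal (Real.exp (N * L) * phi (Real.exp L * Wf h n z) *
    ((∏ i, af h n (s i) z) * dt n s ^ 2))

/-- admissible conformal maps of the disc -/
structure Adm (ψ : ℂ → ℂ) : Prop where
  hol : DifferentiableOn ℂ ψ (ball 0 1)
  cont : ContinuousOn ψ (closedBall 0 1)
  inj : InjOn ψ (ball 0 1)
  zero : ψ 0 = 0
  der : ∀ w ∈ ball (0 : ℂ) 1, deriv ψ w ≠ 0

noncomputable def inv (ψ : ℂ → ℂ) : ℂ → ℂ := Function.invFunOn ψ (ball 0 1)

def dom (ψ : J → ℂ → ℂ) (j : J) : Set ℂ := ψ j '' ball 0 1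

noncomputable def hk (ψ : J → ℂ → ℂ) (k : J → ℕ) (j : J) (ζ : ℂ) : ℂ := inv (ψ j) ζ ^ k j

noncomputable def term [Fintype J] (ψ : J → ℂ → ℂ) (n : J → Fin N → ℝ) (k : J → ℕ) (L : ℝ)
    (s : Fin N → J) : ℝ≥0∞ := termA (dom ψ) (hk ψ k) n L s

/-- the point of the disc with logarithmic coordinates `(t, θ)` -/
noncomputable def pt (k : ℕ) (L t θ : ℝ) : ℂ :=
  Complex.exp ((((t - L) / (2 * k) : ℝ) : ℂ) + θ * Complex.I)

noncomputable def par (ψ : J → ℂ → ℂ) (n : J → Fin N → ℝ) (k : J → ℕ) (L : ℝ) (s : Fin N → J)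
    (p : (Fin N → ℝ) × (Fin N → ℝ)) : Fin N → ℂ :=
  solc n s fun i => ψ (s i) (pt (k (s i)) L (p.1 i) (p.2 i))

def box (N : ℕ) : Set (Fin N → ℝ) := univ.pi fun _ => Ioc (-π) π

/-- angles of the points of the distinguished boundary carried by the tuple `s` -/
def feas (ψ : J → ℂ → ℂ) (n : J → Fin N → ℝ) (s : Fin N → J) : Set (Fin N → ℝ) :=
  {θ | θ ∈ box N ∧ ∀ j, dotc (n j) (solc n s fun i => ψ (s i) (Complex.exp (θ i * Complex.I))) ∈
    ψ j '' closedBall 0 1}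

noncomputable def wt (t : Fin N → ℝ) : ℝ≥0∞ :=
  ENNReal.ofReal (phi (∑ i, Real.exp (t i)) * ∏ i, Real.exp (t i))

noncomputable def cN (N : ℕ) : ℝ≥0∞ := ∫⁻ t : Fin N → ℝ, wt t

/-- the conformal map onto the domain whose harmonic measure projects to the uniform law -/
structure Gross (ψ : ℂ → ℂ) (f : ℝ → ℝ) : Prop where
  adm : Adm ψ
  cont : Continuous f
  conc : ConcaveOn ℝ (Icc (-1) 1) f
  pos : 0 < f 0
  nonneg : ∀ p ∈ Icc (-1 : ℝ) 1, 0 ≤ f p
  up : ∀ θ ∈ Icc (0 : ℝ) π, ψ (Complex.exp (θ * Complex.I)) =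
    ((1 - 2 * θ / π : ℝ) : ℂ) + (f (1 - 2 * θ / π) : ℂ) * Complex.I
  down : ∀ θ ∈ Icc (0 : ℝ) π, ψ (Complex.exp (-θ * Complex.I)) =
    ((1 - 2 * θ / π : ℝ) : ℂ) - (f (1 - 2 * θ / π) : ℂ) * Complex.I
  inside : ∀ w ∈ closedBall (0 : ℂ) 1, |(ψ w).re| ≤ 1 ∧ |(ψ w).im| ≤ f (ψ w).re

noncomputable def psi0 (w : ℂ) : ℂ :=
  ((8 / π ^ 2 : ℝ) : ℂ) * ∑' m : ℕ, w ^ (2 * m + 1) / ((2 * m + 1 : ℕ) : ℂ) ^ 2

noncomputable def f0 (p : ℝ) : ℝ := (psi0 (Complex.exp ((π * (1 - p) / 2 : ℝ) * Complex.I))).im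

/-- sign attached to a Boolean -/
def sg (b : Bool) : ℝ := if b then 1 else -1

/-- the vertex over `x` with active tuple `s` and signs `e` -/
noncomputable def vtx (n : J → Fin N → ℝ) (f : ℝ → ℝ) (s : Fin N → J) (e : Fin N → Bool)
    (x : Fin N → ℝ) : Fin N → ℝ :=
  solr n s fun i => sg (e i) * f (n (s i) ⬝ᵥ x)

/-- points `x` over which the vertex `(s, e)` is feasible -/
def good (n : J → Fin N → ℝ) (f : ℝ → ℝ) (s : Fin N → J) (e : Fin N → Bool) :
    Set (Fin N → ℝ) :=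
  {x | (∀ i, |n (s i) ⬝ᵥ x| < 1) ∧ (∀ j, |n j ⬝ᵥ x| ≤ 1) ∧
    ∀ j, |n j ⬝ᵥ vtx n f s e x| ≤ f (n j ⬝ᵥ x)}

/-- no vertex over `x` has more than `N` active constraints -/
def NoTie (n : J → Fin N → ℝ) (f : ℝ → ℝ) (x : Fin N → ℝ) : Prop :=
  ∀ (s : Fin N → J) (e : Fin N → Bool) (j : J), dt n s ≠ 0 → j ∉ range s → |n j ⬝ᵥ x| ≤ 1 →
    |n j ⬝ᵥ vtx n f s e x| ≠ f (n j ⬝ᵥ x)

/-! basic facts -/

theorem dotc_add (v : Fin N → ℝ) (z w : Fin N → ℂ) : dotc v (z + w) = dotc v z + dotc v w := by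
  simp [dotc, mul_add, Finset.sum_add_distrib]

theorem dotc_smul (v : Fin N → ℝ) (c : ℂ) (z : Fin N → ℂ) : dotc v (c • z) = c * dotc v z := by
  simp only [dotc, Finset.mul_sum, Pi.smul_apply, smul_eq_mul]
  exact Finset.sum_congr rfl fun a _ => by ring

theorem dotc_zero (v : Fin N → ℝ) : dotc v 0 = 0 := by simp [dotc]

theorem dotc_re (v : Fin N → ℝ) (z : Fin N → ℂ) : (dotc v z).re = v ⬝ᵥ fun a => (z a).re := by
  simp [dotc, dotProduct]

theorem dotc_im (v : Fin N → ℝ) (z : Fin N → ℂ) : (dotc v z).im = v ⬝ᵥ fun a => (z a).im := by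
  simp [dotc, dotProduct]

theorem dotc_ofReal (v x : Fin N → ℝ) : dotc v (fun a => (x a : ℂ)) = ((v ⬝ᵥ x : ℝ) : ℂ) := by
  simp [dotc, dotProduct]

theorem continuous_dotc (v : Fin N → ℝ) : Continuous (dotc v) := by
  unfold dotc; fun_prop

theorem continuous_solc (n : J → Fin N → ℝ) (s : Fin N → J) : Continuous (solc n s) :=
  continuous_pi fun _ => continuous_dotc _

theorem continuous_solr (n : J → Fin N → ℝ) (s : Fin N → J) : Continuous (solr n s) := by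
  unfold solr; fun_prop

theorem solc_re (n : J → Fin N → ℝ) (s : Fin N → J) (ζ : Fin N → ℂ) :
    (fun a => (solc n s ζ a).re) = solr n s fun i => (ζ i).re := by
  funext a; simp [solc, solr, dotc_re, Matrix.mulVec]

theorem solc_im (n : J → Fin N → ℝ) (s : Fin N → J) (ζ : Fin N → ℂ) :
    (fun a => (solc n s ζ a).im) = solr n s fun i => (ζ i).im := by
  funext a; simp [solc, solr, dotc_im, Matrix.mulVec]

theorem mat_mulVec (n : J → Fin N → ℝ) (s : Fin N → J) (x : Fin N → ℝ) (i : Fin N) :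
    (mat n s *ᵥ x) i = n (s i) ⬝ᵥ x := rfl

theorem dot_solr {n : J → Fin N → ℝ} {s : Fin N → J} (h : dt n s ≠ 0) (b : Fin N → ℝ)
    (i : Fin N) : n (s i) ⬝ᵥ solr n s b = b i := by
  rw [← mat_mulVec, solr, Matrix.mulVec_mulVec, Matrix.mul_nonsing_inv _ (Ne.isUnit h),
    Matrix.one_mulVec]

theorem solr_dot {n : J → Fin N → ℝ} {s : Fin N → J} (h : dt n s ≠ 0) (x : Fin N → ℝ) :
    (solr n s fun i => n (s i) ⬝ᵥ x) = x := by
  have : (fun i => n (s i) ⬝ᵥ x) = mat n s *ᵥ x := rfl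
  rw [this, solr, Matrix.mulVec_mulVec, Matrix.nonsing_inv_mul _ (Ne.isUnit h), Matrix.one_mulVec]

theorem dotc_solc {n : J → Fin N → ℝ} {s : Fin N → J} (h : dt n s ≠ 0) (ζ : Fin N → ℂ)
    (i : Fin N) : dotc (n (s i)) (solc n s ζ) = ζ i := by
  apply Complex.ext
  · rw [dotc_re, solc_re, dot_solr h]
  · rw [dotc_im, solc_im, dot_solr h]

theorem solc_dotc {n : J → Fin N → ℝ} {s : Fin N → J} (h : dt n s ≠ 0) (z : Fin N → ℂ) :
    (solc n s fun i => dotc (n (s i)) z) = z := by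
  funext a
  apply Complex.ext
  · have := congrFun (solc_re n s fun i => dotc (n (s i)) z) a
    simp only [dotc_re] at this
    rw [this, solr_dot h]
  · have := congrFun (solc_im n s fun i => dotc (n (s i)) z) a
    simp only [dotc_im] at this
    rw [this, solr_dot h]

theorem injective_of_dt {n : J → Fin N → ℝ} {s : Fin N → J} (h : dt n s ≠ 0) :
    Function.Injective s := by
  intro i l hil
  by_contra hne
  exact h (Matrix.det_zero_of_row_eq hne (by funext a; simp [mat, hil]))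

theorem isOpen_Om [Fintype J] {D : J → Set ℂ} (hD : ∀ j, IsOpen (D j)) (n : J → Fin N → ℝ) :
    IsOpen (Om D n) := by
  have : Om D n = ⋂ j, dotc (n j) ⁻¹' D j := by ext z; simp [Om]
  rw [this]
  exact isOpen_iInter_of_finite fun j => (hD j).preimage (continuous_dotc _)

theorem phi_nonneg (t : ℝ) : 0 ≤ phi t := expNegInvGlue.nonneg _

theorem phi_anti : Antitone phi := fun _ _ h => expNegInvGlue.monotone (by linarith)

theorem phi_zero {t : ℝ} (h : 1 / 2 ≤ t) : phi t = 0 := expNegInvGlue.zero_of_nonpos (by linarith)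

theorem phi_pos {t : ℝ} (h : t < 1 / 2) : 0 < phi t := expNegInvGlue.pos_of_pos (by linarith)

theorem phi_contDiff : ContDiff ℝ 1 phi :=
  expNegInvGlue.contDiff.comp (contDiff_const.sub contDiff_id)

theorem phi_continuous : Continuous phi := phi_contDiff.continuous

theorem sg_abs (b : Bool) : |sg b| = 1 := by cases b <;> simp [sg]

theorem sg_mul_self (b : Bool) : sg b * sg b = 1 := by cases b <;> simp [sg]

end Pool.Agent.MP_5f4cdd_gt.LJ

end

section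

set_option autoImplicit false
open Set MeasureTheory Metric Filter Topology
open scoped ENNReal Real Matrix

namespace Pool.Agent.MP_5f4cdd_gt.LJ

def AlgStmt : Prop :=
  ∀ (N : ℕ) (J : Type) [Fintype J] [DecidableEq J] (n : J → Fin N → ℝ) (a w β γ : J → ℝ),
    (∀ j, 0 ≤ a j) → (∀ j, 0 ≤ w j) → (∀ j, β j ^ 2 + γ j ^ 2 ≤ a j * w j) →
    ∑ s : Fin N → J, ∑ i : Fin N, (∏ l ∈ Finset.univ.erase i, a (s l)) * dt n s *
      (β (s i) * ∑ j, β j * dt n (Function.update s i j) +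
        γ (s i) * ∑ j, γ j * dt n (Function.update s i j)) ≤
    (∑ j, w j) * ∑ s : Fin N → J, (∏ l, a (s l)) * dt n s ^ 2

def Ibp1Stmt : Prop :=
  ∀ (N : ℕ) (J : Type) [Fintype J] [DecidableEq J] (n : J → Fin N → ℝ) (D : J → Set ℂ)
    (h : J → ℂ → ℂ) (C : Set (Fin N → ℂ)) (c : ℝ) (g g' : ℝ → ℝ),
    (∀ j, IsOpen (D j)) → (∀ j, DifferentiableOn ℂ (h j) (D j)) → IsCompact C → C ⊆ Om D n →
    (∀ z ∈ Om D n, Wf h n z ≤ c → z ∈ C) → (∀ t, HasDerivAt g (g' t) t) → Continuous g' →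
    (∀ t, c ≤ t → g t = 0) → ∀ (s : Fin N → J) (i : Fin N),
    ∫ z in Om D n, (g' (Wf h n z) * ((∏ l ∈ Finset.univ.erase i, af h n (s l) z) * dt n s *
        (bf h n 1 (s i) z * ∑ j, bf h n 1 j z * dt n (Function.update s i j) +
          bf h n Complex.I (s i) z * ∑ j, bf h n Complex.I j z * dt n (Function.update s i j))) +
      g (Wf h n z) * ((∏ l, af h n (s l) z) * dt n s ^ 2)) = 0

def IbpStmt : Prop :=
  ∀ (N : ℕ) (J : Type) [Fintype J] [DecidableEq J] (n : J → Fin N → ℝ) (D : J → Set ℂ)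
    (h : J → ℂ → ℂ) (C : Set (Fin N → ℂ)) (c : ℝ) (g g' : ℝ → ℝ),
    (∀ j, IsOpen (D j)) → (∀ j, DifferentiableOn ℂ (h j) (D j)) → IsCompact C → C ⊆ Om D n →
    (∀ z ∈ Om D n, Wf h n z ≤ c → z ∈ C) → (∀ t, HasDerivAt g (g' t) t) → Continuous g' →
    (∀ t, g' t ≤ 0) → (∀ t, c ≤ t → g t = 0) →
    ∫ z in Om D n, (N * g (Wf h n z) + Wf h n z * g' (Wf h n z)) * Hf h n z ≤ 0

def MonoStmt : Prop :=
  ∀ (N : ℕ) (J : Type) [Fintype J] [DecidableEq J] (n : J → Fin N → ℝ) (D : J → Set ℂ)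
    (h : J → ℂ → ℂ) (C : Set (Fin N → ℂ)),
    (∀ j, IsOpen (D j)) → (∀ j, DifferentiableOn ℂ (h j) (D j)) → IsCompact C → C ⊆ Om D n →
    (∀ z ∈ Om D n, Wf h n z ≤ 1 / 2 → z ∈ C) → ∀ L : ℝ, 0 ≤ L →
    ∑ s : Fin N → J, termA D h n L s ≤ ∑ s : Fin N → J, termA D h n 0 s

structure InvStmt : Prop where
  isOpen : ∀ ψ : ℂ → ℂ, Adm ψ → IsOpen (ψ '' ball 0 1)
  inv_apply : ∀ ψ : ℂ → ℂ, Adm ψ → ∀ w ∈ ball (0 : ℂ) 1, inv ψ (ψ w) = w
  deriv : ∀ ψ : ℂ → ℂ, Adm ψ → ∀ w ∈ ball (0 : ℂ) 1, HasDerivAt (inv ψ) (deriv ψ w)⁻¹ (ψ w)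
  diff : ∀ (J : Type) (ψ : J → ℂ → ℂ), (∀ j, Adm (ψ j)) → ∀ (k : J → ℕ) (j : J),
    DifferentiableOn ℂ (hk ψ k j) (dom ψ j)
  compact : ∀ (N : ℕ) (J : Type) [Fintype J] (ψ : J → ℂ → ℂ), (∀ j, Adm (ψ j)) →
    ∀ (n : J → Fin N → ℝ) (s0 : Fin N → J), dt n s0 ≠ 0 → ∀ k : J → ℕ, (∀ j, 1 ≤ k j) →
    ∃ C : Set (Fin N → ℂ), IsCompact C ∧ C ⊆ Om (dom ψ) n ∧
      ∀ z ∈ Om (dom ψ) n, Wf (hk ψ k) n z ≤ 1 / 2 → z ∈ C
  contW : ∀ (N : ℕ) (J : Type) [Fintype J] (ψ : J → ℂ → ℂ), (∀ j, Adm (ψ j)) →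
    ∀ (n : J → Fin N → ℝ) (k : J → ℕ), ContinuousOn (Wf (hk ψ k) n) (Om (dom ψ) n)
  exp_mul : ∀ (J : Type) (ψ : J → ℂ → ℂ), (∀ j, Adm (ψ j)) → ∀ (k : J → ℕ) (j : J), 1 ≤ k j →
    ∀ L t θ : ℝ, t < L →
    Real.exp L * Complex.normSq (hk ψ k j (ψ j (pt (k j) L t θ))) = Real.exp t

def CvStmt : Prop :=
  ∀ (N : ℕ) (J : Type) [Fintype J] (ψ : J → ℂ → ℂ), (∀ j, Adm (ψ j)) →
    ∀ (n : J → Fin N → ℝ) (k : J → ℕ), (∀ j, 2 ≤ k j) → ∀ (L : ℝ) (s : Fin N → J), dt n s ≠ 0 →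
    term ψ n k L s = ∫⁻ p in (univ.pi fun _ : Fin N => Iio L) ×ˢ box N,
      ENNReal.ofReal (∏ i, (k (s i) / 2 * Real.exp (p.1 i))) *
        (Om (dom ψ) n).indicator
          (fun z => ENNReal.ofReal (phi (Real.exp L * Wf (hk ψ k) n z))) (par ψ n k L s p)

structure CnStmt : Prop where
  pos : ∀ N : ℕ, 0 < cN N
  lt_top : ∀ N : ℕ, cN N < ⊤
  meas : ∀ N : ℕ, Measurable (wt : (Fin N → ℝ) → ℝ≥0∞)
  box : ∀ N : ℕ, volume (box N) = ENNReal.ofReal ((2 * π) ^ N)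

def LowerStmt : Prop :=
  ∀ (N : ℕ) (J : Type) [Fintype J] (ψ : J → ℂ → ℂ), (∀ j, Adm (ψ j)) →
    ∀ (n : J → Fin N → ℝ) (k : J → ℕ) (K : ℕ), 2 ≤ K → ∀ s : Fin N → J, dt n s ≠ 0 →
    (∀ i, k (s i) = K) → (∀ j, j ∉ range s → K < k j) →
    ENNReal.ofReal ((K / 2 : ℝ) ^ N * (2 * π) ^ N) * cN N ≤
      liminf (fun L : ℕ => term ψ n k L s) atTop

def UpperStmt : Prop :=
  ∀ (N : ℕ) (J : Type) [Fintype J] (ψ : J → ℂ → ℂ), (∀ j, Adm (ψ j)) →
    ∀ (n : J → Fin N → ℝ) (k : ℕ → J → ℕ), (∀ K j, K + 2 ≤ k K j ∧ k K j ≤ K + 3) →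
    ∀ s : Fin N → J, dt n s ≠ 0 →
    limsup (fun K : ℕ => ENNReal.ofReal ((2 / (K + 3 : ℝ)) ^ N) * term ψ n (k K) 0 s) atTop ≤
      cN N * volume (feas ψ n s)

def LJStmt : Prop :=
  ∀ (N : ℕ) (J : Type) [Fintype J] [DecidableEq J] (ψ : J → ℂ → ℂ), (∀ j, Adm (ψ j)) →
    ∀ (n : J → Fin N → ℝ) (s0 : Fin N → J), dt n s0 ≠ 0 →
    ENNReal.ofReal (N.factorial * (2 * π) ^ N) ≤
      ∑ s ∈ Finset.univ.filter (fun s : Fin N → J => dt n s ≠ 0), volume (feas ψ n s)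

structure Psi1Stmt : Prop where
  hasDerivAt : ∀ w ∈ ball (0 : ℂ) 1,
    HasDerivAt psi0 (((8 / π ^ 2 : ℝ) : ℂ) * ∑' m : ℕ, w ^ (2 * m) / ((2 * m + 1 : ℕ) : ℂ)) w
  mul_deriv : ∀ w ∈ ball (0 : ℂ) 1,
    w * deriv psi0 w = ((4 / π ^ 2 : ℝ) : ℂ) * (Complex.log (1 + w) - Complex.log (1 - w))
  cont : ContinuousOn psi0 (closedBall 0 1)
  conj : ∀ w : ℂ, psi0 ((starRingEnd ℂ) w) = (starRingEnd ℂ) (psi0 w)

def AdmStmt : Prop := Adm psi0

structure Psi2Stmt : Prop where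
  re : ∀ θ ∈ Icc (0 : ℝ) π, (psi0 (Complex.exp (θ * Complex.I))).re = 1 - 2 * θ / π
  pos : 0 < (psi0 (Complex.exp ((π / 2 : ℝ) * Complex.I))).im

def Psi3Stmt : Prop :=
  ConcaveOn ℝ (Icc 0 π) fun θ : ℝ => (psi0 (Complex.exp (θ * Complex.I))).im

def MaxPStmt : Prop :=
  ∀ (ψ : ℂ → ℂ) (S : Set ℂ), DifferentiableOn ℂ ψ (ball 0 1) → ContinuousOn ψ (closedBall 0 1) →
    Convex ℝ S → IsClosed S → (∀ w ∈ sphere (0 : ℂ) 1, ψ w ∈ S) →
    ∀ w ∈ closedBall (0 : ℂ) 1, ψ w ∈ S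

def GrossStmt : Prop := Gross psi0 f0

def G1Stmt : Prop :=
  ∀ (N : ℕ) (J : Type) (ψ : ℂ → ℂ) (f : ℝ → ℝ), Gross ψ f →
    ∀ (n : J → Fin N → ℝ) (s : Fin N → J), dt n s ≠ 0 →
    volume (feas (fun _ : J => ψ) n s) ≤
      ∑ e : Fin N → Bool, ENNReal.ofReal ((π / 2) ^ N * |dt n s|) * volume (good n f s e)

def G2Stmt : Prop :=
  ∀ (N : ℕ) (J : Type) [Fintype J] [DecidableEq J] (f : ℝ → ℝ), Continuous f →
    ConcaveOn ℝ (Icc (-1) 1) f → 0 < f 0 → ∀ (n : J → Fin N → ℝ) (ρ : J → ℝ),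
    (∀ j, 0 < ρ j ∧ ρ j < 1) →
    ∃ r : J → ℝ, (∀ j, r j ∈ Icc (ρ j) 1) ∧ ∀ᵐ x : Fin N → ℝ, NoTie (fun j => r j • n j) f x

def G3Stmt : Prop :=
  ∀ (N : ℕ) (J : Type) [DecidableEq J] (n : J → Fin N → ℝ) (b : J → ℝ)
    (T : Finset ((Fin N → J) × (Fin N → Bool))) (ξ : (Fin N → J) × (Fin N → Bool) → Fin N → ℝ),
    (∀ τ ∈ T, dt n τ.1 ≠ 0) → (∀ τ ∈ T, ∀ i, 0 < b (τ.1 i)) →
    (∀ τ ∈ T, ∀ i, n (τ.1 i) ⬝ᵥ ξ τ = sg (τ.2 i) * b (τ.1 i)) →
    (∀ τ ∈ T, ∀ j, |n j ⬝ᵥ ξ τ| ≤ b j) →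
    (∀ τ ∈ T, ∀ j, j ∉ range τ.1 → |n j ⬝ᵥ ξ τ| ≠ b j) →
    ∀ u : (Fin N → ℝ) → ℝ, (∀ τ ∈ T, ∀ c : Fin N → ℝ, (∀ i, 0 < c i) →
      u (∑ i, (c i * sg (τ.2 i)) • n (τ.1 i)) ≤ ∑ i, c i) →
    ∑ τ ∈ T, ENNReal.ofReal |dt n τ.1| ≤
      N.factorial * ∫⁻ y : Fin N → ℝ, ENNReal.ofReal (Real.exp (-u y))

def G4Stmt : Prop :=
  ∀ (N : ℕ) (K : Set (Fin N → ℝ)), Convex ℝ K → IsCompact K → K.Nonempty → (∀ x ∈ K, -x ∈ K) →
    ∀ U : Set (Fin N → ℝ), IsOpen U → K ⊆ U →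
    ∃ (J : Type) (_ : Fintype J) (_ : DecidableEq J) (n : J → Fin N → ℝ) (ρ : J → ℝ)
      (s0 : Fin N → J), (∀ j, 0 < ρ j ∧ ρ j < 1) ∧ dt n s0 ≠ 0 ∧
      (∀ j, ∀ y ∈ K, |n j ⬝ᵥ y| ≤ 1) ∧
      ∀ r : J → ℝ, (∀ j, r j ∈ Icc (ρ j) 1) → {x | ∀ j, |(r j • n j) ⬝ᵥ x| ≤ 1} ⊆ U

def G5Stmt : Prop :=
  ∀ (N : ℕ) (J : Type) [Fintype J] [DecidableEq J] (n : J → Fin N → ℝ) (s0 : Fin N → J),
    dt n s0 ≠ 0 → (∀ᵐ x : Fin N → ℝ, NoTie n f0 x) → ∀ u : (Fin N → ℝ) → ℝ,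
    (∀ (s : Fin N → J) (e : Fin N → Bool) (c : Fin N → ℝ), (∀ i, 0 < c i) →
      u (∑ i, (c i * sg (e i)) • n (s i)) ≤ ∑ i, c i) →
    (4 : ℝ≥0∞) ^ N ≤ volume {x : Fin N → ℝ | ∀ j, |n j ⬝ᵥ x| ≤ 1} *
      ∫⁻ y : Fin N → ℝ, ENNReal.ofReal (Real.exp (-u y))

def SymStmt : Prop :=
  ∀ (N : ℕ) (K : Set (Fin N → ℝ)), Convex ℝ K → IsCompact K → (interior K).Nonempty →
    (∀ x ∈ K, -x ∈ K) →
    (4 : ℝ≥0∞) ^ N ≤ volume K * ∫⁻ y : Fin N → ℝ, ENNReal.ofReal
      (Real.exp (-(sSup ((fun x : Fin N → ℝ => ∑ i, x i * y i) '' K))))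

def CenterStmt : Prop :=
  ∀ (N : ℕ) (K : Set (Fin N → ℝ)), Convex ℝ K → IsCompact K → (interior K).Nonempty →
    ∀ c : Fin N → ℝ, (∀ x ∈ K, (2 : ℝ) • c - x ∈ K) →
    (4 : ℝ≥0∞) ^ N ≤ volume K * ∫⁻ y : Fin N → ℝ, ENNReal.ofReal
      (Real.exp (-(sSup ((fun x : Fin N → ℝ => ∑ i, x i * y i) '' K))))

end Pool.Agent.MP_5f4cdd_gt.LJ

end

section

set_option autoImplicit false
open Set MeasureTheory Metric Filter Topology
open scoped ENNReal Real Matrix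

namespace Pool.Agent.MP_5f4cdd_gt.LJ

section
variable {ψ : ℂ → ℂ} {w : ℂ}

theorem strict_Inv (h : Adm ψ) (hw : w ∈ ball (0 : ℂ) 1) : HasStrictDerivAt ψ (deriv ψ w) w :=
  (h.hol.analyticAt (isOpen_ball.mem_nhds hw)).hasStrictDerivAt

theorem open_Inv (h : Adm ψ) : IsOpen (ψ '' ball 0 1) := by
  refine isOpen_iff_mem_nhds.2 ?_
  rintro _ ⟨w, hw, rfl⟩
  rw [← (strict_Inv h hw).map_nhds_eq (h.der w hw)]
  exact image_mem_map (isOpen_ball.mem_nhds hw)

theorem apply_Inv (h : Adm ψ) (hw : w ∈ ball (0 : ℂ) 1) : inv ψ (ψ w) = w :=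
  h.inj.leftInvOn_invFunOn hw

theorem deriv_Inv (h : Adm ψ) (hw : w ∈ ball (0 : ℂ) 1) :
    HasDerivAt (inv ψ) (deriv ψ w)⁻¹ (ψ w) :=
  ((strict_Inv h hw).to_local_left_inverse (h.der w hw)
    (mem_of_superset (isOpen_ball.mem_nhds hw) fun _ hu => apply_Inv h hu)).hasDerivAt

end

theorem diff_Inv {J : Type} {ψ : J → ℂ → ℂ} (h : ∀ j, Adm (ψ j)) (k : J → ℕ) (j : J) :
    DifferentiableOn ℂ (hk ψ k j) (dom ψ j) := by
  rintro _ ⟨w, hw, rfl⟩
  exact ((deriv_Inv (h j) hw).differentiableAt.pow (k j)).differentiableWithinAt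

theorem inv_stmt : InvStmt := by
  refine ⟨fun _ => open_Inv, fun _ h _ => apply_Inv h, fun _ h _ => deriv_Inv h,
    fun _ _ => diff_Inv, fun N J _ ψ h n s0 hs k hk1 => ?_, fun N J _ ψ h n k => ?_,
    fun J ψ h k j hk1 L t θ ht => ?_⟩
  · let B : J → Set ℂ := fun j => closedBall 0 1 ∩ {u | Complex.normSq (u ^ k j) ≤ 1 / 2}
    have hB : ∀ j, IsCompact (ψ j '' B j) := fun j =>
      ((isCompact_closedBall 0 1).inter_right
        (isClosed_le (by fun_prop) continuous_const)).image_of_continuousOn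
        ((h j).cont.mono inter_subset_left)
    have hb : ∀ j, B j ⊆ ball 0 1 := fun j u hu => by
      refine mem_ball_zero_iff.2 (lt_of_le_of_ne (mem_closedBall_zero_iff.1 hu.1) fun e => ?_)
      have h2 : Complex.normSq (u ^ k j) ≤ 1 / 2 := hu.2
      rw [Complex.normSq_eq_norm_sq, norm_pow, e, one_pow, one_pow] at h2
      norm_num at h2
    refine ⟨⋂ j, dotc (n j) ⁻¹' (ψ j '' B j), ?_, fun z hz j =>
      image_mono (hb j) (mem_iInter.1 hz j), fun z hz hW => mem_iInter.2 fun j => ?_⟩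
    · refine ((isCompact_univ_pi fun i => hB (s0 i)).image (continuous_solc n s0)).of_isClosed_subset
        (isClosed_iInter fun j => (hB j).isClosed.preimage (continuous_dotc _)) fun z hz => ?_
      exact ⟨_, fun i _ => mem_iInter.1 hz (s0 i), solc_dotc hs z⟩
    · obtain ⟨w, hw, e⟩ := hz j
      refine ⟨w, ⟨ball_subset_closedBall hw, le_trans ?_ hW⟩, e⟩
      have h1 := Finset.single_le_sum (f := fun j => Complex.normSq (hk ψ k j (dotc (n j) z)))
        (fun _ _ => Complex.normSq_nonneg _) (Finset.mem_univ j)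
      rwa [hk, ← e, apply_Inv (h j) hw] at h1
  · exact continuousOn_finsetSum _ fun j _ => Complex.continuous_normSq.comp_continuousOn
      ((diff_Inv h k j).continuousOn.comp (continuous_dotc _).continuousOn fun z hz => hz j)
  · have hk0 : (0 : ℝ) < k j := Nat.cast_pos.2 hk1
    have hn : ‖pt (k j) L t θ‖ = Real.exp ((t - L) / (2 * k j)) := by
      rw [pt, Complex.exp_add, norm_mul, Complex.norm_exp_ofReal_mul_I, Complex.norm_exp_ofReal,
        mul_one]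
    have hw : pt (k j) L t θ ∈ ball (0 : ℂ) 1 := by
      rw [mem_ball_zero_iff, hn, Real.exp_lt_one_iff]
      exact div_neg_of_neg_of_pos (sub_neg.2 ht) (by positivity)
    rw [hk, apply_Inv (h j) hw, Complex.normSq_eq_norm_sq, norm_pow, hn, ← pow_mul,
      ← Real.exp_nat_mul, ← Real.exp_add]
    congr 1
    push_cast
    field_simp
    ring

end Pool.Agent.MP_5f4cdd_gt.LJ

end

section

set_option autoImplicit false
open Set MeasureTheory Metric Filter Topology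
open scoped ENNReal Real Matrix

namespace Pool.Agent.MP_5f4cdd_gt.LJ

theorem cont_Cn (N : ℕ) : Continuous (wt : (Fin N → ℝ) → ℝ≥0∞) :=
  ENNReal.continuous_ofReal.comp ((phi_continuous.comp (by fun_prop)).mul (by fun_prop))

theorem pos_Cn (N : ℕ) : 0 < cN N := by
  refine (lintegral_pos_iff_support (cont_Cn N).measurable).2
    ((cont_Cn N).isOpen_support.measure_pos _ ⟨fun _ => Real.log (1 / (2 * (N + 1))), ?_⟩)
  have h : (0 : ℝ) < 1 / (2 * (N + 1)) := by positivity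
  refine (ENNReal.ofReal_pos.2 (mul_pos (phi_pos ?_) (by positivity))).ne'
  beta_reduce
  rw [Real.exp_log h, Finset.sum_const, Finset.card_univ, Fintype.card_fin, nsmul_eq_mul,
    mul_one_div, div_lt_div_iff₀ (by positivity) (by positivity)]
  linarith

theorem top_Cn (N : ℕ) : cN N < ⊤ := by
  have h1 : Integrable ((Iic (0 : ℝ)).indicator Real.exp) :=
    (integrableOn_exp_Iic 0).integrable_indicator measurableSet_Iic
  have h2 : Integrable fun t : Fin N → ℝ => ∏ i, (Iic (0 : ℝ)).indicator Real.exp (t i) :=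
    Integrable.fintype_prod (f := fun _ : Fin N => (Iic (0 : ℝ)).indicator Real.exp)
      (μ := fun _ => volume) fun _ => h1
  refine lt_of_le_of_lt (lintegral_mono fun t => ENNReal.ofReal_le_ofReal ?_)
    (h2.const_mul (phi 0)).lintegral_lt_top
  have h0 : ∀ i, 0 ≤ Real.exp (t i) := fun i => (Real.exp_pos _).le
  rcases le_or_gt (1 / 2) (∑ i, Real.exp (t i)) with h | h
  · rw [phi_zero h, zero_mul]
    exact mul_nonneg (phi_nonneg 0) (Finset.prod_nonneg fun i _ =>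
      indicator_nonneg (fun x _ => (Real.exp_pos x).le) _)
  · rw [Finset.prod_congr rfl fun i _ => indicator_of_mem (s := Iic (0 : ℝ)) (a := t i) ?_ Real.exp]
    · exact mul_le_mul_of_nonneg_right (phi_anti (Finset.sum_nonneg fun i _ => h0 i))
        (Finset.prod_nonneg fun i _ => h0 i)
    · have h3 := Finset.single_le_sum (fun i _ => h0 i) (Finset.mem_univ i)
      exact Real.exp_le_one_iff.1 (by linarith)

theorem cn_stmt : CnStmt where
  pos := pos_Cn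
  lt_top := top_Cn
  meas N := (cont_Cn N).measurable
  box N := by
    rw [box, volume_pi_pi, Finset.prod_const, Finset.card_univ, Fintype.card_fin,
      Real.volume_Ioc, ← ENNReal.ofReal_pow (by linarith [Real.pi_pos]), sub_neg_eq_add, two_mul]

end Pool.Agent.MP_5f4cdd_gt.LJ

end

section

set_option autoImplicit false
open Set MeasureTheory Metric Filter Topology
open scoped ENNReal Real Matrix

namespace Pool.Agent.MP_5f4cdd_gt.LJ

theorem min_Main {f : ℕ → ℝ≥0∞} {A : ℝ≥0∞} (h : A ≤ liminf f atTop) :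
    Tendsto (fun L => min (f L) A) atTop (𝓝 A) :=
  tendsto_order.2 ⟨fun _ ha => (eventually_lt_of_lt_liminf (ha.trans_le h)).mono fun _ h' =>
    lt_min h' ha, fun _ ha => .of_forall fun _ => (min_le_right _ _).trans_lt ha⟩

theorem max_Main {f : ℕ → ℝ≥0∞} {A : ℝ≥0∞} (h : limsup f atTop ≤ A) :
    Tendsto (fun L => max (f L) A) atTop (𝓝 A) :=
  tendsto_order.2 ⟨fun _ ha => .of_forall fun _ => ha.trans_le (le_max_right _ _),
    fun _ ha => (eventually_lt_of_limsup_lt (h.trans_lt ha)).mono fun _ h' => max_lt h' ha⟩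

theorem perm_Main {N : ℕ} {J : Type} {n : J → Fin N → ℝ} {s : Fin N → J} (h : dt n s ≠ 0)
    (e : Equiv.Perm (Fin N)) : dt n (s ∘ e) ≠ 0 := by
  have e1 : mat n (s ∘ e) = (mat n s).submatrix e id := rfl
  rw [dt, e1, Matrix.det_permute]
  refine mul_ne_zero ?_ h
  rcases Int.units_eq_one_or (Equiv.Perm.sign e) with h' | h' <;> simp [h']

theorem step_Main (hM : MonoStmt) (hI : InvStmt) (hL : LowerStmt) {N : ℕ} {J : Type} [Fintype J]
    [DecidableEq J] {ψ : J → ℂ → ℂ} (hψ : ∀ j, Adm (ψ j)) {n : J → Fin N → ℝ} {s0 : Fin N → J}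
    (h0 : dt n s0 ≠ 0) {k : J → ℕ} {K : ℕ} (hK : 2 ≤ K) (h1 : ∀ i, k (s0 i) = K)
    (h2 : ∀ j, j ∉ range s0 → K < k j) :
    (N.factorial : ℝ≥0∞) * (ENNReal.ofReal ((K / 2 : ℝ) ^ N * (2 * π) ^ N) * cN N) ≤
      ∑ s ∈ Finset.univ.filter (fun s : Fin N → J => dt n s ≠ 0), term ψ n k 0 s := by
  have hk1 : ∀ j, 1 ≤ k j := fun j => by
    by_cases hj : j ∈ range s0
    · obtain ⟨i, rfl⟩ := hj
      rw [h1]
      omega
    · have := h2 j hj
      omega
  obtain ⟨C, c1, c2, c3⟩ := hI.compact N J ψ hψ n s0 h0 k hk1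
  have hm := hM N J n (dom ψ) (hk ψ k) C (fun j => hI.isOpen _ (hψ j)) (hI.diff J ψ hψ k) c1 c2 c3
  have hl := fun e : Equiv.Perm (Fin N) => min_Main (hL N J ψ hψ n k K hK (s0 ∘ e)
    (perm_Main h0 e) (fun i => h1 _) fun j hj => h2 j (by rwa [e.surjective.range_comp] at hj))
  have ht := tendsto_finsetSum Finset.univ fun e _ => hl e
  rw [Finset.sum_const, Finset.card_univ, Fintype.card_perm, Fintype.card_fin, nsmul_eq_mul] at ht
  refine le_of_tendsto' ht fun L => ?_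
  have hi : Function.Injective fun e : Equiv.Perm (Fin N) => s0 ∘ e := fun e e' h =>
    Equiv.ext fun i => injective_of_dt h0 (congrFun h i)
  calc _ ≤ ∑ e : Equiv.Perm (Fin N), term ψ n k L (s0 ∘ e) :=
        Finset.sum_le_sum fun e _ => min_le_left _ _
    _ = ∑ s ∈ Finset.univ.image fun e : Equiv.Perm (Fin N) => s0 ∘ e, term ψ n k L s :=
        (Finset.sum_image fun e _ e' _ h => hi h).symm
    _ ≤ ∑ s, term ψ n k L s := Finset.sum_le_sum_of_subset (Finset.subset_univ _)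
    _ ≤ ∑ s, term ψ n k 0 s := hm L (Nat.cast_nonneg L)
    _ = _ := (Finset.sum_filter_of_ne (p := fun s : Fin N → J => dt n s ≠ 0)
        fun s _ hs h => hs (by simp [term, termA, h])).symm

theorem lj_stmt (hM : MonoStmt) (hI : InvStmt) (hC : CnStmt) (hL : LowerStmt) (hU : UpperStmt) :
    LJStmt := by
  intro N J _ _ ψ hψ n s0 h0
  classical
  let k : ℕ → J → ℕ := fun K j => if j ∈ range s0 then K + 2 else K + 3
  have hk : ∀ K j, K + 2 ≤ k K j ∧ k K j ≤ K + 3 := fun K j => by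
    simp only [k]
    split_ifs <;> omega
  have hu := tendsto_finsetSum (Finset.univ.filter fun s : Fin N → J => dt n s ≠ 0) fun s hs =>
    max_Main (hU N J ψ hψ n k hk s (Finset.mem_filter.1 hs).2)
  have h1 : Tendsto (fun K : ℕ => ((K + 2 : ℕ) : ℝ) / (((K + 2 : ℕ) : ℝ) + 1)) atTop (𝓝 1) :=
    (tendsto_natCast_div_add_atTop (1 : ℝ)).comp (tendsto_add_atTop_nat 2)
  have h2 := ((h1.pow N).mul_const ((N.factorial : ℝ) * (2 * π) ^ N))
  rw [one_pow, one_mul] at h2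
  have h3 := ENNReal.Tendsto.mul_const (ENNReal.tendsto_ofReal h2) (Or.inr (hC.lt_top N).ne)
  have h4 := le_of_tendsto_of_tendsto' h3 hu fun K => by
    have h5 := step_Main hM hI hL hψ h0 (k := k K) (K := K + 2) (by omega)
      (fun i => if_pos (mem_range_self i)) fun j hj => by simp only [k, if_neg hj]; omega
    refine le_trans ?_ (Finset.sum_le_sum fun s _ => le_max_left _ _)
    rw [← Finset.mul_sum]
    refine le_trans (le_of_eq ?_) (mul_le_mul_right h5 _)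
    rw [← ENNReal.ofReal_natCast, ← mul_assoc (ENNReal.ofReal _), ← mul_assoc _ _ (cN N),
      ← ENNReal.ofReal_mul (by positivity), ← ENNReal.ofReal_mul (by positivity)]
    congr 2
    have e : ((K + 2 : ℕ) : ℝ) / (((K + 2 : ℕ) : ℝ) + 1) =
        2 / (K + 3 : ℝ) * (((K + 2 : ℕ) : ℝ) / 2) := by
      push_cast
      field_simp
      ring
    rw [e, mul_pow]
    ring
  rw [← Finset.mul_sum, mul_comm (cN N)] at h4
  exact (ENNReal.mul_le_mul_iff_left (hC.pos N).ne' (hC.lt_top N).ne).1 h4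

end Pool.Agent.MP_5f4cdd_gt.LJ

end

section

set_option autoImplicit false
open Set MeasureTheory Metric Filter Topology
open scoped ENNReal Real Matrix

namespace Pool.Agent.MP_5f4cdd_gt.LJ

theorem inj_Psi1 : Function.Injective fun m : ℕ => 2 * m + 1 := fun a b h => by
  simp only at h
  omega

theorem sum_Psi1 : Summable fun m : ℕ => 1 / ((2 * m + 1 : ℕ) : ℝ) ^ 2 :=
  (Real.summable_one_div_nat_pow.2 one_lt_two).comp_injective inj_Psi1

theorem bd_Psi1 (m : ℕ) {w : ℂ} (hw : w ∈ closedBall (0 : ℂ) 1) :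
    ‖w ^ (2 * m + 1) / ((2 * m + 1 : ℕ) : ℂ) ^ 2‖ ≤ 1 / ((2 * m + 1 : ℕ) : ℝ) ^ 2 := by
  rw [norm_div, norm_pow, norm_pow, Complex.norm_natCast]
  exact div_le_div_of_nonneg_right
    (pow_le_one₀ (norm_nonneg w) (mem_closedBall_zero_iff.1 hw)) (sq_nonneg _)

theorem der_Psi1 (m : ℕ) (w : ℂ) :
    HasDerivAt (fun w : ℂ => w ^ (2 * m + 1) / ((2 * m + 1 : ℕ) : ℂ) ^ 2)
      (w ^ (2 * m) / ((2 * m + 1 : ℕ) : ℂ)) w := by
  have h : ((2 * m + 1 : ℕ) : ℂ) ≠ 0 := Nat.cast_ne_zero.2 (Nat.succ_ne_zero _)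
  refine ((hasDerivAt_pow (2 * m + 1) w).div_const _).congr_deriv ?_
  rw [Nat.add_sub_cancel, sq, mul_div_mul_left _ _ h]

theorem has_Psi1 {w : ℂ} (hw : w ∈ ball (0 : ℂ) 1) :
    HasDerivAt psi0 (((8 / π ^ 2 : ℝ) : ℂ) * ∑' m : ℕ, w ^ (2 * m) / ((2 * m + 1 : ℕ) : ℂ)) w := by
  have hd : ∀ m : ℕ, DifferentiableOn ℂ
      (fun w : ℂ => w ^ (2 * m + 1) / ((2 * m + 1 : ℕ) : ℂ) ^ 2) (ball 0 1) := fun m z _ =>
    (der_Psi1 m z).differentiableAt.differentiableWithinAt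
  have hb := fun (m : ℕ) (z : ℂ) (hz : z ∈ ball (0 : ℂ) 1) => bd_Psi1 m (ball_subset_closedBall hz)
  have h1 := (Complex.differentiableOn_tsum_of_summable_norm sum_Psi1 hd isOpen_ball
    hb).differentiableAt (isOpen_ball.mem_nhds hw)
  have h2 := Complex.hasSum_deriv_of_summable_norm sum_Psi1 hd isOpen_ball hb hw
  simp only [fun m => (der_Psi1 m w).deriv] at h2
  rw [h2.tsum_eq]
  exact h1.hasDerivAt.const_mul _

theorem log_Psi1 {w : ℂ} (hw : ‖w‖ < 1) :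
    HasSum (fun m : ℕ => 2 * (w * (w ^ (2 * m) / ((2 * m + 1 : ℕ) : ℂ))))
      (Complex.log (1 + w) - Complex.log (1 - w)) := by
  have h := (Complex.hasSum_taylorSeries_neg_log hw).sub
    (Complex.hasSum_taylorSeries_neg_log (z := -w) (by rwa [norm_neg]))
  rw [← inj_Psi1.hasSum_iff fun n hn => by
    have : Even n := Nat.not_odd_iff_even.1 fun ⟨m, hm⟩ => hn ⟨m, hm.symm⟩
    rw [this.neg_pow, sub_self]] at h
  rw [sub_neg_eq_add, sub_neg_eq_add, neg_add_eq_sub] at h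
  refine h.congr_fun fun m => ?_
  simp only [Function.comp_apply]
  rw [(odd_two_mul_add_one m).neg_pow]
  ring

theorem psi1_stmt : Psi1Stmt where
  hasDerivAt := fun _ hw => has_Psi1 hw
  mul_deriv := fun w hw => by
    rw [(has_Psi1 hw).deriv, ← (log_Psi1 (mem_ball_zero_iff.1 hw)).tsum_eq, tsum_mul_left,
      tsum_mul_left]
    push_cast
    ring
  cont := continuousOn_const.mul
    (continuousOn_tsum (fun _ => by fun_prop) sum_Psi1 fun m _ hw => bd_Psi1 m hw)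
  conj := fun w => by
    simp only [psi0, map_mul, Complex.conj_ofReal, Complex.conj_tsum, map_div₀, map_pow,
      map_natCast]

end Pool.Agent.MP_5f4cdd_gt.LJ

end

section

set_option autoImplicit false
open Set MeasureTheory Metric Filter Topology
open scoped ENNReal Real Matrix

namespace Pool.Agent.MP_5f4cdd_gt.LJ

theorem sq_Psi3 (s θ : ℝ) :
    ‖1 + (s : ℂ) * Complex.exp (θ * Complex.I)‖ ^ 2 = 1 + s ^ 2 + 2 * s * Real.cos θ := by
  rw [Complex.sq_norm, Complex.normSq_apply]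
  simp only [Complex.add_re, Complex.add_im, Complex.one_re, Complex.one_im, Complex.re_ofReal_mul,
    Complex.im_ofReal_mul, Complex.exp_ofReal_mul_I_re, Complex.exp_ofReal_mul_I_im]
  linear_combination s ^ 2 * Real.cos_sq_add_sin_sq θ

theorem norm_Psi3 (s θ : ℝ) : ‖(s : ℂ) * Complex.exp (θ * Complex.I)‖ = |s| := by
  rw [norm_mul, Complex.norm_exp_ofReal_mul_I, mul_one, Complex.norm_real, Real.norm_eq_abs]

theorem log_Psi3 {s θ θ' : ℝ} (hs : |s| < 1) (h : s * Real.cos θ ≤ s * Real.cos θ') :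
    Real.log ‖1 + (s : ℂ) * Complex.exp (θ * Complex.I)‖ ≤
      Real.log ‖1 + (s : ℂ) * Complex.exp (θ' * Complex.I)‖ := by
  refine Real.log_le_log (norm_pos_iff.2 fun e => ?_) ?_
  · have := norm_Psi3 s θ
    rw [← neg_eq_of_add_eq_zero_right e, norm_neg, norm_one] at this
    exact hs.ne' this
  · refine (pow_le_pow_iff_left₀ (norm_nonneg _) (norm_nonneg _) two_ne_zero).1 ?_
    rw [sq_Psi3, sq_Psi3]
    linarith

theorem deriv_Psi3 (h : Psi1Stmt) {r : ℝ} (hr : |r| < 1) (θ : ℝ) :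
    HasDerivAt (fun θ : ℝ => (psi0 (r * Complex.exp (θ * Complex.I))).im)
      (4 / π ^ 2 * (Real.log ‖1 + (r : ℂ) * Complex.exp (θ * Complex.I)‖ -
        Real.log ‖1 + ((-r : ℝ) : ℂ) * Complex.exp (θ * Complex.I)‖)) θ := by
  have hw : (r : ℂ) * Complex.exp (θ * Complex.I) ∈ ball (0 : ℂ) 1 := by
    rwa [mem_ball_zero_iff, norm_Psi3]
  have h1 := (((hasDerivAt_id (θ : ℂ)).mul_const Complex.I).cexp).const_mul (r : ℂ)
  have h2 := ((h.hasDerivAt _ hw).differentiableAt.hasDerivAt.comp (θ : ℂ) h1).comp_ofReal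
  have h3 := Complex.imCLM.hasFDerivAt.comp_hasDerivAt θ h2
  refine h3.congr_deriv ?_
  have h4 := congrArg Complex.re (h.mul_deriv _ hw)
  rw [Complex.re_ofReal_mul, Complex.sub_re, Complex.log_re, Complex.log_re] at h4
  rw [Complex.ofReal_neg, neg_mul, ← sub_eq_add_neg, ← h4, Complex.imCLM_apply, id, one_mul,
    ← mul_assoc, ← mul_assoc, Complex.mul_I_im, mul_assoc, mul_comm]

theorem conc_Psi3 (h : Psi1Stmt) {r : ℝ} (hr : r ∈ Ioo (0 : ℝ) 1) :
    ConcaveOn ℝ (Icc 0 π) fun θ : ℝ => (psi0 (r * Complex.exp (θ * Complex.I))).im := by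
  have h1 : |r| < 1 := by rw [abs_of_pos hr.1]; exact hr.2
  have hd := deriv_Psi3 h h1
  refine AntitoneOn.concaveOn_of_deriv (convex_Icc _ _)
    (fun θ _ => (hd θ).continuousAt.continuousWithinAt)
    (fun θ _ => (hd θ).differentiableAt.differentiableWithinAt) fun a ha b hb hab => ?_
  rw [(hd a).deriv, (hd b).deriv]
  have hc := Real.cos_le_cos_of_nonneg_of_le_pi (interior_subset ha).1 (interior_subset hb).2 hab
  have hc' := mul_le_mul_of_nonneg_left hc hr.1.le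
  exact mul_le_mul_of_nonneg_left (sub_le_sub (log_Psi3 h1 hc')
    (log_Psi3 (by rwa [abs_neg]) (by linarith))) (by positivity)

theorem psi3_stmt (h : Psi1Stmt) : Psi3Stmt := by
  have hl : ∀ θ : ℝ, Tendsto (fun r : ℝ => (psi0 (r * Complex.exp (θ * Complex.I))).im) (𝓝[<] 1)
      (𝓝 (psi0 (Complex.exp (θ * Complex.I))).im) := fun θ => by
    have hc : ContinuousWithinAt psi0 (closedBall 0 1) (Complex.exp (θ * Complex.I)) :=
      h.cont _ (by rw [mem_closedBall_zero_iff, Complex.norm_exp_ofReal_mul_I])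
    refine (Complex.continuous_im.tendsto _).comp (hc.tendsto.comp
      (f := fun r : ℝ => (r : ℂ) * Complex.exp (θ * Complex.I)) ?_)
    refine tendsto_nhdsWithin_iff.2 ⟨tendsto_nhdsWithin_of_tendsto_nhds ?_, ?_⟩
    · exact (Complex.continuous_ofReal.mul continuous_const).tendsto' 1 _ (by simp)
    · filter_upwards [Ioo_mem_nhdsLT (zero_lt_one' ℝ)] with r hr
      rw [mem_closedBall_zero_iff, norm_Psi3, abs_of_pos hr.1]
      exact hr.2.le
  refine ⟨convex_Icc _ _, fun x hx y hy a b ha hb hab => ?_⟩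
  refine le_of_tendsto_of_tendsto (((hl x).const_smul a).add ((hl y).const_smul b))
    (hl (a • x + b • y)) ?_
  filter_upwards [Ioo_mem_nhdsLT (zero_lt_one' ℝ)] with r hr
  exact (conc_Psi3 h hr).2 hx hy ha hb hab

end Pool.Agent.MP_5f4cdd_gt.LJ

end

section

set_option autoImplicit false
open Set MeasureTheory Metric Filter Topology
open scoped ENNReal Real Matrix

namespace Pool.Agent.MP_5f4cdd_gt.LJ

theorem maxP_stmt : MaxPStmt := by
  intro ψ S hd hc hS hcl hb w hw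
  by_contra hn
  obtain ⟨l, u, h1, h2⟩ := RCLike.geometric_hahn_banach_closed_point (𝕜 := ℂ) hS hcl hn
  have h3 : DiffContOnCl ℂ (fun z => Complex.exp (l (ψ z))) (ball 0 1) :=
    DiffContOnCl.mk_ball ((l.differentiable.comp_differentiableOn hd).cexp)
      ((l.continuous.comp_continuousOn hc).cexp)
  have h4 := Complex.norm_le_of_forall_mem_frontier_norm_le isBounded_ball h3 (C := Real.exp u)
    (fun z hz => by
      rw [frontier_ball _ one_ne_zero] at hz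
      rw [Complex.norm_exp]
      exact Real.exp_le_exp.2 (h1 _ (hb z hz)).le)
    (z := w) (by rwa [closure_ball _ one_ne_zero])
  rw [Complex.norm_exp, Real.exp_le_exp] at h4
  exact absurd h2 (not_lt.2 h4)

end Pool.Agent.MP_5f4cdd_gt.LJ

end

section

set_option autoImplicit false
open Set MeasureTheory Metric Filter Topology
open scoped ENNReal Real Matrix

namespace Pool.Agent.MP_5f4cdd_gt.LJ

theorem pt_G1 {ψ : ℂ → ℂ} {f : ℝ → ℝ} (hG : Gross ψ f) {θ : ℝ} (h1 : θ ∈ Ioc (-π) π)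
    (h0 : θ ≠ 0) (hπ : θ ≠ π) : ∃ (e : Bool) (p : ℝ), |p| < 1 ∧
      (ψ (Complex.exp (θ * Complex.I))).re = p ∧
      (ψ (Complex.exp (θ * Complex.I))).im = sg e * f p ∧ θ = sg e * (π / 2) * (1 - p) := by
  have hp := Real.pi_pos
  have key : ∀ t : ℝ, 0 < t → t < π → |1 - 2 * t / π| < 1 := fun t a b => by
    have h2 : 0 < 2 * t / π := by positivity
    have h3 : 2 * t / π < 2 := by
      rw [div_lt_iff₀ hp]
      linarith
    exact abs_lt.2 ⟨by linarith, by linarith⟩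
  rcases h0.lt_or_gt with h | h
  · have e := hG.down (-θ) ⟨by linarith, by linarith [h1.1]⟩
    rw [Complex.ofReal_neg, neg_neg] at e
    refine ⟨false, 1 - 2 * -θ / π, key _ (by linarith) (by linarith [h1.1]), ?_, ?_, ?_⟩
    · rw [e, Complex.sub_re, Complex.ofReal_re, Complex.re_ofReal_mul, Complex.I_re, mul_zero,
        sub_zero]
    · rw [e, Complex.sub_im, Complex.ofReal_im, Complex.im_ofReal_mul, Complex.I_im]
      simp [sg]
    · simp only [sg, Bool.false_eq_true, if_false]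
      field_simp
      ring
  · have e := hG.up θ ⟨h.le, h1.2⟩
    refine ⟨true, 1 - 2 * θ / π, key _ h (lt_of_le_of_ne h1.2 hπ), ?_, ?_, ?_⟩
    · rw [e, Complex.add_re, Complex.ofReal_re, Complex.re_ofReal_mul, Complex.I_re, mul_zero,
        add_zero]
    · rw [e, Complex.add_im, Complex.ofReal_im, Complex.im_ofReal_mul, Complex.I_im]
      simp [sg]
    · simp only [sg, if_true]
      field_simp
      ring

theorem vol_G1 {N : ℕ} {J : Type} (n : J → Fin N → ℝ) (s : Fin N → J) (e : Fin N → Bool)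
    (S : Set (Fin N → ℝ)) :
    volume ((fun x i => sg (e i) * (π / 2) * (1 - n (s i) ⬝ᵥ x)) '' S) =
      ENNReal.ofReal ((π / 2) ^ N * |dt n s|) * volume S := by
  have e1 : (fun (x : Fin N → ℝ) i => sg (e i) * (π / 2) * (1 - n (s i) ⬝ᵥ x)) =
      (fun y => (fun i => sg (e i) * (π / 2)) + y) ∘
        Matrix.toLin' (Matrix.diagonal (fun i => -(sg (e i) * (π / 2))) * mat n s) := by
    funext x i
    rw [Function.comp_apply, Pi.add_apply, Matrix.toLin'_apply, ← Matrix.mulVec_mulVec,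
      Matrix.mulVec_diagonal, mat_mulVec]
    ring
  rw [e1, image_comp, image_add_left, measure_preimage_add, Measure.addHaar_image_linearMap,
    LinearMap.det_toLin', Matrix.det_mul, Matrix.det_diagonal, abs_mul, Finset.abs_prod]
  have e2 : ∀ i, |-(sg (e i) * (π / 2))| = π / 2 := fun i => by
    rw [abs_neg, abs_mul, sg_abs, one_mul, abs_of_pos Real.pi_div_two_pos]
  simp only [e2, Finset.prod_const, Finset.card_univ, Fintype.card_fin, dt]

theorem g1_stmt : G1Stmt := by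
  intro N J ψ f hG n s hs
  have hae : ∀ᵐ θ : Fin N → ℝ, ∀ i, θ i ≠ 0 ∧ θ i ≠ π := ae_all_iff.2 fun i =>
    (Measure.ae_eval_ne (fun _ : Fin N => (volume : Measure ℝ)) i 0).and
      (Measure.ae_eval_ne (fun _ : Fin N => (volume : Measure ℝ)) i π)
  have hsub : feas (fun _ : J => ψ) n s ≤ᵐ[volume] (⋃ e : Fin N → Bool,
      (fun x i => sg (e i) * (π / 2) * (1 - n (s i) ⬝ᵥ x)) '' good n f s e : Set (Fin N → ℝ)) := by
    filter_upwards [hae] with θ hθ h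
    obtain ⟨hb, hf⟩ : θ ∈ feas (fun _ : J => ψ) n s := h
    choose e p h1 h2 h3 h4 using fun i => pt_G1 hG (hb i (mem_univ i)) (hθ i).1 (hθ i).2
    have hj : ∀ j, |n j ⬝ᵥ solr n s p| ≤ 1 ∧
        |n j ⬝ᵥ vtx n f s e (solr n s p)| ≤ f (n j ⬝ᵥ solr n s p) := fun j => by
      obtain ⟨w, hw, ew⟩ := hf j
      have h5 := hG.inside w hw
      beta_reduce at ew
      rw [ew, dotc_re, dotc_im, solc_re, solc_im] at h5
      simpa only [h2, h3, vtx, dot_solr hs] using h5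
    refine mem_iUnion.2 ⟨e, solr n s p, ⟨fun i => ?_, fun j => (hj j).1, fun j => (hj j).2⟩, ?_⟩
    · rw [dot_solr hs]
      exact h1 i
    · funext i
      beta_reduce
      rw [dot_solr hs]
      exact (h4 i).symm
  refine (measure_mono_ae hsub).trans ((measure_iUnion_fintype_le _ _).trans (le_of_eq ?_))
  exact Finset.sum_congr rfl fun e _ => vol_G1 n s e _

end Pool.Agent.MP_5f4cdd_gt.LJ

end

section

set_option autoImplicit false
open Set MeasureTheory Metric Filter Topology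
open scoped ENNReal Real Matrix

namespace Pool.Agent.MP_5f4cdd_gt.LJ

theorem sep_G4 {N : ℕ} {K : Set (Fin N → ℝ)} (hc : Convex ℝ K) (hK : IsClosed K)
    (hn : K.Nonempty) (hs : ∀ x ∈ K, -x ∈ K) {x : Fin N → ℝ} (hx : x ∉ K) :
    ∃ (v : Fin N → ℝ) (ρ : ℝ), (0 < ρ ∧ ρ < 1) ∧ (∀ y ∈ K, |v ⬝ᵥ y| ≤ 1) ∧ 1 < ρ * (v ⬝ᵥ x) := by
  obtain ⟨l, u, h1, h2⟩ := geometric_hahn_banach_closed_point hc hK hx
  obtain ⟨y0, hy0⟩ := hn
  have hu : 0 < u := by
    have a1 := h1 _ hy0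
    have a2 := h1 _ (hs _ hy0)
    rw [map_neg] at a2
    linarith
  have e : ∀ y, (fun a => l (fun j => if a = j then 1 else 0) / u) ⬝ᵥ y = l y / u := by
    intro y
    have := LinearMap.pi_apply_eq_sum_univ (l : (Fin N → ℝ) →ₗ[ℝ] ℝ) y
    simp only [ContinuousLinearMap.coe_coe, smul_eq_mul] at this
    rw [this, Finset.sum_div]
    exact Finset.sum_congr rfl fun a _ => by ring
  have h3 : 1 < l x / u := (one_lt_div hu).2 h2
  refine ⟨fun a => l (fun j => if a = j then 1 else 0) / u, (1 + (l x / u)⁻¹) / 2,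
    ⟨by positivity, by linarith [inv_lt_one_of_one_lt₀ h3]⟩, fun y hy => ?_, ?_⟩
  · have a1 := h1 _ hy
    have a2 := h1 _ (hs _ hy)
    rw [map_neg] at a2
    rw [e, abs_div, abs_of_pos hu, div_le_one hu, abs_le]
    constructor <;> linarith
  · rw [e]
    generalize l x / u = c at h3
    have : c⁻¹ * c = 1 := inv_mul_cancel₀ (by linarith)
    nlinarith

theorem g4_stmt : G4Stmt := by
  classical
  intro N K hc hK hn hs U hU hKU
  obtain ⟨R, hR, hKR⟩ := hK.isBounded.subset_closedBall_lt 0 0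
  have hQ : IsCompact (closedBall (0 : Fin N → ℝ) (2 * R) \ U) :=
    (isCompact_closedBall _ _).diff hU
  choose! v ρ h1 h2 h3 using fun x (hx : x ∉ U) =>
    sep_G4 hc hK.isClosed hn hs fun h : x ∈ K => hx (hKU h)
  obtain ⟨t, ht, hcov⟩ := hQ.elim_nhds_subcover (fun x => {y | 1 < ρ x * (v x ⬝ᵥ y)})
    fun x hx => (isOpen_lt continuous_const (by fun_prop)).mem_nhds (h3 x hx.2)
  refine ⟨Fin N ⊕ t, inferInstance, inferInstance,
    Sum.elim (fun a => Pi.single a R⁻¹) fun x => v x.1, Sum.elim (fun _ => 1 / 2) fun x => ρ x.1,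
    Sum.inl, ?_, ?_, ?_, fun r hr x hx => ?_⟩
  · rintro (a | x)
    · norm_num
    · exact h1 _ (ht _ x.2).2
  · have : mat (Sum.elim (fun a => Pi.single a R⁻¹) fun x : t => v x.1) (Sum.inl : Fin N → _) =
        Matrix.diagonal fun _ => R⁻¹ := by
      ext i a
      simp [mat, Matrix.diagonal_apply, Pi.single_apply, eq_comm]
    rw [dt, this, Matrix.det_diagonal]
    positivity
  · rintro (a | x) y hy
    · have h4 := (norm_le_pi_norm y a).trans (mem_closedBall_zero_iff.1 (hKR hy))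
      rw [Sum.elim_inl, single_dotProduct, abs_mul, abs_of_pos (inv_pos.2 hR), inv_mul_le_one₀ hR]
      exact h4
    · exact h2 _ (ht _ x.2).2 y hy
  · by_contra hxU
    have h4 : x ∈ closedBall (0 : Fin N → ℝ) (2 * R) := by
      rw [mem_closedBall_zero_iff, pi_norm_le_iff_of_nonneg (by positivity)]
      intro a
      have h5 := hx (Sum.inl a)
      have h6 : 1 / 2 ≤ r (Sum.inl a) := (hr (Sum.inl a)).1
      rw [Sum.elim_inl, smul_dotProduct, single_dotProduct, smul_eq_mul, abs_mul, abs_mul,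
        abs_of_pos (inv_pos.2 hR), abs_of_pos (by linarith), mul_left_comm,
        inv_mul_le_one₀ hR] at h5
      rw [Real.norm_eq_abs]
      nlinarith [abs_nonneg (x a)]
    obtain ⟨z, hz, h5⟩ := mem_iUnion₂.1 (hcov ⟨h4, hxU⟩)
    have h6 := hx (Sum.inr ⟨z, hz⟩)
    have h7 : ρ z ≤ r (Sum.inr ⟨z, hz⟩) := (hr (Sum.inr ⟨z, hz⟩)).1
    have h8 : 1 < ρ z * (v z ⬝ᵥ x) := h5
    have h9 := (h1 _ (ht z hz).2).1
    rw [Sum.elim_inr, smul_dotProduct, smul_eq_mul] at h6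
    have h10 : 0 < v z ⬝ᵥ x := by
      by_contra h
      nlinarith [not_lt.1 h]
    nlinarith [le_abs_self (r (Sum.inr ⟨z, hz⟩) * (v z ⬝ᵥ x))]

end Pool.Agent.MP_5f4cdd_gt.LJ

end

section

set_option autoImplicit false
open Set MeasureTheory Metric Filter Topology
open scoped ENNReal Real Matrix

namespace Pool.Agent.MP_5f4cdd_gt.LJ

theorem dt_smul_Sym {N : ℕ} {J : Type} (n : J → Fin N → ℝ) (r : J → ℝ) (s : Fin N → J) :
    dt (fun j => r j • n j) s = (∏ i, r (s i)) * dt n s := by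
  unfold dt
  rw [← Matrix.det_mul_column]
  congr 1

theorem sup_le_Sym {N : ℕ} {J : Type} {K : Set (Fin N → ℝ)} (hK : K.Nonempty)
    (n : J → Fin N → ℝ) (hn : ∀ j, ∀ y ∈ K, |n j ⬝ᵥ y| ≤ 1) (s : Fin N → J) (e : Fin N → Bool)
    (c : Fin N → ℝ) (hc : ∀ i, 0 < c i) :
    sSup ((fun x : Fin N → ℝ => ∑ a, x a * (∑ i, (c i * sg (e i)) • n (s i)) a) '' K) ≤
      ∑ i, c i := by
  refine csSup_le (hK.image _) ?_
  rintro _ ⟨x, hx, rfl⟩
  have h1 : ∑ a, x a * (∑ i, (c i * sg (e i)) • n (s i)) a =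
      ∑ i, c i * (sg (e i) * (n (s i) ⬝ᵥ x)) := by
    simp only [Finset.sum_apply, Pi.smul_apply, smul_eq_mul, Finset.mul_sum, dotProduct]
    rw [Finset.sum_comm]
    exact Finset.sum_congr rfl fun i _ => Finset.sum_congr rfl fun a _ => by ring
  dsimp only
  rw [h1]
  refine Finset.sum_le_sum fun i _ => mul_le_of_le_one_right (hc i).le ?_
  refine (le_abs_self _).trans ?_
  rw [abs_mul, sg_abs, one_mul]
  exact hn _ x hx

theorem sym_stmt (hG : GrossStmt) (h2 : G2Stmt) (h4 : G4Stmt) (h5 : G5Stmt) : SymStmt := by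
  intro N K hc hK hi hs
  have hne : K.Nonempty := hi.mono interior_subset
  set I := ∫⁻ y : Fin N → ℝ, ENNReal.ofReal
      (Real.exp (-(sSup ((fun x : Fin N → ℝ => ∑ i, x i * y i) '' K)))) with hI
  have key : ∀ U : Set (Fin N → ℝ), IsOpen U → K ⊆ U → (4 : ℝ≥0∞) ^ N ≤ volume U * I := by
    intro U hU hKU
    obtain ⟨J, _, _, n, ρ, s0, hρ, hd, hn, hsub⟩ := h4 N K hc hK hne hs U hU hKU
    obtain ⟨r, hr, ht⟩ := h2 N J f0 hG.cont hG.conc hG.pos n ρ hρ
    have hr0 : ∀ j, 0 < r j := fun j => (hρ j).1.trans_le (hr j).1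
    have hd' : dt (fun j => r j • n j) s0 ≠ 0 := by
      rw [dt_smul_Sym]
      exact mul_ne_zero (Finset.prod_ne_zero_iff.2 fun i _ => (hr0 _).ne') hd
    have hn' : ∀ j, ∀ y ∈ K, |(r j • n j) ⬝ᵥ y| ≤ 1 := fun j y hy => by
      rw [smul_dotProduct, smul_eq_mul, abs_mul, abs_of_pos (hr0 j)]
      exact mul_le_one₀ (hr j).2 (abs_nonneg _) (hn j y hy)
    refine (h5 N J (fun j => r j • n j) s0 hd' ht
      (fun y => sSup ((fun x : Fin N → ℝ => ∑ i, x i * y i) '' K))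
      (fun s e c hc => sup_le_Sym hne _ hn' s e c hc)).trans ?_
    exact mul_le_mul_left (measure_mono (hsub r hr)) _
  have hpos : volume K ≠ 0 := (Measure.measure_pos_of_nonempty_interior volume hi).ne'
  by_cases hT : I = ⊤
  · rw [hT, ENNReal.mul_top hpos]
    exact le_top
  · rw [K.measure_eq_iInf_isOpen volume]
    have : Nonempty (Set (Fin N → ℝ)) := ⟨univ⟩
    rw [ENNReal.iInf_mul fun h => absurd h hT]
    refine le_iInf fun U => ?_
    by_cases c : K ⊆ U ∧ IsOpen U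
    · rw [iInf_pos c.1, iInf_pos c.2]
      exact key U c.2 c.1
    · have h0 : I ≠ 0 := fun h => by
        have := key univ isOpen_univ (subset_univ _)
        rw [h, mul_zero] at this
        exact absurd this (by simp)
      have : (⨅ (_ : K ⊆ U), ⨅ (_ : IsOpen U), volume U) = ⊤ := by
        rw [iInf_eq_top]
        intro a
        rw [iInf_eq_top]
        intro b
        exact absurd ⟨a, b⟩ c
      rw [this, ENNReal.top_mul h0]
      exact le_top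

end Pool.Agent.MP_5f4cdd_gt.LJ

end
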