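import Pool.Agent.Mg.F5f4cddb.G9c2258
import Pool.Agent.Mg.F5f4cddb.G521828
import Pool.Agent.Mg.F5f4cddb.Ga13d99
import Pool.Agent.MP_5f4cdd_gt.DefsInf
import Pool.Agent.Mg.F5f4cdd.Gcba361
import Pool.Agent.Mg.F5f4cddb.G3bbc0e
import Pool.Agent.Mg.F5f4cddb.G25bbd1

set_option linter.all false

section

set_option autoImplicit false
open MeasureTheory Matrix Set Filter Topology
open scoped ENNReal

namespace Pool.Agent.MP_5f4cdd_gt.EQ

variable {N : ℕ} {V W : Set (Fin N → ℝ)} {a b : Fin N → ℝ}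

theorem gg_add_HB (h : Pair V W a b) {p q : Fin N → ℝ} (hp : p ∈ V) (hq : q ∈ V)
    (y y' : Fin N → ℝ) : gg W p q (y + y') ≤ gg W p q y + gg W p q y' := by
  have h1 : gg W p q (y + y') - gg W p q y' ≤ gg W p q y := by
    refine h.le_gg fun x hx x' hx' e => ?_
    have h2 : gg W p q (y + y') - (p ⬝ᵥ x + q ⬝ᵥ x') ≤ gg W p q y' := by
      refine h.le_gg fun z hz z' hz' e' => ?_
      have h3 := h.gg_le hp hq (h.add_mem hx hz) (h.add_mem hx' hz')
      have e2 : x + z - (x' + z') = y + y' := by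
        rw [← e, ← e']
        abel
      rw [e2, dotProduct_add, dotProduct_add] at h3
      linarith
    linarith
  linarith

theorem gg_smul_le_HB (h : Pair V W a b) {p q : Fin N → ℝ} (hp : p ∈ V) (hq : q ∈ V) {c : ℝ}
    (hc : 0 < c) (y : Fin N → ℝ) : gg W p q (c • y) ≤ c * gg W p q y := by
  rw [← inv_mul_le_iff₀ hc]
  refine h.le_gg fun x hx x' hx' e => ?_
  have h3 := h.gg_le hp hq (h.smul_mem hx hc.le) (h.smul_mem hx' hc.le)
  rw [← smul_sub, e, dotProduct_smul, dotProduct_smul, smul_eq_mul, smul_eq_mul, ← mul_add] at h3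
  rwa [inv_mul_le_iff₀ hc]

theorem gg_smul_HB (h : Pair V W a b) {p q : Fin N → ℝ} (hp : p ∈ V) (hq : q ∈ V) {c : ℝ}
    (hc : 0 < c) (y : Fin N → ℝ) : gg W p q (c • y) = c * gg W p q y := by
  refine le_antisymm (gg_smul_le_HB h hp hq hc y) ?_
  have h1 := gg_smul_le_HB h hp hq (inv_pos.2 hc) (c • y)
  rw [smul_smul, inv_mul_cancel₀ hc.ne', one_smul] at h1
  rwa [← le_inv_mul_iff₀ hc]

theorem gg_zero_HB (h : Pair V W a b) {p q : Fin N → ℝ} (hp : p ∈ V) (hq : q ∈ V) :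
    gg W p q 0 = 0 := by
  have h1 := gg_smul_HB h hp hq (c := 2) (by norm_num) 0
  rw [smul_zero] at h1
  linarith

theorem le_gg_smul_HB (h : Pair V W a b) {p q : Fin N → ℝ} (hp : p ∈ V) (hq : q ∈ V) (c : ℝ)
    (y : Fin N → ℝ) : c * gg W p q y ≤ gg W p q (c • y) := by
  rcases lt_trichotomy c 0 with hc | hc | hc
  · have h1 := h.gg_nonneg hp hq (c • y)
    have h2 := h.gg_nonneg hp hq y
    nlinarith
  · rw [hc, zero_smul, gg_zero_HB h hp hq, zero_mul]
  · exact (gg_smul_HB h hp hq hc y).ge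

theorem hb_stmt : HBStmt := by
  intro N V W a b h p hp q hq y
  let f : (Fin N → ℝ) →ₗ.[ℝ] ℝ := LinearPMap.mkSpanSingleton' y (gg W p q y) (by
    intro c hc
    rcases smul_eq_zero.1 hc with h0 | h0
    · simp [h0]
    · simp [h0, gg_zero_HB h hp hq])
  have hf : ∀ x : f.domain, f x ≤ gg W p q x := by
    rintro ⟨x, hx⟩
    obtain ⟨c, rfl⟩ := Submodule.mem_span_singleton.1 hx
    have e : f ⟨c • y, hx⟩ = c * gg W p q y := LinearPMap.mkSpanSingleton'_apply _ _ _ c hx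
    rw [e]
    exact le_gg_smul_HB h hp hq c y
  obtain ⟨g, hg1, hg2⟩ := exists_extension_of_le_sublinear f (gg W p q)
    (fun c hc x => gg_smul_HB h hp hq hc x) (gg_add_HB h hp hq) hf
  let η : Fin N → ℝ := fun i => g fun j => if i = j then 1 else 0
  have hη : ∀ x, η ⬝ᵥ x = g x := by
    intro x
    rw [LinearMap.pi_apply_eq_sum_univ g x]
    unfold dotProduct
    exact Finset.sum_congr rfl fun i _ => mul_comm _ _
  refine ⟨η, (h.dualV _).2 fun w hw => ?_, (h.dualV _).2 fun w hw => ?_, ?_⟩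
  · have h1 := h.gg_le hp hq hw h.zero_mem
    have h2 := hg2 (w - 0)
    rw [sub_zero] at h1 h2
    rw [dotProduct_zero] at h1
    rw [sub_dotProduct, hη]
    linarith
  · have h1 := h.gg_le hp hq h.zero_mem hw
    have h2 := hg2 (0 - w)
    rw [dotProduct_zero] at h1
    rw [map_sub, map_zero] at h2
    rw [add_dotProduct, hη]
    linarith
  · rw [hη]
    have hy : y ∈ f.domain := Submodule.mem_span_singleton_self y
    exact (hg1 ⟨y, hy⟩).trans (LinearPMap.mkSpanSingleton'_apply_self _ _ _ hy)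

end Pool.Agent.MP_5f4cdd_gt.EQ

end

section

set_option autoImplicit false
open MeasureTheory Matrix Set Filter Topology
open scoped ENNReal

namespace Pool.Agent.MP_5f4cdd_gt.EQ

theorem le_hs_CChord {N : ℕ} {Q : Set (Fin N → ℝ)} (hQ : IsCompact Q) {η : Fin N → ℝ}
    (hη : η ∈ Q) (y : Fin N → ℝ) : η ⬝ᵥ y ≤ LJ.hs Q y :=
  le_csSup (hQ.image (f := fun x : Fin N → ℝ => ∑ i, x i * y i) (by fun_prop)).bddAbove
    ⟨η, hη, rfl⟩

theorem hs_eq_CChord {N : ℕ} {Q : Set (Fin N → ℝ)} {η : Fin N → ℝ} (hη : η ∈ Q)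
    (y : Fin N → ℝ) (h : ∀ x ∈ Q, x ⬝ᵥ y ≤ η ⬝ᵥ y) : LJ.hs Q y = η ⬝ᵥ y :=
  IsGreatest.csSup_eq ⟨⟨η, hη, rfl⟩, by
    rintro _ ⟨x, hx, rfl⟩
    exact h x hx⟩

theorem vol_CChord {N : ℕ} {V W : Set (Fin N → ℝ)} {a b : Fin N → ℝ} (h : Pair V W a b) :
    volume {x | b - x ∈ V ∧ b + x ∈ V} ≤ 2 ^ N * Iv V b := by
  have h1 : {x | b - x ∈ V ∧ b + x ∈ V} ⊆ (fun x => b + x) ⁻¹'
      ((fun x => (1 / 2 : ℝ) • x) ⁻¹' {x | x ∈ V ∧ b - x ∈ V}) := by
    intro x hx
    refine ⟨h.symm.smul_mem hx.2 (by norm_num), ?_⟩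
    have e : b - (1 / 2 : ℝ) • (b + x) = (1 / 2 : ℝ) • (b - x) := by module
    show b - (1 / 2 : ℝ) • (b + x) ∈ V
    rw [e]
    exact h.symm.smul_mem hx.1 (by norm_num)
  refine (measure_mono h1).trans (le_of_eq ?_)
  rw [measure_preimage_add, Measure.addHaar_preimage_smul _ (by norm_num), Iv]
  congr 1
  rw [Module.finrank_fin_fun, one_div, inv_pow, inv_inv, abs_of_pos (by positivity),
    ENNReal.ofReal_pow (by norm_num), ENNReal.ofReal_ofNat]

theorem cchord_stmt (hH : HBStmt) (hC : LJ.ChordStmt) : CChordStmt := by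
  intro N V W a b h r hr0 hr1
  have hr1' : 0 < 1 - r := by linarith
  have hb : b ∈ V := h.symm.mem
  have hp : (1 - r)⁻¹ • b ∈ V := h.symm.smul_mem hb (inv_pos.2 hr1').le
  have hq : r⁻¹ • b ∈ V := h.symm.smul_mem hb (inv_pos.2 hr0).le
  set Q : Set (Fin N → ℝ) := {η | (1 - r)⁻¹ • b - η ∈ V ∧ r⁻¹ • b + η ∈ V} with hQ
  have hQc : IsCompact Q := h.symm.isCompact_int _ _
  have hQ0 : (0 : Fin N → ℝ) ∈ interior Q := by
    obtain ⟨ρ, hρ, hball⟩ := h.symm.ball
    refine mem_interior_iff_mem_nhds.2 (mem_of_superset (Metric.closedBall_mem_nhds 0 hρ) ?_)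
    intro x hx
    rw [mem_closedBall_zero_iff] at hx
    have a1 : 1 ≤ (1 - r)⁻¹ := (one_le_inv₀ hr1').2 (by linarith)
    have a2 : 1 ≤ r⁻¹ := (one_le_inv₀ hr0).2 hr1.le
    have e1 : (1 - r)⁻¹ • b - x = (b + -x) + ((1 - r)⁻¹ - 1) • b := by module
    have e2 : r⁻¹ • b + x = (b + x) + (r⁻¹ - 1) • b := by module
    refine ⟨?_, ?_⟩
    · rw [e1]
      exact h.symm.add_mem (hball _ (by rwa [norm_neg])) (h.symm.smul_mem hb (by linarith))
    · rw [e2]
      exact h.symm.add_mem (hball _ hx) (h.symm.smul_mem hb (by linarith))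
  have h1 : ∀ w ∈ W, LJ.hs Q w = (1 - r)⁻¹ * (b ⬝ᵥ w) := by
    intro w hw
    have hm : (1 - r)⁻¹ • b ∈ Q := ⟨by rw [sub_self]; exact h.symm.zero_mem, h.symm.add_mem hq hp⟩
    rw [hs_eq_CChord hm w, smul_dotProduct, smul_eq_mul]
    intro x hx
    have := h.dot_nonneg hx.1 hw
    rw [sub_dotProduct] at this
    linarith
  have h2 : ∀ w ∈ W, LJ.hs Q (-w) = r⁻¹ * (b ⬝ᵥ w) := by
    intro w hw
    have hm : -(r⁻¹ • b) ∈ Q :=
      ⟨by rw [sub_neg_eq_add]; exact h.symm.add_mem hp hq,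
        by rw [add_neg_cancel]; exact h.symm.zero_mem⟩
    rw [hs_eq_CChord hm (-w), neg_dotProduct_neg, smul_dotProduct, smul_eq_mul]
    intro x hx
    have := h.dot_nonneg hx.2 hw
    rw [add_dotProduct] at this
    rw [neg_dotProduct_neg, dotProduct_neg]
    linarith
  have h3 : {x : Fin N → ℝ | ∀ y, (LJ.hs Q y + LJ.hs Q (-y)) * ∑ i, x i * y i ≤
      LJ.hs Q y * LJ.hs Q (-y)} ⊆ {x | b - x ∈ V ∧ b + x ∈ V} := by
    intro x hx
    have key : ∀ w ∈ W, x ⬝ᵥ w ≤ b ⬝ᵥ w ∧ -(x ⬝ᵥ w) ≤ b ⬝ᵥ w := by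
      intro w hw
      rcases (h.nonneg hw).eq_or_lt with h0 | h0
      · rw [h.eq_zero hw h0.ge]
        simp
      have k1 : (LJ.hs Q w + LJ.hs Q (-w)) * (x ⬝ᵥ w) ≤ LJ.hs Q w * LJ.hs Q (-w) := hx w
      have k2 : (LJ.hs Q (-w) + LJ.hs Q (-(-w))) * (x ⬝ᵥ (-w)) ≤
        LJ.hs Q (-w) * LJ.hs Q (-(-w)) := hx (-w)
      rw [neg_neg, dotProduct_neg] at k2
      rw [h1 w hw, h2 w hw] at k1 k2
      have e1 : (1 - r)⁻¹ * (b ⬝ᵥ w) + r⁻¹ * (b ⬝ᵥ w) = (1 - r)⁻¹ * r⁻¹ * (b ⬝ᵥ w) := by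
        field_simp
        ring
      have e2 : (1 - r)⁻¹ * (b ⬝ᵥ w) * (r⁻¹ * (b ⬝ᵥ w)) =
        (1 - r)⁻¹ * r⁻¹ * (b ⬝ᵥ w) * (b ⬝ᵥ w) := by ring
      have hpos : 0 < (1 - r)⁻¹ * r⁻¹ * (b ⬝ᵥ w) := by positivity
      rw [e1, e2] at k1
      rw [add_comm, mul_comm (r⁻¹ * (b ⬝ᵥ w)), e1, e2] at k2
      exact ⟨le_of_mul_le_mul_left k1 hpos, le_of_mul_le_mul_left k2 hpos⟩
    refine ⟨(h.dualV _).2 fun w hw => ?_, (h.dualV _).2 fun w hw => ?_⟩
    · rw [sub_dotProduct]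
      linarith [(key w hw).1]
    · rw [add_dotProduct]
      linarith [(key w hw).2]
  have h4 : ∫⁻ y : Fin N → ℝ, ENNReal.ofReal (Real.exp (-LJ.hs Q y)) ≤
      ∫⁻ y, ENNReal.ofReal (Real.exp (-gg W ((1 - r)⁻¹ • b) (r⁻¹ • b) y)) := by
    refine lintegral_mono fun y => ENNReal.ofReal_le_ofReal (Real.exp_le_exp.2 (neg_le_neg ?_))
    obtain ⟨η, k1, k2, k3⟩ := hH N V W a b h _ hp _ hq y
    rw [← k3]
    exact le_hs_CChord hQc ⟨k1, k2⟩ y
  have h5 := (hC N Q hQc hQ0).trans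
    (mul_le_mul' ((measure_mono h3).trans (vol_CChord h)) h4)
  rw [mul_assoc] at h5
  refine (ENNReal.mul_le_mul_iff_right (a := 2 ^ N) (by positivity)
    (ENNReal.pow_ne_top ENNReal.ofNat_ne_top)).1 ?_
  rwa [mul_one]

end Pool.Agent.MP_5f4cdd_gt.EQ

end

section

set_option autoImplicit false
open MeasureTheory Matrix Set Filter Topology
open scoped ENNReal

namespace Pool.Agent.MP_5f4cdd_gt.EQ

theorem dot_Body {n : ℕ} (v w : Fin (n + 1) → ℝ) :
    v ⬝ᵥ w = v 0 * w 0 + ∑ i : Fin n, v i.succ * w i.succ := by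
  simp [dotProduct, Fin.sum_univ_succ]

theorem pair_Body {n : ℕ} (K : Set (Fin n → ℝ)) {v w : Fin (n + 1) → ℝ} (hv : v ∈ cV K)
    (hw : w ∈ cW K) : 0 ≤ v ⬝ᵥ w := by
  obtain ⟨h0, k, hk, hvk⟩ := hv
  have h1 := hw k hk
  rw [dot_Body]
  have : ∑ i : Fin n, v i.succ * w i.succ = v 0 * ∑ i, k i * w i.succ := by
    rw [Finset.mul_sum]
    exact Finset.sum_congr rfl fun i _ => by rw [hvk i]; ring
  rw [this, ← mul_add]
  exact mul_nonneg h0 h1

theorem single_Body {n : ℕ} (x : Fin n → ℝ) (i : Fin n) (s : ℝ) :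
    ∑ j, x j * (Pi.single i s : Fin n → ℝ) j = x i * s := by
  rw [Finset.sum_eq_single i]
  · simp
  · intro j _ hj
    simp [Pi.single_eq_of_ne hj]
  · simp

theorem sep_Body {n : ℕ} (K : Set (Fin n → ℝ)) (hc : Convex ℝ K) (hK : IsCompact K)
    (x : Fin n → ℝ) (h : ∀ w ∈ cW K, 0 ≤ w 0 + ∑ i, x i * w i.succ) : x ∈ K := by
  by_contra hx
  obtain ⟨f, u, hfx, hfK⟩ := geometric_hahn_banach_point_closed hc hK.isClosed hx
  have hf : ∀ y : Fin n → ℝ, f y = ∑ i, y i * f (Pi.single i 1) := by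
    intro y
    have hy : y = ∑ i, y i • (Pi.single i 1 : Fin n → ℝ) := by
      ext j
      simp [Finset.sum_apply, Pi.single_apply]
    conv_lhs => rw [hy]
    rw [map_sum]
    exact Finset.sum_congr rfl fun i _ => by rw [map_smul, smul_eq_mul]
  have hw : (Fin.cons (-u) (fun i => f (Pi.single i 1)) : Fin (n + 1) → ℝ) ∈ cW K := by
    intro y hy
    have := hfK y hy
    rw [hf y] at this
    simp only [Fin.cons_zero, Fin.cons_succ]
    linarith
  have h2 := h _ hw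
  simp only [Fin.cons_zero, Fin.cons_succ] at h2
  rw [hf x] at hfx
  linarith

theorem body_stmt : BodyStmt := by
  intro n K hc hK h0
  have h0K : (0 : Fin n → ℝ) ∈ K := interior_subset h0
  obtain ⟨R, hR⟩ := hK.isBounded.exists_norm_le
  have hR0 : 0 ≤ R := le_trans (norm_nonneg _) (hR 0 h0K)
  have hRi : ∀ x ∈ K, ∀ i, |x i| ≤ R := fun x hx i =>
    le_trans (by simpa using norm_le_pi_norm x i) (hR x hx)
  refine ⟨fun w => ⟨fun hw v hv => pair_Body K hv hw, fun h x hx => ?_⟩,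
    fun v => ⟨fun hv w hw => pair_Body K hv hw, fun h => ?_⟩, ?_, ?_, ?_⟩
  · have := h (Fin.cons 1 x) ⟨by simp, x, hx, fun i => by simp⟩
    rw [dot_Body] at this
    simpa using this
  · have hv0 : 0 ≤ v 0 := by
      have := h (Pi.single 0 1) (fun x _ => by simp)
      simpa using this
    refine ⟨hv0, ?_⟩
    rcases hv0.lt_or_eq with hp | hz
    · refine ⟨fun i => v i.succ / v 0, sep_Body K hc hK _ fun w hw => ?_, fun i => ?_⟩
      · have h1 := h w hw
        rw [dot_Body] at h1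
        have h2 : w 0 + ∑ i : Fin n, v i.succ / v 0 * w i.succ =
            (v 0 * w 0 + ∑ i : Fin n, v i.succ * w i.succ) / v 0 := by
          rw [add_div, Finset.sum_div, mul_div_cancel_left₀ _ hp.ne']
          congr 1
          exact Finset.sum_congr rfl fun i _ => by ring
        rw [h2]
        exact div_nonneg h1 hp.le
      · field_simp
    · refine ⟨0, h0K, fun i => ?_⟩
      have key : ∀ s : ℝ, |s| ≤ 1 → 0 ≤ v i.succ * s := by
        intro s hs
        have hw : (Fin.cons R (Pi.single i s) : Fin (n + 1) → ℝ) ∈ cW K := by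
          intro x hx
          simp only [Fin.cons_zero, Fin.cons_succ]
          rw [single_Body]
          have h1 : |x i * s| ≤ R := by
            rw [abs_mul]
            exact le_trans (mul_le_of_le_one_right (abs_nonneg _) hs) (hRi x hx i)
          have := (abs_le.1 h1).1
          linarith
        have h1 := h _ hw
        rw [dot_Body] at h1
        simp only [Fin.cons_zero, Fin.cons_succ] at h1
        rw [single_Body, ← hz] at h1
        simpa using h1
      have h1 := key 1 (by simp)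
      have h2 := key (-1) (by simp)
      simp only [Pi.zero_apply, mul_zero]
      linarith
  · refine ⟨(max 1 R)⁻¹, by positivity, fun v hv => ?_⟩
    obtain ⟨hv0, k, hk, hvk⟩ := hv
    have hm : (0 : ℝ) < max 1 R := by positivity
    rw [single_dotProduct, one_mul, inv_mul_le_iff₀ hm]
    refine (pi_norm_le_iff_of_nonneg (by positivity)).2 fun j => ?_
    refine Fin.cases ?_ (fun i => ?_) j
    · rw [Real.norm_eq_abs, abs_of_nonneg hv0]
      exact le_mul_of_one_le_left hv0 (le_max_left _ _)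
    · rw [Real.norm_eq_abs, hvk i, abs_mul, abs_of_nonneg hv0, mul_comm]
      exact mul_le_mul_of_nonneg_right (le_trans (hRi k hk i) (le_max_right _ _)) hv0
  · obtain ⟨ε, hε, hb⟩ := Metric.mem_nhds_iff.1 (mem_interior_iff_mem_nhds.1 h0)
    have hρ : (0 : ℝ) < min 1 (ε / 2) := by positivity
    refine ⟨min 1 (ε / 2), hρ, fun w hw => ?_⟩
    have hw0 : 0 ≤ w 0 := by simpa using hw 0 h0K
    have hn : w 0 ≤ (n + 1 : ℝ) * w 0 :=
      le_mul_of_one_le_left hw0 (by have : (0 : ℝ) ≤ n := Nat.cast_nonneg n; linarith)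
    rw [single_dotProduct]
    refine le_trans ?_ hn
    rw [← le_div_iff₀' hρ]
    refine (pi_norm_le_iff_of_nonneg (by positivity)).2 fun j => ?_
    rw [le_div_iff₀' hρ, Real.norm_eq_abs]
    refine Fin.cases ?_ (fun i => ?_) j
    · rw [abs_of_nonneg hw0]
      exact mul_le_of_le_one_left hw0 (min_le_left _ _)
    · have key : ∀ s : ℝ, |s| = ε / 2 → 0 ≤ w 0 + s * w i.succ := by
        intro s hs
        have hx : (Pi.single i s : Fin n → ℝ) ∈ K := by
          apply hb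
          rw [mem_ball_zero_iff, Pi.norm_single, Real.norm_eq_abs, hs]
          linarith
        have h1 := hw _ hx
        have h2 : ∑ j, (Pi.single i s : Fin n → ℝ) j * w j.succ = s * w i.succ := by
          rw [← mul_comm (w i.succ) s, ← single_Body (fun j => w j.succ) i s]
          exact Finset.sum_congr rfl fun j _ => mul_comm _ _
        rwa [h2] at h1
      have h1 := key (ε / 2) (abs_of_pos (by linarith))
      have h2 := key (-(ε / 2)) (by rw [abs_neg]; exact abs_of_pos (by linarith))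
      have h3 : ε / 2 * |w i.succ| ≤ w 0 := by
        rcases abs_cases (w i.succ) with h | h <;> rw [h.1] <;> linarith
      exact le_trans (mul_le_mul_of_nonneg_right (min_le_right _ _) (abs_nonneg _)) h3
  · rw [single_dotProduct]
    simp

end Pool.Agent.MP_5f4cdd_gt.EQ

end

section

set_option autoImplicit false
open MeasureTheory Matrix Set Filter Topology
open scoped ENNReal Pointwise

namespace Pool.Agent.MP_5f4cdd_gt.EQ

variable {N : ℕ} {V W : Set (Fin N → ℝ)} {a b : Fin N → ℝ}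

theorem isCompact_hull_Key {K K' : Set (Fin N → ℝ)} (hK : IsCompact K) (hK' : IsCompact K')
    (r : ℝ) : IsCompact (OK.hull K K' r) := by
  have h1 := ((isCompact_Icc (a := (0 : ℝ)) (b := 1)).prod (hK.prod hK')).image
    (f := fun p : ℝ × (Fin N → ℝ) × (Fin N → ℝ) =>
      ((1 - p.1) * (1 - r)) • p.2.1 + (p.1 * r) • p.2.2) (by fun_prop)
  have e : OK.hull K K' r = (fun p : ℝ × (Fin N → ℝ) × (Fin N → ℝ) =>
      ((1 - p.1) * (1 - r)) • p.2.1 + (p.1 * r) • p.2.2) '' (Icc 0 1 ×ˢ K ×ˢ K') := by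
    ext z
    constructor
    · rintro ⟨t, h0, h1, p, hp, q, hq, rfl⟩
      exact ⟨(t, p, q), ⟨⟨h0, h1⟩, hp, hq⟩, rfl⟩
    · rintro ⟨⟨t, p, q⟩, ⟨⟨h0, h1⟩, hp, hq⟩, rfl⟩
      exact ⟨t, h0, h1, p, hp, q, hq, rfl⟩
  rwa [e]

/-- the part of the cone below height one -/
def Bs (W : Set (Fin N → ℝ)) (b : Fin N → ℝ) : Set (Fin N → ℝ) := {x | x ∈ W ∧ b ⬝ᵥ x ≤ 1}

theorem body_Key (h : Pair V W a b) : OK.Body0 (Bs W b) := by
  refine ⟨fun x hx y hy s t hs ht hst => ⟨h.convex hx.1 hy.1 hs ht hst, ?_⟩, h.isCompact_le 1,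
    h.zero_mem, by simp⟩
  rw [dotProduct_add, dotProduct_smul, dotProduct_smul, smul_eq_mul, smul_eq_mul]
  nlinarith [hx.2, hy.2]

theorem body_neg_Key (h : Pair V W a b) : OK.Body0 (-Bs W b) :=
  ⟨(body_Key h).conv.neg, (body_Key h).cpt.neg, by simpa using (body_Key h).zero⟩

theorem scale_Key (h : Pair V W a b) {x : Fin N → ℝ} (hx : x ∈ W) {s : ℝ} (hs : 0 < s)
    (hb : b ⬝ᵥ x ≤ s) : s⁻¹ • x ∈ Bs W b := by
  refine ⟨h.smul_mem hx (inv_pos.2 hs).le, ?_⟩
  rw [dotProduct_smul, smul_eq_mul, inv_mul_le_iff₀ hs, mul_one]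
  exact hb

theorem hull_Key (hL : LCStmt) (h : Pair V W a b) {r : ℝ} (h0 : 0 < r) (h1 : r < 1) :
    ∫⁻ y, ENNReal.ofReal (Real.exp (-gg W ((1 - r)⁻¹ • b) (r⁻¹ • b) y)) ≤
      N.factorial * volume (OK.hull (Bs W b) (-Bs W b) r) := by
  have hr : 0 < 1 - r := by linarith
  have hp : (1 - r)⁻¹ • b ∈ V := h.symm.smul_mem h.symm.mem (inv_pos.2 hr).le
  have hq : r⁻¹ • b ∈ V := h.symm.smul_mem h.symm.mem (inv_pos.2 h0).le
  have h2 := hL N univ (OK.hull (Bs W b) (-Bs W b) r) (gg W ((1 - r)⁻¹ • b) (r⁻¹ • b))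
    MeasurableSet.univ
    (isCompact_hull_Key (body_Key h).cpt (body_neg_Key h).cpt r).measurableSet
    (fun y _ => h.gg_nonneg hp hq y) fun y _ t ht => ?_
  · simpa using h2
  have ht0 : 0 < t := (h.gg_nonneg hp hq y).trans_lt ht
  obtain ⟨x, hx, x', hx', rfl, h3⟩ := h.exists_lt_gg ht
  rw [smul_dotProduct, smul_dotProduct, smul_eq_mul, smul_eq_mul] at h3
  set α := (1 - r)⁻¹ * b ⬝ᵥ x with hα
  set β := r⁻¹ * b ⬝ᵥ x' with hβ
  have hα0 : 0 ≤ α := mul_nonneg (inv_pos.2 hr).le (h.nonneg hx)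
  have hβ0 : 0 ≤ β := mul_nonneg (inv_pos.2 h0).le (h.nonneg hx')
  set τ := (t + β - α) / (2 * t) with hτ
  have e1 : τ * t = (t + β - α) / 2 := by rw [hτ]; field_simp
  have hτ0 : 0 < τ := div_pos (by linarith) (by linarith)
  have hτ1 : 0 < 1 - τ := by
    rw [sub_pos, hτ, div_lt_one (by linarith)]
    linarith
  have ex : b ⬝ᵥ x = (1 - r) * α := by rw [hα]; field_simp
  have ex' : b ⬝ᵥ x' = r * β := by rw [hβ]; field_simp
  refine ⟨τ, hτ0.le, by linarith, (t * (1 - τ) * (1 - r))⁻¹ • x,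
    scale_Key h hx (by positivity) ?_, -((t * τ * r)⁻¹ • x'), ?_, ?_⟩
  · rw [ex]
    nlinarith
  · rw [Set.mem_neg, neg_neg]
    refine scale_Key h hx' (by positivity) ?_
    rw [ex']
    nlinarith
  · rw [smul_neg, smul_smul, smul_smul, smul_sub, sub_eq_add_neg]
    congr 2
    · field_simp
    · congr 1
      field_simp

theorem chord_Key (hL : LCStmt) (hC : CChordStmt) (h : Pair V W a b) {r : ℝ} (h0 : 0 < r)
    (h1 : r < 1) :
    1 ≤ (Iv V b).toReal * (N.factorial * volume.real (OK.hull (Bs W b) (-Bs W b) r)) := by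
  have h2 := (hC N V W a b h r h0 h1).trans (mul_le_mul_right (hull_Key hL h h0 h1) _)
  have h3 := ENNReal.toReal_mono (ENNReal.mul_ne_top h.symm.Iv_ne_top (ENNReal.mul_ne_top
    (ENNReal.natCast_ne_top _)
    (isCompact_hull_Key (body_Key h).cpt (body_neg_Key h).cpt r).measure_lt_top.ne)) h2
  simpa [ENNReal.toReal_mul, Measure.real] using h3

theorem real_smul_Key (K : Set (Fin N → ℝ)) {s : ℝ} (hs : 0 ≤ s) :
    volume.real (s • K) = s ^ N * volume.real K := by
  rw [Measure.real, Measure.addHaar_smul, ENNReal.toReal_mul, ENNReal.toReal_ofReal (abs_nonneg _),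
    abs_of_nonneg (pow_nonneg hs _)]
  simp [Measure.real]

theorem small_Key (hL : LCStmt) (h : Pair V W a b) {r δ : ℝ} (h0 : r ≤ δ) (h1 : δ < 1) :
    (1 - δ) ^ N * (Phi W b).toReal ≤ N.factorial * volume.real (OK.hull (Bs W b) (-Bs W b) r) := by
  have h2 : (Phi W b).toReal ≤ N.factorial * volume.real (Bs W b) := by
    have := ENNReal.toReal_mono (ENNReal.mul_ne_top (ENNReal.natCast_ne_top _)
      (h.isCompact_le 1).measure_lt_top.ne) (h.Phi_le hL)
    simpa [ENNReal.toReal_mul, Measure.real, Bs] using this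
  have h3 : (1 - r) • Bs W b ⊆ OK.hull (Bs W b) (-Bs W b) r := by
    rintro _ ⟨p, hp, rfl⟩
    exact ⟨0, le_rfl, zero_le_one, p, hp, 0, (body_neg_Key h).zero, by simp⟩
  have h4 := measureReal_mono (μ := volume) h3
    (isCompact_hull_Key (body_Key h).cpt (body_neg_Key h).cpt r).measure_lt_top.ne
  rw [real_smul_Key _ (by linarith)] at h4
  have h5 : (1 - δ) ^ N ≤ (1 - r) ^ N := pow_le_pow_left₀ (by linarith) (by linarith) N
  have h6 : 0 ≤ volume.real (Bs W b) := measureReal_nonneg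
  calc (1 - δ) ^ N * (Phi W b).toReal ≤ (1 - r) ^ N * (N.factorial * volume.real (Bs W b)) :=
        mul_le_mul h5 h2 ENNReal.toReal_nonneg (pow_nonneg (by linarith) _)
    _ = N.factorial * ((1 - r) ^ N * volume.real (Bs W b)) := by ring
    _ ≤ _ := mul_le_mul_of_nonneg_left h4 (Nat.cast_nonneg _)

theorem base_Key (hL : LCStmt) (h : Pair V W a b) (hN : 1 ≤ N) :
    Real.exp (-N) * ((N : ℝ) ^ N * volume.real (Bs W b)) ≤ (Phi W b).toReal := by
  have hN0 : (0 : ℝ) < N := by exact_mod_cast hN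
  have h1 : (N : ℝ) • Bs W b ⊆ {x | x ∈ W ∧ b ⬝ᵥ x ≤ N} := by
    rintro _ ⟨p, hp, rfl⟩
    refine ⟨h.smul_mem hp.1 hN0.le, ?_⟩
    rw [dotProduct_smul, smul_eq_mul]
    nlinarith [hp.2]
  have h2 := measureReal_mono (μ := volume) h1 (h.isCompact_le N).measure_lt_top.ne
  rw [real_smul_Key _ hN0.le] at h2
  have h3 := ENNReal.toReal_mono (h.Phi_ne_top hL) (h.le_Phi N)
  rw [ENNReal.toReal_mul, ENNReal.toReal_ofReal (Real.exp_pos _).le] at h3
  exact (mul_le_mul_of_nonneg_left h2 (Real.exp_pos _).le).trans h3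

theorem slab_Key (h : Pair V W a b) (hN : 1 ≤ N) : ∃ j : ℕ, j < N ∧
    (Iv W a).toReal ≤
      N * volume.real {x | (x ∈ W ∧ a - x ∈ W) ∧ (j : ℝ) ≤ b ⬝ᵥ x ∧ b ⬝ᵥ x ≤ j + 1} := by
  set L : ℕ → Set (Fin N → ℝ) :=
    fun j => {x | (x ∈ W ∧ a - x ∈ W) ∧ (j : ℝ) ≤ b ⬝ᵥ x ∧ b ⬝ᵥ x ≤ j + 1} with hLd
  obtain ⟨j, hj, hmax⟩ := (Finset.range N).exists_max_image (fun j => volume.real (L j))
    ⟨0, Finset.mem_range.2 hN⟩
  refine ⟨j, Finset.mem_range.1 hj, ?_⟩
  have h1 : {x | x ∈ W ∧ a - x ∈ W} ⊆ ⋃ i ∈ Finset.range N, L i := by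
    intro x hx
    have h0 := h.nonneg hx.1
    have h2 := h.nonneg hx.2
    rw [dotProduct_sub, dotProduct_comm b a, h.dot] at h2
    by_cases h3 : b ⬝ᵥ x < N
    · refine mem_biUnion (x := ⌊b ⬝ᵥ x⌋₊) (Finset.mem_coe.2 (Finset.mem_range.2
        ((Nat.floor_lt h0).2 h3))) ⟨hx, Nat.floor_le h0, (Nat.lt_floor_add_one _).le⟩
    · refine mem_biUnion (x := N - 1) (Finset.mem_coe.2 (Finset.mem_range.2 (by omega)))
        ⟨hx, ?_, ?_⟩ <;> rw [Nat.cast_pred hN] <;> linarith [not_lt.1 h3]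
  have hfin : ∀ i, volume (L i) ≠ ∞ := fun i =>
    ((measure_mono fun x hx => hx.1).trans_lt h.isCompact_Iv.measure_lt_top).ne
  have h2 : (Iv W a).toReal ≤ ∑ i ∈ Finset.range N, volume.real (L i) := by
    refine le_trans (measureReal_mono h1 ?_) (measureReal_biUnion_finset_le _ _)
    exact ((measure_biUnion_finset_le _ _).trans_lt
      (ENNReal.sum_lt_top.2 fun i _ => (hfin i).lt_top)).ne
  refine h2.trans ((Finset.sum_le_sum hmax).trans (le_of_eq ?_))
  simp [hLd]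

theorem count_Key (hN : 1 ≤ N) {δ : ℝ} (h0 : 0 < δ) (h1 : δ < 1) :
    δ * N - 1 ≤ ((Finset.univ.filter fun q : Fin N => OK.rq q ≤ δ).card : ℝ) := by
  set m := ⌊δ * (N + 1)⌋₊ with hm
  have hN0 : (0 : ℝ) < N + 1 := by positivity
  have hm1 : (m : ℝ) ≤ δ * (N + 1) := Nat.floor_le (by positivity)
  have hm2 : δ * (N + 1) < m + 1 := Nat.lt_floor_add_one _
  have hm3 : m ≤ N := by
    have : (m : ℝ) < N + 1 := by nlinarith
    have : m < N + 1 := by exact_mod_cast this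
    omega
  have h2 : m ≤ (Finset.univ.filter fun q : Fin N => OK.rq q ≤ δ).card := by
    have h3 := Finset.card_le_card_of_injOn (s := (Finset.univ : Finset (Fin m)))
      (t := Finset.univ.filter fun q : Fin N => OK.rq q ≤ δ) (Fin.castLE hm3) (fun i _ => by
        simp only [Finset.coe_filter, Finset.mem_univ, true_and, mem_ofPred_eq, OK.rq,
          Fin.val_castLE]
        rw [div_le_iff₀ hN0]
        have : ((i : ℕ) + 1 : ℝ) ≤ m := by exact_mod_cast i.2
        linarith) (Fin.castLE_injective hm3).injOn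
    simpa using h3
  have h4 : (m : ℝ) ≤ _ := Nat.cast_le.2 h2
  linarith

theorem key_stmt (hT : OK.TBStmt) (hF : OK.FactStmt) (hL : LCStmt) (hC : CChordStmt) :
    KeyStmt := by
  intro N V W a b hN h δ Y hδ0 hδ1 hY1 hY
  have hN0 : (0 : ℝ) < N := by exact_mod_cast hN
  have hN1 : (1 : ℝ) ≤ N := by exact_mod_cast hN
  have hIV : 0 < (Iv V b).toReal := ENNReal.toReal_pos h.symm.Iv_ne_zero h.symm.Iv_ne_top
  have hIW : 0 < (Iv W a).toReal := ENNReal.toReal_pos h.Iv_ne_zero h.Iv_ne_top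
  have hP : 0 < (Phi W b).toReal := ENNReal.toReal_pos h.Phi_ne_zero (h.Phi_ne_top hL)
  have hf : (0 : ℝ) < N.factorial := by exact_mod_cast N.factorial_pos
  have hY0 : 0 < Y := by linarith
  have hr0 : ∀ q : Fin N, 0 < OK.rq q := fun q => by unfold OK.rq; positivity
  have hr1 : ∀ q : Fin N, OK.rq q < 1 := fun q => by
    unfold OK.rq
    rw [div_lt_one (by positivity)]
    have : ((q : ℕ) : ℝ) < N := by exact_mod_cast q.2
    linarith
  obtain ⟨j, hj, hs⟩ := slab_Key h hN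
  have hjN : (j : ℝ) < N := by exact_mod_cast hj
  set L := {x | (x ∈ W ∧ a - x ∈ W) ∧ (j : ℝ) ≤ b ⬝ᵥ x ∧ b ⬝ᵥ x ≤ j + 1} with hLd
  set μ : Fin N → ℝ :=
    fun q => (if OK.rq q ≤ δ then Y else 1) / (N.factorial * (Iv V b).toReal) with hμ
  have h1 := hT N (Bs W b) (-Bs W b) L (j + 1) (N - j) μ a hN (body_Key h) (body_neg_Key h)
    (by positivity) (by linarith)
    (fun x hx => ⟨_, scale_Key h hx.1.1 (s := j + 1) (by positivity) hx.2.2, by
      rw [smul_smul, mul_inv_cancel₀ (by positivity), one_smul]⟩)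
    (fun x hx => ⟨-((N - j : ℝ)⁻¹ • (a - x)), by
      rw [Set.mem_neg, neg_neg]
      refine scale_Key h hx.1.2 (by linarith) ?_
      rw [dotProduct_sub, dotProduct_comm b a, h.dot]
      linarith [hx.2.1], by
      rw [smul_neg, smul_smul, mul_inv_cancel₀ (by linarith), one_smul]
      simp⟩)
    (fun q => by
      have h2 := chord_Key hL hC h (hr0 q) (hr1 q)
      refine ⟨div_pos (by split_ifs <;> positivity) (by positivity), ?_⟩
      rw [hμ, div_le_iff₀ (by positivity)]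
      split_ifs with hq
      · rcases hY with hY | hY
        · rw [hY]
          linarith
        · have h3 := mul_le_mul_of_nonneg_right (small_Key hL h hq hδ1) hIV.le
          linarith
      · linarith)
  have hneg : volume.real (-Bs W b) = volume.real (Bs W b) := by
    simp [Measure.real, Measure.measure_neg]
  rw [hneg] at h1
  have hL0 : 0 < volume.real L := by
    by_contra h2
    have := mul_le_mul_of_nonneg_left (not_lt.1 h2) hN0.le
    linarith
  have hB0 : 0 < volume.real (Bs W b) := by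
    by_contra h2
    have h3 : volume.real (Bs W b) = 0 := le_antisymm (not_lt.1 h2) measureReal_nonneg
    rw [h3] at h1
    have : 0 < volume.real L * Real.exp ((∑ q, Real.log (μ q)) / N) * Real.exp N := by positivity
    simp only [mul_zero] at h1
    linarith
  have e0 : (j + 1 : ℝ) + (N - j) = N + 1 := by ring
  rw [e0] at h1
  have h2 := Real.log_le_log (by positivity) h1
  rw [Real.log_mul (by positivity) (by positivity), Real.log_mul (by positivity) (by positivity),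
    Real.log_exp, Real.log_exp, Real.log_mul (by positivity) (by positivity),
    Real.log_mul (by positivity) (by positivity), Real.log_mul (by positivity) (by positivity),
    Real.log_exp, Real.log_pow, Real.log_pow, Real.log_mul hB0.ne' hB0.ne'] at h2
  have h3 := Real.log_le_log hIW hs
  rw [Real.log_mul hN0.ne' hL0.ne'] at h3
  have h4 := Real.log_le_log (by positivity) (base_Key hL h hN)
  rw [Real.log_mul (by positivity) (by positivity), Real.log_exp,
    Real.log_mul (by positivity) hB0.ne', Real.log_pow] at h4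
  have h5 : ∑ q, Real.log (μ q) =
      ((Finset.univ.filter fun q : Fin N => OK.rq q ≤ δ).card : ℝ) * Real.log Y -
        N * (Real.log N.factorial + Real.log (Iv V b).toReal) := by
    have : ∀ q, Real.log (μ q) = (if OK.rq q ≤ δ then Real.log Y else 0) -
        (Real.log N.factorial + Real.log (Iv V b).toReal) := fun q => by
      rw [hμ, Real.log_div (by split_ifs <;> positivity) (by positivity),
        Real.log_mul hf.ne' hIV.ne']
      split_ifs <;> simp
    simp only [this, Finset.sum_sub_distrib, Finset.sum_const, Finset.card_univ, Fintype.card_fin,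
      nsmul_eq_mul]
    rw [← Finset.sum_filter, Finset.sum_const, nsmul_eq_mul]
  have hlY : 0 ≤ Real.log Y := Real.log_nonneg hY1
  have h6 : (δ - 1 / N) * Real.log Y - (Real.log N.factorial + Real.log (Iv V b).toReal) ≤
      (∑ q, Real.log (μ q)) / N := by
    rw [h5, le_div_iff₀ hN0]
    have h7 := mul_le_mul_of_nonneg_right (count_Key hN hδ0 hδ1) hlY
    have e1 : (δ - 1 / N) * N = δ * N - 1 := by field_simp
    nlinarith
  have h7 := (hF N).2
  have h8 : Real.log N ≤ Real.log (N + 1) := Real.log_le_log hN0 (by linarith)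
  have h9 : (N : ℝ) * Real.log (N + 1) ≤ N * Real.log N + 1 := by
    have e1 : Real.log (N + 1) = Real.log N + Real.log (1 + 1 / N) := by
      rw [← Real.log_mul hN0.ne' (by positivity)]
      congr 1
      field_simp
    have e2 := Real.log_le_sub_one_of_pos (x := 1 + 1 / N) (by positivity)
    have e3 : (N : ℝ) * Real.log (1 + 1 / N) ≤ 1 := by
      have := mul_le_mul_of_nonneg_left e2 hN0.le
      have e4 : (N : ℝ) * (1 + 1 / N - 1) = 1 := by field_simp; ring
      linarith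
    rw [e1]
    linarith
  push_cast at h2
  linarith

end Pool.Agent.MP_5f4cdd_gt.EQ

end

section

set_option autoImplicit false
open MeasureTheory Matrix Set Filter Topology
open scoped ENNReal

namespace Pool.Agent.MP_5f4cdd_gt.EQ

section


/-- the support function -/
noncomputable def hs_Red {n : ℕ} (K : Set (Fin n → ℝ)) (y : Fin n → ℝ) : ℝ :=
  sSup ((fun x : Fin n → ℝ => ∑ i, x i * y i) '' K)

variable {n : ℕ} {K : Set (Fin n → ℝ)}

theorem cont_Red (hK : IsCompact K) : Continuous (hs_Red K) :=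
  hK.continuous_sSup (f := fun (y x : Fin n → ℝ) => ∑ i, x i * y i) (by
    show Continuous fun p : (Fin n → ℝ) × (Fin n → ℝ) => ∑ i, p.2 i * p.1 i
    fun_prop)

theorem le_iff_Red (hK : IsCompact K) (hne : K.Nonempty) (y : Fin n → ℝ) (s : ℝ) :
    hs_Red K y ≤ s ↔ ∀ x ∈ K, ∑ i, x i * y i ≤ s := by
  have hc : ContinuousOn (fun x : Fin n → ℝ => ∑ i, x i * y i) K := by fun_prop
  rw [hs_Red, csSup_le_iff (hK.bddAbove_image hc) (hne.image _), forall_mem_image]

theorem smul_Red (hK : IsCompact K) (hne : K.Nonempty) (y : Fin n → ℝ) {c : ℝ} (hc : 0 < c) :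
    hs_Red K (c • y) = c * hs_Red K y := by
  refine eq_of_forall_ge_iff fun s => ?_
  rw [← le_div_iff₀' hc, le_iff_Red hK hne, le_iff_Red hK hne]
  refine forall₂_congr fun x _ => ?_
  rw [le_div_iff₀' hc, Finset.mul_sum]
  refine Iff.of_eq (congrArg (· ≤ s) (Finset.sum_congr rfl fun i _ => ?_))
  rw [Pi.smul_apply, smul_eq_mul, mul_left_comm]

theorem mem_Red (hK : IsCompact K) (hne : K.Nonempty) (ζ : (Fin (n + 1) → ℝ)) :
    ζ ∈ cW K ↔ hs_Red K (-fun i => ζ i.succ) ≤ ζ 0 := by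
  rw [le_iff_Red hK hne]
  refine forall₂_congr fun x _ => ?_
  simp only [Pi.neg_apply, mul_neg, Finset.sum_neg_distrib]
  constructor <;> intro h <;> linarith

theorem inner_Red {c : ℝ} (hc : 0 < c) (t : ℝ) :
    ∫⁻ s in Ici t, ENNReal.ofReal (Real.exp (-c * s)) =
      ENNReal.ofReal c⁻¹ * ENNReal.ofReal (Real.exp (-(c * t))) := by
  rw [← setLIntegral_congr Ioi_ae_eq_Ici, ← ofReal_integral_eq_lintegral_ofReal
    (integrableOn_exp_mul_Ioi (neg_lt_zero.2 hc) t)
    (Eventually.of_forall fun s => (Real.exp_pos _).le),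
    integral_exp_mul_Ioi (neg_lt_zero.2 hc), ← ENNReal.ofReal_mul (inv_nonneg.2 hc.le),
    neg_div_neg_eq, neg_mul, div_eq_inv_mul]

theorem scale_Red {g : (Fin n → ℝ) → ENNReal} (hg : Measurable g) {c : ℝ} (hc : 0 < c) :
    ∫⁻ w, g (c • -w) = ENNReal.ofReal (c ^ n)⁻¹ * ∫⁻ y, g y := by
  have h := Measure.map_addHaar_smul (volume : Measure (Fin n → ℝ)) (neg_ne_zero.2 hc.ne')
  have e : ∫⁻ w, g (c • -w) = ∫⁻ y, g y ∂(Measure.map ((-c) • ·) volume) := by
    rw [lintegral_map hg (measurable_const_smul _)]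
    simp only [smul_neg, neg_smul]
  rw [e, h, lintegral_smul_measure, Module.finrank_fin_fun, abs_inv, abs_pow, abs_neg,
    abs_of_pos hc, smul_eq_mul]

theorem phi_cW (hK : IsCompact K) (hne : K.Nonempty) :
    Phi (cW K) (Pi.single 0 (n + 1 : ℝ)) = ENNReal.ofReal ((n + 1 : ℝ) ^ (n + 1))⁻¹ *
      ∫⁻ y : Fin n → ℝ, ENNReal.ofReal
        (Real.exp (-(sSup ((fun x : Fin n → ℝ => ∑ i, x i * y i) '' K)))) := by
  have hc : (0 : ℝ) < n + 1 := by positivity
  have hh := cont_Red hK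
  have hS : MeasurableSet {p : ℝ × (Fin n → ℝ) | hs_Red K (-p.2) ≤ p.1} :=
    (isClosed_le (hh.comp continuous_snd.neg) continuous_fst).measurableSet
  have hW : MeasurableSet (cW K) := by
    have e : cW K = {ζ : (Fin (n + 1) → ℝ) | hs_Red K (-fun i => ζ i.succ) ≤ ζ 0} :=
      Set.ext (mem_Red hK hne)
    rw [e]
    exact (isClosed_le (hh.comp (by fun_prop)) (continuous_apply 0)).measurableSet
  let F : ℝ × (Fin n → ℝ) → ENNReal := {p : ℝ × (Fin n → ℝ) | hs_Red K (-p.2) ≤ p.1}.indicator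
    fun p => ENNReal.ofReal (Real.exp (-(n + 1 : ℝ) * p.1))
  have hF : Measurable F := Measurable.indicator (by fun_prop) hS
  have e1 : ∫⁻ η in cW K,
      ENNReal.ofReal (Real.exp (-((Pi.single 0 (n + 1 : ℝ) : (Fin (n + 1) → ℝ)) ⬝ᵥ η))) =
      ∫⁻ η, F (MeasurableEquiv.piFinSuccAbove (fun _ => ℝ) 0 η) := by
    rw [← lintegral_indicator hW]
    refine lintegral_congr fun η => ?_
    by_cases h : η ∈ cW K
    · rw [indicator_of_mem h, single_dotProduct, ← neg_mul]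
      have h' : (η 0, fun i : Fin n => η i.succ) ∈
        {p : ℝ × (Fin n → ℝ) | hs_Red K (-p.2) ≤ p.1} := (mem_Red hK hne η).1 h
      exact (indicator_of_mem h'
        (fun p => ENNReal.ofReal (Real.exp (-(n + 1 : ℝ) * p.1)))).symm
    · rw [indicator_of_notMem h]
      exact (indicator_of_notMem (s := {p : ℝ × (Fin n → ℝ) | hs_Red K (-p.2) ≤ p.1})
        (fun k => h ((mem_Red hK hne η).2 k)) _).symm
  have e2 : ∀ w : Fin n → ℝ, ∫⁻ s, F (s, w) = ENNReal.ofReal (n + 1 : ℝ)⁻¹ *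
      ENNReal.ofReal (Real.exp (-hs_Red K ((n + 1 : ℝ) • -w))) := by
    intro w
    rw [smul_Red hK hne _ hc, ← inner_Red hc, ← lintegral_indicator measurableSet_Ici]
    rfl
  have hg : Measurable fun y => ENNReal.ofReal (Real.exp (-hs_Red K y)) :=
    hh.neg.rexp.measurable.ennreal_ofReal
  rw [Phi, e1, (volume_preserving_piFinSuccAbove (fun _ : Fin (n + 1) => ℝ) 0).lintegral_comp_emb
    (MeasurableEquiv.measurableEmbedding _) F, Measure.volume_eq_prod,
    lintegral_prod_symm F hF.aemeasurable, lintegral_congr e2,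
    lintegral_const_mul' _ _ ENNReal.ofReal_ne_top, scale_Red hg hc, ← mul_assoc,
    ← ENNReal.ofReal_mul (inv_nonneg.2 hc.le), ← mul_inv, ← pow_succ']
  rfl

end

theorem rows_Red {N : ℕ} (T : Set (Fin N → ℝ)) (hT : Submodule.span ℝ T = ⊤) :
    ∃ a : Fin N → Fin N → ℝ, (∀ i, a i ∈ T) ∧ (Matrix.of a).det ≠ 0 := by
  obtain ⟨f, hf, -, hli⟩ := Submodule.exists_fun_fin_finrank_span_eq ℝ T
  have hr : N = Module.finrank ℝ (Submodule.span ℝ T) := by
    rw [hT]; simp
  refine ⟨fun i => f (Fin.cast hr i), fun i => hf _, ?_⟩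
  have h2 : LinearIndependent ℝ (Matrix.of fun i => f (Fin.cast hr i)).row :=
    hli.comp _ (Fin.cast_injective hr)
  have h3 := Matrix.linearIndependent_rows_iff_isUnit.1 h2
  exact ((Matrix.isUnit_iff_isUnit_det _).1 h3).ne_zero

/-- maximal determinant simplex -/
theorem maxdet_Red {N : ℕ} (T : Set (Fin N → ℝ)) (hc : IsCompact T)
    (hT : Submodule.span ℝ T = ⊤) :
    ∃ a : Fin N → Fin N → ℝ, (∀ i, a i ∈ T) ∧ (Matrix.of a).det ≠ 0 ∧
      ∀ w ∈ T, ‖((Matrix.of a)ᵀ)⁻¹ *ᵥ w‖ ≤ 1 := by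
  obtain ⟨a0, ha0, hd0⟩ := rows_Red T hT
  have hK : IsCompact (Set.pi univ fun _ : Fin N => T) := isCompact_univ_pi fun _ => hc
  have hcont : Continuous fun a : Fin N → Fin N → ℝ => |(Matrix.of a).det| := by
    have h1 : Continuous fun a : Fin N → Fin N → ℝ => (Matrix.of a : Matrix (Fin N) (Fin N) ℝ) := continuous_id
    exact (h1.matrix_det).abs
  obtain ⟨a, ha, hmax⟩ := hK.exists_isMaxOn ⟨a0, fun i _ => ha0 i⟩ hcont.continuousOn
  have hle : ∀ b : Fin N → Fin N → ℝ, (∀ i, b i ∈ T) → |(Matrix.of b).det| ≤ |(Matrix.of a).det| :=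
    fun b hb => hmax (fun i _ => hb i)
  have hpos : 0 < |(Matrix.of a).det| := lt_of_lt_of_le (abs_pos.2 hd0) (hle a0 ha0)
  have hd : (Matrix.of a).det ≠ 0 := abs_pos.1 hpos
  refine ⟨a, fun i => ha i (mem_univ _), hd, fun w hw => ?_⟩
  rw [pi_norm_le_iff_of_nonneg zero_le_one]
  intro i
  have hu : IsUnit ((Matrix.of a)ᵀ).det := by
    rw [Matrix.det_transpose]; exact hd.isUnit
  have h1 := congrFun (Matrix.det_smul_inv_mulVec_eq_cramer ((Matrix.of a)ᵀ) w hu) i
  rw [Matrix.cramer_transpose_apply, Matrix.det_transpose, Pi.smul_apply, smul_eq_mul] at h1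
  have h2 : |((Matrix.of a).updateRow i w).det| ≤ |(Matrix.of a).det| := by
    refine hle (Function.update a i w) fun j => ?_
    by_cases hj : j = i
    · subst hj; simpa using hw
    · rw [Function.update_of_ne hj]; exact ha j (mem_univ _)
  rw [← h1, abs_mul] at h2
  rw [Real.norm_eq_abs]
  exact (mul_le_iff_le_one_right hpos).1 h2

theorem comb_Red {N : ℕ} (T : Set (Fin N → ℝ)) (hT : Convex ℝ T) (h0 : (0 : Fin N → ℝ) ∈ T)
    (a : Fin N → Fin N → ℝ) (ha : ∀ i, a i ∈ T) (ζ : Fin N → ℝ) (hζ : ∀ i, 0 ≤ ζ i)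
    (hs : ∑ i, ζ i ≤ 1) : (Matrix.of a)ᵀ *ᵥ ζ ∈ T := by
  have h1 : (Matrix.of a)ᵀ *ᵥ ζ =
      ∑ o : Option (Fin N), (o.elim (1 - ∑ i, ζ i) ζ) • (o.elim (0 : Fin N → ℝ) a) := by
    rw [Fintype.sum_option]
    ext j
    simp [Matrix.mulVec, dotProduct, Finset.sum_apply, mul_comm]
  rw [h1]
  refine hT.sum_mem (fun o _ => ?_) ?_ (fun o _ => ?_)
  · cases o with
    | none => simpa using hs
    | some i => exact hζ i
  · rw [Fintype.sum_option]; simp
  · cases o with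
    | none => exact h0
    | some i => exact ha i


theorem nrm_stmt2 : NrmStmt := by
  intro n K hcv hc hint
  obtain ⟨v, hv⟩ := hint
  have hT0 : (0 : Fin n → ℝ) ∈ (fun x => x - v) '' K := ⟨v, interior_subset hv, sub_self v⟩
  have hTc : IsCompact ((fun x => x - v) '' K) := hc.image (by fun_prop)
  have hTcv : Convex ℝ ((fun x => x - v) '' K) := by
    simpa only [sub_eq_neg_add] using hcv.translate (-v)
  have hspan : Submodule.span ℝ ((fun x => x - v) '' K) = ⊤ := by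
    refine Submodule.eq_top_of_nonempty_interior' _ ⟨0, ?_⟩
    rw [mem_interior_iff_mem_nhds] at hv ⊢
    have h1 : (fun w : Fin n → ℝ => w + v) ⁻¹' K ∈ 𝓝 0 := by
      refine ContinuousAt.preimage_mem_nhds (by fun_prop) ?_
      simpa using hv
    exact mem_of_superset h1 fun w hw => Submodule.subset_span ⟨w + v, hw, add_sub_cancel_right w v⟩
  obtain ⟨a, ha, hd, hout⟩ := maxdet_Red _ hTc hspan
  have hu : IsUnit ((Matrix.of a)ᵀ).det := by
    rw [Matrix.det_transpose]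
    exact hd.isUnit
  let L : (Fin n → ℝ) ≃ₗ[ℝ] (Fin n → ℝ) :=
    Matrix.toLin'OfInv (Matrix.mul_nonsing_inv _ hu) (Matrix.nonsing_inv_mul _ hu)
  have hL : ∀ x, L x = ((Matrix.of a)ᵀ)⁻¹ *ᵥ x := fun x => rfl
  refine ⟨(AffineEquiv.vaddConst ℝ v).symm.trans L.toAffineEquiv, fun ζ hζ => ?_, ?_⟩
  · obtain ⟨x, hx, e⟩ := comb_Red _ hTcv hT0 a ha ζ hζ.1 hζ.2
    refine ⟨x, hx, ?_⟩
    change L (x - v) = ζ
    have e' : x - v = (Matrix.of a)ᵀ *ᵥ ζ := e
    rw [hL, e', Matrix.mulVec_mulVec, Matrix.nonsing_inv_mul _ hu, Matrix.one_mulVec]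
  · rintro _ ⟨x, hx, rfl⟩
    rw [mem_closedBall_zero_iff]
    exact hout _ ⟨x, hx, rfl⟩

end Pool.Agent.MP_5f4cdd_gt.EQ

end

section

set_option autoImplicit false
open MeasureTheory Matrix Set Filter Topology
open scoped ENNReal

namespace Pool.Agent.MP_5f4cdd_gt.EQ

variable {n : ℕ} {K : Set (Fin n → ℝ)}

theorem one_Sharp (n : ℕ) : ENNReal.ofReal ((n + 1 : ℝ) ^ (n + 1) / n.factorial) *
    (n.factorial * ENNReal.ofReal ((n + 1 : ℝ) ^ (n + 1))⁻¹) = 1 := by
  have hN : (0 : ℝ) < (n + 1 : ℝ) ^ (n + 1) := by positivity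
  have hF : (0 : ℝ) < (n.factorial : ℝ) := by exact_mod_cast n.factorial_pos
  rw [← ENNReal.ofReal_natCast, ← ENNReal.ofReal_mul hF.le, ← ENNReal.ofReal_mul (by positivity),
    ← ENNReal.ofReal_one]
  congr 1
  field_simp

theorem phi_le_Sharp (hV : VolStmt) (hK : IsCompact K) (hne : K.Nonempty) :
    Phi (cV K) (Pi.single 0 1) * Phi (cW K) (Pi.single 0 (n + 1 : ℝ)) ≤
      n.factorial * ENNReal.ofReal ((n + 1 : ℝ) ^ (n + 1))⁻¹ * mahlerInf K := by
  rw [phi_cW hK hne]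
  refine (mul_le_mul_left (hV n K hK) _).trans (le_of_eq ?_)
  rw [mahlerInf]
  ring

theorem body_le (hM : CMainStmt) (hB : BodyStmt) (hV : VolStmt) (hc : Convex ℝ K)
    (hK : IsCompact K) (h0 : 0 ∈ interior K) :
    ENNReal.ofReal ((n + 1 : ℝ) ^ (n + 1) / n.factorial) ≤ mahlerInf K := by
  have h1 := (hM _ _ _ _ _ (hB n K hc hK h0)).trans (phi_le_Sharp hV hK ⟨0, interior_subset h0⟩)
  have h2 := mul_le_mul_right h1 (ENNReal.ofReal ((n + 1 : ℝ) ^ (n + 1) / n.factorial))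
  rwa [mul_one, ← mul_assoc, one_Sharp, one_mul] at h2

theorem extreme_Sharp {x : Fin n → ℝ} (hx : x ∈ K.extremePoints ℝ) {η : Fin (n + 1) → ℝ}
    (h1 : η ∈ cV K) (h2 : (Fin.cons 1 x : Fin (n + 1) → ℝ) - η ∈ cV K) :
    ∃ t : ℝ, η = t • (Fin.cons 1 x : Fin (n + 1) → ℝ) := by
  obtain ⟨s0, k, hk, e1⟩ := h1
  obtain ⟨s1, k', hk', e2⟩ := h2
  simp only [Pi.sub_apply, Fin.cons_zero, Fin.cons_succ] at s1 e2
  refine ⟨η 0, funext fun i => ?_⟩
  refine Fin.cases (by simp) (fun j => ?_) i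
  simp only [Pi.smul_apply, Fin.cons_succ, smul_eq_mul]
  rcases s0.eq_or_lt with h3 | h3
  · rw [e1, ← h3, zero_mul, zero_mul]
  rcases s1.eq_or_lt with h4 | h4
  · have h5 := e2 j
    rw [← h4, zero_mul] at h5
    have h6 : η 0 = 1 := by linarith
    rw [h6]
    linarith
  · have h5 : x ∈ openSegment ℝ k k' := ⟨η 0, 1 - η 0, h3, h4, by ring, funext fun l => by
      have := e2 l
      rw [e1] at this
      simp only [Pi.add_apply, Pi.smul_apply, smul_eq_mul]
      linarith⟩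
    rw [e1, hx.2 hk hk' h5]

theorem body_eq (hE : CEqStmt) (hL : LatStmt) (hI : IndStmt) (hS : SimpStmt) (hB : BodyStmt)
    (hV : VolStmt) (hc : Convex ℝ K) (hK : IsCompact K) (h0 : 0 ∈ interior K)
    (hle : mahlerInf K ≤ ENNReal.ofReal ((n + 1 : ℝ) ^ (n + 1) / n.factorial)) :
    ∃ f : (Fin n → ℝ) ≃ᵃ[ℝ] (Fin n → ℝ), K = f '' stdS n := by
  have hP := hB n K hc hK h0
  have h1 := (phi_le_Sharp hV hK ⟨0, interior_subset h0⟩).trans (mul_le_mul_right hle _)
  rw [mul_comm _ (ENNReal.ofReal ((n + 1 : ℝ) ^ (n + 1) / n.factorial)), one_Sharp] at h1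
  have h2 := hL _ _ _ _ _ hP (hE _ _ _ _ _ hP h1)
  refine hS n K hc hK ⟨0, h0⟩ fun s hs => ?_
  have h3 := hI _ _ _ _ _ hP h2 s (fun x => (Fin.cons 1 (x : Fin n → ℝ) : Fin (n + 1) → ℝ))
    (fun x => ⟨by simp, x, (hs x.2).1, fun i => by simp⟩) (fun x => by simp)
    (fun x η h4 h5 => extreme_Sharp (hs x.2) h4 h5)
    (fun x y hxy => Subtype.ext (funext fun i => by simpa using congrFun hxy i.succ))
  rw [affineIndependent_iff]
  intro t w hw h4 e he
  refine linearIndependent_iff'.1 h3 t w (funext fun i => ?_) e he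
  refine Fin.cases ?_ (fun j => ?_) i
  · simpa [Finset.sum_apply] using hw
  · simpa [Finset.sum_apply] using congrFun h4 j

end Pool.Agent.MP_5f4cdd_gt.EQ

end

section

set_option autoImplicit false
open MeasureTheory ENNReal Set Function Filter Topology Pointwise

namespace Pool.Agent.MP_5f4cdd_gt.EQ

open PL EF AB

variable {n : ℕ}

/-- the sharp inequality for bodies with the origin inside -/
def LeStmt : Prop := ∀ (n : ℕ) (K : Set (Fin n → ℝ)), Convex ℝ K → IsCompact K → 0 ∈ interior K →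
  ENNReal.ofReal ((n + 1 : ℝ) ^ (n + 1) / n.factorial) ≤ mahlerInf K

/-- its equality case -/
def EqStmt : Prop := ∀ (n : ℕ) (K : Set (Fin n → ℝ)), Convex ℝ K → IsCompact K → 0 ∈ interior K →
  mahlerInf K ≤ ENNReal.ofReal ((n + 1 : ℝ) ^ (n + 1) / n.factorial) →
  ∃ f : (Fin n → ℝ) ≃ᵃ[ℝ] (Fin n → ℝ), K = f '' stdS n

theorem cS_le_Fin : mahlerInf (cS n 1) ≤ ENNReal.ofReal ((n + 1 : ℝ) ^ (n + 1) / n.factorial) := by
  have hF : (0 : ℝ) < (n.factorial : ℝ) := by exact_mod_cast n.factorial_pos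
  rw [← ENNReal.ofReal_toReal mahlerInf_cS_lt_top.ne]
  refine ENNReal.ofReal_le_ofReal ?_
  rw [le_div_iff₀' hF]
  exact AB.mahlerInf_cS_le

theorem zero_mem_Fin {K : Set (E n)} {c : E n} (hc : c ∈ interior K) :
    (0 : E n) ∈ interior ((fun z => z - c) '' K) := by
  have h := (Homeomorph.subRight c).image_interior K
  exact h ▸ ⟨c, hc, sub_self c⟩

theorem centre_Fin {K : Set (E n)} (hK : Body K) :
    ∃ c ∈ interior K, mahlerInf ((fun z => z - c) '' K) = mstarInf K := by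
  obtain ⟨c, hc, h⟩ := exists_santalo hK.conv hK.comp.isBounded hK.int
  refine ⟨c, hc, ?_⟩
  rw [mstarInf_eq hK.comp.isBounded (hK.int.mono interior_subset), h, PL.mahlerInf_eq, volume_sub,
    lintegral_expS_sub hK.comp.isBounded (interior_subset hc)]

theorem simplex_Fin (hE : EqStmt) {K : Set (E n)} (hK : Body K)
    (hle : mstarInf K ≤ mahlerInf (cS n 1)) : ∃ f : E n ≃ᵃ[ℝ] E n, K = f '' stdS n := by
  obtain ⟨c, hc, h⟩ := centre_Fin hK
  obtain ⟨f, hf⟩ := hE n _ (convex_image_sub hK.conv c) (isCompact_image_sub hK.comp c)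
    (zero_mem_Fin hc) (h ▸ hle.trans cS_le_Fin)
  refine ⟨f.trans (AffineEquiv.constVAdd ℝ (E n) c), ?_⟩
  rw [AffineEquiv.coe_trans, image_comp, ← hf, image_image]
  simp

theorem close_Fin {L : Set (E n)} (hL : Body L) {K : ℕ → Set (E n)} (hK : ∀ i, Body (K i))
    (ht : Tendsto (fun i => Metric.hausdorffDist L (K i)) atTop (𝓝 0)) {η : ℝ} (hη : 0 < η) :
    ∀ᶠ i in atTop, (∀ a ∈ L, ∃ b ∈ K i, ‖a - b‖ ≤ η) ∧ ∀ b ∈ K i, ∃ a ∈ L, ‖b - a‖ ≤ η := by
  filter_upwards [ht.eventually_lt_const hη] with j hj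
  have hne := Metric.hausdorffEDist_ne_top_of_nonempty_of_bounded (hL.int.mono interior_subset)
    ((hK j).int.mono interior_subset) hL.comp.isBounded (hK j).comp.isBounded
  refine ⟨fun a ha => ?_, fun b hb => ?_⟩
  · obtain ⟨b, hb, h'⟩ := Metric.exists_dist_lt_of_hausdorffDist_lt ha hj hne
    exact ⟨b, hb, by rw [← dist_eq_norm]; exact h'.le⟩
  · obtain ⟨a, ha, h'⟩ := Metric.exists_dist_lt_of_hausdorffDist_lt' hb hj hne
    exact ⟨a, ha, by rw [← dist_eq_norm, dist_comm]; exact h'.le⟩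

/-- bodies with almost minimal volume product are close to a simplex -/
theorem far_Fin (hE : EqStmt) (hC : CptStmt) (n : ℕ) {ε : ℝ} (hε : 0 < ε) :
    ∃ c : ℝ, 0 < c ∧ ∀ K : Set (E n), Body K →
      mstarInf K < ENNReal.ofReal (1 + c) * mahlerInf (cS n 1) → EF.Near ε K := by
  by_contra hcon
  have h0 : ∀ i : ℕ, ∃ K : Set (E n), Body K ∧
      mstarInf K < ENNReal.ofReal (1 + 1 / ((i : ℝ) + 1)) * mahlerInf (cS n 1) ∧
      ¬ EF.Near ε K := by
    intro i
    by_contra h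
    refine hcon ⟨1 / ((i : ℝ) + 1), by positivity, fun K hK hM => ?_⟩
    by_contra hN
    exact h ⟨K, hK, hM, hN⟩
  choose K hK hM hN using h0
  obtain ⟨f, L, φ, hL, hφ, ht⟩ := hC n K fun i => ⟨(hK i).conv, (hK i).comp, (hK i).int⟩
  set ε' := min ε (1 / 2) with hε'
  have hε'0 : 0 < ε' := by positivity
  have hε'1 : ε' < 1 := (min_le_right _ _).trans_lt (by norm_num)
  have hB : ∀ i, Body (f (φ i) '' K (φ i)) := fun i =>
    ⟨(hK _).conv.affine_image (f (φ i)).toAffineMap,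
      (hK _).comp.image (f (φ i)).continuous_of_finiteDimensional,
      (interior_affine _ _).2 (hK _).int⟩
  have hLB : Body L := ⟨hL.1, hL.2.1, hL.2.2⟩
  have hle : mstarInf L ≤ mahlerInf (cS n 1) := by
    by_contra hlt
    obtain ⟨v, hv1, hv2⟩ := exists_between (not_le.1 hlt)
    obtain ⟨η, hη, h⟩ := hLB.cont hε'0 hε'1 hv2
    have e1 : ∀ᶠ i : ℕ in atTop,
        ENNReal.ofReal (1 + 1 / ((i : ℝ) + 1)) * mahlerInf (cS n 1) < v := by
      have : Tendsto (fun i : ℕ => ENNReal.ofReal (1 + 1 / ((i : ℝ) + 1)) * mahlerInf (cS n 1))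
          atTop (𝓝 (ENNReal.ofReal (1 + 0) * mahlerInf (cS n 1))) :=
        ENNReal.Tendsto.mul_const (ENNReal.tendsto_ofReal
          (tendsto_const_nhds.add tendsto_one_div_add_atTop_nhds_zero_nat))
          (Or.inr mahlerInf_cS_lt_top.ne)
      exact this.eventually_lt_const (by simpa using hv1)
    obtain ⟨i, h1, h2⟩ :=
      ((close_Fin hLB hB ht hη).and (hφ.tendsto_atTop.eventually e1)).exists
    refine lt_irrefl _ ((h _ (hB i) h1.1 h1.2).2.2.2 ?_)
    rw [mstarInf_affine]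
    exact ((hM _).trans h2).le
  obtain ⟨e, he⟩ := simplex_Fin hE hLB hle
  obtain ⟨η, hη, h⟩ := hLB.cont hε'0 hε'1 (μ := 1) (v := 0) zero_lt_one
  obtain ⟨i, h1⟩ := (close_Fin hLB hB ht hη).exists
  have h2 := ((h _ (hB i) h1.1 h1.2).1 (he ▸ near_simplex e)).image (f (φ i)).symm hε'1
  rw [image_image] at h2
  simp only [AffineEquiv.symm_apply_apply, image_id'] at h2
  exact hN _ (h2.mono (min_le_left _ _))

theorem main_of (hE : EqStmt) (hC : CptStmt) (n : ℕ) : ∃ p₀ κ : ℝ, 0 < p₀ ∧ 0 < κ ∧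
    ∀ K : Set (Fin n → ℝ), Convex ℝ K → IsCompact K → (interior K).Nonempty →
      ∃ e : AffineEquiv ℝ (Fin n → ℝ) (Fin n → ℝ), K ⊆ e '' stdS n ∧
        (∀ p : ℝ, p₀ ≤ p →
          ENNReal.ofReal (1 + κ * (1 - (volume K).toReal / (volume (e '' stdS n)).toReal)) *
            (⨅ x ∈ stdS n, mahler p ((fun z => z - x) '' stdS n)) ≤ mahler p K) ∧
        ENNReal.ofReal (1 + κ * (1 - (volume K).toReal / (volume (e '' stdS n)).toReal)) *
          (⨅ x ∈ stdS n, mahlerInf ((fun z => z - x) '' stdS n)) ≤ mahlerInf K := by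
  obtain ⟨p₁, ε, κ, hp₁, hε, hκ, h⟩ := local_unif_both n
  obtain ⟨c, hc, hfar⟩ := far_Fin hE hC n hε
  obtain ⟨p₂, hp₂⟩ := eventually_atTop.1 (mahler_cS_le_inf (n := n) (η := c / (2 + c))
    (by positivity))
  refine ⟨max p₁ p₂, min κ (c / 2), lt_max_of_lt_left hp₁, by positivity,
    fun K hKc hKk hKi => ?_⟩
  have hG := hfar K ⟨hKc, hKk, hKi⟩
  rw [iInfInf_eq]
  have hw : ∀ e : AffineEquiv ℝ (E n) (E n), K ⊆ e '' stdS n →
      0 ≤ 1 - (volume K).toReal / (volume (e '' stdS n)).toReal := by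
    intro e he
    have hSt : volume (e '' stdS n) ≠ ∞ := by
      rw [volume_image_affine, volume_stdS]
      exact ENNReal.mul_ne_top ENNReal.ofReal_ne_top (volume_cS_lt_top zero_le_one).ne
    exact sub_nonneg.2
      (div_le_one_of_le₀ (ENNReal.toReal_mono hSt (measure_mono he)) ENNReal.toReal_nonneg)
  by_cases hn : EF.Near ε K
  · obtain ⟨e, hKe, hv⟩ := hn
    obtain ⟨e', h1, h2, h3⟩ := h K hKc hKk hKi e hKe hv
    have h4 : ENNReal.ofReal
        (1 + min κ (c / 2) * (1 - (volume K).toReal / (volume (e' '' stdS n)).toReal)) ≤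
        ENNReal.ofReal (1 + κ * (1 - (volume K).toReal / (volume (e' '' stdS n)).toReal)) :=
      ENNReal.ofReal_le_ofReal (by
        linarith [mul_le_mul_of_nonneg_right (min_le_left κ (c / 2)) (hw e' h1)])
    refine ⟨e', h1, fun p hp => ?_, (mul_le_mul_left h4 _).trans h3⟩
    have hp1 := (le_max_left _ _).trans hp
    rw [iInf_eq (hp₁.trans_le hp1)]
    exact (mul_le_mul_left h4 _).trans (h2 p hp1)
  · have h1 : ENNReal.ofReal (1 + c) * mahlerInf (cS n 1) ≤ mahlerInf K :=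
      (not_lt.1 fun hM => hn (hG hM)).trans ((iInf_le _ 0).trans (by simp))
    obtain ⟨e, he⟩ := exists_simplex_superset hKk
    have h2 : 1 + min κ (c / 2) * (1 - (volume K).toReal / (volume (e '' stdS n)).toReal) ≤
        1 + c / 2 := by
      have h3 : 0 ≤ (volume K).toReal / (volume (e '' stdS n)).toReal := by positivity
      nlinarith [mul_le_mul_of_nonneg_right (min_le_right κ (c / 2)) (hw e he)]
    refine ⟨e, he, fun p hp => ?_,
      (mul_le_mul_left (ENNReal.ofReal_le_ofReal (by linarith)) _).trans h1⟩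
    have hp0 := hp₁.trans_le ((le_max_left _ _).trans hp)
    rw [iInf_eq hp0]
    refine le_trans (mul_le_mul' (ENNReal.ofReal_le_ofReal h2)
      (hp₂ p ((le_max_right _ _).trans hp))) (le_trans (le_of_eq ?_)
        (h1.trans (mahlerInf_le_mahler hKk hKi hp0)))
    rw [← mul_assoc, ← ENNReal.ofReal_mul (by positivity)]
    congr 2
    field_simp
    ring

end Pool.Agent.MP_5f4cdd_gt.EQ

end

section

set_option autoImplicit false
open MeasureTheory ENNReal Set

namespace Pool.Agent.MP_5f4cdd_gt.EQ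

theorem cchord_all : CChordStmt := cchord_stmt hb_stmt LJ.chord_mahler

theorem key_all : KeyStmt := key_stmt OK.tb_all OK.fact_stmt lc_stmt cchord_all

theorem le_all : LeStmt := fun _ _ hc hK h0 =>
  body_le (cmain_stmt lc_stmt prod_stmt2 key_all) body_stmt vol_stmt hc hK h0

theorem eq_all : EqStmt := fun _ _ hc hK h0 hle =>
  body_eq (ceq_stmt lc_stmt prod_stmt2 key_all) (lat_stmt lc_stmt hb_stmt cchord_all)
    (ind_stmt hb_stmt) simp_stmt body_stmt vol_stmt hc hK h0 hle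

theorem main_all (n : ℕ) : ∃ p₀ κ : ℝ, 0 < p₀ ∧ 0 < κ ∧
    ∀ K : Set (Fin n → ℝ), Convex ℝ K → IsCompact K → (interior K).Nonempty →
      ∃ e : AffineEquiv ℝ (Fin n → ℝ) (Fin n → ℝ), K ⊆ e '' stdS n ∧
        (∀ p : ℝ, p₀ ≤ p →
          ENNReal.ofReal (1 + κ * (1 - (volume K).toReal / (volume (e '' stdS n)).toReal)) *
            (⨅ x ∈ stdS n, mahler p ((fun z => z - x) '' stdS n)) ≤ mahler p K) ∧
        ENNReal.ofReal (1 + κ * (1 - (volume K).toReal / (volume (e '' stdS n)).toReal)) *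
          (⨅ x ∈ stdS n, mahlerInf ((fun z => z - x) '' stdS n)) ≤ mahlerInf K :=
  main_of eq_all (cpt_stmt nrm_stmt2) n

end Pool.Agent.MP_5f4cdd_gt.EQ

end
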